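import Pool.Agent.Work.MP_4030f5_lc.BDefs

/-! # Descriptions by first order formulas (prenex form), the two statements -/

namespace BU

/-- Quantify the variables `y_0, ..., y_{r-1}` of `P` over the real numbers, `y_0` outermost:
`∃` where `Q i = true`, `∀` where `Q i = false`. -/
def quant : (r : ℕ) → (Fin r → Bool) → ((Fin r → ℝ) → Prop) → Prop
  | 0, _, P => P Fin.elim0
  | r + 1, Q, P =>
      if Q 0 = true then ∃ t : ℝ, quant r (Fin.tail Q) (fun y => P (Fin.cons t y))
      else ∀ t : ℝ, quant r (Fin.tail Q) (fun y => P (Fin.cons t y))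

/-- The combinatorial part of a first order formula of size `c` in prenex form: `c` quantifiers and
a Boolean combination of the sign conditions of `c` polynomials. -/
abbrev Formula (c : ℕ) : Type := (Fin c → Bool) × Shape c

/-- The semialgebraic set of all `x ∈ ℝ^k` that satisfy the prenex formula `F`, whose `c`
polynomials of degree at most `c` in the `k + c` variables `(x, y)` have coefficients `a`, the
variables `y` being quantified. -/
def foSet {k c : ℕ} (F : Formula c) (a : Coef (k + c) c) : Set (Fin k → ℝ) :=
  {x | quant c F.1 (fun y => F.2 (fun j => SignType.sign (polyVal a j (Fin.append x y))) = true)}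

/-- The sets described by the formulas `F i` with coefficients `a i` form an arrangement: all of
them are closed and bounded. -/
def Arr (k : ℕ) {c n : ℕ} (F : Fin n → Formula c) (a : Fin n → Coef (k + c) c) : Prop :=
  ∀ i, IsClosed (foSet (k := k) (F i) (a i)) ∧ Bornology.IsBounded (foSet (k := k) (F i) (a i))

/-- The union of the sets. -/
def uni (k : ℕ) {c n : ℕ} (F : Fin n → Formula c) (a : Fin n → Coef (k + c) c) :
    Set (Fin k → ℝ) := ⋃ i, foSet (F i) (a i)

/-- The Betti numbers of the unions of `n` sets of description complexity `c` in `ℝ^k` are computed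
with `O(n^k)` operations on real numbers: for all `n` and all formulas there is a tree of depth at
most `C * n ^ k` that computes them from the coefficients, with any initial scratch content. -/
def FastBetti (k c : ℕ) : Prop :=
  ∃ C : ℕ, ∀ (n : ℕ) (F : Fin n → Formula c),
    ∃ T : ACT (Fin n × (Fin c × Mon (k + c) c)) (Fin k → ℕ), T.depth ≤ C * n ^ k ∧
      ∀ a : Fin n → Coef (k + c) c, Arr k F a → ∀ (s : ℕ → ℝ) (q : Fin k),
        T.run (fun z => a z.1 z.2) s q = betti (uni k F a) q

/-- The same with arbitrary real constants in the trees. -/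
def FastBettiR (k c : ℕ) : Prop :=
  ∃ C : ℕ, ∀ (n : ℕ) (F : Fin n → Formula c),
    ∃ T : RACT (Fin n × (Fin c × Mon (k + c) c)) (Fin k → ℕ), T.depth ≤ C * n ^ k ∧
      ∀ a : Fin n → Coef (k + c) c, Arr k F a → ∀ (s : ℕ → ℝ) (q : Fin k),
        T.run (fun z => a z.1 z.2) s q = betti (uni k F a) q

end BU
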