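import Pool.Agent.Work.MP_4030f5_lc.B4
import Pool.Agent.Work.MP_4030f5_lc.QDefs

/-! # B5: dimension one, sets described by first order formulas: no linear algorithm -/

namespace BU

theorem B5_quant_const (r : ℕ) (Q : Fin r → Bool) (p : Prop) : quant r Q (fun _ => p) ↔ p := by
  induction r with
  | zero => exact Iff.rfl
  | succ r ih =>
    simp only [quant]
    have h := ih (Fin.tail Q)
    split_ifs
    · exact ⟨fun ⟨_, ht⟩ => h.1 ht, fun hp => ⟨0, h.2 hp⟩⟩
    · exact ⟨fun ht => h.1 (ht 0), fun hp _ => h.2 hp⟩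

/-- In dimension one, for every description bound `c ≥ 1`, no family of algebraic computation trees
(even with arbitrary real constants) of linear depth computes the Betti numbers of the unions. -/
theorem no_linear_betti_fo (c : ℕ) (hc : 1 ≤ c) :
    ¬ ∃ C : ℕ, ∀ (n : ℕ) (F : Fin n → Formula c),
      ∃ T : RACT (Fin n × (Fin c × Mon (1 + c) c)) (Fin 1 → ℕ), T.depth ≤ C * n ^ 1 ∧
        ∀ (a : Fin n → Coef (1 + c) c) (s : ℕ → ℝ), (∀ i, IsCompact (foSet (F i) (a i))) →
          ∀ q : Fin 1, T.run (fun z => a z.1 z.2) s q =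
            betti (⋃ i, foSet (F i) (a i) : Set (Fin 1 → ℝ)) q := by
  classical
  rintro ⟨C, hC⟩
  obtain ⟨n, hn⟩ := no_linear (C + 3)
  have hn0 : 0 < n := by
    rcases Nat.eq_zero_or_pos n with rfl | h
    · have := hn Unit (.leaf ()) () (fun x => ⟨fun _ => Function.injective_of_subsingleton x,
        fun _ => rfl⟩)
      simp [RACT.depth] at this
    · exact h
  let j0 : Fin c := ⟨0, hc⟩
  let i0 : Fin (1 + c) := Fin.castAdd c 0
  let m0 : Mon (1 + c) c := ⟨fun _ => 0, by simp⟩
  let m1 : Mon (1 + c) c := ⟨fun i => if i = i0 then ⟨1, by omega⟩ else 0, by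
    rw [Finset.sum_eq_single i0]
    · simpa using hc
    · intro i _ hi; simp [hi]
    · simp⟩
  have hm : m0 ≠ m1 := by
    intro h
    have := congrFun (congrArg Subtype.val h) i0
    simp [m0, m1, Fin.ext_iff] at this
  let φ : Fin n → Formula c := fun _ => (fun _ => true, fun v => decide (v j0 = 0))
  obtain ⟨T, hT, hrun⟩ := hC n φ
  -- coefficients
  let coef : ℝ → Coef (1 + c) c := fun r z =>
    if z = (j0, m0) then - r else if z = (j0, m1) then 1 else 0
  have hpoly : ∀ (r : ℝ) (y : Fin (1 + c) → ℝ), polyVal (coef r) j0 y = y i0 - r := by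
    intro r y
    unfold polyVal
    rw [← Finset.add_sum_erase _ _ (Finset.mem_univ m0),
      ← Finset.add_sum_erase _ _ (Finset.mem_erase.2 ⟨hm.symm, Finset.mem_univ m1⟩)]
    rw [Finset.sum_eq_zero]
    · have hprod : ∏ i, y i ^ ((m1.1 i : Fin (c + 1)) : ℕ) = y i0 := by
        rw [Finset.prod_eq_single i0]
        · simp [m1]
        · intro i _ hi; simp [m1, hi]
        · simp
      rw [hprod]
      simp [coef, m0, hm.symm]
      ring
    · intro μ hμ
      simp only [Finset.mem_erase, Finset.mem_univ, and_true] at hμ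
      have h1 : (j0, μ) ≠ (j0, m0) := fun h => hμ.2 (Prod.ext_iff.1 h).2
      have h2 : (j0, μ) ≠ (j0, m1) := fun h => hμ.1 (Prod.ext_iff.1 h).2
      simp [coef, h1, h2]
  have hset : ∀ (i : Fin n) (r : ℝ), foSet (φ i) (coef r) = {fun _ => r} := by
    intro i r
    ext y
    have h1 : (fun x : Fin c → ℝ => (φ i).2 (fun j => SignType.sign (polyVal (coef r) j
        (Fin.append y x))) = true) = fun _ => y 0 - r = 0 := by
      funext x
      simp only [φ, decide_eq_true_eq, hpoly, sign_eq_zero_iff, i0, Fin.append_left]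
    show quant c (φ i).1 (fun x : Fin c → ℝ => (φ i).2 (fun j => SignType.sign
      (polyVal (coef r) j (Fin.append y x))) = true) ↔ y ∈ ({fun _ => r} : Set (Fin 1 → ℝ))
    rw [h1, B5_quant_const, Set.mem_singleton_iff]
    constructor
    · intro h
      funext t
      have : t = 0 := Fin.ext (by omega)
      rw [this]; linarith
    · rintro rfl; simp
  -- the renamed tree
  let loc : Fin n × (Fin c × Mon (1 + c) c) → ℕ := fun z =>
    if z.2 = (j0, m0) then 2 + (z.1 : ℕ) else if z.2 = (j0, m1) then 1 else 0
  have hloc : ∀ z, loc z < n + 2 := by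
    intro z
    simp only [loc]
    split_ifs <;> have := z.1.2 <;> omega
  let T' : RACT (Fin n) (Fin 1 → ℕ) :=
    .const 0 0 (.const 1 1 (B4_pre (B4_ren (n + 2) loc T) (List.finRange n)))
  have hdepth : T'.depth ≤ (C + 3) * n := by
    simp only [T', RACT.depth, B4_depth_pre, B4_depth_ren, List.length_finRange]
    rw [pow_one] at hT
    nlinarith
  have hT' : ∀ x : Fin n → ℝ, T'.run x (fun _ => 0) = (fun _ => (Finset.univ.image (fun i : Fin n =>
      (fun _ : Fin 1 => x i))).card) := by
    intro x
    simp only [T', RACT.run]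
    obtain ⟨s', h1, h2, h3, h4, -⟩ := B4_run_pre (B4_ren (n + 2) loc T) x (List.finRange n)
      (Function.update (Function.update (fun _ => 0) 0 0) 1 1) (by
        rw [Function.update_of_ne (by omega)]; simp)
    rw [h1]
    rw [B4_run_ren (n + 2) loc hloc T (fun z => coef (x z.1) z.2) x
      (fun r => s' (n + 2 + r)) s' ?_ (fun r => rfl)]
    · funext q
      rw [hrun (fun i => coef (x i)) _ (fun i => by rw [hset i (x i)]; exact isCompact_singleton) q]
      have hq : q = 0 := Fin.ext (by omega)
      rw [hq]
      have hU : (⋃ i, foSet (φ i) (coef (x i)) : Set (Fin 1 → ℝ)) =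
          ((Finset.univ.image (fun i : Fin n => (fun _ : Fin 1 => x i)) : Finset (Fin 1 → ℝ)) :
            Set (Fin 1 → ℝ)) := by
        ext y
        simp only [hset, Set.mem_iUnion, Set.mem_singleton_iff, Finset.coe_image,
          Finset.coe_univ, Set.image_univ, Set.mem_range]
        exact ⟨fun ⟨i, h⟩ => ⟨i, h.symm⟩, fun ⟨i, h⟩ => ⟨i, h.symm⟩⟩
      have := betti_zero_finite (Finset.univ.image (fun i : Fin n => (fun _ : Fin 1 => x i)))
      rw [← this]
      exact congrArg (fun X : Set (Fin 1 → ℝ) => betti X 0) hU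
    · intro z
      have h3' : s' 1 = 1 := by rw [h3]; simp
      simp only [loc, coef]
      split_ifs with ha hb
      · exact h4 z.1 (List.mem_finRange _)
      · exact h3'
      · exact h2
  have := hn (Fin 1 → ℕ) T' (fun _ => n) (fun x => ?_)
  · omega
  · rw [hT']
    constructor
    · intro h
      have h1 : (Finset.univ.image (fun i : Fin n => (fun _ : Fin 1 => x i))).card =
          (Finset.univ : Finset (Fin n)).card := by
        rw [congrFun h 0]; simp
      have h2 := Finset.card_image_iff.1 h1
      intro i j hij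
      exact h2 (by simp) (by simp) (by funext _; exact hij)
    · intro h
      funext _
      rw [Finset.card_image_of_injective]
      · simp
      · intro i j hij
        exact h (congrFun hij 0)

end BU
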