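import Pool.Agent.Work.MP_4030f5_lc.Defs

/-! # BDefs: computation trees with arbitrary real constants (for the lower bound in dimension 1) -/

namespace BU

/-- Algebraic computation trees with arbitrary real constants; otherwise as `ACT`. -/
inductive RACT (σ : Type) (β : Type) : Type
  | leaf : β → RACT σ β
  | const : ℕ → ℝ → RACT σ β → RACT σ β
  | op : Op → ℕ → σ ⊕ ℕ → σ ⊕ ℕ → RACT σ β → RACT σ β
  | branch : σ ⊕ ℕ → RACT σ β → RACT σ β → RACT σ β → RACT σ β

namespace RACT

variable {σ β : Type}

/-- Number of nodes (constants, arithmetic operations, comparisons) on the longest path. -/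
def depth : RACT σ β → ℕ
  | leaf _ => 0
  | const _ _ T => T.depth + 1
  | op _ _ _ _ T => T.depth + 1
  | branch _ T₁ T₂ T₃ => max T₁.depth (max T₂.depth T₃.depth) + 1

/-- Run the tree on input `x` with scratch content `s`. -/
noncomputable def run (x : σ → ℝ) : RACT σ β → (ℕ → ℝ) → β
  | leaf b, _ => b
  | const r c T, s => T.run x (Function.update s r c)
  | op o r i j T, s => T.run x (Function.update s r (o.val (Sum.elim x s i) (Sum.elim x s j)))
  | branch i T₁ T₂ T₃, s =>
      if Sum.elim x s i < 0 then T₁.run x s
      else if Sum.elim x s i = 0 then T₂.run x s else T₃.run x s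

end RACT

end BU
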