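import Pool.Agent.Work.MP_4030f5_lc.Q0

/-! # A1: cost of functions computed by algebraic computation trees -/

namespace BU

variable {σ β γ : Type}

/-- `φ` is computed on the inputs in `D` by a tree of depth at most `c`, whatever the initial
content of the scratch registers. -/
def Cost (D : Set (σ → ℝ)) (c : ℕ) (φ : (σ → ℝ) → β) : Prop :=
  ∃ T : ACT σ β, T.depth ≤ c ∧ ∀ x ∈ D, ∀ s, T.run x s = φ x

theorem Cost.mono {D D' : Set (σ → ℝ)} (hD : D' ⊆ D) {c c' : ℕ} (hc : c ≤ c')
    {φ : (σ → ℝ) → β} (h : Cost D c φ) : Cost D' c' φ := by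
  obtain ⟨T, hT, hr⟩ := h
  exact ⟨T, hT.trans hc, fun x hx s => hr x (hD hx) s⟩

theorem Cost.congr {D : Set (σ → ℝ)} {c : ℕ} {φ ψ : (σ → ℝ) → β} (h : Cost D c φ)
    (hφψ : ∀ x ∈ D, φ x = ψ x) : Cost D c ψ := by
  obtain ⟨T, hT, hr⟩ := h
  exact ⟨T, hT, fun x hx s => by rw [hr x hx s, hφψ x hx]⟩

theorem Cost.const (D : Set (σ → ℝ)) (b : β) : Cost D 0 (fun _ => b) :=
  ⟨ACT.leaf b, le_rfl, fun _ _ _ => rfl⟩

/-- graft trees at the leaves -/
def A1a_graft : ACT σ β → (β → ACT σ γ) → ACT σ γ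
  | .leaf b, k => k b
  | .const r c T, k => .const r c (A1a_graft T k)
  | .op o r i j T, k => .op o r i j (A1a_graft T k)
  | .branch i T₁ T₂ T₃, k => .branch i (A1a_graft T₁ k) (A1a_graft T₂ k) (A1a_graft T₃ k)

/-- final content of the scratch registers -/
noncomputable def A1a_fin (x : σ → ℝ) : ACT σ β → (ℕ → ℝ) → (ℕ → ℝ)
  | .leaf _, s => s
  | .const r c T, s => A1a_fin x T (Function.update s r (c : ℝ))
  | .op o r i j T, s =>
      A1a_fin x T (Function.update s r (o.val (Sum.elim x s i) (Sum.elim x s j)))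
  | .branch i T₁ T₂ T₃, s =>
      if Sum.elim x s i < 0 then A1a_fin x T₁ s
      else if Sum.elim x s i = 0 then A1a_fin x T₂ s else A1a_fin x T₃ s

theorem A1a_run_graft (x : σ → ℝ) (T : ACT σ β) (k : β → ACT σ γ) (s : ℕ → ℝ) :
    (A1a_graft T k).run x s = (k (T.run x s)).run x (A1a_fin x T s) := by
  induction T generalizing s with
  | leaf b => rfl
  | const r c T ih => simp only [A1a_graft, ACT.run, A1a_fin, ih]
  | op o r i j T ih => simp only [A1a_graft, ACT.run, A1a_fin, ih]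
  | branch i T₁ T₂ T₃ ih1 ih2 ih3 =>
    simp only [A1a_graft, ACT.run, A1a_fin]
    split
    · exact ih1 s
    · split
      · exact ih2 s
      · exact ih3 s

theorem A1a_depth_graft (T : ACT σ β) (k : β → ACT σ γ) {c' : ℕ} (h : ∀ b, (k b).depth ≤ c') :
    (A1a_graft T k).depth ≤ T.depth + c' := by
  induction T with
  | leaf b => simpa [A1a_graft, ACT.depth] using h b
  | const r c T ih => simp only [A1a_graft, ACT.depth]; omega
  | op o r i j T ih => simp only [A1a_graft, ACT.depth]; omega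
  | branch i T₁ T₂ T₃ ih1 ih2 ih3 => simp only [A1a_graft, ACT.depth]; omega

/-- sequential composition: graft at every leaf. -/
theorem Cost.bind {D : Set (σ → ℝ)} {c c' : ℕ} {φ : (σ → ℝ) → β} {ψ : β → (σ → ℝ) → γ}
    (h : Cost D c φ) (h' : ∀ b, Cost {x | x ∈ D ∧ φ x = b} c' (ψ b)) :
    Cost D (c + c') (fun x => ψ (φ x) x) := by
  obtain ⟨T, hT, hr⟩ := h
  choose k hk hkr using h'
  refine ⟨A1a_graft T k, (A1a_depth_graft T k hk).trans (by omega), fun x hx s => ?_⟩
  rw [A1a_run_graft, hr x hx s]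
  exact hkr (φ x) x ⟨hx, rfl⟩ _

theorem Cost.comp {D : Set (σ → ℝ)} {c : ℕ} {φ : (σ → ℝ) → β} (h : Cost D c φ) (f : β → γ) :
    Cost D c (fun x => f (φ x)) :=
  Cost.bind (c' := 0) (ψ := fun b _ => f b) h (fun b => Cost.const _ (f b))

theorem Cost.prod {D : Set (σ → ℝ)} {c c' : ℕ} {φ : (σ → ℝ) → β} {ψ : (σ → ℝ) → γ}
    (h : Cost D c φ) (h' : Cost D c' ψ) : Cost D (c + c') (fun x => (φ x, ψ x)) :=
  Cost.bind (ψ := fun b x => (b, ψ x)) h
    (fun b => (h'.comp (fun g => (b, g))).mono (fun _ hx => hx.1) le_rfl)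

/-- finitely many functions, one after the other. -/
theorem Cost.pi {ι : Type} [Fintype ι] {D : Set (σ → ℝ)} {c : ℕ} {φ : ι → (σ → ℝ) → β}
    (h : ∀ i, Cost D c (φ i)) : Cost D (Fintype.card ι * c) (fun x i => φ i x) := by
  classical
  have key : ∀ (n : ℕ) (φ : Fin n → (σ → ℝ) → β), (∀ i, Cost D c (φ i)) →
      Cost D (n * c) (fun x i => φ i x) := by
    intro n
    induction n with
    | zero =>
      intro φ _
      exact (Cost.const D (fun i : Fin 0 => i.elim0)).mono le_rfl (Nat.zero_le _) |>.congr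
        (fun x _ => by funext i; exact i.elim0)
    | succ n ih =>
      intro φ hφ
      have h1 := ih (fun i => φ i.succ) (fun i => hφ _)
      have h2 := ((hφ 0).prod h1).comp (fun p : β × (Fin n → β) =>
        (Fin.cons p.1 p.2 : Fin (n + 1) → β))
      refine (h2.mono le_rfl (by rw [Nat.succ_mul]; omega)).congr (fun x _ => ?_)
      funext i
      refine Fin.cases ?_ (fun j => ?_) i
      · rfl
      · rfl
  have e := Fintype.equivFin ι
  have h1 := key (Fintype.card ι) (fun i => φ (e.symm i)) (fun i => h _)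
  refine (h1.comp (fun g i => g (e i))).congr (fun x _ => ?_)
  funext i
  simp

end BU
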