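import Pool.Agent.Work.MP_4030f5_lc.A1a

/-! # A1: cost of functions computed by algebraic computation trees -/

namespace BU

variable {σ β γ : Type}

/-- compile an expression, the value is stored in the register `r`, the registers below `r` are
not changed -/
def A1b_comp : Fm σ → ℕ → ACT σ β → ACT σ β
  | .var i, r, T => .const r 0 (.op .add r (.inl i) (.inr r) T)
  | .const c, r, T => .const r c T
  | .add e f, r, T => A1b_comp e r (A1b_comp f (r + 1) (.op .add r (.inr r) (.inr (r + 1)) T))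
  | .mul e f, r, T => A1b_comp e r (A1b_comp f (r + 1) (.op .mul r (.inr r) (.inr (r + 1)) T))

theorem A1b_comp_run (x : σ → ℝ) (e : Fm σ) (r : ℕ) (T : ACT σ β) (s : ℕ → ℝ) :
    ∃ s' : ℕ → ℝ, (A1b_comp e r T).run x s = T.run x s' ∧ s' r = e.eval x ∧
      ∀ q < r, s' q = s q := by
  induction e generalizing r T s with
  | var i =>
    refine ⟨_, rfl, ?_, ?_⟩
    · simp [Op.val, Fm.eval]
    · intro q hq
      rw [Function.update_of_ne hq.ne, Function.update_of_ne hq.ne]
  | const c =>
    refine ⟨_, rfl, ?_, ?_⟩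
    · simp [Fm.eval]
    · intro q hq
      rw [Function.update_of_ne hq.ne]
  | add e f ihe ihf =>
    obtain ⟨s1, h1, h2, h3⟩ := ihe r (A1b_comp f (r + 1) (.op .add r (.inr r) (.inr (r + 1)) T)) s
    obtain ⟨s2, h4, h5, h6⟩ := ihf (r + 1) (.op .add r (.inr r) (.inr (r + 1)) T) s1
    refine ⟨_, (h1.trans h4), ?_, ?_⟩
    · simp [Op.val, Fm.eval, h5, h6 r (Nat.lt_succ_self r), h2]
    · intro q hq
      rw [Function.update_of_ne hq.ne, h6 q (by omega), h3 q hq]
  | mul e f ihe ihf =>
    obtain ⟨s1, h1, h2, h3⟩ := ihe r (A1b_comp f (r + 1) (.op .mul r (.inr r) (.inr (r + 1)) T)) s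
    obtain ⟨s2, h4, h5, h6⟩ := ihf (r + 1) (.op .mul r (.inr r) (.inr (r + 1)) T) s1
    refine ⟨_, (h1.trans h4), ?_, ?_⟩
    · simp [Op.val, Fm.eval, h5, h6 r (Nat.lt_succ_self r), h2]
    · intro q hq
      rw [Function.update_of_ne hq.ne, h6 q (by omega), h3 q hq]

theorem A1b_comp_depth (e : Fm σ) (r : ℕ) (T : ACT σ β) :
    (A1b_comp e r T).depth ≤ 2 * e.size + T.depth := by
  induction e generalizing r T with
  | var i => simp only [A1b_comp, ACT.depth, Fm.size]; omega
  | const c => simp only [A1b_comp, ACT.depth, Fm.size]; omega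
  | add e f ihe ihf =>
    simp only [A1b_comp, Fm.size]
    refine (ihe _ _).trans ?_
    have := ihf (r + 1) (.op .add r (.inr r) (.inr (r + 1)) T)
    simp only [ACT.depth] at this
    omega
  | mul e f ihe ihf =>
    simp only [A1b_comp, Fm.size]
    refine (ihe _ _).trans ?_
    have := ihf (r + 1) (.op .mul r (.inr r) (.inr (r + 1)) T)
    simp only [ACT.depth] at this
    omega

/-- evaluate an expression and branch on its sign. -/
theorem Cost.sgn (e : Fm σ) : Cost Set.univ (2 * e.size + 1) (fun x => e.sgn x) := by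
  refine ⟨A1b_comp e 0 (.branch (.inr 0) (.leaf (-1)) (.leaf 0) (.leaf 1)), ?_, ?_⟩
  · refine (A1b_comp_depth _ _ _).trans ?_
    simp [ACT.depth]
  · intro x _ s
    obtain ⟨s', h1, h2, -⟩ := A1b_comp_run x e 0
      (.branch (.inr 0) (.leaf (-1)) (.leaf 0) (.leaf (1 : SignType))) s
    rw [h1]
    simp only [ACT.run, Sum.elim_inr, h2, Fm.sgn]
    rcases lt_trichotomy (e.eval x) 0 with h | h | h
    · rw [if_pos h, sign_neg h]
    · rw [if_neg (by linarith), if_pos h, h, sign_zero]
    · rw [if_neg (by linarith), if_neg h.ne', sign_pos h]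

theorem A1b_size_pos (e : Fm σ) : 1 ≤ e.size := by
  cases e <;> simp [Fm.size]

theorem A1b_list (F : List (Fm σ)) :
    Cost Set.univ (3 * tsize F) (fun x => F.map (fun e => e.sgn x)) := by
  induction F with
  | nil => exact Cost.const _ _
  | cons e F ih =>
    have h := ((Cost.sgn e).prod ih).comp (fun p : SignType × List SignType => p.1 :: p.2)
    refine h.mono le_rfl ?_
    have h1 := A1b_size_pos e
    have h2 : tsize (e :: F) = e.size + tsize F := by simp [tsize]
    omega

/-- functions of bounded complexity have bounded cost. -/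
theorem Cost.of_bdd {C : ℕ} {φ : (σ → ℝ) → β} (h : Bdd C φ) : Cost Set.univ (3 * C) φ := by
  classical
  obtain ⟨F, hF, hF'⟩ := h
  have h1 := (A1b_list F).comp (fun l : List SignType =>
    if h : ∃ y : σ → ℝ, F.map (fun e => e.sgn y) = l then φ h.choose else φ 0)
  refine (h1.mono le_rfl (Nat.mul_le_mul_left 3 hF)).congr (fun x _ => ?_)
  have hex : ∃ y : σ → ℝ, F.map (fun e => e.sgn y) = F.map (fun e => e.sgn x) := ⟨x, rfl⟩
  rw [dif_pos hex]
  apply hF'
  intro e he
  exact List.map_inj_left.1 hex.choose_spec e he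

/-- pruning: if on all inputs of `D` the computation path has length at most `c`, then there is a
tree of depth at most `c`.  (`len` is the length of the computation path.) -/
noncomputable def ACT.len (x : σ → ℝ) : ACT σ β → (ℕ → ℝ) → ℕ
  | .leaf _, _ => 0
  | .const r c T, s => T.len x (Function.update s r (c : ℝ)) + 1
  | .op o r i j T, s =>
      T.len x (Function.update s r (o.val (Sum.elim x s i) (Sum.elim x s j))) + 1
  | .branch i T₁ T₂ T₃, s =>
      (if Sum.elim x s i < 0 then T₁.len x s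
      else if Sum.elim x s i = 0 then T₂.len x s else T₃.len x s) + 1

/-- cut a tree at depth `n` -/
def A1b_prune [Inhabited β] : ACT σ β → ℕ → ACT σ β
  | .leaf b, _ => .leaf b
  | .const _ _ _, 0 => .leaf default
  | .const r c T, n + 1 => .const r c (A1b_prune T n)
  | .op _ _ _ _ _, 0 => .leaf default
  | .op o r i j T, n + 1 => .op o r i j (A1b_prune T n)
  | .branch _ _ _ _, 0 => .leaf default
  | .branch i T₁ T₂ T₃, n + 1 => .branch i (A1b_prune T₁ n) (A1b_prune T₂ n) (A1b_prune T₃ n)

theorem A1b_prune_depth [Inhabited β] (T : ACT σ β) (n : ℕ) : (A1b_prune T n).depth ≤ n := by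
  induction T generalizing n with
  | leaf b => simp [A1b_prune, ACT.depth]
  | const r c T ih =>
    cases n with
    | zero => simp [A1b_prune, ACT.depth]
    | succ n => simp only [A1b_prune, ACT.depth]; have := ih n; omega
  | op o r i j T ih =>
    cases n with
    | zero => simp [A1b_prune, ACT.depth]
    | succ n => simp only [A1b_prune, ACT.depth]; have := ih n; omega
  | branch i T₁ T₂ T₃ ih1 ih2 ih3 =>
    cases n with
    | zero => simp [A1b_prune, ACT.depth]
    | succ n =>
      simp only [A1b_prune, ACT.depth]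
      have := ih1 n
      have := ih2 n
      have := ih3 n
      omega

theorem A1b_prune_run [Inhabited β] (x : σ → ℝ) (T : ACT σ β) (n : ℕ) (s : ℕ → ℝ)
    (h : T.len x s ≤ n) : (A1b_prune T n).run x s = T.run x s := by
  induction T generalizing n s with
  | leaf b => simp [A1b_prune]
  | const r c T ih =>
    simp only [ACT.len] at h
    cases n with
    | zero => omega
    | succ n => simp only [A1b_prune, ACT.run]; exact ih n _ (by omega)
  | op o r i j T ih =>
    simp only [ACT.len] at h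
    cases n with
    | zero => omega
    | succ n => simp only [A1b_prune, ACT.run]; exact ih n _ (by omega)
  | branch i T₁ T₂ T₃ ih1 ih2 ih3 =>
    simp only [ACT.len] at h
    cases n with
    | zero => omega
    | succ n =>
      simp only [A1b_prune, ACT.run]
      by_cases h1 : Sum.elim x s i < 0
      · rw [if_pos h1] at h ⊢
        rw [if_pos h1]
        exact ih1 n _ (by omega)
      · rw [if_neg h1] at h ⊢
        rw [if_neg h1]
        by_cases h2 : Sum.elim x s i = 0
        · rw [if_pos h2] at h ⊢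
          rw [if_pos h2]
          exact ih2 n _ (by omega)
        · rw [if_neg h2] at h ⊢
          rw [if_neg h2]
          exact ih3 n _ (by omega)

theorem Cost.of_len [Inhabited β] {D : Set (σ → ℝ)} {c : ℕ} {φ : (σ → ℝ) → β} (T : ACT σ β)
    (h : ∀ x ∈ D, ∀ s, T.run x s = φ x ∧ T.len x s ≤ c) : Cost D c φ :=
  ⟨A1b_prune T c, A1b_prune_depth T c, fun x hx s => by
    rw [A1b_prune_run x T c s (h x hx s).2, (h x hx s).1]⟩

/-- renaming of the registers -/
def A1b_ren {τ : Type} (f : τ → σ ⊕ ℕ) (g : ℕ → ℕ) : ACT τ β → ACT σ β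
  | .leaf b => .leaf b
  | .const r c T => .const (g r) c (A1b_ren f g T)
  | .op o r i j T => .op o (g r) (Sum.elim f (fun r => .inr (g r)) i)
      (Sum.elim f (fun r => .inr (g r)) j) (A1b_ren f g T)
  | .branch i T₁ T₂ T₃ => .branch (Sum.elim f (fun r => .inr (g r)) i) (A1b_ren f g T₁)
      (A1b_ren f g T₂) (A1b_ren f g T₃)

theorem A1b_ren_depth {τ : Type} (f : τ → σ ⊕ ℕ) (g : ℕ → ℕ) (T : ACT τ β) :
    (A1b_ren f g T).depth = T.depth := by
  induction T with
  | leaf b => rfl
  | const r c T ih => simp only [A1b_ren, ACT.depth, ih]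
  | op o r i j T ih => simp only [A1b_ren, ACT.depth, ih]
  | branch i T₁ T₂ T₃ ih1 ih2 ih3 => simp only [A1b_ren, ACT.depth, ih1, ih2, ih3]

theorem A1b_upd {τ : Type} {f : τ → σ ⊕ ℕ} {g : ℕ → ℕ} (hg : Function.Injective g)
    (hfg : ∀ i r, f i ≠ .inr (g r)) {x : σ → ℝ} {x' : τ → ℝ} {s s' : ℕ → ℝ}
    (h1 : ∀ i, Sum.elim x s (f i) = x' i) (h2 : ∀ r, s (g r) = s' r) (r : ℕ) (v : ℝ) :
    (∀ i, Sum.elim x (Function.update s (g r) v) (f i) = x' i) ∧
      (∀ q, Function.update s (g r) v (g q) = Function.update s' r v q) := by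
  constructor
  · intro i
    rw [← h1 i]
    rcases hfi : f i with a | q
    · rfl
    · simp only [Sum.elim_inr]
      rw [Function.update_of_ne]
      intro h
      rw [h] at hfi
      exact hfg i r hfi
  · intro q
    by_cases hq : q = r
    · rw [hq, Function.update_self, Function.update_self]
    · rw [Function.update_of_ne (fun h => hq (hg h)), Function.update_of_ne hq, h2]

theorem A1b_ren_run {τ : Type} {f : τ → σ ⊕ ℕ} {g : ℕ → ℕ} (hg : Function.Injective g)
    (hfg : ∀ i r, f i ≠ .inr (g r)) {x : σ → ℝ} {x' : τ → ℝ} (T : ACT τ β) {s s' : ℕ → ℝ}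
    (h1 : ∀ i, Sum.elim x s (f i) = x' i) (h2 : ∀ r, s (g r) = s' r) :
    (A1b_ren f g T).run x s = T.run x' s' := by
  have hreg : ∀ (s s' : ℕ → ℝ), (∀ i, Sum.elim x s (f i) = x' i) → (∀ r, s (g r) = s' r) →
      ∀ i : τ ⊕ ℕ, Sum.elim x s (Sum.elim f (fun r => .inr (g r)) i) = Sum.elim x' s' i := by
    intro s s' h1 h2 i
    rcases i with i | r
    · exact h1 i
    · exact h2 r
  induction T generalizing s s' with
  | leaf b => rfl
  | const r c T ih =>
    simp only [A1b_ren, ACT.run]
    obtain ⟨h3, h4⟩ := A1b_upd hg hfg h1 h2 r (c : ℝ)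
    exact ih h3 h4
  | op o r i j T ih =>
    simp only [A1b_ren, ACT.run]
    rw [hreg s s' h1 h2, hreg s s' h1 h2]
    obtain ⟨h3, h4⟩ := A1b_upd hg hfg h1 h2 r (o.val (Sum.elim x' s' i) (Sum.elim x' s' j))
    exact ih h3 h4
  | branch i T₁ T₂ T₃ ih1 ih2 ih3 =>
    simp only [A1b_ren, ACT.run]
    rw [hreg s s' h1 h2, ih1 h1 h2, ih2 h1 h2, ih3 h1 h2]

/-- load constants into the registers `0, 2, ..., 2 (n - 1)` -/
def A1b_load (z : ℕ → ℤ) : ℕ → ACT σ β → ACT σ β
  | 0, T => T
  | n + 1, T => .const (2 * n) (z n) (A1b_load z n T)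

theorem A1b_load_depth (z : ℕ → ℤ) (n : ℕ) (T : ACT σ β) :
    (A1b_load z n T).depth = T.depth + n := by
  induction n with
  | zero => rfl
  | succ n ih => simp only [A1b_load, ACT.depth, ih]; omega

theorem A1b_load_run (x : σ → ℝ) (z : ℕ → ℤ) (n : ℕ) (T : ACT σ β) (s : ℕ → ℝ) :
    ∃ s' : ℕ → ℝ, (A1b_load z n T).run x s = T.run x s' ∧ (∀ i < n, s' (2 * i) = (z i : ℝ)) ∧
      ∀ i, n ≤ i → s' (2 * i) = s (2 * i) := by
  induction n generalizing s with
  | zero => exact ⟨s, rfl, fun i hi => absurd hi (Nat.not_lt_zero i), fun _ _ => rfl⟩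
  | succ n ih =>
    obtain ⟨s', h1, h2, h3⟩ := ih (Function.update s (2 * n) (z n : ℝ))
    refine ⟨s', h1, ?_, ?_⟩
    · intro i hi
      rcases Nat.lt_succ_iff_lt_or_eq.1 hi with h | h
      · exact h2 i h
      · rw [h, h3 n le_rfl, Function.update_self]
    · intro i hi
      rw [h3 i (by omega), Function.update_of_ne (by omega)]

/-- inputs that are fixed integer constants can be loaded first. -/
theorem Cost.specialize {τ : Type} [Fintype τ] {D : Set (σ ⊕ τ → ℝ)} {c : ℕ}
    {φ : (σ ⊕ τ → ℝ) → β} (h : Cost D c φ) (z : τ → ℤ) :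
    Cost {x : σ → ℝ | (Sum.elim x (fun i => (z i : ℝ)) : σ ⊕ τ → ℝ) ∈ D} (c + Fintype.card τ)
      (fun x => φ (Sum.elim x (fun i => (z i : ℝ)))) := by
  classical
  obtain ⟨T, hT, hr⟩ := h
  have e := Fintype.equivFin τ
  set zz : ℕ → ℤ := fun n => if h : n < Fintype.card τ then z (e.symm ⟨n, h⟩) else 0 with hzz
  set f : σ ⊕ τ → σ ⊕ ℕ := Sum.elim Sum.inl (fun t => Sum.inr (2 * (e t : ℕ))) with hf
  refine ⟨A1b_load zz (Fintype.card τ) (A1b_ren f (fun r => 2 * r + 1) T), ?_, ?_⟩
  · rw [A1b_load_depth, A1b_ren_depth]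
    omega
  · intro x hx s
    obtain ⟨s', h1, h2, -⟩ := A1b_load_run x zz (Fintype.card τ)
      (A1b_ren f (fun r => 2 * r + 1) T) s
    rw [h1]
    refine Eq.trans ?_ (hr _ hx (fun r => s' (2 * r + 1)))
    refine A1b_ren_run (fun a b hab => by
      have hab' : 2 * a + 1 = 2 * b + 1 := hab
      omega) ?_ T ?_ (fun r => rfl)
    · intro i r
      rcases i with i | t
      · simp [hf]
      · simp only [hf, Sum.elim_inr, ne_eq, Sum.inr.injEq]
        omega
    · intro i
      rcases i with i | t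
      · rfl
      · simp only [hf, Sum.elim_inr]
        rw [h2 _ (e t).2]
        simp [hzz]

end BU
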