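import Pool.Agent.Work.MP_4030f5_lc.FmDefs

/-! # Q1: order isomorphisms of the real line with prescribed finite data; the step lemma -/

namespace BU

open Polynomial

/-- stretch the half line above `c₀` by the factor `c` -/
private theorem Q1a_stretch (c₀ c : ℝ) (hc : 0 < c) : ∃ χ : ℝ ≃o ℝ, (∀ y, y ≤ c₀ → χ y = y) ∧
    ∀ y, c₀ ≤ y → χ y = c₀ + c * (y - c₀) := by
  set g : ℝ → ℝ := fun y => if y ≤ c₀ then y else c₀ + c * (y - c₀) with hg
  have h1 : ∀ y, y ≤ c₀ → g y = y := fun y hy => if_pos hy
  have h2 : ∀ y, c₀ ≤ y → g y = c₀ + c * (y - c₀) := by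
    intro y hy
    rcases hy.eq_or_lt with rfl | h
    · rw [h1 _ le_rfl]
      ring
    · exact if_neg (not_le.2 h)
  have hm : StrictMono g := by
    intro x y hxy
    rcases le_total y c₀ with hy | hy
    · rw [h1 x (hxy.le.trans hy), h1 y hy]
      exact hxy
    · rw [h2 y hy]
      rcases le_total x c₀ with hx | hx
      · rw [h1 x hx]
        rcases hy.eq_or_lt with h | h
        · rw [← h]
          rw [← h] at hxy
          linarith
        · have := mul_pos hc (sub_pos.2 h)
          linarith
      · rw [h2 x hx]
        have := mul_lt_mul_of_pos_left (sub_lt_sub_right hxy c₀) hc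
        linarith
  have hs : Function.Surjective g := by
    intro z
    rcases le_total z c₀ with hz | hz
    · exact ⟨z, h1 z hz⟩
    · refine ⟨c₀ + (z - c₀) / c, ?_⟩
      rw [h2]
      · field_simp
        ring
      · have := div_nonneg (sub_nonneg.2 hz) hc.le
        linarith
  refine ⟨hm.orderIsoOfSurjective g hs, ?_, ?_⟩
  · intro y hy
    exact h1 y hy
  · intro y hy
    exact h2 y hy

/-- a strictly monotone map on a finite set extends to an order isomorphism of the real line. -/
theorem exists_orderIso (A : Finset ℝ) (e : ℝ → ℝ) (he : StrictMonoOn e A) :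
    ∃ ψ : ℝ ≃o ℝ, ∀ a ∈ A, ψ a = e a := by
  classical
  induction A using Finset.induction_on_max with
  | empty => exact ⟨OrderIso.refl ℝ, fun a ha => absurd ha (Finset.notMem_empty a)⟩
  | insert a s hmax ih =>
    have hes : StrictMonoOn e s := he.mono (by
      intro x hx
      exact Finset.mem_coe.2 (Finset.mem_insert_of_mem hx))
    obtain ⟨ψ, hψ⟩ := ih hes
    rcases s.eq_empty_or_nonempty with rfl | hne
    · refine ⟨OrderIso.addRight (e a - a), fun x hx => ?_⟩
      have hx' : x = a := by simpa using hx
      rw [hx', OrderIso.addRight_apply]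
      ring
    · set a' := s.max' hne with ha'
      have ha's : a' ∈ s := s.max'_mem hne
      have h1 : a' < a := hmax a' ha's
      have h2 : e a' < e a := he (by simp [ha's]) (by simp) h1
      have h3 : e a' < ψ a := by
        rw [← hψ a' ha's]
        exact ψ.lt_iff_lt.2 h1
      obtain ⟨χ, hχ1, hχ2⟩ := Q1a_stretch (e a') ((e a - e a') / (ψ a - e a'))
        (div_pos (sub_pos.2 h2) (sub_pos.2 h3))
      refine ⟨ψ.trans χ, fun x hx => ?_⟩
      rw [OrderIso.trans_apply]
      rw [Finset.mem_insert] at hx
      rcases hx with rfl | hx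
      · rw [hχ2 _ h3.le]
        have : ψ x - e a' ≠ 0 := (sub_pos.2 h3).ne'
        field_simp
        ring
      · rw [hψ x hx]
        apply hχ1
        have h4 : x ≤ a' := s.le_max' x hx
        exact hes.monotoneOn hx ha's h4

end BU
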