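import Pool.Agent.Work.MP_4030f5_lc.E3b
import Pool.Agent.Work.MP_4030f5_lc.Q1a

/-! # E4: the Euler integral of a row is determined by comparisons of break points and local data -/

namespace BU

open Filter

open Classical in
/-- comparison of optional real numbers, `none` being largest. -/
noncomputable def ocmp : Option ℝ → Option ℝ → Ordering
  | none, none => .eq
  | none, some _ => .gt
  | some _, none => .lt
  | some a, some b => if a < b then .lt else if a = b then .eq else .gt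

open Classical in
/-- value near `-∞`. -/
noncomputable def initv (u : ℝ → ℤ) : ℤ :=
  if h : ∃ v, ∀ᶠ s in atBot, u s = v then h.choose else 0

/-- local data of a piecewise constant function: initial value, values at and right after the
break points. -/
noncomputable def loc (L : ℕ) (u : ℝ → ℤ) : ℤ × (Fin L → Option (ℤ × ℤ)) :=
  (initv u, fun α => (bp u α).map (fun t => (u t, rl u t)))

/-- the functions of a row -/
def Lev.fn {n : ℕ} (ℓ : Lev n 1) : Option (Fin n) → ℝ → ℤ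
  | none => fun t => ℓ.w (fun _ => t)
  | some i => fun t => ℓ.g i (fun _ => t)

/-- the break points of a row -/
noncomputable def Lev.val {n L : ℕ} (ℓ : Lev n 1) (u : Step n L) : Option ℝ := bp (ℓ.fn u.1) u.2

/-- no break points in `(b, t]` -/
private theorem E4a_right {u : ℝ → ℤ} (h : PC u) {b t : ℝ} (hbt : b < t)
    (hno : ∀ x, b < x → x ≤ t → x ∉ Bk u) : u t = rl u b := by
  have h1 := rl_spec h b
  have h2 : ∀ᶠ s in nhdsWithin b (Set.Ioi b), s ∈ Set.Ioo b t := Ioo_mem_nhdsGT hbt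
  obtain ⟨s, hs1, hs2⟩ := (h1.and h2).exists
  rw [← hs1]
  refine (PC.eq_of_Icc hs2.2.le ?_).symm
  intro x hx
  exact hno x (lt_of_lt_of_le hs2.1 hx.1) hx.2

/-- no break points in `(-∞, t]` -/
private theorem E4a_left {u : ℝ → ℤ} {t : ℝ} (hno : ∀ x, x ≤ t → x ∉ Bk u) :
    u t = initv u := by
  have h1 : ∀ᶠ s in atBot, u s = u t := by
    filter_upwards [eventually_le_atBot t] with s hs
    exact PC.eq_of_Icc hs (fun x hx => hno x hx.2)
  have hex : ∃ v, ∀ᶠ s in atBot, u s = v := ⟨u t, h1⟩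
  unfold initv
  rw [dif_pos hex]
  obtain ⟨s, hs1, hs2⟩ := (hex.choose_spec.and h1).exists
  rw [← hs1, hs2]

/-- two functions with matching break points and the same local data -/
private theorem E4a_match {L : ℕ} {u u' : ℝ → ℤ} (h : PC u) (h' : PC u')
    (hL : (Bk u).ncard ≤ L) (hL' : (Bk u').ncard ≤ L) (hloc : loc L u = loc L u') (ψ : ℝ ≃o ℝ)
    (hψ : ∀ (α : Fin L) (a : ℝ), bp u α = some a → bp u' α = some (ψ a)) (t : ℝ) :
    u' (ψ t) = u t := by
  have hi : initv u = initv u' := congrArg Prod.fst hloc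
  have hl : ∀ α : Fin L, (bp u α).map (fun t => (u t, rl u t)) =
      (bp u' α).map (fun t => (u' t, rl u' t)) := fun α => congrFun (congrArg Prod.snd hloc) α
  have hl2 : ∀ (α : Fin L) (a : ℝ), bp u α = some a → u a = u' (ψ a) ∧ rl u a = rl u' (ψ a) := by
    intro α a ha
    have h1 := hl α
    rw [ha, hψ α a ha] at h1
    have h2 := Option.some.inj h1
    exact ⟨congrArg Prod.fst h2, congrArg Prod.snd h2⟩
  have hsurj : ∀ b, b ∈ Bk u' → ∃ a, a ∈ Bk u ∧ ψ a = b := by
    intro b hb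
    obtain ⟨α, hα⟩ := exists_bp h' hL' hb
    have h1 := hl α
    rw [hα] at h1
    cases hu : bp u α with
    | none =>
      rw [hu] at h1
      exact absurd h1 (by simp)
    | some a =>
      refine ⟨a, bp_mem hu, ?_⟩
      have h2 := hψ α a hu
      rw [hα] at h2
      exact (Option.some.inj h2).symm
  by_cases ht : t ∈ Bk u
  · obtain ⟨α, hα⟩ := exists_bp h hL ht
    exact (hl2 α t hα).1.symm
  · by_cases hne : ∃ b, b ∈ Bk u ∧ b < t
    · have hfin : (Bk u ∩ Set.Iio t).Finite := Set.Finite.subset h Set.inter_subset_left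
      obtain ⟨b, hb, hmax⟩ := hfin.exists_maximal (let ⟨b, h1, h2⟩ := hne; ⟨b, h1, h2⟩)
      have hmax2 : ∀ x, b < x → x ≤ t → x ∉ Bk u := by
        intro x hx1 hx2 hx
        rcases hx2.eq_or_lt with rfl | hlt
        · exact ht hx
        · exact absurd (hmax ⟨hx, hlt⟩ hx1.le) (not_le.2 hx1)
      rw [E4a_right h hb.2 hmax2]
      obtain ⟨α, hα⟩ := exists_bp h hL hb.1
      rw [(hl2 α b hα).2]
      refine E4a_right h' (ψ.lt_iff_lt.2 hb.2) ?_
      intro x hx1 hx2 hx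
      obtain ⟨a, ha, rfl⟩ := hsurj x hx
      exact hmax2 a (ψ.lt_iff_lt.1 hx1) (ψ.le_iff_le.1 hx2) ha
    · have hno : ∀ x, x ≤ t → x ∉ Bk u := by
        intro x hx1 hx
        rcases hx1.eq_or_lt with rfl | hlt
        · exact ht hx
        · exact hne ⟨x, hx, hlt⟩
      rw [E4a_left hno, hi]
      refine E4a_left ?_
      intro x hx1 hx
      obtain ⟨a, ha, rfl⟩ := hsurj x hx
      exact hno a (ψ.le_iff_le.1 hx1) ha

private theorem E4a_cmp_lt {x y : Option ℝ} {a b : ℝ} (hx : x = some a) (hy : y = some b) :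
    ocmp x y = .lt ↔ a < b := by
  subst hx
  subst hy
  unfold ocmp
  by_cases h1 : a < b
  · simp [h1]
  · by_cases h2 : a = b <;> simp [h1, h2]

private theorem E4a_cmp_eq {x y : Option ℝ} {a b : ℝ} (hx : x = some a) (hy : y = some b) :
    ocmp x y = .eq ↔ a = b := by
  subst hx
  subst hy
  unfold ocmp
  by_cases h1 : a < b
  · simp [h1, h1.ne]
  · by_cases h2 : a = b <;> simp [h1, h2]

private theorem E4a_EI {n : ℕ} (ℓ : Lev n 1) :
    EI 1 ℓ.F = EI1 (fun t => ℓ.fn none t * ∏ i, ℓ.fn (some i) t) := by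
  show EI1 (fun t => ℓ.F (Fin.snoc (Fin.elim0 : Fin 0 → ℝ) t)) = _
  refine congrArg EI1 (funext fun t => ?_)
  have h1 : (Fin.snoc (Fin.elim0 : Fin 0 → ℝ) t : Fin 1 → ℝ) = fun _ => t := by
    funext i
    have hi : i = Fin.last 0 := Fin.ext (by have := i.2; simp only [Fin.val_last]; omega)
    subst hi
    exact Fin.snoc_last (α := fun _ => ℝ) t Fin.elim0
  rw [h1]
  rfl

theorem row_determined {n L : ℕ} (ℓ ℓ' : Lev n 1) (h : ∀ o, PC (ℓ.fn o)) (h' : ∀ o, PC (ℓ'.fn o))
    (hL : ∀ o, (Bk (ℓ.fn o)).ncard ≤ L) (hL' : ∀ o, (Bk (ℓ'.fn o)).ncard ≤ L)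
    (hloc : ∀ o, loc L (ℓ.fn o) = loc L (ℓ'.fn o))
    (hcmp : ∀ u v : Step n L, ocmp (ℓ.val u) (ℓ.val v) = ocmp (ℓ'.val u) (ℓ'.val v)) :
    EI 1 ℓ.F = EI 1 ℓ'.F := by
  classical
  -- existence of the matching break point
  have hex : ∀ (u : Step n L) (a : ℝ), ℓ.val u = some a → ∃ b, ℓ'.val u = some b := by
    intro u a ha
    have h1 := congrFun (congrArg Prod.snd (hloc u.1)) u.2
    have h2 : (ℓ.val u).map (fun t => (ℓ.fn u.1 t, rl (ℓ.fn u.1) t)) =
      (ℓ'.val u).map (fun t => (ℓ'.fn u.1 t, rl (ℓ'.fn u.1) t)) := h1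
    rw [ha] at h2
    cases hb : ℓ'.val u with
    | none =>
      rw [hb] at h2
      exact absurd h2 (by simp)
    | some b => exact ⟨b, rfl⟩
  set P : ℝ → Prop := fun a => ∃ u : Step n L, ℓ.val u = some a with hP
  have hchoice : ∀ a : ℝ, ∃ b : ℝ, P a → ∃ u : Step n L, ℓ.val u = some a ∧ ℓ'.val u = some b := by
    intro a
    by_cases ha : P a
    · obtain ⟨u, hu⟩ := ha
      obtain ⟨b, hb⟩ := hex u a hu
      exact ⟨b, fun _ => ⟨u, hu, hb⟩⟩
    · exact ⟨0, fun h0 => absurd h0 ha⟩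
  choose e he using hchoice
  have he2 : ∀ (u : Step n L) (a : ℝ), ℓ.val u = some a → ℓ'.val u = some (e a) := by
    intro u a ha
    obtain ⟨v, hv1, hv2⟩ := he a ⟨u, ha⟩
    obtain ⟨b, hb⟩ := hex u a ha
    have h1 : ocmp (ℓ.val u) (ℓ.val v) = .eq := (E4a_cmp_eq ha hv1).2 rfl
    rw [hcmp] at h1
    rw [hb, (E4a_cmp_eq hb hv2).1 h1]
  have he3 : ∀ a b : ℝ, P a → P b → a < b → e a < e b := by
    intro a b ha hb hab
    obtain ⟨u, hu⟩ := ha
    obtain ⟨v, hv⟩ := hb
    have h1 : ocmp (ℓ.val u) (ℓ.val v) = .lt := (E4a_cmp_lt hu hv).2 hab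
    rw [hcmp] at h1
    exact (E4a_cmp_lt (he2 u a hu) (he2 v b hv)).1 h1
  have hPfin : {a | P a}.Finite := by
    refine Set.Finite.subset (Set.finite_iUnion (fun o => h o)) ?_
    rintro a ⟨u, hu⟩
    exact Set.mem_iUnion.2 ⟨u.1, bp_mem hu⟩
  obtain ⟨ψ, hψ⟩ := exists_orderIso hPfin.toFinset e (by
    intro a ha b hb hab
    simp only [Set.Finite.coe_toFinset, Set.mem_setOf_eq] at ha hb
    exact he3 a b ha hb hab)
  have hψ2 : ∀ (u : Step n L) (a : ℝ), ℓ.val u = some a → ℓ'.val u = some (ψ a) := by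
    intro u a ha
    rw [hψ a (by rw [Set.Finite.mem_toFinset]; exact ⟨u, ha⟩)]
    exact he2 u a ha
  have key : ∀ o t, ℓ'.fn o (ψ t) = ℓ.fn o t := by
    intro o t
    refine E4a_match (h o) (h' o) (hL o) (hL' o) (hloc o) ψ ?_ t
    intro α a ha
    exact hψ2 (o, α) a ha
  rw [E4a_EI, E4a_EI]
  rw [← EI1_reparam (fun t => ℓ'.fn none t * ∏ i, ℓ'.fn (some i) t) ψ]
  congr 1
  funext t
  simp only [key]

end BU
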