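import Pool.Agent.Work.MP_4030f5_lc.A1b
import Pool.Agent.Work.MP_4030f5_lc.E4a

/-! # A2: Fredman's sorting argument -/

namespace BU

/-- optional reals as extended reals -/
def A2_t (a : Option ℝ) : WithTop ℝ := a

theorem A2_lt (a b : Option ℝ) : ocmp a b = .lt ↔ A2_t a < A2_t b := by
  cases a with
  | none => cases b with
    | none =>
      simp only [ocmp, reduceCtorEq, false_iff]
      exact lt_irrefl _
    | some b =>
      simp only [ocmp]
      constructor
      · intro h; cases h
      · intro h
        have h1 : (⊤ : WithTop ℝ) < (b : WithTop ℝ) := h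
        exact absurd h1 (not_lt.2 le_top)
  | some a => cases b with
    | none =>
      simp only [ocmp, true_iff]
      have h1 : (a : WithTop ℝ) < (⊤ : WithTop ℝ) := WithTop.coe_lt_top a
      exact h1
    | some b =>
      simp only [ocmp]
      have h0 : (A2_t (some a) < A2_t (some b)) ↔ a < b := by
        have : ((a : WithTop ℝ) < (b : WithTop ℝ)) ↔ a < b := WithTop.coe_lt_coe
        exact this
      rw [h0]
      split_ifs <;> simp_all

theorem A2_eq (a b : Option ℝ) : ocmp a b = .eq ↔ a = b := by
  cases a with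
  | none => cases b with
    | none => simp [ocmp]
    | some b => simp [ocmp]
  | some a => cases b with
    | none => simp [ocmp]
    | some b =>
      simp only [ocmp, Option.some.injEq]
      split_ifs with h1 h2
      · simp [h1.ne]
      · simp [h2]
      · simp [h2]

theorem A2_gt (a b : Option ℝ) : ocmp a b = .gt ↔ A2_t b < A2_t a := by
  have h1 := A2_lt a b
  have h2 := A2_eq a b
  rcases lt_trichotomy (A2_t a) (A2_t b) with h | h | h
  · rw [h1.2 h]
    simp [h.le]
  · rw [h2.2 h]
    simp only [reduceCtorEq, false_iff]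
    rw [h]
    exact lt_irrefl _
  · have h3 : ocmp a b ≠ .lt := fun hc => absurd (h1.1 hc) (not_lt.2 h.le)
    have h4 : ocmp a b ≠ .eq := fun hc => absurd (h2.1 hc) (fun hc => by
      rw [hc] at h; exact lt_irrefl _ h)
    simp only [h, iff_true]
    cases hc : ocmp a b
    · exact absurd hc h3
    · exact absurd hc h4
    · rfl

section

variable {σ ρ ι : Type} [Fintype ρ] [Fintype ι]

/-- the comparison table -/
noncomputable def A2_tab (val : ρ → ι → (σ → ℝ) → Option ℝ) (x : σ → ℝ) : ρ → ι → ι → Ordering :=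
  fun r u v => ocmp (val r u x) (val r v x)

/-- number of tables -/
noncomputable def A2_N (val : ρ → ι → (σ → ℝ) → Option ℝ) (W : Set (σ → ℝ)) : ℕ :=
  (A2_tab val '' W).ncard

theorem A2_N_mono (val : ρ → ι → (σ → ℝ) → Option ℝ) {W W' : Set (σ → ℝ)} (h : W' ⊆ W) :
    A2_N val W' ≤ A2_N val W :=
  Set.ncard_le_ncard (Set.image_mono h) (Set.toFinite _)

theorem A2_N_pos (val : ρ → ι → (σ → ℝ) → Option ℝ) {W : Set (σ → ℝ)} (h : W.Nonempty) :
    0 < A2_N val W :=
  (Set.ncard_pos (Set.toFinite _)).2 (h.image _)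

theorem A2_N_add (val : ρ → ι → (σ → ℝ) → Option ℝ) (W : Set (σ → ℝ)) (r : ρ) (u v : ι)
    (o o' : Ordering) (ho : o ≠ o') :
    A2_N val {x | x ∈ W ∧ ocmp (val r u x) (val r v x) = o} +
      A2_N val {x | x ∈ W ∧ ocmp (val r u x) (val r v x) = o'} ≤ A2_N val W := by
  unfold A2_N
  rw [← Set.ncard_union_eq ?_ (Set.toFinite _) (Set.toFinite _)]
  · refine Set.ncard_le_ncard ?_ (Set.toFinite _)
    refine Set.union_subset (Set.image_mono fun x hx => hx.1) (Set.image_mono fun x hx => hx.1)
  · rw [Set.disjoint_left]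
    rintro t ⟨x, hx, rfl⟩ ⟨y, hy, hxy⟩
    have h1 := congrFun (congrFun (congrFun hxy r) u) v
    simp only [A2_tab] at h1
    rw [hx.2, hy.2] at h1
    exact ho h1.symm

theorem A2_main (D : Set (σ → ℝ)) (c : ℕ) (val : ρ → ι → (σ → ℝ) → Option ℝ)
    (hcost : ∀ r u v, Cost D c (fun x => ocmp (val r u x) (val r v x))) :
    ∀ (k s g : ℕ), s + g = k → ∀ (W : Set (σ → ℝ)), W ⊆ D → ∀ S : Set (ρ × ι),
      Sᶜ.ncard ≤ s → A2_N val W ≤ 2 ^ g →
      (∀ r u v, (r, u) ∈ S → (r, v) ∈ S → ∀ x ∈ W, ∀ y ∈ W,
        ocmp (val r u x) (val r v x) = ocmp (val r u y) (val r v y)) →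
      Cost W (c * (2 * k)) (A2_tab val) := by
  classical
  intro k
  induction k with
  | zero =>
    intro s g hsg W hW S hS hN hc
    rcases W.eq_empty_or_nonempty with rfl | ⟨x0, hx0⟩
    · exact ⟨ACT.leaf (fun _ _ _ => .eq), by simp [ACT.depth], fun x hx => absurd hx (by simp)⟩
    · have hS' : Sᶜ = ∅ := (Set.ncard_eq_zero (Set.toFinite _)).1 (by omega)
      have hS'' : S = Set.univ := Set.compl_empty_iff.1 hS'
      refine ⟨ACT.leaf (A2_tab val x0), by simp [ACT.depth], fun x hx s => ?_⟩
      funext r u v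
      exact hc r u v (by rw [hS'']; trivial) (by rw [hS'']; trivial) x0 hx0 x hx
  | succ k ih =>
    intro s g hsg W hW S hS hN hc
    rcases W.eq_empty_or_nonempty with rfl | ⟨x0, hx0⟩
    · exact ⟨ACT.leaf (fun _ _ _ => .eq), by simp [ACT.depth], fun x hx => absurd hx (by simp)⟩
    by_cases hSu : S = Set.univ
    · refine ⟨ACT.leaf (A2_tab val x0), by simp [ACT.depth], fun x hx s => ?_⟩
      funext r u v
      exact hc r u v (by rw [hSu]; trivial) (by rw [hSu]; trivial) x0 hx0 x hx
    obtain ⟨⟨r, u⟩, hru⟩ : ∃ z, z ∉ S := by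
      by_contra hcon
      push Not at hcon
      exact hSu (Set.eq_univ_of_forall hcon)
    -- halved sets
    have halved : ∀ W' ⊆ W, 2 * A2_N val W' ≤ A2_N val W → Cost W' (c * (2 * k)) (A2_tab val) := by
      intro W' hW' hN'
      rcases W'.eq_empty_or_nonempty with rfl | hne
      · exact ⟨ACT.leaf (fun _ _ _ => .eq), by simp [ACT.depth], fun x hx => absurd hx (by simp)⟩
      · have h1 := A2_N_pos val hne
        have hg : 1 ≤ g := by
          by_contra hcon
          have : g = 0 := by omega
          subst this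
          simp only [pow_zero] at hN
          omega
        obtain ⟨g', rfl⟩ : ∃ g', g = g' + 1 := ⟨g - 1, by omega⟩
        refine ih s g' (by omega) W' (hW'.trans hW) S hS ?_ ?_
        · rw [pow_succ] at hN; omega
        · intro r u v hu hv x hx y hy
          exact hc r u v hu hv x (hW' hx) y (hW' hy)
    -- resolved sets
    have resolved : ∀ W' ⊆ W, (∀ v, (r, v) ∈ S → ∀ x ∈ W', ∀ y ∈ W',
        ocmp (val r u x) (val r v x) = ocmp (val r u y) (val r v y)) →
        Cost W' (c * (2 * k)) (A2_tab val) := by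
      intro W' hW' hres
      have hcard : (insert (r, u) S)ᶜ.ncard + 1 ≤ Sᶜ.ncard := by
        have h1 : (insert (r, u) S)ᶜ ⊂ Sᶜ := by
          refine ⟨Set.compl_subset_compl.2 (Set.subset_insert _ _), fun hcon => ?_⟩
          exact hcon hru (Set.mem_insert _ _)
        exact Set.ncard_lt_ncard h1 (Set.toFinite _)
      obtain ⟨s', rfl⟩ : ∃ s', s = s' + 1 := ⟨s - 1, by omega⟩
      refine ih s' g (by omega) W' (hW'.trans hW) (insert (r, u) S) (by omega)
        ((A2_N_mono val hW').trans hN) ?_
      have hsymm : ∀ v, (r, v) ∈ S → ∀ x ∈ W', ∀ y ∈ W',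
          ocmp (val r v x) (val r u x) = ocmp (val r v y) (val r u y) := by
        intro v hv x hx y hy
        have h1 := hres v hv x hx y hy
        cases h2 : ocmp (val r u x) (val r v x)
        · rw [h2] at h1
          rw [(A2_gt _ _).2 ((A2_lt _ _).1 h2), (A2_gt _ _).2 ((A2_lt _ _).1 h1.symm)]
        · rw [h2] at h1
          rw [(A2_eq _ _).2 ((A2_eq _ _).1 h2).symm, (A2_eq _ _).2 ((A2_eq _ _).1 h1.symm).symm]
        · rw [h2] at h1
          rw [(A2_lt _ _).2 ((A2_gt _ _).1 h2), (A2_lt _ _).2 ((A2_gt _ _).1 h1.symm)]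
      intro r' u' v' hu' hv' x hx y hy
      rcases Set.mem_insert_iff.1 hu' with h1 | h1
      · obtain ⟨rfl, rfl⟩ := Prod.mk.injEq _ _ _ _ ▸ h1
        rcases Set.mem_insert_iff.1 hv' with h2 | h2
        · obtain ⟨-, rfl⟩ := Prod.mk.injEq _ _ _ _ ▸ h2
          rw [(A2_eq _ _).2 rfl, (A2_eq _ _).2 rfl]
        · exact hres v' h2 x hx y hy
      · rcases Set.mem_insert_iff.1 hv' with h2 | h2
        · obtain ⟨rfl, rfl⟩ := Prod.mk.injEq _ _ _ _ ▸ h2
          exact hsymm u' h1 x hx y hy
        · exact hc r' u' v' h1 h2 x (hW' hx) y (hW' hy)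
    -- the order of the inserted items
    have hord : ∀ v w, (r, v) ∈ S → (r, w) ∈ S → A2_t (val r v x0) ≤ A2_t (val r w x0) →
        ∀ x ∈ W, A2_t (val r v x) ≤ A2_t (val r w x) := by
      intro v w hv hw hle x hx
      by_contra hcon
      have h1 := (A2_gt _ _).2 (not_le.1 hcon)
      have h2 := (A2_gt _ _).1 ((hc r v w hv hw x0 hx0 x hx).trans h1)
      exact absurd hle (not_le.2 h2)
    let Gs : Finset ι := Finset.univ.filter (fun v => (r, v) ∈ S ∧
      A2_N val W < 2 * A2_N val {x | x ∈ W ∧ ocmp (val r u x) (val r v x) = .gt})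
    let Rs : Finset ι := Finset.univ.filter (fun v => (r, v) ∈ S ∧
      ¬ A2_N val W < 2 * A2_N val {x | x ∈ W ∧ ocmp (val r u x) (val r v x) = .gt})
    -- second comparison
    have part2 : ∀ W1 ⊆ W, (∀ x ∈ W1, ∀ v ∈ Gs, A2_t (val r v x) < A2_t (val r u x)) →
        Cost W1 (c + c * (2 * k)) (A2_tab val) := by
      intro W1 hW1 hG
      rcases Rs.eq_empty_or_nonempty with hR | hR
      · refine (resolved W1 hW1 ?_).mono (Set.Subset.refl _) (Nat.le_add_left _ _)
        intro v hv x hx y hy
        have hvG : v ∈ Gs := by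
          by_contra hcon
          have : v ∈ Rs := by
            simp only [Gs, Finset.mem_filter, Finset.mem_univ, true_and, not_and] at hcon
            simp only [Rs, Finset.mem_filter, Finset.mem_univ, true_and]
            exact ⟨hv, hcon hv⟩
          rw [hR] at this
          exact absurd this (Finset.notMem_empty _)
        rw [(A2_gt _ _).2 (hG x hx v hvG), (A2_gt _ _).2 (hG y hy v hvG)]
      · obtain ⟨v2, hv2, hmin⟩ := Rs.exists_min_image (fun v => A2_t (val r v x0)) hR
        have hv2' := (Finset.mem_filter.1 hv2).2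
        refine Cost.bind (φ := fun x => ocmp (val r u x) (val r v2 x)) (ψ := fun _ => A2_tab val)
          ((hcost r u v2).mono (hW1.trans hW) le_rfl) (fun o => ?_)
        cases o with
        | gt =>
          refine halved _ (fun x hx => hW1 hx.1) ?_
          have h1 : A2_N val {x | x ∈ W1 ∧ ocmp (val r u x) (val r v2 x) = .gt} ≤
              A2_N val {x | x ∈ W ∧ ocmp (val r u x) (val r v2 x) = .gt} :=
            A2_N_mono val (fun x hx => ⟨hW1 hx.1, hx.2⟩)
          have h2 := hv2'.2
          omega
        | eq =>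
          refine resolved _ (fun x hx => hW1 hx.1) ?_
          intro v hv x hx y hy
          have h1 := (A2_eq _ _).1 hx.2
          have h2 := (A2_eq _ _).1 hy.2
          rw [h1, h2]
          exact hc r v2 v hv2'.1 hv x (hW1 hx.1) y (hW1 hy.1)
        | lt =>
          refine resolved _ (fun x hx => hW1 hx.1) ?_
          intro v hv x hx y hy
          by_cases hvG : v ∈ Gs
          · rw [(A2_gt _ _).2 (hG x hx.1 v hvG), (A2_gt _ _).2 (hG y hy.1 v hvG)]
          · have hvR : v ∈ Rs := by
              simp only [Gs, Finset.mem_filter, Finset.mem_univ, true_and, not_and] at hvG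
              simp only [Rs, Finset.mem_filter, Finset.mem_univ, true_and]
              exact ⟨hv, hvG hv⟩
            have h1 : ∀ z ∈ W1, ocmp (val r u z) (val r v2 z) = .lt →
                ocmp (val r u z) (val r v z) = .lt := by
              intro z hz hlt
              have h2 := (A2_lt _ _).1 hlt
              have h3 := hord v2 v hv2'.1 hv (hmin v hvR) z (hW1 hz)
              exact (A2_lt _ _).2 (h2.trans_le h3)
            rw [h1 x hx.1 hx.2, h1 y hy.1 hy.2]
    have hfin : c + (c + c * (2 * k)) ≤ c * (2 * (k + 1)) := by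
      have : c * (2 * (k + 1)) = c + (c + c * (2 * k)) := by ring
      omega
    rcases Gs.eq_empty_or_nonempty with hG | hG
    · refine (part2 W (Set.Subset.refl _) ?_).mono (Set.Subset.refl _) (by omega)
      intro x hx v hv
      rw [hG] at hv
      exact absurd hv (Finset.notMem_empty _)
    · obtain ⟨v1, hv1, hmax⟩ := Gs.exists_max_image (fun v => A2_t (val r v x0)) hG
      have hv1' := (Finset.mem_filter.1 hv1).2
      refine (Cost.bind (φ := fun x => ocmp (val r u x) (val r v1 x)) (ψ := fun _ => A2_tab val)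
        (c' := c + c * (2 * k)) ((hcost r u v1).mono hW le_rfl) (fun o => ?_)).mono
        (Set.Subset.refl _) hfin
      have hhalf : ∀ o, o ≠ .gt →
          Cost {x | x ∈ W ∧ ocmp (val r u x) (val r v1 x) = o} (c + c * (2 * k)) (A2_tab val) := by
        intro o ho
        refine (halved _ (fun x hx => hx.1) ?_).mono (Set.Subset.refl _) (Nat.le_add_left _ _)
        have h1 := A2_N_add val W r u v1 o .gt ho
        have h2 := hv1'.2
        omega
      cases o with
      | lt => exact hhalf _ (by decide)
      | eq => exact hhalf _ (by decide)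
      | gt =>
        refine part2 _ (fun x hx => hx.1) ?_
        intro x hx v hv
        have h1 := (A2_gt _ _).1 hx.2
        have h2 := hord v v1 (Finset.mem_filter.1 hv).2.1 hv1'.1 (hmax v hv) x hx.1
        exact h2.trans_lt h1

end

/-- All comparison tables of `R` rows with `N` items each can be computed with
`O(R N + log₂ (number of realisable tables))` comparisons: insert the items one after the other,
with a weighted binary search (weights: numbers of realisable tables still possible). -/
theorem fredman {σ ρ ι : Type} [Fintype ρ] [Fintype ι] (D : Set (σ → ℝ)) (c Γ : ℕ)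
    (val : ρ → ι → (σ → ℝ) → Option ℝ)
    (hcost : ∀ r u v, Cost D c (fun x => ocmp (val r u x) (val r v x)))
    (hΓ : ((fun x => (fun (r : ρ) (u v : ι) => ocmp (val r u x) (val r v x))) '' D).ncard ≤ 2 ^ Γ) :
    Cost D (c * (4 * (Fintype.card ρ * Fintype.card ι) + 4 * Γ + 4))
      (fun x => (fun (r : ρ) (u v : ι) => ocmp (val r u x) (val r v x))) := by
  have h := A2_main D c val hcost (Fintype.card (ρ × ι) + Γ) (Fintype.card (ρ × ι)) Γ rfl D
    (Set.Subset.refl _) ∅ ?_ hΓ ?_
  · refine h.mono (Set.Subset.refl _) (Nat.mul_le_mul_left _ ?_)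
    rw [Fintype.card_prod]
    omega
  · rw [Set.compl_empty, Set.ncard_univ, Nat.card_eq_fintype_card]
  · intro r u v hu
    exact absurd hu (Set.notMem_empty _)

end BU
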