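import Mathlib

/-! # A3: a Bezout type inequality -/

namespace BU

open MvPolynomial

private noncomputable def a3a_ev {D : ℕ} (S : Finset (Fin D → ℝ)) :
    MvPolynomial (Fin D) ℝ →ₗ[ℝ] (S → ℝ) :=
  LinearMap.pi fun s => (MvPolynomial.aeval (s.1 : Fin D → ℝ)).toLinearMap

private theorem a3a_ev_apply {D : ℕ} (S : Finset (Fin D → ℝ)) (g : MvPolynomial (Fin D) ℝ)
    (s : S) : a3a_ev S g s = eval s.1 g := by
  simp [a3a_ev, MvPolynomial.aeval_eq_eval]

/-- Lagrange interpolation: evaluation at finitely many points is onto. -/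
private theorem a3a_surj {D : ℕ} (S : Finset (Fin D → ℝ)) : Function.Surjective (a3a_ev S) := by
  classical
  have hsep : ∀ s : S, ∃ g : MvPolynomial (Fin D) ℝ, eval s.1 g ≠ 0 ∧
      ∀ t : S, t ≠ s → eval t.1 g = 0 := by
    intro s
    have hi : ∀ t : S, t ≠ s → ∃ i : Fin D, s.1 i ≠ t.1 i := by
      intro t h
      have : s.1 ≠ t.1 := fun h' => h (Subtype.ext h'.symm)
      exact Function.ne_iff.1 this
    choose ix hix using hi
    refine ⟨∏ t : S, if h : t = s then 1 else (X (ix t h) - C (t.1 (ix t h))), ?_, ?_⟩
    · rw [map_prod, Finset.prod_ne_zero_iff]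
      intro t _
      by_cases h : t = s
      · simp [h]
      · rw [dif_neg h]
        simp only [map_sub, eval_X, eval_C]
        exact sub_ne_zero.2 (hix t h)
    · intro t ht
      rw [map_prod]
      refine Finset.prod_eq_zero (Finset.mem_univ t) ?_
      rw [dif_neg ht]
      simp
  choose g hg hg0 using hsep
  intro v
  refine ⟨∑ s : S, C (v s / eval s.1 (g s)) * g s, ?_⟩
  funext t
  rw [a3a_ev_apply, map_sum, Finset.sum_eq_single t]
  · rw [map_mul, eval_C]
    exact div_mul_cancel₀ _ (hg t)
  · intro s _ hst
    rw [map_mul, hg0 s t (Ne.symm hst), mul_zero]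
  · intro h; exact absurd (Finset.mem_univ t) h

/-- If `F i = ε x_i^(d+1) + (degree ≤ d)` with `ε ≠ 0`, then the system `F = 0` has at most
`(d+1)^D` real solutions: the monomials with all exponents `≤ d` span modulo the `F i`, and
evaluation at the solutions is onto. -/
theorem zeros_card_le {D d : ℕ} (f : Fin D → MvPolynomial (Fin D) ℝ)
    (hf : ∀ i, (f i).totalDegree ≤ d) {ε : ℝ} (hε : ε ≠ 0) (S : Finset (Fin D → ℝ))
    (hS : ∀ x ∈ S, ∀ i, eval x (f i) + ε * x i ^ (d + 1) = 0) : S.card ≤ (d + 1) ^ D := by
  classical
  set b : (Fin D → Fin (d + 1)) → (S → ℝ) := fun e =>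
    a3a_ev S (monomial (Finsupp.equivFunOnFinite.symm fun i => (e i : ℕ)) 1) with hb
  set W : Submodule ℝ (S → ℝ) := Submodule.span ℝ (Set.range b) with hW
  have key : ∀ n : ℕ, ∀ m : Fin D →₀ ℕ, (m.sum fun _ e => e) = n →
      a3a_ev S (monomial m (1 : ℝ)) ∈ W := by
    intro n
    induction n using Nat.strong_induction_on with
    | _ n ih =>
      intro m hm
      by_cases hall : ∀ i, m i ≤ d
      · refine Submodule.subset_span ⟨fun i => ⟨m i, Nat.lt_succ_of_le (hall i)⟩, ?_⟩
        simp only [hb]
        congr 2
        ext i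
        simp
      · push Not at hall
        obtain ⟨i, hi⟩ := hall
        set m' : Fin D →₀ ℕ := m - Finsupp.single i (d + 1) with hm'
        have hmm : m' + Finsupp.single i (d + 1) = m := by
          ext j
          rw [hm', Finsupp.add_apply, Finsupp.tsub_apply]
          by_cases hj : j = i
          · subst hj; simp only [Finsupp.single_eq_same]; omega
          · rw [Finsupp.single_eq_of_ne hj]; simp
        have hdeg : (m'.sum fun _ e => e) + (d + 1) = n := by
          rw [← hm, ← hmm, Finsupp.sum_add_index' (by simp) (by intros; rfl),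
            Finsupp.sum_single_index rfl]
        have hval : a3a_ev S (monomial m (1 : ℝ)) =
            (-ε⁻¹) • a3a_ev S (monomial m' 1 * f i) := by
          funext s
          rw [Pi.smul_apply, a3a_ev_apply, a3a_ev_apply, smul_eq_mul, ← hmm]
          have h1 : (monomial (m' + Finsupp.single i (d + 1)) (1 : ℝ)) =
              monomial m' 1 * X i ^ (d + 1) := by
            rw [X_pow_eq_monomial, monomial_mul, one_mul]
          rw [h1, map_mul, map_mul, map_pow, eval_X]
          have h2 := hS s.1 s.2 i
          have h3 : (s.1 i) ^ (d + 1) = -ε⁻¹ * eval s.1 (f i) := by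
            field_simp
            linear_combination h2
          rw [h3]; ring
        rw [hval]
        refine W.smul_mem _ ?_
        have hexp : monomial m' 1 * f i =
            ∑ u ∈ (f i).support, (coeff u (f i)) • (monomial (m' + u) (1 : ℝ)) := by
          conv_lhs => rw [(f i).as_sum, Finset.mul_sum]
          refine Finset.sum_congr rfl fun u _ => ?_
          rw [monomial_mul, smul_monomial]
          simp
        rw [hexp, map_sum]
        refine W.sum_mem fun u hu => ?_
        rw [map_smul]
        refine W.smul_mem _ ?_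
        have hud : (u.sum fun _ e => e) ≤ d := (le_totalDegree hu).trans (hf i)
        have hsum : ((m' + u).sum fun _ e => e) = (m'.sum fun _ e => e) + u.sum fun _ e => e :=
          Finsupp.sum_add_index' (by simp) (by intros; rfl)
        exact ih _ (by rw [hsum]; omega) (m' + u) rfl
  have htop : W = ⊤ := by
    rw [eq_top_iff]
    rintro v -
    obtain ⟨g, rfl⟩ := a3a_surj S v
    rw [g.as_sum, map_sum]
    refine W.sum_mem fun u _ => ?_
    have : monomial u (coeff u g) = (coeff u g) • (monomial u (1 : ℝ)) := by
      rw [smul_monomial]; simp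
    rw [this, map_smul]
    exact W.smul_mem _ (key _ u rfl)
  have h1 : Module.finrank ℝ (S → ℝ) = S.card := by
    rw [Module.finrank_fintype_fun_eq_card, Fintype.card_coe]
  have h2 : Module.finrank ℝ W ≤ Fintype.card (Fin D → Fin (d + 1)) := finrank_range_le_card b
  rw [htop, finrank_top, h1, Fintype.card_fun, Fintype.card_fin, Fintype.card_fin] at h2
  exact h2

end BU
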