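import Pool.Agent.Work.MP_4030f5_lc.A3a

/-! # A3: a Bezout type inequality -/

namespace BU

open MvPolynomial Filter Topology

/-- Derivative of a polynomial map. -/
private theorem a3b_strict {D : ℕ} (p : MvPolynomial (Fin D) ℝ) (x : Fin D → ℝ) :
    HasStrictFDerivAt (fun y : Fin D → ℝ => eval y p)
      (∑ j : Fin D, (eval x (pderiv j p)) • (ContinuousLinearMap.proj j : (Fin D → ℝ) →L[ℝ] ℝ))
      x := by
  induction p using MvPolynomial.induction_on with
  | C a =>
    have h := hasStrictFDerivAt_const (𝕜 := ℝ) (E := Fin D → ℝ) a x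
    simp only [eval_C]
    refine h.congr_fderiv ?_
    ext v
    simp
  | add p q hp hq =>
    have h := hp.fun_add hq
    simp only [map_add]
    refine h.congr_fderiv ?_
    rw [← Finset.sum_add_distrib]
    refine Finset.sum_congr rfl fun j _ => ?_
    rw [add_smul]
  | mul_X p i hp =>
    have hX : HasStrictFDerivAt (fun y : Fin D → ℝ => y i)
        (ContinuousLinearMap.proj i : (Fin D → ℝ) →L[ℝ] ℝ) x :=
      (ContinuousLinearMap.proj i : (Fin D → ℝ) →L[ℝ] ℝ).hasStrictFDerivAt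
    have h := hp.fun_mul hX
    simp only [map_mul, eval_X]
    refine h.congr_fderiv ?_
    ext v
    have h3 : ∀ j : Fin D, eval x (pderiv j (p * X i)) =
        (if j = i then eval x p else 0) + x i * eval x (pderiv j p) := by
      intro j
      rw [Derivation.leibniz, smul_eq_mul, smul_eq_mul, map_add, map_mul, map_mul, eval_X,
        pderiv_X]
      by_cases hj : j = i
      · subst hj; simp
      · simp [hj]
    simp only [sum_apply, smul_apply,
      ContinuousLinearMap.proj_apply, smul_eq_mul, ContinuousLinearMap.add_apply, h3]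
    simp only [add_mul, Finset.sum_add_distrib, ite_mul, zero_mul, Finset.sum_ite_eq',
      Finset.mem_univ, if_true, Finset.mul_sum]
    congr 1
    refine Finset.sum_congr rfl fun j _ => ?_
    ring

/-- Bezout: at most `(d+1)^D` nondegenerate zeros (perturb by `ε x_i^(d+1)`, implicit function
theorem). -/
theorem bezout {D d : ℕ} (f : Fin D → MvPolynomial (Fin D) ℝ)
    (hf : ∀ i, (f i).totalDegree ≤ d) (S : Finset (Fin D → ℝ))
    (hS : ∀ x ∈ S, (∀ i, eval x (f i) = 0) ∧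
      (Matrix.of (fun i j => eval x (pderiv j (f i)))).det ≠ 0) : S.card ≤ (d + 1) ^ D := by
  classical
  -- the perturbed map
  set Φ : ℝ × (Fin D → ℝ) → ℝ × (Fin D → ℝ) :=
    fun q => (q.1, fun i => eval q.2 (f i) + q.1 * q.2 i ^ (d + 1)) with hΦ
  have hmap : ∀ s ∈ S, Filter.map Φ (𝓝 ((0 : ℝ), s)) = 𝓝 ((0 : ℝ), (0 : Fin D → ℝ)) := by
    intro s hs
    obtain ⟨hs0, hdet⟩ := hS s hs
    have hd : HasStrictFDerivAt Φ ((ContinuousLinearMap.fst ℝ ℝ (Fin D → ℝ)).prod
        (ContinuousLinearMap.pi fun i => ((∑ j : Fin D, (eval s (pderiv j (f i))) •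
          (ContinuousLinearMap.proj j : (Fin D → ℝ) →L[ℝ] ℝ)).comp
            (ContinuousLinearMap.snd ℝ ℝ (Fin D → ℝ))) + (s i ^ (d + 1)) •
          (ContinuousLinearMap.fst ℝ ℝ (Fin D → ℝ)))) ((0 : ℝ), s) := by
      refine HasStrictFDerivAt.prodMk hasStrictFDerivAt_fst ?_
      rw [hasStrictFDerivAt_pi']
      intro i
      have h1 : HasStrictFDerivAt (fun q : ℝ × (Fin D → ℝ) => eval q.2 (f i))
          ((∑ j : Fin D, (eval s (pderiv j (f i))) •
          (ContinuousLinearMap.proj j : (Fin D → ℝ) →L[ℝ] ℝ)).comp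
            (ContinuousLinearMap.snd ℝ ℝ (Fin D → ℝ))) ((0 : ℝ), s) :=
        HasStrictFDerivAt.comp (g := fun y : Fin D → ℝ => eval y (f i))
          (f := (Prod.snd : ℝ × (Fin D → ℝ) → Fin D → ℝ)) ((0 : ℝ), s) (a3b_strict (f i) s)
          hasStrictFDerivAt_snd
      have h2 : HasStrictFDerivAt (fun q : ℝ × (Fin D → ℝ) => q.2 i)
          ((ContinuousLinearMap.proj i : (Fin D → ℝ) →L[ℝ] ℝ).comp
            (ContinuousLinearMap.snd ℝ ℝ (Fin D → ℝ))) ((0 : ℝ), s) :=
        ((ContinuousLinearMap.proj i : (Fin D → ℝ) →L[ℝ] ℝ).comp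
            (ContinuousLinearMap.snd ℝ ℝ (Fin D → ℝ))).hasStrictFDerivAt
      have h3 : HasStrictFDerivAt (fun q : ℝ × (Fin D → ℝ) => q.1)
          (ContinuousLinearMap.fst ℝ ℝ (Fin D → ℝ)) ((0 : ℝ), s) := hasStrictFDerivAt_fst
      have h5 := (hasStrictDerivAt_pow (𝕜 := ℝ) (d + 1) (s i)).comp_hasStrictFDerivAt
        (f := fun q : ℝ × (Fin D → ℝ) => q.2 i) ((0 : ℝ), s) h2
      have h4 := h1.fun_add (h3.fun_mul h5)
      refine h4.congr_fderiv ?_
      ext v
      · simp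
      · simp
    refine (hd.map_nhds_eq_of_surj ?_).trans ?_
    · rw [LinearMap.range_eq_top]
      rintro ⟨u, w⟩
      set Mx : Matrix (Fin D) (Fin D) ℝ := Matrix.of (fun i j => eval s (pderiv j (f i))) with hMx
      have hunit : IsUnit Mx.det := isUnit_iff_ne_zero.2 hdet
      obtain ⟨y, hy⟩ : ∃ y : Fin D → ℝ, Mx.mulVec y = fun i => w i - u * s i ^ (d + 1) :=
        ⟨Mx⁻¹.mulVec fun i => w i - u * s i ^ (d + 1), by
          rw [Matrix.mulVec_mulVec, Matrix.mul_nonsing_inv _ hunit, Matrix.one_mulVec]⟩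
      refine ⟨(u, y), ?_⟩
      refine Prod.ext rfl ?_
      funext i
      have h6 := congrFun hy i
      simp only [Matrix.mulVec, dotProduct, hMx, Matrix.of_apply] at h6
      simp only [ContinuousLinearMap.coe_coe, ContinuousLinearMap.prod_apply,
        ContinuousLinearMap.pi_apply, ContinuousLinearMap.add_apply,
        ContinuousLinearMap.comp_apply, ContinuousLinearMap.coe_snd',
        ContinuousLinearMap.coe_smul', Pi.smul_apply, ContinuousLinearMap.coe_fst',
        ContinuousLinearMap.coe_sum', Finset.sum_apply, ContinuousLinearMap.proj_apply,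
        smul_eq_mul]
      rw [h6]; ring
    · congr 1
      simp only [hΦ]
      refine Prod.ext rfl ?_
      funext i
      simp [hs0 i]
  -- disjoint balls
  obtain ⟨r, hr, hdisj⟩ : ∃ r : ℝ, 0 < r ∧ ∀ s ∈ S, ∀ t ∈ S, s ≠ t →
      Disjoint (Metric.ball s r) (Metric.ball t r) := by
    by_cases hne : (S.offDiag).Nonempty
    · obtain ⟨q, hq, hmin⟩ := S.offDiag.exists_min_image (fun q => dist q.1 q.2) hne
      have hq' := Finset.mem_offDiag.1 hq
      refine ⟨dist q.1 q.2 / 2, by have := dist_pos.2 hq'.2.2; linarith, ?_⟩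
      intro s hs t ht hst
      refine Metric.ball_disjoint_ball ?_
      have := hmin (s, t) (Finset.mem_offDiag.2 ⟨hs, ht, hst⟩)
      simp only at this
      linarith
    · refine ⟨1, one_pos, fun s hs t ht hst => absurd ⟨(s, t), Finset.mem_offDiag.2
        ⟨hs, ht, hst⟩⟩ hne⟩
  have hev : ∀ s ∈ S, ∀ᶠ ε : ℝ in 𝓝 0, ∃ x ∈ Metric.ball s r,
      ∀ i, eval x (f i) + ε * x i ^ (d + 1) = 0 := by
    intro s hs
    have h1 : (Set.univ : Set ℝ) ×ˢ Metric.ball s r ∈ 𝓝 ((0 : ℝ), s) :=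
      prod_mem_nhds Filter.univ_mem (Metric.ball_mem_nhds s hr)
    have h2 : Φ '' ((Set.univ : Set ℝ) ×ˢ Metric.ball s r) ∈ 𝓝 ((0 : ℝ), (0 : Fin D → ℝ)) := by
      rw [← hmap s hs]; exact Filter.image_mem_map h1
    have h3 : Filter.Tendsto (fun ε : ℝ => (ε, (0 : Fin D → ℝ))) (𝓝 0)
        (𝓝 ((0 : ℝ), (0 : Fin D → ℝ))) := by
      apply Continuous.tendsto' (by fun_prop)
      rfl
    filter_upwards [h3 h2] with ε hε
    obtain ⟨⟨e, x⟩, ⟨-, hx⟩, hex⟩ := hε
    simp only [hΦ, Prod.mk.injEq] at hex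
    obtain ⟨rfl, hex2⟩ := hex
    exact ⟨x, hx, fun i => congrFun hex2 i⟩
  have hall : ∀ᶠ ε : ℝ in 𝓝 0, ∀ s ∈ S, ∃ x ∈ Metric.ball s r,
      ∀ i, eval x (f i) + ε * x i ^ (d + 1) = 0 :=
    (Filter.eventually_all_finset S).2 hev
  have hne : ∀ᶠ ε : ℝ in 𝓝[≠] 0, ∀ s ∈ S, ∃ x ∈ Metric.ball s r,
      ∀ i, eval x (f i) + ε * x i ^ (d + 1) = 0 := hall.filter_mono nhdsWithin_le_nhds
  obtain ⟨ε, hε, hε0⟩ := (hne.and self_mem_nhdsWithin).exists
  choose! g hg hg0 using hε
  have hinj : Set.InjOn g S := by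
    intro s hs t ht hst
    by_contra hne'
    have := Set.disjoint_left.1 (hdisj s hs t ht hne') (hg s hs)
    rw [hst] at this
    exact this (hg t ht)
  rw [← Finset.card_image_of_injOn hinj]
  refine zeros_card_le f hf (ε := ε) hε0 (S.image g) ?_
  intro x hx i
  obtain ⟨s, hs, rfl⟩ := Finset.mem_image.1 hx
  exact hg0 s hs i

end BU
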