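import Pool.Agent.Work.MP_4030f5_lc.A3b

/-! # A3: a Bezout type inequality -/

namespace BU

open MvPolynomial

private theorem A3c_hasFDerivAt {D : ℕ} (p : MvPolynomial (Fin D) ℝ) (x : Fin D → ℝ) :
    HasFDerivAt (fun y : Fin D → ℝ => eval y p)
      (∑ j, eval x (pderiv j p) • (ContinuousLinearMap.proj j : (Fin D → ℝ) →L[ℝ] ℝ)) x := by
  induction p using MvPolynomial.induction_on with
  | C a =>
    simp only [eval_C, pderiv_C, map_zero, zero_smul, Finset.sum_const_zero]
    exact hasFDerivAt_const a x
  | add p q hp hq =>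
    simp only [map_add, add_smul, Finset.sum_add_distrib]
    exact hp.add hq
  | mul_X p i hp =>
    have hX : HasFDerivAt (fun y : Fin D → ℝ => y i)
        (ContinuousLinearMap.proj i : (Fin D → ℝ) →L[ℝ] ℝ) x :=
      (ContinuousLinearMap.proj i : (Fin D → ℝ) →L[ℝ] ℝ).hasFDerivAt
    have h := hp.mul hX
    simp only [map_mul, eval_X]
    refine h.congr_fderiv ?_
    ext v
    simp only [add_apply, smul_apply,
      ContinuousLinearMap.proj_apply, smul_eq_mul, sum_apply,
      Derivation.leibniz, map_add, map_mul, eval_X, pderiv_X]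
    simp only [add_mul, Finset.sum_add_distrib, Finset.mul_sum]
    congr 1
    · rw [Finset.sum_eq_single i]
      · simp
      · intro b _ hb
        simp [hb.symm]
      · simp
    · refine Finset.sum_congr rfl fun j _ => ?_
      ring

private theorem A3c_totalDegree_pderiv_le {D d : ℕ} (i : Fin D) (h : MvPolynomial (Fin D) ℝ)
    (hd : h.totalDegree ≤ d + 1) : (pderiv i h).totalDegree ≤ d := by
  classical
  rw [totalDegree, Finset.sup_le_iff]
  intro m hm
  rw [mem_support_iff, coeff_pderiv] at hm
  have h1 : m + Finsupp.single i 1 ∈ h.support := by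
    rw [mem_support_iff]
    exact left_ne_zero_of_mul hm
  have h2 := (le_totalDegree h1).trans hd
  rw [Finsupp.sum_add_index' (fun _ => rfl) (fun _ _ _ => rfl), Finsupp.sum_single_index rfl] at h2
  omega

/-- critical points version: a polynomial `h` of degree `≤ d + 1` and finitely many pairwise
disjoint nonempty bounded open sets on each of which `h` is bigger somewhere inside than everywhere
on the frontier; then there are at most `(d+1)^D` of them. -/
theorem peaks_card_le {D d : ℕ} (h : MvPolynomial (Fin D) ℝ) (hd : h.totalDegree ≤ d + 1)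
    {ι : Type} [Fintype ι] (U : ι → Set (Fin D → ℝ)) (hopen : ∀ i, IsOpen (U i))
    (hbdd : ∀ i, Bornology.IsBounded (U i)) (hdisj : ∀ i j, i ≠ j → Disjoint (U i) (U j))
    (hpeak : ∀ i, ∃ x ∈ U i, ∀ y ∈ frontier (U i), eval y h < eval x h) :
    Fintype.card ι ≤ (d + 1) ^ D := by
  classical
  choose x hxU hx using hpeak
  -- the gap on each set
  have hcont : Continuous fun y : Fin D → ℝ => eval y h := MvPolynomial.continuous_eval h
  have hcpt : ∀ i, IsCompact (closure (U i)) := fun i => (hbdd i).isCompact_closure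
  have hgap : ∀ i, ∃ δ > 0, ∀ y ∈ frontier (U i), eval y h + δ ≤ eval (x i) h := by
    intro i
    rcases (frontier (U i)).eq_empty_or_nonempty with he | hne
    · exact ⟨1, one_pos, fun y hy => by simp [he] at hy⟩
    · have hc : IsCompact (frontier (U i)) :=
        (hcpt i).of_isClosed_subset isClosed_frontier frontier_subset_closure
      obtain ⟨y0, hy0, hmax⟩ := hc.exists_isMaxOn hne hcont.continuousOn
      refine ⟨eval (x i) h - eval y0 h, sub_pos.mpr (hx i y0 hy0), fun y hy => ?_⟩
      have := hmax hy
      simp only [Set.mem_ofPred_eq] at this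
      linarith
  choose δ hδ hδ' using hgap
  -- common bound R on all the sets
  have hR : ∃ R > 0, ∀ i, ∀ y ∈ closure (U i), ∀ j, |y j| ≤ R := by
    have : ∀ i, ∃ R, ∀ y ∈ closure (U i), ‖y‖ ≤ R := fun i => (hcpt i).isBounded.exists_norm_le
    choose R hR using this
    refine ⟨∑ i, |R i| + 1, by positivity, fun i y hy j => ?_⟩
    have h1 := hR i y hy
    have h2 : |y j| ≤ ‖y‖ := norm_le_pi_norm y j
    have h3 : |R i| ≤ ∑ i, |R i| := Finset.single_le_sum (fun i _ => abs_nonneg (R i))
      (Finset.mem_univ i)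
    have h4 := le_abs_self (R i)
    linarith
  obtain ⟨R, hRpos, hR⟩ := hR
  -- choose a small regular value
  set G : (Fin D → ℝ) → (Fin D → ℝ) := fun y j => eval y (pderiv j h) with hG
  set G' : (Fin D → ℝ) → ((Fin D → ℝ) →L[ℝ] (Fin D → ℝ)) := fun y =>
    ContinuousLinearMap.pi (fun i => ∑ j, eval y (pderiv j (pderiv i h)) •
      (ContinuousLinearMap.proj j : (Fin D → ℝ) →L[ℝ] ℝ)) with hG'
  have hGd : ∀ y, HasFDerivAt G (G' y) y := by
    intro y
    rw [hasFDerivAt_pi']
    intro i
    exact A3c_hasFDerivAt (pderiv i h) y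
  have hdet : ∀ y, (G' y).det = (Matrix.of (fun i j => eval y (pderiv j (pderiv i h)))).det := by
    intro y
    rw [← LinearMap.det_toLin' (Matrix.of (fun i j => eval y (pderiv j (pderiv i h))))]
    rw [ContinuousLinearMap.det]
    congr 1
    ext v i
    simp [hG', Matrix.toLin'_apply, Matrix.mulVec, dotProduct]
  set s : Set (Fin D → ℝ) := {y | (G' y).det = 0} with hs
  have hsard : MeasureTheory.volume (G '' s) = 0 :=
    MeasureTheory.addHaar_image_eq_zero_of_det_fderivWithin_eq_zero MeasureTheory.volume
      (fun y _ => (hGd y).hasFDerivWithinAt) (fun y hy => hy)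
  have hε : ∃ ε > 0, ∀ i, 2 * D * ε * R < δ i := by
    have : ∀ i, ∃ ε > 0, 2 * D * ε * R < δ i := by
      intro i
      refine ⟨δ i / (2 * D * R + 1), by have := hδ i; positivity, ?_⟩
      have h1 := hδ i
      have h2 : (0:ℝ) < 2 * D * R + 1 := by positivity
      rw [show 2 * (D:ℝ) * (δ i / (2 * D * R + 1)) * R = δ i * ((2 * D * R) / (2 * D * R + 1)) by
        ring]
      have h3 : (2 * D * R) / (2 * D * R + 1) < 1 := by
        rw [div_lt_one h2]; linarith
      nlinarith
    choose e he he' using this
    rcases isEmpty_or_nonempty ι with hι | hι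
    · exact ⟨1, one_pos, fun i => (hι.false i).elim⟩
    · obtain ⟨i0, hi0⟩ := Finite.exists_min e
      refine ⟨e i0, he i0, fun i => lt_of_le_of_lt ?_ (he' i)⟩
      have := hi0 i
      gcongr
  obtain ⟨ε, hεpos, hε⟩ := hε
  have hv : ∃ v : Fin D → ℝ, v ∈ Metric.ball (0 : Fin D → ℝ) ε ∧ v ∉ G '' s := by
    by_contra hcon
    push Not at hcon
    have h1 : MeasureTheory.volume (Metric.ball (0 : Fin D → ℝ) ε) ≤ 0 := by
      rw [← hsard]
      exact MeasureTheory.measure_mono hcon
    have h2 : 0 < MeasureTheory.volume (Metric.ball (0 : Fin D → ℝ) ε) :=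
      Metric.measure_ball_pos _ _ hεpos
    exact absurd h1 (not_le.mpr h2)
  obtain ⟨v, hvball, hvreg⟩ := hv
  have hvj : ∀ j, |v j| ≤ ε := by
    intro j
    have h1 : ‖v‖ < ε := by simpa using hvball
    exact (norm_le_pi_norm v j).trans h1.le
  -- the perturbed maximum
  have hlin : ∀ i, ∀ y ∈ closure (U i), |∑ j, v j * y j| ≤ D * ε * R := by
    intro i y hy
    calc |∑ j, v j * y j| ≤ ∑ j, |v j * y j| := Finset.abs_sum_le_sum_abs _ _
      _ ≤ ∑ _j : Fin D, ε * R := Finset.sum_le_sum fun j _ => by
          rw [abs_mul]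
          exact mul_le_mul (hvj j) (hR i y hy j) (abs_nonneg _) hεpos.le
      _ = D * ε * R := by simp [mul_assoc]
  have hz : ∀ i, ∃ z ∈ U i, G z = v := by
    intro i
    have hc2 : Continuous fun y : Fin D → ℝ => eval y h - ∑ j, v j * y j := by
      fun_prop
    obtain ⟨z, hz, hmax⟩ := (hcpt i).exists_isMaxOn ⟨x i, subset_closure (hxU i)⟩ hc2.continuousOn
    have hzU : z ∈ U i := by
      by_contra hzn
      have hzf : z ∈ frontier (U i) := by
        rw [(hopen i).frontier_eq]
        exact ⟨hz, hzn⟩
      have h1 := hδ' i z hzf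
      have h2 := hmax (subset_closure (hxU i))
      simp only [Set.mem_ofPred_eq] at h2
      have h3 := abs_le.mp (hlin i z hz)
      have h4 := abs_le.mp (hlin i (x i) (subset_closure (hxU i)))
      have h5 := hε i
      linarith [h3.1, h3.2, h4.1, h4.2]
    refine ⟨z, hzU, ?_⟩
    have hloc : IsLocalMax (fun y : Fin D → ℝ => eval y h - ∑ j, v j * y j) z := by
      filter_upwards [(hopen i).mem_nhds hzU] with y hy
      exact hmax (subset_closure hy)
    have hder : HasFDerivAt (fun y : Fin D → ℝ => eval y h - ∑ j, v j * y j)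
        ((∑ j, eval z (pderiv j h) • (ContinuousLinearMap.proj j : (Fin D → ℝ) →L[ℝ] ℝ)) -
          ∑ j, v j • (ContinuousLinearMap.proj j : (Fin D → ℝ) →L[ℝ] ℝ)) z := by
      refine (A3c_hasFDerivAt h z).sub ?_
      have : (fun y : Fin D → ℝ => ∑ j, v j * y j) =
          (∑ j, v j • (ContinuousLinearMap.proj j : (Fin D → ℝ) →L[ℝ] ℝ)) := by
        funext y
        simp
      rw [this]
      exact ContinuousLinearMap.hasFDerivAt _
    have h0 := hloc.hasFDerivAt_eq_zero hder
    funext j
    have h1 := congrArg (fun L : (Fin D → ℝ) →L[ℝ] ℝ => L (Pi.single j 1)) h0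
    simp only [sub_apply, sum_apply,
      smul_apply, ContinuousLinearMap.proj_apply, smul_eq_mul,
      zero_apply, Pi.single_apply, mul_ite, mul_one, mul_zero] at h1
    simp only [Finset.sum_ite_eq', Finset.mem_univ, if_true] at h1
    simp only [hG]
    linarith
  choose z hzU hzv using hz
  have hinj : Function.Injective z := by
    intro i j hij
    by_contra hne
    exact Set.disjoint_left.mp (hdisj i j hne) (hzU i) (hij ▸ hzU j)
  have hb := bezout (d := d) (fun i => pderiv i h - C (v i)) (fun i => by
      refine (totalDegree_sub _ _).trans (max_le ?_ (by simp))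
      exact A3c_totalDegree_pderiv_le i h hd) (Finset.univ.image z) (by
      intro y hy
      obtain ⟨i, -, rfl⟩ := Finset.mem_image.mp hy
      refine ⟨fun j => ?_, ?_⟩
      · have := congrFun (hzv i) j
        simp only [hG] at this
        simp [this]
      · have h1 : (G' (z i)).det ≠ 0 := by
          intro h0
          exact hvreg ⟨z i, h0, hzv i⟩
        rw [hdet] at h1
        simpa using h1)
  rwa [Finset.card_image_of_injective _ hinj, Finset.card_univ] at hb

end BU
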