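import Pool.Agent.Work.MP_4030f5_lc.FmDefs

/-! # Q0: elementary properties of `Fm`, `SgnEq`, `Bdd`, `SA` -/

namespace BU

variable {σ τ β γ : Type}

theorem Fm.eval_rename (r : σ → τ) (e : Fm σ) (x : τ → ℝ) :
    (e.rename r).eval x = e.eval (fun i => x (r i)) := by
  induction e with
  | var i => rfl
  | const c => rfl
  | add e f ihe ihf => simp only [Fm.rename, Fm.eval, ihe, ihf]
  | mul e f ihe ihf => simp only [Fm.rename, Fm.eval, ihe, ihf]

theorem Fm.size_rename (r : σ → τ) (e : Fm σ) : (e.rename r).size = e.size := by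
  induction e with
  | var i => rfl
  | const c => rfl
  | add e f ihe ihf => simp only [Fm.rename, Fm.size, ihe, ihf]
  | mul e f ihe ihf => simp only [Fm.rename, Fm.size, ihe, ihf]

theorem SgnEq.refl (F : List (Fm σ)) (x : σ → ℝ) : SgnEq F x x := fun _ _ => rfl

theorem SgnEq.symm {F : List (Fm σ)} {x y : σ → ℝ} (h : SgnEq F x y) : SgnEq F y x :=
  fun e he => (h e he).symm

theorem SgnEq.trans {F : List (Fm σ)} {x y z : σ → ℝ} (h : SgnEq F x y) (h' : SgnEq F y z) :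
    SgnEq F x z := fun e he => (h e he).trans (h' e he)

theorem SgnEq.mono {F G : List (Fm σ)} (h : F ⊆ G) {x y : σ → ℝ} (hG : SgnEq G x y) :
    SgnEq F x y := fun e he => hG e (h he)

theorem SgnEq.append {F G : List (Fm σ)} {x y : σ → ℝ} :
    SgnEq (F ++ G) x y ↔ SgnEq F x y ∧ SgnEq G x y := by
  unfold SgnEq
  simp only [List.mem_append, or_imp, forall_and]

theorem SgnEq.rename {r : σ → τ} {F : List (Fm σ)} {x y : τ → ℝ} :
    SgnEq (F.map (Fm.rename r)) x y ↔ SgnEq F (fun i => x (r i)) (fun i => y (r i)) := by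
  unfold SgnEq
  simp only [List.mem_map, forall_exists_index, and_imp, forall_apply_eq_imp_iff₂, Fm.sgn,
    Fm.eval_rename]

theorem tsize_append (F G : List (Fm σ)) : tsize (F ++ G) = tsize F + tsize G := by
  simp [tsize]

theorem tsize_rename (r : σ → τ) (F : List (Fm σ)) : tsize (F.map (Fm.rename r)) = tsize F := by
  unfold tsize
  rw [List.map_map]
  congr 1
  apply List.map_congr_left
  intro e _
  exact Fm.size_rename r e

theorem Bdd.mono {C C' : ℕ} (h : C ≤ C') {φ : (σ → ℝ) → β} (hφ : Bdd C φ) : Bdd C' φ := by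
  obtain ⟨F, hF, hF'⟩ := hφ
  exact ⟨F, hF.trans h, hF'⟩

theorem Bdd.const (b : β) : Bdd 0 (fun _ : σ → ℝ => b) :=
  ⟨[], le_rfl, fun _ _ _ => rfl⟩

theorem Bdd.comp {C : ℕ} {φ : (σ → ℝ) → β} (hφ : Bdd C φ) (f : β → γ) :
    Bdd C (fun x => f (φ x)) := by
  obtain ⟨F, hF, hF'⟩ := hφ
  exact ⟨F, hF, fun x y h => congrArg f (hF' x y h)⟩

theorem Bdd.prod {C C' : ℕ} {φ : (σ → ℝ) → β} {ψ : (σ → ℝ) → γ} (hφ : Bdd C φ) (hψ : Bdd C' ψ) :
    Bdd (C + C') (fun x => (φ x, ψ x)) := by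
  obtain ⟨F, hF, hF'⟩ := hφ
  obtain ⟨G, hG, hG'⟩ := hψ
  refine ⟨F ++ G, by rw [tsize_append]; omega, fun x y h => ?_⟩
  rw [SgnEq.append] at h
  exact Prod.ext (hF' x y h.1) (hG' x y h.2)

theorem Bdd.rename {C : ℕ} {φ : (σ → ℝ) → β} (hφ : Bdd C φ) (r : σ → τ) :
    Bdd C (fun x : τ → ℝ => φ (fun i => x (r i))) := by
  obtain ⟨F, hF, hF'⟩ := hφ
  exact ⟨F.map (Fm.rename r), by rw [tsize_rename]; exact hF,
    fun x y h => hF' _ _ (SgnEq.rename.1 h)⟩

theorem Bdd.sgn {C : ℕ} {e : Fm σ} (h : e.size ≤ C) : Bdd C (fun x => e.sgn x) :=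
  ⟨[e], by simpa [tsize] using h, fun _ _ hxy => hxy e (by simp)⟩

theorem SA.univ : SA (Set.univ : Set (σ → ℝ)) := ⟨[], fun _ _ _ => by simp⟩

theorem SA.empty : SA (∅ : Set (σ → ℝ)) := ⟨[], fun _ _ _ => by simp⟩

theorem SA.compl {s : Set (σ → ℝ)} (h : SA s) : SA sᶜ := by
  obtain ⟨F, hF⟩ := h
  exact ⟨F, fun x y hxy => not_congr (hF x y hxy)⟩

theorem SA.inter {s t : Set (σ → ℝ)} (hs : SA s) (ht : SA t) : SA (s ∩ t) := by
  obtain ⟨F, hF⟩ := hs
  obtain ⟨G, hG⟩ := ht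
  refine ⟨F ++ G, fun x y hxy => ?_⟩
  rw [SgnEq.append] at hxy
  exact and_congr (hF x y hxy.1) (hG x y hxy.2)

theorem SA.union {s t : Set (σ → ℝ)} (hs : SA s) (ht : SA t) : SA (s ∪ t) := by
  obtain ⟨F, hF⟩ := hs
  obtain ⟨G, hG⟩ := ht
  refine ⟨F ++ G, fun x y hxy => ?_⟩
  rw [SgnEq.append] at hxy
  exact or_congr (hF x y hxy.1) (hG x y hxy.2)

theorem SA.iInter {ι : Type} [Finite ι] {s : ι → Set (σ → ℝ)} (hs : ∀ i, SA (s i)) :
    SA (⋂ i, s i) := by
  choose F hF using hs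
  have := Fintype.ofFinite ι
  refine ⟨(Finset.univ : Finset ι).toList.flatMap F, fun x y hxy => ?_⟩
  have h : ∀ i, x ∈ s i ↔ y ∈ s i := fun i => hF i x y (hxy.mono (fun e he =>
    List.mem_flatMap.2 ⟨i, by simp, he⟩))
  simp only [Set.mem_iInter]
  exact forall_congr' h

theorem SA.iUnion {ι : Type} [Finite ι] {s : ι → Set (σ → ℝ)} (hs : ∀ i, SA (s i)) :
    SA (⋃ i, s i) := by
  choose F hF using hs
  have := Fintype.ofFinite ι
  refine ⟨(Finset.univ : Finset ι).toList.flatMap F, fun x y hxy => ?_⟩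
  have h : ∀ i, x ∈ s i ↔ y ∈ s i := fun i => hF i x y (hxy.mono (fun e he =>
    List.mem_flatMap.2 ⟨i, by simp, he⟩))
  simp only [Set.mem_iUnion]
  exact exists_congr h

theorem SA.rename {s : Set (σ → ℝ)} (hs : SA s) (r : σ → τ) :
    SA {x : τ → ℝ | (fun i => x (r i)) ∈ s} := by
  obtain ⟨F, hF⟩ := hs
  exact ⟨F.map (Fm.rename r), fun x y h => hF _ _ (SgnEq.rename.1 h)⟩

theorem SA.lt (e f : Fm σ) : SA {x : σ → ℝ | e.eval x < f.eval x} := by
  refine ⟨[e.add ((Fm.const (-1)).mul f)], fun x y h => ?_⟩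
  have h1 := h _ (List.mem_singleton_self _)
  have key : ∀ z : σ → ℝ, e.eval z < f.eval z ↔
      (e.add ((Fm.const (-1)).mul f)).sgn z = -1 := by
    intro z
    simp only [Fm.sgn, Fm.eval]
    rw [sign_eq_neg_one_iff]
    push_cast
    constructor <;> intro h <;> linarith
  simp only [Set.mem_ofPred_eq]
  rw [key x, key y, h1]

theorem SA.le (e f : Fm σ) : SA {x : σ → ℝ | e.eval x ≤ f.eval x} := by
  have h := (SA.lt f e).compl
  have e1 : ({x : σ → ℝ | f.eval x < e.eval x})ᶜ = {x : σ → ℝ | e.eval x ≤ f.eval x} := by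
    ext x
    simp
  rwa [e1] at h

theorem SA.cls (F : List (Fm σ)) (x : σ → ℝ) : SA (BU.cls F x) :=
  ⟨F, fun _ _ h => ⟨fun hy => h.symm.trans hy, fun hz => h.trans hz⟩⟩

theorem SA.of_bdd {C : ℕ} {φ : (σ → ℝ) → β} (hφ : Bdd C φ) (P : β → Prop) :
    SA {x | P (φ x)} := by
  obtain ⟨F, _, hF⟩ := hφ
  refine ⟨F, fun x y h => ?_⟩
  simp only [Set.mem_ofPred_eq]
  rw [hF x y h]

/-- finitely many sign classes. -/
theorem finite_cls (F : List (Fm σ)) : (Set.range (fun x : σ → ℝ => BU.cls F x)).Finite := by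
  have h1 : (Set.range (fun (x : σ → ℝ) (i : Fin F.length) => (F.get i).sgn x)).Finite :=
    Set.toFinite _
  have h2 : ∀ x y : σ → ℝ, (fun i : Fin F.length => (F.get i).sgn x) =
      (fun i : Fin F.length => (F.get i).sgn y) → BU.cls F x = BU.cls F y := by
    intro x y h
    have hxy : SgnEq F x y := by
      intro e he
      obtain ⟨i, rfl⟩ := List.get_of_mem he
      exact congrFun h i
    ext z
    exact ⟨fun hz => SgnEq.trans hz hxy, fun hz => SgnEq.trans hz hxy.symm⟩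
  classical
  have h3 : ∃ g : (Fin F.length → SignType) → Set (σ → ℝ), ∀ x : σ → ℝ,
      BU.cls F x = g (fun i => (F.get i).sgn x) := by
    refine ⟨fun s => if h : ∃ x : σ → ℝ, (fun i => (F.get i).sgn x) = s then BU.cls F h.choose
      else ∅, fun x => ?_⟩
    have hex : ∃ y : σ → ℝ, (fun i => (F.get i).sgn y) = (fun i => (F.get i).sgn x) := ⟨x, rfl⟩
    beta_reduce
    rw [dif_pos hex]
    exact (h2 _ _ hex.choose_spec).symm
  obtain ⟨g, hg⟩ := h3
  refine (h1.image g).subset ?_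
  rintro _ ⟨x, rfl⟩
  exact ⟨_, ⟨x, rfl⟩, (hg x).symm⟩

end BU
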