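import Pool.Agent.Work.MP_4030f5_lc.A3c
import Pool.Agent.Work.MP_4030f5_lc.Q0

/-! # A4: Warren type bound for the number of sign vectors -/

namespace BU

open MvPolynomial

/-- the region of a strict sign pattern in a ball -/
def A4_U {D N : ℕ} (f : Fin N → MvPolynomial (Fin D) ℝ) (R : ℝ) (s : Fin N → Bool) :
    Set (Fin D → ℝ) :=
  {x | ∑ j, x j ^ 2 < R ^ 2 ∧ ∀ i, eval x (f i) ≠ 0 ∧ (0 < eval x (f i) ↔ s i = true)}

theorem A4_cont {D : ℕ} (p : MvPolynomial (Fin D) ℝ) : Continuous fun x : Fin D → ℝ => eval x p :=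
  MvPolynomial.continuous_eval p

theorem A4_U_eq {D N : ℕ} (f : Fin N → MvPolynomial (Fin D) ℝ) (R : ℝ) (s : Fin N → Bool) :
    A4_U f R s = {x | ∑ j, x j ^ 2 < R ^ 2} ∩ ⋂ i, {x | 0 < (if s i = true then (1 : ℝ) else -1) *
      eval x (f i)} := by
  ext x
  simp only [A4_U, Set.mem_ofPred_eq, Set.mem_inter_iff, Set.mem_iInter]
  refine and_congr Iff.rfl (forall_congr' fun i => ?_)
  by_cases h : s i = true
  · simp only [h, if_true, one_mul, iff_true]
    constructor
    · exact fun h => h.2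
    · exact fun h => ⟨h.ne', h⟩
  · rw [if_neg h]
    constructor
    · rintro ⟨h1, h2⟩
      have h3 : eval x (f i) ≤ 0 := not_lt.1 fun h4 => h (h2.1 h4)
      have := lt_of_le_of_ne h3 h1
      linarith
    · intro h1
      have h3 : eval x (f i) < 0 := by linarith
      exact ⟨h3.ne, fun h4 => absurd h4 (not_lt.2 h3.le), fun h4 => absurd h4 h⟩

theorem A4_U_open {D N : ℕ} (f : Fin N → MvPolynomial (Fin D) ℝ) (R : ℝ) (s : Fin N → Bool) :
    IsOpen (A4_U f R s) := by
  rw [A4_U_eq]
  refine IsOpen.inter ?_ (isOpen_iInter_of_finite fun i => ?_)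
  · exact isOpen_lt (by fun_prop) continuous_const
  · exact isOpen_lt continuous_const (continuous_const.mul (A4_cont _))

theorem A4_U_closure {D N : ℕ} (f : Fin N → MvPolynomial (Fin D) ℝ) (R : ℝ) (s : Fin N → Bool)
    {y : Fin D → ℝ} (hy : y ∈ closure (A4_U f R s)) :
    ∑ j, y j ^ 2 ≤ R ^ 2 ∧ ∀ i, 0 ≤ (if s i = true then (1 : ℝ) else -1) * eval y (f i) := by
  have hcl : IsClosed ({x : Fin D → ℝ | ∑ j, x j ^ 2 ≤ R ^ 2} ∩
      ⋂ i, {x | 0 ≤ (if s i = true then (1 : ℝ) else -1) * eval x (f i)}) := by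
    refine IsClosed.inter ?_ (isClosed_iInter fun i => ?_)
    · exact isClosed_le (by fun_prop) continuous_const
    · exact isClosed_le continuous_const (continuous_const.mul (A4_cont _))
  have hsub : A4_U f R s ⊆ ({x : Fin D → ℝ | ∑ j, x j ^ 2 ≤ R ^ 2} ∩
      ⋂ i, {x | 0 ≤ (if s i = true then (1 : ℝ) else -1) * eval x (f i)}) := by
    rw [A4_U_eq]
    intro x hx
    have h1 : ∑ j, x j ^ 2 < R ^ 2 := hx.1
    refine ⟨h1.le, ?_⟩
    have h2 := hx.2
    rw [Set.mem_iInter] at h2 ⊢
    intro i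
    have h3 : 0 < (if s i = true then (1 : ℝ) else -1) * eval x (f i) := h2 i
    exact h3.le
  have h := closure_minimal hsub hcl hy
  refine ⟨h.1, ?_⟩
  have h2 := h.2
  rw [Set.mem_iInter] at h2
  exact h2

theorem A4_U_frontier {D N : ℕ} (f : Fin N → MvPolynomial (Fin D) ℝ) (R : ℝ) (s : Fin N → Bool)
    {y : Fin D → ℝ} (hy : y ∈ frontier (A4_U f R s)) :
    ∑ j, y j ^ 2 = R ^ 2 ∨ ∃ i, eval y (f i) = 0 := by
  rw [frontier, (A4_U_open f R s).interior_eq] at hy
  obtain ⟨h1, h2⟩ := A4_U_closure f R s hy.1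
  by_contra hcon
  push Not at hcon
  apply hy.2
  rw [A4_U_eq]
  refine ⟨lt_of_le_of_ne h1 hcon.1, ?_⟩
  rw [Set.mem_iInter]
  intro i
  refine lt_of_le_of_ne (h2 i) (Ne.symm ?_)
  refine mul_ne_zero ?_ (hcon.2 i)
  split <;> norm_num

/-- strict sign patterns -/
theorem warren_strict {D d N : ℕ} (f : Fin N → MvPolynomial (Fin D) ℝ)
    (hf : ∀ i, (f i).totalDegree ≤ d) :
    {s : Fin N → Bool | ∃ x : Fin D → ℝ, ∀ i, eval x (f i) ≠ 0 ∧ (0 < eval x (f i) ↔ s i = true)}.ncard
      ≤ (2 * N * d + 4) ^ D := by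
  classical
  set S : Set (Fin N → Bool) := {s : Fin N → Bool | ∃ x : Fin D → ℝ, ∀ i, eval x (f i) ≠ 0 ∧
    (0 < eval x (f i) ↔ s i = true)} with hS
  have hfin : S.Finite := Set.toFinite _
  let inst : Fintype S := hfin.fintype
  choose w hw using fun s : S => s.2
  obtain ⟨R, hR0, hR⟩ : ∃ R : ℝ, 1 ≤ R ∧ ∀ s : S, ∑ j, w s j ^ 2 < R ^ 2 := by
    refine ⟨1 + ∑ s : S, ∑ j, w s j ^ 2, ?_, ?_⟩
    · have : 0 ≤ ∑ s : S, ∑ j, w s j ^ 2 := by positivity
      linarith
    · intro s
      have h1 : ∑ j, w s j ^ 2 ≤ ∑ s : S, ∑ j, w s j ^ 2 :=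
        Finset.single_le_sum (f := fun s : S => ∑ j, w s j ^ 2) (fun _ _ => by positivity)
          (Finset.mem_univ s)
      have h0 : 0 ≤ ∑ s : S, ∑ j, w s j ^ 2 := by positivity
      nlinarith
  have hcard : S.ncard = Fintype.card S := by
    rw [← Nat.card_coe_set_eq, Nat.card_eq_fintype_card]
  rw [hcard]
  set h : MvPolynomial (Fin D) ℝ :=
    (∏ i, f i ^ 2) * (C (R ^ 2) - ∑ j, X j ^ 2) ^ 2 with hh
  have hev : ∀ x : Fin D → ℝ, eval x h = (∏ i, eval x (f i) ^ 2) * (R ^ 2 - ∑ j, x j ^ 2) ^ 2 := by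
    intro x
    simp only [hh, map_mul, map_prod, map_pow, map_sub, map_sum, eval_C, eval_X]
  have hdeg : h.totalDegree ≤ (2 * N * d + 3) + 1 := by
    refine (totalDegree_mul _ _).trans ?_
    have h1 : (∏ i, f i ^ 2).totalDegree ≤ 2 * N * d := by
      refine (totalDegree_finsetProd _ _).trans ?_
      calc ∑ i, (f i ^ 2).totalDegree ≤ ∑ _i : Fin N, 2 * d :=
            Finset.sum_le_sum fun i _ => (totalDegree_pow _ _).trans
              (Nat.mul_le_mul_left 2 (hf i))
        _ = 2 * N * d := by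
            rw [Finset.sum_const, Finset.card_univ, Fintype.card_fin, smul_eq_mul]; ring
    have h2 : ((C (R ^ 2) - ∑ j, X j ^ 2 : MvPolynomial (Fin D) ℝ) ^ 2).totalDegree ≤ 4 := by
      refine (totalDegree_pow _ _).trans ?_
      have h3 : (C (R ^ 2) - ∑ j, X j ^ 2 : MvPolynomial (Fin D) ℝ).totalDegree ≤ 2 := by
        refine (totalDegree_sub _ _).trans (max_le ?_ ?_)
        · rw [totalDegree_C]; omega
        · exact totalDegree_finsetSum_le fun j _ => by rw [totalDegree_X_pow]
      omega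
    omega
  have hmain := peaks_card_le (D := D) (d := 2 * N * d + 3) h hdeg (ι := S)
    (fun s => A4_U f R s.1) (fun s => A4_U_open f R s.1) ?_ ?_ ?_
  · exact hmain
  · intro s
    refine (Metric.isBounded_closedBall (x := (0 : Fin D → ℝ)) (r := R)).subset ?_
    intro x hx
    rw [Metric.mem_closedBall, dist_zero_right, pi_norm_le_iff_of_nonneg (by linarith)]
    intro j
    have h1 : x j ^ 2 ≤ ∑ j, x j ^ 2 :=
      Finset.single_le_sum (f := fun j => x j ^ 2) (fun _ _ => by positivity) (Finset.mem_univ j)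
    have h2 : x j ^ 2 ≤ R ^ 2 := h1.trans hx.1.le
    rw [Real.norm_eq_abs]
    exact abs_le_of_sq_le_sq h2 (by linarith)
  · intro s t hst
    rw [Set.disjoint_left]
    intro x hx hx'
    apply hst
    apply Subtype.ext
    funext i
    have h1 := (hx.2 i).2
    have h2 := (hx'.2 i).2
    by_cases h3 : 0 < eval x (f i)
    · rw [h1.1 h3, h2.1 h3]
    · have h4 : ¬ s.1 i = true := fun h => h3 (h1.2 h)
      have h5 : ¬ t.1 i = true := fun h => h3 (h2.2 h)
      rw [Bool.not_eq_true] at h4 h5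
      rw [h4, h5]
  · intro s
    refine ⟨w s, ⟨hR s, hw s⟩, fun y hy => ?_⟩
    have hy0 : eval y h = 0 := by
      rw [hev]
      rcases A4_U_frontier f R s.1 hy with h1 | ⟨i, hi⟩
      · rw [h1]; ring
      · rw [Finset.prod_eq_zero (Finset.mem_univ i) (by rw [hi]; ring), zero_mul]
    rw [hy0, hev]
    have h1 : 0 < ∏ i, eval (w s) (f i) ^ 2 := Finset.prod_pos fun i _ => by
      have := (hw s i).1
      positivity
    have h2 : 0 < (R ^ 2 - ∑ j, w s j ^ 2) ^ 2 := by
      have := hR s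
      have h3 : 0 < R ^ 2 - ∑ j, w s j ^ 2 := by linarith
      positivity
    exact mul_pos h1 h2

theorem A4_sign_of {a ε : ℝ} (hε : 0 < ε) (h : a ≠ 0 → ε < |a|) :
    (a + ε ≠ 0 ∧ a - ε ≠ 0) ∧ SignType.sign a =
      (if 0 < a - ε then 1 else if 0 < a + ε then 0 else -1) := by
  rcases lt_trichotomy a 0 with h1 | h1 | h1
  · have h2 := h h1.ne
    rw [abs_of_neg h1] at h2
    refine ⟨⟨by linarith, by linarith⟩, ?_⟩
    rw [if_neg (by linarith), if_neg (by linarith), sign_neg h1]
  · subst h1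
    refine ⟨⟨by linarith, by linarith⟩, ?_⟩
    rw [if_neg (by linarith), if_pos (by linarith), sign_zero]
  · have h2 := h h1.ne'
    rw [abs_of_pos h1] at h2
    refine ⟨⟨by linarith, by linarith⟩, ?_⟩
    rw [if_pos (by linarith), sign_pos h1]

/-- all sign vectors -/
theorem warren {D d N : ℕ} (f : Fin N → MvPolynomial (Fin D) ℝ)
    (hf : ∀ i, (f i).totalDegree ≤ d) :
    (Set.range (fun (x : Fin D → ℝ) (i : Fin N) => SignType.sign (eval x (f i)))).ncard
      ≤ (4 * N * d + 4) ^ D := by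
  classical
  set S := Set.range (fun (x : Fin D → ℝ) (i : Fin N) => SignType.sign (eval x (f i))) with hS
  have hfin : S.Finite := Set.toFinite _
  let inst : Fintype S := hfin.fintype
  choose w hw using fun s : S => s.2
  -- a small number
  obtain ⟨ε, hε, hεw⟩ : ∃ ε : ℝ, 0 < ε ∧ ∀ s : S, ∀ i, eval (w s) (f i) ≠ 0 →
      ε < |eval (w s) (f i)| := by
    have hex : ∀ p : S × Fin N, ∃ δ : ℝ, 0 < δ ∧ (eval (w p.1) (f p.2) ≠ 0 →
        δ < |eval (w p.1) (f p.2)|) := by
      intro p
      by_cases hp : eval (w p.1) (f p.2) = 0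
      · exact ⟨1, one_pos, fun h => absurd hp h⟩
      · refine ⟨|eval (w p.1) (f p.2)| / 2, by positivity, fun _ => ?_⟩
        have : 0 < |eval (w p.1) (f p.2)| := by positivity
        linarith
    choose δ hδ hδ' using hex
    obtain ⟨ε, hε, hε'⟩ : ∃ ε : ℝ, 0 < ε ∧ ∀ p : S × Fin N, ε ≤ δ p := by
      by_cases hne : Nonempty (S × Fin N)
      · obtain ⟨p0, hp0⟩ := Finite.exists_min δ
        exact ⟨δ p0, hδ p0, hp0⟩
      · exact ⟨1, one_pos, fun p => absurd ⟨p⟩ hne⟩
    exact ⟨ε, hε, fun s i h => lt_of_le_of_lt (hε' (s, i)) (hδ' (s, i) h)⟩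
  -- the doubled family
  set F : Fin (N + N) → MvPolynomial (Fin D) ℝ :=
    Fin.append (fun i => f i + C ε) (fun i => f i - C ε) with hF
  have hFdeg : ∀ i, (F i).totalDegree ≤ d := by
    intro i
    refine Fin.addCases (fun j => ?_) (fun j => ?_) i
    · rw [hF, Fin.append_left]
      exact (totalDegree_add _ _).trans (max_le (hf j) (by rw [totalDegree_C]; omega))
    · rw [hF, Fin.append_right]
      exact (totalDegree_sub _ _).trans (max_le (hf j) (by rw [totalDegree_C]; omega))
  have hst := warren_strict F hFdeg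
  set T := {s : Fin (N + N) → Bool | ∃ x : Fin D → ℝ, ∀ i, eval x (F i) ≠ 0 ∧
    (0 < eval x (F i) ↔ s i = true)} with hT
  have hTfin : T.Finite := Set.toFinite _
  have hsub : S ⊆ (fun (t : Fin (N + N) → Bool) (i : Fin N) =>
      if t (Fin.natAdd N i) = true then (1 : SignType)
        else if t (Fin.castAdd N i) = true then 0 else -1) '' T := by
    intro s hs
    have hws := hw ⟨s, hs⟩
    refine ⟨fun i => decide (0 < eval (w ⟨s, hs⟩) (F i)), ⟨w ⟨s, hs⟩, fun i => ⟨?_, by simp⟩⟩, ?_⟩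
    · refine Fin.addCases (fun j => ?_) (fun j => ?_) i
      · rw [hF, Fin.append_left]
        simp only [map_add, eval_C]
        exact (A4_sign_of hε (hεw ⟨s, hs⟩ j)).1.1
      · rw [hF, Fin.append_right]
        simp only [map_sub, eval_C]
        exact (A4_sign_of hε (hεw ⟨s, hs⟩ j)).1.2
    · funext j
      have h1 := (A4_sign_of hε (hεw ⟨s, hs⟩ j)).2
      have h2 := congrFun hws j
      simp only [hF, Fin.append_left, Fin.append_right, map_add, map_sub, eval_C,
        decide_eq_true_eq]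
      rw [← h1]
      exact h2
  calc S.ncard ≤ ((fun (t : Fin (N + N) → Bool) (i : Fin N) =>
      if t (Fin.natAdd N i) = true then (1 : SignType)
        else if t (Fin.castAdd N i) = true then 0 else -1) '' T).ncard :=
        Set.ncard_le_ncard hsub (hTfin.image _)
    _ ≤ T.ncard := Set.ncard_image_le hTfin
    _ ≤ (2 * (N + N) * d + 4) ^ D := hst
    _ = (4 * N * d + 4) ^ D := by congr 1; ring

/-- the polynomial of an expression -/
noncomputable def A4_poly {σ : Type} : Fm σ → MvPolynomial σ ℝ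
  | .var i => X i
  | .const c => C (c : ℝ)
  | .add e f => A4_poly e + A4_poly f
  | .mul e f => A4_poly e * A4_poly f

theorem A4_poly_eval {σ : Type} (x : σ → ℝ) (e : Fm σ) : eval x (A4_poly e) = e.eval x := by
  induction e with
  | var i => simp [A4_poly, Fm.eval]
  | const c => simp [A4_poly, Fm.eval]
  | add e f ihe ihf => simp [A4_poly, Fm.eval, ihe, ihf]
  | mul e f ihe ihf => simp [A4_poly, Fm.eval, ihe, ihf]

theorem A4_poly_deg {σ : Type} (e : Fm σ) : (A4_poly e).totalDegree ≤ e.size := by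
  induction e with
  | var i => simp [A4_poly, Fm.size]
  | const c =>
    simp only [A4_poly, Fm.size]
    rw [totalDegree_C]
    omega
  | add e f ihe ihf =>
    simp only [A4_poly, Fm.size]
    exact (totalDegree_add _ _).trans (max_le (by omega) (by omega))
  | mul e f ihe ihf =>
    simp only [A4_poly, Fm.size]
    exact (totalDegree_mul _ _).trans (by omega)

/-- the same for expressions of size at most `C` in finitely many variables. -/
theorem warren_fm {σ ι : Type} [Fintype σ] [Fintype ι] (e : ι → Fm σ) {C : ℕ}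
    (he : ∀ i, (e i).size ≤ C) :
    (Set.range (fun (x : σ → ℝ) (i : ι) => (e i).sgn x)).ncard
      ≤ (4 * Fintype.card ι * C + 4) ^ Fintype.card σ := by
  classical
  have es := Fintype.equivFin σ
  have ei := Fintype.equivFin ι
  have h := warren (D := Fintype.card σ) (d := C) (N := Fintype.card ι)
    (fun j => rename es (A4_poly (e (ei.symm j))))
    (fun j => (totalDegree_rename_le _ _).trans ((A4_poly_deg _).trans (he _)))
  refine le_trans ?_ h
  have hfin : (Set.range (fun (x : Fin (Fintype.card σ) → ℝ) (j : Fin (Fintype.card ι)) =>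
      SignType.sign (eval x (rename es (A4_poly (e (ei.symm j))))))).Finite := Set.toFinite _
  refine le_trans ?_ (Set.ncard_image_le (f := fun g (i : ι) => g (ei i)) hfin)
  refine Set.ncard_le_ncard ?_ (hfin.image _)
  rintro _ ⟨x, rfl⟩
  refine ⟨_, ⟨fun j => x (es.symm j), rfl⟩, ?_⟩
  funext i
  simp only [eval_rename, Fm.sgn]
  rw [← A4_poly_eval, ei.symm_apply_apply]
  have hx : ((fun j => x (es.symm j)) ∘ ⇑es) = x := by
    funext a
    simp
  rw [hx]

/-- the number of values of a finite family of functions of complexity at most `C`. -/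
theorem warren_bdd {σ ι β : Type} [Fintype σ] [Fintype ι] {C : ℕ} (φ : ι → (σ → ℝ) → β)
    (h : ∀ i, Bdd C (φ i)) (D : Set (σ → ℝ)) :
    ((fun (x : σ → ℝ) (i : ι) => φ i x) '' D).ncard
      ≤ (4 * (Fintype.card ι * C) * C + 4) ^ Fintype.card σ := by
  classical
  choose F hF hF' using h
  have hpos : ∀ e : Fm σ, 1 ≤ e.size := by intro e; cases e <;> simp [Fm.size]
  have hlen : ∀ l : List (Fm σ), l.length ≤ tsize l := by
    intro l
    induction l with
    | nil => simp
    | cons e l ih =>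
      have h1 : tsize (e :: l) = e.size + tsize l := by simp [tsize]
      have := hpos e
      simp only [List.length_cons]
      omega
  have hmem : ∀ l : List (Fm σ), ∀ e ∈ l, e.size ≤ tsize l := by
    intro l e he
    exact List.single_le_sum (by simp) _ (List.mem_map_of_mem he)
  set E : ι × Fin C → Fm σ := fun p => (F p.1).getD p.2 (Fm.const 0) with hE
  have hEs : ∀ p, (E p).size ≤ C := by
    intro p
    have hC : 1 ≤ C := lt_of_le_of_lt (Nat.zero_le _) p.2.2
    simp only [hE, List.getD_eq_getElem?_getD]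
    rcases hp : (F p.1)[(p.2 : ℕ)]? with _ | e
    · simpa [Fm.size] using hC
    · simp only [Option.getD_some]
      exact (hmem _ e (List.mem_of_getElem? hp)).trans (hF _)
  have hw := warren_fm E hEs
  rw [Fintype.card_prod, Fintype.card_fin] at hw
  refine le_trans ?_ hw
  have hfin : (Set.range (fun (x : σ → ℝ) (p : ι × Fin C) => (E p).sgn x)).Finite := Set.toFinite _
  have hfac : Function.FactorsThrough (fun (x : σ → ℝ) (i : ι) => φ i x)
      (fun (x : σ → ℝ) (p : ι × Fin C) => (E p).sgn x) := by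
    intro x y hxy
    funext i
    apply hF' i
    intro e he
    obtain ⟨n, hn⟩ := List.get_of_mem he
    have hnC : (n : ℕ) < C := lt_of_lt_of_le n.2 ((hlen _).trans (hF i))
    have h1 := congrFun hxy (i, ⟨n, hnC⟩)
    have h2 : E (i, ⟨n, hnC⟩) = e := by
      simp only [hE]
      rw [List.getD_eq_getElem _ _ n.2, ← hn]
      rfl
    simp only [h2] at h1
    exact h1
  have : Nonempty (ι → β) := ⟨fun i => φ i 0⟩
  obtain ⟨G, hG⟩ := (Function.factorsThrough_iff _).1 hfac
  refine le_trans ?_ (Set.ncard_image_le (f := G) hfin)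
  refine Set.ncard_le_ncard ?_ (hfin.image _)
  rintro _ ⟨x, -, rfl⟩
  exact ⟨_, ⟨x, rfl⟩, (congrFun hG x).symm⟩

end BU
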