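import Pool.Agent.Work.MP_4030f5_lc.A3c

/-! # B1: number of regions met by a basic set (Milnor-Thom type bound by the penalty method)

`A = {z | c_j z = 0, s_b z > 0}` with `c_j` of degree `≤ 2`, `s_b` of degree `≤ 2`; `lam` is a
labelling that is locally constant on `A`.  Then `lam` takes at most `6^(D + |β| + 1)` values on
`A`. -/

namespace BU

open MvPolynomial Filter Topology

theorem B1_min {V : Type} [Finite V] (δ : V → ℝ) (hδ : ∀ v, 0 < δ v) :
    ∃ ε : ℝ, 0 < ε ∧ ∀ v, ε ≤ δ v := by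
  by_cases hne : Nonempty V
  · obtain ⟨v0, hv0⟩ := Finite.exists_min δ
    exact ⟨δ v0, hδ v0, hv0⟩
  · exact ⟨1, one_pos, fun v => absurd ⟨v⟩ hne⟩

/-- the penalty method, topological part -/
theorem B1_penalty {D : ℕ} {V : Type} [Finite V] (T P : (Fin D → ℝ) → ℝ) (hT : Continuous T)
    (hP : Continuous P) (hP0 : ∀ w, 0 ≤ P w) (G : V → Set (Fin D → ℝ))
    (h1 : ∀ v, (G v).Nonempty) (hb : ∀ v, Bornology.IsBounded (G v))
    (hsub : ∀ v, ∀ w ∈ G v, P w = 0) (hd : ∀ u v, u ≠ v → Disjoint (G u) (G v))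
    (hpos : ∀ v, ∀ w ∈ G v, 0 < T w) (hcl : ∀ v, ∀ w ∈ closure (G v), T w ≠ 0 → w ∈ G v)
    (hop : ∀ v, ∀ w ∈ G v, ∃ U ∈ 𝓝 w, ∀ w' ∈ U, P w' = 0 → w' ∈ G v) :
    ∃ (M : ℝ) (U : V → Set (Fin D → ℝ)), (∀ v, IsOpen (U v)) ∧
      (∀ v, Bornology.IsBounded (U v)) ∧ (∀ u v, u ≠ v → Disjoint (U u) (U v)) ∧
      ∀ v, ∃ x ∈ U v, ∀ y ∈ frontier (U v), T y - M * P y < T x - M * P x := by
  classical
  have := Fintype.ofFinite V
  have hcomp : ∀ v, IsCompact (closure (G v)) := fun v => (hb v).isCompact_closure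
  choose w hwcl hwmax using fun v => (hcomp v).exists_isMaxOn (h1 v).closure hT.continuousOn
  have hmpos : ∀ v, 0 < T (w v) := by
    intro v
    obtain ⟨g, hg⟩ := h1 v
    exact lt_of_lt_of_le (hpos v g hg) (hwmax v (subset_closure hg))
  have hwG : ∀ v, w v ∈ G v := fun v => hcl v _ (hwcl v) (hmpos v).ne'
  set K : V → Set (Fin D → ℝ) := fun v => closure (G v) ∩ {x | T (w v) / 2 ≤ T x} with hK
  have hKc : ∀ v, IsCompact (K v) := fun v =>
    (hcomp v).inter_right (isClosed_le continuous_const hT)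
  have hKG : ∀ v, K v ⊆ G v := by
    intro v x hx
    have h2 : T (w v) / 2 ≤ T x := hx.2
    have h3 := hmpos v
    exact hcl v x hx.1 (by linarith)
  have hwK : ∀ v, w v ∈ K v := fun v => ⟨hwcl v, by
    have := hmpos v
    show T (w v) / 2 ≤ T (w v)
    linarith⟩
  have hKO : ∀ v, K v ⊆ interior {x | P x = 0 → x ∈ G v} := by
    intro v x hx
    rw [mem_interior_iff_mem_nhds]
    obtain ⟨U, hU, hU'⟩ := hop v x (hKG v hx)
    exact mem_of_superset hU fun y hy hPy => hU' y hy hPy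
  choose δ1 hδ1 hδ1' using fun v => (hKc v).exists_cthickening_subset_open isOpen_interior (hKO v)
  have hex2 : ∀ p : V × V, ∃ δ : ℝ, 0 < δ ∧ (p.1 ≠ p.2 →
      Disjoint (Metric.cthickening δ (K p.1)) (Metric.cthickening δ (K p.2))) := by
    intro p
    by_cases hp : p.1 = p.2
    · exact ⟨1, one_pos, fun h => absurd hp h⟩
    · have hdis : Disjoint (K p.1) (K p.2) := (hd _ _ hp).mono (hKG _) (hKG _)
      obtain ⟨δ, hδ, hδ'⟩ := hdis.exists_cthickenings (hKc _) (hKc _).isClosed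
      exact ⟨δ, hδ, fun _ => hδ'⟩
  choose δ2 hδ2 hδ2' using hex2
  obtain ⟨ε1, hε1, hε1'⟩ := B1_min δ1 hδ1
  obtain ⟨ε2, hε2, hε2'⟩ := B1_min δ2 hδ2
  obtain ⟨ε, hε, hεa, hεb⟩ : ∃ ε : ℝ, 0 < ε ∧ ε ≤ ε1 ∧ ε ≤ ε2 :=
    ⟨min ε1 ε2, lt_min hε1 hε2, min_le_left _ _, min_le_right _ _⟩
  set U : V → Set (Fin D → ℝ) := fun v => Metric.thickening ε (K v) with hU
  have hUo : ∀ v, IsOpen (U v) := fun v => Metric.isOpen_thickening
  have hUb : ∀ v, Bornology.IsBounded (U v) := fun v => (hKc v).isBounded.thickening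
  have hKU : ∀ v, K v ⊆ U v := fun v => Metric.self_subset_thickening hε _
  have hUd : ∀ u v, u ≠ v → Disjoint (U u) (U v) := by
    intro u v huv
    have h2 := hδ2' (u, v) huv
    have h3 : ε ≤ δ2 (u, v) := hεb.trans (hε2' _)
    exact h2.mono ((Metric.thickening_subset_cthickening _ _).trans (Metric.cthickening_mono h3 _))
      ((Metric.thickening_subset_cthickening _ _).trans (Metric.cthickening_mono h3 _))
  have hfr : ∀ v, ∀ y ∈ frontier (U v), P y = 0 → T y < T (w v) := by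
    intro v y hy hPy
    rw [frontier, (hUo v).interior_eq] at hy
    have h2 : y ∈ interior {x | P x = 0 → x ∈ G v} := hδ1' v
      (Metric.cthickening_mono (hεa.trans (hε1' v)) _
        (Metric.closure_thickening_subset_cthickening _ _ hy.1))
    have h3 : y ∈ G v := interior_subset h2 hPy
    by_contra hcon
    push Not at hcon
    apply hy.2
    apply hKU v
    refine ⟨subset_closure h3, ?_⟩
    have := hmpos v
    show T (w v) / 2 ≤ T y
    linarith
  have hM : ∀ v, ∃ M0 : ℝ, 0 ≤ M0 ∧ ∀ M, M0 ≤ M → ∀ y ∈ frontier (U v),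
      T y - M * P y < T (w v) := by
    intro v
    have hfc : IsCompact (frontier (U v)) :=
      (hUb v).isCompact_closure.of_isClosed_subset isClosed_frontier frontier_subset_closure
    have hFc : IsCompact (frontier (U v) ∩ {y | T (w v) ≤ T y}) :=
      hfc.inter_right (isClosed_le continuous_const hT)
    by_cases hne : (frontier (U v) ∩ {y | T (w v) ≤ T y}).Nonempty
    · obtain ⟨y1, hy1, hy1'⟩ := hFc.exists_isMinOn hne hP.continuousOn
      obtain ⟨y2, hy2, hy2'⟩ := hFc.exists_isMaxOn hne hT.continuousOn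
      have hc : 0 < P y1 := by
        refine lt_of_le_of_ne (hP0 y1) fun h0 => ?_
        have h2 := hfr v y1 hy1.1 h0.symm
        have h3 : T (w v) ≤ T y1 := hy1.2
        linarith
      have hB : T (w v) ≤ T y2 := hy2.2
      refine ⟨(T y2 - T (w v)) / P y1 + 1, by
        have : 0 ≤ (T y2 - T (w v)) / P y1 := div_nonneg (by linarith) hc.le
        linarith, fun M hM y hy => ?_⟩
      have hM0 : 0 ≤ M := by
        have : 0 ≤ (T y2 - T (w v)) / P y1 := div_nonneg (by linarith) hc.le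
        linarith
      by_cases hTy : T (w v) ≤ T y
      · have h2 : P y1 ≤ P y := hy1' ⟨hy, hTy⟩
        have h3 : T y ≤ T y2 := hy2' ⟨hy, hTy⟩
        have h4 : ((T y2 - T (w v)) / P y1 + 1) * P y1 ≤ M * P y :=
          mul_le_mul hM h2 hc.le hM0
        have h5 : ((T y2 - T (w v)) / P y1 + 1) * P y1 = (T y2 - T (w v)) + P y1 := by
          field_simp
        linarith
      · push Not at hTy
        have := mul_nonneg hM0 (hP0 y)
        linarith
    · refine ⟨0, le_rfl, fun M hM y hy => ?_⟩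
      have hTy : T y < T (w v) := by
        by_contra hcon
        push Not at hcon
        exact hne ⟨y, hy, hcon⟩
      have := mul_nonneg hM (hP0 y)
      linarith
  choose M0 hM0 hM0' using hM
  refine ⟨∑ v, M0 v, U, hUo, hUb, hUd, fun v => ⟨w v, hKU v (hwK v), fun y hy => ?_⟩⟩
  rw [hsub v (w v) (hwG v), mul_zero, sub_zero]
  exact hM0' v _ (Finset.single_le_sum (f := M0) (fun u _ => hM0 u) (Finset.mem_univ v)) y hy

/-- the auxiliary variables as functions of `z` -/
noncomputable def B1_t {D nb : ℕ} (s : Fin nb → MvPolynomial (Fin D) ℝ) (R : ℝ) (z : Fin D → ℝ)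
    (j : Fin (nb + 1)) : ℝ :=
  (R - ∑ i, z i ^ 2) * ∏ b : Fin nb, if (b : ℕ) < (j : ℕ) then eval z (s b) else 1

theorem B1_t_zero {D nb : ℕ} (s : Fin nb → MvPolynomial (Fin D) ℝ) (R : ℝ) (z : Fin D → ℝ) :
    B1_t s R z 0 = R - ∑ i, z i ^ 2 := by
  simp [B1_t]

theorem B1_t_last {D nb : ℕ} (s : Fin nb → MvPolynomial (Fin D) ℝ) (R : ℝ) (z : Fin D → ℝ) :
    B1_t s R z (Fin.last nb) = (R - ∑ i, z i ^ 2) * ∏ b : Fin nb, eval z (s b) := by
  simp [B1_t]

theorem B1_t_succ {D nb : ℕ} (s : Fin nb → MvPolynomial (Fin D) ℝ) (R : ℝ) (z : Fin D → ℝ)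
    (b : Fin nb) : B1_t s R z b.succ = B1_t s R z b.castSucc * eval z (s b) := by
  unfold B1_t
  rw [mul_assoc]
  congr 1
  have h1 : eval z (s b) = ∏ b' : Fin nb, if b' = b then eval z (s b') else 1 := by
    rw [Finset.prod_ite_eq' Finset.univ b (fun b' => eval z (s b'))]
    simp
  rw [h1, ← Finset.prod_mul_distrib]
  refine Finset.prod_congr rfl fun b' _ => ?_
  have e1 : ((b.succ : Fin (nb + 1)) : ℕ) = (b : ℕ) + 1 := rfl
  have e2 : ((b.castSucc : Fin (nb + 1)) : ℕ) = (b : ℕ) := rfl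
  rw [e1, e2]
  rcases lt_trichotomy (b' : ℕ) (b : ℕ) with h | h | h
  · rw [if_pos (by omega), if_pos h, if_neg (by intro hh; rw [hh] at h; omega), mul_one]
  · have hbb : b' = b := Fin.ext h
    rw [if_pos (by omega), if_neg (by omega), if_pos hbb, one_mul]
  · rw [if_neg (by omega), if_neg (by omega), if_neg (by intro hh; rw [hh] at h; omega), mul_one]

theorem B1_t_cont {D nb : ℕ} (s : Fin nb → MvPolynomial (Fin D) ℝ) (R : ℝ) (j : Fin (nb + 1)) :
    Continuous fun z : Fin D → ℝ => B1_t s R z j := by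
  unfold B1_t
  refine Continuous.mul (by fun_prop) (continuous_finsetProd _ fun b _ => ?_)
  split
  · exact MvPolynomial.continuous_eval _
  · exact continuous_const

/-- the penalty polynomial -/
noncomputable def B1_P {D nb : ℕ} {ι : Type} [Fintype ι] (c : ι → MvPolynomial (Fin D) ℝ)
    (s : Fin nb → MvPolynomial (Fin D) ℝ) (R : ℝ) : MvPolynomial (Fin (D + (nb + 1))) ℝ :=
  ∑ j, (rename (Fin.castAdd (nb + 1)) (c j)) ^ 2 +
    ((X (Fin.natAdd D 0) - (C R - ∑ i : Fin D, X (Fin.castAdd (nb + 1) i) ^ 2)) ^ 2 +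
    ∑ b : Fin nb, (X (Fin.natAdd D b.succ) -
      X (Fin.natAdd D b.castSucc) * rename (Fin.castAdd (nb + 1)) (s b)) ^ 2)

/-- the first coordinates -/
def B1_z {D nb : ℕ} (w : Fin (D + (nb + 1)) → ℝ) : Fin D → ℝ :=
  fun i => w (Fin.castAdd (nb + 1) i)

theorem B1_z_cont {D nb : ℕ} : Continuous (B1_z : (Fin (D + (nb + 1)) → ℝ) → (Fin D → ℝ)) :=
  continuous_pi fun _ => continuous_apply _

theorem B1_P_eval {D nb : ℕ} {ι : Type} [Fintype ι] (c : ι → MvPolynomial (Fin D) ℝ)
    (s : Fin nb → MvPolynomial (Fin D) ℝ) (R : ℝ) (w : Fin (D + (nb + 1)) → ℝ) :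
    eval w (B1_P c s R) = ∑ j, (eval (B1_z w) (c j)) ^ 2 +
      ((w (Fin.natAdd D 0) - (R - ∑ i : Fin D, (B1_z w i) ^ 2)) ^ 2 +
      ∑ b : Fin nb, (w (Fin.natAdd D b.succ) -
        w (Fin.natAdd D b.castSucc) * eval (B1_z w) (s b)) ^ 2) := by
  simp only [B1_P, map_add, map_sum, map_pow, map_sub, map_mul, eval_rename, eval_X, eval_C]
  rfl

theorem B1_P_zero {D nb : ℕ} {ι : Type} [Fintype ι] (c : ι → MvPolynomial (Fin D) ℝ)
    (s : Fin nb → MvPolynomial (Fin D) ℝ) (R : ℝ) (w : Fin (D + (nb + 1)) → ℝ) :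
    eval w (B1_P c s R) = 0 ↔ (∀ j, eval (B1_z w) (c j) = 0) ∧
      ∀ j, w (Fin.natAdd D j) = B1_t s R (B1_z w) j := by
  rw [B1_P_eval]
  constructor
  · intro h
    have n1 : 0 ≤ ∑ j, (eval (B1_z w) (c j)) ^ 2 := by positivity
    have n2 : 0 ≤ (w (Fin.natAdd D 0) - (R - ∑ i : Fin D, (B1_z w i) ^ 2)) ^ 2 := by positivity
    have n3 : 0 ≤ ∑ b : Fin nb, (w (Fin.natAdd D b.succ) -
        w (Fin.natAdd D b.castSucc) * eval (B1_z w) (s b)) ^ 2 := by positivity
    have e1 : ∑ j, (eval (B1_z w) (c j)) ^ 2 = 0 := by linarith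
    have e2 : (w (Fin.natAdd D 0) - (R - ∑ i : Fin D, (B1_z w i) ^ 2)) ^ 2 = 0 := by linarith
    have e3 : ∑ b : Fin nb, (w (Fin.natAdd D b.succ) -
        w (Fin.natAdd D b.castSucc) * eval (B1_z w) (s b)) ^ 2 = 0 := by linarith
    rw [Finset.sum_eq_zero_iff_of_nonneg (fun _ _ => by positivity)] at e1 e3
    refine ⟨fun j => pow_eq_zero_iff (two_ne_zero) |>.1 (e1 j (Finset.mem_univ j)), fun j => ?_⟩
    induction j using Fin.induction with
    | zero =>
      rw [B1_t_zero]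
      have := pow_eq_zero_iff (two_ne_zero) |>.1 e2
      linarith
    | succ b ih =>
      rw [B1_t_succ, ← ih]
      have := pow_eq_zero_iff (two_ne_zero) |>.1 (e3 b (Finset.mem_univ b))
      linarith
  · rintro ⟨h1, h2⟩
    have e1 : ∑ j, (eval (B1_z w) (c j)) ^ 2 = 0 :=
      Finset.sum_eq_zero fun j _ => by rw [h1 j]; ring
    have e3 : ∑ b : Fin nb, (w (Fin.natAdd D b.succ) -
        w (Fin.natAdd D b.castSucc) * eval (B1_z w) (s b)) ^ 2 = 0 :=
      Finset.sum_eq_zero fun b _ => by rw [h2 b.succ, h2 b.castSucc, B1_t_succ]; ring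
    rw [e1, e3, h2 0, B1_t_zero]
    ring

theorem B1_P_deg {D nb : ℕ} {ι : Type} [Fintype ι] (c : ι → MvPolynomial (Fin D) ℝ)
    (s : Fin nb → MvPolynomial (Fin D) ℝ) (R : ℝ) (hc : ∀ j, (c j).totalDegree ≤ 2)
    (hs : ∀ b, (s b).totalDegree ≤ 2) : (B1_P c s R).totalDegree ≤ 6 := by
  unfold B1_P
  refine (totalDegree_add _ _).trans (max_le ?_ ((totalDegree_add _ _).trans (max_le ?_ ?_)))
  · refine totalDegree_finsetSum_le fun j _ => (totalDegree_pow _ _).trans ?_
    have := (totalDegree_rename_le (Fin.castAdd (nb + 1)) (c j)).trans (hc j)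
    omega
  · refine (totalDegree_pow _ _).trans ?_
    have h1 : (X (Fin.natAdd D 0) - (C R - ∑ i : Fin D, X (Fin.castAdd (nb + 1) i) ^ 2) :
        MvPolynomial (Fin (D + (nb + 1))) ℝ).totalDegree ≤ 2 := by
      refine (totalDegree_sub _ _).trans (max_le ?_ ((totalDegree_sub _ _).trans (max_le ?_ ?_)))
      · rw [totalDegree_X]; omega
      · rw [totalDegree_C]; omega
      · exact totalDegree_finsetSum_le fun j _ => by rw [totalDegree_X_pow]
    omega
  · refine totalDegree_finsetSum_le fun b _ => (totalDegree_pow _ _).trans ?_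
    have h1 : (X (Fin.natAdd D b.succ) - X (Fin.natAdd D b.castSucc) *
        rename (Fin.castAdd (nb + 1)) (s b) :
        MvPolynomial (Fin (D + (nb + 1))) ℝ).totalDegree ≤ 3 := by
      refine (totalDegree_sub _ _).trans (max_le ?_ ((totalDegree_mul _ _).trans ?_))
      · rw [totalDegree_X]; omega
      · rw [totalDegree_X]
        have := (totalDegree_rename_le (Fin.castAdd (nb + 1)) (s b)).trans (hs b)
        omega
    omega

theorem B1_main {D nb : ℕ} {ι ρ : Type} [Fintype ι] [Finite ρ]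
    (c : ι → MvPolynomial (Fin D) ℝ) (s : Fin nb → MvPolynomial (Fin D) ℝ)
    (hc : ∀ j, (c j).totalDegree ≤ 2) (hs : ∀ b, (s b).totalDegree ≤ 2)
    (lam : (Fin D → ℝ) → ρ)
    (hlam : ∀ z : Fin D → ℝ, (∀ j, eval z (c j) = 0) → (∀ b, 0 < eval z (s b)) →
      ∃ U ∈ 𝓝 z, ∀ z' ∈ U, (∀ j, eval z' (c j) = 0) → (∀ b, 0 < eval z' (s b)) →
        lam z' = lam z) :
    (lam '' {z | (∀ j, eval z (c j) = 0) ∧ (∀ b, 0 < eval z (s b))}).ncard ≤
      6 ^ (D + (nb + 1)) := by
  classical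
  set V := lam '' {z | (∀ j, eval z (c j) = 0) ∧ (∀ b, 0 < eval z (s b))} with hV
  have hVfin : V.Finite := Set.toFinite _
  let inst : Fintype V := hVfin.fintype
  choose zv hzA hzv using fun v : V => v.2
  obtain ⟨R, hR⟩ : ∃ R : ℝ, ∀ v : V, ∑ i, zv v i ^ 2 < R := by
    refine ⟨1 + ∑ v : V, ∑ i, zv v i ^ 2, fun v => ?_⟩
    have h1 : ∑ i, zv v i ^ 2 ≤ ∑ v : V, ∑ i, zv v i ^ 2 :=
      Finset.single_le_sum (f := fun v : V => ∑ i, zv v i ^ 2) (fun _ _ => by positivity)
        (Finset.mem_univ v)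
    linarith
  set T : (Fin (D + (nb + 1)) → ℝ) → ℝ := fun w => w (Fin.natAdd D (Fin.last nb)) with hT
  set P : (Fin (D + (nb + 1)) → ℝ) → ℝ := fun w => eval w (B1_P c s R) with hP
  set G : V → Set (Fin (D + (nb + 1)) → ℝ) := fun v => {w | P w = 0 ∧
    ∑ i, B1_z w i ^ 2 < R ∧ (∀ b, 0 < eval (B1_z w) (s b)) ∧ lam (B1_z w) = v} with hG
  have hTΓ : ∀ w, P w = 0 → T w = (R - ∑ i, B1_z w i ^ 2) * ∏ b, eval (B1_z w) (s b) := by
    intro w hw
    have := (B1_P_zero c s R w).1 hw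
    simp only [hT]
    rw [this.2, B1_t_last]
  have hsq : Continuous fun w : Fin (D + (nb + 1)) → ℝ => ∑ i, B1_z w i ^ 2 :=
    continuous_finsetSum _ fun i _ => ((continuous_apply _).comp B1_z_cont).pow 2
  have hsc : ∀ b, Continuous fun w : Fin (D + (nb + 1)) → ℝ => eval (B1_z w) (s b) := fun b =>
    (MvPolynomial.continuous_eval (s b)).comp B1_z_cont
  have hPc : Continuous P := MvPolynomial.continuous_eval _
  have hTc : Continuous T := continuous_apply _
  obtain ⟨M, U, hU1, hU2, hU3, hU4⟩ := B1_penalty T P hTc hPc (fun w => by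
      simp only [hP]; rw [B1_P_eval]; positivity) G
    (by
      intro v
      refine ⟨Fin.append (zv v) (B1_t s R (zv v)), ?_⟩
      have hz : B1_z (Fin.append (zv v) (B1_t s R (zv v))) = zv v := by
        funext i; simp [B1_z]
      refine ⟨?_, ?_, ?_, ?_⟩
      · simp only [hP]
        rw [B1_P_zero, hz]
        exact ⟨(hzA v).1, fun j => by simp⟩
      · rw [hz]; exact hR v
      · rw [hz]; exact (hzA v).2
      · rw [hz]; exact hzv v)
    (by
      intro v
      have hcomp : IsCompact ((fun z : Fin D → ℝ =>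
          (Fin.append z (B1_t s R z) : Fin (D + (nb + 1)) → ℝ)) ''
            {z | ∑ i, z i ^ 2 ≤ R}) := by
        refine IsCompact.image ?_ ?_
        · refine Metric.isCompact_of_isClosed_isBounded (isClosed_le (by fun_prop)
            continuous_const) ?_
          refine (Metric.isBounded_closedBall (x := (0 : Fin D → ℝ)) (r := 1 + |R|)).subset ?_
          intro z hz
          rw [Metric.mem_closedBall, dist_zero_right, pi_norm_le_iff_of_nonneg (by positivity)]
          intro j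
          have h1 : z j ^ 2 ≤ ∑ j, z j ^ 2 :=
            Finset.single_le_sum (f := fun j => z j ^ 2) (fun _ _ => by positivity)
              (Finset.mem_univ j)
          have h2 : z j ^ 2 ≤ R := h1.trans hz
          have h3 : R ≤ |R| := le_abs_self R
          have h4 : 0 ≤ |R| := abs_nonneg R
          rw [Real.norm_eq_abs]
          refine abs_le_of_sq_le_sq ?_ (by linarith)
          nlinarith
        · refine continuous_pi fun i => ?_
          refine Fin.addCases (fun j => ?_) (fun j => ?_) i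
          · simp only [Fin.append_left]; exact continuous_apply j
          · simp only [Fin.append_right]; exact B1_t_cont s R j
      refine hcomp.isBounded.subset ?_
      rintro w ⟨hw1, hw2, -, -⟩
      refine ⟨B1_z w, le_of_lt hw2, ?_⟩
      have := ((B1_P_zero c s R w).1 hw1).2
      funext i
      refine Fin.addCases (fun j => ?_) (fun j => ?_) i
      · simp [B1_z]
      · beta_reduce
        rw [Fin.append_right, this j])
    (fun v w hw => hw.1)
    (by
      intro u v huv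
      rw [Set.disjoint_left]
      intro w hw hw'
      exact huv (Subtype.ext (hw.2.2.2.symm.trans hw'.2.2.2)))
    (by
      intro v w hw
      rw [hTΓ w hw.1]
      refine mul_pos (by have := hw.2.1; linarith) (Finset.prod_pos fun b _ => hw.2.2.1 b))
    (by
      intro v w hw hTw
      have hPw : P w = 0 := by
        have : closure (G v) ⊆ {w | P w = 0} :=
          closure_minimal (fun x hx => hx.1) (isClosed_eq hPc continuous_const)
        exact this hw
      have hRw : ∑ i, B1_z w i ^ 2 ≤ R := by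
        have : closure (G v) ⊆ {w | ∑ i, B1_z w i ^ 2 ≤ R} :=
          closure_minimal (fun x hx => le_of_lt hx.2.1) (isClosed_le hsq continuous_const)
        exact this hw
      have hsw : ∀ b, 0 ≤ eval (B1_z w) (s b) := by
        intro b
        have : closure (G v) ⊆ {w | 0 ≤ eval (B1_z w) (s b)} :=
          closure_minimal (fun x hx => le_of_lt (hx.2.2.1 b))
            (isClosed_le continuous_const (hsc b))
        exact this hw
      rw [hTΓ w hPw] at hTw
      have h1 : R - ∑ i, B1_z w i ^ 2 ≠ 0 := left_ne_zero_of_mul hTw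
      have h2 : ∀ b, eval (B1_z w) (s b) ≠ 0 := by
        intro b
        exact Finset.prod_ne_zero_iff.1 (right_ne_zero_of_mul hTw) b (Finset.mem_univ b)
      have h3 : ∑ i, B1_z w i ^ 2 < R := lt_of_le_of_ne hRw fun h => h1 (by rw [h]; ring)
      have h4 : ∀ b, 0 < eval (B1_z w) (s b) := fun b => lt_of_le_of_ne (hsw b) (h2 b).symm
      refine ⟨hPw, h3, h4, ?_⟩
      obtain ⟨U, hU, hU'⟩ := hlam (B1_z w) ((B1_P_zero c s R w).1 hPw).1 h4
      have h5 : B1_z ⁻¹' U ∈ 𝓝 w := B1_z_cont.continuousAt.preimage_mem_nhds hU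
      obtain ⟨w', hw'U, hw'G⟩ := mem_closure_iff_nhds.1 hw _ h5
      have h6 := hU' (B1_z w') hw'U ((B1_P_zero c s R w').1 hw'G.1).1 hw'G.2.2.1
      rw [← h6]
      exact hw'G.2.2.2)
    (by
      intro v w hw
      obtain ⟨U, hU, hU'⟩ := hlam (B1_z w) ((B1_P_zero c s R w).1 hw.1).1 hw.2.2.1
      have h5 : B1_z ⁻¹' U ∈ 𝓝 w := B1_z_cont.continuousAt.preimage_mem_nhds hU
      have h6 : {w' | ∑ i, B1_z w' i ^ 2 < R} ∈ 𝓝 w :=
        (isOpen_lt hsq continuous_const).mem_nhds hw.2.1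
      have h7 : (⋂ b, {w' | 0 < eval (B1_z w') (s b)}) ∈ 𝓝 w := by
        refine (isOpen_iInter_of_finite fun b => isOpen_lt continuous_const (hsc b)).mem_nhds ?_
        rw [Set.mem_iInter]
        exact fun b => hw.2.2.1 b
      refine ⟨_, inter_mem h5 (inter_mem h6 h7), ?_⟩
      rintro w' ⟨h8, h9, h10⟩ hPw'
      rw [Set.mem_iInter] at h10
      refine ⟨hPw', h9, fun b => h10 b, ?_⟩
      rw [hU' (B1_z w') h8 ((B1_P_zero c s R w').1 hPw').1 (fun b => h10 b)]
      exact hw.2.2.2)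
  have hdeg : (X (Fin.natAdd D (Fin.last nb)) - C M * B1_P c s R :
      MvPolynomial (Fin (D + (nb + 1))) ℝ).totalDegree ≤ 5 + 1 := by
    refine (totalDegree_sub _ _).trans (max_le ?_ ((totalDegree_mul _ _).trans ?_))
    · rw [totalDegree_X]; omega
    · rw [totalDegree_C]
      have := B1_P_deg c s R hc hs
      omega
  have hcard : V.ncard = Fintype.card V := by
    rw [← Nat.card_coe_set_eq, Nat.card_eq_fintype_card]
  rw [hcard]
  refine peaks_card_le (D := D + (nb + 1)) (d := 5) _ hdeg (ι := V) U hU1 hU2 hU3 fun v => ?_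
  obtain ⟨x, hx, hx'⟩ := hU4 v
  refine ⟨x, hx, fun y hy => ?_⟩
  have := hx' y hy
  simp only [map_sub, map_mul, eval_X, eval_C]
  exact this

theorem comp_bound {D : ℕ} {ι β ρ : Type} [Fintype ι] [Fintype β] [Finite ρ]
    (c : ι → MvPolynomial (Fin D) ℝ) (s : β → MvPolynomial (Fin D) ℝ)
    (hc : ∀ j, (c j).totalDegree ≤ 2) (hs : ∀ b, (s b).totalDegree ≤ 2)
    (lam : (Fin D → ℝ) → ρ)
    (hlam : ∀ z : Fin D → ℝ, (∀ j, eval z (c j) = 0) → (∀ b, 0 < eval z (s b)) →
      ∃ U ∈ 𝓝 z, ∀ z' ∈ U, (∀ j, eval z' (c j) = 0) → (∀ b, 0 < eval z' (s b)) →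
        lam z' = lam z) :
    (lam '' {z | (∀ j, eval z (c j) = 0) ∧ (∀ b, 0 < eval z (s b))}).ncard ≤
      6 ^ (D + Fintype.card β + 1) := by
  classical
  have e := Fintype.equivFin β
  have hiff : ∀ z : Fin D → ℝ, (∀ b : Fin (Fintype.card β), 0 < eval z (s (e.symm b))) ↔
      ∀ b, 0 < eval z (s b) := by
    intro z
    constructor
    · intro h b
      have := h (e b)
      rwa [e.symm_apply_apply] at this
    · exact fun h b => h _
  have h := B1_main c (fun b : Fin (Fintype.card β) => s (e.symm b)) hc (fun b => hs _) lam (by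
    intro z h1 h2
    rw [hiff] at h2
    obtain ⟨U, hU, hU'⟩ := hlam z h1 h2
    exact ⟨U, hU, fun z' hz' h3 h4 => hU' z' hz' h3 ((hiff z').1 h4)⟩)
  simp only [hiff] at h
  exact h

end BU
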