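import Pool.Agent.Work.MP_4030f5_lc.BDefs

/-! # B2: paths of a computation tree as basic sets given by polynomials of degree `≤ 2` -/

namespace BU

open MvPolynomial

/-- polynomials in the inputs and the intermediate results -/
abbrev B2_Q (n h : ℕ) : Type := MvPolynomial (Fin (n + h)) ℝ

/-- equations and strict inequalities -/
abbrev B2_L (n h : ℕ) : Type := List (B2_Q n h) × List (B2_Q n h)

/-- the variable of step `k` -/
noncomputable def B2_y (n h k : ℕ) : B2_Q n h :=
  if hk : k < h then X (Fin.natAdd n ⟨k, hk⟩) else 0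

/-- content of a register -/
noncomputable def B2_reg {n h : ℕ} (S : ℕ → B2_Q n h) : Fin n ⊕ ℕ → B2_Q n h
  | .inl i => X (Fin.castAdd h i)
  | .inr r => S r

/-- the systems which express `y = a ∘ b` -/
noncomputable def B2_alt {n h : ℕ} (o : Op) (y a b : B2_Q n h) : List (B2_L n h) :=
  match o with
  | .add => [([y - (a + b)], [])]
  | .sub => [([y - (a - b)], [])]
  | .mul => [([y - a * b], [])]
  | .div => [([y * b - a], [b ^ 2]), ([b, y], [])]

/-- add a system to a path -/
def B2_ext {n h : ℕ} {β : Type} (l : B2_L n h) (p : β × B2_L n h) : β × B2_L n h :=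
  (p.1, l.1 ++ p.2.1, l.2 ++ p.2.2)

/-- the path types of a tree -/
noncomputable def B2_paths {n h : ℕ} {β : Type} : RACT (Fin n) β → (ℕ → B2_Q n h) → ℕ →
    List (β × B2_L n h)
  | .leaf b, _, _ => [(b, [], [])]
  | .const r c T, S, k => B2_paths T (Function.update S r (C c)) k
  | .op o r i j T, S, k =>
      (B2_alt o (B2_y n h k) (B2_reg S i) (B2_reg S j)).flatMap fun l =>
        (B2_paths T (Function.update S r (B2_y n h k)) (k + 1)).map (B2_ext l)
  | .branch i T₁ T₂ T₃, S, k =>
      (B2_paths T₁ S k).map (B2_ext ([], [-(B2_reg S i)])) ++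
      ((B2_paths T₂ S k).map (B2_ext ([B2_reg S i], [])) ++
        (B2_paths T₃ S k).map (B2_ext ([], [B2_reg S i])))

/-- a point satisfies a system -/
def B2_Sat {n h : ℕ} (w : Fin (n + h) → ℝ) (l : B2_L n h) : Prop :=
  (∀ q ∈ l.1, eval w q = 0) ∧ (∀ q ∈ l.2, 0 < eval w q)

theorem B2_Sat_ext {n h : ℕ} {β : Type} (w : Fin (n + h) → ℝ) (l : B2_L n h)
    (p : β × B2_L n h) : B2_Sat w (B2_ext l p).2 ↔ B2_Sat w l ∧ B2_Sat w p.2 := by
  simp only [B2_Sat, B2_ext, List.mem_append]
  constructor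
  · rintro ⟨h1, h2⟩
    exact ⟨⟨fun q hq => h1 q (Or.inl hq), fun q hq => h2 q (Or.inl hq)⟩,
      fun q hq => h1 q (Or.inr hq), fun q hq => h2 q (Or.inr hq)⟩
  · rintro ⟨⟨h1, h2⟩, h3, h4⟩
    exact ⟨fun q hq => hq.elim (h1 q) (h3 q), fun q hq => hq.elim (h2 q) (h4 q)⟩

theorem B2_alt_iff {n h : ℕ} (w : Fin (n + h) → ℝ) (o : Op) (y a b : B2_Q n h) :
    (∃ l ∈ B2_alt o y a b, B2_Sat w l) ↔ eval w y = o.val (eval w a) (eval w b) := by
  cases o with
  | add =>
    simp only [B2_alt, B2_Sat, Op.val, List.mem_singleton, exists_eq_left, forall_eq, map_sub,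
      map_add, List.not_mem_nil, false_implies, implies_true, and_true]
    exact sub_eq_zero
  | sub =>
    simp only [B2_alt, B2_Sat, Op.val, List.mem_singleton, exists_eq_left, forall_eq, map_sub,
      List.not_mem_nil, false_implies, implies_true, and_true]
    exact sub_eq_zero
  | mul =>
    simp only [B2_alt, B2_Sat, Op.val, List.mem_singleton, exists_eq_left, forall_eq, map_sub,
      map_mul, List.not_mem_nil, false_implies, implies_true, and_true]
    exact sub_eq_zero
  | div =>
    simp only [B2_alt, B2_Sat, Op.val, List.mem_cons, List.not_mem_nil, or_false,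
      exists_eq_or_imp, exists_eq_left, forall_eq, forall_eq_or_imp, map_sub,
      map_mul, map_pow, false_implies, implies_true, and_true]
    constructor
    · rintro (⟨h1, h2⟩ | ⟨h1, h2⟩)
      · have hb : eval w b ≠ 0 := by
          intro h0; rw [h0] at h2; norm_num at h2
        rw [eq_div_iff hb]
        exact sub_eq_zero.1 h1
      · rw [h1, h2, div_zero]
    · intro h1
      by_cases hb : eval w b = 0
      · right
        rw [hb, div_zero] at h1
        exact ⟨hb, h1⟩
      · left
        rw [eq_div_iff hb] at h1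
        exact ⟨sub_eq_zero.2 h1, by positivity⟩

theorem B2_upd {n h : ℕ} (w : Fin (n + h) → ℝ) (S : ℕ → B2_Q n h) (r : ℕ) (q : B2_Q n h) :
    (fun m => eval w (Function.update S r q m)) =
      Function.update (fun m => eval w (S m)) r (eval w q) := by
  funext m
  by_cases hm : m = r
  · subst hm; simp
  · rw [Function.update_of_ne hm, Function.update_of_ne hm]

theorem B2_reg_eval {n h : ℕ} (w : Fin (n + h) → ℝ) (S : ℕ → B2_Q n h) (i : Fin n ⊕ ℕ) :
    eval w (B2_reg S i) = Sum.elim (fun i => w (Fin.castAdd h i)) (fun m => eval w (S m)) i := by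
  rcases i with i | r
  · simp [B2_reg]
  · simp [B2_reg]

/-- soundness -/
theorem B2_sound {n h : ℕ} {β : Type} (T : RACT (Fin n) β) (w : Fin (n + h) → ℝ) :
    ∀ (S : ℕ → B2_Q n h) (k : ℕ), k + T.depth ≤ h → ∀ p ∈ B2_paths T S k, B2_Sat w p.2 →
      T.run (fun i => w (Fin.castAdd h i)) (fun m => eval w (S m)) = p.1 := by
  induction T with
  | leaf b =>
    intro S k _ p hp _
    simp only [B2_paths, List.mem_singleton] at hp
    rw [hp]
    rfl
  | const r c T ih =>
    intro S k hk p hp hs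
    simp only [RACT.depth] at hk
    have h1 := ih _ k (by omega) p hp hs
    rw [B2_upd] at h1
    simp only [RACT.run]
    rw [← h1, eval_C]
  | op o r i j T ih =>
    intro S k hk p hp hs
    simp only [RACT.depth] at hk
    simp only [B2_paths, List.mem_flatMap, List.mem_map] at hp
    obtain ⟨l, hl, p', hp', rfl⟩ := hp
    rw [B2_Sat_ext] at hs
    have h1 := ih _ (k + 1) (by omega) p' hp' hs.2
    rw [B2_upd] at h1
    have h2 := (B2_alt_iff w o _ _ _).1 ⟨l, hl, hs.1⟩
    rw [B2_reg_eval, B2_reg_eval] at h2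
    simp only [RACT.run]
    rw [← h2, h1]
    rfl
  | branch i T₁ T₂ T₃ ih1 ih2 ih3 =>
    intro S k hk p hp hs
    simp only [RACT.depth] at hk
    simp only [B2_paths, List.mem_append, List.mem_map] at hp
    simp only [RACT.run]
    rcases hp with ⟨p', hp', rfl⟩ | ⟨p', hp', rfl⟩ | ⟨p', hp', rfl⟩
    · rw [B2_Sat_ext] at hs
      have h1 := hs.1.2 _ (List.mem_singleton_self _)
      rw [map_neg, B2_reg_eval] at h1
      rw [if_pos (by linarith)]
      exact ih1 S k (by omega) p' hp' hs.2
    · rw [B2_Sat_ext] at hs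
      have h1 := hs.1.1 _ (List.mem_singleton_self _)
      rw [B2_reg_eval] at h1
      rw [if_neg (by linarith), if_pos h1]
      exact ih2 S k (by omega) p' hp' hs.2
    · rw [B2_Sat_ext] at hs
      have h1 := hs.1.2 _ (List.mem_singleton_self _)
      rw [B2_reg_eval] at h1
      rw [if_neg (by linarith), if_neg (by linarith)]
      exact ih3 S k (by omega) p' hp' hs.2

/-- the points agree at the inputs and at the steps before `k` -/
def B2_agree {n h : ℕ} (k : ℕ) (w w' : Fin (n + h) → ℝ) : Prop :=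
  (∀ i, w (Fin.castAdd h i) = w' (Fin.castAdd h i)) ∧
    ∀ j : Fin h, (j : ℕ) < k → w (Fin.natAdd n j) = w' (Fin.natAdd n j)

/-- the polynomial uses only the variables before step `k` -/
def B2_dep {n h : ℕ} (k : ℕ) (q : B2_Q n h) : Prop :=
  ∀ w w' : Fin (n + h) → ℝ, B2_agree k w w' → eval w q = eval w' q

theorem B2_dep_mono {n h : ℕ} {k k' : ℕ} (hk : k ≤ k') {q : B2_Q n h} (hq : B2_dep k q) :
    B2_dep k' q :=
  fun w w' hw => hq w w' ⟨hw.1, fun j hj => hw.2 j (by omega)⟩

theorem B2_dep_y {n h k : ℕ} : B2_dep (k + 1) (B2_y n h k) := by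
  intro w w' hw
  unfold B2_y
  split
  · rename_i hk
    rw [eval_X, eval_X]
    exact hw.2 ⟨k, hk⟩ (Nat.lt_succ_self k)
  · simp

theorem B2_dep_reg {n h k : ℕ} {S : ℕ → B2_Q n h} (hS : ∀ m, B2_dep k (S m)) (i : Fin n ⊕ ℕ) :
    B2_dep k (B2_reg S i) := by
  rcases i with i | r
  · intro w w' hw
    simp only [B2_reg, eval_X]
    exact hw.1 i
  · exact hS r

/-- coverage -/
theorem B2_cover {n h : ℕ} {β : Type} (T : RACT (Fin n) β) :
    ∀ (S : ℕ → B2_Q n h) (k : ℕ), k + T.depth ≤ h → (∀ m, B2_dep k (S m)) →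
      ∀ w : Fin (n + h) → ℝ, ∃ w' : Fin (n + h) → ℝ, B2_agree k w' w ∧
        ∃ p ∈ B2_paths T S k, B2_Sat w' p.2 := by
  induction T with
  | leaf b =>
    intro S k _ _ w
    exact ⟨w, ⟨fun _ => rfl, fun _ _ => rfl⟩, (b, [], []), by simp [B2_paths], by
      simp [B2_Sat]⟩
  | const r c T ih =>
    intro S k hk hS w
    simp only [RACT.depth] at hk
    refine ih _ k (by omega) (fun m => ?_) w
    by_cases hm : m = r
    · subst hm
      rw [Function.update_self]
      intro w w' _
      rw [eval_C, eval_C]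
    · rw [Function.update_of_ne hm]
      exact hS m
  | op o r i j T ih =>
    intro S k hk hS w
    simp only [RACT.depth] at hk
    have hkh : k < h := by omega
    obtain ⟨w', hw', p, hp, hps⟩ := ih (Function.update S r (B2_y n h k)) (k + 1) (by omega)
      (fun m => by
        by_cases hm : m = r
        · subst hm
          rw [Function.update_self]
          exact B2_dep_y
        · rw [Function.update_of_ne hm]
          exact B2_dep_mono (Nat.le_succ k) (hS m))
      (Function.update w (Fin.natAdd n ⟨k, hkh⟩)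
        (o.val (eval w (B2_reg S i)) (eval w (B2_reg S j))))
    have hag : B2_agree k w' w := by
      refine ⟨fun a => ?_, fun a ha => ?_⟩
      · rw [hw'.1 a, Function.update_of_ne]
        intro hh
        have := congrArg Fin.val hh
        simp only [Fin.val_castAdd, Fin.val_natAdd] at this
        have := a.2
        omega
      · rw [hw'.2 a (by omega), Function.update_of_ne]
        intro hh
        have := congrArg Fin.val hh
        simp only [Fin.val_natAdd] at this
        omega
    have hy : eval w' (B2_y n h k) = o.val (eval w' (B2_reg S i)) (eval w' (B2_reg S j)) := by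
      rw [B2_dep_reg hS i w' w hag, B2_dep_reg hS j w' w hag]
      unfold B2_y
      rw [dif_pos hkh, eval_X, hw'.2 ⟨k, hkh⟩ (Nat.lt_succ_self k), Function.update_self]
    obtain ⟨l, hl, hls⟩ := (B2_alt_iff w' o _ _ _).2 hy
    refine ⟨w', hag, B2_ext l p, ?_, ?_⟩
    · simp only [B2_paths, List.mem_flatMap, List.mem_map]
      exact ⟨l, hl, p, hp, rfl⟩
    · rw [B2_Sat_ext]
      exact ⟨hls, hps⟩
  | branch i T₁ T₂ T₃ ih1 ih2 ih3 =>
    intro S k hk hS w
    simp only [RACT.depth] at hk
    have hreg := B2_dep_reg hS i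
    rcases lt_trichotomy (eval w (B2_reg S i)) 0 with h1 | h1 | h1
    · obtain ⟨w', hw', p, hp, hps⟩ := ih1 S k (by omega) hS w
      refine ⟨w', hw', B2_ext ([], [-(B2_reg S i)]) p, ?_, ?_⟩
      · simp only [B2_paths, List.mem_append, List.mem_map]
        exact Or.inl ⟨p, hp, rfl⟩
      · rw [B2_Sat_ext]
        refine ⟨⟨by simp, fun q hq => ?_⟩, hps⟩
        rw [List.mem_singleton.1 hq, map_neg, hreg w' w hw']
        linarith
    · obtain ⟨w', hw', p, hp, hps⟩ := ih2 S k (by omega) hS w
      refine ⟨w', hw', B2_ext ([B2_reg S i], []) p, ?_, ?_⟩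
      · simp only [B2_paths, List.mem_append, List.mem_map]
        exact Or.inr (Or.inl ⟨p, hp, rfl⟩)
      · rw [B2_Sat_ext]
        refine ⟨⟨fun q hq => ?_, by simp⟩, hps⟩
        rw [List.mem_singleton.1 hq, hreg w' w hw', h1]
    · obtain ⟨w', hw', p, hp, hps⟩ := ih3 S k (by omega) hS w
      refine ⟨w', hw', B2_ext ([], [B2_reg S i]) p, ?_, ?_⟩
      · simp only [B2_paths, List.mem_append, List.mem_map]
        exact Or.inr (Or.inr ⟨p, hp, rfl⟩)
      · rw [B2_Sat_ext]
        refine ⟨⟨by simp, fun q hq => ?_⟩, hps⟩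
        rw [List.mem_singleton.1 hq, hreg w' w hw']
        exact h1

theorem B2_y_deg {n h k : ℕ} : (B2_y n h k).totalDegree ≤ 1 := by
  unfold B2_y
  split
  · rw [totalDegree_X]
  · rw [totalDegree_zero]; omega

theorem B2_reg_deg {n h : ℕ} {S : ℕ → B2_Q n h} (hS : ∀ m, (S m).totalDegree ≤ 1)
    (i : Fin n ⊕ ℕ) : (B2_reg S i).totalDegree ≤ 1 := by
  rcases i with i | r
  · simp only [B2_reg]; rw [totalDegree_X]
  · exact hS r

theorem B2_alt_deg {n h : ℕ} (o : Op) {y a b : B2_Q n h} (hy : y.totalDegree ≤ 1)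
    (ha : a.totalDegree ≤ 1) (hb : b.totalDegree ≤ 1) :
    ∀ l ∈ B2_alt o y a b, (∀ q ∈ l.1, q.totalDegree ≤ 2) ∧ (∀ q ∈ l.2, q.totalDegree ≤ 2) ∧
      l.1.length ≤ 2 ∧ l.2.length ≤ 2 := by
  have hmul : ∀ u v : B2_Q n h, u.totalDegree ≤ 1 → v.totalDegree ≤ 1 →
      (u * v).totalDegree ≤ 2 := fun u v hu hv => (totalDegree_mul _ _).trans (by omega)
  have hsub : ∀ u v : B2_Q n h, u.totalDegree ≤ 2 → v.totalDegree ≤ 2 →
      (u - v).totalDegree ≤ 2 := fun u v hu hv => (totalDegree_sub _ _).trans (max_le hu hv)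
  have hadd : ∀ u v : B2_Q n h, u.totalDegree ≤ 2 → v.totalDegree ≤ 2 →
      (u + v).totalDegree ≤ 2 := fun u v hu hv => (totalDegree_add _ _).trans (max_le hu hv)
  have hy2 : y.totalDegree ≤ 2 := by omega
  have ha2 : a.totalDegree ≤ 2 := by omega
  have hb2 : b.totalDegree ≤ 2 := by omega
  intro l hl
  cases o with
  | add =>
    simp only [B2_alt, List.mem_singleton] at hl
    subst hl
    refine ⟨?_, by simp, by simp, by simp⟩
    simp only [List.mem_singleton, forall_eq]
    exact hsub _ _ hy2 (hadd _ _ ha2 hb2)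
  | sub =>
    simp only [B2_alt, List.mem_singleton] at hl
    subst hl
    refine ⟨?_, by simp, by simp, by simp⟩
    simp only [List.mem_singleton, forall_eq]
    exact hsub _ _ hy2 (hsub _ _ ha2 hb2)
  | mul =>
    simp only [B2_alt, List.mem_singleton] at hl
    subst hl
    refine ⟨?_, by simp, by simp, by simp⟩
    simp only [List.mem_singleton, forall_eq]
    exact hsub _ _ hy2 (hmul _ _ ha hb)
  | div =>
    simp only [B2_alt, List.mem_cons, List.not_mem_nil, or_false] at hl
    rcases hl with rfl | rfl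
    · refine ⟨?_, ?_, by simp, by simp⟩
      · simp only [List.mem_singleton, forall_eq]
        exact hsub _ _ (hmul _ _ hy hb) ha2
      · simp only [List.mem_singleton, forall_eq]
        exact (totalDegree_pow _ _).trans (by omega)
    · refine ⟨?_, by simp, by simp, by simp⟩
      simp only [List.mem_cons, List.not_mem_nil, or_false, forall_eq_or_imp, forall_eq]
      exact ⟨hb2, hy2⟩

theorem B2_paths_deg {n h : ℕ} {β : Type} (T : RACT (Fin n) β) :
    ∀ (S : ℕ → B2_Q n h) (k : ℕ), (∀ m, (S m).totalDegree ≤ 1) → ∀ p ∈ B2_paths T S k,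
      (∀ q ∈ p.2.1, q.totalDegree ≤ 2) ∧ (∀ q ∈ p.2.2, q.totalDegree ≤ 2) ∧
        p.2.1.length ≤ 2 * T.depth ∧ p.2.2.length ≤ 2 * T.depth := by
  have hext : ∀ (l : B2_L n h) (p : β × B2_L n h) (d : ℕ),
      ((∀ q ∈ l.1, q.totalDegree ≤ 2) ∧ (∀ q ∈ l.2, q.totalDegree ≤ 2) ∧
        l.1.length ≤ 2 ∧ l.2.length ≤ 2) →
      ((∀ q ∈ p.2.1, q.totalDegree ≤ 2) ∧ (∀ q ∈ p.2.2, q.totalDegree ≤ 2) ∧
        p.2.1.length ≤ 2 * d ∧ p.2.2.length ≤ 2 * d) →
      ((∀ q ∈ (B2_ext l p).2.1, q.totalDegree ≤ 2) ∧ (∀ q ∈ (B2_ext l p).2.2, q.totalDegree ≤ 2) ∧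
        (B2_ext l p).2.1.length ≤ 2 * (d + 1) ∧ (B2_ext l p).2.2.length ≤ 2 * (d + 1)) := by
    intro l p d hl hp
    simp only [B2_ext, List.mem_append, List.length_append]
    refine ⟨fun q hq => hq.elim (hl.1 q) (hp.1 q), fun q hq => hq.elim (hl.2.1 q) (hp.2.1 q),
      ?_, ?_⟩
    · have := hl.2.2.1
      have := hp.2.2.1
      omega
    · have := hl.2.2.2
      have := hp.2.2.2
      omega
  have hmono : ∀ (p : β × B2_L n h) (d d' : ℕ), d ≤ d' →
      ((∀ q ∈ p.2.1, q.totalDegree ≤ 2) ∧ (∀ q ∈ p.2.2, q.totalDegree ≤ 2) ∧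
        p.2.1.length ≤ 2 * d ∧ p.2.2.length ≤ 2 * d) →
      ((∀ q ∈ p.2.1, q.totalDegree ≤ 2) ∧ (∀ q ∈ p.2.2, q.totalDegree ≤ 2) ∧
        p.2.1.length ≤ 2 * d' ∧ p.2.2.length ≤ 2 * d') := by
    intro p d d' hd hp
    exact ⟨hp.1, hp.2.1, hp.2.2.1.trans (by omega), hp.2.2.2.trans (by omega)⟩
  induction T with
  | leaf b =>
    intro S k _ p hp
    simp only [B2_paths, List.mem_singleton] at hp
    subst hp
    simp
  | const r c T ih =>
    intro S k hS p hp
    refine hmono p T.depth _ (by simp [RACT.depth]) (ih _ k (fun m => ?_) p hp)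
    by_cases hm : m = r
    · subst hm
      rw [Function.update_self, totalDegree_C]
      omega
    · rw [Function.update_of_ne hm]
      exact hS m
  | op o r i j T ih =>
    intro S k hS p hp
    simp only [B2_paths, List.mem_flatMap, List.mem_map] at hp
    obtain ⟨l, hl, p', hp', rfl⟩ := hp
    refine hext l p' T.depth (B2_alt_deg o B2_y_deg (B2_reg_deg hS i) (B2_reg_deg hS j) l hl)
      (ih _ (k + 1) (fun m => ?_) p' hp')
    by_cases hm : m = r
    · subst hm
      rw [Function.update_self]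
      exact B2_y_deg
    · rw [Function.update_of_ne hm]
      exact hS m
  | branch i T₁ T₂ T₃ ih1 ih2 ih3 =>
    intro S k hS p hp
    have hr : (B2_reg S i).totalDegree ≤ 2 := (B2_reg_deg hS i).trans (by omega)
    have hr' : (-(B2_reg S i)).totalDegree ≤ 2 := by rw [totalDegree_neg]; exact hr
    simp only [B2_paths, List.mem_append, List.mem_map] at hp
    simp only [RACT.depth]
    rcases hp with ⟨p', hp', rfl⟩ | ⟨p', hp', rfl⟩ | ⟨p', hp', rfl⟩
    · exact hext _ p' _ ⟨by simp, by simpa using hr', by simp, by simp⟩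
        (hmono p' T₁.depth _ (by omega) (ih1 S k hS p' hp'))
    · exact hext _ p' _ ⟨by simpa using hr, by simp, by simp, by simp⟩
        (hmono p' T₂.depth _ (by omega) (ih2 S k hS p' hp'))
    · exact hext _ p' _ ⟨by simp, by simpa using hr, by simp, by simp⟩
        (hmono p' T₃.depth _ (by omega) (ih3 S k hS p' hp'))

theorem B2_alt_len {n h : ℕ} (o : Op) (y a b : B2_Q n h) : (B2_alt o y a b).length ≤ 3 := by
  cases o <;> simp [B2_alt]

theorem B2_paths_len {n h : ℕ} {β : Type} (T : RACT (Fin n) β) :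
    ∀ (S : ℕ → B2_Q n h) (k : ℕ), (B2_paths T S k).length ≤ 3 ^ T.depth := by
  induction T with
  | leaf b => intro S k; simp [B2_paths, RACT.depth]
  | const r c T ih =>
    intro S k
    refine (ih _ k).trans ?_
    simp only [RACT.depth]
    exact Nat.pow_le_pow_right (by norm_num) (Nat.le_succ _)
  | op o r i j T ih =>
    intro S k
    simp only [B2_paths, RACT.depth, List.length_flatMap, List.length_map, List.map_const',
      List.sum_replicate, smul_eq_mul]
    calc _ ≤ 3 * 3 ^ T.depth := Nat.mul_le_mul (B2_alt_len _ _ _ _) (ih _ _)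
      _ = 3 ^ (T.depth + 1) := by rw [pow_succ, mul_comm]
  | branch i T₁ T₂ T₃ ih1 ih2 ih3 =>
    intro S k
    simp only [B2_paths, RACT.depth, List.length_append, List.length_map]
    have hp : ∀ d, d ≤ max T₁.depth (max T₂.depth T₃.depth) →
        3 ^ d ≤ 3 ^ (max T₁.depth (max T₂.depth T₃.depth)) :=
      fun d hd => Nat.pow_le_pow_right (by norm_num) hd
    have h1 := (ih1 S k).trans (hp _ (by omega))
    have h2 := (ih2 S k).trans (hp _ (by omega))
    have h3 := (ih3 S k).trans (hp _ (by omega))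
    rw [pow_succ]
    omega

theorem B2_getD {Q : Type} {d q0 : Q} (P : Q → Prop) (h0 : P d) (l : List Q) (N : ℕ)
    (hl : l.length ≤ N) : (∀ j : Fin N, P (l.getD j d)) ↔ ∀ q ∈ l, P q := by
  constructor
  · intro h q hq
    obtain ⟨i, hi⟩ := List.get_of_mem hq
    have h1 := h ⟨i, lt_of_lt_of_le i.2 hl⟩
    rw [List.getD_eq_getElem _ _ i.2] at h1
    rw [← hi]
    exact h1
  · intro h j
    by_cases hj : (j : ℕ) < l.length
    · rw [List.getD_eq_getElem _ _ hj]
      exact h _ (List.getElem_mem hj)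
    · rw [List.getD_eq_default _ _ (not_lt.1 hj)]
      exact h0

/-- Every tree of depth at most `h` with `n` inputs has at most `3^h` path types `p`; to each
there are families of polynomials `c p`, `s p` of degree at most two in `n + h` variables (inputs
and intermediate results; number of inequalities `= 2 h`) and an output `o p`, such that every
input can be extended to a point of one of the basic sets, and at all points of the basic set of
`p` the tree outputs `o p`. -/
theorem tree_paths {n h : ℕ} {β : Type} (T : RACT (Fin n) β) (hT : T.depth ≤ h) :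
    ∃ (m : ℕ) (_ : m ≤ 3 ^ h) (o : Fin m → β)
      (c : Fin m → Fin (2 * h) → MvPolynomial (Fin (n + h)) ℝ)
      (s : Fin m → Fin (2 * h) → MvPolynomial (Fin (n + h)) ℝ),
      (∀ p j, (c p j).totalDegree ≤ 2) ∧ (∀ p b, (s p b).totalDegree ≤ 2) ∧
      (∀ x : Fin n → ℝ, ∃ (p : Fin m) (y : Fin h → ℝ),
        (∀ j, eval (Fin.append x y) (c p j) = 0) ∧ (∀ b, 0 < eval (Fin.append x y) (s p b))) ∧
      (∀ (p : Fin m) (x : Fin n → ℝ) (y : Fin h → ℝ),
        (∀ j, eval (Fin.append x y) (c p j) = 0) → (∀ b, 0 < eval (Fin.append x y) (s p b)) →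
        T.run x (fun _ => 0) = o p) := by
  set S : ℕ → B2_Q n h := fun _ => C 0 with hS
  set L := B2_paths T S 0 with hL
  have hSd : ∀ m, (S m).totalDegree ≤ 1 := fun m => by
    simp only [hS]; rw [totalDegree_C]; omega
  have hdeg := B2_paths_deg T S 0 hSd
  have hmem : ∀ p : Fin L.length, L.get p ∈ L := fun p => List.get_mem L p
  have hl1 : ∀ p : Fin L.length, (L.get p).2.1.length ≤ 2 * h := fun p =>
    ((hdeg _ (hmem p)).2.2.1).trans (by omega)
  have hl2 : ∀ p : Fin L.length, (L.get p).2.2.length ≤ 2 * h := fun p =>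
    ((hdeg _ (hmem p)).2.2.2).trans (by omega)
  have hsat : ∀ (p : Fin L.length) (w : Fin (n + h) → ℝ),
      ((∀ j : Fin (2 * h), eval w ((L.get p).2.1.getD j 0) = 0) ∧
        ∀ j : Fin (2 * h), 0 < eval w ((L.get p).2.2.getD j 1)) ↔ B2_Sat w (L.get p).2 := by
    intro p w
    rw [B2_getD (q0 := 0) (fun q => eval w q = 0) (by simp) _ _ (hl1 p),
      B2_getD (q0 := 0) (fun q => 0 < eval w q) (by simp) _ _ (hl2 p)]
    rfl
  refine ⟨L.length, (B2_paths_len T S 0).trans (Nat.pow_le_pow_right (by norm_num) hT),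
    fun p => (L.get p).1, fun p j => (L.get p).2.1.getD j 0, fun p j => (L.get p).2.2.getD j 1,
    fun p => ?_, fun p => ?_, fun x => ?_, fun p x y h1 h2 => ?_⟩
  · exact (B2_getD (q0 := 0) (d := (0 : B2_Q n h)) (fun q => q.totalDegree ≤ 2)
      (by rw [totalDegree_zero]; omega) _ _ (hl1 p)).2 (hdeg _ (hmem p)).1
  · exact (B2_getD (q0 := 0) (d := (1 : B2_Q n h)) (fun q => q.totalDegree ≤ 2)
      (by rw [totalDegree_one]; omega) _ _ (hl2 p)).2 (hdeg _ (hmem p)).2.1
  · obtain ⟨w', hw', p, hp, hps⟩ := B2_cover T S 0 (by omega)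
      (fun m w w' _ => by simp only [hS]; rw [eval_C, eval_C]) (Fin.append x (fun _ => 0))
    obtain ⟨i, hi⟩ := List.get_of_mem hp
    refine ⟨i, fun j => w' (Fin.natAdd n j), ?_⟩
    have hw : Fin.append x (fun j => w' (Fin.natAdd n j)) = w' := by
      funext a
      refine Fin.addCases (fun b => ?_) (fun b => ?_) a
      · rw [Fin.append_left, hw'.1 b, Fin.append_left]
      · rw [Fin.append_right]
    rw [hw]
    have h3 := (hsat i w').2 (by rw [hi]; exact hps)
    exact h3
  · have h3 := (hsat p _).1 ⟨h1, h2⟩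
    have h4 := B2_sound T (Fin.append x y) S 0 (by omega) _ (hmem p) h3
    have h5 : (fun i => (Fin.append x y : Fin (n + h) → ℝ) (Fin.castAdd h i)) = x := by
      funext i; rw [Fin.append_left]
    have h6 : (fun m => eval (Fin.append x y) (S m)) = fun _ => (0 : ℝ) := by
      funext m; simp only [hS]; rw [eval_C]
    rw [h5, h6] at h4
    exact h4

end BU
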