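import Pool.Agent.Work.MP_4030f5_lc.B1
import Pool.Agent.Work.MP_4030f5_lc.B2

/-! # B3: Ben-Or's lower bound for counting distinct numbers -/

open MvPolynomial Filter Topology

namespace BU

/-- The order pattern of a permutation. -/
noncomputable def B3_ord {n : ℕ} (σ : Equiv.Perm (Fin n)) : Fin n → Fin n → Bool := fun i j =>
  decide (σ i < σ j)

theorem B3_ord_injective {n : ℕ} : Function.Injective (B3_ord (n := n)) := by
  intro σ τ h
  have h1 : ∀ i j, σ i < σ j ↔ τ i < τ j := by
    intro i j
    have := congrFun (congrFun h i) j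
    simpa [B3_ord] using this
  have hm : StrictMono (σ.symm.trans τ) := by
    intro a b hab
    have := (h1 (σ.symm a) (σ.symm b)).1 (by simpa using hab)
    simpa using this
  let e : Fin n ≃o Fin n := StrictMono.orderIsoOfSurjective _ hm (σ.symm.trans τ).surjective
  have he : e = OrderIso.refl _ := Subsingleton.elim _ _
  ext i
  have h2 : e (σ i) = σ i := by rw [he]; rfl
  have h3 : e (σ i) = τ i := by
    change (σ.symm.trans τ) (σ i) = τ i
    simp
  rw [← h3, h2]

/-- The order pattern of the first `n` coordinates. -/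
noncomputable def B3_lam (n h : ℕ) (z : Fin (n + h) → ℝ) : Fin n → Fin n → Bool := by
  classical
  exact fun i j => decide (z (Fin.castAdd h i) < z (Fin.castAdd h j))

theorem B3_lam_eq {n h : ℕ} {z z' : Fin (n + h) → ℝ} : B3_lam n h z = B3_lam n h z' ↔
    ∀ i j, (z (Fin.castAdd h i) < z (Fin.castAdd h j) ↔
      z' (Fin.castAdd h i) < z' (Fin.castAdd h j)) := by
  constructor
  · intro h1 i j
    have := congrFun (congrFun h1 i) j
    simpa [B3_lam] using this
  · intro h1
    funext i j
    simp only [B3_lam]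
    simp only [h1 i j]

theorem B3_split {n h : ℕ} (z : Fin (n + h) → ℝ) :
    Fin.append (fun i => z (Fin.castAdd h i)) (fun j => z (Fin.natAdd n j)) = z := by
  funext a
  refine Fin.addCases (fun b => ?_) (fun b => ?_) a
  · rw [Fin.append_left]
  · rw [Fin.append_right]

/-- A tree that decides from `x ∈ ℝ^n` a value that equals `b₀` exactly when the `x i` are pairwise
distinct satisfies `n! ≤ 3^h 6^(n + 3h + 1)`. -/
theorem factorial_le {n h : ℕ} {β : Type} (T : RACT (Fin n) β) (hT : T.depth ≤ h) (b₀ : β)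
    (hrun : ∀ x : Fin n → ℝ, T.run x (fun _ => 0) = b₀ ↔ Function.Injective x) :
    n.factorial ≤ 3 ^ h * 6 ^ (n + 3 * h + 1) := by
  classical
  obtain ⟨m, hm, o, c, s, hc, hs, hcov, hout⟩ := tree_paths T hT
  set W : Fin m → Set (Fin (n + h) → ℝ) := fun p =>
    {z | (∀ j, eval z (c p j) = 0) ∧ ∀ b, 0 < eval z (s p b)} with hW
  have hinj : ∀ p, o p = b₀ → ∀ z, (∀ j, eval z (c p j) = 0) → (∀ b, 0 < eval z (s p b)) →
      Function.Injective (fun i => z (Fin.castAdd h i)) := by
    intro p hp z h1 h2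
    rw [← hrun, ← hp]
    refine hout p _ (fun j => z (Fin.natAdd n j)) ?_ ?_
    · rw [B3_split]; exact h1
    · rw [B3_split]; exact h2
  have hbound : ∀ p, o p = b₀ → (B3_lam n h '' W p).ncard ≤ 6 ^ (n + 3 * h + 1) := by
    intro p hp
    have h0 := comp_bound (c p) (s p) (hc p) (hs p) (B3_lam n h) (fun z hz1 hz2 => by
      have hi := hinj p hp z hz1 hz2
      have hev : ∀ᶠ z' in 𝓝 z, ∀ i j, z (Fin.castAdd h i) < z (Fin.castAdd h j) →
          z' (Fin.castAdd h i) < z' (Fin.castAdd h j) := by
        refine eventually_all.2 fun i => eventually_all.2 fun j => ?_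
        by_cases hij : z (Fin.castAdd h i) < z (Fin.castAdd h j)
        · have ho : IsOpen {z' : Fin (n + h) → ℝ |
              z' (Fin.castAdd h i) < z' (Fin.castAdd h j)} :=
            isOpen_lt (continuous_apply _) (continuous_apply _)
          filter_upwards [ho.mem_nhds hij] with z' hz' _
          exact hz'
        · exact Eventually.of_forall fun z' h' => absurd h' hij
      refine ⟨_, hev, fun z' hz' _ _ => ?_⟩
      rw [B3_lam_eq]
      intro i j
      constructor
      · intro hlt
        by_contra hcon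
        rcases eq_or_ne i j with rfl | hne
        · exact lt_irrefl _ hlt
        · have h3 : z (Fin.castAdd h j) < z (Fin.castAdd h i) :=
            lt_of_le_of_ne (not_lt.1 hcon) fun he => hne (hi he.symm)
          exact lt_asymm hlt (hz' j i h3)
      · exact hz' i j)
    refine h0.trans (Nat.pow_le_pow_right (by norm_num) ?_)
    rw [Fintype.card_fin]
    omega
  have hsub : Set.range (B3_ord (n := n)) ⊆
      ⋃ p ∈ Finset.univ.filter (fun p => o p = b₀), B3_lam n h '' W p := by
    rintro _ ⟨σ, rfl⟩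
    obtain ⟨p, y, h1, h2⟩ := hcov (fun i => ((σ i : ℕ) : ℝ))
    have hx : Function.Injective (fun i => ((σ i : ℕ) : ℝ)) := by
      intro i j hij
      exact σ.injective (Fin.ext (Nat.cast_injective hij))
    have hp : o p = b₀ := by
      rw [← hout p _ y h1 h2]
      exact (hrun _).2 hx
    refine Set.mem_iUnion₂.2 ⟨p, Finset.mem_filter.2 ⟨Finset.mem_univ _, hp⟩,
      Fin.append (fun i => ((σ i : ℕ) : ℝ)) y, ⟨h1, h2⟩, ?_⟩
    funext i j
    simp only [B3_lam, B3_ord, Fin.append_left, Nat.cast_lt, Fin.val_fin_lt]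
  calc n.factorial = Fintype.card (Equiv.Perm (Fin n)) := by
        rw [Fintype.card_perm, Fintype.card_fin]
    _ = (Set.range (B3_ord (n := n))).ncard := by
        rw [← Set.image_univ, Set.ncard_image_of_injective _ B3_ord_injective, Set.ncard_univ,
          Nat.card_eq_fintype_card]
    _ ≤ (⋃ p ∈ Finset.univ.filter (fun p => o p = b₀), B3_lam n h '' W p).ncard :=
        Set.ncard_le_ncard hsub (Set.toFinite _)
    _ ≤ ∑ p ∈ Finset.univ.filter (fun p => o p = b₀), (B3_lam n h '' W p).ncard :=
        Finset.set_ncard_biUnion_le _ _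
    _ ≤ ∑ p ∈ Finset.univ.filter (fun p => o p = b₀), 6 ^ (n + 3 * h + 1) :=
        Finset.sum_le_sum fun p hp => hbound p (Finset.mem_filter.1 hp).2
    _ = (Finset.univ.filter (fun p => o p = b₀)).card * 6 ^ (n + 3 * h + 1) := by
        rw [Finset.sum_const, smul_eq_mul]
    _ ≤ 3 ^ h * 6 ^ (n + 3 * h + 1) := by
        refine Nat.mul_le_mul_right _ ((Finset.card_filter_le _ _).trans ?_)
        rw [Finset.card_univ, Fintype.card_fin]
        exact hm

/-- No linear bound: Ben-Or's theorem. -/
theorem no_linear (C : ℕ) : ∃ n : ℕ, ∀ (β : Type) (T : RACT (Fin n) β) (b₀ : β),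
    (∀ x : Fin n → ℝ, T.run x (fun _ => 0) = b₀ ↔ Function.Injective x) → C * n < T.depth := by
  obtain ⟨n, hn1, h2⟩ := ((eventually_ge_atTop 1).and
    (Nat.eventually_pow_lt_factorial_sub (3 ^ C * 6 ^ (3 * C + 2)) 0)).exists
  refine ⟨n, fun β T b₀ hrun => ?_⟩
  by_contra hcon
  have h1 := factorial_le T (not_lt.1 hcon) b₀ hrun
  rw [Nat.sub_zero] at h2
  have h4 : 3 ^ (C * n) * 6 ^ (n + 3 * (C * n) + 1) ≤ (3 ^ C * 6 ^ (3 * C + 2)) ^ n := by
    rw [mul_pow, ← pow_mul, ← pow_mul]
    refine Nat.mul_le_mul_left _ (Nat.pow_le_pow_right (by norm_num) ?_)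
    have : (3 * C + 2) * n = 3 * (C * n) + 2 * n := by ring
    omega
  omega

end BU
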