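import Pool.Agent.Work.MP_4030f5_lc.B3

/-! # B4: dimension one: no linear algorithm -/

namespace BU

section finite

variable {X : Type} [TopologicalSpace X]

theorem B4_locZero : locZero X 0 = ⊥ := by
  rw [eq_bot_iff]
  intro f hf
  rw [Submodule.mem_bot]
  funext t
  obtain ⟨V, hV, hV'⟩ := hf (t 0)
  refine hV' t (fun i => ?_)
  have : i = 0 := Fin.ext (by omega)
  rw [this]
  exact mem_of_mem_nhds hV

theorem B4_cocyc [DiscreteTopology X] : cocyc X 0 = ⊤ := by
  rw [eq_top_iff]
  intro f _
  show dC X 0 f ∈ locZero X (0 + 1)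
  intro x
  refine ⟨{x}, by simp, fun t ht => ?_⟩
  have h : ∀ i, t i = x := ht
  show ∑ j : Fin (0 + 2), (-1 : ℚ) ^ (j : ℕ) * f (fun i => t (j.succAbove i)) = 0
  rw [Fin.sum_univ_two]
  have h1 : (fun i : Fin 1 => t ((0 : Fin 2).succAbove i)) = fun _ => x := funext (fun i => h _)
  have h2 : (fun i : Fin 1 => t ((1 : Fin 2).succAbove i)) = fun _ => x := funext (fun i => h _)
  rw [h1, h2]
  simp

theorem B4_betti [DiscreteTopology X] [Fintype X] : betti X 0 = Fintype.card X := by
  unfold betti
  have e1 : Module.finrank ℚ (HAS X 0) = Module.finrank ℚ (Coch X 0) := by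
    have h1 : Module.finrank ℚ (↥(cocyc X 0) ⧸ (cobd X 0).comap (cocyc X 0).subtype) =
        Module.finrank ℚ ↥(cocyc X 0) := by
      have hb : (cobd X 0).comap (cocyc X 0).subtype = ⊥ := by
        show (locZero X 0).comap (cocyc X 0).subtype = ⊥
        rw [B4_locZero, Submodule.comap_bot]
        exact Submodule.ker_subtype _
      rw [hb]
      exact LinearEquiv.finrank_eq (Submodule.quotEquivOfEqBot _ rfl)
    rw [h1, B4_cocyc]
    exact LinearEquiv.finrank_eq Submodule.topEquiv
  rw [e1]
  simp [Coch]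

end finite

/-- the zeroth Betti number of a finite set of real numbers is its cardinality. -/
theorem betti_zero_finite (S : Finset (Fin 1 → ℝ)) :
    betti (↑(S : Set (Fin 1 → ℝ))) 0 = S.card := by
  have : Finite (↑(S : Set (Fin 1 → ℝ))) := S.finite_toSet
  have : Fintype (↑(S : Set (Fin 1 → ℝ))) := Fintype.ofFinite _
  rw [B4_betti]
  rw [← Nat.card_eq_fintype_card]
  simp


section rename

variable {σ σ' β : Type}

/-- replace input registers by scratch registers `loc z < K` and shift the scratch registers. -/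
def B4_ren (K : ℕ) (loc : σ → ℕ) : RACT σ β → RACT σ' β
  | .leaf b => .leaf b
  | .const r c T => .const (K + r) c (B4_ren K loc T)
  | .op o r u v T => .op o (K + r) (Sum.inr (Sum.elim loc (fun r => K + r) u))
      (Sum.inr (Sum.elim loc (fun r => K + r) v)) (B4_ren K loc T)
  | .branch u T₁ T₂ T₃ => .branch (Sum.inr (Sum.elim loc (fun r => K + r) u))
      (B4_ren K loc T₁) (B4_ren K loc T₂) (B4_ren K loc T₃)

theorem B4_depth_ren (K : ℕ) (loc : σ → ℕ) (T : RACT σ β) :
    (B4_ren (σ' := σ') K loc T).depth = T.depth := by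
  induction T with
  | leaf b => rfl
  | const i c T ih => simp [B4_ren, RACT.depth, ih]
  | op o i u v T ih => simp [B4_ren, RACT.depth, ih]
  | branch u T₁ T₂ T₃ h₁ h₂ h₃ => simp [B4_ren, RACT.depth, h₁, h₂, h₃]

theorem B4_run_ren (K : ℕ) (loc : σ → ℕ) (hloc : ∀ z, loc z < K) (T : RACT σ β)
    (X : σ → ℝ) (x : σ' → ℝ) (s s' : ℕ → ℝ) (h1 : ∀ z, s' (loc z) = X z)
    (h2 : ∀ r, s' (K + r) = s r) : (B4_ren K loc T).run x s' = T.run X s := by
  have hval : ∀ (s s' : ℕ → ℝ), (∀ z, s' (loc z) = X z) → (∀ r, s' (K + r) = s r) →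
      ∀ u : σ ⊕ ℕ, Sum.elim x s' (Sum.inr (Sum.elim loc (fun r => K + r) u)) =
        Sum.elim X s u := by
    intro s s' h1 h2 u
    cases u with
    | inl z => exact h1 z
    | inr r => exact h2 r
  have hupd : ∀ (s s' : ℕ → ℝ) (r : ℕ) (v : ℝ), (∀ z, s' (loc z) = X z) →
      (∀ r, s' (K + r) = s r) →
      (∀ z, Function.update s' (K + r) v (loc z) = X z) ∧
      (∀ r', Function.update s' (K + r) v (K + r') = Function.update s r v r') := by
    intro s s' r v h1 h2
    refine ⟨fun z => ?_, fun r' => ?_⟩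
    · rw [Function.update_of_ne (by have := hloc z; omega)]
      exact h1 z
    · by_cases hr : r' = r
      · subst hr; simp
      · rw [Function.update_of_ne (by omega), Function.update_of_ne hr]
        exact h2 r'
  induction T generalizing s s' with
  | leaf b => rfl
  | const r c T ih =>
    obtain ⟨h3, h4⟩ := hupd s s' r c h1 h2
    exact ih _ _ h3 h4
  | op o r u v T ih =>
    simp only [B4_ren, RACT.run, hval s s' h1 h2]
    obtain ⟨h3, h4⟩ := hupd s s' r (o.val (Sum.elim X s u) (Sum.elim X s v)) h1 h2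
    exact ih _ _ h3 h4
  | branch u T₁ T₂ T₃ i₁ i₂ i₃ =>
    simp only [B4_ren, RACT.run, hval s s' h1 h2]
    rw [i₁ s s' h1 h2, i₂ s s' h1 h2, i₃ s s' h1 h2]

end rename

section pre

variable {n : ℕ} {β : Type}

/-- load the numbers `- x i`, `i ∈ l`, into the registers `2 + i`. -/
def B4_pre (T : RACT (Fin n) β) : List (Fin n) → RACT (Fin n) β
  | [] => T
  | i :: l => .op .sub (2 + i) (Sum.inr 0) (Sum.inl i) (B4_pre T l)

theorem B4_depth_pre (T : RACT (Fin n) β) (l : List (Fin n)) :
    (B4_pre T l).depth = T.depth + l.length := by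
  induction l with
  | nil => rfl
  | cons i l ih => simp [B4_pre, RACT.depth, ih]; omega

theorem B4_run_pre (T : RACT (Fin n) β) (x : Fin n → ℝ) (l : List (Fin n)) (s : ℕ → ℝ)
    (hs : s 0 = 0) : ∃ s' : ℕ → ℝ, (B4_pre T l).run x s = T.run x s' ∧ s' 0 = 0 ∧ s' 1 = s 1 ∧
      (∀ i ∈ l, s' (2 + i) = - x i) ∧ (∀ i : Fin n, s (2 + i) = - x i → s' (2 + i) = - x i) := by
  induction l generalizing s with
  | nil => exact ⟨s, rfl, hs, rfl, by simp, fun i h => h⟩
  | cons i l ih =>
    have h0 : (Function.update s (2 + (i : ℕ)) (Op.sub.val (Sum.elim x s (Sum.inr 0))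
        (Sum.elim x s (Sum.inl i)))) 0 = 0 := by
      rw [Function.update_of_ne (by omega)]; exact hs
    obtain ⟨s', h1, h2, h3, h4, h5⟩ := ih _ h0
    refine ⟨s', h1, h2, ?_, ?_, ?_⟩
    · rw [h3, Function.update_of_ne (by omega)]
    · intro j hj
      rcases List.mem_cons.1 hj with rfl | hj
      · apply h5
        rw [Function.update_self]
        simp [Op.val, hs]
      · exact h4 j hj
    · intro j hj
      apply h5
      by_cases hij : j = i
      · subst hij
        rw [Function.update_self]
        simp [Op.val, hs]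
      · rw [Function.update_of_ne]
        · exact hj
        · intro h
          exact hij (Fin.ext (by omega))

end pre

/-- In dimension one, for every description bound `c ≥ 1`, no family of algebraic computation trees
(even with arbitrary real constants) of linear depth computes the Betti numbers of the unions. -/
theorem no_linear_betti (c : ℕ) (hc : 1 ≤ c) :
    ¬ ∃ C : ℕ, ∀ (n : ℕ) (φ : Fin n → Shape c),
      ∃ T : RACT (Fin n × (Fin c × Mon 1 c)) (Fin 1 → ℕ), T.depth ≤ C * n ^ 1 ∧
        ∀ (a : Fin n → Coef 1 c) (s : ℕ → ℝ), (∀ i, IsCompact (semiSet (φ i) (a i))) →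
          ∀ q : Fin 1, T.run (fun z => a z.1 z.2) s q =
            betti (⋃ i, semiSet (φ i) (a i) : Set (Fin 1 → ℝ)) q := by
  classical
  rintro ⟨C, hC⟩
  obtain ⟨n, hn⟩ := no_linear (C + 3)
  have hn0 : 0 < n := by
    rcases Nat.eq_zero_or_pos n with rfl | h
    · have := hn Unit (.leaf ()) () (fun x => ⟨fun _ => Function.injective_of_subsingleton x,
        fun _ => rfl⟩)
      simp [RACT.depth] at this
    · exact h
  let j0 : Fin c := ⟨0, hc⟩
  let m0 : Mon 1 c := ⟨fun _ => 0, by simp⟩
  let m1 : Mon 1 c := ⟨fun _ => ⟨1, by omega⟩, by simpa using hc⟩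
  have hm : m0 ≠ m1 := by
    intro h
    have := congrFun (congrArg Subtype.val h) 0
    simp [m0, m1, Fin.ext_iff] at this
  let φ : Fin n → Shape c := fun _ v => decide (v j0 = 0)
  obtain ⟨T, hT, hrun⟩ := hC n φ
  -- coefficients
  let coef : ℝ → Coef 1 c := fun r z =>
    if z = (j0, m0) then - r else if z = (j0, m1) then 1 else 0
  have hpoly : ∀ (r : ℝ) (y : Fin 1 → ℝ), polyVal (coef r) j0 y = y 0 - r := by
    intro r y
    unfold polyVal
    rw [← Finset.add_sum_erase _ _ (Finset.mem_univ m0),
      ← Finset.add_sum_erase _ _ (Finset.mem_erase.2 ⟨hm.symm, Finset.mem_univ m1⟩)]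
    rw [Finset.sum_eq_zero]
    · simp [coef, m0, m1, hm.symm]
      ring
    · intro μ hμ
      simp only [Finset.mem_erase, Finset.mem_univ, and_true] at hμ
      have h1 : (j0, μ) ≠ (j0, m0) := fun h => hμ.2 (Prod.ext_iff.1 h).2
      have h2 : (j0, μ) ≠ (j0, m1) := fun h => hμ.1 (Prod.ext_iff.1 h).2
      simp [coef, h1, h2]
  have hset : ∀ (i : Fin n) (r : ℝ), semiSet (φ i) (coef r) = {fun _ => r} := by
    intro i r
    ext y
    simp only [semiSet, φ, Set.mem_ofPred_eq, decide_eq_true_eq, hpoly, sign_eq_zero_iff,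
      Set.mem_singleton_iff]
    constructor
    · intro h
      funext t
      have : t = 0 := Fin.ext (by omega)
      rw [this]; linarith
    · rintro rfl; simp
  -- the renamed tree
  let loc : Fin n × (Fin c × Mon 1 c) → ℕ := fun z =>
    if z.2 = (j0, m0) then 2 + (z.1 : ℕ) else if z.2 = (j0, m1) then 1 else 0
  have hloc : ∀ z, loc z < n + 2 := by
    intro z
    simp only [loc]
    split_ifs <;> have := z.1.2 <;> omega
  let T' : RACT (Fin n) (Fin 1 → ℕ) :=
    .const 0 0 (.const 1 1 (B4_pre (B4_ren (n + 2) loc T) (List.finRange n)))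
  have hdepth : T'.depth ≤ (C + 3) * n := by
    simp only [T', RACT.depth, B4_depth_pre, B4_depth_ren, List.length_finRange]
    rw [pow_one] at hT
    nlinarith
  have hT' : ∀ x : Fin n → ℝ, T'.run x (fun _ => 0) = (fun _ => (Finset.univ.image (fun i : Fin n =>
      (fun _ : Fin 1 => x i))).card) := by
    intro x
    simp only [T', RACT.run]
    obtain ⟨s', h1, h2, h3, h4, -⟩ := B4_run_pre (B4_ren (n + 2) loc T) x (List.finRange n)
      (Function.update (Function.update (fun _ => 0) 0 0) 1 1) (by
        rw [Function.update_of_ne (by omega)]; simp)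
    rw [h1]
    rw [B4_run_ren (n + 2) loc hloc T (fun z => coef (x z.1) z.2) x
      (fun r => s' (n + 2 + r)) s' ?_ (fun r => rfl)]
    · funext q
      rw [hrun (fun i => coef (x i)) _ (fun i => by rw [hset i (x i)]; exact isCompact_singleton) q]
      have hq : q = 0 := Fin.ext (by omega)
      rw [hq]
      have hU : (⋃ i, semiSet (φ i) (coef (x i)) : Set (Fin 1 → ℝ)) =
          ((Finset.univ.image (fun i : Fin n => (fun _ : Fin 1 => x i)) : Finset (Fin 1 → ℝ)) :
            Set (Fin 1 → ℝ)) := by
        ext y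
        simp only [hset, Set.mem_iUnion, Set.mem_singleton_iff, Finset.coe_image,
          Finset.coe_univ, Set.image_univ, Set.mem_range]
        exact ⟨fun ⟨i, h⟩ => ⟨i, h.symm⟩, fun ⟨i, h⟩ => ⟨i, h.symm⟩⟩
      have := betti_zero_finite (Finset.univ.image (fun i : Fin n => (fun _ : Fin 1 => x i)))
      rw [← this]
      exact congrArg (fun X : Set (Fin 1 → ℝ) => betti X 0) hU
    · intro z
      have h3' : s' 1 = 1 := by rw [h3]; simp
      simp only [loc, coef]
      split_ifs with ha hb
      · exact h4 z.1 (List.mem_finRange _)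
      · exact h3'
      · exact h2
  have := hn (Fin 1 → ℕ) T' (fun _ => n) (fun x => ?_)
  · omega
  · rw [hT']
    constructor
    · intro h
      have h1 : (Finset.univ.image (fun i : Fin n => (fun _ : Fin 1 => x i))).card =
          (Finset.univ : Finset (Fin n)).card := by
        rw [congrFun h 0]; simp
      have h2 := Finset.card_image_iff.1 h1
      intro i j hij
      exact h2 (by simp) (by simp) (by funext _; exact hij)
    · intro h
      funext _
      rw [Finset.card_image_of_injective]
      · simp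
      · intro i j hij
        exact h (congrFun hij 0)

end BU
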