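import Pool.Agent.Work.MP_4030f5_lc.Q0

/-! # Cells -/

namespace BU

/-- the homeomorphism `ℝ → (-1, 1)`. -/
noncomputable def hh (t : ℝ) : ℝ := t / (1 + |t|)

/-- Cells in `ℝ^M` with their type (list of booleans, the head belongs to the last coordinate;
`true` for an open band, `false` for a graph). Open bands are
`{u (init x) < hh (last x) < v (init x)}` with continuous `-1 ≤ u < v ≤ 1`. -/
inductive IsCell : (M : ℕ) → List Bool → Set (Fin M → ℝ) → Prop
  | zero : IsCell 0 [] Set.univ
  | graph {M : ℕ} {τ : List Bool} {W : Set (Fin M → ℝ)} (f : (Fin M → ℝ) → ℝ) :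
      IsCell M τ W → ContinuousOn f W →
      IsCell (M + 1) (false :: τ) {x | Fin.init x ∈ W ∧ x (Fin.last M) = f (Fin.init x)}
  | band {M : ℕ} {τ : List Bool} {W : Set (Fin M → ℝ)} (u v : (Fin M → ℝ) → ℝ) :
      IsCell M τ W → ContinuousOn u W → ContinuousOn v W →
      (∀ b ∈ W, -1 ≤ u b ∧ u b < v b ∧ v b ≤ 1) →
      IsCell (M + 1) (true :: τ)
        {x | Fin.init x ∈ W ∧ u (Fin.init x) < hh (x (Fin.last M)) ∧
          hh (x (Fin.last M)) < v (Fin.init x)}

/-- dimension of a cell of type `τ` -/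
def cdim (τ : List Bool) : ℕ := τ.count true

end BU
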