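import Pool.Agent.Work.MP_4030f5_lc.Defs

/-! # Cylindrical families (topological definition)

`E : B → (Fin k → ℝ) → Prop` is a family of subsets of `ℝ^k` over the base `B`.  It is
cylindrical if there are finitely many continuous functions `ξ_0 < ... < ξ_{l-1}` on `B` such that
over the graph of every `ξ_i` and over every open band between consecutive ones (the two unbounded
bands included) the family is cylindrical in the remaining coordinates. -/

namespace BU

/-- the open bands cut out of `B × ℝ` by `ξ_0 < ... < ξ_{l-1}`; band number `i` is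
`{ξ_{i-1} < t < ξ_i}`. -/
def Band {B : Type} [TopologicalSpace B] {l : ℕ} (ξ : Fin l → C(B, ℝ)) (i : Fin (l + 1)) :
    Set (B × ℝ) :=
  {z | (∀ j : Fin l, (j : ℕ) < i → ξ j z.1 < z.2) ∧ (∀ j : Fin l, (i : ℕ) ≤ j → z.2 < ξ j z.1)}

def Cyl : (k : ℕ) → (B : Type) → [TopologicalSpace B] → (B → (Fin k → ℝ) → Prop) → Prop
  | 0, _, _, E => (∀ b y, E b y) ∨ (∀ b y, ¬ E b y)
  | k + 1, B, _, E => ∃ (l : ℕ) (ξ : Fin l → C(B, ℝ)), (∀ b, StrictMono (fun i => ξ i b)) ∧
      (∀ i, Cyl k B (fun b y => E b (Fin.cons (ξ i b) y))) ∧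
      (∀ i : Fin (l + 1), Cyl k (Band ξ i) (fun z y => E z.1.1 (Fin.cons z.1.2 y)))

end BU
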