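import Mathlib

/-! # MP_4030f5_lc: textbook level definitions (Alexander-Spanier cohomology, algebraic
computation trees, sets of constant description complexity) -/

namespace BU

/-! ## Alexander-Spanier cohomology with rational coefficients -/

section AS

variable (X : Type) [TopologicalSpace X]

/-- Alexander-Spanier `q`-cochains: arbitrary rational functions on `(q+1)`-tuples of points. -/
abbrev Coch (q : ℕ) : Type := (Fin (q + 1) → X) → ℚ

/-- The locally zero cochains: those that vanish on `V^(q+1)` for a neighbourhood `V` of every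
point. -/
def locZero (q : ℕ) : Submodule ℚ (Coch X q) where
  carrier := {f | ∀ x : X, ∃ V ∈ nhds x, ∀ t : Fin (q + 1) → X, (∀ i, t i ∈ V) → f t = 0}
  add_mem' := by
    intro f g hf hg x
    obtain ⟨V, hV, hV'⟩ := hf x
    obtain ⟨W, hW, hW'⟩ := hg x
    refine ⟨V ∩ W, Filter.inter_mem hV hW, fun t ht => ?_⟩
    simp [hV' t (fun i => (ht i).1), hW' t (fun i => (ht i).2)]
  zero_mem' := fun x => ⟨Set.univ, Filter.univ_mem, fun t _ => rfl⟩
  smul_mem' := by
    intro c f hf x
    obtain ⟨V, hV, hV'⟩ := hf x
    exact ⟨V, hV, fun t ht => by simp [hV' t ht]⟩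

/-- The coboundary `(df)(x_0,...,x_{q+1}) = ∑ (-1)^j f(x_0,..,x_{j-1},x_{j+1},..,x_{q+1})`. -/
def dC (q : ℕ) : Coch X q →ₗ[ℚ] Coch X (q + 1) where
  toFun f := fun t => ∑ j : Fin (q + 2), (-1 : ℚ) ^ (j : ℕ) * f (fun i => t (j.succAbove i))
  map_add' := by
    intro f g
    funext t
    simp [mul_add, Finset.sum_add_distrib]
  map_smul' := by
    intro c f
    funext t
    simp only [Pi.smul_apply, smul_eq_mul, RingHom.id_apply, Finset.mul_sum]
    exact Finset.sum_congr rfl (fun j _ => by ring)

/-- Cocycles of the quotient complex: cochains whose coboundary is locally zero. -/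
def cocyc (q : ℕ) : Submodule ℚ (Coch X q) := (locZero X (q + 1)).comap (dC X q)

/-- Coboundaries (plus locally zero cochains). -/
def cobd : (q : ℕ) → Submodule ℚ (Coch X q)
  | 0 => locZero X 0
  | q + 1 => locZero X (q + 1) ⊔ LinearMap.range (dC X q)

/-- The `q`-th Alexander-Spanier cohomology group of `X` with coefficients in `ℚ`. -/
abbrev HAS (q : ℕ) : Type := (cocyc X q) ⧸ ((cobd X q).comap (cocyc X q).subtype)

/-- The `q`-th Betti number: the rank of the `q`-th cohomology group. -/
noncomputable def betti (q : ℕ) : ℕ := Module.finrank ℚ (HAS X q)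

end AS

/-! ## Algebraic computation trees -/

/-- The four arithmetic operations on real numbers. -/
inductive Op : Type
  | add | sub | mul | div

/-- Result of an arithmetic operation (division by zero gives zero, as in Mathlib). -/
noncomputable def Op.val : Op → ℝ → ℝ → ℝ
  | .add => (· + ·)
  | .sub => (· - ·)
  | .mul => (· * ·)
  | .div => (· / ·)

/-- Algebraic computation trees with input registers `Sum.inl i`, `i : σ` (read only) and scratch
registers `Sum.inr r`, `r : ℕ`. Nodes: load an integer constant into a scratch register, perform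
one arithmetic operation on two registers and store the result in a scratch register, or branch
on the sign (negative, zero, positive) of a register. Leaves carry the output. -/
inductive ACT (σ : Type) (β : Type) : Type
  | leaf : β → ACT σ β
  | const : ℕ → ℤ → ACT σ β → ACT σ β
  | op : Op → ℕ → σ ⊕ ℕ → σ ⊕ ℕ → ACT σ β → ACT σ β
  | branch : σ ⊕ ℕ → ACT σ β → ACT σ β → ACT σ β → ACT σ β

namespace ACT

variable {σ β : Type}

/-- Number of nodes (constants, arithmetic operations, comparisons) on the longest path. -/
def depth : ACT σ β → ℕ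
  | leaf _ => 0
  | const _ _ T => T.depth + 1
  | op _ _ _ _ T => T.depth + 1
  | branch _ T₁ T₂ T₃ => max T₁.depth (max T₂.depth T₃.depth) + 1

/-- Run the tree on input `x` with scratch content `s`. -/
noncomputable def run (x : σ → ℝ) : ACT σ β → (ℕ → ℝ) → β
  | leaf b, _ => b
  | const r c T, s => T.run x (Function.update s r (c : ℝ))
  | op o r i j T, s => T.run x (Function.update s r (o.val (Sum.elim x s i) (Sum.elim x s j)))
  | branch i T₁ T₂ T₃, s =>
      if Sum.elim x s i < 0 then T₁.run x s
      else if Sum.elim x s i = 0 then T₂.run x s else T₃.run x s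

end ACT

/-! ## Sets of constant description complexity -/

/-- Monomials in `k` variables of total degree at most `c`. -/
abbrev Mon (k c : ℕ) : Type := {m : Fin k → Fin (c + 1) // ∑ i, (m i : ℕ) ≤ c}

/-- Coefficients of `c` polynomials in `k` variables of degree at most `c`. -/
abbrev Coef (k c : ℕ) : Type := Fin c × Mon k c → ℝ

/-- The value at `x` of the `j`-th polynomial with coefficients `a`. -/
noncomputable def polyVal {k c : ℕ} (a : Coef k c) (j : Fin c) (x : Fin k → ℝ) : ℝ :=
  ∑ m : Mon k c, a (j, m) * ∏ i, x i ^ ((m.1 i : Fin (c + 1)) : ℕ)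

/-- A Boolean combination of the sign conditions of `c` polynomials. -/
abbrev Shape (c : ℕ) : Type := (Fin c → SignType) → Bool

/-- The semialgebraic set in `ℝ^k` described by the Boolean combination `φ` of sign conditions on
the `c` polynomials of degree at most `c` with coefficients `a`. -/
def semiSet {k c : ℕ} (φ : Shape c) (a : Coef k c) : Set (Fin k → ℝ) :=
  {x | φ (fun j => SignType.sign (polyVal a j x)) = true}

end BU
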