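import Pool.Agent.Work.MP_4030f5_lc.EDefs

/-! # E1: one dimensional Euler integral -/

namespace BU

open Filter Topology

variable {β γ : Type}

theorem PC.comp {u : ℝ → β} (h : PC u) (f : β → γ) : PC (fun t => f (u t)) := by
  refine Set.Finite.subset h ?_
  intro t ht ht'
  exact ht (ht'.mono fun s hs => by show f (u s) = f (u t); rw [hs])

theorem PC.prod {u : ℝ → β} {v : ℝ → γ} (hu : PC u) (hv : PC v) : PC (fun t => (u t, v t)) := by
  refine Set.Finite.subset (hu.union hv) ?_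
  intro t ht
  by_contra hcon
  simp only [Set.mem_union, not_or, Bk, Set.mem_ofPred_eq, not_not] at hcon
  exact ht ((hcon.1.and hcon.2).mono fun s hs => by show (u s, v s) = (u t, v t); rw [hs.1, hs.2])

theorem PC.pi {ι : Type} [Finite ι] {u : ι → ℝ → β} (h : ∀ i, PC (u i)) :
    PC (fun t => (fun i => u i t)) := by
  refine Set.Finite.subset (Set.finite_iUnion h) ?_
  intro t ht
  by_contra hcon
  simp only [Set.mem_iUnion, not_exists, Bk, Set.mem_ofPred_eq, not_not] at hcon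
  exact ht ((Filter.eventually_all.2 hcon).mono fun s hs => funext hs)

theorem PC.const (b : β) : PC (fun _ : ℝ => b) := by
  refine Set.Finite.subset Set.finite_empty ?_
  intro t ht
  exact ht (Filter.Eventually.of_forall fun _ => rfl)

/-- off the break points `u` is constant on intervals. -/
theorem PC.eq_of_Icc {u : ℝ → β} {s t : ℝ} (hst : s ≤ t) (h : ∀ x ∈ Set.Icc s t, x ∉ Bk u) :
    u s = u t := by
  let _ : TopologicalSpace β := ⊥
  have _ : DiscreteTopology β := ⟨rfl⟩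
  refine (isPreconnected_Icc (a := s) (b := t)).constant (f := u) ?_
    (Set.left_mem_Icc.2 hst) (Set.right_mem_Icc.2 hst)
  intro x hx
  have h1 : ∀ᶠ y in 𝓝 x, u y = u x := by
    have := h x hx
    simpa only [Bk, Set.mem_ofPred_eq, not_not] using this
  have h2 : ContinuousAt u x := (tendsto_pure.2 h1).mono_right (pure_le_nhds _)
  exact h2.continuousWithinAt

/-- converse description of break points by a finite set off which `u` is constant. -/
theorem Bk_subset {u : ℝ → β} {A : Set ℝ} (hA : A.Finite)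
    (h : ∀ s t, s ≤ t → (∀ x ∈ Set.Icc s t, x ∉ A) → u s = u t) : Bk u ⊆ A := by
  intro t ht
  by_contra htA
  apply ht
  have h1 : ∀ᶠ s in 𝓝 t, s ∉ A := hA.isClosed.isOpen_compl.mem_nhds htA
  obtain ⟨ε, hε, hε'⟩ := Metric.eventually_nhds_iff.1 h1
  rw [Metric.eventually_nhds_iff]
  refine ⟨ε, hε, ?_⟩
  intro s hs
  rw [Real.dist_eq, abs_lt] at hs
  rcases le_total s t with hle | hle
  · refine h s t hle ?_
    intro x hx
    apply hε'
    rw [Real.dist_eq, abs_lt]
    constructor <;> linarith [hx.1, hx.2]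
  · refine (h t s hle ?_).symm
    intro x hx
    apply hε'
    rw [Real.dist_eq, abs_lt]
    constructor <;> linarith [hx.1, hx.2]

theorem PC.exists_right {u : ℝ → β} (h : PC u) (t : ℝ) : ∃ v, ∀ᶠ s in 𝓝[>] t, u s = v := by
  have hfin : (Bk u \ {t}).Finite := Set.Finite.subset h Set.sdiff_subset
  have h1 : ∀ᶠ s in 𝓝 t, s ∉ Bk u \ {t} :=
    hfin.isClosed.isOpen_compl.mem_nhds (by simp)
  obtain ⟨ε, hε, hε'⟩ := Metric.eventually_nhds_iff.1 h1
  have h2 : ∀ x, t < x → x < t + ε → x ∉ Bk u := by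
    intro x hx1 hx2 hx
    have : dist x t < ε := by
      rw [Real.dist_eq, abs_lt]
      constructor <;> linarith
    exact hε' this ⟨hx, fun h0 => hx1.ne' h0⟩
  refine ⟨u (t + ε / 2), ?_⟩
  have h3 : ∀ᶠ s in 𝓝[>] t, s ∈ Set.Ioo t (t + ε) := Ioo_mem_nhdsGT (by linarith)
  refine h3.mono ?_
  intro s hs
  rcases le_total s (t + ε / 2) with hle | hle
  · refine PC.eq_of_Icc hle ?_
    intro x hx
    exact h2 x (lt_of_lt_of_le hs.1 hx.1) (by linarith [hx.2])
  · refine (PC.eq_of_Icc hle ?_).symm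
    intro x hx
    exact h2 x (by linarith [hx.1]) (lt_of_le_of_lt hx.2 hs.2)

theorem rl_eq {u : ℝ → ℤ} {t : ℝ} {v : ℤ} (h : ∀ᶠ s in 𝓝[>] t, u s = v) : rl u t = v := by
  have hex : ∃ v, ∀ᶠ s in 𝓝[>] t, u s = v := ⟨v, h⟩
  unfold rl
  rw [dif_pos hex]
  obtain ⟨s, hs1, hs2⟩ := (hex.choose_spec.and h).exists
  rw [← hs1, hs2]

theorem rl_spec {u : ℝ → ℤ} (h : PC u) (t : ℝ) : ∀ᶠ s in 𝓝[>] t, u s = rl u t := by
  obtain ⟨v, hv⟩ := h.exists_right t
  rw [rl_eq hv]
  exact hv

theorem rl_eq_self {u : ℝ → ℤ} {t : ℝ} (ht : t ∉ Bk u) : rl u t = u t := by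
  have h1 : ∀ᶠ y in 𝓝 t, u y = u t := by
    simpa only [Bk, Set.mem_ofPred_eq, not_not] using ht
  exact rl_eq (h1.filter_mono nhdsWithin_le_nhds)

theorem rl_mul {u v : ℝ → ℤ} (hu : PC u) (hv : PC v) (t : ℝ) :
    rl (fun s => u s * v s) t = rl u t * rl v t :=
  rl_eq (((rl_spec hu t).and (rl_spec hv t)).mono fun s hs => by rw [hs.1, hs.2])

theorem rl_prod {ι : Type} (s : Finset ι) {u : ι → ℝ → ℤ} (hu : ∀ i ∈ s, PC (u i)) (t : ℝ) :
    rl (fun x => ∏ i ∈ s, u i x) t = ∏ i ∈ s, rl (u i) t := by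
  refine rl_eq (((Filter.eventually_all_finset s).2
    fun i hi => rl_spec (hu i hi) t).mono fun x hx => ?_)
  exact Finset.prod_congr rfl hx

/-- the Euler integral as a finite sum over any finite set containing the break points. -/
theorem EI1_eq_sum {u : ℝ → ℤ} {A : Finset ℝ} (hA : Bk u ⊆ A) :
    EI1 u = ∑ t ∈ A, (u t - rl u t) := by
  unfold EI1
  refine finsum_eq_sum_of_support_subset _ ?_
  intro t ht
  by_contra hcon
  exact ht (by
    show u t - rl u t = 0
    rw [rl_eq_self (fun h => hcon (hA h)), sub_self])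

theorem EI1_add {u v : ℝ → ℤ} (hu : PC u) (hv : PC v) :
    EI1 (fun t => u t + v t) = EI1 u + EI1 v := by
  classical
  have h1 : Bk u ⊆ ((hu.toFinset ∪ hv.toFinset : Finset ℝ) : Set ℝ) := by
    intro t ht; simp [ht]
  have h2 : Bk v ⊆ ((hu.toFinset ∪ hv.toFinset : Finset ℝ) : Set ℝ) := by
    intro t ht; simp [ht]
  have h3 : Bk (fun t => u t + v t) ⊆ ((hu.toFinset ∪ hv.toFinset : Finset ℝ) : Set ℝ) := by
    intro t ht
    by_contra hcon
    simp only [Finset.coe_union, Set.Finite.coe_toFinset, Set.mem_union, not_or, Bk,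
      Set.mem_ofPred_eq, not_not] at hcon
    exact ht ((hcon.1.and hcon.2).mono fun s hs => by
      show u s + v s = u t + v t
      rw [hs.1, hs.2])
  rw [EI1_eq_sum h1, EI1_eq_sum h2, EI1_eq_sum h3, ← Finset.sum_add_distrib]
  refine Finset.sum_congr rfl fun t _ => ?_
  have h4 : rl (fun t => u t + v t) t = rl u t + rl v t :=
    rl_eq (((rl_spec hu t).and (rl_spec hv t)).mono fun s hs => by rw [hs.1, hs.2])
  rw [h4]; ring

theorem EI1_neg {u : ℝ → ℤ} (hu : PC u) : EI1 (fun t => - u t) = - EI1 u := by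
  have h1 : Bk u ⊆ (hu.toFinset : Set ℝ) := by
    intro t ht; simp [ht]
  have h3 : Bk (fun t => - u t) ⊆ (hu.toFinset : Set ℝ) := by
    intro t ht
    by_contra hcon
    simp only [Set.Finite.coe_toFinset, Bk, Set.mem_ofPred_eq, not_not] at hcon
    exact ht (hcon.mono fun s hs => by show - u s = - u t; rw [hs])
  rw [EI1_eq_sum h1, EI1_eq_sum h3, ← Finset.sum_neg_distrib]
  refine Finset.sum_congr rfl fun t _ => ?_
  have h4 : rl (fun t => - u t) t = - rl u t :=
    rl_eq ((rl_spec hu t).mono fun s hs => by rw [hs])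
  rw [h4]; ring

theorem EI1_const (c : ℤ) : EI1 (fun _ => c) = 0 := by
  have h1 : Bk (fun _ : ℝ => c) ⊆ ((∅ : Finset ℝ) : Set ℝ) := by
    intro t ht
    exact (ht (Filter.Eventually.of_forall fun _ => rfl)).elim
  rw [EI1_eq_sum h1, Finset.sum_empty]

theorem E1a_PC_sum {ι : Type} (s : Finset ι) {u : ι → ℝ → ℤ} (hu : ∀ i ∈ s, PC (u i)) :
    PC (fun t => ∑ i ∈ s, u i t) := by
  refine Set.Finite.subset (Set.Finite.biUnion s.finite_toSet hu) ?_
  intro t ht
  by_contra hcon
  simp only [Set.mem_iUnion, not_exists, Bk, Set.mem_ofPred_eq, not_not] at hcon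
  exact ht (((Filter.eventually_all_finset s).2 hcon).mono
    fun x hx => Finset.sum_congr rfl hx)

theorem EI1_sum {ι : Type} (s : Finset ι) {u : ι → ℝ → ℤ} (hu : ∀ i ∈ s, PC (u i)) :
    EI1 (fun t => ∑ i ∈ s, u i t) = ∑ i ∈ s, EI1 (u i) := by
  classical
  induction s using Finset.induction_on with
  | empty => simpa using EI1_const 0
  | insert a s ha ih =>
    have h1 : PC (u a) := hu a (Finset.mem_insert_self a s)
    have h2 : ∀ i ∈ s, PC (u i) := fun i hi => hu i (Finset.mem_insert_of_mem hi)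
    have h3 := EI1_add h1 (E1a_PC_sum s h2)
    rw [Finset.sum_insert ha, ← ih h2, ← h3]
    congr 1
    funext t
    rw [Finset.sum_insert ha]

end BU
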