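import Pool.Agent.Work.MP_4030f5_lc.EDefs

/-! # E1: one dimensional Euler integral -/

namespace BU

open Filter Topology

variable {β γ : Type}

/-- reparametrisation by an order isomorphism -/
theorem Bk_reparam (u : ℝ → β) (ψ : ℝ ≃o ℝ) : Bk (fun t => u (ψ t)) = ψ ⁻¹' Bk u := by
  ext t
  have h1 : (∀ᶠ s in 𝓝 t, u (ψ s) = u (ψ t)) ↔ ∀ᶠ s in 𝓝 (ψ t), u s = u (ψ t) := by
    have h2 := ψ.toHomeomorph.map_nhds_eq t
    have h3 : 𝓝 (ψ t) = Filter.map (⇑ψ) (𝓝 t) := h2.symm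
    rw [h3, Filter.eventually_map]
  exact not_congr h1

theorem E1b_finite_iff (u : ℝ → β) (ψ : ℝ ≃o ℝ) :
    (Bk (fun t => u (ψ t))).Finite ↔ (Bk u).Finite := by
  rw [Bk_reparam]
  constructor
  · intro h
    have h2 := h.image (⇑ψ)
    rwa [Set.image_preimage_eq _ ψ.surjective] at h2
  · intro h
    exact h.preimage (ψ.injective.injOn)

theorem bp_reparam (u : ℝ → β) (ψ : ℝ ≃o ℝ) (α : ℕ) :
    bp (fun t => u (ψ t)) α = (bp u α).map ψ.symm := by
  unfold bp
  by_cases h : (Bk u).Finite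
  · have h' : (Bk (fun t => u (ψ t))).Finite := (E1b_finite_iff u ψ).2 h
    rw [dif_pos h, dif_pos h']
    have h1 : h'.toFinset = h.toFinset.map ψ.symm.toEquiv.toEmbedding := by
      ext t
      rw [Set.Finite.mem_toFinset, Finset.mem_map_equiv, Set.Finite.mem_toFinset, Bk_reparam]
      rfl
    have h2 := Finset.map_sort (ψ.symm.toEquiv.toEmbedding) h.toFinset (· ≤ ·) (· ≤ ·)
      (fun a _ b _ => (ψ.symm.le_iff_le).symm)
    rw [h1, ← h2, List.getElem?_map]
    rfl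
  · have h' : ¬ (Bk (fun t => u (ψ t))).Finite := fun h0 => h ((E1b_finite_iff u ψ).1 h0)
    rw [dif_neg h, dif_neg h']
    rfl

theorem rl_reparam (u : ℝ → ℤ) (ψ : ℝ ≃o ℝ) (t : ℝ) :
    rl (fun t => u (ψ t)) t = rl u (ψ t) := by
  have h1 : (fun v : ℤ => ∀ᶠ s in 𝓝[>] t, u (ψ s) = v) =
      fun v : ℤ => ∀ᶠ s in 𝓝[>] (ψ t), u s = v := by
    funext v
    have h2 := ψ.toHomeomorph.isEmbedding.map_nhdsWithin_eq (Set.Ioi t) t
    have h3 : (⇑ψ.toHomeomorph) '' Set.Ioi t = Set.Ioi (ψ t) := ψ.image_Ioi t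
    rw [h3] at h2
    have h4 : 𝓝[>] (ψ t) = Filter.map (⇑ψ) (𝓝[>] t) := h2.symm
    rw [h4, Filter.eventually_map]
  classical
  have key : ∀ P Q : ℤ → Prop, P = Q →
      (if h : ∃ v, P v then h.choose else (0 : ℤ)) = if h : ∃ v, Q v then h.choose else 0 := by
    rintro P Q rfl
    rfl
  exact key _ _ h1

theorem EI1_reparam (u : ℝ → ℤ) (ψ : ℝ ≃o ℝ) : EI1 (fun t => u (ψ t)) = EI1 u := by
  unfold EI1
  have h1 : ∀ t, u (ψ t) - rl (fun t => u (ψ t)) t = (fun s => u s - rl u s) (ψ.toEquiv t) := by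
    intro t
    rw [rl_reparam]
    rfl
  rw [finsum_congr h1]
  exact finsum_comp_equiv (f := fun s => u s - rl u s) ψ.toEquiv

theorem E1b_list_sum (l : List ℝ) (F : ℝ → ℤ) (L : ℕ) (hL : l.length ≤ L) :
    ∑ α ∈ Finset.range L, ((l[α]?).map F).getD 0 = (l.map F).sum := by
  induction l generalizing L with
  | nil => simp
  | cons a l ih =>
    obtain ⟨L', rfl⟩ : ∃ L', L = L' + 1 := ⟨L - 1, by simp at hL; omega⟩
    rw [Finset.sum_range_succ']
    simp only [List.getElem?_cons_succ, List.getElem?_cons_zero, List.map_cons, List.sum_cons]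
    rw [ih L' (by simpa using hL)]
    simp [add_comm]

/-- if there are at most `L` break points, a sum over the break points is a sum over
`α < L` of the `bp u α`. -/
theorem sum_bp {u : ℝ → β} (h : PC u) {L : ℕ} (hL : (Bk u).ncard ≤ L) (F : ℝ → ℤ) :
    ∑ t ∈ h.toFinset, F t = ∑ α : Fin L, ((bp u α).map F).getD 0 := by
  have hbp : ∀ α : ℕ, bp u α = (h.toFinset.sort (· ≤ ·))[α]? := by
    intro α
    unfold bp
    exact dif_pos (show (Bk u).Finite from h)
  have hlen : (h.toFinset.sort (· ≤ ·)).length ≤ L := by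
    rw [Finset.length_sort, ← Set.ncard_eq_toFinset_card (Bk u) h]
    exact hL
  have h1 := E1b_list_sum (h.toFinset.sort (· ≤ ·)) F L hlen
  rw [Finset.sum_range] at h1
  have h2 : ∑ α : Fin L, ((bp u α).map F).getD 0 =
      ∑ α : Fin L, (((h.toFinset.sort (· ≤ ·))[(α : ℕ)]?).map F).getD 0 := by
    refine Finset.sum_congr rfl fun α _ => ?_
    rw [hbp]
  rw [h2, h1]
  rw [← Finset.sum_map_toList]
  exact (((Finset.sort_perm_toList _ _).map F).sum_eq).symm

theorem bp_mem {u : ℝ → β} {α : ℕ} {t : ℝ} (h : bp u α = some t) : t ∈ Bk u := by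
  unfold bp at h
  split_ifs at h with hfin
  have h1 := List.mem_of_getElem? h
  rw [Finset.mem_sort, Set.Finite.mem_toFinset] at h1
  exact h1

theorem exists_bp {u : ℝ → β} (h : PC u) {L : ℕ} (hL : (Bk u).ncard ≤ L) {t : ℝ} (ht : t ∈ Bk u) :
    ∃ α : Fin L, bp u α = some t := by
  have hbp : ∀ α : ℕ, bp u α = (h.toFinset.sort (· ≤ ·))[α]? := by
    intro α
    unfold bp
    exact dif_pos (show (Bk u).Finite from h)
  have hlen : (h.toFinset.sort (· ≤ ·)).length ≤ L := by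
    rw [Finset.length_sort, ← Set.ncard_eq_toFinset_card (Bk u) h]
    exact hL
  have h1 : t ∈ h.toFinset.sort (· ≤ ·) := by
    rw [Finset.mem_sort, Set.Finite.mem_toFinset]
    exact ht
  obtain ⟨i, hi⟩ := List.mem_iff_getElem?.1 h1
  have hi2 : i < (h.toFinset.sort (· ≤ ·)).length := by
    by_contra hcon
    rw [List.getElem?_eq_none (not_lt.1 hcon)] at hi
    exact absurd hi (by simp)
  exact ⟨⟨i, lt_of_lt_of_le hi2 hlen⟩, by rw [hbp]; exact hi⟩

end BU
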