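import Pool.Agent.Work.MP_4030f5_lc.Q3a

/-! # Q3: quantifier elimination over the reals (sign diagram form) -/

namespace BU

open Polynomial

/-- Quantifier elimination with bounds. -/
theorem qe (C : ℕ) : ∃ C' : ℕ, ∀ (σ : Type) (F : List (Fm (Option σ))), tsize F ≤ C →
    ∃ G : List (Fm σ), tsize G ≤ C' ∧ ∀ b b' : σ → ℝ, SgnEq G b b' →
      ∃ ψ : ℝ ≃o ℝ, ∀ e ∈ F, ∀ t, e.sgn (ext b t) = e.sgn (ext b' (ψ t)) := by
  obtain ⟨C1, hC1⟩ := SP.exists_of_fm C
  obtain ⟨C', hC'⟩ := qe_sp C1 (C * (C1 + 1))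
  refine ⟨C', fun σ F hF => ?_⟩
  have hmem : ∀ e ∈ F, e.size ≤ C := by
    intro e he
    exact (List.single_le_sum (fun _ _ => Nat.zero_le _) _ (List.mem_map_of_mem he)).trans hF
  have hex : ∀ e : Fm (Option σ), ∃ f : List (Fm σ), tsize f ≤ C1 ∧
      (e ∈ F → ∀ (b : σ → ℝ) (t : ℝ), (SP.at b f).eval t = e.eval (ext b t)) := by
    intro e
    by_cases he : e ∈ F
    · obtain ⟨f, hf1, hf2⟩ := hC1 σ e (hmem e he)
      exact ⟨f, hf1, fun _ => hf2⟩
    · exact ⟨[], Nat.zero_le _, fun h => absurd h he⟩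
  choose f hf1 hf2 using hex
  have hlen : F.length ≤ C := (Q2a_length_le F).trans hF
  obtain ⟨h1, h2⟩ := Q3a_Bd_map F hlen f (fun e _ => hf1 e)
  obtain ⟨G, hG1, hG2⟩ := hC' σ (F.map f) h1 h2 (by
    intro p hp
    obtain ⟨e, _, rfl⟩ := List.mem_map.mp hp
    exact (Q2a_length_le _).trans (hf1 e))
  refine ⟨G, hG1, fun b b' hb => ?_⟩
  obtain ⟨ψ, hψ⟩ := hG2 b b' hb
  refine ⟨ψ, fun e he t => ?_⟩
  have h3 := hψ (f e) (List.mem_map_of_mem he) t
  rwa [hf2 e he, hf2 e he] at h3

/-- Invariants of the sign diagram in the last variable are of bounded complexity. -/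
theorem Bdd.elim (C : ℕ) : ∃ C' : ℕ, ∀ (σ β γ : Type) (φ : (Option σ → ℝ) → β), Bdd C φ →
    ∀ H : (ℝ → β) → γ, (∀ (u : ℝ → β) (ψ : ℝ ≃o ℝ), H (fun t => u (ψ t)) = H u) →
      Bdd C' (fun b : σ → ℝ => H (fun t => φ (ext b t))) := by
  obtain ⟨C', hC'⟩ := qe C
  refine ⟨C', fun σ β γ φ hφ H hH => ?_⟩
  obtain ⟨F, hF1, hF2⟩ := hφ
  obtain ⟨G, hG1, hG2⟩ := hC' σ F hF1
  refine ⟨G, hG1, fun b b' hb => ?_⟩
  obtain ⟨ψ, hψ⟩ := hG2 b b' hb
  have h1 : (fun t => φ (ext b t)) = fun t => (fun s => φ (ext b' s)) (ψ t) := by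
    funext t
    exact hF2 _ _ (fun e he => hψ e he t)
  exact (congrArg H h1).trans (hH (fun s => φ (ext b' s)) ψ)

/-- The same for functions of `(a, y) ∈ ℝ^σ × ℝ^(q+1)`, eliminating the last coordinate. -/
theorem Bdd.elim_snoc (C : ℕ) : ∃ C' : ℕ, ∀ (σ β γ : Type) (q : ℕ)
    (φ : (σ → ℝ) → (Fin (q + 1) → ℝ) → β),
    Bdd C (fun z : σ ⊕ Fin (q + 1) → ℝ => φ (fun i => z (Sum.inl i)) (fun i => z (Sum.inr i))) →
    ∀ H : (ℝ → β) → γ, (∀ (u : ℝ → β) (ψ : ℝ ≃o ℝ), H (fun t => u (ψ t)) = H u) →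
      Bdd C' (fun z : σ ⊕ Fin q → ℝ =>
        H (fun t => φ (fun i => z (Sum.inl i)) (Fin.snoc (fun i => z (Sum.inr i)) t))) := by
  obtain ⟨C', hC'⟩ := Bdd.elim C
  refine ⟨C', fun σ β γ q φ hφ H hH => ?_⟩
  let r : σ ⊕ Fin (q + 1) → Option (σ ⊕ Fin q) :=
    Sum.elim (fun i => some (Sum.inl i)) (Fin.lastCases none (fun i => some (Sum.inr i)))
  have h1 := Bdd.rename hφ r
  have h2 := hC' (σ ⊕ Fin q) β γ _ h1 H hH
  have h3 : (fun b : σ ⊕ Fin q → ℝ => H (fun t =>
      (fun x : Option (σ ⊕ Fin q) → ℝ => φ (fun i => x (r (Sum.inl i)))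
        (fun i => x (r (Sum.inr i)))) (ext b t))) = fun z : σ ⊕ Fin q → ℝ =>
        H (fun t => φ (fun i => z (Sum.inl i)) (Fin.snoc (fun i => z (Sum.inr i)) t)) := by
    funext z
    congr 1
    funext t
    have e1 : (fun i => ext z t (r (Sum.inr i))) =
        (Fin.snoc (fun i => z (Sum.inr i)) t : Fin (q + 1) → ℝ) := by
      funext i
      refine Fin.lastCases ?_ (fun j => ?_) i
      · simp [r, ext]
      · simp [r, ext]
    have e2 : (fun i => ext z t (r (Sum.inl i))) = fun i => z (Sum.inl i) := rfl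
    change φ (fun i => ext z t (r (Sum.inl i))) (fun i => ext z t (r (Sum.inr i))) = _
    rw [e1, e2]
  rw [← h3]
  exact h2

/-- Tarski-Seidenberg: projections along one variable. -/
theorem SA.exists_option {σ : Type} {s : Set (Option σ → ℝ)} (hs : SA s) :
    SA {b : σ → ℝ | ∃ t, ext b t ∈ s} := by
  obtain ⟨F, hF⟩ := hs
  have h1 : Bdd (tsize F) (fun x : Option σ → ℝ => (x ∈ s : Prop)) :=
    ⟨F, le_rfl, fun x y hxy => propext (hF x y hxy)⟩
  obtain ⟨C', hC'⟩ := Bdd.elim (tsize F)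
  have h2 := hC' σ Prop Prop _ h1 (fun u => ∃ t, u t) (fun u ψ => propext
    ⟨fun ⟨t, ht⟩ => ⟨ψ t, ht⟩, fun ⟨t, ht⟩ => ⟨ψ.symm t, by
      change u (ψ (ψ.symm t))
      rwa [OrderIso.apply_symm_apply]⟩⟩)
  obtain ⟨G, _, hG⟩ := h2
  exact ⟨G, fun x y hxy => iff_of_eq (hG x y hxy)⟩

theorem Q3b_exists_equiv {τ τ' : Type} (e : τ ≃ τ')
    (h : ∀ (σ : Type) (P : (σ → ℝ) → (τ → ℝ) → Prop),
      SA {z : σ ⊕ τ → ℝ | P (fun i => z (Sum.inl i)) (fun i => z (Sum.inr i))} →
      SA {b : σ → ℝ | ∃ y : τ → ℝ, P b y})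
    (σ : Type) (P : (σ → ℝ) → (τ' → ℝ) → Prop)
    (hP : SA {z : σ ⊕ τ' → ℝ | P (fun i => z (Sum.inl i)) (fun i => z (Sum.inr i))}) :
    SA {b : σ → ℝ | ∃ y : τ' → ℝ, P b y} := by
  have h1 : SA {z : σ ⊕ τ → ℝ | P (fun i => z (Sum.inl i)) (fun i => z (Sum.inr (e.symm i)))} :=
    SA.rename hP (Sum.elim Sum.inl (fun i => Sum.inr (e.symm i)))
  have h2 := h σ (fun b y => P b (fun i => y (e.symm i))) h1
  have h3 : {b : σ → ℝ | ∃ y : τ → ℝ, P b (fun i => y (e.symm i))} =
      {b : σ → ℝ | ∃ y : τ' → ℝ, P b y} := by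
    ext b
    constructor
    · rintro ⟨y, hy⟩
      exact ⟨_, hy⟩
    · rintro ⟨y, hy⟩
      refine ⟨fun i => y (e i), ?_⟩
      simpa using hy
  rw [← h3]
  exact h2

/-- Tarski-Seidenberg: projections along finitely many variables. -/
theorem SA.exists {σ τ : Type} [Finite τ] {P : (σ → ℝ) → (τ → ℝ) → Prop}
    (h : SA {z : σ ⊕ τ → ℝ | P (fun i => z (Sum.inl i)) (fun i => z (Sum.inr i))}) :
    SA {b : σ → ℝ | ∃ y : τ → ℝ, P b y} := by
  have key : ∀ (τ : Type) [Finite τ], ∀ (σ : Type) (P : (σ → ℝ) → (τ → ℝ) → Prop),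
      SA {z : σ ⊕ τ → ℝ | P (fun i => z (Sum.inl i)) (fun i => z (Sum.inr i))} →
      SA {b : σ → ℝ | ∃ y : τ → ℝ, P b y} := by
    intro τ hτ
    induction τ using Finite.induction_empty_option with
    | of_equiv e ih => exact fun σ P hP => Q3b_exists_equiv e (fun σ P => ih σ P) σ P hP
    | h_empty =>
      intro σ P hP
      obtain ⟨F, hF⟩ := hP
      refine ⟨F.map (Fm.rename (Sum.elim id PEmpty.elim)), fun x y hxy => ?_⟩
      rw [SgnEq.rename] at hxy
      have h1 := hF _ _ hxy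
      simp only [Set.mem_ofPred_eq] at h1 ⊢
      constructor
      · rintro ⟨z, hz⟩
        refine ⟨z, ?_⟩
        have e1 : ∀ w : PEmpty → ℝ, w = z := fun w => funext fun i => i.elim
        have e2 := h1.mp (by
          rw [e1 (fun i => x (Sum.elim id PEmpty.elim (Sum.inr i)))]
          exact hz)
        rw [e1 (fun i => y (Sum.elim id PEmpty.elim (Sum.inr i)))] at e2
        exact e2
      · rintro ⟨z, hz⟩
        refine ⟨z, ?_⟩
        have e1 : ∀ w : PEmpty → ℝ, w = z := fun w => funext fun i => i.elim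
        have e2 := h1.mpr (by
          rw [e1 (fun i => y (Sum.elim id PEmpty.elim (Sum.inr i)))]
          exact hz)
        rw [e1 (fun i => x (Sum.elim id PEmpty.elim (Sum.inr i)))] at e2
        exact e2
    | h_option ih =>
      rename_i τ _
      intro σ P hP
      -- first eliminate `none`
      have h1 : SA {z : Option (σ ⊕ τ) → ℝ | P (fun i => z (some (Sum.inl i)))
          (fun i => Option.elim i (z none) (fun j => z (some (Sum.inr j))))} := by
        have h2 := SA.rename hP (Sum.elim (fun i => some (Sum.inl i))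
          (fun i => Option.elim i none (fun j => some (Sum.inr j))) :
            σ ⊕ Option τ → Option (σ ⊕ τ))
        have h3 : {x : Option (σ ⊕ τ) → ℝ | (fun i => x ((Sum.elim (fun i => some (Sum.inl i))
            (fun i => Option.elim i none (fun j => some (Sum.inr j))) :
            σ ⊕ Option τ → Option (σ ⊕ τ)) i)) ∈
            {z : σ ⊕ Option τ → ℝ | P (fun i => z (Sum.inl i)) (fun i => z (Sum.inr i))}} =
            {z : Option (σ ⊕ τ) → ℝ | P (fun i => z (some (Sum.inl i)))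
              (fun i => Option.elim i (z none) (fun j => z (some (Sum.inr j))))} := by
          ext z
          simp only [Set.mem_ofPred_eq]
          have e1 : (fun i : Option τ => z ((Sum.elim (fun i => some (Sum.inl i))
              (fun i => Option.elim i none (fun j => some (Sum.inr j))) :
              σ ⊕ Option τ → Option (σ ⊕ τ)) (Sum.inr i))) =
              fun i => Option.elim i (z none) (fun j => z (some (Sum.inr j))) := by
            funext i
            cases i <;> rfl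
          rw [e1]
          rfl
        rw [← h3]
        exact h2
      have h2 := SA.exists_option h1
      have h3 := ih σ (fun b y => ∃ t : ℝ, P b (fun i => Option.elim i t (fun j => y j))) h2
      have h4 : {b : σ → ℝ | ∃ y : τ → ℝ, ∃ t : ℝ, P b (fun i => Option.elim i t (fun j => y j))} =
          {b : σ → ℝ | ∃ y : Option τ → ℝ, P b y} := by
        ext b
        constructor
        · rintro ⟨y, t, hy⟩
          exact ⟨_, hy⟩
        · rintro ⟨y, hy⟩
          refine ⟨fun j => y (some j), y none, ?_⟩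
          have e1 : (fun i : Option τ => Option.elim i (y none) (fun j => y (some j))) = y := by
            funext i
            cases i <;> rfl
          change P b (fun i : Option τ => Option.elim i (y none) (fun j => y (some j)))
          rw [e1]
          exact hy
      rw [← h4]
      exact h3
  exact key τ σ P h

theorem SA.forall {σ τ : Type} [Finite τ] {P : (σ → ℝ) → (τ → ℝ) → Prop}
    (h : SA {z : σ ⊕ τ → ℝ | P (fun i => z (Sum.inl i)) (fun i => z (Sum.inr i))}) :
    SA {b : σ → ℝ | ∀ y : τ → ℝ, P b y} := by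
  have h1 : SA {z : σ ⊕ τ → ℝ | ¬ P (fun i => z (Sum.inl i)) (fun i => z (Sum.inr i))} :=
    SA.compl h
  have h2 := SA.compl (SA.exists (P := fun b y => ¬ P b y) h1)
  have h3 : {b : σ → ℝ | ∃ y : τ → ℝ, ¬ P b y}ᶜ = {b : σ → ℝ | ∀ y : τ → ℝ, P b y} := by
    ext b
    simp
  rw [← h3]
  exact h2

/-- the polynomial of an expression in the variable `none` -/
noncomputable def Q3b_poly {σ : Type} (b : σ → ℝ) : Fm (Option σ) → ℝ[X]
  | .var none => X
  | .var (some i) => C (b i)
  | .const c => C (c : ℝ)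
  | .add e f => Q3b_poly b e + Q3b_poly b f
  | .mul e f => Q3b_poly b e * Q3b_poly b f

theorem Q3b_poly_eval {σ : Type} (b : σ → ℝ) (t : ℝ) (e : Fm (Option σ)) :
    (Q3b_poly b e).eval t = e.eval (ext b t) := by
  induction e with
  | var i => cases i <;> simp [Q3b_poly, Fm.eval, ext]
  | const c => simp [Q3b_poly, Fm.eval]
  | add e f he hf => rw [Q3b_poly, eval_add, he, hf, Fm.eval]
  | mul e f he hf => rw [Q3b_poly, eval_mul, he, hf, Fm.eval]

theorem Q3b_poly_natDegree {σ : Type} (b : σ → ℝ) (e : Fm (Option σ)) :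
    (Q3b_poly b e).natDegree ≤ e.size := by
  induction e with
  | var i =>
    cases i with
    | none => simp [Q3b_poly, Fm.size]
    | some i => simp [Q3b_poly]
  | const c =>
    rw [Q3b_poly, natDegree_C]
    exact Nat.zero_le _
  | add e f he hf =>
    rw [Q3b_poly, Fm.size]
    refine (natDegree_add_le _ _).trans (max_le ?_ ?_) <;> omega
  | mul e f he hf =>
    rw [Q3b_poly, Fm.size]
    refine natDegree_mul_le.trans ?_
    omega

/-- For a function of bounded complexity the number of break points in the last variable is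
bounded. -/
theorem Bdd.break_points (C : ℕ) {σ β : Type} {φ : (Option σ → ℝ) → β} (hφ : Bdd C φ)
    (b : σ → ℝ) : {t : ℝ | ¬ ∀ᶠ s in nhds t, φ (ext b s) = φ (ext b t)}.Finite ∧
      {t : ℝ | ¬ ∀ᶠ s in nhds t, φ (ext b s) = φ (ext b t)}.ncard ≤ C := by
  classical
  obtain ⟨F, hF1, hF2⟩ := hφ
  let R : Finset ℝ := (F.map fun e => (Q3b_poly b e).roots.toFinset).foldr (· ∪ ·) ∅
  have hR : ∀ e ∈ F, ∀ t, (Q3b_poly b e) ≠ 0 → (Q3b_poly b e).eval t = 0 → t ∈ R := by
    intro e he t h0 ht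
    have h1 : t ∈ (Q3b_poly b e).roots.toFinset := by
      rw [Multiset.mem_toFinset, mem_roots h0]
      exact ht
    have h2 : ∀ l : List (Fm (Option σ)), e ∈ l →
        t ∈ (l.map fun e => (Q3b_poly b e).roots.toFinset).foldr (· ∪ ·) ∅ := by
      intro l
      induction l with
      | nil => intro h; exact absurd h List.not_mem_nil
      | cons a l ih =>
        intro h
        rw [List.map_cons, List.foldr_cons, Finset.mem_union]
        rcases List.mem_cons.mp h with h3 | h3
        · left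
          rw [← h3]
          exact h1
        · exact Or.inr (ih h3)
    exact h2 F he
  have hcard : R.card ≤ tsize F := by
    have h2 : ∀ l : List (Fm (Option σ)),
        ((l.map fun e => (Q3b_poly b e).roots.toFinset).foldr (· ∪ ·) ∅).card ≤ tsize l := by
      intro l
      induction l with
      | nil => simp [tsize]
      | cons a l ih =>
        rw [List.map_cons, List.foldr_cons, Q2a_tsize_cons]
        refine (Finset.card_union_le _ _).trans (Nat.add_le_add ?_ ih)
        exact (Multiset.toFinset_card_le _).trans ((card_roots' _).trans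
          (Q3b_poly_natDegree b a))
    exact h2 F
  have hsub : {t : ℝ | ¬ ∀ᶠ s in nhds t, φ (ext b s) = φ (ext b t)} ⊆ (R : Set ℝ) := by
    intro t ht
    by_contra hcon
    apply ht
    have h1 : ∀ e ∈ F, ∀ᶠ s in nhds t, e.sgn (ext b s) = e.sgn (ext b t) := by
      intro e he
      by_cases h0 : Q3b_poly b e = 0
      · refine Filter.Eventually.of_forall fun s => ?_
        rw [Fm.sgn, Fm.sgn, ← Q3b_poly_eval, ← Q3b_poly_eval, h0, eval_zero, eval_zero]
      · have h2 : (Q3b_poly b e).eval t ≠ 0 := fun h3 => hcon (hR e he t h0 h3)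
        have h3 : ContinuousAt (fun s => (Q3b_poly b e).eval s) t :=
          (Q3b_poly b e).continuous.continuousAt
        rcases lt_or_gt_of_ne h2 with h4 | h4
        · have h5 := h3.eventually (gt_mem_nhds h4)
          filter_upwards [h5] with s hs
          rw [Fm.sgn, Fm.sgn, ← Q3b_poly_eval, ← Q3b_poly_eval, sign_neg hs, sign_neg h4]
        · have h5 := h3.eventually (lt_mem_nhds h4)
          filter_upwards [h5] with s hs
          rw [Fm.sgn, Fm.sgn, ← Q3b_poly_eval, ← Q3b_poly_eval, sign_pos hs, sign_pos h4]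
    have h2 : ∀ᶠ s in nhds t, ∀ e ∈ F, e.sgn (ext b s) = e.sgn (ext b t) := by
      have h3 := (List.finite_toSet F)
      exact (Filter.eventually_all_finite h3).mpr h1
    filter_upwards [h2] with s hs
    exact hF2 _ _ hs
  refine ⟨R.finite_toSet.subset hsub, ?_⟩
  refine (Set.ncard_le_ncard hsub R.finite_toSet).trans ?_
  rw [Set.ncard_coe_finset]
  exact hcard.trans hF1

end BU
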