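import Pool.Agent.Work.MP_4030f5_lc.E1a
import Pool.Agent.Work.MP_4030f5_lc.E1b
import Pool.Agent.Work.MP_4030f5_lc.Q3b

/-! # E2: iterated Euler integrals of tame functions -/

namespace BU

/-- uncurried bounded complexity for functions of a parameter point and a point of `ℝ^q`. -/
def BddF {σ β : Type} {q : ℕ} (C : ℕ) (φ : (σ → ℝ) → (Fin q → ℝ) → β) : Prop :=
  Bdd C (fun z : σ ⊕ Fin q → ℝ => φ (fun i => z (Sum.inl i)) (fun i => z (Sum.inr i)))

/-- tame functions on `ℝ^q`. -/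
def Tame {q : ℕ} (f : (Fin q → ℝ) → ℤ) : Prop :=
  ∃ (σ : Type) (C : ℕ) (φ : (σ → ℝ) → (Fin q → ℝ) → ℤ) (a : σ → ℝ), BddF C φ ∧ f = φ a

private theorem E2_snoc {q : ℕ} {α : Type} (x : α → ℝ) (g : Fin q → α) (a : α) :
    (fun j => x ((Fin.snoc g a : Fin (q + 1) → α) j)) = (Fin.snoc (fun i => x (g i)) (x a) :
      Fin (q + 1) → ℝ) := by
  funext j
  refine Fin.lastCases ?_ (fun i => ?_) j
  · simp
  · simp

private theorem E2_optBdd {σ β : Type} {q C : ℕ} {φ : (σ → ℝ) → (Fin (q + 1) → ℝ) → β}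
    (h : BddF C φ) : Bdd C (fun x : Option (σ ⊕ Fin q) → ℝ =>
      φ (fun i => x (some (Sum.inl i))) (Fin.snoc (fun i => x (some (Sum.inr i))) (x none))) := by
  have h1 := Bdd.rename h (Sum.elim (fun i => some (Sum.inl i))
    (Fin.snoc (fun i => some (Sum.inr i)) none : Fin (q + 1) → Option (σ ⊕ Fin q)))
  have e : (fun x : Option (σ ⊕ Fin q) → ℝ =>
      φ (fun i => x (some (Sum.inl i))) (Fin.snoc (fun i => x (some (Sum.inr i))) (x none))) =
      (fun x => (fun z : σ ⊕ Fin (q + 1) → ℝ => φ (fun i => z (Sum.inl i)) (fun i => z (Sum.inr i)))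
        (fun i => x (Sum.elim (fun i => some (Sum.inl i))
          (Fin.snoc (fun i => some (Sum.inr i)) none : Fin (q + 1) → Option (σ ⊕ Fin q)) i))) := by
    funext x
    simp only [Sum.elim_inl, Sum.elim_inr]
    rw [E2_snoc]
  rw [e]
  exact h1

theorem BddF.pc {σ β : Type} {q C : ℕ} {φ : (σ → ℝ) → (Fin (q + 1) → ℝ) → β} (h : BddF C φ)
    (a : σ → ℝ) (y : Fin q → ℝ) : PC (fun t => φ a (Fin.snoc y t)) ∧
      (Bk (fun t => φ a (Fin.snoc y t))).ncard ≤ C :=
  Bdd.break_points C (E2_optBdd h) (Sum.elim a y)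

private theorem E2_rename {σ τ β : Type} {q C : ℕ} {φ : (σ → ℝ) → (Fin q → ℝ) → β}
    (h : BddF C φ) (r : σ → τ) : BddF C (fun a y => φ (fun i => a (r i)) y) :=
  Bdd.rename h (Sum.map r id)

private theorem E2_map2 {q : ℕ} {f g : (Fin q → ℝ) → ℤ} (hf : Tame f) (hg : Tame g)
    (F : ℤ → ℤ → ℤ) : Tame (fun y => F (f y) (g y)) := by
  obtain ⟨σ, C, φ, a, hφ, rfl⟩ := hf
  obtain ⟨τ, D, ψ, b, hψ, rfl⟩ := hg
  have h1 := E2_rename hφ (Sum.inl : σ → σ ⊕ τ)
  have h2 := E2_rename hψ (Sum.inr : τ → σ ⊕ τ)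
  refine ⟨σ ⊕ τ, C + D, fun z y => F (φ (fun i => z (Sum.inl i)) y) (ψ (fun i => z (Sum.inr i)) y),
    Sum.elim a b, ?_, rfl⟩
  exact (Bdd.prod h1 h2).comp (fun p => F p.1 p.2)

theorem Tame.add {q : ℕ} {f g : (Fin q → ℝ) → ℤ} (hf : Tame f) (hg : Tame g) :
    Tame (fun y => f y + g y) := E2_map2 hf hg (fun a b => a + b)

theorem Tame.neg {q : ℕ} {f : (Fin q → ℝ) → ℤ} (hf : Tame f) : Tame (fun y => - f y) :=
  E2_map2 hf hf (fun a _ => -a)

theorem Tame.mul {q : ℕ} {f g : (Fin q → ℝ) → ℤ} (hf : Tame f) (hg : Tame g) :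
    Tame (fun y => f y * g y) := E2_map2 hf hg (fun a b => a * b)

theorem Tame.const {q : ℕ} (c : ℤ) : Tame (fun _ : Fin q → ℝ => c) :=
  ⟨Empty, 0, fun _ _ => c, Empty.elim, Bdd.const c, rfl⟩

theorem Tame.sum {q : ℕ} {ι : Type} (s : Finset ι) {f : ι → (Fin q → ℝ) → ℤ}
    (hf : ∀ i ∈ s, Tame (f i)) : Tame (fun y => ∑ i ∈ s, f i y) := by
  classical
  induction s using Finset.induction_on with
  | empty => simpa using Tame.const 0
  | insert i s hi ih =>
    simp only [Finset.sum_insert hi]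
    exact Tame.add (hf i (Finset.mem_insert_self i s))
      (ih fun j hj => hf j (Finset.mem_insert_of_mem hj))

theorem Tame.prod {q : ℕ} {ι : Type} (s : Finset ι) {f : ι → (Fin q → ℝ) → ℤ}
    (hf : ∀ i ∈ s, Tame (f i)) : Tame (fun y => ∏ i ∈ s, f i y) := by
  classical
  induction s using Finset.induction_on with
  | empty => simpa using Tame.const 1
  | insert i s hi ih =>
    simp only [Finset.prod_insert hi]
    exact Tame.mul (hf i (Finset.mem_insert_self i s))
      (ih fun j hj => hf j (Finset.mem_insert_of_mem hj))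

theorem Tame.pc {q : ℕ} {f : (Fin (q + 1) → ℝ) → ℤ} (hf : Tame f) (y : Fin q → ℝ) :
    PC (fun t => f (Fin.snoc y t)) := by
  obtain ⟨σ, C, φ, a, hφ, rfl⟩ := hf
  exact (BddF.pc hφ a y).1

theorem Tame.EI1 {q : ℕ} {f : (Fin (q + 1) → ℝ) → ℤ} (hf : Tame f) :
    Tame (fun y : Fin q → ℝ => BU.EI1 (fun t => f (Fin.snoc y t))) := by
  obtain ⟨σ, C, φ, a, hφ, rfl⟩ := hf
  obtain ⟨C', hC'⟩ := Bdd.elim_snoc C
  refine ⟨σ, C', fun a y => BU.EI1 (fun t => φ a (Fin.snoc y t)), a, ?_, rfl⟩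
  exact hC' σ ℤ ℤ q φ hφ BU.EI1 (fun u ψ => EI1_reparam u ψ)

theorem EI_add {q : ℕ} {f g : (Fin q → ℝ) → ℤ} (hf : Tame f) (hg : Tame g) :
    EI q (fun y => f y + g y) = EI q f + EI q g := by
  induction q with
  | zero => rfl
  | succ q ih =>
    show EI q (fun y => BU.EI1 (fun t => f (Fin.snoc y t) + g (Fin.snoc y t))) =
      EI q (fun y => BU.EI1 (fun t => f (Fin.snoc y t))) +
        EI q (fun y => BU.EI1 (fun t => g (Fin.snoc y t)))
    rw [← ih hf.EI1 hg.EI1]
    congr 1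
    funext y
    exact EI1_add (hf.pc y) (hg.pc y)

theorem EI_neg {q : ℕ} {f : (Fin q → ℝ) → ℤ} (hf : Tame f) : EI q (fun y => - f y) = - EI q f := by
  induction q with
  | zero => rfl
  | succ q ih =>
    show EI q (fun y => BU.EI1 (fun t => - f (Fin.snoc y t))) =
      - EI q (fun y => BU.EI1 (fun t => f (Fin.snoc y t)))
    rw [← ih hf.EI1]
    congr 1
    funext y
    exact EI1_neg (hf.pc y)

private theorem E2_zero (q : ℕ) : EI q (fun _ => 0) = 0 := by
  induction q with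
  | zero => rfl
  | succ q ih =>
    show EI q (fun _ => BU.EI1 (fun _ => 0)) = 0
    rw [EI1_const]
    exact ih

theorem EI_sum {q : ℕ} {ι : Type} (s : Finset ι) {f : ι → (Fin q → ℝ) → ℤ}
    (hf : ∀ i ∈ s, Tame (f i)) : EI q (fun y => ∑ i ∈ s, f i y) = ∑ i ∈ s, EI q (f i) := by
  classical
  induction s using Finset.induction_on with
  | empty => simpa using E2_zero q
  | insert i s hi ih =>
    simp only [Finset.sum_insert hi]
    rw [EI_add (hf i (Finset.mem_insert_self i s))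
      (Tame.sum s fun j hj => hf j (Finset.mem_insert_of_mem hj)),
      ih fun j hj => hf j (Finset.mem_insert_of_mem hj)]

theorem EI_const {q : ℕ} (c : ℤ) : EI (q + 1) (fun _ => c) = 0 := by
  show EI q (fun _ => BU.EI1 (fun _ => c)) = 0
  rw [EI1_const]
  exact E2_zero q

theorem EI_eq_EI' (q : ℕ) (f : (Fin q → ℝ) → ℤ) : EI q f = EI' q f := by
  induction q using Nat.strong_induction_on with
  | _ q ih =>
    match q, ih, f with
    | 0, _, f => rfl
    | 1, _, f =>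
      show BU.EI1 (fun t => f (Fin.snoc Fin.elim0 t)) = BU.EI1 (fun t => f (Fin.cons t Fin.elim0))
      congr 1
      funext t
      congr 1
      funext j
      exact Fin.cases rfl (fun i => i.elim0) j
    | q + 2, ih, f =>
      have h1 : EI (q + 2) f = EI (q + 1) (fun y => BU.EI1 (fun t => f (Fin.snoc y t))) := rfl
      have h2 : EI' (q + 2) f = BU.EI1 (fun s => EI' (q + 1) (fun y => f (Fin.cons s y))) := rfl
      rw [h1, ih (q + 1) (by omega), h2]
      show BU.EI1 (fun s => EI' q (fun y => BU.EI1 (fun t => f (Fin.snoc (Fin.cons s y) t)))) = _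
      congr 1
      funext s
      rw [← ih q (by omega), ← ih (q + 1) (by omega)]
      show _ = EI q (fun y => BU.EI1 (fun t => f (Fin.cons s (Fin.snoc y t))))
      congr 1
      funext y
      congr 1
      funext t
      rw [Fin.cons_snoc_eq_snoc_cons]

end BU
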