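import Pool.Agent.Work.MP_4030f5_lc.E1a
import Pool.Agent.Work.MP_4030f5_lc.E1b

/-! # E3: the telescoping recursion -/

namespace BU

/-- a weight `w` and `n` factors `g i` on `ℝ^q`. -/
structure Lev (n q : ℕ) where
  w : (Fin q → ℝ) → ℤ
  g : Fin n → (Fin q → ℝ) → ℤ

/-- the product `w ∏ g_i`. -/
def Lev.F {n q : ℕ} (ℓ : Lev n q) (y : Fin q → ℝ) : ℤ := ℓ.w y * ∏ i, ℓ.g i y

abbrev Step (n L : ℕ) : Type := Option (Fin n) × Fin L

/-- restriction to the `α`-th break point in the last variable of `w` (for `(none, α)`) or of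
`g j` (for `(some j, α)`), with the telescoping weights. -/
noncomputable def Lev.step {n q L : ℕ} (ℓ : Lev n (q + 1)) (s : Step n L) : Lev n q where
  w y :=
    match s.1 with
    | none =>
      match bp (fun t => ℓ.w (Fin.snoc y t)) s.2 with
      | none => 0
      | some b => ℓ.w (Fin.snoc y b) - rl (fun t => ℓ.w (Fin.snoc y t)) b
    | some j =>
      match bp (fun t => ℓ.g j (Fin.snoc y t)) s.2 with
      | none => 0
      | some b => rl (fun t => ℓ.w (Fin.snoc y t)) b *
          (ℓ.g j (Fin.snoc y b) - rl (fun t => ℓ.g j (Fin.snoc y t)) b)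
  g i y :=
    match s.1 with
    | none =>
      match bp (fun t => ℓ.w (Fin.snoc y t)) s.2 with
      | none => 1
      | some b => ℓ.g i (Fin.snoc y b)
    | some j =>
      if i = j then 1 else
      match bp (fun t => ℓ.g j (Fin.snoc y t)) s.2 with
      | none => 1
      | some b => if i < j then rl (fun t => ℓ.g i (Fin.snoc y t)) b else ℓ.g i (Fin.snoc y b)

/-- iterate the steps down to dimension one. -/
noncomputable def Lev.rows {n L : ℕ} : (q : ℕ) → Lev n (q + 1) → (Fin q → Step n L) → Lev n 1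
  | 0, ℓ, _ => ℓ
  | q + 1, ℓ, κ => Lev.rows q (ℓ.step (κ 0)) (Fin.tail κ)

/-- telescoping of a product over `Fin n`. -/
theorem E3a_telescope {n : ℕ} (a b : Fin n → ℤ) :
    ∏ i, a i - ∏ i, b i =
      ∑ j, (a j - b j) * ∏ i, (if i = j then 1 else if i < j then b i else a i) := by
  induction n with
  | zero => simp
  | succ n ih =>
    rw [Fin.sum_univ_succ, Fin.prod_univ_succ, Fin.prod_univ_succ (f := b)]
    have h0 : ∏ i : Fin (n + 1), (if i = 0 then 1 else if i < 0 then b i else a i) =
        ∏ i : Fin n, a i.succ := by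
      rw [Fin.prod_univ_succ]
      simp [Fin.succ_ne_zero]
    have h1 : ∀ j : Fin n, ∏ i : Fin (n + 1),
        (if i = j.succ then 1 else if i < j.succ then b i else a i) =
        b 0 * ∏ i : Fin n, (if i = j then 1 else if i < j then b i.succ else a i.succ) := by
      intro j
      rw [Fin.prod_univ_succ, if_neg (Fin.succ_ne_zero j).symm, if_pos (Fin.succ_pos j)]
      congr 1
      refine Finset.prod_congr rfl fun i _ => ?_
      simp only [Fin.succ_inj, Fin.succ_lt_succ_iff]
    simp only [h0, h1]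
    have h2 := ih (fun i => a i.succ) (fun i => b i.succ)
    have h3 : ∑ j : Fin n, (a j.succ - b j.succ) *
        (b 0 * ∏ i : Fin n, (if i = j then 1 else if i < j then b i.succ else a i.succ)) =
        b 0 * ∑ j : Fin n, (a j.succ - b j.succ) *
          ∏ i : Fin n, (if i = j then 1 else if i < j then b i.succ else a i.succ) := by
      rw [Finset.mul_sum]
      exact Finset.sum_congr rfl fun j _ => by ring
    rw [h3, ← h2]
    ring

/-- sum over a superset of the break points. -/
theorem E3a_sum {u : ℝ → ℤ} (h : PC u) {L : ℕ} (hL : (Bk u).ncard ≤ L) {A : Finset ℝ}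
    (hA : Bk u ⊆ A) (F : ℝ → ℤ) (hF : ∀ t, t ∉ Bk u → F t = 0) :
    ∑ t ∈ A, F t = ∑ α : Fin L, ((bp u α).map F).getD 0 := by
  rw [← sum_bp h hL F]
  symm
  refine Finset.sum_subset ?_ ?_
  · intro t ht
    exact hA ((Set.Finite.mem_toFinset _).1 ht)
  · intro t _ ht
    exact hF t fun h0 => ht ((Set.Finite.mem_toFinset _).2 h0)

/-- telescoping: pointwise identity. -/
theorem EI1_step {n q L : ℕ} (ℓ : Lev n (q + 1)) (y : Fin q → ℝ)
    (hw : PC (fun t => ℓ.w (Fin.snoc y t))) (hwL : (Bk (fun t => ℓ.w (Fin.snoc y t))).ncard ≤ L)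
    (hg : ∀ i, PC (fun t => ℓ.g i (Fin.snoc y t)))
    (hgL : ∀ i, (Bk (fun t => ℓ.g i (Fin.snoc y t))).ncard ≤ L) :
    EI1 (fun t => ℓ.F (Fin.snoc y t)) = ∑ s : Step n L, (ℓ.step s).F y := by
  classical
  set W : ℝ → ℤ := fun t => ℓ.w (Fin.snoc y t) with hW
  set G : Fin n → ℝ → ℤ := fun i t => ℓ.g i (Fin.snoc y t) with hG
  have hPC : PC (fun t => (W t, fun i => G i t)) := hw.prod (PC.pi hg)
  have hF : ∀ t, ℓ.F (Fin.snoc y t) = W t * ∏ i, G i t := fun t => rfl
  obtain ⟨A, hA⟩ : ∃ A : Finset ℝ, Bk (fun t => (W t, fun i => G i t)) ⊆ A :=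
    ⟨Set.Finite.toFinset hPC, fun t ht => by simpa using ht⟩
  have hsub : ∀ {γ : Type} (f : (ℤ × (Fin n → ℤ)) → γ),
      Bk (fun t => f (W t, fun i => G i t)) ⊆ A := by
    intro γ f
    refine Set.Subset.trans ?_ hA
    intro t ht ht'
    refine ht (ht'.mono fun s hs => ?_)
    exact congrArg f hs
  have hWA : Bk W ⊆ A := hsub (fun p => p.1)
  have hGA : ∀ i, Bk (G i) ⊆ A := fun i => hsub (fun p => p.2 i)
  have hFA : Bk (fun t => ℓ.F (Fin.snoc y t)) ⊆ A := hsub (fun p => p.1 * ∏ i, p.2 i)
  rw [EI1_eq_sum hFA]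
  have hpt : ∀ t, ℓ.F (Fin.snoc y t) - rl (fun t => ℓ.F (Fin.snoc y t)) t =
      (W t - rl W t) * ∏ i, G i t + ∑ j, rl W t * (G j t - rl (G j) t) *
        ∏ i, (if i = j then 1 else if i < j then rl (G i) t else G i t) := by
    intro t
    have h1 : rl (fun t => ℓ.F (Fin.snoc y t)) t = rl W t * ∏ i, rl (G i) t := by
      have hprodPC : PC (fun t => ∏ i, G i t) := (PC.pi hg).comp (fun p => ∏ i, p i)
      have h2 := rl_mul hw hprodPC t
      have h3 := rl_prod (Finset.univ) (u := G) (fun i _ => hg i) t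
      rw [h3] at h2
      exact h2
    rw [h1, hF]
    have h4 := E3a_telescope (fun i => G i t) (fun i => rl (G i) t)
    have h5 : ∑ j, rl W t * (G j t - rl (G j) t) *
        ∏ i, (if i = j then 1 else if i < j then rl (G i) t else G i t) =
        rl W t * ∑ j, (G j t - rl (G j) t) *
          ∏ i, (if i = j then 1 else if i < j then rl (G i) t else G i t) := by
      rw [Finset.mul_sum]
      exact Finset.sum_congr rfl fun j _ => by ring
    rw [h5, ← h4]
    ring
  rw [Finset.sum_congr rfl fun t _ => hpt t, Finset.sum_add_distrib, Finset.sum_comm]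
  rw [Fintype.sum_prod_type, Fintype.sum_option]
  congr 1
  · rw [E3a_sum hw hwL hWA (fun t => (W t - rl W t) * ∏ i, G i t) ?_]
    · refine Finset.sum_congr rfl fun α _ => ?_
      simp only [Lev.F, Lev.step]
      rw [← hW]
      cases hb : bp W α with
      | none => simp
      | some b => simp [hW, hG]
    · intro t ht
      rw [rl_eq_self ht, sub_self, zero_mul]
  · refine Finset.sum_congr rfl fun j _ => ?_
    rw [E3a_sum (hg j) (hgL j) (hGA j) (fun t => rl W t * (G j t - rl (G j) t) *
        ∏ i, (if i = j then 1 else if i < j then rl (G i) t else G i t)) ?_]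
    · refine Finset.sum_congr rfl fun α _ => ?_
      simp only [Lev.F, Lev.step]
      have hGj : (fun t => ℓ.g j (Fin.snoc y t)) = G j := rfl
      rw [hGj]
      cases hb : bp (G j) α with
      | none => simp
      | some b => simp [hW, hG]
    · intro t ht
      rw [rl_eq_self ht, sub_self, mul_zero, zero_mul]

end BU
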