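import Pool.Agent.Work.MP_4030f5_lc.E3a
import Pool.Agent.Work.MP_4030f5_lc.E2

/-! # E3: the telescoping recursion -/

namespace BU

/-- bounded complexity for parametrised levels -/
def BddLev {σ : Type} {n q : ℕ} (C : ℕ) (Λ : (σ → ℝ) → Lev n q) : Prop :=
  BddF C (fun a y => (Λ a).w y) ∧ ∀ i, BddF C (fun a y => (Λ a).g i y)

private theorem E3b_key (C : ℕ) : ∃ C' : ℕ, ∀ (σ : Type) (q : ℕ)
    (φ ψ : (σ → ℝ) → (Fin (q + 1) → ℝ) → ℤ), BddF C φ → BddF C ψ →
    ∀ H : (ℝ → ℤ × ℤ) → ℤ, (∀ (u : ℝ → ℤ × ℤ) (χ : ℝ ≃o ℝ), H (fun t => u (χ t)) = H u) →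
      BddF C' (fun a y => H (fun t => (φ a (Fin.snoc y t), ψ a (Fin.snoc y t)))) := by
  obtain ⟨C', hC'⟩ := Bdd.elim_snoc (C + C)
  refine ⟨C', fun σ q φ ψ hφ hψ H hH => ?_⟩
  exact hC' σ (ℤ × ℤ) ℤ q (fun a y => (φ a y, ψ a y)) (Bdd.prod hφ hψ) H hH

/-- the functions of two piecewise constant functions in the step -/
private noncomputable def E3b_H (d : ℤ) (α : ℕ) (F : (ℝ → ℤ × ℤ) → ℝ → ℤ) (u : ℝ → ℤ × ℤ) : ℤ :=
  match bp (fun t => (u t).1) α with
  | none => d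
  | some b => F u b

private theorem E3b_inv (d : ℤ) (α : ℕ) (F : (ℝ → ℤ × ℤ) → ℝ → ℤ)
    (hF : ∀ (u : ℝ → ℤ × ℤ) (χ : ℝ ≃o ℝ) (b : ℝ), F (fun t => u (χ t)) (χ.symm b) = F u b)
    (u : ℝ → ℤ × ℤ) (χ : ℝ ≃o ℝ) : E3b_H d α F (fun t => u (χ t)) = E3b_H d α F u := by
  unfold E3b_H
  have h := bp_reparam (fun t => (u t).1) χ α
  rw [h]
  cases bp (fun t => (u t).1) α with
  | none => rfl
  | some b => exact hF u χ b

theorem BddLev.step (C : ℕ) : ∃ C' : ℕ, ∀ (σ : Type) (n q L : ℕ) (Λ : (σ → ℝ) → Lev n (q + 1)),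
    BddLev C Λ → ∀ s : Step n L, BddLev C' (fun a => (Λ a).step s) := by
  obtain ⟨C', hC'⟩ := E3b_key C
  refine ⟨C' + 0, fun σ n q L Λ hΛ s => ?_⟩
  obtain ⟨o, α⟩ := s
  obtain ⟨hw, hg⟩ := hΛ
  cases o with
  | none =>
    refine ⟨?_, fun i => ?_⟩
    · have h := hC' σ q _ _ hw hw (E3b_H 0 α (fun u b => (u b).1 - rl (fun t => (u t).1) b))
        (E3b_inv 0 α _ (fun u χ b => by
          have h1 := rl_reparam (fun t => (u t).1) χ (χ.symm b)
          show (u (χ (χ.symm b))).1 - rl (fun t => (u (χ t)).1) (χ.symm b) = _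
          rw [h1, OrderIso.apply_symm_apply]))
      exact h
    · have h := hC' σ q _ _ hw (hg i) (E3b_H 1 α (fun u b => (u b).2))
        (E3b_inv 1 α _ (fun u χ b => by
          show (u (χ (χ.symm b))).2 = _
          rw [OrderIso.apply_symm_apply]))
      exact h
  | some j =>
    refine ⟨?_, fun i => ?_⟩
    · have h := hC' σ q _ _ (hg j) hw (E3b_H 0 α (fun u b => rl (fun t => (u t).2) b *
          ((u b).1 - rl (fun t => (u t).1) b)))
        (E3b_inv 0 α _ (fun u χ b => by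
          have h1 := rl_reparam (fun t => (u t).1) χ (χ.symm b)
          have h2 := rl_reparam (fun t => (u t).2) χ (χ.symm b)
          show rl (fun t => (u (χ t)).2) (χ.symm b) *
            ((u (χ (χ.symm b))).1 - rl (fun t => (u (χ t)).1) (χ.symm b)) = _
          rw [h1, h2, OrderIso.apply_symm_apply]))
      exact h
    · by_cases hij : i = j
      · have e : (fun (a : σ → ℝ) (y : Fin q → ℝ) =>
            ((Λ a).step ((some j, α) : Step n L)).g i y) = fun _ _ => 1 := by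
          funext a y
          simp [Lev.step, hij]
        rw [e]
        exact Bdd.mono (Nat.zero_le _) (Bdd.const 1)
      · have h := hC' σ q _ _ (hg j) (hg i) (E3b_H 1 α
          (fun u b => if i < j then rl (fun t => (u t).2) b else (u b).2))
          (E3b_inv 1 α _ (fun u χ b => by
            have h2 := rl_reparam (fun t => (u t).2) χ (χ.symm b)
            show (if i < j then rl (fun t => (u (χ t)).2) (χ.symm b) else
              (u (χ (χ.symm b))).2) = _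
            rw [h2, OrderIso.apply_symm_apply]))
        have e : (fun (a : σ → ℝ) (y : Fin q → ℝ) =>
            ((Λ a).step ((some j, α) : Step n L)).g i y) = fun a y => E3b_H 1 α
          (fun u b => if i < j then rl (fun t => (u t).2) b else (u b).2)
            (fun t => ((Λ a).g j (Fin.snoc y t), (Λ a).g i (Fin.snoc y t))) := by
          funext a y
          simp only [Lev.step, if_neg hij]
          rfl
        rw [e]
        exact h

theorem BddLev.rows (C q : ℕ) : ∃ C' : ℕ, ∀ (σ : Type) (n L : ℕ) (Λ : (σ → ℝ) → Lev n (q + 1)),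
    BddLev C Λ → ∀ κ : Fin q → Step n L, BddLev C' (fun a => Lev.rows q (Λ a) κ) := by
  induction q generalizing C with
  | zero => exact ⟨C, fun σ n L Λ hΛ κ => hΛ⟩
  | succ q ih =>
    obtain ⟨C₁, h₁⟩ := BddLev.step C
    obtain ⟨C₂, h₂⟩ := ih C₁
    refine ⟨C₂, fun σ n L Λ hΛ κ => ?_⟩
    exact h₂ σ n L (fun a => (Λ a).step (κ 0)) (h₁ σ n (q + 1) L Λ hΛ (κ 0)) (Fin.tail κ)

private theorem E3b_tame {σ : Type} {n q C : ℕ} {Λ : (σ → ℝ) → Lev n q} (h : BddLev C Λ)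
    (a : σ → ℝ) : Tame (Λ a).F := by
  refine Tame.mul (f := (Λ a).w) (g := fun y => ∏ i, (Λ a).g i y) ?_ ?_
  · exact ⟨σ, C, fun a y => (Λ a).w y, a, h.1, rfl⟩
  · refine Tame.prod Finset.univ (f := fun i => (Λ a).g i) (fun i _ => ?_)
    exact ⟨σ, C, fun a y => (Λ a).g i y, a, h.2 i, rfl⟩

/-- the iterated Euler integral is the sum over the rows. -/
theorem EI_rows (C q : ℕ) : ∃ L₀ : ℕ, ∀ L ≥ L₀, ∀ (σ : Type) (n : ℕ)
    (Λ : (σ → ℝ) → Lev n (q + 1)), BddLev C Λ → ∀ a,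
      EI (q + 1) (Λ a).F = ∑ κ : Fin q → Step n L, EI 1 (Lev.rows q (Λ a) κ).F := by
  induction q generalizing C with
  | zero =>
    refine ⟨0, fun L _ σ n Λ _ a => ?_⟩
    rw [Fintype.sum_unique]
    rfl
  | succ q ih =>
    obtain ⟨C₁, h₁⟩ := BddLev.step C
    obtain ⟨L₁, h₂⟩ := ih C₁
    refine ⟨max C L₁, fun L hL σ n Λ hΛ a => ?_⟩
    have hCL : C ≤ L := (le_max_left _ _).trans hL
    have e1 : EI (q + 1 + 1) (Λ a).F = EI (q + 1) (fun y => ∑ s : Step n L, ((Λ a).step s).F y) := by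
      show EI (q + 1) (fun y => EI1 (fun t => (Λ a).F (Fin.snoc y t))) = _
      congr 1
      funext y
      refine EI1_step (Λ a) y (BddF.pc hΛ.1 a y).1 ((BddF.pc hΛ.1 a y).2.trans hCL)
        (fun i => (BddF.pc (hΛ.2 i) a y).1) (fun i => (BddF.pc (hΛ.2 i) a y).2.trans hCL)
    rw [e1, EI_sum Finset.univ (f := fun s : Step n L => ((Λ a).step s).F)
      (fun s _ => E3b_tame (h₁ σ n (q + 1) L Λ hΛ s) a)]
    have e2 : ∀ s : Step n L, EI (q + 1) ((Λ a).step s).F =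
        ∑ κ : Fin q → Step n L, EI 1 (Lev.rows q ((Λ a).step s) κ).F := fun s =>
      h₂ L ((le_max_right _ _).trans hL) σ n (fun a => (Λ a).step s)
        (h₁ σ n (q + 1) L Λ hΛ s) a
    rw [Finset.sum_congr rfl (fun s _ => e2 s)]
    rw [← Fintype.sum_prod_type']
    refine Fintype.sum_equiv (Fin.consEquiv (fun _ => Step n L)) _ _ (fun p => ?_)
    rfl

end BU
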