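import Pool.Agent.Work.MP_4030f5_lc.E4a

/-! # E4: the Euler integral of a row is determined by comparisons of break points and local data -/

namespace BU

open Filter

private theorem E4b_snoc0 (y : Fin 0 → ℝ) (t : ℝ) : (Fin.snoc y t : Fin 1 → ℝ) = fun _ => t := by
  funext i
  have hi : i = Fin.last 0 := Fin.ext (by have := i.2; simp only [Fin.val_last]; omega)
  subst hi
  exact Fin.snoc_last (α := fun _ => ℝ) t y

/-- invariants of the two functions of one variable are of bounded complexity -/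
private theorem E4b_key (C : ℕ) : ∃ C' : ℕ, ∀ (σ β γ : Type)
    (φ : (σ → ℝ) → (Fin 1 → ℝ) → β), BddF C φ →
    ∀ H : (ℝ → β) → γ, (∀ (u : ℝ → β) (χ : ℝ ≃o ℝ), H (fun t => u (χ t)) = H u) →
      Bdd C' (fun a : σ → ℝ => H (fun t => φ a (fun _ => t))) := by
  obtain ⟨C', hC'⟩ := Bdd.elim_snoc C
  refine ⟨C', fun σ β γ φ hφ H hH => ?_⟩
  have h1 := hC' σ β γ 0 φ hφ H hH
  have h2 := Bdd.rename h1 (Sum.elim id (Fin.elim0 : Fin 0 → σ))
  have e : (fun a : σ → ℝ => H (fun t => φ a (fun _ => t))) =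
      (fun x : σ → ℝ => (fun z : σ ⊕ Fin 0 → ℝ =>
        H (fun t => φ (fun i => z (Sum.inl i)) (Fin.snoc (fun i => z (Sum.inr i)) t)))
        (fun i => x (Sum.elim id (Fin.elim0 : Fin 0 → σ) i))) := by
    funext x
    refine congrArg H (funext fun t => ?_)
    exact congrArg (φ x) (E4b_snoc0 _ t).symm
  rw [e]
  exact h2

private theorem E4b_initv (u : ℝ → ℤ) (χ : ℝ ≃o ℝ) : initv (fun t => u (χ t)) = initv u := by
  have h1 : (fun v : ℤ => ∀ᶠ s in atBot, u (χ s) = v) = fun v : ℤ => ∀ᶠ s in atBot, u s = v := by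
    funext v
    have h2 : (atBot : Filter ℝ) = Filter.map (⇑χ) atBot := χ.map_atBot.symm
    conv_rhs => rw [h2]
    rw [Filter.eventually_map]
  classical
  have key : ∀ P Q : ℤ → Prop, P = Q →
      (if h : ∃ v, P v then h.choose else (0 : ℤ)) = if h : ∃ v, Q v then h.choose else 0 := by
    rintro P Q rfl
    rfl
  exact key _ _ h1

private theorem E4b_loc (L : ℕ) (u : ℝ → ℤ) (χ : ℝ ≃o ℝ) :
    loc L (fun t => u (χ t)) = loc L u := by
  unfold loc
  rw [E4b_initv]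
  congr 1
  funext α
  rw [bp_reparam, Option.map_map]
  congr 1
  funext t
  show (u (χ (χ.symm t)), rl (fun t => u (χ t)) (χ.symm t)) = _
  rw [rl_reparam, OrderIso.apply_symm_apply]

theorem bdd_loc (C : ℕ) : ∃ C' : ℕ, ∀ (σ : Type) (n L : ℕ) (Λ : (σ → ℝ) → Lev n 1),
    BddLev C Λ → ∀ o, Bdd C' (fun a => loc L ((Λ a).fn o)) := by
  obtain ⟨C', hC'⟩ := E4b_key C
  refine ⟨C', fun σ n L Λ hΛ o => ?_⟩
  cases o with
  | none => exact hC' σ ℤ _ (fun a y => (Λ a).w y) hΛ.1 (loc L) (E4b_loc L)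
  | some i => exact hC' σ ℤ _ (fun a y => (Λ a).g i y) (hΛ.2 i) (loc L) (E4b_loc L)

private theorem E4b_ocmp (x y : Option ℝ) (χ : ℝ ≃o ℝ) :
    ocmp (x.map χ) (y.map χ) = ocmp x y := by
  cases x with
  | none => cases y <;> rfl
  | some a =>
    cases y with
    | none => rfl
    | some b =>
      show (if χ a < χ b then Ordering.lt else if χ a = χ b then Ordering.eq else Ordering.gt) =
        (if a < b then Ordering.lt else if a = b then Ordering.eq else Ordering.gt)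
      simp only [χ.lt_iff_lt, χ.injective.eq_iff]

theorem bdd_ocmp (C : ℕ) : ∃ C' : ℕ, ∀ (σ : Type) (n L : ℕ) (Λ : (σ → ℝ) → Lev n 1),
    BddLev C Λ → ∀ u v : Step n L, Bdd C' (fun a => ocmp ((Λ a).val u) ((Λ a).val v)) := by
  obtain ⟨C', hC'⟩ := E4b_key (C + C)
  refine ⟨C', fun σ n L Λ hΛ u v => ?_⟩
  have hfn : ∀ o : Option (Fin n), ∃ φ : (σ → ℝ) → (Fin 1 → ℝ) → ℤ, BddF C φ ∧
      ∀ a, (Λ a).fn o = fun t => φ a (fun _ => t) := by
    intro o
    cases o with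
    | none => exact ⟨fun a y => (Λ a).w y, hΛ.1, fun a => rfl⟩
    | some i => exact ⟨fun a y => (Λ a).g i y, hΛ.2 i, fun a => rfl⟩
  obtain ⟨φ, hφ, hφ2⟩ := hfn u.1
  obtain ⟨ψ, hψ, hψ2⟩ := hfn v.1
  have h := hC' σ (ℤ × ℤ) Ordering (fun a y => (φ a y, ψ a y)) (Bdd.prod hφ hψ)
    (fun w => ocmp (bp (fun t => (w t).1) u.2) (bp (fun t => (w t).2) v.2)) (fun w χ => by
      have h1 := bp_reparam (fun t => (w t).1) χ u.2
      have h2 := bp_reparam (fun t => (w t).2) χ v.2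
      show ocmp (bp (fun t => (w (χ t)).1) u.2) (bp (fun t => (w (χ t)).2) v.2) = _
      rw [h1, h2]
      exact E4b_ocmp _ _ χ.symm)
  have e : (fun a => ocmp ((Λ a).val u) ((Λ a).val v)) = (fun a : σ → ℝ =>
      ocmp (bp (fun t => φ a (fun _ => t)) u.2) (bp (fun t => ψ a (fun _ => t)) v.2)) := by
    funext a
    unfold Lev.val
    rw [hφ2 a, hψ2 a]
  rw [e]
  exact h

end BU
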