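import Pool.Agent.Work.MP_4030f5_lc.Defs

/-! # Euler integrals of piecewise constant functions: definitions -/

namespace BU

open Filter Topology

/-- break points of `u : ℝ → β`: the points where `u` is not locally constant. -/
def Bk {β : Type} (u : ℝ → β) : Set ℝ := {t | ¬ ∀ᶠ s in 𝓝 t, u s = u t}

open Classical in
/-- the `α`-th smallest break point, if `u` has finitely many and at least `α + 1`. -/
noncomputable def bp {β : Type} (u : ℝ → β) (α : ℕ) : Option ℝ :=
  if h : (Bk u).Finite then (h.toFinset.sort (· ≤ ·))[α]? else none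

open Classical in
/-- right limit value `u(t+)` (zero if `u` is not constant on any `(t, t + ε)`). -/
noncomputable def rl (u : ℝ → ℤ) (t : ℝ) : ℤ :=
  if h : ∃ v, ∀ᶠ s in 𝓝[>] t, u s = v then h.choose else 0

/-- one dimensional Euler integral `∑_t (u(t) - u(t+))`. -/
noncomputable def EI1 (u : ℝ → ℤ) : ℤ := ∑ᶠ t : ℝ, (u t - rl u t)

/-- iterated Euler integral, last coordinate innermost, recursion on the last coordinate. -/
noncomputable def EI : (q : ℕ) → ((Fin q → ℝ) → ℤ) → ℤ
  | 0, f => f Fin.elim0
  | q + 1, f => EI q (fun y => EI1 (fun t => f (Fin.snoc y t)))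

/-- the same integral, recursion on the first coordinate. -/
noncomputable def EI' : (q : ℕ) → ((Fin q → ℝ) → ℤ) → ℤ
  | 0, f => f Fin.elim0
  | q + 1, f => EI1 (fun t => EI' q (fun y => f (Fin.cons t y)))

/-- piecewise constant functions of one real variable. -/
def PC {β : Type} (u : ℝ → β) : Prop := (Bk u).Finite

open Classical in
/-- integer valued indicator function. -/
noncomputable def ind {α : Type} (X : Set α) (x : α) : ℤ := if x ∈ X then 1 else 0

end BU
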