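import Pool.Agent.Work.MP_4030f5_lc.CylDefs

/-! # T5: cylindrical families are homologically trivial over acyclic pairs -/

namespace BU

/-- cylindrical families pull back along continuous maps of the base. -/
theorem Cyl.pullback {k : ℕ} {B B' : Type} [TopologicalSpace B] [TopologicalSpace B']
    {E : B → (Fin k → ℝ) → Prop} (h : Cyl k B E) (g : B' → B) (hg : Continuous g) :
    Cyl k B' (fun b => E (g b)) := by
  induction k generalizing B B' with
  | zero =>
    rcases h with h | h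
    · exact Or.inl fun b y => h (g b) y
    · exact Or.inr fun b y => h (g b) y
  | succ k ih =>
    obtain ⟨l, ξ, hmono, hsec, hband⟩ := h
    refine ⟨l, fun i => (ξ i).comp ⟨g, hg⟩, fun b => hmono (g b), fun i => ih (hsec i) g hg, ?_⟩
    intro i
    have hmaps : ∀ z : Band (fun i => (ξ i).comp ⟨g, hg⟩) i, (g z.1.1, z.1.2) ∈ Band ξ i :=
      fun z => ⟨fun j hj => z.2.1 j hj, fun j hj => z.2.2 j hj⟩
    have := ih (hband i) (fun z : Band (fun i => (ξ i).comp ⟨g, hg⟩) i =>
      (⟨(g z.1.1, z.1.2), hmaps z⟩ : Band ξ i)) (by fun_prop)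
    exact this

/-- location of a real number -/
private theorem T5a_locate {l : ℕ} (a : Fin l → ℝ) (ha : StrictMono a) (t : ℝ) :
    (∃ j, a j = t) ∨ ∃ i : Fin (l + 1), (∀ j : Fin l, (j : ℕ) < i → a j < t) ∧
      (∀ j : Fin l, (i : ℕ) ≤ j → t < a j) := by
  classical
  by_cases h : ∃ j, a j = t
  · exact Or.inl h
  · right
    push Not at h
    have hex : ∃ i : ℕ, ∀ j : Fin l, i ≤ (j : ℕ) → t < a j :=
      ⟨l, fun j hj => absurd j.2 (by omega)⟩
    have hspec := Nat.find_spec hex
    have hle : Nat.find hex ≤ l := Nat.find_le (fun j hj => absurd j.2 (by omega))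
    refine ⟨⟨Nat.find hex, by omega⟩, ?_, hspec⟩
    intro j hj
    simp only at hj
    have h1 : ¬ ∀ j : Fin l, Nat.find hex - 1 ≤ (j : ℕ) → t < a j :=
      Nat.find_min hex (by omega)
    push Not at h1
    obtain ⟨j', hj', hj''⟩ := h1
    have h2 : (j' : ℕ) < Nat.find hex := by
      by_contra hc
      exact absurd (hspec j' (by omega)) (not_lt.2 hj'')
    have h3 : a j' < t := lt_of_le_of_ne hj'' (h j')
    have h4 : a j ≤ a j' := ha.monotone (Fin.le_def.2 (by omega))
    exact h4.trans_lt h3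

/-- every band is nonempty over every point -/
private theorem T5a_band {l : ℕ} (a : Fin l → ℝ) (ha : StrictMono a) (i : Fin (l + 1)) :
    ∃ t : ℝ, (∀ j : Fin l, (j : ℕ) < i → a j < t) ∧ (∀ j : Fin l, (i : ℕ) ≤ j → t < a j) := by
  classical
  obtain ⟨m, h1, h2⟩ := Order.exists_between_finsets
    ((Finset.univ.filter (fun j : Fin l => (j : ℕ) < i)).image a)
    ((Finset.univ.filter (fun j : Fin l => (i : ℕ) ≤ j)).image a) (by
      intro x hx y hy
      rw [Finset.mem_image] at hx hy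
      obtain ⟨j, hj, rfl⟩ := hx
      obtain ⟨j', hj', rfl⟩ := hy
      rw [Finset.mem_filter] at hj hj'
      exact ha (Fin.lt_def.2 (by omega)))
  refine ⟨m, fun j hj => h1 _ ?_, fun j hj => h2 _ ?_⟩
  · exact Finset.mem_image_of_mem _ (Finset.mem_filter.2 ⟨Finset.mem_univ _, hj⟩)
  · exact Finset.mem_image_of_mem _ (Finset.mem_filter.2 ⟨Finset.mem_univ _, hj⟩)

/-- in a cylindrical family the fibres are all empty or all nonempty. -/
theorem Cyl.nonempty_iff {k : ℕ} {B : Type} [TopologicalSpace B]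
    {E : B → (Fin k → ℝ) → Prop} (h : Cyl k B E) (b b' : B) :
    (∃ y, E b y) ↔ (∃ y, E b' y) := by
  have key : ∀ (k : ℕ) (B : Type) [TopologicalSpace B] (E : B → (Fin k → ℝ) → Prop)
      (_ : Cyl k B E) (b b' : B), (∃ y, E b y) → (∃ y, E b' y) := by
    intro k
    induction k with
    | zero =>
      intro B _ E h b b' hb
      obtain ⟨y, hy⟩ := hb
      rcases h with h | h
      · exact ⟨y, h b' y⟩
      · exact absurd hy (h b y)
    | succ k ih =>
      intro B _ E h b b' hb
      obtain ⟨l, ξ, hmono, hsec, hband⟩ := h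
      obtain ⟨y, hy⟩ := hb
      have hy' : E b (Fin.cons (y 0) (Fin.tail y)) := by
        rw [Fin.cons_self_tail]; exact hy
      rcases T5a_locate (fun j => ξ j b) (hmono b) (y 0) with ⟨j, hj⟩ | ⟨i, hi⟩
      · obtain ⟨y', hy''⟩ := ih B _ (hsec j) b b' ⟨Fin.tail y, by rw [hj]; exact hy'⟩
        exact ⟨_, hy''⟩
      · obtain ⟨t, ht⟩ := T5a_band (fun j => ξ j b') (hmono b') i
        obtain ⟨y', hy''⟩ := ih (Band ξ i) _ (hband i) ⟨(b, y 0), hi⟩ ⟨(b', t), ht⟩
          ⟨Fin.tail y, hy'⟩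
        exact ⟨_, hy''⟩
  exact ⟨key k B E h b b', key k B E h b' b⟩

end BU
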