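import Pool.Agent.Work.MP_4030f5_lc.S1
import Pool.Agent.Work.MP_4030f5_lc.T5a

/-! # S2: existence of cylindrical decompositions -/

namespace BU

theorem S2_ext_cont {σ X : Type} [TopologicalSpace X] (f : X → σ → ℝ) (t : X → ℝ)
    (hf : Continuous f) (ht : Continuous t) : Continuous (fun x => ext (f x) (t x)) := by
  refine continuous_pi (fun o => ?_)
  cases o with
  | none => exact ht
  | some i => exact (continuous_apply i).comp hf

theorem S2_cyl_empty {k : ℕ} {B B' : Type} [TopologicalSpace B] [TopologicalSpace B'] [IsEmpty B']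
    {E : B → (Fin k → ℝ) → Prop} (h : Cyl k B E) (E' : B' → (Fin k → ℝ) → Prop) :
    Cyl k B' E' := by
  have h1 := h.pullback (isEmptyElim : B' → B)
    (continuous_iff_continuousAt.2 (fun b => isEmptyElim b))
  have e : E' = fun b => E (isEmptyElim b) := by funext b; exact isEmptyElim b
  rw [e]
  exact h1

/-- every semialgebraic family is cylindrical over every sign class of a suitable finite family. -/
theorem cyl_exists {k : ℕ} {σ : Type} (E : (σ → ℝ) → (Fin k → ℝ) → Prop)
    (hE : SA {z : σ ⊕ Fin k → ℝ | E (fun i => z (Sum.inl i)) (fun i => z (Sum.inr i))}) :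
    ∃ G : List (Fm σ), ∀ b₀ : σ → ℝ,
      Cyl k (cls G b₀) (fun b y => E (b : σ → ℝ) y) := by
  induction k generalizing σ with
  | zero =>
    obtain ⟨F, hF⟩ := hE
    refine ⟨F.map (Fm.rename (Sum.elim id Fin.elim0)), fun b₀ => ?_⟩
    have key : ∀ b ∈ cls (F.map (Fm.rename (Sum.elim id Fin.elim0))) b₀, ∀ y y' : Fin 0 → ℝ,
        (E b y ↔ E b₀ y') := by
      intro b hb y y'
      have h1 := SgnEq.rename.1 hb
      have h2 := hF _ _ h1
      have e1 : y = fun i : Fin 0 => b ((Sum.elim id Fin.elim0 : σ ⊕ Fin 0 → σ) (Sum.inr i)) :=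
        Subsingleton.elim _ _
      have e2 : y' = fun i : Fin 0 => b₀ ((Sum.elim id Fin.elim0 : σ ⊕ Fin 0 → σ) (Sum.inr i)) :=
        Subsingleton.elim _ _
      rw [e1, e2]
      exact h2
    by_cases h : E b₀ (fun i => i.elim0)
    · left
      intro b y
      exact (key b b.2 y _).2 h
    · right
      intro b y hb
      exact h ((key b b.2 y _).1 hb)
  | succ k ih =>
    have hE' : SA {z : Option σ ⊕ Fin k → ℝ |
        (fun (c : Option σ → ℝ) (y : Fin k → ℝ) =>
          E (fun i => c (some i)) (Fin.cons (c none) y : Fin (k + 1) → ℝ))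
          (fun i => z (Sum.inl i)) (fun i => z (Sum.inr i))} := by
      have h1 := hE.rename (τ := Option σ ⊕ Fin k)
        (Sum.elim (fun i => Sum.inl (some i))
          (fun j => Fin.cases (Sum.inl none) (fun j => Sum.inr j) j))
      refine cast (congrArg SA ?_) h1
      ext z
      simp only [Set.mem_ofPred_eq, Sum.elim_inl, Sum.elim_inr]
      have e : (fun i : Fin (k + 1) => z (Fin.cases (Sum.inl none) (fun j => Sum.inr j) i))
          = (Fin.cons (z (Sum.inl none)) (fun i => z (Sum.inr i)) : Fin (k + 1) → ℝ) := by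
        funext i
        refine Fin.cases ?_ (fun j => ?_) i
        · simp
        · simp
      rw [e]
    obtain ⟨G₁, hG₁⟩ := ih (σ := Option σ) (fun (c : Option σ → ℝ) (y : Fin k → ℝ) =>
      E (fun i => c (some i)) (Fin.cons (c none) y : Fin (k + 1) → ℝ)) hE'
    obtain ⟨F', G, hsub, hroots⟩ := roots G₁
    refine ⟨G, fun b₀ => ?_⟩
    obtain ⟨l, ξ, hcont, hmono, hsgn⟩ := hroots b₀
    let ξ' : Fin l → C(cls G b₀, ℝ) := fun i =>
      ⟨fun b => ξ i b, continuousOn_iff_continuous_domRestrict.1 (hcont i)⟩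
    refine ⟨l, ξ', fun b => hmono b b.2, fun i => ?_, fun i => ?_⟩
    · have hb₀ : b₀ ∈ cls G b₀ := SgnEq.refl G b₀
      have hmem : ∀ b : cls G b₀, ext (b : σ → ℝ) (ξ i b) ∈ cls G₁ (ext b₀ (ξ i b₀)) := by
        intro b
        have h1 : SgnEq F' (ext (b : σ → ℝ) (ξ i b)) (ext b₀ (ξ i b₀)) := by
          rw [← hsgn b b.2 b₀ hb₀]
          refine ⟨fun j => ?_, fun j => ?_⟩
          · rw [(hmono b b.2).lt_iff_lt, (hmono b₀ hb₀).lt_iff_lt]
          · rw [(hmono b b.2).lt_iff_lt, (hmono b₀ hb₀).lt_iff_lt]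
        exact h1.mono hsub
      have h2 := (hG₁ (ext b₀ (ξ i b₀))).pullback
        (fun b : cls G b₀ => (⟨ext (b : σ → ℝ) (ξ i b), hmem b⟩ : cls G₁ (ext b₀ (ξ i b₀))))
        ((S2_ext_cont _ _ continuous_subtype_val (ξ' i).continuous).subtype_mk _)
      exact h2
    · by_cases hne : Nonempty (Band ξ' i)
      · obtain ⟨z₁⟩ := hne
        have hmem : ∀ z : Band ξ' i, ext (z.1.1 : σ → ℝ) z.1.2 ∈
            cls G₁ (ext (z₁.1.1 : σ → ℝ) z₁.1.2) := by
          intro z
          have h1 : SgnEq F' (ext (z.1.1 : σ → ℝ) z.1.2) (ext (z₁.1.1 : σ → ℝ) z₁.1.2) := by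
            rw [← hsgn z.1.1 z.1.1.2 z₁.1.1 z₁.1.1.2]
            refine ⟨fun j => ?_, fun j => ?_⟩
            · rcases lt_or_ge (j : ℕ) i with hj | hj
              · have a1 := z.2.1 j hj
                have a2 := z₁.2.1 j hj
                exact ⟨fun h => absurd h (not_lt.2 a1.le), fun h => absurd h (not_lt.2 a2.le)⟩
              · exact ⟨fun _ => z₁.2.2 j hj, fun _ => z.2.2 j hj⟩
            · rcases lt_or_ge (j : ℕ) i with hj | hj
              · exact ⟨fun _ => z₁.2.1 j hj, fun _ => z.2.1 j hj⟩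
              · have a1 := z.2.2 j hj
                have a2 := z₁.2.2 j hj
                exact ⟨fun h => absurd h (not_lt.2 a1.le), fun h => absurd h (not_lt.2 a2.le)⟩
          exact h1.mono hsub
        have h2 := (hG₁ (ext (z₁.1.1 : σ → ℝ) z₁.1.2)).pullback
          (fun z : Band ξ' i => (⟨ext (z.1.1 : σ → ℝ) z.1.2, hmem z⟩ :
            cls G₁ (ext (z₁.1.1 : σ → ℝ) z₁.1.2)))
          ((S2_ext_cont _ _
            (continuous_subtype_val.comp (continuous_fst.comp continuous_subtype_val))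
            (continuous_snd.comp continuous_subtype_val)).subtype_mk _)
        exact h2
      · have : IsEmpty (Band ξ' i) := not_nonempty_iff.1 hne
        exact S2_cyl_empty (hG₁ (fun _ => 0)) _

end BU
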