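import Pool.Agent.Work.MP_4030f5_lc.T6a

/-! # T6: graded cohomology groups in the list formalism -/

namespace BU

variable {M N : Type} [MetricSpace M] [MetricSpace N]

theorem T6b_locZero_iff {X : Set M} (hX : IsCompact X) (q : ℕ) (F : Coch ↥X q) :
    F ∈ locZero ↥X q ↔ ∃ η > 0, ∀ t : Fin (q + 1) → ↥X,
      (∀ i j, dist (t i : M) (t j : M) < η) → F t = 0 := by
  constructor
  · intro h
    haveI : CompactSpace ↥X := isCompact_iff_compactSpace.1 hX
    have h' : ∀ x : ↥X, ∃ V : Set ↥X, IsOpen V ∧ x ∈ V ∧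
        ∀ t : Fin (q + 1) → ↥X, (∀ i, t i ∈ V) → F t = 0 := by
      intro x
      obtain ⟨V, hV, hV'⟩ := h x
      obtain ⟨W, hWV, hW, hxW⟩ := mem_nhds_iff.1 hV
      exact ⟨W, hW, hxW, fun t ht => hV' t (fun i => hWV (ht i))⟩
    choose V hVo hxV hV using h'
    obtain ⟨δ, hδ, hb⟩ := lebesgue_number_lemma_of_metric (isCompact_univ (X := ↥X)) hVo
      (fun x _ => Set.mem_iUnion.2 ⟨x, hxV x⟩)
    refine ⟨δ, hδ, fun t ht => ?_⟩
    obtain ⟨i, hi⟩ := hb (t 0) (Set.mem_univ _)
    apply hV i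
    intro j
    apply hi
    rw [Metric.mem_ball, Subtype.dist_eq]
    exact ht j 0
  · rintro ⟨η, hη, h⟩ x
    refine ⟨Metric.ball x (η / 2), Metric.ball_mem_nhds _ (by positivity), fun t ht => ?_⟩
    apply h
    intro i j
    have h1 := ht i
    have h2 := ht j
    rw [Metric.mem_ball, Subtype.dist_eq] at h1 h2
    calc dist (t i : M) (t j : M) ≤ dist (t i : M) x + dist (x : M) (t j : M) := dist_triangle _ _ _
      _ = dist (t i : M) x + dist (t j : M) x := by rw [dist_comm (x : M)]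
      _ < η := by linarith

/-- restriction of list functions to tuples -/
def T6b_Psi (X : Set M) (q : ℕ) : (List M → ℚ) →ₗ[ℚ] Coch ↥X q where
  toFun f := fun t => f (List.ofFn (fun i => (t i : M)))
  map_add' := fun f g => rfl
  map_smul' := fun c f => rfl

theorem T6b_dC_Psi (X : Set M) (q : ℕ) (f : List M → ℚ) :
    dC ↥X q (T6b_Psi X q f) = T6b_Psi X (q + 1) (D f) := by
  funext t
  show ∑ j : Fin (q + 2), (-1 : ℚ) ^ (j : ℕ) * f (List.ofFn (fun i => (t (j.succAbove i) : M))) =
    D f (List.ofFn (fun i => (t i : M)))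
  rw [D_ofFn f (fun i => (t i : M))]
  apply Finset.sum_congr rfl
  intro j _
  rw [zsmul_eq_mul]
  push_cast
  rfl

theorem T6b_ext (X : Set M) (q : ℕ) (v : Coch ↥X q) :
    ∃ g : List M → ℚ, T6b_Psi X q g = v ∧ ∀ l : List M, l.length ≠ q + 1 → g l = 0 := by
  let e : (Fin (q + 1) → ↥X) → List M := fun t => List.ofFn (fun i => (t i : M))
  have he : Function.Injective e := by
    intro t t' h
    have := List.ofFn_injective h
    funext i
    exact Subtype.ext (congrFun this i)
  refine ⟨Function.extend e v 0, ?_, ?_⟩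
  · funext t
    exact he.extend_apply v 0 t
  · intro l hl
    rw [Function.extend_apply']
    · rfl
    · rintro ⟨t, rfl⟩
      exact hl (List.length_ofFn)

theorem T6b_ofFn {X : Set M} {n : ℕ} {l : List M} (hl : l.length = n) (h : ∀ x ∈ l, x ∈ X) :
    ∃ t : Fin n → ↥X, l = List.ofFn (fun i => (t i : M)) := by
  subst hl
  refine ⟨fun i => ⟨l.get i, h _ (List.get_mem l i)⟩, ?_⟩
  exact (List.ofFn_get l).symm

theorem T6b_Z_iff {X : Set M} (hX : IsCompact X) (q : ℕ) (f : List M → ℚ) :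
    Z X (fun l => if l.length = q + 1 then f l else 0) ↔ T6b_Psi X q f ∈ locZero ↥X q := by
  rw [T6b_locZero_iff hX]
  constructor
  · rintro ⟨η, hη, h⟩
    refine ⟨η, hη, fun t ht => ?_⟩
    have := h (List.ofFn (fun i => (t i : M))) ?_ ?_
    · have h' : (if (List.ofFn (fun i => (t i : M))).length = q + 1 then
          f (List.ofFn (fun i => (t i : M))) else 0) = 0 := this
      rw [if_pos List.length_ofFn] at h'
      exact h'
    · intro x hx
      obtain ⟨i, rfl⟩ := (List.mem_ofFn' _ _).1 hx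
      exact (t i).2
    · intro x hx y hy
      obtain ⟨i, rfl⟩ := (List.mem_ofFn' _ _).1 hx
      obtain ⟨j, rfl⟩ := (List.mem_ofFn' _ _).1 hy
      exact ht i j
  · rintro ⟨η, hη, h⟩
    refine ⟨η, hη, fun l h1 h2 => ?_⟩
    show (if l.length = q + 1 then f l else 0) = 0
    split_ifs with hl
    · obtain ⟨t, rfl⟩ := T6b_ofFn hl h1
      refine h t (fun i j => ?_)
      exact h2 _ ((List.mem_ofFn' _ _).2 ⟨i, rfl⟩) _ ((List.mem_ofFn' _ _).2 ⟨j, rfl⟩)
    · rfl

theorem T6b_mem_cobd_iff {X : Set M} (hX : IsCompact X) (q : ℕ) (f : List M → ℚ) :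
    T6b_Psi X q f ∈ cobd ↥X q ↔ f ∈ bd X (q + 1) := by
  cases q with
  | zero =>
    show T6b_Psi X 0 f ∈ locZero ↥X 0 ↔ f ∈ bd X (0 + 1)
    rw [← T6b_Z_iff hX]
    constructor
    · intro h
      exact T6a_mem_bd_of_Z h
    · rintro ⟨g, hg0, hg⟩
      obtain ⟨η, hη, hz⟩ := hg
      refine ⟨η, hη, fun l h1 h2 => ?_⟩
      have := hz l h1 h2
      show (if l.length = 0 + 1 then f l else 0) = 0
      have h' : (if l.length = 0 + 1 then f l - D g l else 0) = 0 := this
      split_ifs with hl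
      · rw [if_pos hl] at h'
        obtain ⟨x, rfl⟩ := List.length_eq_one_iff.1 hl
        rw [D_cons, D_nil, hg0] at h'
        simpa using h'
      · rfl
  | succ q =>
    show T6b_Psi X (q + 1) f ∈ locZero ↥X (q + 1) ⊔ LinearMap.range (dC ↥X q) ↔
      f ∈ bd X (q + 1 + 1)
    rw [Submodule.mem_sup]
    constructor
    · rintro ⟨u, hu, w, ⟨v, rfl⟩, huv⟩
      obtain ⟨g, hg, hg0⟩ := T6b_ext X q v
      refine ⟨g, hg0 [] (by simp), ?_⟩
      have : Z X (fun l => if l.length = q + 1 + 1 then (fun l => f l - D g l) l else 0) := by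
        rw [T6b_Z_iff hX]
        have h1 : T6b_Psi X (q + 1) (fun l => f l - D g l) = u := by
          have h2 : T6b_Psi X (q + 1) (fun l => f l - D g l) =
              T6b_Psi X (q + 1) f - T6b_Psi X (q + 1) (D g) := rfl
          rw [h2, ← T6b_dC_Psi, hg, ← huv, add_sub_cancel_right]
        rw [h1]
        exact hu
      exact this
    · rintro ⟨g, hg0, hg⟩
      have : Z X (fun l => if l.length = q + 1 + 1 then (fun l => f l - D g l) l else 0) := hg
      rw [T6b_Z_iff hX] at this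
      refine ⟨_, this, dC ↥X q (T6b_Psi X q g), ⟨_, rfl⟩, ?_⟩
      rw [T6b_dC_Psi, ← map_add]
      congr 1
      funext l
      show f l - D g l + D g l = f l
      ring

/-- comparison with the textbook definition. -/
theorem HAS_equiv {X : Set M} (hX : IsCompact X) (q : ℕ) :
    Nonempty (HAS X q ≃ₗ[ℚ] HL X (q + 1)) := by
  have key : Nonempty (HL X (q + 1) ≃ₗ[ℚ] HAS ↥X q) := by
    refine quot_equiv (T6b_Psi X q) ?_ ?_ ?_
    · rintro f ⟨hf0, hf⟩
      show dC ↥X q (T6b_Psi X q f) ∈ locZero ↥X (q + 1)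
      rw [T6b_dC_Psi, ← T6b_Z_iff hX]
      obtain ⟨η, hη, hz⟩ := hf
      refine ⟨η, hη, fun l h1 h2 => ?_⟩
      show (if l.length = q + 1 + 1 then D f l else 0) = 0
      split_ifs
      · exact hz l h1 h2
      · rfl
    · rintro f ⟨hf0, hf⟩
      exact T6b_mem_cobd_iff hX q f
    · intro c' hc'
      obtain ⟨f, hf, hf0⟩ := T6b_ext X q c'
      have hc'' : dC ↥X q c' ∈ locZero ↥X (q + 1) := hc'
      refine ⟨f, ⟨hf0 [] (by simp), ?_⟩, ?_⟩
      · rw [← hf, T6b_dC_Psi, ← T6b_Z_iff hX] at hc''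
        refine cast (congrArg (Z X) ?_) hc''
        funext l
        split_ifs with hl
        · rfl
        · symm
          apply D_eq_zero
          intro l' _ hlen
          apply hf0
          omega
      · rw [hf, sub_self]
        exact Submodule.zero_mem _
  exact ⟨key.some.symm⟩

end BU
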