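import Pool.Agent.Work.MP_4030f5_lc.T8b
import Pool.Agent.Work.MP_4030f5_lc.S2
import Pool.Agent.Work.MP_4030f5_lc.E4b
import Pool.Agent.Work.MP_4030f5_lc.T6b

/-! # F1: Betti numbers and Euler characteristic of semialgebraic sets -/

namespace BU

theorem F1_SA {k m : ℕ} (E : (Fin m → ℝ) → (Fin k → ℝ) → Prop)
    (hE : SA {z : Fin m ⊕ Fin k → ℝ | E (fun i => z (Sum.inl i)) (fun i => z (Sum.inr i))})
    (n : ℕ) :
    SA {z : (Fin n × Fin m) ⊕ Fin k → ℝ |
      ∃ i : Fin n, E (fun j => z (Sum.inl (i, j))) (fun i => z (Sum.inr i))} := by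
  have h1 : {z : (Fin n × Fin m) ⊕ Fin k → ℝ |
      ∃ i : Fin n, E (fun j => z (Sum.inl (i, j))) (fun i => z (Sum.inr i))} =
      ⋃ i : Fin n, {z : (Fin n × Fin m) ⊕ Fin k → ℝ |
        (fun j => z (Sum.map (fun j => ((i, j) : Fin n × Fin m)) id j)) ∈
          {z : Fin m ⊕ Fin k → ℝ | E (fun i => z (Sum.inl i)) (fun i => z (Sum.inr i))}} := by
    ext z
    rw [Set.mem_iUnion]
    rfl
  rw [h1]
  exact SA.iUnion fun i => SA.rename hE _

/-- For compact semialgebraic sets the alternating sum of the Betti numbers in degrees `< k` is the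
iterated Euler integral. -/
theorem betti_euler {k m : ℕ} (hk : 1 ≤ k) (E : (Fin m → ℝ) → (Fin k → ℝ) → Prop)
    (hE : SA {z : Fin m ⊕ Fin k → ℝ | E (fun i => z (Sum.inl i)) (fun i => z (Sum.inr i))})
    (n : ℕ) (a : Fin n → Fin m → ℝ) (ha : ∀ i, IsCompact {p | E (a i) p}) :
    ∑ q ∈ Finset.range k, (-1 : ℤ) ^ q * (betti (⋃ i, {p | E (a i) p} : Set (Fin k → ℝ)) q : ℤ) =
      EI k (ind (⋃ i, {p | E (a i) p})) := by
  set X : Set (Fin k → ℝ) := ⋃ i, {p | E (a i) p} with hX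
  have hXc : IsCompact X := isCompact_iUnion ha
  obtain ⟨G, hG⟩ := cyl_exists (σ := Fin n × Fin m)
    (fun z p => ∃ i : Fin n, E (fun j => z (i, j)) p) (F1_SA E hE n)
  have h1 : Cyl k Unit (fun _ y => y ∈ X) := by
    have h2 := (hG (fun z => a z.1 z.2)).pullback
      (fun _ : Unit => (⟨fun z => a z.1 z.2, SgnEq.refl _ _⟩ : ↥(cls G (fun z => a z.1 z.2))))
      continuous_const
    have h3 : (fun (_ : Unit) (y : Fin k → ℝ) => y ∈ X) =
        (fun (_ : Unit) (y : Fin k → ℝ) => ∃ i : Fin n, E (fun j => a i j) y) := by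
      funext _ y
      rw [hX, Set.mem_iUnion]
      rfl
    rw [h3]
    exact h2
  have h2 := cyl_fincoh hXc h1
  rw [max_eq_left hk] at h2
  rw [EI_eq_EI', ← h2.eul]
  refine Finset.sum_congr rfl fun q _ => ?_
  obtain ⟨e⟩ := HAS_equiv hXc q
  unfold betti
  rw [e.finrank_eq]

/-- the top level: weight one, factors `1 - ind`. -/
noncomputable def topLev {k m n : ℕ} (E : (Fin m → ℝ) → (Fin k → ℝ) → Prop)
    (a : Fin n × Fin m → ℝ) : Lev n k where
  w _ := 1
  g i y := 1 - ind {p | E (fun j => a (i, j)) p} y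

theorem topLev_bdd {k m : ℕ} (E : (Fin m → ℝ) → (Fin k → ℝ) → Prop)
    (hE : SA {z : Fin m ⊕ Fin k → ℝ | E (fun i => z (Sum.inl i)) (fun i => z (Sum.inr i))}) :
    ∃ C : ℕ, ∀ n : ℕ, BddLev C (topLev (n := n) E) := by
  obtain ⟨F, hF⟩ := hE
  refine ⟨tsize F, fun n => ⟨?_, fun i => ?_⟩⟩
  · exact Bdd.mono (Nat.zero_le _) (Bdd.const 1)
  · have h1 : Bdd (tsize F) (fun z : Fin m ⊕ Fin k → ℝ =>
        (1 : ℤ) - ind {p | E (fun i => z (Sum.inl i)) p} (fun i => z (Sum.inr i))) := by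
      refine ⟨F, le_rfl, fun x y hxy => ?_⟩
      have h2 : E (fun i => x (Sum.inl i)) (fun i => x (Sum.inr i)) ↔
          E (fun i => y (Sum.inl i)) (fun i => y (Sum.inr i)) := hF x y hxy
      have h3 : ∀ z : Fin m ⊕ Fin k → ℝ,
          ind {p | E (fun i => z (Sum.inl i)) p} (fun i => z (Sum.inr i)) =
            @ite ℤ (E (fun i => z (Sum.inl i)) (fun i => z (Sum.inr i)))
              (Classical.propDecidable _) 1 0 := fun z => rfl
      show (1 : ℤ) - ind {p | E (fun i => x (Sum.inl i)) p} (fun i => x (Sum.inr i)) =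
        1 - ind {p | E (fun i => y (Sum.inl i)) p} (fun i => y (Sum.inr i))
      rw [h3, h3]
      by_cases hx : E (fun i => x (Sum.inl i)) (fun i => x (Sum.inr i))
      · rw [if_pos hx, if_pos (h2.1 hx)]
      · rw [if_neg hx, if_neg (fun h => hx (h2.2 h))]
    exact Bdd.rename h1 (Sum.map (fun j => ((i, j) : Fin n × Fin m)) id)

theorem F1_prod {α : Type} {n : ℕ} (A : Fin n → Set α) (y : α) :
    (1 : ℤ) * ∏ i, (1 - ind (A i) y) = 1 - ind (⋃ i, A i) y := by
  rw [one_mul]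
  by_cases h : ∃ i, y ∈ A i
  · obtain ⟨i, hi⟩ := h
    have h1 : ind (A i) y = 1 := by unfold ind; rw [if_pos hi]
    have h2 : ind (⋃ i, A i) y = 1 := by
      unfold ind
      rw [if_pos (Set.mem_iUnion.2 ⟨i, hi⟩)]
    rw [h2, sub_self]
    exact Finset.prod_eq_zero (Finset.mem_univ i) (by rw [h1, sub_self])
  · have h2 : ind (⋃ i, A i) y = 0 := by
      unfold ind
      rw [if_neg (fun hc => h (Set.mem_iUnion.1 hc))]
    rw [h2, sub_zero]
    refine Finset.prod_eq_one fun i _ => ?_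
    have h1 : ind (A i) y = 0 := by
      unfold ind
      rw [if_neg (fun hc => h ⟨i, hc⟩)]
    rw [h1, sub_zero]

/-- Theorem 2: the Euler characteristic as a sum over rows. -/
theorem euler_rows {k m : ℕ} (E : (Fin m → ℝ) → (Fin (k + 1) → ℝ) → Prop)
    (hE : SA {z : Fin m ⊕ Fin (k + 1) → ℝ | E (fun i => z (Sum.inl i)) (fun i => z (Sum.inr i))}) :
    ∃ L₀ : ℕ, ∀ L ≥ L₀, ∀ (n : ℕ) (a : Fin n → Fin m → ℝ), (∀ i, IsCompact {p | E (a i) p}) →
      ∑ q ∈ Finset.range (k + 1),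
        (-1 : ℤ) ^ q * (betti (⋃ i, {p | E (a i) p} : Set (Fin (k + 1) → ℝ)) q : ℤ) =
      - ∑ κ : Fin k → Step n L, EI 1 (Lev.rows k (topLev E (fun z => a z.1 z.2)) κ).F := by
  obtain ⟨C, hC⟩ := topLev_bdd E hE
  obtain ⟨L₀, hL₀⟩ := EI_rows C k
  refine ⟨L₀, fun L hL n a ha => ?_⟩
  rw [betti_euler (by omega) E hE n a ha,
    ← hL₀ L hL (Fin n × Fin m) n (topLev E) (hC n) (fun z => a z.1 z.2)]
  have hF : (topLev (n := n) E (fun z => a z.1 z.2)).F =
      fun y => 1 - ind (⋃ i, {p | E (a i) p}) y := by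
    funext y
    exact F1_prod (fun i : Fin n => {p | E (a i) p}) y
  have ht : Tame (topLev (n := n) E (fun z => a z.1 z.2)).F := by
    refine Tame.mul (f := (topLev (n := n) E (fun z => a z.1 z.2)).w)
      (g := fun y => ∏ i, (topLev (n := n) E (fun z => a z.1 z.2)).g i y) ?_ ?_
    · exact Tame.const 1
    · refine Tame.prod Finset.univ
        (f := fun i => (topLev (n := n) E (fun z => a z.1 z.2)).g i) (fun i _ => ?_)
      exact ⟨_, C, fun a y => (topLev (n := n) E a).g i y, _, (hC n).2 i, rfl⟩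
  have hind : ind (⋃ i, {p | E (a i) p}) =
      fun y => (1 : ℤ) + -((topLev (n := n) E (fun z => a z.1 z.2)).F y) := by
    rw [hF]
    funext y
    ring
  have h3 : EI (k + 1) (ind (⋃ i, {p | E (a i) p})) =
      EI (k + 1) (fun y => (1 : ℤ) + -((topLev (n := n) E (fun z => a z.1 z.2)).F y)) := by
    rw [← hind]
  rw [h3, EI_add (f := fun _ => (1 : ℤ)) (g := fun y =>
    -((topLev (n := n) E (fun z => a z.1 z.2)).F y)) (Tame.const 1) (Tame.neg ht),
    EI_neg ht, EI_const, zero_add]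

end BU
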