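import Pool.Agent.Work.MP_4030f5_lc.T3a

/-! # T4: tautness, gluing, and the one dimensional Vietoris-Begle theorem -/

namespace BU

variable {M : Type} [MetricSpace M]

open Classical in
/-- glued function -/
private noncomputable def T4b_g (X₁ X₂ : Set M) (g₁ g₂ : List M → ℚ) (l : List M) : ℚ :=
  if ∀ x ∈ l, x ∈ X₁ then g₁ l else if ∀ x ∈ l, x ∈ X₂ then g₂ l else 0

/-- Gluing: primitives on two closed pieces that agree on the intersection. -/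
theorem glue_eq {X₁ X₂ X' : Set M} (h₁ : IsCompact X₁) (h₂ : IsCompact X₂) (hX' : IsClosed X')
    (hsub : X' ⊆ X₁ ∪ X₂) {f g₁ g₂ : List M → ℚ} (hf : Z X' f) (hDf : Z (X₁ ∪ X₂) (D f))
    (hg₁ : Z (X' ∩ X₁) g₁) (hg₂ : Z (X' ∩ X₂) g₂) (hfg₁ : Z X₁ (fun l => f l - D g₁ l))
    (hfg₂ : Z X₂ (fun l => f l - D g₂ l)) (h₁₂ : Z (X₁ ∩ X₂) (fun l => g₁ l - g₂ l)) :
    ∃ g : List M → ℚ, Z X' g ∧ Z (X₁ ∪ X₂) (fun l => f l - D g l) := by
  have hfnil : f [] = 0 := Z_nil hf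
  obtain ⟨η₁, hη₁, p₁⟩ := hf
  obtain ⟨η₂, hη₂, p₂⟩ := hDf
  obtain ⟨η₃, hη₃, p₃⟩ := hg₁
  obtain ⟨η₄, hη₄, p₄⟩ := hg₂
  obtain ⟨η₅, hη₅, p₅⟩ := hfg₁
  obtain ⟨η₆, hη₆, p₆⟩ := hfg₂
  obtain ⟨η₇, hη₇, p₇⟩ := h₁₂
  obtain ⟨η, hη, q₁, q₂, q₃, q₄, q₅, q₆, q₇⟩ : ∃ η : ℝ, 0 < η ∧ η ≤ η₁ ∧ η ≤ η₂ ∧ η ≤ η₃ ∧
      η ≤ η₄ ∧ η ≤ η₅ ∧ η ≤ η₆ ∧ η ≤ η₇ := by
    refine ⟨min η₁ (min η₂ (min η₃ (min η₄ (min η₅ (min η₆ η₇))))), ?_, ?_, ?_, ?_, ?_, ?_, ?_, ?_⟩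
    · simp only [lt_min_iff]; exact ⟨hη₁, hη₂, hη₃, hη₄, hη₅, hη₆, hη₇⟩
    all_goals simp
  -- the glued function
  obtain ⟨g, hg⟩ : ∃ g : List M → ℚ, g = T4b_g X₁ X₂ g₁ g₂ := ⟨_, rfl⟩
  obtain ⟨F, hF⟩ : ∃ F : List M → ℚ, F = fun l => f l - D g l := ⟨_, rfl⟩
  have gA : ∀ l : List M, (∀ x ∈ l, x ∈ X₁) → g l = g₁ l := by
    intro l hl; rw [hg, T4b_g, if_pos hl]
  have gB : ∀ l : List M, (∀ x ∈ l, x ∈ X₂) → (∀ x ∈ l, ∀ y ∈ l, dist x y < η) → g l = g₂ l := by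
    intro l hl hs
    by_cases h : ∀ x ∈ l, x ∈ X₁
    · rw [gA l h]
      have := p₇ l (fun x hx => ⟨h x hx, hl x hx⟩) (fun x hx y hy => (hs x hx y hy).trans_le q₇)
      linarith
    · rw [hg, T4b_g, if_neg h, if_pos hl]
  have gC : ∀ l : List M, (∀ x ∈ l, x ∈ X') → (∀ x ∈ l, ∀ y ∈ l, dist x y < η) → g l = 0 := by
    intro l hl hs
    by_cases h : ∀ x ∈ l, x ∈ X₁
    · rw [gA l h]
      exact p₃ l (fun x hx => ⟨hl x hx, h x hx⟩) (fun x hx y hy => (hs x hx y hy).trans_le q₃)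
    · by_cases h' : ∀ x ∈ l, x ∈ X₂
      · rw [hg, T4b_g, if_neg h, if_pos h']
        exact p₄ l (fun x hx => ⟨hl x hx, h' x hx⟩) (fun x hx y hy => (hs x hx y hy).trans_le q₄)
      · rw [hg, T4b_g, if_neg h, if_neg h']
  have FA : ∀ l : List M, (∀ x ∈ l, x ∈ X₁) → (∀ x ∈ l, ∀ y ∈ l, dist x y < η) → F l = 0 := by
    intro l hl hs
    have h1 : D g l = D g₁ l :=
      D_congr fun l' hl' _ => gA l' fun x hx => hl x (hl'.subset hx)
    rw [hF]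
    simp only
    rw [h1]
    exact p₅ l hl (fun x hx y hy => (hs x hx y hy).trans_le q₅)
  have FB : ∀ l : List M, (∀ x ∈ l, x ∈ X₂) → (∀ x ∈ l, ∀ y ∈ l, dist x y < η) → F l = 0 := by
    intro l hl hs
    have h1 : D g l = D g₂ l :=
      D_congr fun l' hl' _ => gB l' (fun x hx => hl x (hl'.subset hx))
        (fun x hx y hy => hs x (hl'.subset hx) y (hl'.subset hy))
    rw [hF]
    simp only
    rw [h1]
    exact p₆ l hl (fun x hx y hy => (hs x hx y hy).trans_le q₆)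
  have FC : ∀ l : List M, (∀ x ∈ l, x ∈ X') → (∀ x ∈ l, ∀ y ∈ l, dist x y < η) → F l = 0 := by
    intro l hl hs
    have h1 : D g l = 0 :=
      D_eq_zero fun l' hl' _ => gC l' (fun x hx => hl x (hl'.subset hx))
        (fun x hx y hy => hs x (hl'.subset hx) y (hl'.subset hy))
    rw [hF]
    simp only
    rw [h1, sub_zero]
    exact p₁ l hl (fun x hx y hy => (hs x hx y hy).trans_le q₁)
  have DF : ∀ l : List M, D F l = D f l := by
    intro l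
    rw [hF, D_sub, D_D, sub_zero]
  -- approximate retractions
  obtain ⟨ρ, hρ, φ, hφX, hφd, hφ⟩ := phi_lemma (h₁.union h₂) (![X₁, X₂, X'] : Fin 3 → Set M)
    (by
      intro i
      fin_cases i
      · exact h₁.isClosed
      · exact h₂.isClosed
      · exact hX') (show 0 < η / 4 by positivity)
  have hφ1 : ∀ x ∈ X₁ ∪ X₂, (∃ y ∈ (X₁ ∪ X₂) ∩ X₁, dist x y < ρ) → φ x ∈ X₁ := hφ 0
  have hφ2 : ∀ x ∈ X₁ ∪ X₂, (∃ y ∈ (X₁ ∪ X₂) ∩ X₂, dist x y < ρ) → φ x ∈ X₂ := hφ 1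
  have hφ3 : ∀ x ∈ X₁ ∪ X₂, (∃ y ∈ (X₁ ∪ X₂) ∩ X', dist x y < ρ) → φ x ∈ X' := hφ 2
  -- entries of prism lists
  have hent : ∀ l : List M, (∀ x ∈ l, x ∈ X₁ ∪ X₂) → (∀ x ∈ l, ∀ y ∈ l, dist x y < η / 4) →
      ∀ l' : List M, (∀ y ∈ l', ∃ x ∈ l, y = id x ∨ y = φ x) →
      (∀ y ∈ l', y ∈ X₁ ∪ X₂) ∧ (∀ x ∈ l', ∀ y ∈ l', dist x y < η) := by
    intro l hl hs l' hl'
    have hd : ∀ y x, (y = id x ∨ y = φ x) → x ∈ X₁ ∪ X₂ → dist y x ≤ η / 4 := by
      intro y x h hx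
      rcases h with h | h
      · rw [h]; simp; positivity
      · rw [h]; exact hφd x hx
    refine ⟨?_, ?_⟩
    · intro y hy
      obtain ⟨x, hx, h⟩ := hl' y hy
      rcases h with h | h
      · rw [h]; exact hl x hx
      · rw [h]; exact hφX x (hl x hx)
    · intro y hy y' hy'
      obtain ⟨x, hx, h⟩ := hl' y hy
      obtain ⟨x', hx', h'⟩ := hl' y' hy'
      have e1 := hd y x h (hl x hx)
      have e2 := hd y' x' h' (hl x' hx')
      have e3 := hs x hx x' hx'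
      have e4 : dist y y' ≤ dist y x + dist x x' + dist x' y' :=
        (dist_triangle y x' y').trans (add_le_add_left (dist_triangle y x x') _)
      rw [dist_comm x' y'] at e4
      linarith
  refine ⟨fun l => g l - prism id φ F l, ?_, ?_⟩
  · refine ⟨min ρ (η / 4), lt_min hρ (by positivity), fun l hl hs => ?_⟩
    have hs' : ∀ x ∈ l, ∀ y ∈ l, dist x y < η / 4 := fun x hx y hy =>
      (hs x hx y hy).trans_le (min_le_right _ _)
    have e1 : g l = 0 := gC l hl fun x hx y hy => (hs' x hx y hy).trans_le (by linarith)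
    have e2 : prism id φ F l = 0 := by
      refine prism_eq_zero fun l' _ hl' => ?_
      obtain ⟨_, k2⟩ := hent l (fun x hx => hsub (hl x hx)) hs' l' hl'
      refine FC l' ?_ k2
      intro y hy
      obtain ⟨x, hx, h⟩ := hl' y hy
      rcases h with h | h
      · rw [h]; exact hl x hx
      · rw [h]
        exact hφ3 x (hsub (hl x hx)) ⟨x, ⟨hsub (hl x hx), hl x hx⟩, by rw [dist_self]; exact hρ⟩
    simp only
    rw [e1, e2, sub_zero]
  · refine ⟨min ρ (η / 4), lt_min hρ (by positivity), fun l hl hs => ?_⟩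
    have hs' : ∀ x ∈ l, ∀ y ∈ l, dist x y < η / 4 := fun x hx y hy =>
      (hs x hx y hy).trans_le (min_le_right _ _)
    have hsρ : ∀ x ∈ l, ∀ y ∈ l, dist x y < ρ := fun x hx y hy =>
      (hs x hx y hy).trans_le (min_le_left _ _)
    simp only
    rw [D_sub]
    have e0 : f l - (D g l - D (prism id φ F) l) = F l + D (prism id φ F) l := by
      rw [hF]; ring
    rw [e0]
    have e1 := D_prism id φ F l
    have e2 : prism id φ (D F) l = 0 := by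
      refine prism_eq_zero fun l' _ hl' => ?_
      obtain ⟨k1, k2⟩ := hent l hl hs' l' hl'
      rw [DF]
      exact p₂ l' k1 fun x hx y hy => (k2 x hx y hy).trans_le q₂
    rw [e2, List.map_id, add_zero] at e1
    have e3 : F (l.map φ) = 0 := by
      have hmapd : ∀ x ∈ l.map φ, ∀ y ∈ l.map φ, dist x y < η := by
        refine (hent l hl hs' (l.map φ) ?_).2
        intro y hy
        obtain ⟨x, hx, rfl⟩ := List.mem_map.1 hy
        exact ⟨x, hx, Or.inr rfl⟩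
      cases l with
      | nil =>
        rw [hF]
        simp only [List.map_nil]
        rw [D_nil, sub_zero, hfnil]
      | cons a l =>
        rcases hl a (by simp) with ha | ha
        · refine FA _ ?_ hmapd
          intro y hy
          obtain ⟨x, hx, rfl⟩ := List.mem_map.1 hy
          exact hφ1 x (hl x hx) ⟨a, ⟨Or.inl ha, ha⟩, hsρ x hx a (by simp)⟩
        · refine FB _ ?_ hmapd
          intro y hy
          obtain ⟨x, hx, rfl⟩ := List.mem_map.1 hy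
          exact hφ2 x (hl x hx) ⟨a, ⟨Or.inr ha, ha⟩, hsρ x hx a (by simp)⟩
    rw [e3] at e1
    linarith

/-- Gluing when the intersection pair is acyclic. -/
theorem glue_acyc {X₁ X₂ X' : Set M} (h₁ : IsCompact X₁) (h₂ : IsCompact X₂) (hX' : IsClosed X')
    (hsub : X' ⊆ X₁ ∪ X₂) (hac : Acyc (X₁ ∩ X₂) (X' ∩ (X₁ ∩ X₂))) {f g₁ g₂ : List M → ℚ}
    (hf : Z X' f) (hDf : Z (X₁ ∪ X₂) (D f))
    (hg₁ : Z (X' ∩ X₁) g₁) (hg₂ : Z (X' ∩ X₂) g₂) (hfg₁ : Z X₁ (fun l => f l - D g₁ l))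
    (hfg₂ : Z X₂ (fun l => f l - D g₂ l)) :
    ∃ g : List M → ℚ, Z X' g ∧ Z (X₁ ∪ X₂) (fun l => f l - D g l) := by
  have hu : Z (X' ∩ (X₁ ∩ X₂)) (fun l => g₁ l - g₂ l) :=
    Z_sub (Z_mono (Set.inter_subset_inter_right _ Set.inter_subset_left) hg₁)
      (Z_mono (Set.inter_subset_inter_right _ Set.inter_subset_right) hg₂)
  have hDu : Z (X₁ ∩ X₂) (D (fun l => g₁ l - g₂ l)) := by
    have h3 := Z_sub (Z_mono (Set.inter_subset_right) hfg₂ : Z (X₁ ∩ X₂) _)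
      (Z_mono (Set.inter_subset_left) hfg₁)
    have e : D (fun l => g₁ l - g₂ l) =
        fun l => (f l - D g₂ l) - (f l - D g₁ l) := by
      funext l
      rw [D_sub]; ring
    rw [e]
    exact h3
  obtain ⟨e, he, hue⟩ := hac _ hu hDu
  obtain ⟨e', he'Z, he'⟩ : ∃ e' : List M → ℚ, Z X' e' ∧
      ∀ l, (∀ x ∈ l, x ∈ X₁ ∩ X₂) → e' l = e l :=
    ⟨_, Z_extend (X₁ := X₁ ∩ X₂) (X' := X') he, fun l hl => if_pos hl⟩
  refine glue_eq h₁ h₂ hX' hsub hf hDf (g₁ := fun l => g₁ l - D e' l) (g₂ := g₂) ?_ hg₂ ?_ hfg₂ ?_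
  · exact Z_sub hg₁ (Z_mono Set.inter_subset_left (Z_D he'Z))
  · have e1 : (fun l => f l - D (fun l => g₁ l - D e' l) l) = fun l => f l - D g₁ l := by
      funext l
      rw [D_sub, D_D, sub_zero]
    rw [e1]
    exact hfg₁
  · obtain ⟨η, hη, hp⟩ := hue
    refine ⟨η, hη, fun l hl hs => ?_⟩
    have h3 := hp l hl hs
    have h4 : D e' l = D e l := D_congr fun l' hl' _ => he' l' fun x hx => hl x (hl'.subset hx)
    simp only at h3 ⊢
    rw [h4]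
    linarith

/-- Excision type statement. -/
theorem Acyc.union {X₁ X₂ : Set M} (h₁ : IsCompact X₁) (h₂ : IsCompact X₂)
    (h : Acyc X₂ (X₁ ∩ X₂)) : Acyc (X₁ ∪ X₂) X₁ := by
  intro f hf hDf
  obtain ⟨g₂, hg₂, hfg₂⟩ := h f (Z_mono Set.inter_subset_left hf)
    (Z_mono Set.subset_union_right hDf)
  refine glue_eq h₁ h₂ h₁.isClosed Set.subset_union_left hf hDf (g₁ := fun _ => 0) (g₂ := g₂)
    (Z_zero _) hg₂ ?_ hfg₂ ?_
  · have e1 : (fun l => f l - D (fun _ : List M => (0 : ℚ)) l) = f := by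
      funext l
      rw [D_zero, sub_zero]
    rw [e1]
    exact hf
  · exact Z_sub (Z_zero _) hg₂

end BU
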