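import Pool.Agent.Work.MP_4030f5_lc.T9a
import Pool.Agent.Work.MP_4030f5_lc.T4b

/-! # T9: truncated total complexes of closed covers -/

namespace BU

variable {M : Type} [MetricSpace M] {n : ℕ}

theorem T9b_min (η : Fin n → ℝ) (hη : ∀ i, 0 < η i) : ∃ δ > 0, ∀ i, δ ≤ η i := by
  rcases isEmpty_or_nonempty (Fin n) with h | h
  · exact ⟨1, one_pos, fun i => h.elim i⟩
  · obtain ⟨i0, _, hi0⟩ := Finset.exists_min_image Finset.univ η Finset.univ_nonempty
    exact ⟨η i0, hη i0, fun i => hi0 i (Finset.mem_univ i)⟩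

theorem T9b_mem {S : Fin n → Set M} {I : List (Fin n)} {x : M} :
    x ∈ (⋂ j ∈ I.toFinset, S j) ↔ ∀ j ∈ I, x ∈ S j := by
  simp

theorem T9b_eval (c : TC n M) (I : List (Fin n)) (τ : List M) :
    D (fun I => c I τ) I = D c I τ :=
  D_map (Pi.evalAddMonoidHom (fun _ : List M => ℚ) τ) c I

theorem T9b_DP2 (N : ℕ) (c : TC n M) (I : List (Fin n)) (τ : List M)
    (h : I.length + τ.length = N + 1) : D (T9a_P N c I) τ = D (c I) τ := by
  apply D_congr
  intro l' _ hl'
  simp only [T9a_P]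
  rw [if_pos (by omega)]

theorem T9b_D_point_nil {c : TC n M} (hc : TN c) (I : List (Fin n)) : D c I [] = 0 := by
  rw [← T9b_eval]
  apply D_eq_zero
  intro l' _ _
  exact hc.2 l'

theorem T9b_key {S : Fin n → Set M} {c : TC n M} (hc : TN c) {N k : ℕ} (hNk : N ≤ k)
    (I : List (Fin n))
    (h1 : ∀ a, I.length + 1 ≤ k →
      Z (⋂ j ∈ (a :: I).toFinset, S j) (T9a_P (N + 1) (DT c) (a :: I)))
    (h2 : ∀ a, I.length + 1 ≤ k → Z (⋂ j ∈ (a :: I).toFinset, S j) (T9a_P N c (a :: I))) :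
    ∃ η > 0, ∀ τ : List M, (∀ x ∈ τ, x ∈ ⋂ j ∈ I.toFinset, S j) →
      (∀ x ∈ τ, ∀ y ∈ τ, dist x y < η) → I.length + τ.length = N →
        ∀ a, (∀ x ∈ τ, x ∈ S a) → D c (a :: I) τ = 0 := by
  by_cases hk : I.length + 1 ≤ k
  · have h3 : ∀ a, ∃ η > 0, ∀ τ : List M, (∀ x ∈ τ, x ∈ ⋂ j ∈ (a :: I).toFinset, S j) →
        (∀ x ∈ τ, ∀ y ∈ τ, dist x y < η) → I.length + τ.length = N → D c (a :: I) τ = 0 := by
      intro a
      obtain ⟨η₁, hη₁, h₁⟩ := h1 a hk
      obtain ⟨η₂, hη₂, h₂⟩ := Z_D (h2 a hk)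
      refine ⟨min η₁ η₂, lt_min hη₁ hη₂, fun τ hτ hd hlen => ?_⟩
      have e1 := h₁ τ hτ (fun x hx y hy => (hd x hx y hy).trans_le (min_le_left _ _))
      have e2 := h₂ τ hτ (fun x hx y hy => (hd x hx y hy).trans_le (min_le_right _ _))
      have hl : (a :: I).length + τ.length = N + 1 := by simp only [List.length_cons]; omega
      rw [T9b_DP2 N c (a :: I) τ hl] at e2
      simp only [T9a_P] at e1
      rw [if_pos hl] at e1
      simp only [DT] at e1
      rw [e2] at e1
      simpa using e1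
    choose η hη h using h3
    obtain ⟨δ, hδ, hδ'⟩ := T9b_min η hη
    refine ⟨δ, hδ, fun τ hτ hd hlen a ha => ?_⟩
    refine h a τ ?_ (fun x hx y hy => (hd x hx y hy).trans_le (hδ' a)) hlen
    intro x hx
    rw [T9b_mem]
    intro j hj
    rcases List.mem_cons.1 hj with rfl | hj
    · exact ha x hx
    · exact T9b_mem.1 (hτ x hx) j hj
  · refine ⟨1, one_pos, fun τ _ _ hlen a _ => ?_⟩
    have : τ = [] := List.length_eq_zero_iff.1 (by omega)
    rw [this]
    exact T9b_D_point_nil hc _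

/-- the contraction in the index variable -/
noncomputable def T9b_K (S : Fin n → Set M) (c : TC n M) : TC n M := fun I τ =>
  open Classical in if h : ∃ i, ∀ x ∈ τ, x ∈ S i then c (h.choose :: I) τ else 0

theorem T9b_K_pos {S : Fin n → Set M} {τ : List M} (h : ∃ i, ∀ x ∈ τ, x ∈ S i) :
    ∃ a, (∀ x ∈ τ, x ∈ S a) ∧ ∀ (c : TC n M) (I : List (Fin n)), T9b_K S c I τ = c (a :: I) τ := by
  refine ⟨h.choose, h.choose_spec, fun c I => ?_⟩
  simp only [T9b_K]
  rw [dif_pos h]

theorem T9b_K_nil {S : Fin n → Set M} {c : TC n M} (hc : TN c) (I : List (Fin n)) :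
    T9b_K S c I [] = 0 := by
  simp only [T9b_K]
  split_ifs
  · exact hc.2 _
  · rfl

/-- cochains concentrated in one index -/
def T9b_Φ (n : ℕ) (f : List M → ℚ) : TC n M := fun I τ => if I.length = 1 then f τ else 0

theorem T9b_TN_Φ {f : List M → ℚ} (hf : f [] = 0) : TN (T9b_Φ n f) := by
  constructor
  · intro τ
    simp [T9b_Φ]
  · intro I
    simp [T9b_Φ, hf]

theorem T9b_DT_Φ (f : List M → ℚ) : DT (T9b_Φ n f) = - T9b_Φ n (D f) := by
  funext I τ
  have h1 : D (T9b_Φ n f) I τ = 0 := by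
    rw [← T9b_eval]
    rcases I with _ | ⟨a, _ | ⟨b, _ | ⟨d, l⟩⟩⟩
    · rfl
    · simp [D, T9b_Φ]
    · simp [D, T9b_Φ]
    · apply D_eq_zero
      intro l' _ hl'
      have : l'.length ≠ 1 := by
        simp only [List.length_cons] at hl'
        omega
      simp [T9b_Φ, this]
  have h2 : D (T9b_Φ n f I) τ = if I.length = 1 then D f τ else 0 := by
    split_ifs with h
    · congr 1
      funext τ
      simp [T9b_Φ, h]
    · have : T9b_Φ n f I = fun _ => 0 := by
        funext τ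
        simp [T9b_Φ, h]
      rw [this, D_zero]
  simp only [DT, h1, h2, Pi.neg_apply, T9b_Φ]
  split_ifs with h
  · rw [h]; ring
  · ring

theorem T9b_trunc {S : Fin n → Set M} {N k : ℕ} (hNk : N ≤ k) (p : ℕ) :
    ∀ c : TC n M, TN c →
      (∀ I : List (Fin n), 2 ≤ I.length → I.length ≤ k →
        Z (⋂ j ∈ I.toFinset, S j) (T9a_P (N + 1) (DT c) I)) →
      (∀ I : List (Fin n), p + 1 < I.length → I.length ≤ k →
        Z (⋂ j ∈ I.toFinset, S j) (T9a_P N c I)) →
      ∃ (e : TC n M) (h : List M → ℚ), TN e ∧ h [] = 0 ∧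
        ZT k (fun J => ⋂ j ∈ J, S j) (T9a_P N (c - DT e - T9b_Φ n h)) := by
  induction p with
  | zero =>
    intro c hc hyp hp
    refine ⟨0, T9b_K S c [], T9a_TN_zero, T9b_K_nil hc [], ?_⟩
    intro I hI hIk
    by_cases hI1 : I.length = 1
    · obtain ⟨η, hη, key⟩ := T9b_key (S := S) hc hNk I
        (fun a ha => hyp (a :: I) (by simp [hI1]) (by simpa using ha))
        (fun a ha => hp (a :: I) (by simp [hI1]) (by simpa using ha))
      refine ⟨η, hη, fun τ hτ hd => ?_⟩
      simp only [T9a_P]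
      split_ifs with hlen
      · obtain ⟨i, rfl⟩ := List.length_eq_one_iff.1 hI1
        have hex : ∃ i, ∀ x ∈ τ, x ∈ S i :=
          ⟨i, fun x hx => T9b_mem.1 (hτ x hx) i (by simp)⟩
        obtain ⟨a, ha, hK⟩ := T9b_K_pos hex
        have e1 := key τ hτ hd hlen a ha
        have e2 : D c [a, i] τ = c [i] τ - c [a] τ := by
          rw [← T9b_eval]
          simp [D]
        rw [T9a_DT_zero]
        simp only [Pi.sub_apply, Pi.zero_apply, T9b_Φ, hK]
        rw [e2] at e1
        simp only [List.length_cons, List.length_nil, if_pos]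
        linarith
      · rfl
    · have h2 : 1 < I.length := by
        have : 0 < I.length := List.length_pos_iff.2 hI
        omega
      have h3 : T9a_P N (c - DT (0 : TC n M) - T9b_Φ n (T9b_K S c [])) I = T9a_P N c I := by
        funext τ
        simp only [T9a_P, T9a_DT_zero, Pi.sub_apply, Pi.zero_apply, T9b_Φ, hI1, if_false, sub_zero]
      rw [h3]
      exact hp I (by omega) hIk
  | succ p ih =>
    intro c hc hyp hp
    set e₀ : TC n M := fun I τ => if I.length = p + 1 then T9b_K S c I τ else 0 with he₀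
    have hlow : ∀ I : List (Fin n), I.length ≠ p + 1 → e₀ I = 0 := by
      intro I hI
      funext τ
      simp [he₀, hI]
    have hN₀ : TN e₀ := by
      constructor
      · intro τ
        simp [he₀]
      · intro I
        simp only [he₀]
        rw [T9b_K_nil hc]
        simp
    have hA : ∀ I : List (Fin n), 2 ≤ I.length → I.length ≤ k →
        Z (⋂ j ∈ I.toFinset, S j) (T9a_P (N + 1) (DT (c - DT e₀)) I) := by
      intro I h2 hk
      rw [T9a_DT_sub, T9a_DT_DT, sub_zero]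
      exact hyp I h2 hk
    have hB : ∀ I : List (Fin n), p + 1 < I.length → I.length ≤ k →
        Z (⋂ j ∈ I.toFinset, S j) (T9a_P N (c - DT e₀) I) := by
      intro I hI hIk
      by_cases hI2 : I.length = p + 2
      · obtain ⟨η, hη, key⟩ := T9b_key (S := S) hc hNk I
          (fun a ha => hyp (a :: I) (by simp [hI2]) (by simpa using ha))
          (fun a ha => hp (a :: I) (by simp [hI2]) (by simpa using ha))
        refine ⟨η, hη, fun τ hτ hd => ?_⟩
        simp only [T9a_P]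
        split_ifs with hlen
        · have hIne : I ≠ [] := by
            rintro rfl
            simp at hI2
          obtain ⟨i, hi⟩ := List.exists_mem_of_ne_nil I hIne
          have hex : ∃ i, ∀ x ∈ τ, x ∈ S i := ⟨i, fun x hx => T9b_mem.1 (hτ x hx) i hi⟩
          obtain ⟨a, ha, hK⟩ := T9b_K_pos hex
          have e1 := key τ hτ hd hlen a ha
          have e2 : DT e₀ I τ = D e₀ I τ := by
            have : e₀ I = fun _ => 0 := hlow I (by omega)
            simp only [DT, this, D_zero]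
            ring
          have e3 : D e₀ I τ = D (fun l => c (a :: l) τ) I := by
            rw [← T9b_eval]
            apply D_congr
            intro l' _ hl'
            simp only [he₀]
            rw [if_pos (by omega), hK]
          have e4 : D (fun l => c (a :: l) τ) I = c I τ - D c (a :: I) τ := by
            have h1 := D_cone a (fun l => c l τ) I
            have h2 := T9b_eval c (a :: I) τ
            rw [h2] at h1
            exact h1
          simp only [Pi.sub_apply]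
          rw [e2, e3, e4, e1]
          ring
        · rfl
      · have h3 : T9a_P N (c - DT e₀) I = T9a_P N c I := by
          funext τ
          have e1 : D e₀ I = 0 := by
            apply D_eq_zero
            intro l' _ hl'
            exact hlow l' (by omega)
          have e2 : e₀ I = fun _ => 0 := hlow I (by omega)
          have e3 : DT e₀ I τ = 0 := by
            simp only [DT, e1, e2, D_zero]
            simp
          simp only [T9a_P, Pi.sub_apply, e3, sub_zero]
        rw [h3]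
        exact hp I (by omega) hIk
    obtain ⟨e, h, he, hh, hZ⟩ := ih (c - DT e₀) (T9a_TN_sub hc (T9a_TN_DT hN₀)) hA hB
    refine ⟨e₀ + e, h, T9a_TN_add hN₀ he, hh, ?_⟩
    have : c - DT (e₀ + e) - T9b_Φ n h = c - DT e₀ - DT e - T9b_Φ n h := by
      rw [T9a_DT_add]
      abel
    rw [this]
    exact hZ

theorem T9b_trunc' {S : Fin n → Set M} {N k : ℕ} (hNk : N ≤ k) {c : TC n M} (hc : TN c)
    (hyp : ∀ I : List (Fin n), 2 ≤ I.length → I.length ≤ k →
        Z (⋂ j ∈ I.toFinset, S j) (T9a_P (N + 1) (DT c) I)) :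
      ∃ (e : TC n M) (h : List M → ℚ), TN e ∧ h [] = 0 ∧
        ZT k (fun J => ⋂ j ∈ J, S j) (T9a_P N (c - DT e - T9b_Φ n h)) := by
  refine T9b_trunc hNk N c hc hyp ?_
  intro I hI _
  have : T9a_P N c I = fun _ => 0 := by
    funext τ
    simp only [T9a_P]
    rw [if_neg (by omega)]
  rw [this]
  exact Z_zero _

/-- lists of points that are close to each other are mapped into one set of the cover -/
theorem T9b_small {S : Fin n → Set M} (hS : ∀ i, IsCompact (S i)) {η : ℝ} (hη : 0 < η) :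
    ∃ ρ > 0, ∃ φ : M → M, (∀ i, ∀ x ∈ S i, φ x ∈ S i) ∧
      (∀ τ : List M, (∀ x ∈ τ, x ∈ ⋃ i, S i) → (∀ x ∈ τ, ∀ y ∈ τ, dist x y < ρ) → τ ≠ [] →
        ∃ i, ∀ x ∈ τ.map φ, x ∈ S i) ∧
      (∀ τ : List M, (∀ x ∈ τ, x ∈ ⋃ i, S i) → (∀ x ∈ τ, ∀ y ∈ τ, dist x y < ρ) →
        ∀ l' : List M, (∀ y ∈ l', ∃ x ∈ τ, y = id x ∨ y = φ x) →
          (∀ x ∈ l', x ∈ ⋃ i, S i) ∧ (∀ x ∈ l', ∀ y ∈ l', dist x y < η)) := by
  have hU : IsCompact (⋃ i, S i) := isCompact_iUnion hS
  obtain ⟨ρ, hρ, φ, hφ1, hφ2, hφ3⟩ := phi_lemma hU S (fun i => (hS i).isClosed)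
    (show (0 : ℝ) < η / 4 by linarith)
  have hφS : ∀ i, ∀ x ∈ S i, φ x ∈ S i := by
    intro i x hx
    have hxU : x ∈ ⋃ i, S i := Set.mem_iUnion.2 ⟨i, hx⟩
    exact hφ3 i x hxU ⟨x, ⟨hxU, hx⟩, by simpa using hρ⟩
  refine ⟨min ρ (η / 4), lt_min hρ (by linarith), φ, hφS, ?_, ?_⟩
  · intro τ hτ hd hne
    obtain ⟨x₀, hx₀⟩ := List.exists_mem_of_ne_nil τ hne
    obtain ⟨i, hi⟩ := Set.mem_iUnion.1 (hτ x₀ hx₀)
    refine ⟨i, fun x hx => ?_⟩
    obtain ⟨y, hy, rfl⟩ := List.mem_map.1 hx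
    exact hφ3 i y (hτ y hy) ⟨x₀, ⟨hτ x₀ hx₀, hi⟩, (hd y hy x₀ hx₀).trans_le (min_le_left _ _)⟩
  · intro τ hτ hd l' hl'
    constructor
    · intro x hx
      obtain ⟨y, hy, h | h⟩ := hl' x hx
      · rw [h]; exact hτ y hy
      · rw [h]; exact hφ1 y (hτ y hy)
    · intro x hx y hy
      obtain ⟨x', hx', hxx⟩ := hl' x hx
      obtain ⟨y', hy', hyy⟩ := hl' y hy
      have h1 : dist x x' ≤ η / 4 := by
        rcases hxx with rfl | rfl
        · simp only [id, dist_self]; linarith
        · exact hφ2 x' (hτ x' hx')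
      have h2 : dist y y' ≤ η / 4 := by
        rcases hyy with rfl | rfl
        · simp only [id, dist_self]; linarith
        · exact hφ2 y' (hτ y' hy')
      have h3 : dist x' y' < η / 4 := (hd x' hx' y' hy').trans_le (min_le_right _ _)
      have h4 : dist x y ≤ dist x x' + dist x' y' + dist y' y := dist_triangle4 _ _ _ _
      rw [dist_comm y' y] at h4
      linarith

theorem T9b_cover {S : Fin n → Set M} (hS : ∀ i, IsCompact (S i)) {m : ℕ} {F : List M → ℚ}
    (hF0 : F [] = 0) (hDF : Z (⋃ i, S i) (D F))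
    (hF : ∀ i, Z (S i) (fun τ => if τ.length = m then F τ else 0)) :
    ∃ g : List M → ℚ, g [] = 0 ∧
      Z (⋃ i, S i) (fun τ => if τ.length = m then F τ - D g τ else 0) := by
  obtain ⟨η₀, hη₀, hD⟩ := hDF
  choose η₁ hη₁ hF₁ using hF
  obtain ⟨δ, hδ, hδ'⟩ := T9b_min η₁ hη₁
  obtain ⟨ρ, hρ, φ, hφS, hφ1, hφ2⟩ := T9b_small hS (show 0 < min η₀ δ from lt_min hη₀ hδ)
  refine ⟨fun τ => - prism id φ F τ, by simp [prism], ρ, hρ, fun τ hτ hd => ?_⟩
  show (if τ.length = m then F τ - D (fun τ => - prism id φ F τ) τ else 0) = 0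
  split_ifs with hm
  · rw [D_neg]
    by_cases hne : τ = []
    · rw [hne]
      simp [hF0, D]
    · have e1 := D_prism id φ F τ
      have e2 : prism id φ (D F) τ = 0 := by
        apply prism_eq_zero
        intro l' _ hl'
        obtain ⟨h1, h2⟩ := hφ2 τ hτ hd l' hl'
        exact hD l' h1 (fun x hx y hy => (h2 x hx y hy).trans_le (min_le_left _ _))
      obtain ⟨i, hi⟩ := hφ1 τ hτ hd hne
      have e3 : F (τ.map φ) = 0 := by
        have hent : ∀ y ∈ τ.map φ, ∃ x ∈ τ, y = id x ∨ y = φ x := by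
          intro y hy
          obtain ⟨x, hx, rfl⟩ := List.mem_map.1 hy
          exact ⟨x, hx, Or.inr rfl⟩
        obtain ⟨_, h2⟩ := hφ2 τ hτ hd (τ.map φ) hent
        have := hF₁ i (τ.map φ) hi (fun x hx y hy =>
          (h2 x hx y hy).trans_le ((min_le_right _ _).trans (hδ' i)))
        simpa [hm] using this
      rw [e2, e3, List.map_id] at e1
      linarith
  · rfl

theorem T9b_ext {S : Fin n → Set M} (hS : ∀ i, IsCompact (S i)) {h : List M → ℚ}
    (hh : h [] = 0) (hD : ∀ i, Z (S i) (D h)) :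
    ∃ f g : List M → ℚ, f [] = 0 ∧ g [] = 0 ∧ Z (⋃ i, S i) (D f) ∧
      ∀ i, Z (S i) (fun τ => h τ - f τ + D g τ) := by
  choose η₁ hη₁ hD₁ using hD
  obtain ⟨δ, hδ, hδ'⟩ := T9b_min η₁ hη₁
  obtain ⟨ρ, hρ, φ, hφS, hφ1, hφ2⟩ := T9b_small hS hδ
  refine ⟨fun τ => h (τ.map φ), prism id φ h, by simpa using hh, by simp [prism], ?_, ?_⟩
  · refine ⟨ρ, hρ, fun τ hτ hd => ?_⟩
    rw [D_comp_map]
    by_cases hne : τ = []
    · rw [hne]
      simp [D]
    · obtain ⟨i, hi⟩ := hφ1 τ hτ hd hne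
      have hent : ∀ y ∈ τ.map φ, ∃ x ∈ τ, y = id x ∨ y = φ x := by
        intro y hy
        obtain ⟨x, hx, rfl⟩ := List.mem_map.1 hy
        exact ⟨x, hx, Or.inr rfl⟩
      obtain ⟨_, h2⟩ := hφ2 τ hτ hd (τ.map φ) hent
      exact hD₁ i (τ.map φ) hi (fun x hx y hy => (h2 x hx y hy).trans_le (hδ' i))
  · intro i
    refine ⟨ρ, hρ, fun τ hτ hd => ?_⟩
    have hτU : ∀ x ∈ τ, x ∈ ⋃ i, S i := fun x hx => Set.mem_iUnion.2 ⟨i, hτ x hx⟩
    have e1 := D_prism id φ h τ
    have e2 : prism id φ (D h) τ = 0 := by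
      apply prism_eq_zero
      intro l' _ hl'
      obtain ⟨_, h2⟩ := hφ2 τ hτU hd l' hl'
      refine hD₁ i l' ?_ (fun x hx y hy => (h2 x hx y hy).trans_le (hδ' i))
      intro x hx
      obtain ⟨y, hy, h | h⟩ := hl' x hx
      · rw [h]; exact hτ y hy
      · rw [h]; exact hφS i y (hτ y hy)
    rw [e2, List.map_id] at e1
    linarith

/-- the comparison map as a linear map -/
def T9b_Φl (n : ℕ) (M : Type) [MetricSpace M] : (List M → ℚ) →ₗ[ℚ] TC n M where
  toFun f := T9b_Φ n f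
  map_add' f g := by
    funext I τ
    simp only [T9b_Φ, Pi.add_apply]
    split_ifs <;> simp
  map_smul' a f := by
    funext I τ
    simp only [T9b_Φ, Pi.smul_apply, RingHom.id_apply]
    split_ifs <;> simp

theorem T9b_Φ_add (f g : List M → ℚ) : T9b_Φ n (fun τ => f τ + g τ) = T9b_Φ n f + T9b_Φ n g :=
  (T9b_Φl n M).map_add f g

theorem T9b_Φ_sub (f g : List M → ℚ) : T9b_Φ n (fun τ => f τ - g τ) = T9b_Φ n f - T9b_Φ n g :=
  (T9b_Φl n M).map_sub f g

theorem T9b_ZT_Φ {S : Fin n → Set M} {k m : ℕ} {f : List M → ℚ}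
    (h : ∀ i, Z (S i) (fun τ => if τ.length = m then f τ else 0)) :
    ZT k (fun J => ⋂ j ∈ J, S j) (T9a_P (m + 1) (T9b_Φ n f)) := by
  intro I hI _
  by_cases h1 : I.length = 1
  · obtain ⟨i, rfl⟩ := List.length_eq_one_iff.1 h1
    have h2 : Z (⋂ j ∈ [i].toFinset, S j) (fun τ => if τ.length = m then f τ else 0) := by
      refine Z_mono ?_ (h i)
      intro x hx
      exact T9b_mem.1 hx i (by simp)
    have h3 : T9a_P (m + 1) (T9b_Φ n f) [i] = fun τ => if τ.length = m then f τ else 0 := by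
      funext τ
      simp only [T9a_P, T9b_Φ, List.length_cons, List.length_nil, zero_add, if_pos]
      have : 1 + τ.length = m + 1 ↔ τ.length = m := by omega
      simp only [this]
    rw [h3]
    exact h2
  · have h3 : T9a_P (m + 1) (T9b_Φ n f) I = fun _ => 0 := by
      funext τ
      simp [T9a_P, T9b_Φ, h1]
    rw [h3]
    exact Z_zero _

theorem T9b_Z_of_ZT {S : Fin n → Set M} {k m : ℕ} (hk : 1 ≤ k) {f : List M → ℚ}
    (h : ZT k (fun J => ⋂ j ∈ J, S j) (T9a_P (m + 1) (T9b_Φ n f))) (i : Fin n) :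
    Z (S i) (fun τ => if τ.length = m then f τ else 0) := by
  have h1 := h [i] (by simp) (by simpa using hk)
  have h3 : T9a_P (m + 1) (T9b_Φ n f) [i] = fun τ => if τ.length = m then f τ else 0 := by
    funext τ
    simp only [T9a_P, T9b_Φ, List.length_cons, List.length_nil, zero_add, if_pos]
    have : 1 + τ.length = m + 1 ↔ τ.length = m := by omega
    simp only [this]
  rw [h3] at h1
  refine Z_mono ?_ h1
  intro x hx
  rw [T9b_mem]
  intro j hj
  have : j = i := by simpa using hj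
  rw [this]
  exact hx

/-- low degree cohomology of the union of a finite family of compact sets is the cohomology of the
truncated total complex of their intersections. -/
theorem HL_union {S : Fin n → Set M} (hS : ∀ i, IsCompact (S i)) {k q : ℕ} (hq : q + 2 ≤ k) :
    Nonempty (HL (⋃ i, S i) (q + 1) ≃ₗ[ℚ] HT k (fun J => ⋂ j ∈ J, S j) (q + 2)) := by
  have hanti : ∀ J J' : Finset (Fin n), J ⊆ J' → (⋂ j ∈ J', S j) ⊆ ⋂ j ∈ J, S j := by
    intro J J' hJ x hx
    simp only [Set.mem_iInter] at hx ⊢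
    exact fun j hj => hx j (hJ hj)
  refine quot_equiv (T9b_Φl n M) ?_ ?_ ?_
  · rintro f ⟨hf0, hf⟩
    refine ⟨T9b_TN_Φ hf0, ?_⟩
    have h1 : DT (T9b_Φl n M f) = - T9b_Φ n (D f) := T9b_DT_Φ f
    rw [h1]
    intro I hI _
    by_cases hI1 : I.length = 1
    · obtain ⟨i, rfl⟩ := List.length_eq_one_iff.1 hI1
      have h2 : (- T9b_Φ n (D f)) [i] = fun τ => - D f τ := by
        funext τ
        simp [T9b_Φ]
      rw [h2]
      refine Z_neg (Z_mono ?_ hf)
      intro x hx
      exact Set.mem_iUnion.2 ⟨i, T9b_mem.1 hx i (by simp)⟩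
    · have h2 : (- T9b_Φ n (D f)) I = fun _ => 0 := by
        funext τ
        simp [T9b_Φ, hI1]
      rw [h2]
      exact Z_zero _
  · rintro f ⟨hf0, hf⟩
    constructor
    · rintro ⟨e, he, h⟩
      have h1 : ZT k (fun J => ⋂ j ∈ J, S j) (T9a_P (q + 2) (T9b_Φ n f - DT e)) := h
      have hyp : ∀ I : List (Fin n), 2 ≤ I.length → I.length ≤ k →
          Z (⋂ j ∈ I.toFinset, S j) (T9a_P (q + 1 + 1) (DT e) I) := by
        intro I h2 hk
        have h3 := h1 I (by rintro rfl; simp at h2) hk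
        have h4 : T9a_P (q + 1 + 1) (DT e) I
            = fun τ => - T9a_P (q + 2) (T9b_Φ n f - DT e) I τ := by
          funext τ
          have h5 : I.length ≠ 1 := by omega
          simp only [T9a_P, T9b_Φ, Pi.sub_apply, h5, if_false]
          split_ifs <;> simp
        rw [h4]
        exact Z_neg h3
      obtain ⟨e', h, _, hh0, hZ⟩ := T9b_trunc' (show q + 1 ≤ k by omega) he hyp
      have h2 := T9a_ZT_DT hanti (T9a_TN_P (q + 1) (T9a_TN_sub (T9a_TN_sub he
        (T9a_TN_DT ‹TN e'›)) (T9b_TN_Φ hh0))).1 hZ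
      rw [T9a_DT_P, T9a_DT_sub, T9a_DT_sub, T9a_DT_DT, sub_zero, T9b_DT_Φ, sub_neg_eq_add] at h2
      have h3 := T9a_ZT_add h1 h2
      have h4 : T9a_P (q + 2) (T9b_Φ n f - DT e) + T9a_P (q + 1 + 1) (DT e + T9b_Φ n (D h))
          = T9a_P (q + 1 + 1) (T9b_Φ n (fun τ => f τ + D h τ)) := by
        rw [T9b_Φ_add, ← T9a_P_add]
        congr 1
        abel
      rw [h4] at h3
      have h5 : ∀ i, Z (S i) (fun τ => if τ.length = q + 1 then f τ + D h τ else 0) :=
        fun i => T9b_Z_of_ZT (by omega) h3 i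
      have h6 : Z (⋃ i, S i) (D (fun τ => f τ + D h τ)) := by
        have : D (fun τ => f τ + D h τ) = D f := by
          funext τ
          rw [D_add, D_D, add_zero]
        rw [this]
        exact hf
      have h7 : (fun τ : List M => f τ + D h τ) [] = 0 := by
        simp [hf0, D]
      obtain ⟨g, hg0, hg⟩ := T9b_cover hS (F := fun τ => f τ + D h τ) h7 h6 h5
      refine ⟨fun τ => g τ - h τ, by simp [hg0, hh0], ?_⟩
      have h8 : (fun l : List M => if l.length = q + 1 then f l - D (fun τ => g τ - h τ) l else 0)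
          = fun l => if l.length = q + 1 then f l + D h l - D g l else 0 := by
        funext l
        rw [D_sub]
        split_ifs <;> ring
      rw [h8]
      exact hg
    · rintro ⟨g, hg0, hg⟩
      refine ⟨- T9b_Φ n g, ?_, ?_⟩
      · have := T9a_TN_smul (-1) (T9b_TN_Φ (n := n) hg0)
        simpa using this
      · have h1 : T9a_P (q + 1 + 1) (T9b_Φ n (fun τ => f τ - D g τ))
            = T9a_P (q + 2) (T9b_Φl n M f - DT (- T9b_Φ n g)) := by
          rw [T9a_DT_neg, T9b_DT_Φ, neg_neg, T9b_Φ_sub]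
          rfl
        have h2 : ZT k (fun J => ⋂ j ∈ J, S j)
            (T9a_P (q + 1 + 1) (T9b_Φ n (fun τ => f τ - D g τ))) := by
          apply T9b_ZT_Φ
          intro i
          exact Z_mono (Set.subset_iUnion S i) hg
        rw [h1] at h2
        exact h2
  · rintro c ⟨hc, hc'⟩
    have hyp : ∀ I : List (Fin n), 2 ≤ I.length → I.length ≤ k →
        Z (⋂ j ∈ I.toFinset, S j) (T9a_P (q + 2 + 1) (DT c) I) := fun I h2 hk =>
      T9a_ZT_P (q + 2 + 1) hc' I (by rintro rfl; simp at h2) hk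
    obtain ⟨e, h, he, hh0, hZ⟩ := T9b_trunc' hq hc hyp
    have h2 := T9a_ZT_DT hanti (T9a_TN_P (q + 2) (T9a_TN_sub (T9a_TN_sub hc
      (T9a_TN_DT he)) (T9b_TN_Φ hh0))).1 hZ
    rw [T9a_DT_P, T9a_DT_sub, T9a_DT_sub, T9a_DT_DT, sub_zero, T9b_DT_Φ, sub_neg_eq_add] at h2
    have h3 := T9a_ZT_sub h2 (T9a_ZT_P (q + 2 + 1) hc')
    have h4 : T9a_P (q + 2 + 1) (DT c + T9b_Φ n (D h)) - T9a_P (q + 2 + 1) (DT c)
        = T9a_P (q + 2 + 1) (T9b_Φ n (D h)) := by
      rw [← T9a_P_sub]
      congr 1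
      abel
    rw [h4] at h3
    have h5 : ∀ i, Z (S i) (fun τ => if τ.length = q + 2 then D h τ else 0) :=
      fun i => T9b_Z_of_ZT (by omega) h3 i
    set h₁ : List M → ℚ := fun τ => if τ.length = q + 1 then h τ else 0 with hh₁
    have h6 : D h₁ = fun τ => if τ.length = q + 2 then D h τ else 0 := by
      funext τ
      split_ifs with hl
      · apply D_congr
        intro l' _ hl'
        simp only [hh₁]
        rw [if_pos (by omega)]
      · apply D_eq_zero
        intro l' _ hl'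
        simp only [hh₁]
        rw [if_neg (by omega)]
    obtain ⟨f, g, hf0, hg0, hfD, hfg⟩ := T9b_ext hS (h := h₁) (by simp [hh₁])
      (fun i => by rw [h6]; exact h5 i)
    refine ⟨f, ⟨hf0, hfD⟩, e + T9b_Φ n g, T9a_TN_add he (T9b_TN_Φ hg0), ?_⟩
    have h7 : ZT k (fun J => ⋂ j ∈ J, S j)
        (T9a_P (q + 1 + 1) (T9b_Φ n (fun τ => h₁ τ - f τ + D g τ))) := by
      apply T9b_ZT_Φ
      intro i
      obtain ⟨η, hη, hfgi⟩ := hfg i
      refine ⟨η, hη, fun l hl hd => ?_⟩
      have h0 : h₁ l - f l + D g l = 0 := hfgi l hl hd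
      show (if l.length = q + 1 then h₁ l - f l + D g l else 0) = 0
      split_ifs
      · exact h0
      · rfl
    have h8 := T9a_ZT_add hZ h7
    have h9 : T9a_P (q + 2) (c - DT e - T9b_Φ n h)
        + T9a_P (q + 1 + 1) (T9b_Φ n (fun τ => h₁ τ - f τ + D g τ))
        = T9a_P (q + 2) (c - T9b_Φl n M f - DT (e + T9b_Φ n g)) := by
      funext I τ
      rw [T9a_DT_add, T9b_DT_Φ]
      have hΦ : T9b_Φl n M f = T9b_Φ n f := rfl
      rw [hΦ]
      simp only [T9a_P, Pi.add_apply, Pi.sub_apply, Pi.neg_apply, T9b_Φ, hh₁]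
      by_cases hl : I.length + τ.length = q + 2
      · by_cases h1 : I.length = 1
        · have hτ : τ.length = q + 1 := by omega
          simp only [if_pos hl, if_pos h1, if_pos hτ]
          ring
        · simp only [if_pos hl, if_neg h1]
          ring
      · simp only [if_neg hl]
        ring
    rw [h9] at h8
    exact h8

end BU
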