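import Pool.Agent.Work.MP_4030f5_lc.T10a
import Pool.Agent.Work.MP_4030f5_lc.T9b
import Pool.Agent.Work.MP_4030f5_lc.T6b

/-! # T10: the low Betti numbers are determined by the types of the tuples of length `≤ k` -/

namespace BU

theorem T10b_aux {k m n : ℕ} (E : (Fin m → ℝ) → (Fin k → ℝ) → Prop)
    (a : Fin n → Fin m → ℝ) (ha : ∀ i, IsCompact {p | E (a i) p})
    (𝓔 : Finset (Fin n) → Set ((Fin n → Fin m → ℝ) × (Fin k → ℝ)))
    (h𝓔 : ∀ J J', J ⊆ J' → 𝓔 J' ⊆ 𝓔 J)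
    (h : ∀ J : Finset (Fin n), J.Nonempty → J.card ≤ k →
      𝓔 J ∩ {p | p.1 = a} = {p | p.1 = a ∧ ∀ j ∈ J, E (a j) p.2} ∧
        Acyc (𝓔 J) (𝓔 J ∩ {p | p.1 = a})) (q : ℕ) (hq : q + 2 ≤ k) :
    betti (⋃ i, {p | E (a i) p} : Set (Fin k → ℝ)) q = Module.finrank ℚ (HT k 𝓔 (q + 2)) := by
  set X : Set (Fin k → ℝ) := ⋃ i, {p | E (a i) p} with hX
  have hXc : IsCompact X := isCompact_iUnion ha
  let φ : (Fin k → ℝ) → (Fin n → Fin m → ℝ) × (Fin k → ℝ) := fun p => (a, p)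
  have hφ : Continuous φ := continuous_const.prodMk continuous_id
  have hinj : Function.Injective φ := fun p p' hp => (Prod.mk.inj hp).2
  let S : Fin n → Set ((Fin n → Fin m → ℝ) × (Fin k → ℝ)) := fun i => φ '' {p | E (a i) p}
  have hS : ∀ i, IsCompact (S i) := fun i => (ha i).image hφ
  have hφX : φ '' X = ⋃ i, S i := by rw [hX, Set.image_iUnion]
  obtain ⟨e1⟩ := HAS_equiv hXc q
  obtain ⟨e2⟩ := HL_image hXc hφ.continuousOn hinj.injOn (q + 1)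
  obtain ⟨e3⟩ := HL_union hS hq
  rw [← hφX] at e3
  have hcongr : ∀ J : Finset (Fin n), J.Nonempty → J.card ≤ k →
      (⋂ j ∈ J, S j) = 𝓔 J ∩ {p | p.1 = a} := by
    intro J hJ hJk
    rw [(h J hJ hJk).1]
    ext p
    simp only [Set.mem_iInter, Set.mem_ofPred_eq, S, Set.mem_image, φ]
    constructor
    · intro hp
      refine ⟨?_, fun j hj => ?_⟩
      · obtain ⟨j, hj⟩ := hJ
        obtain ⟨y, _, hy⟩ := hp j hj
        rw [← hy]
      · obtain ⟨y, hy1, hy⟩ := hp j hj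
        rw [← hy]
        exact hy1
    · rintro ⟨hp1, hp2⟩ j hj
      exact ⟨p.2, hp2 j hj, Prod.ext hp1.symm rfl⟩
  obtain ⟨e4⟩ := HT_congr k hcongr (q + 2)
  obtain ⟨e5⟩ := HT_of_acyc k (𝓔 := 𝓔) (𝓕 := fun J => 𝓔 J ∩ {p | p.1 = a}) h𝓔
    (fun J J' hJJ => Set.inter_subset_inter_left _ (h𝓔 J J' hJJ)) (fun J => Set.inter_subset_left)
    (fun J hJ hJk => (h J hJ hJk).2) (q + 2)
  exact (e1.trans (e2.trans (e3.trans (e4.trans e5.symm)))).finrank_eq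

/-- Theorem 1. -/
theorem low_betti {k m : ℕ} (E : (Fin m → ℝ) → (Fin k → ℝ) → Prop)
    (hE : SA {z : Fin m ⊕ Fin k → ℝ | E (fun i => z (Sum.inl i)) (fun i => z (Sum.inr i))}) :
    ∃ G : (r : ℕ) → List (Fm (Fin r × Fin m)), ∀ (n : ℕ) (a a' : Fin n → Fin m → ℝ),
      (∀ i, IsCompact {p | E (a i) p}) → (∀ i, IsCompact {p | E (a' i) p}) →
      (∀ r ≤ k, ∀ ι : Fin r → Fin n, StrictMono ι →
        SgnEq (G r) (fun z => a (ι z.1) z.2) (fun z => a' (ι z.1) z.2)) →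
      ∀ q, q + 2 ≤ k →
        betti (⋃ i, {p | E (a i) p} : Set (Fin k → ℝ)) q =
          betti (⋃ i, {p | E (a' i) p} : Set (Fin k → ℝ)) q := by
  obtain ⟨G, hG⟩ := types_exist E hE
  refine ⟨G, fun n a a' ha ha' h q hq => ?_⟩
  obtain ⟨𝓔, h𝓔, hs⟩ := sys_exists E G hG a a' ha ha' h
  rw [T10b_aux E a ha 𝓔 h𝓔 (fun J hJ hJk => (hs J hJ hJk).1) q hq,
    T10b_aux E a' ha' 𝓔 h𝓔 (fun J hJ hJk => (hs J hJ hJk).2) q hq]

end BU
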