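import Pool.Agent.Work.MP_4030f5_lc.F1
import Pool.Agent.Work.MP_4030f5_lc.T10b
import Pool.Agent.Work.MP_4030f5_lc.A2
import Pool.Agent.Work.MP_4030f5_lc.A4

/-! # F2: the main theorem for a semialgebraic family -/

namespace BU

/-- a function determined by computable data is computable at the same cost. -/
theorem F2_determined {σ β γ : Type} [Inhabited γ] {D : Set (σ → ℝ)} {c : ℕ}
    {δ : (σ → ℝ) → β} (hδ : Cost D c δ) (φ : (σ → ℝ) → γ)
    (h : ∀ x ∈ D, ∀ y ∈ D, δ x = δ y → φ x = φ y) : Cost D c φ := by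
  classical
  refine (hδ.comp (fun d => if hd : ∃ x, x ∈ D ∧ δ x = d then φ hd.choose else default)).congr ?_
  intro x hx
  have hd : ∃ y, y ∈ D ∧ δ y = δ x := ⟨x, hx, rfl⟩
  simp only [hd, dif_pos]
  exact h _ hd.choose_spec.1 _ hx hd.choose_spec.2

/-- the top Betti number from the alternating sum. -/
theorem F2_alt {k : ℕ} {b b' : ℕ → ℕ} (hlow : ∀ q, q + 2 ≤ k + 1 → b q = b' q)
    (hsum : ∑ q ∈ Finset.range (k + 1), (-1 : ℤ) ^ q * (b q : ℤ) =
      ∑ q ∈ Finset.range (k + 1), (-1 : ℤ) ^ q * (b' q : ℤ)) (q : ℕ) (hq : q < k + 1) :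
    b q = b' q := by
  rcases Nat.lt_or_ge q k with h | h
  · exact hlow q (by omega)
  · obtain rfl : q = k := by omega
    rw [Finset.sum_range_succ, Finset.sum_range_succ] at hsum
    have h1 : ∑ p ∈ Finset.range q, (-1 : ℤ) ^ p * (b p : ℤ) =
        ∑ p ∈ Finset.range q, (-1 : ℤ) ^ p * (b' p : ℤ) := by
      refine Finset.sum_congr rfl (fun p hp => ?_)
      rw [hlow p (by have := Finset.mem_range.1 hp; omega)]
    rw [h1] at hsum
    have h2 : (-1 : ℤ) ^ q * (b q : ℤ) = (-1 : ℤ) ^ q * (b' q : ℤ) := by linarith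
    have h3 : (b q : ℤ) = (b' q : ℤ) := by
      have hne : ((-1 : ℤ) ^ q) ≠ 0 := pow_ne_zero _ (by norm_num)
      exact mul_left_cancel₀ hne h2
    exact_mod_cast h3


section

variable {k m : ℕ}

/-- type data -/
noncomputable def F2_types (G : (r : ℕ) → List (Fm (Fin r × Fin m))) (n : ℕ)
    (p : (r : Fin (k + 1)) × (Fin r → Fin n)) (a : Fin n × Fin m → ℝ) : List SignType :=
  (G p.1).map (fun e => e.sgn (fun z => a (p.2 z.1, z.2)))

theorem F2_types_bdd (G : (r : ℕ) → List (Fm (Fin r × Fin m))) (n : ℕ)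
    (p : (r : Fin (k + 1)) × (Fin r → Fin n)) :
    Bdd (∑ r ∈ Finset.range (k + 1), tsize (G r)) (F2_types (k := k) G n p) := by
  obtain ⟨r, ι⟩ := p
  have h : Bdd (tsize (G r)) (fun x : Fin r × Fin m → ℝ => (G r).map (fun e => e.sgn x)) := by
    refine ⟨G r, le_rfl, fun x y hxy => ?_⟩
    exact List.map_congr_left (fun e he => hxy e he)
  have h2 := h.rename (fun z : Fin r × Fin m => ((ι z.1, z.2) : Fin n × Fin m))
  refine Bdd.mono ?_ h2
  exact Finset.single_le_sum (f := fun r => tsize (G r)) (fun i _ => Nat.zero_le _)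
    (Finset.mem_range.2 r.2)

/-- rows -/
noncomputable def F2_row {n L : ℕ} (E : (Fin m → ℝ) → (Fin (k + 1) → ℝ) → Prop)
    (κ : Fin k → Step n L) (a : Fin n × Fin m → ℝ) : Lev n 1 :=
  Lev.rows k (topLev E a) κ

end

theorem F2_card_sigma (k n : ℕ) (hn : 1 ≤ n) :
    Fintype.card ((r : Fin (k + 1)) × (Fin r → Fin n)) ≤ (k + 1) * n ^ k := by
  rw [Fintype.card_sigma]
  calc ∑ r : Fin (k + 1), Fintype.card (Fin r → Fin n)
      ≤ ∑ _r : Fin (k + 1), n ^ k := by
        refine Finset.sum_le_sum (fun r _ => ?_)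
        rw [Fintype.card_fun, Fintype.card_fin, Fintype.card_fin]
        exact Nat.pow_le_pow_right hn (by omega)
    _ = (k + 1) * n ^ k := by simp

theorem F2_card_rows (k n L : ℕ) (hn : 1 ≤ n) :
    Fintype.card (Fin k → Step n L) ≤ (2 * (L + 1)) ^ k * n ^ k := by
  rw [Fintype.card_fun, Fintype.card_fin]
  simp only [Step, Fintype.card_prod, Fintype.card_option, Fintype.card_fin]
  rw [← Nat.mul_pow]
  refine Nat.pow_le_pow_left ?_ k
  nlinarith

theorem F2_card_step (n L : ℕ) (hn : 1 ≤ n) :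
    Fintype.card (Step n L) ≤ (2 * (L + 1)) * n := by
  simp only [Step, Fintype.card_prod, Fintype.card_option, Fintype.card_fin]
  nlinarith

/-- crude bound for the number of realisable comparison tables -/
theorem F2_log_bound (k n L C D : ℕ) (hn : 1 ≤ n) :
    (4 * ((((n + 1) * L) ^ k * (((n + 1) * L) * ((n + 1) * L))) * C) * C + 4) ^ D ≤
      2 ^ ((3 + (L + 1) * (k + 2) + 2 * C) * (n * D)) := by
  have h1 : (n + 1) * L ≤ 2 ^ (n + L) := by
    rw [pow_add]
    exact Nat.mul_le_mul Nat.lt_two_pow_self.nat_succ_le (Nat.lt_two_pow_self.le)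
  have h2 : ((n + 1) * L) ^ k * (((n + 1) * L) * ((n + 1) * L)) ≤ 2 ^ ((n + L) * (k + 2)) := by
    have : ((n + 1) * L) ^ k * (((n + 1) * L) * ((n + 1) * L)) = ((n + 1) * L) ^ (k + 2) := by ring
    rw [this, pow_mul]
    exact Nat.pow_le_pow_left h1 _
  have h3 : C ≤ 2 ^ C := Nat.lt_two_pow_self.le
  have h4 : 4 * ((((n + 1) * L) ^ k * (((n + 1) * L) * ((n + 1) * L))) * C) * C + 4 ≤
      2 ^ (3 + (n + L) * (k + 2) + 2 * C) := by
    calc 4 * ((((n + 1) * L) ^ k * (((n + 1) * L) * ((n + 1) * L))) * C) * C + 4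
        ≤ 4 * ((2 ^ ((n + L) * (k + 2))) * 2 ^ C) * 2 ^ C + 4 := by gcongr
      _ = 4 * 2 ^ ((n + L) * (k + 2) + 2 * C) + 4 := by ring
      _ ≤ 4 * 2 ^ ((n + L) * (k + 2) + 2 * C) + 4 * 2 ^ ((n + L) * (k + 2) + 2 * C) := by
          have : 1 ≤ 2 ^ ((n + L) * (k + 2) + 2 * C) := Nat.one_le_two_pow
          omega
      _ = 2 ^ (3 + (n + L) * (k + 2) + 2 * C) := by ring
  calc _ ≤ (2 ^ (3 + (n + L) * (k + 2) + 2 * C)) ^ D := Nat.pow_le_pow_left h4 D
    _ = 2 ^ ((3 + (n + L) * (k + 2) + 2 * C) * D) := by rw [pow_mul]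
    _ ≤ _ := by
      refine Nat.pow_le_pow_right (by norm_num) ?_
      have : 3 + (n + L) * (k + 2) + 2 * C ≤ (3 + (L + 1) * (k + 2) + 2 * C) * n := by
        nlinarith [Nat.zero_le (L * (k + 2)), Nat.zero_le C, Nat.mul_le_mul_right (L * (k + 2)) hn, Nat.mul_le_mul_right C hn]
      calc _ ≤ ((3 + (L + 1) * (k + 2) + 2 * C) * n) * D := Nat.mul_le_mul_right _ this
        _ = _ := by ring


/-- functions of a row are piecewise constant with boundedly many break points. -/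
theorem F2_row_pc {k m n L C : ℕ} (E : (Fin m → ℝ) → (Fin (k + 1) → ℝ) → Prop)
    (κ : Fin k → Step n L) (h : BddLev C (fun a => F2_row E κ a)) (a : Fin n × Fin m → ℝ)
    (o : Option (Fin n)) :
    PC ((F2_row E κ a).fn o) ∧ (Bk ((F2_row E κ a).fn o)).ncard ≤ C := by
  have hsn : ∀ t : ℝ, (Fin.snoc (Fin.elim0 : Fin 0 → ℝ) t : Fin 1 → ℝ) = fun _ => t := by
    intro t
    funext i
    have : i = Fin.last 0 := Fin.ext (by simp)
    subst this
    simp [Fin.snoc]
  cases o with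
  | none =>
    have := BddF.pc h.1 a Fin.elim0
    simp only [hsn] at this
    exact this
  | some i =>
    have := BddF.pc (h.2 i) a Fin.elim0
    simp only [hsn] at this
    exact this

/-- the data that determine the Betti numbers -/
theorem F2_data {k m : ℕ} (E : (Fin m → ℝ) → (Fin (k + 1) → ℝ) → Prop)
    (hE : SA {z : Fin m ⊕ Fin (k + 1) → ℝ | E (fun i => z (Sum.inl i)) (fun i => z (Sum.inr i))}) :
    ∃ (G : (r : ℕ) → List (Fm (Fin r × Fin m))) (L C : ℕ), ∀ n : ℕ,
      (∀ κ : Fin k → Step n L, BddLev C (fun a => F2_row E κ a)) ∧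
      ∀ a a' : Fin n × Fin m → ℝ,
        (∀ i, IsCompact {p | E (fun j => a (i, j)) p}) →
        (∀ i, IsCompact {p | E (fun j => a' (i, j)) p}) →
        (∀ p, F2_types (k := k + 1) G n p a = F2_types (k := k + 1) G n p a') →
        (∀ (κ : Fin k → Step n L) o,
          loc L ((F2_row E κ a).fn o) = loc L ((F2_row E κ a').fn o)) →
        (∀ (κ : Fin k → Step n L) (u v : Step n L),
          ocmp ((F2_row E κ a).val u) ((F2_row E κ a).val v) =
          ocmp ((F2_row E κ a').val u) ((F2_row E κ a').val v)) →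
        ∀ q : Fin (k + 1),
          betti (⋃ i : Fin n, {p | E (fun j => a (i, j)) p} : Set (Fin (k + 1) → ℝ)) q =
          betti (⋃ i : Fin n, {p | E (fun j => a' (i, j)) p} : Set (Fin (k + 1) → ℝ)) q := by
  obtain ⟨G, hG⟩ := low_betti E hE
  obtain ⟨L₀, hL₀⟩ := euler_rows E hE
  obtain ⟨C₀, hC₀⟩ := topLev_bdd E hE
  obtain ⟨C₁, hC₁⟩ := BddLev.rows C₀ k
  refine ⟨G, max L₀ C₁, C₁, fun n => ⟨fun κ => hC₁ _ n _ _ (hC₀ n) κ, ?_⟩⟩
  intro a a' ha ha' htypes hloc hcmp q
  refine F2_alt (k := k)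
    (b := fun q => betti (⋃ i : Fin n, {p | E (fun j => a (i, j)) p} : Set (Fin (k + 1) → ℝ)) q)
    (b' := fun q => betti (⋃ i : Fin n, {p | E (fun j => a' (i, j)) p} : Set (Fin (k + 1) → ℝ)) q)
    ?_ ?_ q q.2
  · intro q hq
    refine hG n (fun i j => a (i, j)) (fun i j => a' (i, j)) ha ha' ?_ q hq
    intro r hr ι _ e he
    have h1 := htypes ⟨⟨r, by omega⟩, ι⟩
    have h2 := (List.map_inj_left.1 h1) e he
    exact h2
  · rw [hL₀ _ (le_max_left _ _) n (fun i j => a (i, j)) ha,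
      hL₀ _ (le_max_left _ _) n (fun i j => a' (i, j)) ha']
    congr 1
    refine Finset.sum_congr rfl (fun κ _ => ?_)
    have hb : BddLev C₁ (fun a => F2_row (L := max L₀ C₁) E κ a) := hC₁ _ n _ _ (hC₀ n) κ
    exact row_determined (L := max L₀ C₁) (F2_row E κ a) (F2_row E κ a')
      (fun o => (F2_row_pc E κ hb a o).1) (fun o => (F2_row_pc E κ hb a' o).1)
      (fun o => (F2_row_pc E κ hb a o).2.trans (le_max_right _ _))
      (fun o => (F2_row_pc E κ hb a' o).2.trans (le_max_right _ _))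
      (hloc κ) (hcmp κ)

/-- the Betti numbers are computed by the types of all tuples of length `≤ k`, the local data of
the rows and the comparison tables of the rows. -/
theorem core {k m : ℕ} (hk : 2 ≤ k) (E : (Fin m → ℝ) → (Fin k → ℝ) → Prop)
    (hE : SA {z : Fin m ⊕ Fin k → ℝ | E (fun i => z (Sum.inl i)) (fun i => z (Sum.inr i))}) :
    ∃ C : ℕ, ∀ n : ℕ,
      Cost {a : Fin n × Fin m → ℝ | ∀ i, IsCompact {p | E (fun j => a (i, j)) p}} (C * n ^ k)
        (fun a => (fun q : Fin k =>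
          betti (⋃ i : Fin n, {p | E (fun j => a (i, j)) p} : Set (Fin k → ℝ)) q)) := by
  obtain ⟨k, rfl⟩ : ∃ k', k = k' + 1 := ⟨k - 1, by omega⟩
  obtain ⟨G, L, C₁, hdata⟩ := F2_data E hE
  obtain ⟨C₂, hC₂⟩ := bdd_loc C₁
  obtain ⟨C₃, hC₃⟩ := bdd_ocmp C₁
  set S : ℕ := ∑ r ∈ Finset.range (k + 1 + 1), tsize (G r) with hS
  set P : ℕ := 2 * (L + 1) with hP
  set Q : ℕ := 3 + (L + 1) * (k + 2) + 2 * C₃ with hQ
  refine ⟨(k + 2) * (3 * S) + (P ^ k * 2) * (3 * C₂) +
    (3 * C₃) * (4 * (P ^ k * P) + 4 * (Q * m) + 4), fun n => ?_⟩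
  rcases Nat.eq_zero_or_pos n with rfl | hn
  · refine ((Cost.const _ (fun q : Fin (k + 1) =>
      betti (⋃ i : Fin 0, {p | E (fun j => (0 : ℝ)) p} : Set (Fin (k + 1) → ℝ)) q)).mono
        le_rfl (Nat.zero_le _)).congr ?_
    intro a _
    funext q
    have h1 : (⋃ i : Fin 0, {p | E (fun j => (0 : ℝ)) p} : Set (Fin (k + 1) → ℝ)) =
        (⋃ i : Fin 0, {p | E (fun j => a (i, j)) p}) := by
      simp
    rw [h1]
  obtain ⟨hbdd, hdet⟩ := hdata n
  set D : Set (Fin n × Fin m → ℝ) :=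
    {a : Fin n × Fin m → ℝ | ∀ i, IsCompact {p | E (fun j => a (i, j)) p}} with hD
  -- the three kinds of data
  have c1 : Cost D (((k + 2) * n ^ (k + 1)) * (3 * S))
      (fun a p => F2_types (k := k + 1) G n p a) := by
    refine (Cost.pi (c := 3 * S) (fun p => ?_)).mono (Set.Subset.refl D)
      (Nat.mul_le_mul_right _ (F2_card_sigma (k + 1) n hn))
    exact (Cost.of_bdd (F2_types_bdd G n p)).mono (Set.subset_univ _) le_rfl
  have c2 : Cost D ((P ^ k * n ^ k * (2 * n)) * (3 * C₂))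
      (fun a (z : (Fin k → Step n L) × Option (Fin n)) => loc L ((F2_row E z.1 a).fn z.2)) := by
    refine (Cost.pi (c := 3 * C₂) (fun z => ?_)).mono (Set.Subset.refl D)
      (Nat.mul_le_mul_right _ ?_)
    · exact (Cost.of_bdd (hC₂ _ n L _ (hbdd z.1) z.2)).mono (Set.subset_univ _) le_rfl
    · rw [Fintype.card_prod, Fintype.card_option, Fintype.card_fin]
      exact Nat.mul_le_mul (F2_card_rows k n L hn) (by omega)
  have c3 : Cost D ((3 * C₃) * (4 * (P ^ k * n ^ k * (P * n)) + 4 * (Q * (n * (n * m))) + 4))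
      (fun a => (fun (κ : Fin k → Step n L) (u v : Step n L) =>
        ocmp ((F2_row E κ a).val u) ((F2_row E κ a).val v))) := by
    refine (fredman D (3 * C₃) (Q * (n * (n * m))) (fun κ u a => (F2_row E κ a).val u)
      (fun κ u v => ?_) ?_).mono (Set.Subset.refl D) ?_
    · exact (Cost.of_bdd (hC₃ _ n L _ (hbdd κ) u v)).mono (Set.subset_univ _) le_rfl
    · have hw := warren_bdd (C := C₃)
        (fun (z : (Fin k → Step n L) × (Step n L × Step n L)) (a : Fin n × Fin m → ℝ) =>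
          ocmp ((F2_row E z.1 a).val z.2.1) ((F2_row E z.1 a).val z.2.2))
        (fun z => hC₃ _ n L _ (hbdd z.1) z.2.1 z.2.2) D
      have hcard : Fintype.card ((Fin k → Step n L) × (Step n L × Step n L)) =
          ((n + 1) * L) ^ k * (((n + 1) * L) * ((n + 1) * L)) := by
        simp [Fintype.card_prod, Step]
      have hcard' : Fintype.card (Fin n × Fin m) = n * m := by simp
      rw [hcard, hcard'] at hw
      refine le_trans ?_ (hw.trans (F2_log_bound k n L C₃ (n * m) hn))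
      have himg : ((fun a => (fun (κ : Fin k → Step n L) (u v : Step n L) =>
          ocmp ((F2_row E κ a).val u) ((F2_row E κ a).val v))) '' D) =
          (fun (f : (Fin k → Step n L) × (Step n L × Step n L) → Ordering)
            (κ : Fin k → Step n L) (u v : Step n L) => f (κ, (u, v))) ''
          ((fun (a : Fin n × Fin m → ℝ) (z : (Fin k → Step n L) × (Step n L × Step n L)) =>
            ocmp ((F2_row E z.1 a).val z.2.1) ((F2_row E z.1 a).val z.2.2)) '' D) := by
        rw [Set.image_image]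
      rw [himg]
      exact Set.ncard_image_le (Set.toFinite _)
    · refine Nat.mul_le_mul_left _ ?_
      have := Nat.mul_le_mul (F2_card_rows k n L hn) (F2_card_step n L hn)
      rw [← hP] at this
      omega
  have hall := (c1.prod c2).prod c3
  refine (F2_determined hall _ ?_).mono (Set.Subset.refl _) ?_
  · intro a ha a' ha' hda
    simp only [Prod.mk.injEq] at hda
    obtain ⟨⟨h1, h2⟩, h3⟩ := hda
    funext q
    refine hdet a a' ha ha' (fun p => congrFun h1 p) (fun κ o => congrFun h2 (κ, o)) ?_ q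
    intro κ u v
    exact congrFun (congrFun (congrFun h3 κ) u) v
  · have e1 : ((k + 2) * n ^ (k + 1)) * (3 * S) = ((k + 2) * (3 * S)) * n ^ (k + 1) := by ring
    have e2 : (P ^ k * n ^ k * (2 * n)) * (3 * C₂) = ((P ^ k * 2) * (3 * C₂)) * n ^ (k + 1) := by
      ring
    have e3 : (3 * C₃) * (4 * (P ^ k * n ^ k * (P * n)) + 4 * (Q * (n * (n * m))) + 4) ≤
        ((3 * C₃) * (4 * (P ^ k * P) + 4 * (Q * m) + 4)) * n ^ (k + 1) := by
      have h2 : n ^ 2 ≤ n ^ (k + 1) := Nat.pow_le_pow_right hn (by omega)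
      have h0 : 1 ≤ n ^ (k + 1) := Nat.one_le_pow _ _ hn
      calc (3 * C₃) * (4 * (P ^ k * n ^ k * (P * n)) + 4 * (Q * (n * (n * m))) + 4)
          = (3 * C₃) * (4 * (P ^ k * P) * n ^ (k + 1) + 4 * (Q * m) * n ^ 2 + 4) := by ring
        _ ≤ (3 * C₃) * (4 * (P ^ k * P) * n ^ (k + 1) + 4 * (Q * m) * n ^ (k + 1) +
              4 * n ^ (k + 1)) := by
            refine Nat.mul_le_mul_left _ ?_
            have := Nat.mul_le_mul_left (4 * (Q * m)) h2
            omega
        _ = _ := by ring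
    rw [e1, e2]
    calc _ ≤ ((k + 2) * (3 * S)) * n ^ (k + 1) + ((P ^ k * 2) * (3 * C₂)) * n ^ (k + 1) +
          ((3 * C₃) * (4 * (P ^ k * P) + 4 * (Q * m) + 4)) * n ^ (k + 1) :=
          Nat.add_le_add_left e3 _
      _ = _ := by ring

end BU
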