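import Pool.Agent.Work.MP_4030f5_lc.F2

/-! # F3: the main theorem for sets of constant description complexity -/

namespace BU

section reindex

variable {σ σ' β : Type}

/-- rename the input registers -/
def F3_map (r : σ → σ') : ACT σ β → ACT σ' β
  | .leaf b => .leaf b
  | .const i c T => .const i c (F3_map r T)
  | .op o i u v T => .op o i (Sum.map r id u) (Sum.map r id v) (F3_map r T)
  | .branch u T₁ T₂ T₃ => .branch (Sum.map r id u) (F3_map r T₁) (F3_map r T₂) (F3_map r T₃)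

theorem F3_depth_map (r : σ → σ') (T : ACT σ β) : (F3_map r T).depth = T.depth := by
  induction T with
  | leaf b => rfl
  | const i c T ih => simp [F3_map, ACT.depth, ih]
  | op o i u v T ih => simp [F3_map, ACT.depth, ih]
  | branch u T₁ T₂ T₃ h₁ h₂ h₃ => simp [F3_map, ACT.depth, h₁, h₂, h₃]

theorem F3_elim (r : σ → σ') (x : σ' → ℝ) (s : ℕ → ℝ) (u : σ ⊕ ℕ) :
    Sum.elim x s (Sum.map r id u) = Sum.elim (fun i => x (r i)) s u := by
  cases u <;> rfl

theorem F3_run_map (r : σ → σ') (T : ACT σ β) (x : σ' → ℝ) (s : ℕ → ℝ) :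
    (F3_map r T).run x s = T.run (fun i => x (r i)) s := by
  induction T generalizing s with
  | leaf b => rfl
  | const i c T ih => simp [F3_map, ACT.run, ih]
  | op o i u v T ih => simp only [F3_map, ACT.run, ih, F3_elim]
  | branch u T₁ T₂ T₃ h₁ h₂ h₃ => simp only [F3_map, ACT.run, h₁, h₂, h₃, F3_elim]

theorem F3_reindex {D : Set (σ → ℝ)} {c : ℕ} {φ : (σ → ℝ) → β} (h : Cost D c φ) (r : σ → σ') :
    Cost {x : σ' → ℝ | (fun i => x (r i)) ∈ D} c (fun x => φ (fun i => x (r i))) := by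
  obtain ⟨T, hT, hrun⟩ := h
  exact ⟨F3_map r T, by rw [F3_depth_map]; exact hT,
    fun x hx s => by rw [F3_run_map]; exact hrun _ hx s⟩

end reindex

section family

variable {σ : Type}

/-- sums and products of lists of expressions -/
def F3_sum : List (Fm σ) → Fm σ
  | [] => .const 0
  | e :: l => .add e (F3_sum l)

def F3_prod : List (Fm σ) → Fm σ
  | [] => .const 1
  | e :: l => .mul e (F3_prod l)

theorem F3_eval_sum (l : List (Fm σ)) (x : σ → ℝ) :
    (F3_sum l).eval x = (l.map (fun e => e.eval x)).sum := by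
  induction l with
  | nil => simp [F3_sum, Fm.eval]
  | cons e l ih => simp [F3_sum, Fm.eval, ih]

theorem F3_eval_prod (l : List (Fm σ)) (x : σ → ℝ) :
    (F3_prod l).eval x = (l.map (fun e => e.eval x)).prod := by
  induction l with
  | nil => simp [F3_prod, Fm.eval]
  | cons e l ih => simp [F3_prod, Fm.eval, ih]

/-- the polynomial number `j` as an expression in coefficients and coordinates; `ρ` gives the
coefficient variables. -/
noncomputable def F3_poly {k c : ℕ} {M : Type} (ρ : Fin c × Mon k c → M) (j : Fin c) :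
    Fm (M ⊕ Fin k) :=
  F3_sum ((Finset.univ : Finset (Mon k c)).toList.map (fun μ =>
    .mul (.var (Sum.inl (ρ (j, μ)))) (F3_prod ((List.finRange k).map (fun i =>
      F3_prod (List.replicate ((μ.1 i : Fin (c + 1)) : ℕ) (.var (Sum.inr i))))))))

theorem F3_eval_poly {k c : ℕ} {M : Type} (ρ : Fin c × Mon k c → M) (j : Fin c)
    (z : M ⊕ Fin k → ℝ) :
    (F3_poly ρ j).eval z = polyVal (fun w => z (Sum.inl (ρ w))) j (fun i => z (Sum.inr i)) := by
  unfold F3_poly polyVal
  rw [F3_eval_sum, List.map_map]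
  rw [Finset.sum_map_toList]
  refine Finset.sum_congr rfl (fun μ _ => ?_)
  simp only [Function.comp, Fm.eval, F3_eval_prod, List.map_map]
  congr 1
  rw [← List.ofFn_eq_map, List.prod_ofFn]
  refine Finset.prod_congr rfl (fun i _ => ?_)
  simp [F3_eval_prod, Fm.eval]

theorem F3_SA_semi {k c : ℕ} {M : Type} (ρ : Fin c × Mon k c → M) (φ : Shape c) :
    SA {z : M ⊕ Fin k → ℝ | (fun i => z (Sum.inr i)) ∈ semiSet φ (fun w => z (Sum.inl (ρ w)))} := by
  refine ⟨(List.finRange c).map (F3_poly ρ), fun x y hxy => ?_⟩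
  have h : (fun j => SignType.sign (polyVal (fun w => x (Sum.inl (ρ w))) j
      (fun i => x (Sum.inr i)))) =
      (fun j => SignType.sign (polyVal (fun w => y (Sum.inl (ρ w))) j (fun i => y (Sum.inr i)))) := by
    funext j
    have := hxy (F3_poly ρ j) (List.mem_map.2 ⟨j, List.mem_finRange j, rfl⟩)
    simpa only [Fm.sgn, F3_eval_poly] using this
  simp only [Set.mem_ofPred_eq, semiSet]
  rw [h]

end family

theorem main (k : ℕ) (hk : 2 ≤ k) (c : ℕ) :
    ∃ C : ℕ, ∀ (n : ℕ) (φ : Fin n → Shape c),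
      ∃ T : ACT (Fin n × (Fin c × Mon k c)) (Fin k → ℕ), T.depth ≤ C * n ^ k ∧
        ∀ (a : Fin n → Coef k c) (s : ℕ → ℝ), (∀ i, IsCompact (semiSet (φ i) (a i))) →
          ∀ q : Fin k, T.run (fun z => a z.1 z.2) s q =
            betti (⋃ i, semiSet (φ i) (a i) : Set (Fin k → ℝ)) q := by
  classical
  -- the universal family
  set ν : Type := Fin c × Mon k c with hν
  let m : ℕ := Fintype.card (ν ⊕ Unit)
  let e : (ν ⊕ Unit) ≃ Fin m := Fintype.equivFin _
  let sh : Shape c ≃ Fin (Fintype.card (Shape c)) := Fintype.equivFin _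
  let E : (Fin m → ℝ) → (Fin k → ℝ) → Prop := fun p x =>
    ∃ ψ : Shape c, p (e (Sum.inr ())) = ((sh ψ : ℕ) : ℝ) ∧
      x ∈ semiSet ψ (fun w => p (e (Sum.inl w)))
  have hE : SA {z : Fin m ⊕ Fin k → ℝ |
      E (fun i => z (Sum.inl i)) (fun i => z (Sum.inr i))} := by
    have h1 : {z : Fin m ⊕ Fin k → ℝ | E (fun i => z (Sum.inl i)) (fun i => z (Sum.inr i))} =
        ⋃ ψ : Shape c, ({z : Fin m ⊕ Fin k → ℝ | z (Sum.inl (e (Sum.inr ()))) = ((sh ψ : ℕ) : ℝ)} ∩
          {z : Fin m ⊕ Fin k → ℝ | (fun i => z (Sum.inr i)) ∈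
            semiSet ψ (fun w => z (Sum.inl (e (Sum.inl w))))}) := by
      ext z
      simp [E]
    rw [h1]
    refine SA.iUnion (fun ψ => SA.inter ?_ (F3_SA_semi (fun w => e (Sum.inl w)) ψ))
    have h2 : {z : Fin m ⊕ Fin k → ℝ | z (Sum.inl (e (Sum.inr ()))) = ((sh ψ : ℕ) : ℝ)} =
        {z | (Fm.var (Sum.inl (e (Sum.inr ()))) : Fm (Fin m ⊕ Fin k)).eval z ≤
          (Fm.const ((sh ψ : ℕ) : ℤ)).eval z} ∩
        {z | (Fm.const ((sh ψ : ℕ) : ℤ) : Fm (Fin m ⊕ Fin k)).eval z ≤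
          (Fm.var (Sum.inl (e (Sum.inr ())))).eval z} := by
      ext z
      simp [Fm.eval, le_antisymm_iff]
    rw [h2]
    exact SA.inter (SA.le _ _) (SA.le _ _)
  obtain ⟨C, hC⟩ := core hk E hE
  refine ⟨C + 1, fun n φ => ?_⟩
  -- reindex the inputs
  let r : Fin n × Fin m → (Fin n × ν) ⊕ Fin n := fun z =>
    Sum.elim (fun w => Sum.inl (z.1, w)) (fun _ => Sum.inr z.1) (e.symm z.2)
  have h1 := F3_reindex (hC n) r
  have h2 := h1.specialize (fun i : Fin n => ((sh (φ i) : ℕ) : ℤ))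
  obtain ⟨T, hT, hrun⟩ := h2
  refine ⟨T, ?_, ?_⟩
  · refine hT.trans ?_
    rw [Fintype.card_fin, Nat.add_mul, Nat.one_mul]
    refine Nat.add_le_add_left ?_ _
    rcases Nat.eq_zero_or_pos n with rfl | hn
    · exact Nat.zero_le _
    · calc n = n ^ 1 := (pow_one n).symm
        _ ≤ n ^ k := Nat.pow_le_pow_right hn (by omega)
  intro a s ha q
  -- the fibres
  have key : ∀ i : Fin n, {p : Fin k → ℝ | E (fun j => (Sum.elim (fun z : Fin n × ν => a z.1 z.2)
      (fun i => (((sh (φ i) : ℕ) : ℤ) : ℝ)) : (Fin n × ν) ⊕ Fin n → ℝ) (r (i, j))) p} =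
      semiSet (φ i) (a i) := by
    intro i
    ext p
    have hA : ∀ w : ν, r (i, e (Sum.inl w)) = Sum.inl (i, w) := by
      intro w; simp [r]
    have hB : r (i, e (Sum.inr ())) = Sum.inr i := by simp [r]
    simp only [E, Set.mem_ofPred_eq, hA, hB, Sum.elim_inl, Sum.elim_inr]
    constructor
    · rintro ⟨ψ, h1, h2⟩
      have h3 : sh (φ i) = sh ψ := by
        apply Fin.ext
        have : (((sh (φ i) : ℕ) : ℤ) : ℝ) = ((sh ψ : ℕ) : ℝ) := h1
        exact_mod_cast this
      rw [sh.injective h3]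
      exact h2
    · intro h
      exact ⟨φ i, by push_cast; rfl, h⟩
  have hmem : (fun z : Fin n × ν => a z.1 z.2) ∈ {x : Fin n × ν → ℝ |
      (Sum.elim x (fun i => (((sh (φ i) : ℕ) : ℤ) : ℝ)) : (Fin n × ν) ⊕ Fin n → ℝ) ∈
        {x : (Fin n × ν) ⊕ Fin n → ℝ | (fun i => x (r i)) ∈
          {a : Fin n × Fin m → ℝ | ∀ i, IsCompact {p | E (fun j => a (i, j)) p}}}} := by
    intro i
    have := key i
    simp only at this ⊢
    rw [this]
    exact ha i
  have h3 := congrFun (hrun _ hmem s) q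
  rw [h3]
  have h4 : (⋃ i : Fin n, {p : Fin k → ℝ | E (fun j => (Sum.elim (fun z : Fin n × ν => a z.1 z.2)
      (fun i => (((sh (φ i) : ℕ) : ℤ) : ℝ)) : (Fin n × ν) ⊕ Fin n → ℝ) (r (i, j))) p}) =
      ⋃ i, semiSet (φ i) (a i) := Set.iUnion_congr key
  exact congrArg (fun X : Set (Fin k → ℝ) => betti X (q : ℕ)) h4

end BU
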