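import Pool.Agent.Work.MP_4030f5_lc.F3
import Pool.Agent.Work.MP_4030f5_lc.B4

/-! # F4: finiteness of the cohomology, final form -/

namespace BU

/-- the set described by `φ` and `a` as a member of a semialgebraic family. -/
theorem F4_SA {k c n : ℕ} (φ : Fin n → Shape c) :
    SA {z : (Fin n × (Fin c × Mon k c)) ⊕ Fin k → ℝ |
      ∃ i, (fun t => z (Sum.inr t)) ∈ semiSet (φ i) (fun w => z (Sum.inl (i, w)))} := by
  have : {z : (Fin n × (Fin c × Mon k c)) ⊕ Fin k → ℝ |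
      ∃ i, (fun t => z (Sum.inr t)) ∈ semiSet (φ i) (fun w => z (Sum.inl (i, w)))} =
      ⋃ i, {z | (fun t => z (Sum.inr t)) ∈ semiSet (φ i) (fun w => z (Sum.inl (i, w)))} := by
    ext z; simp
  rw [this]
  exact SA.iUnion (fun i => F3_SA_semi (fun w => (i, w)) (φ i))

theorem F4_fincoh {k c n : ℕ} (φ : Fin n → Shape c) (a : Fin n → Coef k c)
    (ha : ∀ i, IsCompact (semiSet (φ i) (a i))) :
    ∃ χ : ℤ, FinCoh (⋃ i, semiSet (φ i) (a i) : Set (Fin k → ℝ)) (max k 1) χ := by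
  obtain ⟨G, hG⟩ := cyl_exists (k := k) (σ := Fin n × (Fin c × Mon k c))
    (fun b y => ∃ i, y ∈ semiSet (φ i) (fun w => b (i, w))) (F4_SA φ)
  have h1 := (hG (fun z => a z.1 z.2)).pullback
    (fun _ : Unit => (⟨fun z => a z.1 z.2, SgnEq.refl _ _⟩ : cls G (fun z => a z.1 z.2)))
    continuous_const
  refine ⟨_, cyl_fincoh (isCompact_iUnion ha) ?_⟩
  have h2 : (fun (_ : Unit) (y : Fin k → ℝ) => y ∈ ⋃ i, semiSet (φ i) (a i)) =
      (fun (_ : Unit) (y : Fin k → ℝ) => ∃ i, y ∈ semiSet (φ i) (fun w => a i w)) := by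
    funext _ y
    exact propext Set.mem_iUnion
  rw [h2]
  exact h1

theorem finite_cohomology {k c n : ℕ} (φ : Fin n → Shape c) (a : Fin n → Coef k c)
    (ha : ∀ i, IsCompact (semiSet (φ i) (a i))) (q : ℕ) :
    Module.Finite ℚ (HAS (⋃ i, semiSet (φ i) (a i) : Set (Fin k → ℝ)) q) := by
  obtain ⟨χ, hχ⟩ := F4_fincoh φ a ha
  obtain ⟨e⟩ := HAS_equiv (isCompact_iUnion ha) q
  have := hχ.fin q
  exact Module.Finite.equiv e.symm

/-- the Betti numbers in degrees at least `k` vanish (`k ≥ 1`). -/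
theorem betti_eq_zero {k c n : ℕ} (hk : 1 ≤ k) (φ : Fin n → Shape c) (a : Fin n → Coef k c)
    (ha : ∀ i, IsCompact (semiSet (φ i) (a i))) (q : ℕ) (hq : k ≤ q) :
    betti (⋃ i, semiSet (φ i) (a i) : Set (Fin k → ℝ)) q = 0 := by
  obtain ⟨χ, hχ⟩ := F4_fincoh φ a ha
  obtain ⟨e⟩ := HAS_equiv (isCompact_iUnion ha) q
  unfold betti
  rw [e.finrank_eq]
  exact hχ.van q (by omega)

end BU
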