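import Pool.Agent.Work.MP_4030f5_lc.F3
import Pool.Agent.Work.MP_4030f5_lc.QDefs

/-! # F5: the main theorem for sets described by first order formulas -/

namespace BU

/-- quantification preserves semialgebraic families. -/
theorem F5_quant {σ : Type} (r : ℕ) (Q : Fin r → Bool) (P : (σ → ℝ) → (Fin r → ℝ) → Prop)
    (h : SA {z : σ ⊕ Fin r → ℝ | P (fun i => z (Sum.inl i)) (fun i => z (Sum.inr i))}) :
    SA {b : σ → ℝ | quant r Q (P b)} := by
  induction r generalizing σ with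
  | zero =>
    have h1 := h.rename (fun z : σ ⊕ Fin 0 => Sum.elim id Fin.elim0 z : σ ⊕ Fin 0 → σ)
    refine cast (congrArg SA ?_) h1
    ext b
    simp only [Set.mem_ofPred_eq, quant]
    have : (fun i : Fin 0 => b (Sum.elim id Fin.elim0 (Sum.inr i : σ ⊕ Fin 0))) =
      (Fin.elim0 : Fin 0 → ℝ) := funext (fun i => i.elim0)
    rw [this]
    rfl
  | succ r ih =>
    -- the family with one more parameter
    have h1 : SA {z : (σ ⊕ Fin 1) ⊕ Fin r → ℝ |
        P (fun i => z (Sum.inl (Sum.inl i)))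
          (Fin.cons (z (Sum.inl (Sum.inr 0))) (fun i => z (Sum.inr i)))} := by
      have h2 := h.rename (fun w : σ ⊕ Fin (r + 1) =>
        Sum.elim (fun i => Sum.inl (Sum.inl i))
          (fun j => Fin.cases (Sum.inl (Sum.inr 0)) (fun i => Sum.inr i) j) w :
            σ ⊕ Fin (r + 1) → (σ ⊕ Fin 1) ⊕ Fin r)
      refine cast (congrArg SA ?_) h2
      ext z
      simp only [Set.mem_ofPred_eq, Sum.elim_inl, Sum.elim_inr]
      have : (fun i : Fin (r + 1) => z (Fin.cases (Sum.inl (Sum.inr 0)) (fun i => Sum.inr i) i)) =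
          (Fin.cons (z (Sum.inl (Sum.inr 0))) (fun i => z (Sum.inr i)) : Fin (r + 1) → ℝ) := by
        funext i
        refine Fin.cases ?_ (fun i => ?_) i <;> rfl
      rw [this]
    have h3 := ih (σ := σ ⊕ Fin 1) (Fin.tail Q)
      (fun b y => P (fun i => b (Sum.inl i)) (Fin.cons (b (Sum.inr 0)) y)) h1
    by_cases hQ : Q 0 = true
    · have h4 := SA.exists (σ := σ) (τ := Fin 1)
        (P := fun b u => quant r (Fin.tail Q) (fun y => P b (Fin.cons (u 0) y))) h3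
      refine cast (congrArg SA ?_) h4
      ext b
      simp only [Set.mem_ofPred_eq, quant, hQ, if_true]
      exact ⟨fun ⟨u, hu⟩ => ⟨u 0, hu⟩, fun ⟨t, ht⟩ => ⟨fun _ => t, ht⟩⟩
    · have h4 := SA.forall (σ := σ) (τ := Fin 1)
        (P := fun b u => quant r (Fin.tail Q) (fun y => P b (Fin.cons (u 0) y))) h3
      refine cast (congrArg SA ?_) h4
      ext b
      simp only [Set.mem_ofPred_eq, quant, hQ, if_false]
      exact ⟨fun hu t => hu (fun _ => t), fun ht u => ht (u 0)⟩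

theorem F5_SA {k c : ℕ} {M : Type} (ρ : Fin c × Mon (k + c) c → M) (F : Formula c) :
    SA {z : M ⊕ Fin k → ℝ | (fun i => z (Sum.inr i)) ∈ foSet F (fun w => z (Sum.inl (ρ w)))} := by
  refine F5_quant (σ := M ⊕ Fin k) c F.1 (fun z y => F.2 (fun j => SignType.sign
    (polyVal (fun w => z (Sum.inl (ρ w))) j (Fin.append (fun i => z (Sum.inr i)) y))) = true) ?_
  have h1 := F3_SA_semi (k := k + c) (c := c) (M := M) ρ F.2
  have h2 := h1.rename (fun w : M ⊕ Fin (k + c) =>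
    Sum.elim (fun i => Sum.inl (Sum.inl i))
      (fun j => Fin.addCases (fun i => Sum.inl (Sum.inr i)) (fun i => Sum.inr i) j) w :
        M ⊕ Fin (k + c) → (M ⊕ Fin k) ⊕ Fin c)
  refine cast (congrArg SA ?_) h2
  ext z
  simp only [Set.mem_ofPred_eq, Sum.elim_inl, Sum.elim_inr, semiSet]
  have : (fun i : Fin (k + c) => z (Fin.addCases (fun i => Sum.inl (Sum.inr i))
      (fun i => Sum.inr i) i)) =
      Fin.append (fun i => z (Sum.inl (Sum.inr i))) (fun i => z (Sum.inr i)) := by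
    funext i
    refine Fin.addCases (fun i => ?_) (fun i => ?_) i <;> simp
  rw [this]

/-- the main theorem for a finite list of semialgebraic families with common parameter space. -/
theorem main_gen (k : ℕ) (hk : 2 ≤ k) {Sh ν : Type} [Fintype Sh] [Fintype ν]
    (S : Sh → (ν → ℝ) → Set (Fin k → ℝ))
    (hS : ∀ (ψ : Sh) (M : Type) (ρ : ν → M),
      SA {z : M ⊕ Fin k → ℝ | (fun i => z (Sum.inr i)) ∈ S ψ (fun w => z (Sum.inl (ρ w)))}) :
    ∃ C : ℕ, ∀ (n : ℕ) (φ : Fin n → Sh),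
      ∃ T : ACT (Fin n × ν) (Fin k → ℕ), T.depth ≤ C * n ^ k ∧
        ∀ (a : Fin n → ν → ℝ) (s : ℕ → ℝ), (∀ i, IsCompact (S (φ i) (a i))) →
          ∀ q : Fin k, T.run (fun z => a z.1 z.2) s q =
            betti (⋃ i, S (φ i) (a i) : Set (Fin k → ℝ)) q := by
  classical
  -- the universal family
  let m : ℕ := Fintype.card (ν ⊕ Unit)
  let e : (ν ⊕ Unit) ≃ Fin m := Fintype.equivFin _
  let sh : Sh ≃ Fin (Fintype.card Sh) := Fintype.equivFin _
  let E : (Fin m → ℝ) → (Fin k → ℝ) → Prop := fun p x =>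
    ∃ ψ : Sh, p (e (Sum.inr ())) = ((sh ψ : ℕ) : ℝ) ∧
      x ∈ S ψ (fun w => p (e (Sum.inl w)))
  have hE : SA {z : Fin m ⊕ Fin k → ℝ |
      E (fun i => z (Sum.inl i)) (fun i => z (Sum.inr i))} := by
    have h1 : {z : Fin m ⊕ Fin k → ℝ | E (fun i => z (Sum.inl i)) (fun i => z (Sum.inr i))} =
        ⋃ ψ : Sh, ({z : Fin m ⊕ Fin k → ℝ | z (Sum.inl (e (Sum.inr ()))) = ((sh ψ : ℕ) : ℝ)} ∩
          {z : Fin m ⊕ Fin k → ℝ | (fun i => z (Sum.inr i)) ∈
            S ψ (fun w => z (Sum.inl (e (Sum.inl w))))}) := by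
      ext z
      simp [E]
    rw [h1]
    refine SA.iUnion (fun ψ => SA.inter ?_ (hS ψ _ (fun w => e (Sum.inl w))))
    have h2 : {z : Fin m ⊕ Fin k → ℝ | z (Sum.inl (e (Sum.inr ()))) = ((sh ψ : ℕ) : ℝ)} =
        {z | (Fm.var (Sum.inl (e (Sum.inr ()))) : Fm (Fin m ⊕ Fin k)).eval z ≤
          (Fm.const ((sh ψ : ℕ) : ℤ)).eval z} ∩
        {z | (Fm.const ((sh ψ : ℕ) : ℤ) : Fm (Fin m ⊕ Fin k)).eval z ≤
          (Fm.var (Sum.inl (e (Sum.inr ())))).eval z} := by
      ext z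
      simp [Fm.eval, le_antisymm_iff]
    rw [h2]
    exact SA.inter (SA.le _ _) (SA.le _ _)
  obtain ⟨C, hC⟩ := core hk E hE
  refine ⟨C + 1, fun n φ => ?_⟩
  -- reindex the inputs
  let r : Fin n × Fin m → (Fin n × ν) ⊕ Fin n := fun z =>
    Sum.elim (fun w => Sum.inl (z.1, w)) (fun _ => Sum.inr z.1) (e.symm z.2)
  have h1 := F3_reindex (hC n) r
  have h2 := h1.specialize (fun i : Fin n => ((sh (φ i) : ℕ) : ℤ))
  obtain ⟨T, hT, hrun⟩ := h2
  refine ⟨T, ?_, ?_⟩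
  · refine hT.trans ?_
    rw [Fintype.card_fin, Nat.add_mul, Nat.one_mul]
    refine Nat.add_le_add_left ?_ _
    rcases Nat.eq_zero_or_pos n with rfl | hn
    · exact Nat.zero_le _
    · calc n = n ^ 1 := (pow_one n).symm
        _ ≤ n ^ k := Nat.pow_le_pow_right hn (by omega)
  intro a s ha q
  -- the fibres
  have key : ∀ i : Fin n, {p : Fin k → ℝ | E (fun j => (Sum.elim (fun z : Fin n × ν => a z.1 z.2)
      (fun i => (((sh (φ i) : ℕ) : ℤ) : ℝ)) : (Fin n × ν) ⊕ Fin n → ℝ) (r (i, j))) p} =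
      S (φ i) (a i) := by
    intro i
    ext p
    have hA : ∀ w : ν, r (i, e (Sum.inl w)) = Sum.inl (i, w) := by
      intro w; simp [r]
    have hB : r (i, e (Sum.inr ())) = Sum.inr i := by simp [r]
    simp only [E, Set.mem_ofPred_eq, hA, hB, Sum.elim_inl, Sum.elim_inr]
    constructor
    · rintro ⟨ψ, h1, h2⟩
      have h3 : sh (φ i) = sh ψ := by
        apply Fin.ext
        have : (((sh (φ i) : ℕ) : ℤ) : ℝ) = ((sh ψ : ℕ) : ℝ) := h1
        exact_mod_cast this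
      rw [sh.injective h3]
      exact h2
    · intro h
      exact ⟨φ i, by push_cast; rfl, h⟩
  have hmem : (fun z : Fin n × ν => a z.1 z.2) ∈ {x : Fin n × ν → ℝ |
      (Sum.elim x (fun i => (((sh (φ i) : ℕ) : ℤ) : ℝ)) : (Fin n × ν) ⊕ Fin n → ℝ) ∈
        {x : (Fin n × ν) ⊕ Fin n → ℝ | (fun i => x (r i)) ∈
          {a : Fin n × Fin m → ℝ | ∀ i, IsCompact {p | E (fun j => a (i, j)) p}}}} := by
    intro i
    have := key i
    simp only at this ⊢
    rw [this]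
    exact ha i
  have h3 := congrFun (hrun _ hmem s) q
  rw [h3]
  have h4 : (⋃ i : Fin n, {p : Fin k → ℝ | E (fun j => (Sum.elim (fun z : Fin n × ν => a z.1 z.2)
      (fun i => (((sh (φ i) : ℕ) : ℤ) : ℝ)) : (Fin n × ν) ⊕ Fin n → ℝ) (r (i, j))) p}) =
      ⋃ i, S (φ i) (a i) := Set.iUnion_congr key
  exact congrArg (fun X : Set (Fin k → ℝ) => betti X (q : ℕ)) h4

theorem main_fo (k : ℕ) (hk : 2 ≤ k) (c : ℕ) :
    ∃ C : ℕ, ∀ (n : ℕ) (F : Fin n → Formula c),
      ∃ T : ACT (Fin n × (Fin c × Mon (k + c) c)) (Fin k → ℕ), T.depth ≤ C * n ^ k ∧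
        ∀ (a : Fin n → Coef (k + c) c) (s : ℕ → ℝ), (∀ i, IsCompact (foSet (F i) (a i))) →
          ∀ q : Fin k, T.run (fun z => a z.1 z.2) s q =
            betti (⋃ i, foSet (F i) (a i) : Set (Fin k → ℝ)) q :=
  main_gen k hk (Sh := Formula c) (ν := Fin c × Mon (k + c) c) (fun F a => foSet F a)
    (fun F M ρ => F5_SA ρ F)

/-- unions of sets described by formulas as semialgebraic families -/
theorem F5_SA_union {k c n : ℕ} (F : Fin n → Formula c) :
    SA {z : (Fin n × (Fin c × Mon (k + c) c)) ⊕ Fin k → ℝ |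
      ∃ i, (fun t => z (Sum.inr t)) ∈ foSet (F i) (fun w => z (Sum.inl (i, w)))} := by
  have : {z : (Fin n × (Fin c × Mon (k + c) c)) ⊕ Fin k → ℝ |
      ∃ i, (fun t => z (Sum.inr t)) ∈ foSet (F i) (fun w => z (Sum.inl (i, w)))} =
      ⋃ i, {z | (fun t => z (Sum.inr t)) ∈ foSet (F i) (fun w => z (Sum.inl (i, w)))} := by
    ext z; simp
  rw [this]
  exact SA.iUnion (fun i => F5_SA (fun w => (i, w)) (F i))

theorem F5_fincoh {k c n : ℕ} (F : Fin n → Formula c) (a : Fin n → Coef (k + c) c)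
    (ha : ∀ i, IsCompact (foSet (F i) (a i))) :
    ∃ χ : ℤ, FinCoh (⋃ i, foSet (F i) (a i) : Set (Fin k → ℝ)) (max k 1) χ := by
  obtain ⟨G, hG⟩ := cyl_exists (k := k) (σ := Fin n × (Fin c × Mon (k + c) c))
    (fun b y => ∃ i, y ∈ foSet (F i) (fun w => b (i, w))) (F5_SA_union F)
  have h1 := (hG (fun z => a z.1 z.2)).pullback
    (fun _ : Unit => (⟨fun z => a z.1 z.2, SgnEq.refl _ _⟩ : cls G (fun z => a z.1 z.2)))
    continuous_const
  refine ⟨_, cyl_fincoh (isCompact_iUnion ha) ?_⟩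
  have h2 : (fun (_ : Unit) (y : Fin k → ℝ) => y ∈ ⋃ i, foSet (F i) (a i)) =
      (fun (_ : Unit) (y : Fin k → ℝ) => ∃ i, y ∈ foSet (F i) (fun w => a i w)) := by
    funext _ y
    exact propext Set.mem_iUnion
  rw [h2]
  exact h1

theorem finite_cohomology_fo {k c n : ℕ} (F : Fin n → Formula c) (a : Fin n → Coef (k + c) c)
    (ha : ∀ i, IsCompact (foSet (F i) (a i))) (q : ℕ) :
    Module.Finite ℚ (HAS (⋃ i, foSet (F i) (a i) : Set (Fin k → ℝ)) q) := by
  obtain ⟨χ, hχ⟩ := F5_fincoh F a ha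
  obtain ⟨e⟩ := HAS_equiv (isCompact_iUnion ha) q
  have := hχ.fin q
  exact Module.Finite.equiv e.symm

/-- the Betti numbers in degrees at least `k` vanish (`k ≥ 1`). -/
theorem betti_eq_zero_fo {k c n : ℕ} (hk : 1 ≤ k) (F : Fin n → Formula c)
    (a : Fin n → Coef (k + c) c) (ha : ∀ i, IsCompact (foSet (F i) (a i))) (q : ℕ) (hq : k ≤ q) :
    betti (⋃ i, foSet (F i) (a i) : Set (Fin k → ℝ)) q = 0 := by
  obtain ⟨χ, hχ⟩ := F5_fincoh F a ha
  obtain ⟨e⟩ := HAS_equiv (isCompact_iUnion ha) q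
  unfold betti
  rw [e.finrank_eq]
  exact hχ.van q (by omega)

end BU
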