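import Pool.Agent.Work.MP_4030f5_lc.Defs

/-! # Arithmetic expressions, bounded complexity functions, semialgebraic sets -/

namespace BU

/-- arithmetic expressions with integer constants in the variables `σ`. -/
inductive Fm (σ : Type) : Type
  | var : σ → Fm σ
  | const : ℤ → Fm σ
  | add : Fm σ → Fm σ → Fm σ
  | mul : Fm σ → Fm σ → Fm σ

namespace Fm

variable {σ τ : Type}

noncomputable def eval (x : σ → ℝ) : Fm σ → ℝ
  | var i => x i
  | const c => (c : ℝ)
  | add e f => e.eval x + f.eval x
  | mul e f => e.eval x * f.eval x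

def size : Fm σ → ℕ
  | var _ => 1
  | const _ => 1
  | add e f => e.size + f.size + 1
  | mul e f => e.size + f.size + 1

def rename (r : σ → τ) : Fm σ → Fm τ
  | var i => var (r i)
  | const c => const c
  | add e f => add (e.rename r) (f.rename r)
  | mul e f => mul (e.rename r) (f.rename r)

/-- sign of the value of an expression -/
noncomputable def sgn (x : σ → ℝ) (e : Fm σ) : SignType := SignType.sign (e.eval x)

end Fm

/-- total size of a list of expressions -/
def tsize {σ : Type} (F : List (Fm σ)) : ℕ := (F.map Fm.size).sum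

/-- `x` and `y` give the same signs to all expressions in `F`. -/
def SgnEq {σ : Type} (F : List (Fm σ)) (x y : σ → ℝ) : Prop := ∀ e ∈ F, e.sgn x = e.sgn y

/-- `φ` is determined by the signs of expressions of total size at most `C`. -/
def Bdd {σ β : Type} (C : ℕ) (φ : (σ → ℝ) → β) : Prop :=
  ∃ F : List (Fm σ), tsize F ≤ C ∧ ∀ x y, SgnEq F x y → φ x = φ y

/-- semialgebraic sets (defined over `ℤ`): unions of sign classes of a finite family. -/
def SA {σ : Type} (s : Set (σ → ℝ)) : Prop :=
  ∃ F : List (Fm σ), ∀ x y, SgnEq F x y → (x ∈ s ↔ y ∈ s)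

/-- extension of a point by a value for `none`. -/
def ext {σ : Type} (b : σ → ℝ) (t : ℝ) : Option σ → ℝ
  | none => t
  | some i => b i

/-- the sign class of `x` for the family `F`. -/
def cls {σ : Type} (F : List (Fm σ)) (x : σ → ℝ) : Set (σ → ℝ) := {y | SgnEq F y x}

end BU
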