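import Pool.Agent.Work.MP_4030f5_lc.Defs

/-! # Cochains on lists: definitions

`D` is the simplicial coboundary written recursively on lists; `prism` is the homotopy operator
between the pull backs along two maps.  `Z X` is the set of functions on lists that vanish on all
sufficiently small lists of points of `X`.  `Acyc X X'` says that the relative cohomology of the
pair vanishes in all degrees (cocycles and coboundaries ungraded, all list lengths at once). -/

namespace BU

/-- coboundary on functions of lists: `D f [] = 0`, `D f (x :: l) = f l - D (f (x :: ·)) l`. -/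
def D {α A : Type} [AddCommGroup A] : (List α → A) → List α → A
  | _, [] => 0
  | f, x :: l => f l - D (fun l' => f (x :: l')) l

/-- prism operator: `h f (x::l) = f (φ x :: ψ x :: ψ l) - h (f (φ x :: ·)) l`. -/
def prism {M N A : Type} [AddCommGroup A] (φ ψ : M → N) : (List N → A) → List M → A
  | _, [] => 0
  | f, x :: l => f (φ x :: ψ x :: l.map ψ) - prism φ ψ (fun l' => f (φ x :: l')) l

/-- `f` vanishes on all sufficiently small lists of points of `X` (the empty list included). -/
def Z {M : Type} [PseudoMetricSpace M] (X : Set M) (f : List M → ℚ) : Prop :=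
  ∃ η > 0, ∀ l : List M, (∀ x ∈ l, x ∈ X) → (∀ x ∈ l, ∀ y ∈ l, dist x y < η) → f l = 0

/-- Vanishing of the relative Alexander-Spanier cohomology of `(X, X')` in all degrees. -/
def Acyc {M : Type} [PseudoMetricSpace M] (X X' : Set M) : Prop :=
  ∀ f : List M → ℚ, Z X' f → Z X (D f) → ∃ g : List M → ℚ, Z X' g ∧ Z X (fun l => f l - D g l)

end BU
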