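import Pool.Agent.Work.MP_4030f5_lc.Q1a

/-! # Q1: order isomorphisms of the real line with prescribed finite data; the step lemma -/

namespace BU

open Polynomial Filter

/-- two finite families of real polynomials have the same sign diagram. -/
def DiagEq {ι : Type} (p p' : ι → ℝ[X]) : Prop :=
  ∃ ψ : ℝ ≃o ℝ, ∀ i t, SignType.sign ((p i).eval t) = SignType.sign ((p' i).eval (ψ t))

/-! ### signs of polynomials -/

/-- a polynomial without roots between two points has the same sign there -/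
theorem Q1b_const {q : ℝ[X]} {s t : ℝ} (hst : s ≤ t)
    (h : ∀ u, s ≤ u → u ≤ t → q.eval u ≠ 0) :
    SignType.sign (q.eval s) = SignType.sign (q.eval t) := by
  have hc : ContinuousOn (fun x => q.eval x) (Set.Icc s t) := q.continuous.continuousOn
  rcases lt_trichotomy (q.eval s) 0 with hs | hs | hs
  · rcases lt_trichotomy (q.eval t) 0 with ht | ht | ht
    · rw [sign_neg hs, sign_neg ht]
    · exact absurd ht (h t hst le_rfl)
    · obtain ⟨u, hu, hu2⟩ := intermediate_value_Icc hst hc ⟨hs.le, ht.le⟩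
      exact absurd hu2 (h u hu.1 hu.2)
  · exact absurd hs (h s le_rfl hst)
  · rcases lt_trichotomy (q.eval t) 0 with ht | ht | ht
    · obtain ⟨u, hu, hu2⟩ := intermediate_value_Icc' hst hc ⟨ht.le, hs.le⟩
      exact absurd hu2 (h u hu.1 hu.2)
    · exact absurd ht (h t hst le_rfl)
    · rw [sign_pos hs, sign_pos ht]

theorem Q1b_mvt (q : ℝ[X]) {s t : ℝ} (hst : s < t) :
    ∃ c, s < c ∧ c < t ∧ q.eval t - q.eval s = (derivative q).eval c * (t - s) := by
  obtain ⟨c, hc, h⟩ := exists_hasDerivAt_eq_slope (fun x => q.eval x)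
    (fun x => (derivative q).eval x) hst q.continuous.continuousOn (fun x _ => q.hasDerivAt x)
  refine ⟨c, hc.1, hc.2, ?_⟩
  rw [h, div_mul_cancel₀ _ (sub_pos.2 hst).ne']

private theorem Q1b_top {q : ℝ[X]} (hq : 0 < q.natDegree) :
    ∀ᶠ t in atTop, SignType.sign (q.eval t) = SignType.sign q.leadingCoeff := by
  have hd : 0 < q.degree := natDegree_pos_iff_degree_pos.1 hq
  have h0 : q.leadingCoeff ≠ 0 := by
    rw [leadingCoeff_ne_zero]
    rintro rfl
    simp at hq
  rcases lt_or_gt_of_ne h0 with h | h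
  · have h1 := q.tendsto_atBot_of_leadingCoeff_nonpos hd h.le
    filter_upwards [h1.eventually (eventually_lt_atBot 0)] with t ht
    rw [sign_neg ht, sign_neg h]
  · have h1 := q.tendsto_atTop_of_leadingCoeff_nonneg hd h.le
    filter_upwards [h1.eventually (eventually_gt_atTop 0)] with t ht
    rw [sign_pos ht, sign_pos h]

private theorem Q1b_bot {q : ℝ[X]} (hq : 0 < q.natDegree) :
    ∀ᶠ t in atBot, SignType.sign (q.eval t) =
      SignType.sign (q.leadingCoeff * (-1) ^ q.natDegree) := by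
  have hX : (-X : ℝ[X]).natDegree = 1 := by
    rw [natDegree_neg, natDegree_X]
  have h1 : 0 < (q.comp (-X)).natDegree := by
    rw [natDegree_comp, hX, mul_one]
    exact hq
  have h2 := Q1b_top h1
  rw [leadingCoeff_comp (by rw [hX]; norm_num), leadingCoeff_neg, leadingCoeff_X] at h2
  have h3 := tendsto_neg_atBot_atTop.eventually h2
  filter_upwards [h3] with t ht
  rw [← ht]
  congr 1
  simp [eval_comp]

/-! ### positions -/

/-- `c` has the same position relative to `T` as `c'` relative to the image of `T` -/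
private def Pos (T : Finset ℝ) (ψ : ℝ ≃o ℝ) (c c' : ℝ) : Prop :=
  ∀ s ∈ T, (s < c ↔ ψ s < c') ∧ (c < s ↔ c' < ψ s)

private structure Ctx {ι κ : Type} (T : Finset ℝ) (ψ : ℝ ≃o ℝ) (p p' : ι → ℝ[X])
    (f f' : κ → ℝ[X]) : Prop where
  sgn : ∀ i t, SignType.sign ((p i).eval t) = SignType.sign ((p' i).eval (ψ t))
  rt : ∀ i t, p i ≠ 0 → (p i).eval t = 0 → t ∈ T
  rt' : ∀ i t, p' i ≠ 0 → (p' i).eval t = 0 → ψ.symm t ∈ T
  z : ∀ i, p i = 0 ↔ p' i = 0
  fT : ∀ t ∈ T, ∀ j, SignType.sign ((f j).eval t) = SignType.sign ((f' j).eval (ψ t))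
  der : ∀ j, ∃ i, p i = derivative (f j) ∧ p' i = derivative (f' j) ∧ p i ≠ 0
  hroot' : ∀ j' j, ∃ i',
      (∀ t, (f j').eval t = 0 → SignType.sign ((f j).eval t) = SignType.sign ((p i').eval t)) ∧
      (∀ t, (f' j').eval t = 0 → SignType.sign ((f' j).eval t) = SignType.sign ((p' i').eval t))
  lo : ∃ m ∈ T, (∀ j t, t ≤ m → SignType.sign ((f j).eval t) = SignType.sign ((f j).eval m) ∧
    (f j).eval t ≠ 0) ∧ (∀ j t, t ≤ ψ m → SignType.sign ((f' j).eval t) =
      SignType.sign ((f' j).eval (ψ m)) ∧ (f' j).eval t ≠ 0)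
  hi : ∃ m ∈ T, (∀ j t, m ≤ t → SignType.sign ((f j).eval t) = SignType.sign ((f j).eval m) ∧
    (f j).eval t ≠ 0) ∧ (∀ j t, ψ m ≤ t → SignType.sign ((f' j).eval t) =
      SignType.sign ((f' j).eval (ψ m)) ∧ (f' j).eval t ≠ 0)

variable {ι κ : Type} {T : Finset ℝ} {ψ : ℝ ≃o ℝ} {p p' : ι → ℝ[X]} {f f' : κ → ℝ[X]}

private theorem Ctx.symm (h : Ctx T ψ p p' f f') :
    Ctx (T.image ψ) ψ.symm p' p f' f := by
  classical
  constructor
  · intro i t
    rw [h.sgn i (ψ.symm t), ψ.apply_symm_apply]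
  · intro i t h1 h2
    exact Finset.mem_image.2 ⟨_, h.rt' i t h1 h2, ψ.apply_symm_apply t⟩
  · intro i t h1 h2
    exact Finset.mem_image.2 ⟨_, h.rt i t h1 h2, by simp⟩
  · intro i
    exact (h.z i).symm
  · intro t ht j
    obtain ⟨s, hs, rfl⟩ := Finset.mem_image.1 ht
    rw [ψ.symm_apply_apply]
    exact (h.fT s hs j).symm
  · intro j
    obtain ⟨i, h1, h2, h3⟩ := h.der j
    exact ⟨i, h2, h1, fun h4 => h3 ((h.z i).2 h4)⟩
  · intro j' j
    obtain ⟨i', h1, h2⟩ := h.hroot' j' j
    exact ⟨i', h2, h1⟩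
  · obtain ⟨m, hm, h1, h2⟩ := h.lo
    refine ⟨ψ m, Finset.mem_image_of_mem _ hm, h2, ?_⟩
    rw [ψ.symm_apply_apply]
    exact h1
  · obtain ⟨m, hm, h1, h2⟩ := h.hi
    refine ⟨ψ m, Finset.mem_image_of_mem _ hm, h2, ?_⟩
    rw [ψ.symm_apply_apply]
    exact h1

private theorem pos_symm {c c' : ℝ} (h : Pos T ψ c c') : Pos (T.image ψ) ψ.symm c' c := by
  classical
  intro s hs
  obtain ⟨u, hu, rfl⟩ := Finset.mem_image.1 hs
  rw [ψ.symm_apply_apply]
  exact ⟨(h u hu).1.symm, (h u hu).2.symm⟩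

private theorem pos_self (T : Finset ℝ) (ψ : ℝ ≃o ℝ) (t : ℝ) : Pos T ψ t (ψ t) :=
  fun _ _ => ⟨ψ.lt_iff_lt.symm, ψ.lt_iff_lt.symm⟩

private theorem pos_mem {c c' : ℝ} (h : Pos T ψ c c') (hc : c ∈ T) : c' = ψ c := by
  have h1 := h c hc
  have h2 : ¬ ψ c < c' := fun h3 => lt_irrefl c (h1.1.2 h3)
  have h3 : ¬ c' < ψ c := fun h3 => lt_irrefl c (h1.2.2 h3)
  exact le_antisymm (not_lt.1 h2) (not_lt.1 h3)

/-- the same position gives the same signs for the `p` -/
private theorem pos_sgn (h : Ctx T ψ p p' f f') {c c' : ℝ} (hc : Pos T ψ c c') (i : ι) :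
    SignType.sign ((p i).eval c) = SignType.sign ((p' i).eval c') := by
  by_cases hcT : c ∈ T
  · rw [pos_mem hc hcT]
    exact h.sgn i c
  · rw [h.sgn i c]
    by_cases hz : p' i = 0
    · rw [hz]
      simp
    · have key : ∀ u, (min (ψ c) c' ≤ u) → u ≤ max (ψ c) c' → (p' i).eval u ≠ 0 := by
        intro u hu1 hu2 hu3
        have h1 := h.rt' i u hz hu3
        have h2 := hc _ h1
        rw [ψ.apply_symm_apply] at h2
        have h3 := pos_self T ψ c _ h1
        rw [ψ.apply_symm_apply] at h3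
        have h4 : ψ.symm u ≠ c := fun h5 => hcT (h5 ▸ h1)
        rcases lt_or_gt_of_ne h4 with h5 | h5
        · have h6 := h2.1.1 h5
          have h7 := h3.1.1 h5
          exact absurd (lt_min h7 h6) (not_lt.2 hu1)
        · have h6 := h2.2.1 h5
          have h7 := h3.2.1 h5
          exact absurd (max_lt h7 h6) (not_lt.2 hu2)
      rcases le_total (ψ c) c' with h5 | h5
      · apply Q1b_const h5
        intro u hu1 hu2
        exact key u ((min_le_left _ _).trans hu1) (hu2.trans (le_max_right _ _))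
      · symm
        apply Q1b_const h5
        intro u hu1 hu2
        exact key u ((min_le_right _ _).trans hu1) (hu2.trans (le_max_left _ _))

/-- the same direction of monotonicity -/
private theorem dir (h : Ctx T ψ p p' f f') {x y x' y' : ℝ} (hxy : x < y) (hxy' : x' < y')
    (hx : Pos T ψ x x') (hy : Pos T ψ y y') (hT : ∀ s ∈ T, s ≤ x ∨ y ≤ s) (j : κ) :
    SignType.sign ((f j).eval y - (f j).eval x) =
      SignType.sign ((f' j).eval y' - (f' j).eval x') ∧ (f j).eval y - (f j).eval x ≠ 0 := by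
  obtain ⟨c, hc1, hc2, hc3⟩ := Q1b_mvt (f j) hxy
  obtain ⟨c', hc1', hc2', hc3'⟩ := Q1b_mvt (f' j) hxy'
  obtain ⟨i, h1, h2, h3⟩ := h.der j
  rw [← h1] at hc3
  rw [← h2] at hc3'
  have hpos : Pos T ψ c c' := by
    intro s hs
    have hsx := hx s hs
    have hsy := hy s hs
    rcases hT s hs with h4 | h4
    · have h5 : ψ s ≤ x' := not_lt.1 fun h6 => absurd (hsx.2.2 h6) (not_lt.2 h4)
      constructor
      · exact ⟨fun _ => lt_of_le_of_lt h5 hc1', fun _ => lt_of_le_of_lt h4 hc1⟩
      · exact ⟨fun h6 => absurd h6 (not_lt.2 (h4.trans hc1.le)),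
          fun h6 => absurd h6 (not_lt.2 (h5.trans hc1'.le))⟩
    · have h5 : y' ≤ ψ s := not_lt.1 fun h6 => absurd (hsy.1.2 h6) (not_lt.2 h4)
      constructor
      · exact ⟨fun h6 => absurd h6 (not_lt.2 (hc2.le.trans h4)),
          fun h6 => absurd h6 (not_lt.2 (hc2'.le.trans h5))⟩
      · exact ⟨fun _ => lt_of_lt_of_le hc2' h5, fun _ => lt_of_lt_of_le hc2 h4⟩
  have h4 := pos_sgn h hpos i
  rw [hc3, hc3', sign_mul, sign_mul, sign_pos (sub_pos.2 hxy), sign_pos (sub_pos.2 hxy'), h4]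
  refine ⟨rfl, mul_ne_zero ?_ (sub_pos.2 hxy).ne'⟩
  intro h5
  have h6 := h.rt i c h3 h5
  rcases hT c h6 with h7 | h7
  · exact absurd hc1 (not_lt.2 h7)
  · exact absurd hc2 (not_lt.2 h7)

private def Match (T : Finset ℝ) (ψ : ℝ ≃o ℝ) (f f' : κ → ℝ[X]) (t t' : ℝ) : Prop :=
  Pos T ψ t t' ∧ ∀ j, SignType.sign ((f j).eval t) = SignType.sign ((f' j).eval t')

private theorem match_symm {t t' : ℝ} (h : Match T ψ f f' t t') :
    Match (T.image ψ) ψ.symm f' f t' t :=
  ⟨pos_symm h.1, fun j => (h.2 j).symm⟩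

/-- monotonicity of the matching; in particular uniqueness -/
private theorem match_mono (h : Ctx T ψ p p' f f') {t t' u u' : ℝ} (htA : t ∈ T ∨ ∃ j, (f j).eval t = 0)
    (ht : Match T ψ f f' t t') (hu : Match T ψ f f' u u') (htu : t < u) : t' < u' := by
  by_cases hs : ∃ s ∈ T, t ≤ s ∧ s ≤ u
  · obtain ⟨s, hsT, hs1, hs2⟩ := hs
    have h1 := ht.1 s hsT
    have h2 := hu.1 s hsT
    have h3 : t' ≤ ψ s := not_lt.1 fun h4 => absurd (h1.1.2 h4) (not_lt.2 hs1)
    have h4 : ψ s ≤ u' := not_lt.1 fun h4 => absurd (h2.2.2 h4) (not_lt.2 hs2)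
    rcases hs1.eq_or_lt with h5 | h5
    · exact lt_of_le_of_lt h3 (h2.1.1 (h5 ▸ htu))
    · exact lt_of_lt_of_le (h1.2.1 h5) h4
  · push Not at hs
    by_contra hcon
    rw [not_lt] at hcon
    have htT : t ∉ T := fun h1 => absurd htu.le (not_le.2 (hs t h1 le_rfl))
    obtain ⟨j, hj⟩ := htA.resolve_left htT
    have hTx : ∀ s ∈ T, s ≤ t ∨ u ≤ s := by
      intro s hsT
      rcases le_or_gt s t with h1 | h1
      · exact Or.inl h1
      · exact Or.inr (hs s hsT h1.le).le
    have hlt : ∀ s ∈ T, (s < t ↔ s < u) ∧ (t < s ↔ u < s) := by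
      intro s hsT
      constructor
      · constructor
        · intro h1
          exact h1.trans htu
        · intro h1
          by_contra h2
          exact absurd h1 (not_lt.2 (hs s hsT (not_lt.1 h2)).le)
      · constructor
        · intro h1
          exact hs s hsT h1.le
        · intro h1
          exact htu.trans h1
    have hp1 : Pos T ψ t u' := by
      intro s hsT
      have h1 := hu.1 s hsT
      have h2 := hlt s hsT
      exact ⟨h2.1.trans h1.1, h2.2.trans h1.2⟩
    have hp2 : Pos T ψ u t' := by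
      intro s hsT
      have h1 := ht.1 s hsT
      have h2 := hlt s hsT
      exact ⟨h2.1.symm.trans h1.1, h2.2.symm.trans h1.2⟩
    have hj' : (f' j).eval t' = 0 := by
      have h1 := ht.2 j
      rw [hj, sign_zero] at h1
      exact sign_eq_zero_iff.1 h1.symm
    have huj := hu.2 j
    rcases hcon.eq_or_lt with h1 | h1
    · rw [h1, hj', sign_zero] at huj
      have h2 : (f j).eval u = 0 := sign_eq_zero_iff.1 huj
      obtain ⟨c, hc1, hc2, hc3⟩ := Q1b_mvt (f j) htu
      obtain ⟨i, h3, -, h4⟩ := h.der j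
      rw [hj, h2, sub_zero, ← h3] at hc3
      have h5 := (mul_eq_zero.1 hc3.symm).resolve_right (sub_pos.2 htu).ne'
      exact absurd hc2.le (not_le.2 (hs c (h.rt i c h4 h5) hc1.le))
    · have hd := dir h htu h1 hp1 hp2 hTx j
      rw [hj, hj', sub_zero, zero_sub, Left.sign_neg, ← huj] at hd
      have h3 : SignType.sign ((f j).eval u) ≠ 0 := fun h4 => hd.2 (sign_eq_zero_iff.1 h4)
      revert h3
      generalize SignType.sign ((f j).eval u) = s at hd
      have h4 := hd.1
      revert h4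
      cases s <;> decide

/-- consecutive elements of a finite set around a point -/
private theorem Q1b_gap (A : Finset ℝ) (t : ℝ) (ht : t ∉ A) (h1 : ∃ m ∈ A, m < t)
    (h2 : ∃ m ∈ A, t < m) : ∃ a ∈ A, ∃ b ∈ A, a < t ∧ t < b ∧ ∀ s ∈ A, s ≤ a ∨ b ≤ s := by
  classical
  obtain ⟨m1, hm1, hm1'⟩ := h1
  obtain ⟨m2, hm2, hm2'⟩ := h2
  have n1 : (A.filter (· < t)).Nonempty := ⟨m1, Finset.mem_filter.2 ⟨hm1, hm1'⟩⟩
  have n2 : (A.filter (t < ·)).Nonempty := ⟨m2, Finset.mem_filter.2 ⟨hm2, hm2'⟩⟩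
  have e1 := Finset.mem_filter.1 (Finset.max'_mem _ n1)
  have e2 := Finset.mem_filter.1 (Finset.min'_mem _ n2)
  refine ⟨_, e1.1, _, e2.1, e1.2, e2.2, fun s hs => ?_⟩
  have hst : s ≠ t := fun h => ht (h ▸ hs)
  rcases lt_or_gt_of_ne hst with h | h
  · exact Or.inl (Finset.le_max' _ _ (Finset.mem_filter.2 ⟨hs, h⟩))
  · exact Or.inr (Finset.min'_le _ _ (Finset.mem_filter.2 ⟨hs, h⟩))

private theorem match_exists (h : Ctx T ψ p p' f f') (t : ℝ) (htA : t ∈ T ∨ ∃ j, (f j).eval t = 0) :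
    ∃ t', Match T ψ f f' t t' := by
  by_cases htT : t ∈ T
  · exact ⟨ψ t, pos_self T ψ t, h.fT t htT⟩
  obtain ⟨j, hj⟩ := htA.resolve_left htT
  obtain ⟨m1, hm1, hm2, -⟩ := h.lo
  obtain ⟨m3, hm3, hm4, -⟩ := h.hi
  have l1 : m1 < t := by
    by_contra hcon
    exact (hm2 j t (not_lt.1 hcon)).2 hj
  have l2 : t < m3 := by
    by_contra hcon
    exact (hm4 j t (not_lt.1 hcon)).2 hj
  obtain ⟨a, haT, b, hbT, hat, htb, hab⟩ := Q1b_gap T t htT ⟨m1, hm1, l1⟩ ⟨m3, hm3, l2⟩
  obtain ⟨i, h1, h2, h3⟩ := h.der j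
  obtain ⟨c1, hc1, hc1', hc1''⟩ := Q1b_mvt (f j) hat
  obtain ⟨c2, hc2, hc2', hc2''⟩ := Q1b_mvt (f j) htb
  rw [← h1, hj, zero_sub] at hc1''
  rw [← h1, hj, sub_zero] at hc2''
  have hno : ∀ u, a < u → u < b → (p i).eval u ≠ 0 := by
    intro u hu1 hu2 hu3
    rcases hab u (h.rt i u h3 hu3) with h4 | h4
    · exact absurd hu1 (not_lt.2 h4)
    · exact absurd hu2 (not_lt.2 h4)
  have hs : SignType.sign ((p i).eval c1) = SignType.sign ((p i).eval c2) :=
    Q1b_const (hc1'.trans hc2).le fun u hu1 hu2 =>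
      hno u (lt_of_lt_of_le hc1 hu1) (lt_of_le_of_lt hu2 hc2')
  have hψab : ψ a < ψ b := ψ.lt_iff_lt.2 (hat.trans htb)
  have hcont : ContinuousOn (fun x => (f' j).eval x) (Set.Icc (ψ a) (ψ b)) :=
    (f' j).continuous.continuousOn
  have hfa := h.fT a haT j
  have hfb := h.fT b hbT j
  have hroot : ∃ t', ψ a < t' ∧ t' < ψ b ∧ (f' j).eval t' = 0 := by
    rcases lt_or_gt_of_ne (hno c1 hc1 (hc1'.trans htb)) with h4 | h4
    · have h5 : (p i).eval c2 < 0 := by
        rw [sign_neg h4] at hs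
        exact sign_eq_neg_one_iff.1 hs.symm
      have h6 : 0 < (f j).eval a := by
        have := mul_neg_of_neg_of_pos h4 (sub_pos.2 hat)
        linarith
      have h7 : (f j).eval b < 0 := by
        have := mul_neg_of_neg_of_pos h5 (sub_pos.2 htb)
        linarith
      rw [sign_pos h6] at hfa
      rw [sign_neg h7] at hfb
      have h8 := sign_eq_one_iff.1 hfa.symm
      have h9 := sign_eq_neg_one_iff.1 hfb.symm
      obtain ⟨t', ht', ht''⟩ := intermediate_value_Icc' hψab.le hcont ⟨h9.le, h8.le⟩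
      simp only at ht''
      refine ⟨t', lt_of_le_of_ne ht'.1 ?_, lt_of_le_of_ne ht'.2 ?_, ht''⟩
      · intro h10
        rw [← h10] at ht''
        exact absurd ht'' h8.ne'
      · intro h10
        rw [h10] at ht''
        exact absurd ht'' h9.ne
    · have h5 : 0 < (p i).eval c2 := by
        rw [sign_pos h4] at hs
        exact sign_eq_one_iff.1 hs.symm
      have h6 : (f j).eval a < 0 := by
        have := mul_pos h4 (sub_pos.2 hat)
        linarith
      have h7 : 0 < (f j).eval b := by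
        have := mul_pos h5 (sub_pos.2 htb)
        linarith
      rw [sign_neg h6] at hfa
      rw [sign_pos h7] at hfb
      have h8 := sign_eq_neg_one_iff.1 hfa.symm
      have h9 := sign_eq_one_iff.1 hfb.symm
      obtain ⟨t', ht', ht''⟩ := intermediate_value_Icc hψab.le hcont ⟨h8.le, h9.le⟩
      simp only at ht''
      refine ⟨t', lt_of_le_of_ne ht'.1 ?_, lt_of_le_of_ne ht'.2 ?_, ht''⟩
      · intro h10
        rw [← h10] at ht''
        exact absurd ht'' h8.ne
      · intro h10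
        rw [h10] at ht''
        exact absurd ht'' h9.ne'
  obtain ⟨t', ht1, ht2, ht3⟩ := hroot
  have hpos : Pos T ψ t t' := by
    intro s hsT
    rcases hab s hsT with h4 | h4
    · have h5 : ψ s ≤ ψ a := ψ.le_iff_le.2 h4
      exact ⟨⟨fun _ => lt_of_le_of_lt h5 ht1, fun _ => lt_of_le_of_lt h4 hat⟩,
        ⟨fun h6 => absurd h6 (not_lt.2 (h4.trans hat.le)),
          fun h6 => absurd h6 (not_lt.2 (h5.trans ht1.le))⟩⟩
    · have h5 : ψ b ≤ ψ s := ψ.le_iff_le.2 h4
      exact ⟨⟨fun h6 => absurd h6 (not_lt.2 (htb.le.trans h4)),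
        fun h6 => absurd h6 (not_lt.2 (ht2.le.trans h5))⟩,
        ⟨fun _ => lt_of_lt_of_le ht2 h5, fun _ => lt_of_lt_of_le htb h4⟩⟩
  refine ⟨t', hpos, fun k => ?_⟩
  obtain ⟨i', h4, h5⟩ := h.hroot' j k
  rw [h4 t hj, h5 t' ht3]
  exact pos_sgn h hpos i'

private theorem pos_symm' {c c' : ℝ} (h : Pos (T.image ψ) ψ.symm c' c) : Pos T ψ c c' := by
  classical
  intro s hs
  have h1 := h (ψ s) (Finset.mem_image_of_mem _ hs)
  rw [ψ.symm_apply_apply] at h1
  exact ⟨h1.1.symm, h1.2.symm⟩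

private theorem match_unique (h : Ctx T ψ p p' f f') {r t' t'' : ℝ}
    (hr : ∃ j, (f j).eval r = 0) (h1 : Match T ψ f f' r t') (h2 : Match T ψ f f' r t'') :
    t' = t'' := by
  obtain ⟨j, hj⟩ := hr
  have h3 : (f' j).eval t' = 0 := by
    have := h1.2 j
    rw [hj, sign_zero] at this
    exact sign_eq_zero_iff.1 this.symm
  have h4 : (f' j).eval t'' = 0 := by
    have := h2.2 j
    rw [hj, sign_zero] at this
    exact sign_eq_zero_iff.1 this.symm
  rcases lt_trichotomy t' t'' with h5 | h5 | h5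
  · exact absurd (match_mono h.symm (Or.inr ⟨j, h3⟩) (match_symm h1) (match_symm h2) h5)
      (lt_irrefl _)
  · exact h5
  · exact absurd (match_mono h.symm (Or.inr ⟨j, h4⟩) (match_symm h2) (match_symm h1) h5)
      (lt_irrefl _)

private theorem ctx_diag [Fintype κ] (h : Ctx T ψ p p' f f') :
    DiagEq (Sum.elim p f) (Sum.elim p' f') := by
  classical
  have hf0 : ∀ j, f j ≠ 0 := by
    intro j hj
    obtain ⟨i, h1, -, h3⟩ := h.der j
    rw [hj, derivative_zero] at h1
    exact h3 h1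
  set A : Finset ℝ := T ∪ Finset.univ.biUnion (fun j => (f j).roots.toFinset) with hA
  have hmem : ∀ t, t ∈ A ↔ t ∈ T ∨ ∃ j, (f j).eval t = 0 := by
    intro t
    simp only [hA, Finset.mem_union, Finset.mem_biUnion, Finset.mem_univ, true_and,
      Multiset.mem_toFinset, mem_roots', IsRoot.def]
    constructor
    · rintro (h1 | ⟨j, -, h1⟩)
      · exact Or.inl h1
      · exact Or.inr ⟨j, h1⟩
    · rintro (h1 | ⟨j, h1⟩)
      · exact Or.inl h1
      · exact Or.inr ⟨j, hf0 j, h1⟩
  have hex : ∀ t, ∃ t', (t ∈ A → Match T ψ f f' t t') := by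
    intro t
    by_cases ht : t ∈ A
    · obtain ⟨t', ht'⟩ := match_exists h t ((hmem t).1 ht)
      exact ⟨t', fun _ => ht'⟩
    · exact ⟨0, fun h1 => absurd h1 ht⟩
  choose e he using hex
  have hmono : StrictMonoOn e A := fun t ht u hu htu =>
    match_mono h ((hmem t).1 ht) (he t ht) (he u hu) htu
  obtain ⟨ψ₂, hψ₂⟩ := exists_orderIso A e hmono
  have hTA : ∀ s ∈ T, s ∈ A := fun s hs => (hmem s).2 (Or.inl hs)
  have hT2 : ∀ s ∈ T, ψ₂ s = ψ s := by
    intro s hs
    rw [hψ₂ s (hTA s hs)]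
    exact pos_mem (he s (hTA s hs)).1 hs
  have hpos : ∀ t, Pos T ψ t (ψ₂ t) := by
    intro t s hs
    rw [← hT2 s hs]
    exact ⟨ψ₂.lt_iff_lt.symm, ψ₂.lt_iff_lt.symm⟩
  have hmat : ∀ t ∈ A, Match T ψ f f' t (ψ₂ t) := by
    intro t ht
    rw [hψ₂ t ht]
    exact he t ht
  have hback : ∀ j t', (f' j).eval t' = 0 → ∃ r ∈ A, ψ₂ r = t' := by
    intro j t' ht'
    obtain ⟨r, hr⟩ := match_exists h.symm t' (Or.inr ⟨j, ht'⟩)
    have h1 : Match T ψ f f' r t' := ⟨pos_symm' hr.1, fun k => (hr.2 k).symm⟩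
    have h2 : (f j).eval r = 0 := by
      have := h1.2 j
      rw [ht', sign_zero] at this
      exact sign_eq_zero_iff.1 this
    have h3 : r ∈ A := (hmem r).2 (Or.inr ⟨j, h2⟩)
    exact ⟨r, h3, match_unique h ⟨j, h2⟩ (hmat r h3) h1⟩
  refine ⟨ψ₂, fun i t => ?_⟩
  rcases i with i | j
  · exact pos_sgn h (hpos t) i
  · change SignType.sign ((f j).eval t) = SignType.sign ((f' j).eval (ψ₂ t))
    by_cases htA : t ∈ A
    · exact (hmat t htA).2 j
    obtain ⟨m1, hm1, hm2, hm2'⟩ := h.lo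
    obtain ⟨m3, hm3, hm4, hm4'⟩ := h.hi
    rcases le_or_gt t m1 with h1 | h1
    · rw [(hm2 j t h1).1, (hm2' j (ψ₂ t) (by rw [← hT2 m1 hm1]; exact ψ₂.le_iff_le.2 h1)).1]
      exact h.fT m1 hm1 j
    rcases le_or_gt m3 t with h2 | h2
    · rw [(hm4 j t h2).1, (hm4' j (ψ₂ t) (by rw [← hT2 m3 hm3]; exact ψ₂.le_iff_le.2 h2)).1]
      exact h.fT m3 hm3 j
    obtain ⟨a, haA, b, hbA, hat, htb, hab⟩ := Q1b_gap A t htA ⟨m1, hTA m1 hm1, h1⟩
      ⟨m3, hTA m3 hm3, h2⟩
    have hno : ∀ u, a < u → u < b → (f j).eval u ≠ 0 := by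
      intro u hu1 hu2 hu3
      rcases hab u ((hmem u).2 (Or.inr ⟨j, hu3⟩)) with h4 | h4
      · exact absurd hu1 (not_lt.2 h4)
      · exact absurd hu2 (not_lt.2 h4)
    have hno' : ∀ u, ψ₂ a < u → u < ψ₂ b → (f' j).eval u ≠ 0 := by
      intro u hu1 hu2 hu3
      obtain ⟨r, hr, hr2⟩ := hback j u hu3
      rw [← hr2] at hu1 hu2
      rcases hab r hr with h4 | h4
      · exact absurd (ψ₂.lt_iff_lt.1 hu1) (not_lt.2 h4)
      · exact absurd (ψ₂.lt_iff_lt.1 hu2) (not_lt.2 h4)
    have hat' : ψ₂ a < ψ₂ t := ψ₂.lt_iff_lt.2 hat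
    have htb' : ψ₂ t < ψ₂ b := ψ₂.lt_iff_lt.2 htb
    by_cases hfa : (f j).eval a = 0
    · by_cases hfb : (f j).eval b = 0
      · exfalso
        obtain ⟨c, hc1, hc2, hc3⟩ := Q1b_mvt (f j) (hat.trans htb)
        obtain ⟨i, h3, -, h4⟩ := h.der j
        rw [hfa, hfb, sub_zero, ← h3] at hc3
        have h5 := (mul_eq_zero.1 hc3.symm).resolve_right (sub_pos.2 (hat.trans htb)).ne'
        rcases hab c (hTA c (h.rt i c h4 h5)) with h6 | h6
        · exact absurd hc1 (not_lt.2 h6)
        · exact absurd hc2 (not_lt.2 h6)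
      · have h3 := (hmat b hbA).2 j
        have hfb' : (f' j).eval (ψ₂ b) ≠ 0 := by
          intro h4
          rw [h4, sign_zero] at h3
          exact hfb (sign_eq_zero_iff.1 h3)
        have h4 : SignType.sign ((f j).eval t) = SignType.sign ((f j).eval b) := by
          apply Q1b_const htb.le
          intro u hu1 hu2
          rcases hu2.eq_or_lt with h5 | h5
          · rw [h5]
            exact hfb
          · exact hno u (lt_of_lt_of_le hat hu1) h5
        have h5 : SignType.sign ((f' j).eval (ψ₂ t)) = SignType.sign ((f' j).eval (ψ₂ b)) := by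
          apply Q1b_const htb'.le
          intro u hu1 hu2
          rcases hu2.eq_or_lt with h5 | h5
          · rw [h5]
            exact hfb'
          · exact hno' u (lt_of_lt_of_le hat' hu1) h5
        rw [h4, h5, h3]
    · have h3 := (hmat a haA).2 j
      have hfa' : (f' j).eval (ψ₂ a) ≠ 0 := by
        intro h4
        rw [h4, sign_zero] at h3
        exact hfa (sign_eq_zero_iff.1 h3)
      have h4 : SignType.sign ((f j).eval a) = SignType.sign ((f j).eval t) := by
        apply Q1b_const hat.le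
        intro u hu1 hu2
        rcases hu1.eq_or_lt with h5 | h5
        · rw [← h5]
          exact hfa
        · exact hno u h5 (lt_of_le_of_lt hu2 htb)
      have h5 : SignType.sign ((f' j).eval (ψ₂ a)) = SignType.sign ((f' j).eval (ψ₂ t)) := by
        apply Q1b_const hat'.le
        intro u hu1 hu2
        rcases hu1.eq_or_lt with h5 | h5
        · rw [← h5]
          exact hfa'
        · exact hno' u h5 (lt_of_le_of_lt hu2 htb')
      rw [← h4, ← h5, h3]

/-- The step lemma.  `p, p'` have the same diagram; `f, f'` are families of nonconstant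
polynomials of equal degrees and equal signs of leading coefficients whose derivatives are among
the `p, p'`; at the roots of nonzero `p i` the sign of `f j` is the sign of some `p i'`; at the
roots of `f j'` the sign of `f j` is the sign of some `p i'`; the same (with the same `i'`) for the
primed families.  Then the combined families have the same diagram. -/
theorem diag_step {ι κ : Type} [Finite ι] [Finite κ] {p p' : ι → ℝ[X]} {f f' : κ → ℝ[X]}
    (hp : DiagEq p p') (hdeg : ∀ j, (f j).natDegree = (f' j).natDegree)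
    (hpos : ∀ j, 0 < (f j).natDegree)
    (hlc : ∀ j, SignType.sign (f j).leadingCoeff = SignType.sign (f' j).leadingCoeff)
    (hder : ∀ j, ∃ i, p i = derivative (f j) ∧ p' i = derivative (f' j))
    (hroot : ∀ i j, p i ≠ 0 → ∃ i',
      (∀ t, (p i).eval t = 0 → SignType.sign ((f j).eval t) = SignType.sign ((p i').eval t)) ∧
      (∀ t, (p' i).eval t = 0 → SignType.sign ((f' j).eval t) = SignType.sign ((p' i').eval t)))
    (hroot' : ∀ j' j, ∃ i',
      (∀ t, (f j').eval t = 0 → SignType.sign ((f j).eval t) = SignType.sign ((p i').eval t)) ∧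
      (∀ t, (f' j').eval t = 0 → SignType.sign ((f' j).eval t) = SignType.sign ((p' i').eval t))) :
    DiagEq (Sum.elim p f) (Sum.elim p' f') := by
  classical
  obtain ⟨ψ, hψ⟩ := hp
  have _ : Fintype ι := Fintype.ofFinite ι
  have _ : Fintype κ := Fintype.ofFinite κ
  have hz : ∀ i, p i = 0 ↔ p' i = 0 := by
    intro i
    constructor
    · intro h
      apply Polynomial.funext
      intro t
      have := hψ i (ψ.symm t)
      rw [h, eval_zero, sign_zero, ψ.apply_symm_apply] at this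
      rw [eval_zero]
      exact sign_eq_zero_iff.1 this.symm
    · intro h
      apply Polynomial.funext
      intro t
      have := hψ i t
      rw [h, eval_zero, sign_zero] at this
      rw [eval_zero]
      exact sign_eq_zero_iff.1 this
  have hlc0 : ∀ j, (f j).leadingCoeff ≠ 0 := by
    intro j h
    rw [leadingCoeff_eq_zero] at h
    have := hpos j
    rw [h] at this
    simp at this
  -- lower bound
  have hlo : ∃ m : ℝ, ∀ t, t ≤ m → ∀ j, SignType.sign ((f j).eval t) =
      SignType.sign ((f j).leadingCoeff * (-1) ^ (f j).natDegree) ∧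
      SignType.sign ((f' j).eval (ψ t)) =
      SignType.sign ((f j).leadingCoeff * (-1) ^ (f j).natDegree) := by
    have h1 : ∀ᶠ t in atBot, ∀ j, SignType.sign ((f j).eval t) =
      SignType.sign ((f j).leadingCoeff * (-1) ^ (f j).natDegree) ∧
      SignType.sign ((f' j).eval (ψ t)) =
      SignType.sign ((f j).leadingCoeff * (-1) ^ (f j).natDegree) := by
      rw [eventually_all]
      intro j
      have h2 := Q1b_bot (hpos j)
      have h3 := Q1b_bot (q := f' j) (by rw [← hdeg j]; exact hpos j)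
      have h4 := ψ.tendsto_atBot.eventually h3
      filter_upwards [h2, h4] with t ht1 ht2
      refine ⟨ht1, ?_⟩
      rw [ht2, ← hdeg j, sign_mul, sign_mul, hlc j]
    exact eventually_atBot.1 h1
  have hhi : ∃ m : ℝ, ∀ t, m ≤ t → ∀ j, SignType.sign ((f j).eval t) =
      SignType.sign (f j).leadingCoeff ∧
      SignType.sign ((f' j).eval (ψ t)) = SignType.sign (f j).leadingCoeff := by
    have h1 : ∀ᶠ t in atTop, ∀ j, SignType.sign ((f j).eval t) =
      SignType.sign (f j).leadingCoeff ∧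
      SignType.sign ((f' j).eval (ψ t)) = SignType.sign (f j).leadingCoeff := by
      rw [eventually_all]
      intro j
      have h2 := Q1b_top (hpos j)
      have h3 := Q1b_top (q := f' j) (by rw [← hdeg j]; exact hpos j)
      have h4 := ψ.tendsto_atTop.eventually h3
      filter_upwards [h2, h4] with t ht1 ht2
      refine ⟨ht1, ?_⟩
      rw [ht2, hlc j]
    exact eventually_atTop.1 h1
  obtain ⟨m1, hm1⟩ := hlo
  obtain ⟨m2, hm2⟩ := hhi
  set T : Finset ℝ := {m1, m2} ∪ Finset.univ.biUnion (fun i => (p i).roots.toFinset) with hT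
  have hmem : ∀ t, t ∈ T ↔ (t = m1 ∨ t = m2) ∨ ∃ i, p i ≠ 0 ∧ (p i).eval t = 0 := by
    intro t
    simp only [hT, Finset.mem_union, Finset.mem_insert, Finset.mem_singleton, Finset.mem_biUnion,
      Finset.mem_univ, true_and, Multiset.mem_toFinset, mem_roots', IsRoot.def]
  have hs1 : ∀ j, SignType.sign ((f j).leadingCoeff * (-1) ^ (f j).natDegree) ≠ 0 := by
    intro j h
    have h2 := sign_eq_zero_iff.1 h
    have h3 : ((-1 : ℝ)) ^ (f j).natDegree ≠ 0 := pow_ne_zero _ (by norm_num)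
    exact mul_ne_zero (hlc0 j) h3 h2
  have hs2 : ∀ j, SignType.sign (f j).leadingCoeff ≠ 0 := by
    intro j h
    exact hlc0 j (sign_eq_zero_iff.1 h)
  have hctx : Ctx T ψ p p' f f' := by
    constructor
    · exact hψ
    · intro i t h1 h2
      exact (hmem t).2 (Or.inr ⟨i, h1, h2⟩)
    · intro i t h1 h2
      refine (hmem _).2 (Or.inr ⟨i, fun h3 => h1 ((hz i).1 h3), ?_⟩)
      have := hψ i (ψ.symm t)
      rw [ψ.apply_symm_apply, h2, sign_zero] at this
      exact sign_eq_zero_iff.1 this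
    · exact hz
    · intro t ht j
      rcases (hmem t).1 ht with (h1 | h1) | ⟨i, h1, h2⟩
      · rw [h1, (hm1 m1 le_rfl j).1, (hm1 m1 le_rfl j).2]
      · rw [h1, (hm2 m2 le_rfl j).1, (hm2 m2 le_rfl j).2]
      · obtain ⟨i', h3, h4⟩ := hroot i j h1
        have h5 : (p' i).eval (ψ t) = 0 := by
          have := hψ i t
          rw [h2, sign_zero] at this
          exact sign_eq_zero_iff.1 this.symm
        rw [h3 t h2, h4 (ψ t) h5]
        exact hψ i' t
    · intro j
      obtain ⟨i, h1, h2⟩ := hder j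
      refine ⟨i, h1, h2, fun h3 => ?_⟩
      rw [h3] at h1
      have := derivative_eq_zero.1 h1.symm
      have h4 := hpos j
      omega
    · exact hroot'
    · refine ⟨m1, (hmem m1).2 (Or.inl (Or.inl rfl)), fun j t ht => ⟨?_, ?_⟩,
        fun j t ht => ⟨?_, ?_⟩⟩
      · rw [(hm1 t ht j).1, (hm1 m1 le_rfl j).1]
      · intro h1
        have h2 := (hm1 t ht j).1
        rw [h1, sign_zero] at h2
        exact hs1 j h2.symm
      · have h1 : ψ.symm t ≤ m1 := by
          rw [← ψ.symm_apply_apply m1]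
          exact ψ.symm.le_iff_le.2 ht
        have h2 := (hm1 _ h1 j).2
        rw [ψ.apply_symm_apply] at h2
        rw [h2, (hm1 m1 le_rfl j).2]
      · intro h3
        have h1 : ψ.symm t ≤ m1 := by
          rw [← ψ.symm_apply_apply m1]
          exact ψ.symm.le_iff_le.2 ht
        have h2 := (hm1 _ h1 j).2
        rw [ψ.apply_symm_apply, h3, sign_zero] at h2
        exact hs1 j h2.symm
    · refine ⟨m2, (hmem m2).2 (Or.inl (Or.inr rfl)), fun j t ht => ⟨?_, ?_⟩,
        fun j t ht => ⟨?_, ?_⟩⟩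
      · rw [(hm2 t ht j).1, (hm2 m2 le_rfl j).1]
      · intro h1
        have h2 := (hm2 t ht j).1
        rw [h1, sign_zero] at h2
        exact hs2 j h2.symm
      · have h1 : m2 ≤ ψ.symm t := by
          rw [← ψ.symm_apply_apply m2]
          exact ψ.symm.le_iff_le.2 ht
        have h2 := (hm2 _ h1 j).2
        rw [ψ.apply_symm_apply] at h2
        rw [h2, (hm2 m2 le_rfl j).2]
      · intro h3
        have h1 : m2 ≤ ψ.symm t := by
          rw [← ψ.symm_apply_apply m2]
          exact ψ.symm.le_iff_le.2 ht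
        have h2 := (hm2 _ h1 j).2
        rw [ψ.apply_symm_apply, h3, sign_zero] at h2
        exact hs2 j h2.symm
  exact ctx_diag hctx

end BU
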