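import Pool.Agent.Work.MP_4030f5_lc.Q0

/-! # Q2: symbolic polynomials in one distinguished variable

A symbolic polynomial is a list of coefficients (low degree first) in `Fm σ`; it is evaluated at
`b : σ → ℝ` to a real polynomial. -/

namespace BU

open Polynomial

variable {σ : Type}

/-- real polynomial obtained by evaluating the coefficients at `b`. -/
noncomputable def SP.at (b : σ → ℝ) : List (Fm σ) → ℝ[X]
  | [] => 0
  | c :: f => C (c.eval b) + X * SP.at b f

/-- drop the leading coefficient -/
def SP.trunc (f : List (Fm σ)) : List (Fm σ) := f.dropLast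

/-- leading coefficient of a nonempty list (`0` for the empty list) -/
def SP.lead (f : List (Fm σ)) : Fm σ := f.getLastD (Fm.const 0)

theorem Q2a_at_append (b : σ → ℝ) (f g : List (Fm σ)) :
    SP.at b (f ++ g) = SP.at b f + X ^ f.length * SP.at b g := by
  induction f with
  | nil => simp [SP.at]
  | cons c f ih =>
    rw [List.cons_append, SP.at, SP.at, ih, List.length_cons, pow_succ]
    ring

theorem Q2a_split (f : List (Fm σ)) (hne : f ≠ []) : SP.trunc f ++ [SP.lead f] = f := by
  unfold SP.trunc SP.lead
  rw [List.getLastD_eq_getLast?, List.getLast?_eq_some_getLast hne, Option.getD_some]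
  exact List.dropLast_append_getLast hne

theorem Q2a_at_split (b : σ → ℝ) (f : List (Fm σ)) (hne : f ≠ []) :
    SP.at b f = SP.at b (SP.trunc f) + X ^ (f.length - 1) * C ((SP.lead f).eval b) := by
  conv_lhs => rw [← Q2a_split f hne]
  rw [Q2a_at_append]
  simp [SP.at, SP.trunc]

theorem Q2a_degree_lt (b : σ → ℝ) (f : List (Fm σ)) :
    (SP.at b f).degree < (f.length : WithBot ℕ) := by
  induction f with
  | nil =>
    simp only [SP.at, degree_zero, List.length_nil]
    exact WithBot.bot_lt_coe 0
  | cons c f ih =>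
    rw [SP.at, List.length_cons]
    refine lt_of_le_of_lt (degree_add_le _ _) (max_lt ?_ ?_)
    · refine lt_of_le_of_lt degree_C_le ?_
      exact_mod_cast Nat.succ_pos _
    · by_cases h0 : SP.at b f = 0
      · rw [h0, mul_zero, degree_zero]
        exact WithBot.bot_lt_coe _
      · rw [degree_mul, degree_X, degree_eq_natDegree h0]
        rw [degree_eq_natDegree h0] at ih
        have h1 : (SP.at b f).natDegree < f.length := by exact_mod_cast ih
        have h2 : 1 + (SP.at b f).natDegree < f.length + 1 := by omega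
        exact_mod_cast h2

theorem SP.at_trunc {b : σ → ℝ} {f : List (Fm σ)} (h : (SP.lead f).eval b = 0) :
    SP.at b (SP.trunc f) = SP.at b f := by
  by_cases hne : f = []
  · subst hne
    rfl
  · rw [Q2a_at_split b f hne, h]
    simp

theorem SP.natDegree_at {b : σ → ℝ} {f : List (Fm σ)} (hne : f ≠ [])
    (h : (SP.lead f).eval b ≠ 0) : (SP.at b f).natDegree + 1 = f.length ∧
      (SP.at b f).leadingCoeff = (SP.lead f).eval b := by
  have hlen : 0 < f.length := List.length_pos_iff.mpr hne
  have h1 : (SP.at b (SP.trunc f)).degree <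
      (X ^ (f.length - 1) * C ((SP.lead f).eval b) : ℝ[X]).degree := by
    have h2 := Q2a_degree_lt b (SP.trunc f)
    have h3 : (SP.trunc f).length = f.length - 1 := List.length_dropLast
    rw [h3] at h2
    rw [degree_mul, degree_C h, degree_X_pow, add_zero]
    exact h2
  have hd : (SP.at b f).degree = ((f.length - 1 : ℕ) : WithBot ℕ) := by
    rw [Q2a_at_split b f hne, degree_add_eq_right_of_degree_lt h1, degree_mul, degree_C h,
      degree_X_pow, add_zero]
  have hnd : (SP.at b f).natDegree = f.length - 1 := natDegree_eq_of_degree_eq_some hd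
  refine ⟨by omega, ?_⟩
  rw [Q2a_at_split b f hne, leadingCoeff_add_of_degree_lt h1, leadingCoeff_mul,
    leadingCoeff_X_pow, leadingCoeff_C, one_mul]

/-- sizes are positive -/
theorem Q2a_size_pos (e : Fm σ) : 1 ≤ e.size := by
  cases e <;> simp [Fm.size]

theorem Q2a_tsize_nil : tsize ([] : List (Fm σ)) = 0 := rfl

theorem Q2a_tsize_cons (c : Fm σ) (f : List (Fm σ)) : tsize (c :: f) = c.size + tsize f := rfl

theorem Q2a_length_le (f : List (Fm σ)) : f.length ≤ tsize f := by
  induction f with
  | nil => simp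
  | cons c f ih =>
    rw [Q2a_tsize_cons, List.length_cons]
    have := Q2a_size_pos c
    omega

/-- multiply the coefficients by `k, k + 1, ...` -/
def Q2a_derAux : ℕ → List (Fm σ) → List (Fm σ)
  | _, [] => []
  | k, c :: f => Fm.mul (Fm.const (k : ℤ)) c :: Q2a_derAux (k + 1) f

theorem Q2a_derAux_length (k : ℕ) (f : List (Fm σ)) : (Q2a_derAux k f).length = f.length := by
  induction f generalizing k with
  | nil => rfl
  | cons c f ih => rw [Q2a_derAux, List.length_cons, List.length_cons, ih]

theorem Q2a_derAux_tsize (k : ℕ) (f : List (Fm σ)) : tsize (Q2a_derAux k f) ≤ 3 * tsize f := by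
  induction f generalizing k with
  | nil => simp [Q2a_derAux, Q2a_tsize_nil]
  | cons c f ih =>
    rw [Q2a_derAux, Q2a_tsize_cons, Q2a_tsize_cons]
    have h1 := ih (k + 1)
    have h2 := Q2a_size_pos c
    have h3 : (Fm.mul (Fm.const (k : ℤ)) c).size = 1 + c.size + 1 := rfl
    omega

theorem Q2a_derAux_at (b : σ → ℝ) (k : ℕ) (f : List (Fm σ)) :
    SP.at b (Q2a_derAux k f) = C (k : ℝ) * SP.at b f + X * derivative (SP.at b f) := by
  induction f generalizing k with
  | nil => simp [Q2a_derAux, SP.at]
  | cons c f ih =>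
    have h1 : (Fm.mul (Fm.const (k : ℤ)) c).eval b = (k : ℝ) * c.eval b := by
      simp [Fm.eval]
    rw [Q2a_derAux, SP.at, SP.at, ih, h1, derivative_add, derivative_mul, derivative_C,
      derivative_X, C_mul]
    push_cast
    rw [C_add, C_1]
    ring

/-- derivative: bounded size growth. -/
theorem SP.exists_der (C : ℕ) : ∃ C' : ℕ, ∀ (σ : Type) (f : List (Fm σ)), tsize f ≤ C →
    ∃ g : List (Fm σ), tsize g ≤ C' ∧ g.length = f.length - 1 ∧
      ∀ b : σ → ℝ, SP.at b g = derivative (SP.at b f) := by
  refine ⟨3 * C, fun σ f hf => ⟨Q2a_derAux 1 f.tail, ?_, ?_, ?_⟩⟩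
  · refine (Q2a_derAux_tsize 1 f.tail).trans ?_
    have h1 : tsize f.tail ≤ tsize f := by
      cases f with
      | nil => simp
      | cons c f =>
        rw [List.tail_cons, Q2a_tsize_cons]
        omega
    omega
  · rw [Q2a_derAux_length, List.length_tail]
  · intro b
    cases f with
    | nil => simp [Q2a_derAux, SP.at]
    | cons c f =>
      rw [List.tail_cons, Q2a_derAux_at, SP.at, derivative_add, derivative_mul, derivative_C,
        derivative_X]
      simp

/-- sum of symbolic polynomials -/
def Q2a_add : List (Fm σ) → List (Fm σ) → List (Fm σ)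
  | [], g => g
  | c :: f, [] => c :: f
  | c :: f, d :: g => Fm.add c d :: Q2a_add f g

theorem Q2a_add_at (b : σ → ℝ) (f g : List (Fm σ)) :
    SP.at b (Q2a_add f g) = SP.at b f + SP.at b g := by
  induction f generalizing g with
  | nil => simp [Q2a_add, SP.at]
  | cons c f ih =>
    cases g with
    | nil => simp [Q2a_add, SP.at]
    | cons d g =>
      have h1 : (Fm.add c d).eval b = c.eval b + d.eval b := rfl
      rw [Q2a_add, SP.at, SP.at, SP.at, ih, h1, C_add]
      ring

theorem Q2a_add_length (f g : List (Fm σ)) :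
    (Q2a_add f g).length = max f.length g.length := by
  induction f generalizing g with
  | nil => simp [Q2a_add]
  | cons c f ih =>
    cases g with
    | nil => simp [Q2a_add]
    | cons d g =>
      rw [Q2a_add, List.length_cons, ih, List.length_cons, List.length_cons]
      omega

theorem Q2a_add_tsize (f g : List (Fm σ)) :
    tsize (Q2a_add f g) ≤ 2 * (tsize f + tsize g) := by
  induction f generalizing g with
  | nil =>
    rw [Q2a_add, Q2a_tsize_nil]
    omega
  | cons c f ih =>
    cases g with
    | nil =>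
      rw [Q2a_add]
      omega
    | cons d g =>
      rw [Q2a_add, Q2a_tsize_cons, Q2a_tsize_cons, Q2a_tsize_cons]
      have h1 := ih g
      have h2 : (Fm.add c d).size = c.size + d.size + 1 := rfl
      have h3 := Q2a_size_pos c
      omega

/-- multiplication by a coefficient -/
def Q2a_scale (c : Fm σ) (f : List (Fm σ)) : List (Fm σ) := f.map (Fm.mul c)

theorem Q2a_scale_at (b : σ → ℝ) (c : Fm σ) (f : List (Fm σ)) :
    SP.at b (Q2a_scale c f) = C (c.eval b) * SP.at b f := by
  induction f with
  | nil => simp [Q2a_scale, SP.at]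
  | cons d f ih =>
    have h1 : (Fm.mul c d).eval b = c.eval b * d.eval b := rfl
    rw [Q2a_scale, List.map_cons, SP.at, SP.at, h1, C_mul]
    change _ + X * SP.at b (Q2a_scale c f) = _
    rw [ih]
    ring

theorem Q2a_scale_length (c : Fm σ) (f : List (Fm σ)) :
    (Q2a_scale c f).length = f.length := List.length_map _

theorem Q2a_scale_tsize (c : Fm σ) (f : List (Fm σ)) :
    tsize (Q2a_scale c f) ≤ tsize f * (c.size + 2) := by
  induction f with
  | nil => simp [Q2a_scale, Q2a_tsize_nil]
  | cons d f ih =>
    have h0 : Q2a_scale c (d :: f) = Fm.mul c d :: Q2a_scale c f := rfl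
    have h2 : (Fm.mul c d).size = c.size + d.size + 1 := rfl
    have h3 := Q2a_size_pos d
    rw [h0, Q2a_tsize_cons, Q2a_tsize_cons, h2, add_mul]
    have h4 : c.size + d.size + 1 ≤ d.size * (c.size + 2) := by nlinarith
    omega

/-- product of symbolic polynomials -/
def Q2a_mul : List (Fm σ) → List (Fm σ) → List (Fm σ)
  | [], _ => []
  | c :: f, g => Q2a_add (Q2a_scale c g) (Fm.const 0 :: Q2a_mul f g)

theorem Q2a_mul_at (b : σ → ℝ) (f g : List (Fm σ)) :
    SP.at b (Q2a_mul f g) = SP.at b f * SP.at b g := by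
  induction f with
  | nil => simp [Q2a_mul, SP.at]
  | cons c f ih =>
    have h1 : (Fm.const 0 : Fm σ).eval b = 0 := by simp [Fm.eval]
    rw [Q2a_mul, Q2a_add_at, Q2a_scale_at, SP.at, SP.at, ih, h1, C_0]
    ring

theorem Q2a_mul_tsize (f g : List (Fm σ)) :
    tsize (Q2a_mul f g) ≤ 4 ^ f.length * ((tsize f + 2) * (tsize g + 1)) := by
  induction f with
  | nil => simp [Q2a_mul, Q2a_tsize_nil]
  | cons c f ih =>
    rw [Q2a_mul]
    refine (Q2a_add_tsize _ _).trans ?_
    have h1 := Q2a_scale_tsize c g
    have h2 : (Fm.const 0 : Fm σ).size = 1 := rfl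
    rw [Q2a_tsize_cons, Q2a_tsize_cons, h2, List.length_cons, pow_succ]
    have h3 : 1 ≤ 4 ^ f.length := Nat.one_le_pow _ _ (by norm_num)
    have h4 : (tsize g + 1) * (c.size + 2) ≤
        4 ^ f.length * ((tsize g + 1) * (c.size + 2)) := Nat.le_mul_of_pos_left _ h3
    have h5 : 4 ^ f.length * 4 * ((c.size + tsize f + 2) * (tsize g + 1)) =
        2 * (4 ^ f.length * ((tsize f + 2) * (tsize g + 1))) +
        2 * (4 ^ f.length * ((tsize g + 1) * (c.size + 2))) +
        2 * (4 ^ f.length * ((tsize g + 1) * (c.size + tsize f))) := by ring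
    have h6 : tsize g * (c.size + 2) + 1 ≤ (tsize g + 1) * (c.size + 2) := by nlinarith
    rw [h5]
    omega

/-- an expression as a symbolic polynomial -/
def Q2a_sp : Fm (Option σ) → List (Fm σ)
  | .var none => [Fm.const 0, Fm.const 1]
  | .var (some i) => [Fm.var i]
  | .const c => [Fm.const c]
  | .add e f => Q2a_add (Q2a_sp e) (Q2a_sp f)
  | .mul e f => Q2a_mul (Q2a_sp e) (Q2a_sp f)

theorem Q2a_sp_eval (b : σ → ℝ) (t : ℝ) (e : Fm (Option σ)) :
    (SP.at b (Q2a_sp e)).eval t = e.eval (ext b t) := by
  induction e with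
  | var i =>
    cases i with
    | none => simp [Q2a_sp, SP.at, Fm.eval, ext]
    | some i => simp [Q2a_sp, SP.at, Fm.eval, ext]
  | const c => simp [Q2a_sp, SP.at, Fm.eval]
  | add e f he hf => rw [Q2a_sp, Q2a_add_at, eval_add, he, hf, Fm.eval]
  | mul e f he hf => rw [Q2a_sp, Q2a_mul_at, eval_mul, he, hf, Fm.eval]

/-- every expression in `Option σ` can be written as a symbolic polynomial in the variable
`none`. -/
theorem SP.exists_of_fm (C : ℕ) : ∃ C' : ℕ, ∀ (σ : Type) (e : Fm (Option σ)), e.size ≤ C →
    ∃ f : List (Fm σ), tsize f ≤ C' ∧ ∀ (b : σ → ℝ) (t : ℝ), (SP.at b f).eval t = e.eval (ext b t) := by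
  have key : ∀ n : ℕ, ∃ C' : ℕ, ∀ (σ : Type) (e : Fm (Option σ)), e.size ≤ n →
      tsize (Q2a_sp e) ≤ C' := by
    intro n
    induction n with
    | zero =>
      refine ⟨0, fun σ e he => ?_⟩
      have := Q2a_size_pos e
      omega
    | succ n ih =>
      obtain ⟨B, hB⟩ := ih
      refine ⟨2 + 2 * (B + B) + 4 ^ B * ((B + 2) * (B + 1)), fun σ e he => ?_⟩
      cases e with
      | var i =>
        cases i with
        | none =>
          have : tsize (Q2a_sp (Fm.var (none : Option σ))) = 2 := rfl
          omega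
        | some i =>
          have : tsize (Q2a_sp (Fm.var (some i))) = 1 := rfl
          omega
      | const c =>
        have : tsize (Q2a_sp (Fm.const c : Fm (Option σ))) = 1 := rfl
        omega
      | add e f =>
        have h0 : (Fm.add e f).size = e.size + f.size + 1 := rfl
        have h1 := hB σ e (by omega)
        have h2 := hB σ f (by omega)
        have h3 := Q2a_add_tsize (Q2a_sp e) (Q2a_sp f)
        rw [Q2a_sp]
        omega
      | mul e f =>
        have h0 : (Fm.mul e f).size = e.size + f.size + 1 := rfl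
        have h1 := hB σ e (by omega)
        have h2 := hB σ f (by omega)
        have h3 := Q2a_mul_tsize (Q2a_sp e) (Q2a_sp f)
        have h4 := Q2a_length_le (Q2a_sp e)
        have h5 : 4 ^ (Q2a_sp e).length * ((tsize (Q2a_sp e) + 2) * (tsize (Q2a_sp f) + 1)) ≤
            4 ^ B * ((B + 2) * (B + 1)) := by
          apply Nat.mul_le_mul
          · exact Nat.pow_le_pow_right (by norm_num) (by omega)
          · exact Nat.mul_le_mul (by omega) (by omega)
        rw [Q2a_sp]
        omega
  obtain ⟨C', hC'⟩ := key C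
  exact ⟨C', fun σ e he => ⟨Q2a_sp e, hC' σ e he, fun b t => Q2a_sp_eval b t e⟩⟩

/-- Horner scheme -/
def Q2a_fm : List (Fm σ) → Fm (Option σ)
  | [] => Fm.const 0
  | c :: f => Fm.add (c.rename some) (Fm.mul (Fm.var none) (Q2a_fm f))

/-- conversely a symbolic polynomial can be written as an expression. -/
theorem SP.exists_fm (C : ℕ) : ∃ C' : ℕ, ∀ (σ : Type) (f : List (Fm σ)), tsize f ≤ C →
    ∃ e : Fm (Option σ), e.size ≤ C' ∧ ∀ (b : σ → ℝ) (t : ℝ), e.eval (ext b t) = (SP.at b f).eval t := by
  refine ⟨4 * C + 1, fun σ f hf => ⟨Q2a_fm f, ?_, ?_⟩⟩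
  · have h1 : (Q2a_fm f).size ≤ 4 * tsize f + 1 := by
      clear hf
      induction f with
      | nil => simp [Q2a_fm, Fm.size]
      | cons c f ih =>
        have h2 : (Q2a_fm (c :: f)).size = (c.rename some).size +
            (1 + (Q2a_fm f).size + 1) + 1 := rfl
        have h3 := Q2a_size_pos c
        rw [h2, Fm.size_rename, Q2a_tsize_cons]
        omega
    omega
  · intro b t
    clear hf
    induction f with
    | nil => simp [Q2a_fm, Fm.eval, SP.at]
    | cons c f ih =>
      have h2 : (Q2a_fm (c :: f)).eval (ext b t) = (c.rename some).eval (ext b t) +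
          (ext b t none) * (Q2a_fm f).eval (ext b t) := rfl
      have h3 : (fun i => ext b t (some i)) = b := rfl
      have h4 : ext b t none = t := rfl
      rw [h2, Fm.eval_rename, ih, SP.at, h3, h4]
      simp

end BU
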