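import Pool.Agent.Work.MP_4030f5_lc.Q2a

/-! # Q2: symbolic polynomials in one distinguished variable

A symbolic polynomial is a list of coefficients (low degree first) in `Fm σ`; it is evaluated at
`b : σ → ℝ` to a real polynomial. -/

namespace BU

open Polynomial

variable {σ : Type}

theorem Q2b_tsize_append (f g : List (Fm σ)) : tsize (f ++ g) = tsize f + tsize g :=
  tsize_append f g

/-- multiplication by a power of the variable -/
def Q2b_shift (m : ℕ) (f : List (Fm σ)) : List (Fm σ) := List.replicate m (Fm.const 0) ++ f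

theorem Q2b_shift_at (b : σ → ℝ) (m : ℕ) (f : List (Fm σ)) :
    SP.at b (Q2b_shift m f) = X ^ m * SP.at b f := by
  have h0 : SP.at b (List.replicate m (Fm.const 0)) = 0 := by
    induction m with
    | zero => rfl
    | succ m ih =>
      rw [List.replicate_succ, SP.at, ih]
      simp [Fm.eval]
  rw [Q2b_shift, Q2a_at_append, h0, zero_add, List.length_replicate]

theorem Q2b_shift_tsize (m : ℕ) (f : List (Fm σ)) : tsize (Q2b_shift m f) = m + tsize f := by
  rw [Q2b_shift, Q2b_tsize_append]
  congr 1
  induction m with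
  | zero => rfl
  | succ m ih =>
    rw [List.replicate_succ, Q2a_tsize_cons, ih]
    have : (Fm.const 0 : Fm σ).size = 1 := rfl
    omega

theorem Q2b_shift_length (m : ℕ) (f : List (Fm σ)) : (Q2b_shift m f).length = m + f.length := by
  rw [Q2b_shift, List.length_append, List.length_replicate]

theorem Q2b_tsize_trunc (f : List (Fm σ)) (hne : f ≠ []) :
    tsize (SP.trunc f) + (SP.lead f).size = tsize f := by
  conv_rhs => rw [← Q2a_split f hne]
  rw [Q2b_tsize_append]
  rfl

theorem Q2b_tsize_trunc_le (f : List (Fm σ)) : tsize (SP.trunc f) ≤ tsize f := by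
  by_cases hne : f = []
  · subst hne
    exact le_rfl
  · have := Q2b_tsize_trunc f hne
    omega

/-- one step of the pseudo division -/
def Q2b_step (f p : List (Fm σ)) : List (Fm σ) :=
  Q2a_add (Q2a_scale (Fm.mul (SP.lead p) (SP.lead p)) (SP.trunc f))
    (Q2b_shift (f.length - p.length)
      (Q2a_scale (Fm.mul (Fm.const (-1)) (Fm.mul (SP.lead p) (SP.lead f))) (SP.trunc p)))

theorem Q2b_step_length (f p : List (Fm σ)) (hp : p ≠ []) (h : p.length ≤ f.length) :
    (Q2b_step f p).length = f.length - 1 := by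
  have hlen : 0 < p.length := List.length_pos_iff.mpr hp
  rw [Q2b_step, Q2a_add_length, Q2b_shift_length, Q2a_scale_length, Q2a_scale_length,
    SP.trunc, SP.trunc, List.length_dropLast, List.length_dropLast]
  omega

theorem Q2b_step_tsize {C : ℕ} (f p : List (Fm σ)) (hf : tsize f ≤ C) (hpC : tsize p ≤ C)
    (hp : p ≠ []) (h : p.length ≤ f.length) :
    tsize (Q2b_step f p) ≤ 2 * (C * (2 * C + 3) + (C + C * (2 * C + 5))) := by
  have hfne : f ≠ [] := by
    rintro rfl
    have hlen : 0 < p.length := List.length_pos_iff.mpr hp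
    simp at h
    exact hp h
  have h1 := Q2b_tsize_trunc f hfne
  have h2 := Q2b_tsize_trunc p hp
  have h3 := Q2a_length_le f
  refine (Q2a_add_tsize _ _).trans (Nat.mul_le_mul_left 2 ?_)
  rw [Q2b_shift_tsize]
  refine Nat.add_le_add ?_ (Nat.add_le_add (by omega) ?_)
  · refine (Q2a_scale_tsize _ _).trans (Nat.mul_le_mul (by omega) ?_)
    have h4 : (Fm.mul (SP.lead p) (SP.lead p)).size =
        (SP.lead p).size + (SP.lead p).size + 1 := rfl
    omega
  · refine (Q2a_scale_tsize _ _).trans (Nat.mul_le_mul (by omega) ?_)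
    have h4 : (Fm.mul (Fm.const (-1)) (Fm.mul (SP.lead p) (SP.lead f))).size =
        1 + ((SP.lead p).size + (SP.lead f).size + 1) + 1 := rfl
    omega

theorem Q2b_step_at (b : σ → ℝ) (f p : List (Fm σ)) (hp : p ≠ []) (h : p.length ≤ f.length) :
    SP.at b (Q2b_step f p) = C ((SP.lead p).eval b * (SP.lead p).eval b) * SP.at b f -
      C ((SP.lead p).eval b * (SP.lead f).eval b) * X ^ (f.length - p.length) * SP.at b p := by
  have hlen : 0 < p.length := List.length_pos_iff.mpr hp
  have hfne : f ≠ [] := by
    rintro rfl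
    simp at h
    exact hp h
  have e1 : (Fm.mul (SP.lead p) (SP.lead p)).eval b =
      (SP.lead p).eval b * (SP.lead p).eval b := rfl
  have e2 : (Fm.mul (Fm.const (-1)) (Fm.mul (SP.lead p) (SP.lead f))).eval b =
      -((SP.lead p).eval b * (SP.lead f).eval b) := by
    simp [Fm.eval]
  rw [Q2b_step, Q2a_add_at, Q2b_shift_at, Q2a_scale_at, Q2a_scale_at, e1, e2,
    Q2a_at_split b f hfne, Q2a_at_split b p hp]
  have e3 : (X : ℝ[X]) ^ (f.length - 1) = X ^ (f.length - p.length) * X ^ (p.length - 1) := by
    rw [← pow_add]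
    congr 1
    omega
  rw [e3]
  simp only [C_mul, C_neg]
  ring

/-- pseudo remainder: for `p` of length at most the length of `f` there is `r` of smaller length
than `p` such that, wherever the leading coefficient of `p` does not vanish, `r` and `f` have the
same sign at the roots of `p`. -/
theorem SP.exists_prem (C : ℕ) : ∃ C' : ℕ, ∀ (σ : Type) (f p : List (Fm σ)), tsize f ≤ C →
    tsize p ≤ C → p ≠ [] → ∃ r : List (Fm σ), tsize r ≤ C' ∧ r.length < p.length ∧
      ∀ b : σ → ℝ, (SP.lead p).eval b ≠ 0 → ∀ t, (SP.at b p).eval t = 0 →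
        SignType.sign ((SP.at b f).eval t) = SignType.sign ((SP.at b r).eval t) := by
  have key : ∀ n C : ℕ, ∃ C' : ℕ, ∀ (σ : Type) (f p : List (Fm σ)), f.length ≤ n →
      tsize f ≤ C → tsize p ≤ C → p ≠ [] → ∃ r : List (Fm σ), tsize r ≤ C' ∧
      r.length < p.length ∧
      ∀ b : σ → ℝ, (SP.lead p).eval b ≠ 0 → ∀ t, (SP.at b p).eval t = 0 →
        SignType.sign ((SP.at b f).eval t) = SignType.sign ((SP.at b r).eval t) := by
    intro n
    induction n with
    | zero =>
      intro C
      refine ⟨C, fun σ f p hn hf hpC hp => ⟨f, hf, ?_, fun b _ t _ => rfl⟩⟩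
      have hlen : 0 < p.length := List.length_pos_iff.mpr hp
      omega
    | succ n ih =>
      intro C
      obtain ⟨B, hB⟩ := ih (C + 2 * (C * (2 * C + 3) + (C + C * (2 * C + 5))))
      refine ⟨C + B, fun σ f p hn hf hpC hp => ?_⟩
      by_cases h : f.length < p.length
      · exact ⟨f, by omega, h, fun b _ t _ => rfl⟩
      · rw [not_lt] at h
        have h1 := Q2b_step_tsize f p hf hpC hp h
        have h2 := Q2b_step_length f p hp h
        have hlen : 0 < p.length := List.length_pos_iff.mpr hp
        obtain ⟨r, hr1, hr2, hr3⟩ := hB σ (Q2b_step f p) p (by omega) (by omega) (by omega) hp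
        refine ⟨r, by omega, hr2, fun b hb t ht => ?_⟩
        rw [← hr3 b hb t ht, Q2b_step_at b f p hp h, eval_sub, eval_mul, eval_mul, ht, mul_zero,
          sub_zero, eval_C, sign_mul, sign_mul]
        have h3 : SignType.sign ((SP.lead p).eval b) * SignType.sign ((SP.lead p).eval b) = 1 := by
          rcases lt_or_gt_of_ne hb with h4 | h4
          · rw [sign_neg h4]
            rfl
          · rw [sign_pos h4]
            rfl
        rw [h3, one_mul]
  obtain ⟨C', hC'⟩ := key C C
  refine ⟨C', fun σ f p hf hpC hp => hC' σ f p ?_ hf hpC hp⟩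
  exact (Q2a_length_le f).trans hf

end BU
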