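import Pool.Agent.Work.MP_4030f5_lc.Q2b
import Pool.Agent.Work.MP_4030f5_lc.Q1b

/-! # Q3: quantifier elimination over the reals (sign diagram form) -/

namespace BU

open Polynomial

/-- `r` has the sign of `f` at the roots of `p`, wherever the leading coefficient of `p` does not
vanish -/
def Q3a_Prem {σ : Type} (f p r : List (Fm σ)) : Prop :=
  ∀ b : σ → ℝ, (SP.lead p).eval b ≠ 0 → ∀ t, (SP.at b p).eval t = 0 →
    SignType.sign ((SP.at b f).eval t) = SignType.sign ((SP.at b r).eval t)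

/-- families of bounded total size and length -/
def Q3a_Bd {σ : Type} (C : ℕ) (P : List (List (Fm σ))) : Prop :=
  (P.map tsize).sum ≤ C ∧ P.length ≤ C

theorem Q3a_tsize_le {σ : Type} {C : ℕ} {P : List (List (Fm σ))} (h : Q3a_Bd C P)
    {p : List (Fm σ)} (hp : p ∈ P) : tsize p ≤ C :=
  (List.single_le_sum (fun _ _ => Nat.zero_le _) _ (List.mem_map_of_mem hp)).trans h.1

theorem Q3a_Bd_append {σ : Type} {C C' : ℕ} {P P' : List (List (Fm σ))} (h : Q3a_Bd C P)
    (h' : Q3a_Bd C' P') : Q3a_Bd (C + C') (P ++ P') := by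
  obtain ⟨h1, h2⟩ := h
  obtain ⟨h3, h4⟩ := h'
  refine ⟨?_, ?_⟩
  · rw [List.map_append, List.sum_append]
    omega
  · rw [List.length_append]
    omega

/-- a map with bounded values -/
theorem Q3a_Bd_map {σ α : Type} {C B : ℕ} (l : List α) (hl : l.length ≤ C)
    (g : α → List (Fm σ)) (hg : ∀ a ∈ l, tsize (g a) ≤ B) : Q3a_Bd (C * (B + 1)) (l.map g) := by
  have h1 : ((l.map g).map tsize).sum ≤ l.length * B := by
    clear hl
    induction l with
    | nil => simp
    | cons a l ih =>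
      rw [List.map_cons, List.map_cons, List.sum_cons, List.length_cons, add_mul, one_mul]
      have h2 := hg a List.mem_cons_self
      have h3 := ih (fun b hb => hg b (List.mem_cons_of_mem _ hb))
      omega
  refine ⟨?_, ?_⟩
  · calc _ ≤ l.length * B := h1
      _ ≤ C * (B + 1) := Nat.mul_le_mul hl (by omega)
  · rw [List.length_map]
    calc l.length ≤ C := hl
      _ = C * 1 := (mul_one _).symm
      _ ≤ C * (B + 1) := Nat.mul_le_mul_left _ (by omega)

/-- closure under truncation and pseudo remainders -/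
theorem Q3a_closure (e : ℕ) : ∀ C : ℕ, ∃ C' : ℕ, ∀ (σ : Type) (T P : List (List (Fm σ))),
    Q3a_Bd C T → Q3a_Bd C P → (∀ p ∈ P, p.length ≤ e) →
    ∃ P' : List (List (Fm σ)), Q3a_Bd C' P' ∧ (∀ p ∈ P, p ∈ P') ∧ (∀ p ∈ P', p.length ≤ e) ∧
      ∀ p ∈ P', p ≠ [] → SP.trunc p ∈ P' ∧ ∀ f ∈ T, ∃ r ∈ P', Q3a_Prem f p r := by
  induction e with
  | zero =>
    intro C
    refine ⟨C, fun σ T P hT hP he => ⟨P, hP, fun p hp => hp, he, fun p hp hne => ?_⟩⟩
    have h1 := he p hp
    exact absurd (List.length_eq_zero_iff.mp (Nat.le_zero.mp h1)) hne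
  | succ e ih =>
    intro C
    obtain ⟨B, hB⟩ := SP.exists_prem C
    obtain ⟨C2, hC2⟩ := ih (C * (C + 1) + C * C * (B + 1) + C)
    refine ⟨C + C2, fun σ T P hT hP he => ?_⟩
    have hex : ∀ f p : List (Fm σ), ∃ r : List (Fm σ), tsize r ≤ B ∧ r.length ≤ e ∧
        (f ∈ T → p ∈ P → p ≠ [] → Q3a_Prem f p r) := by
      intro f p
      by_cases h : f ∈ T ∧ p ∈ P ∧ p ≠ []
      · obtain ⟨h1, h2, h3⟩ := h
        obtain ⟨r, hr1, hr2, hr3⟩ := hB σ f p (Q3a_tsize_le hT h1) (Q3a_tsize_le hP h2) h3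
        have h4 := he p h2
        exact ⟨r, hr1, by omega, fun _ _ _ => hr3⟩
      · exact ⟨[], Nat.zero_le _, Nat.zero_le _, fun h1 h2 h3 => absurd ⟨h1, h2, h3⟩ h⟩
    choose r hr1 hr2 hr3 using hex
    let P1 : List (List (Fm σ)) := P.map SP.trunc ++ (P ×ˢ T).map (fun x => r x.2 x.1)
    have hP1 : Q3a_Bd (C * (C + 1) + C * C * (B + 1) + C) P1 := by
      have h1 : Q3a_Bd (C * (C + 1)) (P.map SP.trunc) :=
        Q3a_Bd_map P hP.2 SP.trunc (fun p hp =>
          (Q2b_tsize_trunc_le p).trans (Q3a_tsize_le hP hp))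
      have h2 : Q3a_Bd (C * C * (B + 1)) ((P ×ˢ T).map (fun x => r x.2 x.1)) := by
        refine Q3a_Bd_map (P ×ˢ T) ?_ _ (fun x _ => hr1 _ _)
        rw [List.length_product]
        exact Nat.mul_le_mul hP.2 hT.2
      obtain ⟨h3, h4⟩ := Q3a_Bd_append h1 h2
      exact ⟨h3.trans (Nat.le_add_right _ _), h4.trans (Nat.le_add_right _ _)⟩
    obtain ⟨P', hP'1, hP'2, hP'3, hP'4⟩ := hC2 σ T P1
      ⟨hT.1.trans (Nat.le_add_left _ _), hT.2.trans (Nat.le_add_left _ _)⟩ hP1 (by
        intro p hp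
        rcases List.mem_append.mp hp with h | h
        · obtain ⟨p0, hp0, rfl⟩ := List.mem_map.mp h
          have h1 := he p0 hp0
          rw [SP.trunc, List.length_dropLast]
          omega
        · obtain ⟨x, _, rfl⟩ := List.mem_map.mp h
          exact hr2 _ _)
    refine ⟨P ++ P', Q3a_Bd_append hP hP'1, fun p hp => List.mem_append_left _ hp, ?_, ?_⟩
    · intro p hp
      rcases List.mem_append.mp hp with h | h
      · exact he p h
      · exact (hP'3 p h).trans (Nat.le_succ _)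
    · intro p hp hne
      by_cases hpP : p ∈ P
      · refine ⟨List.mem_append_right _ (hP'2 _ (List.mem_append_left _
          (List.mem_map_of_mem hpP))), fun f hf => ⟨r f p, ?_, hr3 f p hf hpP hne⟩⟩
        refine List.mem_append_right _ (hP'2 _ (List.mem_append_right _ ?_))
        exact List.mem_map.mpr ⟨(p, f), List.pair_mem_product.mpr ⟨hpP, hf⟩, rfl⟩
      · have hpP' : p ∈ P' := (List.mem_append.mp hp).resolve_left hpP
        obtain ⟨h1, h2⟩ := hP'4 p hpP' hne
        refine ⟨List.mem_append_right _ h1, fun f hf => ?_⟩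
        obtain ⟨r', hr', hr''⟩ := h2 f hf
        exact ⟨r', List.mem_append_right _ hr', hr''⟩

theorem Q3a_lead_size {σ : Type} (f : List (Fm σ)) : (SP.lead f).size ≤ tsize f + 1 := by
  by_cases hne : f = []
  · subst hne
    exact le_rfl
  · have := Q2b_tsize_trunc f hne
    omega

theorem Q3a_leads {σ : Type} (P : List (List (Fm σ))) :
    tsize (P.map SP.lead) ≤ (P.map tsize).sum + P.length := by
  induction P with
  | nil => simp [tsize]
  | cons p P ih =>
    rw [List.map_cons, Q2a_tsize_cons, List.map_cons, List.sum_cons, List.length_cons]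
    have := Q3a_lead_size p
    omega

/-- reduce to a member with nonvanishing leading coefficient -/
theorem Q3a_reduce {σ : Type} {P : List (List (Fm σ))} {b b' : σ → ℝ}
    (hP : ∀ p ∈ P, p ≠ [] → SP.trunc p ∈ P)
    (hs : ∀ p ∈ P, (SP.lead p).sgn b = (SP.lead p).sgn b') (n : ℕ) :
    ∀ p ∈ P, p.length ≤ n → SP.at b p ≠ 0 → ∃ q ∈ P, q ≠ [] ∧ (SP.lead q).eval b ≠ 0 ∧
      (SP.lead q).eval b' ≠ 0 ∧ SP.at b q = SP.at b p ∧ SP.at b' q = SP.at b' p := by
  induction n with
  | zero =>
    intro p _ hn h0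
    have : p = [] := List.length_eq_zero_iff.mp (Nat.le_zero.mp hn)
    rw [this] at h0
    exact absurd rfl h0
  | succ n ih =>
    intro p hp hn h0
    by_cases hne : p = []
    · rw [hne] at h0
      exact absurd rfl h0
    by_cases hl : (SP.lead p).eval b = 0
    · have hl' : (SP.lead p).eval b' = 0 := by
        have h1 := hs p hp
        rw [Fm.sgn, Fm.sgn, hl, sign_zero] at h1
        exact sign_eq_zero_iff.mp h1.symm
      have hlen : 0 < p.length := List.length_pos_iff.mpr hne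
      obtain ⟨q, hq, hq1, hq2, hq3, hq4, hq5⟩ := ih (SP.trunc p) (hP p hp hne) (by
        rw [SP.trunc, List.length_dropLast]
        omega) (by
        rw [SP.at_trunc hl]
        exact h0)
      exact ⟨q, hq, hq1, hq2, hq3, by rw [hq4, SP.at_trunc hl], by rw [hq5, SP.at_trunc hl']⟩
    · have hl' : (SP.lead p).eval b' ≠ 0 := by
        intro h1
        have h2 := hs p hp
        rw [Fm.sgn, Fm.sgn, h1, sign_zero] at h2
        exact hl (sign_eq_zero_iff.mp h2)
      exact ⟨p, hp, hne, hl, hl', rfl, rfl⟩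

/-- constants -/
theorem Q3a_base {σ : Type} (F : List (List (Fm σ))) (hF : ∀ f ∈ F, f.length ≤ 1)
    (b b' : σ → ℝ) (h : SgnEq F.flatten b b') :
    ∃ ψ : ℝ ≃o ℝ, ∀ f ∈ F, ∀ t,
      SignType.sign ((SP.at b f).eval t) = SignType.sign ((SP.at b' f).eval (ψ t)) := by
  refine ⟨OrderIso.refl ℝ, fun f hf t => ?_⟩
  have h1 := hF f hf
  match f, hf, h1 with
  | [], _, _ => simp [SP.at]
  | [c], hf, _ =>
    have h2 := h c (List.mem_flatten.mpr ⟨[c], hf, List.mem_singleton.mpr rfl⟩)
    simpa [SP.at, Fm.sgn] using h2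
  | c :: d :: g, _, h1 => simp at h1

theorem Q3a_flatten {σ : Type} (F : List (List (Fm σ))) :
    tsize F.flatten = (F.map tsize).sum := by
  induction F with
  | nil => rfl
  | cons f F ih => rw [List.flatten_cons, Q2b_tsize_append, ih, List.map_cons, List.sum_cons]

/-- Core statement for symbolic polynomials of length at most `d`: induction on `d`. -/
theorem qe_sp (d C : ℕ) : ∃ C' : ℕ, ∀ (σ : Type) (F : List (List (Fm σ))),
    (F.map tsize).sum ≤ C → F.length ≤ C → (∀ f ∈ F, f.length ≤ d) →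
    ∃ G : List (Fm σ), tsize G ≤ C' ∧ ∀ b b' : σ → ℝ, SgnEq G b b' →
      ∃ ψ : ℝ ≃o ℝ, ∀ f ∈ F, ∀ t,
        SignType.sign ((SP.at b f).eval t) = SignType.sign ((SP.at b' f).eval (ψ t)) := by
  induction d generalizing C with
  | zero =>
    refine ⟨C, fun σ F hF _ hd => ⟨F.flatten, ?_, fun b b' h =>
      Q3a_base F (fun f hf => (hd f hf).trans (Nat.zero_le _)) b b' h⟩⟩
    rw [Q3a_flatten]
    exact hF
  | succ d ih =>
    by_cases hd0 : d = 0
    · subst hd0
      refine ⟨C, fun σ F hF _ hd => ⟨F.flatten, ?_, fun b b' h =>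
        Q3a_base F (fun f hf => hd f hf) b b' h⟩⟩
      rw [Q3a_flatten]
      exact hF
    obtain ⟨Cd, hCd⟩ := SP.exists_der C
    obtain ⟨Cp, hCp⟩ := SP.exists_prem C
    obtain ⟨Cc, hCc⟩ := Q3a_closure d
      (C + (C + C * (C + 1) + C * (Cd + 1) + C * C * (Cp + 1)))
    obtain ⟨Ci, hCi⟩ := ih Cc
    refine ⟨Ci + (Cc + Cc) + (C + C), fun σ F hF hFl hd => ?_⟩
    have hFBd : Q3a_Bd C F := ⟨hF, hFl⟩
    let T : List (List (Fm σ)) := F.filter fun f => decide (f.length = d + 1)
    let F0 : List (List (Fm σ)) := F.filter fun f => decide (f.length ≤ d)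
    have hsub : ∀ (q : List (Fm σ) → Bool), Q3a_Bd C (F.filter q) := by
      intro q
      refine ⟨?_, (List.length_filter_le _ _).trans hFl⟩
      refine le_trans ?_ hF
      exact ((List.filter_sublist).map tsize).sum_le_sum (fun _ _ => Nat.zero_le _)
    have hT : Q3a_Bd C T := hsub _
    have hF0 : Q3a_Bd C F0 := hsub _
    have hTlen : ∀ f ∈ T, f.length = d + 1 := by
      intro f hf
      have h1 := (List.mem_filter.mp hf).2
      simpa using h1
    have hTne : ∀ f ∈ T, f ≠ [] := by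
      intro f hf h1
      have := hTlen f hf
      rw [h1] at this
      simp at this
    -- the derivatives
    have hexd : ∀ f : List (Fm σ), ∃ g : List (Fm σ), tsize g ≤ Cd ∧ g.length ≤ d ∧
        (f ∈ T → ∀ b : σ → ℝ, SP.at b g = derivative (SP.at b f)) := by
      intro f
      by_cases hf : f ∈ T
      · obtain ⟨g, hg1, hg2, hg3⟩ := hCd σ f (Q3a_tsize_le hT hf)
        have h1 := hTlen f hf
        exact ⟨g, hg1, by omega, fun _ => hg3⟩
      · exact ⟨[], Nat.zero_le _, Nat.zero_le _, fun h => absurd h hf⟩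
    choose der hder1 hder2 hder3 using hexd
    have hexp : ∀ f p : List (Fm σ), ∃ r : List (Fm σ), tsize r ≤ Cp ∧ r.length ≤ d ∧
        (f ∈ T → p ∈ T → Q3a_Prem f p r) := by
      intro f p
      by_cases h : f ∈ T ∧ p ∈ T
      · obtain ⟨h1, h2⟩ := h
        obtain ⟨r, hr1, hr2, hr3⟩ := hCp σ f p (Q3a_tsize_le hT h1) (Q3a_tsize_le hT h2)
          (hTne p h2)
        have h4 := hTlen p h2
        exact ⟨r, hr1, by omega, fun _ _ => hr3⟩
      · exact ⟨[], Nat.zero_le _, Nat.zero_le _, fun h1 h2 => absurd ⟨h1, h2⟩ h⟩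
    choose prem hprem1 hprem2 hprem3 using hexp
    let P0 : List (List (Fm σ)) := F0 ++ T.map SP.trunc ++ T.map der ++
      (T ×ˢ T).map (fun x => prem x.1 x.2)
    have hP0 : Q3a_Bd (C + (C + C * (C + 1) + C * (Cd + 1) + C * C * (Cp + 1))) P0 := by
      have h1 : Q3a_Bd (C * (C + 1)) (T.map SP.trunc) :=
        Q3a_Bd_map T hT.2 SP.trunc (fun p hp =>
          (Q2b_tsize_trunc_le p).trans (Q3a_tsize_le hT hp))
      have h2 : Q3a_Bd (C * (Cd + 1)) (T.map der) :=
        Q3a_Bd_map T hT.2 der (fun p _ => hder1 p)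
      have h3 : Q3a_Bd (C * C * (Cp + 1)) ((T ×ˢ T).map (fun x => prem x.1 x.2)) := by
        refine Q3a_Bd_map (T ×ˢ T) ?_ _ (fun x _ => hprem1 _ _)
        rw [List.length_product]
        exact Nat.mul_le_mul hT.2 hT.2
      obtain ⟨h4, h5⟩ := Q3a_Bd_append (Q3a_Bd_append (Q3a_Bd_append hF0 h1) h2) h3
      exact ⟨h4.trans (Nat.le_add_left _ _), h5.trans (Nat.le_add_left _ _)⟩
    have hP0len : ∀ p ∈ P0, p.length ≤ d := by
      intro p hp
      rcases List.mem_append.mp hp with h | h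
      · rcases List.mem_append.mp h with h | h
        · rcases List.mem_append.mp h with h | h
          · have h1 := (List.mem_filter.mp h).2
            simpa using h1
          · obtain ⟨p0, hp0, rfl⟩ := List.mem_map.mp h
            have h1 := hTlen p0 hp0
            rw [SP.trunc, List.length_dropLast]
            omega
        · obtain ⟨p0, _, rfl⟩ := List.mem_map.mp h
          exact hder2 _
      · obtain ⟨x, _, rfl⟩ := List.mem_map.mp h
        exact hprem2 _ _
    obtain ⟨P, hP1, hP2, hP3, hP4⟩ := hCc σ T P0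
      ⟨hT.1.trans (Nat.le_add_right _ _), hT.2.trans (Nat.le_add_right _ _)⟩ hP0 hP0len
    obtain ⟨G, hG1, hG2⟩ := hCi σ P hP1.1 hP1.2 hP3
    refine ⟨G ++ P.map SP.lead ++ T.map SP.lead, ?_, ?_⟩
    · rw [Q2b_tsize_append, Q2b_tsize_append]
      have h1 := Q3a_leads P
      have h2 := Q3a_leads T
      have h3 := hP1.1
      have h4 := hP1.2
      have h5 := hT.1
      have h6 := hT.2
      omega
    intro b b' hbb
    have hGb : SgnEq G b b' := fun e he =>
      hbb e (List.mem_append_left _ (List.mem_append_left _ he))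
    have hPb : ∀ p ∈ P, (SP.lead p).sgn b = (SP.lead p).sgn b' := fun p hp =>
      hbb _ (List.mem_append_left _ (List.mem_append_right _ (List.mem_map_of_mem hp)))
    have hTb : ∀ p ∈ T, (SP.lead p).sgn b = (SP.lead p).sgn b' := fun p hp =>
      hbb _ (List.mem_append_right _ (List.mem_map_of_mem hp))
    obtain ⟨ψ0, hψ0⟩ := hG2 b b' hGb
    have hTb' : ∀ p ∈ T, (SP.lead p).eval b ≠ 0 → (SP.lead p).eval b' ≠ 0 := by
      intro p hp h1 h2
      have h3 := hTb p hp
      rw [Fm.sgn, Fm.sgn, h2, sign_zero] at h3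
      exact h1 (sign_eq_zero_iff.mp h3)
    let ι : Type := {p : List (Fm σ) // p ∈ P}
    let κ : Type := {f : List (Fm σ) // f ∈ T ∧ (SP.lead f).eval b ≠ 0}
    have hfι : Finite ι := (List.finite_toSet P).to_subtype
    have hfκ : Finite κ := by
      have h1 : {f : List (Fm σ) | f ∈ T ∧ (SP.lead f).eval b ≠ 0}.Finite :=
        (List.finite_toSet T).subset fun f hf => hf.1
      exact h1.to_subtype
    have hmem : ∀ f ∈ T, ∀ g ∈ T, prem f g ∈ P := by
      intro f hf g hg
      apply hP2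
      refine List.mem_append_right _ ?_
      exact List.mem_map.mpr ⟨(f, g), List.pair_mem_product.mpr ⟨hf, hg⟩, rfl⟩
    have hmemd : ∀ f ∈ T, der f ∈ P := by
      intro f hf
      apply hP2
      exact List.mem_append_left _ (List.mem_append_right _ (List.mem_map_of_mem hf))
    have hmemt : ∀ f ∈ T, SP.trunc f ∈ P := by
      intro f hf
      apply hP2
      exact List.mem_append_left _ (List.mem_append_left _
        (List.mem_append_right _ (List.mem_map_of_mem hf)))
    have hmemF : ∀ f ∈ F0, f ∈ P := by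
      intro f hf
      apply hP2
      exact List.mem_append_left _ (List.mem_append_left _ (List.mem_append_left _ hf))
    obtain ⟨ψ, hψ⟩ := diag_step (ι := ι) (κ := κ) (p := fun i => SP.at b i.1)
      (p' := fun i => SP.at b' i.1) (f := fun j => SP.at b j.1) (f' := fun j => SP.at b' j.1)
      ⟨ψ0, fun i t => hψ0 i.1 i.2 t⟩
      (fun j => by
        have h1 := (SP.natDegree_at (hTne j.1 j.2.1) j.2.2).1
        have h2 := (SP.natDegree_at (hTne j.1 j.2.1) (hTb' j.1 j.2.1 j.2.2)).1
        omega)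
      (fun j => by
        have h1 := (SP.natDegree_at (hTne j.1 j.2.1) j.2.2).1
        have h2 := hTlen j.1 j.2.1
        omega)
      (fun j => by
        have h1 := (SP.natDegree_at (hTne j.1 j.2.1) j.2.2).2
        have h2 := (SP.natDegree_at (hTne j.1 j.2.1) (hTb' j.1 j.2.1 j.2.2)).2
        have h3 := hTb j.1 j.2.1
        rw [h1, h2]
        exact h3)
      (fun j => ⟨⟨der j.1, hmemd j.1 j.2.1⟩, hder3 j.1 j.2.1 b, hder3 j.1 j.2.1 b'⟩)
      (fun i j hi => by
        obtain ⟨q, hq, hq1, hq2, hq3, hq4, hq5⟩ := Q3a_reduce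
          (fun p hp hne => (hP4 p hp hne).1) hPb i.1.length i.1 i.2 le_rfl hi
        obtain ⟨r, hr, hrp⟩ := (hP4 q hq hq1).2 j.1 j.2.1
        refine ⟨⟨r, hr⟩, fun t ht => ?_, fun t ht => ?_⟩
        · exact hrp b hq2 t (by rw [hq4]; exact ht)
        · exact hrp b' hq3 t (by rw [hq5]; exact ht))
      (fun j' j => by
        refine ⟨⟨prem j.1 j'.1, hmem j.1 j.2.1 j'.1 j'.2.1⟩, fun t ht => ?_, fun t ht => ?_⟩
        · exact hprem3 j.1 j'.1 j.2.1 j'.2.1 b j'.2.2 t ht
        · exact hprem3 j.1 j'.1 j.2.1 j'.2.1 b' (hTb' j'.1 j'.2.1 j'.2.2) t ht)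
    refine ⟨ψ, fun f hf t => ?_⟩
    by_cases hfd : f.length ≤ d
    · have h1 : f ∈ F0 := List.mem_filter.mpr ⟨hf, by simpa using hfd⟩
      exact hψ (Sum.inl ⟨f, hmemF f h1⟩) t
    · have h1 : f ∈ T := List.mem_filter.mpr ⟨hf, by
        have := hd f hf
        simp only [decide_eq_true_eq]
        omega⟩
      by_cases hl : (SP.lead f).eval b = 0
      · have hl' : (SP.lead f).eval b' = 0 := by
          have h3 := hTb f h1
          rw [Fm.sgn, Fm.sgn, hl, sign_zero] at h3
          exact sign_eq_zero_iff.mp h3.symm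
        have h2 := hψ (Sum.inl ⟨SP.trunc f, hmemt f h1⟩) t
        change SignType.sign ((SP.at b (SP.trunc f)).eval t) =
          SignType.sign ((SP.at b' (SP.trunc f)).eval (ψ t)) at h2
        rwa [SP.at_trunc hl, SP.at_trunc hl'] at h2
      · exact hψ (Sum.inr ⟨f, h1, hl⟩) t

end BU
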