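import Pool.Agent.Work.MP_4030f5_lc.Q3b

/-! # S1: continuous root functions over sign classes -/

namespace BU

open Polynomial Filter Topology

/-- the real polynomial of an expression, in the variable `none` -/
noncomputable def S1_pol {σ : Type} (b : σ → ℝ) : Fm (Option σ) → ℝ[X]
  | Fm.var none => X
  | Fm.var (some i) => C (b i)
  | Fm.const c => C (c : ℝ)
  | Fm.add e f => S1_pol b e + S1_pol b f
  | Fm.mul e f => S1_pol b e * S1_pol b f

theorem S1_eval {σ : Type} (b : σ → ℝ) (t : ℝ) (e : Fm (Option σ)) :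
    (S1_pol b e).eval t = e.eval (ext b t) := by
  induction e with
  | var i =>
    cases i with
    | none => simp [S1_pol, Fm.eval, ext]
    | some i => simp [S1_pol, Fm.eval, ext]
  | const c => simp [S1_pol, Fm.eval]
  | add e f he hf => simp [S1_pol, Fm.eval, he, hf]
  | mul e f he hf => simp [S1_pol, Fm.eval, he, hf]

/-- derivative in the variable `none` -/
def S1_der {σ : Type} : Fm (Option σ) → Fm (Option σ)
  | Fm.var none => Fm.const 1
  | Fm.var (some _) => Fm.const 0
  | Fm.const _ => Fm.const 0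
  | Fm.add e f => Fm.add (S1_der e) (S1_der f)
  | Fm.mul e f => Fm.add (Fm.mul (S1_der e) f) (Fm.mul e (S1_der f))

theorem S1_pol_der {σ : Type} (b : σ → ℝ) (e : Fm (Option σ)) :
    S1_pol b (S1_der e) = derivative (S1_pol b e) := by
  induction e with
  | var i =>
    cases i with
    | none => simp [S1_pol, S1_der]
    | some i => simp [S1_pol, S1_der]
  | const c => simp [S1_pol, S1_der]
  | add e f he hf => simp [S1_pol, S1_der, he, hf]
  | mul e f he hf => simp [S1_pol, S1_der, he, hf]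

theorem S1_deg {σ : Type} (b : σ → ℝ) (e : Fm (Option σ)) : (S1_pol b e).natDegree ≤ e.size := by
  induction e with
  | var i =>
    cases i with
    | none => simp [S1_pol, Fm.size]
    | some i => simp [S1_pol, Fm.size]
  | const c => simp [S1_pol]
  | add e f he hf =>
    refine (natDegree_add_le _ _).trans ?_
    simp only [Fm.size]
    exact max_le (by omega) (by omega)
  | mul e f he hf =>
    refine natDegree_mul_le.trans ?_
    simp only [Fm.size]
    omega

theorem S1_pol_iter {σ : Type} (b : σ → ℝ) (e : Fm (Option σ)) (n : ℕ) :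
    S1_pol b (S1_der^[n] e) = derivative^[n] (S1_pol b e) := by
  induction n with
  | zero => rfl
  | succ n ih => rw [Function.iterate_succ_apply', Function.iterate_succ_apply', S1_pol_der, ih]

/-- closure under derivatives -/
def S1_clo {σ : Type} (F : List (Fm (Option σ))) : List (Fm (Option σ)) :=
  F.flatMap fun e => (List.range (e.size + 2)).map fun n => S1_der^[n] e

theorem S1_sub {σ : Type} (F : List (Fm (Option σ))) : F ⊆ S1_clo F := by
  intro e he
  unfold S1_clo
  rw [List.mem_flatMap]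
  exact ⟨e, he, List.mem_map.2 ⟨0, List.mem_range.2 (by omega), rfl⟩⟩

theorem S1_closed {σ : Type} (F : List (Fm (Option σ))) {e : Fm (Option σ)} (he : e ∈ S1_clo F) :
    ∃ e' ∈ S1_clo F, ∀ b : σ → ℝ, S1_pol b e' = derivative (S1_pol b e) := by
  unfold S1_clo at he
  rw [List.mem_flatMap] at he
  obtain ⟨g, hg, he⟩ := he
  obtain ⟨n, hn, rfl⟩ := List.mem_map.1 he
  rw [List.mem_range] at hn
  by_cases h : n + 1 < g.size + 2
  · refine ⟨S1_der^[n + 1] g, ?_, fun b => ?_⟩
    · unfold S1_clo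
      rw [List.mem_flatMap]
      exact ⟨g, hg, List.mem_map.2 ⟨n + 1, List.mem_range.2 h, rfl⟩⟩
    · rw [Function.iterate_succ_apply', S1_pol_der]
  · refine ⟨S1_der^[n] g, ?_, fun b => ?_⟩
    · unfold S1_clo
      rw [List.mem_flatMap]
      exact ⟨g, hg, List.mem_map.2 ⟨n, List.mem_range.2 hn, rfl⟩⟩
    · have h1 : S1_pol b (S1_der^[n] g) = 0 := by
        rw [S1_pol_iter]
        apply iterate_derivative_eq_zero
        have := S1_deg b g
        omega
      rw [h1, derivative_zero]

open Classical in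
/-- the roots of the nonzero polynomials -/
noncomputable def S1_R {σ : Type} (F : List (Fm (Option σ))) (b : σ → ℝ) : Finset ℝ :=
  F.toFinset.biUnion fun e => (S1_pol b e).roots.toFinset

theorem S1_mem {σ : Type} {F : List (Fm (Option σ))} {b : σ → ℝ} {t : ℝ} :
    t ∈ S1_R F b ↔ ∃ e ∈ F, S1_pol b e ≠ 0 ∧ (S1_pol b e).eval t = 0 := by
  classical
  simp [S1_R]

theorem S1_cont {σ : Type} (e : Fm (Option σ)) (t : ℝ) :
    Continuous fun b : σ → ℝ => (S1_pol b e).eval t := by
  simp only [S1_eval]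
  induction e with
  | var i =>
    cases i with
    | none => exact continuous_const
    | some i => exact continuous_apply i
  | const c => exact continuous_const
  | add e f he hf => exact he.add hf
  | mul e f he hf => exact he.mul hf

/-- equal signs -/
theorem S1_sgn {σ : Type} (b : σ → ℝ) (t : ℝ) (e : Fm (Option σ)) :
    e.sgn (ext b t) = SignType.sign ((S1_pol b e).eval t) := by
  rw [S1_eval]
  rfl

theorem S1_zero_iff {σ : Type} {F : List (Fm (Option σ))} {b b' : σ → ℝ} {ψ : ℝ ≃o ℝ}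
    (hψ : ∀ e ∈ F, ∀ t, e.sgn (ext b t) = e.sgn (ext b' (ψ t))) {e : Fm (Option σ)} (he : e ∈ F) :
    S1_pol b e = 0 ↔ S1_pol b' e = 0 := by
  constructor
  · intro h
    apply Polynomial.funext
    intro t
    have := hψ e he (ψ.symm t)
    rw [S1_sgn, S1_sgn, h, eval_zero, sign_zero, ψ.apply_symm_apply] at this
    rw [eval_zero]
    exact sign_eq_zero_iff.1 this.symm
  · intro h
    apply Polynomial.funext
    intro t
    have := hψ e he t
    rw [S1_sgn, S1_sgn, h, eval_zero, sign_zero] at this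
    rw [eval_zero]
    exact sign_eq_zero_iff.1 this

theorem S1_map {σ : Type} {F : List (Fm (Option σ))} {b b' : σ → ℝ} {ψ : ℝ ≃o ℝ}
    (hψ : ∀ e ∈ F, ∀ t, e.sgn (ext b t) = e.sgn (ext b' (ψ t))) (t : ℝ) :
    t ∈ S1_R F b ↔ ψ t ∈ S1_R F b' := by
  rw [S1_mem, S1_mem]
  refine exists_congr fun e => and_congr_right fun he => ?_
  rw [ne_eq, ne_eq, not_congr (S1_zero_iff hψ he)]
  have h := hψ e he t
  rw [S1_sgn, S1_sgn] at h
  constructor
  · rintro ⟨h1, h2⟩
    rw [h2, sign_zero] at h
    exact ⟨h1, sign_eq_zero_iff.1 h.symm⟩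
  · rintro ⟨h1, h2⟩
    rw [h2, sign_zero] at h
    exact ⟨h1, sign_eq_zero_iff.1 h⟩

theorem S1_card {σ : Type} {F : List (Fm (Option σ))} {b b' : σ → ℝ} {ψ : ℝ ≃o ℝ}
    (hψ : ∀ e ∈ F, ∀ t, e.sgn (ext b t) = e.sgn (ext b' (ψ t))) :
    (S1_R F b).card = (S1_R F b').card := by
  classical
  have h : S1_R F b' = (S1_R F b).image ψ := by
    ext t
    rw [Finset.mem_image]
    constructor
    · intro ht
      refine ⟨ψ.symm t, (S1_map hψ _).2 ?_, ψ.apply_symm_apply t⟩
      rwa [ψ.apply_symm_apply]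
    · rintro ⟨s, hs, rfl⟩
      exact (S1_map hψ s).1 hs
  rw [h, Finset.card_image_of_injective _ ψ.injective]

/-- the root functions -/
noncomputable def S1_xi {σ : Type} (F : List (Fm (Option σ))) (l : ℕ) (i : Fin l)
    (b : σ → ℝ) : ℝ :=
  if h : (S1_R F b).card = l then (S1_R F b).orderEmbOfFin h i else 0

theorem S1_xi_unique {σ : Type} {F : List (Fm (Option σ))} {l : ℕ} {b : σ → ℝ}
    (h : (S1_R F b).card = l) {g : Fin l → ℝ} (hg : ∀ i, g i ∈ S1_R F b) (hm : StrictMono g)
    (i : Fin l) : S1_xi F l i b = g i := by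
  unfold S1_xi
  rw [dif_pos h, ← Finset.orderEmbOfFin_unique h hg hm]

theorem S1_xi_mem {σ : Type} {F : List (Fm (Option σ))} {l : ℕ} {b : σ → ℝ}
    (h : (S1_R F b).card = l) (i : Fin l) : S1_xi F l i b ∈ S1_R F b := by
  unfold S1_xi
  rw [dif_pos h]
  exact Finset.orderEmbOfFin_mem _ h i

theorem S1_xi_mono {σ : Type} {F : List (Fm (Option σ))} {l : ℕ} {b : σ → ℝ}
    (h : (S1_R F b).card = l) : StrictMono fun i => S1_xi F l i b := by
  intro i j hij
  simp only [S1_xi, dif_pos h]
  exact (Finset.orderEmbOfFin _ h).strictMono hij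

theorem S1_xi_surj {σ : Type} {F : List (Fm (Option σ))} {l : ℕ} {b : σ → ℝ}
    (h : (S1_R F b).card = l) {t : ℝ} (ht : t ∈ S1_R F b) : ∃ i, S1_xi F l i b = t := by
  have h1 := Finset.range_orderEmbOfFin (S1_R F b) h
  have h2 : t ∈ Set.range ((S1_R F b).orderEmbOfFin h) := by
    rw [h1]
    exact ht
  obtain ⟨i, hi⟩ := h2
  refine ⟨i, ?_⟩
  unfold S1_xi
  rw [dif_pos h]
  exact hi

/-- Thom's lemma -/
theorem S1_thom {σ : Type} {F : List (Fm (Option σ))} {b : σ → ℝ} {u v : ℝ} (huv : u < v)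
    (h : SgnEq (S1_clo F) (ext b u) (ext b v)) (n : ℕ) : ∀ e ∈ S1_clo F,
    (S1_pol b e).natDegree ≤ n → ∀ x, u ≤ x → x ≤ v →
      SignType.sign ((S1_pol b e).eval x) = SignType.sign ((S1_pol b e).eval u) := by
  induction n with
  | zero =>
    intro e he hn x _ _
    rw [eq_C_of_natDegree_le_zero hn, eval_C, eval_C]
  | succ n ih =>
    intro e he hn x hx1 hx2
    by_cases hd : (S1_pol b e).natDegree = 0
    · rw [eq_C_of_natDegree_eq_zero hd, eval_C, eval_C]
    obtain ⟨e', he', hder⟩ := S1_closed F he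
    have hdeg : (S1_pol b e').natDegree ≤ n := by
      rw [hder]
      have := natDegree_derivative_lt hd
      omega
    have h1 := ih e' he' hdeg
    rw [hder] at h1
    have hsv : SignType.sign ((S1_pol b e).eval u) = SignType.sign ((S1_pol b e).eval v) := by
      have := h e he
      rwa [S1_sgn, S1_sgn] at this
    rcases hx1.eq_or_lt with hx1 | hx1
    · rw [hx1]
    rcases hx2.eq_or_lt with hx2 | hx2
    · rw [hx2]
      exact hsv.symm
    obtain ⟨c, hc1, hc2, hc3⟩ := Q1b_mvt (S1_pol b e) hx1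
    obtain ⟨d, hd1, hd2, hd3⟩ := Q1b_mvt (S1_pol b e) hx2
    have s1 := h1 c hc1.le (hc2.le.trans hx2.le)
    have s2 := h1 d (hx1.le.trans hd1.le) hd2.le
    rcases lt_trichotomy ((derivative (S1_pol b e)).eval u) 0 with h2 | h2 | h2
    · rw [sign_neg h2] at s1 s2
      have s1' := sign_eq_neg_one_iff.1 s1
      have s2' := sign_eq_neg_one_iff.1 s2
      have k1 := mul_neg_of_neg_of_pos s1' (sub_pos.2 hx1)
      have k2 := mul_neg_of_neg_of_pos s2' (sub_pos.2 hx2)
      rcases lt_trichotomy ((S1_pol b e).eval u) 0 with h3 | h3 | h3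
      · rw [sign_neg h3, sign_neg (by linarith)]
      · rw [h3, sign_zero] at hsv
        have := sign_eq_zero_iff.1 hsv.symm
        linarith
      · rw [sign_pos h3] at hsv ⊢
        have := sign_eq_one_iff.1 hsv.symm
        rw [sign_pos (by linarith)]
    · exfalso
      have h3 : derivative (S1_pol b e) = 0 := by
        apply eq_zero_of_infinite_isRoot
        refine (Set.Icc_infinite huv).mono fun y hy => ?_
        have := h1 y hy.1 hy.2
        rw [h2, sign_zero] at this
        exact sign_eq_zero_iff.1 this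
      exact hd (derivative_eq_zero.1 h3)
    · rw [sign_pos h2] at s1 s2
      have s1' := sign_eq_one_iff.1 s1
      have s2' := sign_eq_one_iff.1 s2
      have k1 := mul_pos s1' (sub_pos.2 hx1)
      have k2 := mul_pos s2' (sub_pos.2 hx2)
      rcases lt_trichotomy ((S1_pol b e).eval u) 0 with h3 | h3 | h3
      · rw [sign_neg h3] at hsv ⊢
        have := sign_eq_neg_one_iff.1 hsv.symm
        rw [sign_neg (by linarith)]
      · rw [h3, sign_zero] at hsv
        have := sign_eq_zero_iff.1 hsv.symm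
        linarith
      · rw [sign_pos h3, sign_pos (by linarith)]

/-- no roots between points with the same signs -/
theorem S1_no_root {σ : Type} {F : List (Fm (Option σ))} {b : σ → ℝ} {u v : ℝ} (huv : u < v)
    (h : SgnEq (S1_clo F) (ext b u) (ext b v)) {x : ℝ} (hx : x ∈ S1_R (S1_clo F) b) :
    x < u ∨ v < x := by
  by_contra hcon
  push Not at hcon
  obtain ⟨e, he, hne, h0⟩ := S1_mem.1 hx
  apply hne
  have h1 := S1_thom huv h _ e he le_rfl
  have h2 := h1 x hcon.1 hcon.2
  rw [h0, sign_zero] at h2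
  apply eq_zero_of_infinite_isRoot
  refine (Set.Icc_infinite huv).mono fun y hy => ?_
  have := h1 y hy.1 hy.2
  rw [← h2] at this
  exact sign_eq_zero_iff.1 this

/-- a root of a nonzero member is a simple root of some member -/
theorem S1_simple {σ : Type} {F : List (Fm (Option σ))} {b : σ → ℝ} {x : ℝ} (n : ℕ) :
    ∀ e ∈ S1_clo F, S1_pol b e ≠ 0 → (S1_pol b e).natDegree ≤ n → (S1_pol b e).eval x = 0 →
    ∃ g ∈ S1_clo F, (S1_pol b g).eval x = 0 ∧ (derivative (S1_pol b g)).eval x ≠ 0 := by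
  induction n with
  | zero =>
    intro e he hne hn h0
    exfalso
    rw [eq_C_of_natDegree_le_zero hn, eval_C] at h0
    apply hne
    rw [eq_C_of_natDegree_le_zero hn, h0, C_0]
  | succ n ih =>
    intro e he hne hn h0
    by_cases hd : (S1_pol b e).natDegree = 0
    · exfalso
      rw [eq_C_of_natDegree_eq_zero hd, eval_C] at h0
      apply hne
      rw [eq_C_of_natDegree_eq_zero hd, h0, C_0]
    by_cases h1 : (derivative (S1_pol b e)).eval x = 0
    · obtain ⟨e', he', hder⟩ := S1_closed F he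
      apply ih e' he'
      · rw [hder]
        intro h2
        exact hd (derivative_eq_zero.1 h2)
      · rw [hder]
        have := natDegree_derivative_lt hd
        omega
      · rw [hder]
        exact h1
    · exact ⟨e, he, h0, h1⟩

/-- sign change at a simple root -/
theorem S1_change {q : ℝ[X]} {x δ : ℝ} (hδ : 0 < δ) (h0 : q.eval x = 0)
    (h1 : (derivative q).eval x ≠ 0) : ∃ y z, x - δ < y ∧ y < z ∧ z < x + δ ∧
      q.eval y * q.eval z < 0 := by
  have hc : Continuous fun t => (derivative q).eval t := (derivative q).continuous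
  have key : ∃ η, 0 < η ∧ η < δ ∧ ∀ t, |t - x| ≤ η → 0 < (derivative q).eval t *
      (derivative q).eval x := by
    have h2 : Tendsto (fun t => (derivative q).eval t * (derivative q).eval x) (𝓝 x)
        (𝓝 ((derivative q).eval x * (derivative q).eval x)) :=
      (hc.tendsto x).mul_const _
    have h3 := (tendsto_order.1 h2).1 0 (mul_self_pos.2 h1)
    rw [Metric.eventually_nhds_iff] at h3
    obtain ⟨η, hη, h4⟩ := h3
    refine ⟨min η δ / 2, half_pos (lt_min hη hδ), ?_, fun t ht => h4 ?_⟩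
    · have := min_le_right η δ
      have := lt_min hη hδ
      linarith
    · rw [Real.dist_eq]
      have := min_le_left η δ
      have := lt_min hη hδ
      linarith
  obtain ⟨η, hη, hηδ, h2⟩ := key
  refine ⟨x - η, x + η, by linarith, by linarith, by linarith, ?_⟩
  obtain ⟨c, hc1, hc2, hc3⟩ := Q1b_mvt q (show x - η < x by linarith)
  obtain ⟨d, hd1, hd2, hd3⟩ := Q1b_mvt q (show x < x + η by linarith)
  rw [h0] at hc3 hd3
  have k1 := h2 c (by rw [abs_le]; constructor <;> linarith)
  have k2 := h2 d (by rw [abs_le]; constructor <;> linarith)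
  have e1 : q.eval (x - η) = -((derivative q).eval c * η) := by
    rw [sub_sub_cancel] at hc3
    linarith
  have e2 : q.eval (x + η) = (derivative q).eval d * η := by
    rw [add_sub_cancel_left] at hd3
    linarith
  rw [e1, e2]
  set A := (derivative q).eval c
  set B := (derivative q).eval d
  set D := (derivative q).eval x
  have k3 : 0 < A * B := by
    have k4 : 0 < (A * D) * (B * D) := mul_pos k1 k2
    have k5 : (A * D) * (B * D) = (A * B) * D ^ 2 := by ring
    rw [k5] at k4
    exact pos_of_mul_pos_left k4 (sq_nonneg D)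
  have k4 : 0 < A * B * (η * η) := mul_pos k3 (mul_pos hη hη)
  linarith

theorem S1_ivt {q : ℝ[X]} {y z : ℝ} (hyz : y < z) (h : q.eval y * q.eval z < 0) :
    ∃ x, y ≤ x ∧ x ≤ z ∧ q.eval x = 0 := by
  have hc : ContinuousOn (fun t => q.eval t) (Set.Icc y z) := q.continuous.continuousOn
  rcases mul_neg_iff.1 h with ⟨h1, h2⟩ | ⟨h1, h2⟩
  · obtain ⟨x, hx, hx2⟩ := intermediate_value_Icc' hyz.le hc ⟨h2.le, h1.le⟩
    exact ⟨x, hx.1, hx.2, hx2⟩
  · obtain ⟨x, hx, hx2⟩ := intermediate_value_Icc hyz.le hc ⟨h1.le, h2.le⟩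
    exact ⟨x, hx.1, hx.2, hx2⟩

/-- near a root there are roots for nearby parameters -/
theorem S1_near {σ : Type} {F : List (Fm (Option σ))} {b : σ → ℝ} {x δ : ℝ} (hδ : 0 < δ)
    (hx : x ∈ S1_R (S1_clo F) b) : ∀ᶠ b' in 𝓝 b, ∃ x' ∈ S1_R (S1_clo F) b', |x' - x| < δ := by
  obtain ⟨e, he, hne, h0⟩ := S1_mem.1 hx
  obtain ⟨g, hg, hg0, hg1⟩ := S1_simple _ e he hne le_rfl h0
  obtain ⟨y, z, hy, hyz, hz, h1⟩ := S1_change hδ hg0 hg1
  have h2 : Tendsto (fun b' : σ → ℝ => (S1_pol b' g).eval y * (S1_pol b' g).eval z) (𝓝 b)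
      (𝓝 ((S1_pol b g).eval y * (S1_pol b g).eval z)) :=
    ((S1_cont g y).tendsto b).mul ((S1_cont g z).tendsto b)
  filter_upwards [(tendsto_order.1 h2).2 0 h1] with b' hb'
  obtain ⟨x', hx1, hx2, hx3⟩ := S1_ivt hyz hb'
  refine ⟨x', S1_mem.2 ⟨g, hg, ?_, hx3⟩, ?_⟩
  · intro h3
    rw [h3] at hb'
    simp at hb'
  · rw [abs_lt]
    constructor <;> linarith

/-- For every finite family `F` of expressions in one more variable there are a finite family
`F' ⊇ F` (closed under derivatives in the variable `none`, semantically) and a finite family `G` of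
expressions in the variables `σ` such that over every sign class of `G` the roots of `F'` are given
by finitely many continuous functions `ξ_0 < ... < ξ_{l-1}`, and all expressions in `F'` have
constant sign on every graph and on every open band.  Moreover the sign classes of `F'` over the
sign class are exactly the graphs and the bands (Thom's lemma). -/
theorem roots {σ : Type} (F : List (Fm (Option σ))) :
    ∃ (F' : List (Fm (Option σ))) (G : List (Fm σ)), F ⊆ F' ∧ ∀ b₀ : σ → ℝ,
      ∃ (l : ℕ) (ξ : Fin l → (σ → ℝ) → ℝ), (∀ i, ContinuousOn (ξ i) (cls G b₀)) ∧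
        (∀ b ∈ cls G b₀, StrictMono (fun i => ξ i b)) ∧
        -- constant signs, on graphs and on bands
        (∀ b ∈ cls G b₀, ∀ b' ∈ cls G b₀, ∀ t t' : ℝ,
          ((∀ i, t < ξ i b ↔ t' < ξ i b') ∧ (∀ i, ξ i b < t ↔ ξ i b' < t')) ↔
            SgnEq F' (ext b t) (ext b' t')) := by
  obtain ⟨C', hC'⟩ := qe (tsize (S1_clo F))
  obtain ⟨G, -, hG⟩ := hC' σ (S1_clo F) le_rfl
  refine ⟨S1_clo F, G, S1_sub F, fun b₀ => ?_⟩
  set l := (S1_R (S1_clo F) b₀).card with hl
  have hcl : ∀ b ∈ cls G b₀, ∀ b' ∈ cls G b₀, ∃ ψ : ℝ ≃o ℝ, ∀ e ∈ S1_clo F, ∀ t,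
      e.sgn (ext b t) = e.sgn (ext b' (ψ t)) := by
    intro b hb b' hb'
    apply hG
    intro e he
    exact (hb e he).trans (hb' e he).symm
  have hb₀ : b₀ ∈ cls G b₀ := fun e _ => rfl
  have hcard : ∀ b ∈ cls G b₀, (S1_R (S1_clo F) b).card = l := by
    intro b hb
    obtain ⟨ψ, hψ⟩ := hcl b hb b₀ hb₀
    exact S1_card hψ
  have hmap : ∀ b ∈ cls G b₀, ∀ b' ∈ cls G b₀, ∀ ψ : ℝ ≃o ℝ, (∀ e ∈ S1_clo F, ∀ t,
      e.sgn (ext b t) = e.sgn (ext b' (ψ t))) → ∀ i, S1_xi (S1_clo F) l i b' =
        ψ (S1_xi (S1_clo F) l i b) := by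
    intro b hb b' hb' ψ hψ i
    refine S1_xi_unique (hcard b' hb') (g := fun i => ψ (S1_xi (S1_clo F) l i b)) (fun i => ?_)
      (fun i j hij => ?_) i
    · exact (S1_map hψ _).1 (S1_xi_mem (hcard b hb) i)
    · exact ψ.lt_iff_lt.2 (S1_xi_mono (hcard b hb) hij)
  refine ⟨l, S1_xi (S1_clo F) l, ?_, fun b hb => S1_xi_mono (hcard b hb), ?_⟩
  · -- continuity
    intro i b hb
    rw [ContinuousWithinAt, Metric.tendsto_nhds]
    intro ε hε
    have hmono := S1_xi_mono (hcard b hb)
    -- separation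
    have hsep : ∃ δ, 0 < δ ∧ δ ≤ ε ∧ ∀ j k : Fin l, j < k →
        S1_xi (S1_clo F) l j b + δ ≤ S1_xi (S1_clo F) l k b - δ := by
      have h1 : ∀ j k : Fin l, ∃ δ, 0 < δ ∧ (j < k →
          S1_xi (S1_clo F) l j b + δ ≤ S1_xi (S1_clo F) l k b - δ) := by
        intro j k
        by_cases hjk : j < k
        · have h2 : S1_xi (S1_clo F) l j b < S1_xi (S1_clo F) l k b := hmono hjk
          exact ⟨(S1_xi (S1_clo F) l k b - S1_xi (S1_clo F) l j b) / 2, by linarith,
            fun _ => by linarith⟩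
        · exact ⟨1, one_pos, fun h => absurd h hjk⟩
      choose δ hδ1 hδ2 using h1
      have h2 : (insert ε (Finset.univ.image fun z : Fin l × Fin l => δ z.1 z.2)).Nonempty :=
        Finset.insert_nonempty _ _
      refine ⟨(insert ε (Finset.univ.image fun z : Fin l × Fin l => δ z.1 z.2)).min' h2,
        ?_, ?_, fun j k hjk => ?_⟩
      · rw [Finset.lt_min'_iff]
        intro y hy
        rw [Finset.mem_insert, Finset.mem_image] at hy
        rcases hy with rfl | ⟨z, -, rfl⟩
        · exact hε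
        · exact hδ1 _ _
      · exact Finset.min'_le _ _ (Finset.mem_insert_self _ _)
      · have h3 : (insert ε (Finset.univ.image fun z : Fin l × Fin l => δ z.1 z.2)).min' h2
            ≤ δ j k := Finset.min'_le _ _ (Finset.mem_insert_of_mem
              (Finset.mem_image.2 ⟨(j, k), Finset.mem_univ _, rfl⟩))
        have h4 := hδ2 j k hjk
        linarith
    obtain ⟨δ, hδ, hδε, hsep⟩ := hsep
    have h1 : ∀ᶠ b' in 𝓝 b, ∀ j : Fin l, ∃ x' ∈ S1_R (S1_clo F) b',
        |x' - S1_xi (S1_clo F) l j b| < δ := by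
      rw [eventually_all]
      intro j
      exact S1_near hδ (S1_xi_mem (hcard b hb) j)
    filter_upwards [nhdsWithin_le_nhds h1, self_mem_nhdsWithin] with b' h2 hb'
    choose g hg1 hg2 using h2
    have hgm : StrictMono g := by
      intro j k hjk
      have h3 := hsep j k hjk
      have h4 := (abs_lt.1 (hg2 j)).2
      have h5 := (abs_lt.1 (hg2 k)).1
      linarith
    rw [S1_xi_unique (hcard b' hb') hg1 hgm i, Real.dist_eq]
    exact lt_of_lt_of_le (hg2 i) hδε
  · intro b hb b' hb' t t'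
    obtain ⟨ψ, hψ⟩ := hcl b hb b' hb'
    have hξ := hmap b hb b' hb' ψ hψ
    constructor
    · rintro ⟨h1, h2⟩ e he
      rw [hψ e he t]
      by_cases hne : ψ t = t'
      · rw [hne]
      have h3 : ∀ i, (ψ t < S1_xi (S1_clo F) l i b' ↔ t' < S1_xi (S1_clo F) l i b') ∧
          (S1_xi (S1_clo F) l i b' < ψ t ↔ S1_xi (S1_clo F) l i b' < t') := by
        intro i
        rw [← h1 i, ← h2 i, hξ i, ψ.lt_iff_lt, ψ.lt_iff_lt]
        exact ⟨Iff.rfl, Iff.rfl⟩
      rw [S1_sgn, S1_sgn]
      by_cases hz : S1_pol b' e = 0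
      · rw [hz]
        simp
      have key : ∀ u, (S1_pol b' e).eval u = 0 → (ψ t < u ∧ t' < u) ∨ (u < ψ t ∧ u < t') := by
        intro u hu
        obtain ⟨i, hi⟩ := S1_xi_surj (hcard b' hb') (S1_mem.2 ⟨e, he, hz, hu⟩)
        have h4 := h3 i
        rw [hi] at h4
        rcases lt_trichotomy (ψ t) u with h5 | h5 | h5
        · exact Or.inl ⟨h5, h4.1.1 h5⟩
        · exfalso
          have h6 : ¬ t' < u := fun h7 => absurd (h4.1.2 h7) (by rw [h5]; exact lt_irrefl u)
          have h8 : ¬ u < t' := fun h7 => absurd (h4.2.2 h7) (by rw [h5]; exact lt_irrefl u)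
          exact hne (h5.trans (le_antisymm (not_lt.1 h6) (not_lt.1 h8)))
        · exact Or.inr ⟨h5, h4.2.1 h5⟩
      rcases le_total (ψ t) t' with h5 | h5
      · apply Q1b_const h5
        intro u hu1 hu2 hu3
        rcases key u hu3 with h6 | h6
        · exact absurd h6.2 (not_lt.2 hu2)
        · exact absurd h6.1 (not_lt.2 hu1)
      · symm
        apply Q1b_const h5
        intro u hu1 hu2 hu3
        rcases key u hu3 with h6 | h6
        · exact absurd h6.1 (not_lt.2 hu2)
        · exact absurd h6.2 (not_lt.2 hu1)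
    · intro h
      have h1 : SgnEq (S1_clo F) (ext b' (ψ t)) (ext b' t') := by
        intro e he
        rw [← hψ e he t]
        exact h e he
      have h2 : ∀ x ∈ S1_R (S1_clo F) b', (ψ t < x ↔ t' < x) ∧ (x < ψ t ↔ x < t') := by
        intro x hx
        rcases lt_trichotomy (ψ t) t' with h3 | h3 | h3
        · rcases S1_no_root h3 h1 hx with h4 | h4
          · exact ⟨⟨fun h5 => absurd h4 (not_lt.2 h5.le),
              fun h5 => absurd (h4.trans h3) (not_lt.2 h5.le)⟩,
              ⟨fun h5 => h5.trans h3, fun _ => h4⟩⟩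
          · exact ⟨⟨fun _ => h4, fun h5 => h3.trans h5⟩,
              ⟨fun h5 => absurd (h3.trans h4) (not_lt.2 h5.le),
              fun h5 => absurd h4 (not_lt.2 h5.le)⟩⟩
        · rw [h3]
          exact ⟨Iff.rfl, Iff.rfl⟩
        · have h1' : SgnEq (S1_clo F) (ext b' t') (ext b' (ψ t)) := fun e he => (h1 e he).symm
          rcases S1_no_root h3 h1' hx with h4 | h4
          · exact ⟨⟨fun h5 => absurd (h4.trans h3) (not_lt.2 h5.le),
              fun h5 => absurd h4 (not_lt.2 h5.le)⟩,
              ⟨fun _ => h4, fun h5 => h5.trans h3⟩⟩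
          · exact ⟨⟨fun h5 => h3.trans h5, fun _ => h4⟩,
              ⟨fun h5 => absurd h4 (not_lt.2 h5.le),
              fun h5 => absurd (h3.trans h4) (not_lt.2 h5.le)⟩⟩
      have h3 := fun i => h2 _ (S1_xi_mem (hcard b' hb') i)
      constructor
      · intro i
        rw [← (h3 i).1, hξ i, ψ.lt_iff_lt]
      · intro i
        rw [← (h3 i).2, hξ i, ψ.lt_iff_lt]

end BU
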