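import Pool.Agent.Work.MP_4030f5_lc.CellDefs

/-! # S3: charts of cells, relative openness, null sets -/

namespace BU

open MeasureTheory

theorem S3a_hh_lt_one (t : ℝ) : |hh t| < 1 := by
  unfold hh
  have h : 0 < 1 + |t| := by positivity
  rw [abs_div, abs_of_pos h, div_lt_one h]
  linarith

/-- the inverse of `hh` on `(-1, 1)`. -/
noncomputable def S3a_gg (y : ℝ) : ℝ := y / (1 - |y|)

theorem S3a_hh_gg {y : ℝ} (hy : |y| < 1) : hh (S3a_gg y) = y := by
  unfold hh S3a_gg
  have h : 0 < 1 - |y| := by linarith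
  rw [abs_div, abs_of_pos h]
  have h2 : 1 + |y| / (1 - |y|) = 1 / (1 - |y|) := by field_simp; ring
  rw [h2]
  field_simp

theorem S3a_gg_hh (t : ℝ) : S3a_gg (hh t) = t := by
  unfold hh S3a_gg
  have h : 0 < 1 + |t| := by positivity
  rw [abs_div, abs_of_pos h]
  have h2 : 1 - |t| / (1 + |t|) = 1 / (1 + |t|) := by field_simp; ring
  rw [h2]
  field_simp

theorem S3a_gg_continuousOn : ContinuousOn S3a_gg {y | |y| < 1} := by
  unfold S3a_gg
  refine continuousOn_id.div (continuousOn_const.sub continuous_abs.continuousOn) ?_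
  intro y hy
  have : |y| < 1 := hy
  linarith

theorem hh_continuous : Continuous hh := by
  unfold hh
  refine continuous_id.div (continuous_const.add continuous_abs) ?_
  intro t
  have h : 0 < 1 + |t| := by positivity
  exact h.ne'

theorem hh_strictMono : StrictMono hh := by
  intro s t hst
  unfold hh
  have h1 : 0 < 1 + |s| := by positivity
  have h2 : 0 < 1 + |t| := by positivity
  rw [div_lt_div_iff₀ h1 h2]
  rcases le_total 0 s with hs | hs <;> rcases le_total 0 t with ht | ht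
  · rw [abs_of_nonneg hs, abs_of_nonneg ht]; nlinarith
  · exfalso; linarith
  · rw [abs_of_nonpos hs, abs_of_nonneg ht]
    nlinarith [mul_nonneg (neg_nonneg.2 hs) ht]
  · rw [abs_of_nonpos hs, abs_of_nonpos ht]; nlinarith

theorem hh_range : Set.range hh = Set.Ioo (-1) 1 := by
  ext y
  constructor
  · rintro ⟨t, rfl⟩
    exact abs_lt.1 (S3a_hh_lt_one t)
  · intro hy
    exact ⟨S3a_gg y, S3a_hh_gg (abs_lt.2 hy)⟩

theorem IsCell.length {M : ℕ} {τ : List Bool} {W : Set (Fin M → ℝ)} (h : IsCell M τ W) :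
    τ.length = M := by
  induction h with
  | zero => rfl
  | graph f _ _ ih => simp [ih]
  | band u v _ _ _ _ ih => simp [ih]

/-- a point in the fibre of a band. -/
theorem S3a_fibre {a b : ℝ} (h1 : -1 ≤ a) (h2 : a < b) (h3 : b ≤ 1) :
    ∃ t t' : ℝ, t ≠ t' ∧ (a < hh t ∧ hh t < b) ∧ (a < hh t' ∧ hh t' < b) := by
  have m1 : (2 * a + b) / 3 ∈ Set.Ioo (-1 : ℝ) 1 := ⟨by linarith, by linarith⟩
  have m2 : (a + 2 * b) / 3 ∈ Set.Ioo (-1 : ℝ) 1 := ⟨by linarith, by linarith⟩
  rw [← hh_range] at m1 m2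
  obtain ⟨t, ht⟩ := m1
  obtain ⟨t', ht'⟩ := m2
  refine ⟨t, t', ?_, ?_, ?_⟩
  · rintro rfl
    rw [ht] at ht'
    linarith
  · rw [ht]; exact ⟨by linarith, by linarith⟩
  · rw [ht']; exact ⟨by linarith, by linarith⟩

theorem IsCell.nonempty {M : ℕ} {τ : List Bool} {W : Set (Fin M → ℝ)} (h : IsCell M τ W) :
    W.Nonempty := by
  induction h with
  | zero => exact Set.univ_nonempty
  | graph f _ _ ih =>
    obtain ⟨b, hb⟩ := ih
    exact ⟨Fin.snoc b (f b), by simpa using hb⟩
  | band u v _ _ _ huv ih =>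
    obtain ⟨b, hb⟩ := ih
    obtain ⟨h1, h2, h3⟩ := huv b hb
    obtain ⟨t, _, _, ht, _⟩ := S3a_fibre h1 h2 h3
    exact ⟨Fin.snoc b t, by simpa using ⟨hb, ht⟩⟩

theorem S3a_measurable_init {M : ℕ} :
    Measurable (fun x : Fin (M + 1) → ℝ => (Fin.init x : Fin M → ℝ)) := by
  refine measurable_pi_iff.2 fun i => ?_
  exact measurable_pi_apply _

theorem S3a_piece {M : ℕ} {W : Set (Fin M → ℝ)} {f : (Fin M → ℝ) → ℝ} (hf : ContinuousOn f W)
    (hW : MeasurableSet W) : ∃ F : (Fin M → ℝ) → ℝ, Measurable F ∧ ∀ b ∈ W, F b = f b := by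
  classical
  refine ⟨W.piecewise f (fun _ => 0), hf.measurable_piecewise continuousOn_const hW, ?_⟩
  intro b hb
  exact Set.piecewise_eq_of_mem _ _ _ hb

theorem IsCell.measurableSet {M : ℕ} {τ : List Bool} {W : Set (Fin M → ℝ)} (h : IsCell M τ W) :
    MeasurableSet W := by
  induction h with
  | zero => exact MeasurableSet.univ
  | @graph M τ W f _ hf ih =>
    obtain ⟨F, hF, hFf⟩ := S3a_piece hf ih
    have e : {x : Fin (M + 1) → ℝ | Fin.init x ∈ W ∧ x (Fin.last M) = f (Fin.init x)} =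
        {x | (Fin.init x : Fin M → ℝ) ∈ W} ∩ {x | x (Fin.last M) = F (Fin.init x)} := by
      ext x
      constructor
      · rintro ⟨h1, h2⟩
        exact ⟨h1, by simpa [hFf _ h1] using h2⟩
      · rintro ⟨h1, h2⟩
        have h2' : x (Fin.last M) = F (Fin.init x) := h2
        have h1' : (Fin.init x : Fin M → ℝ) ∈ W := h1
        exact ⟨h1', by rw [← hFf _ h1']; exact h2'⟩
    rw [e]
    exact (S3a_measurable_init ih).inter
      (measurableSet_eq_fun (measurable_pi_apply _) (hF.comp S3a_measurable_init))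
  | @band M τ W u v _ hu hv _ ih =>
    obtain ⟨U, hU, hUu⟩ := S3a_piece hu ih
    obtain ⟨V, hV, hVv⟩ := S3a_piece hv ih
    have e : {x : Fin (M + 1) → ℝ | Fin.init x ∈ W ∧ u (Fin.init x) < hh (x (Fin.last M)) ∧
          hh (x (Fin.last M)) < v (Fin.init x)} =
        {x | (Fin.init x : Fin M → ℝ) ∈ W} ∩ ({x | U (Fin.init x) < hh (x (Fin.last M))} ∩
          {x | hh (x (Fin.last M)) < V (Fin.init x)}) := by
      ext x
      constructor
      · rintro ⟨h1, h2, h3⟩
        exact ⟨h1, by simpa [hUu _ h1] using h2, by simpa [hVv _ h1] using h3⟩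
      · rintro ⟨h1, h2, h3⟩
        have h1' : (Fin.init x : Fin M → ℝ) ∈ W := h1
        have h2' : U (Fin.init x) < hh (x (Fin.last M)) := h2
        have h3' : hh (x (Fin.last M)) < V (Fin.init x) := h3
        exact ⟨h1', by rw [← hUu _ h1']; exact h2', by rw [← hVv _ h1']; exact h3'⟩
    rw [e]
    have hm : Measurable fun x : Fin (M + 1) → ℝ => hh (x (Fin.last M)) :=
      hh_continuous.measurable.comp (measurable_pi_apply _)
    exact (S3a_measurable_init ih).inter
      ((measurableSet_lt (hU.comp S3a_measurable_init) hm).inter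
        (measurableSet_lt hm (hV.comp S3a_measurable_init)))

theorem S3a_init_continuous {M : ℕ} :
    Continuous (fun x : Fin (M + 1) → ℝ => (Fin.init x : Fin M → ℝ)) :=
  continuous_pi fun _ => continuous_apply _

/-- a cell contained in a cell of the same type is relatively open. -/
theorem IsCell.open_of_same {M : ℕ} {τ : List Bool} {W W' : Set (Fin M → ℝ)}
    (h : IsCell M τ W) (h' : IsCell M τ W') (hsub : W' ⊆ W) :
    ∃ U : Set (Fin M → ℝ), IsOpen U ∧ W' = W ∩ U := by
  induction h with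
  | zero =>
    refine ⟨Set.univ, isOpen_univ, ?_⟩
    cases h'
    simp
  | @graph M τ W f _ hf ih =>
    cases h' with
    | @graph _ _ W₀ f' h₀ hf' =>
      have key : ∀ b ∈ W₀, b ∈ W ∧ f' b = f b := by
        intro b hb
        have h1 : (Fin.snoc b (f' b) : Fin (M + 1) → ℝ) ∈
            {x : Fin (M + 1) → ℝ | Fin.init x ∈ W₀ ∧ x (Fin.last M) = f' (Fin.init x)} := by
          simpa using hb
        simpa using hsub h1
      obtain ⟨U, hU, hUW⟩ := ih h₀ fun b hb => (key b hb).1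
      refine ⟨{x | (Fin.init x : Fin M → ℝ) ∈ U}, hU.preimage S3a_init_continuous, ?_⟩
      ext x
      constructor
      · rintro ⟨h1, h2⟩
        have h3 : (Fin.init x : Fin M → ℝ) ∈ W ∩ U := by rw [← hUW]; exact h1
        exact ⟨⟨h3.1, by rw [h2]; exact (key _ h1).2⟩, h3.2⟩
      · rintro ⟨⟨h1, h2⟩, h3⟩
        have h4 : (Fin.init x : Fin M → ℝ) ∈ W₀ := by rw [hUW]; exact ⟨h1, h3⟩
        exact ⟨h4, by rw [(key _ h4).2]; exact h2⟩
  | @band M τ W u v _ hu hv huv ih =>
    cases h' with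
    | @band _ _ W₀ u' v' h₀ hu' hv' huv' =>
      have key : ∀ b ∈ W₀, b ∈ W := by
        intro b hb
        obtain ⟨g1, g2, g3⟩ := huv' b hb
        obtain ⟨t, _, _, ht, _⟩ := S3a_fibre g1 g2 g3
        have h1 : (Fin.snoc b t : Fin (M + 1) → ℝ) ∈
            {x : Fin (M + 1) → ℝ | Fin.init x ∈ W₀ ∧ u' (Fin.init x) < hh (x (Fin.last M)) ∧
              hh (x (Fin.last M)) < v' (Fin.init x)} := by
          simpa using ⟨hb, ht⟩
        have h2 := hsub h1
        have h3 : (Fin.init (Fin.snoc b t : Fin (M + 1) → ℝ) : Fin M → ℝ) ∈ W := h2.1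
        simpa using h3
      obtain ⟨U, hU, hUW⟩ := ih h₀ key
      set S : Set (Fin (M + 1) → ℝ) := {x | (Fin.init x : Fin M → ℝ) ∈ W₀} with hS
      have hmaps : Set.MapsTo (fun x : Fin (M + 1) → ℝ => (Fin.init x : Fin M → ℝ)) S W₀ :=
        fun x hx => hx
      have hu2 : ContinuousOn (fun x : Fin (M + 1) → ℝ => hh (x (Fin.last M)) - u' (Fin.init x)) S :=
        (hh_continuous.comp (continuous_apply _)).continuousOn.sub
          (hu'.comp S3a_init_continuous.continuousOn hmaps)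
      have hv2 : ContinuousOn (fun x : Fin (M + 1) → ℝ => v' (Fin.init x) - hh (x (Fin.last M))) S :=
        (hv'.comp S3a_init_continuous.continuousOn hmaps).sub
          (hh_continuous.comp (continuous_apply _)).continuousOn
      obtain ⟨V1, hV1, hV1S⟩ := continuousOn_iff'.1 hu2 (Set.Ioi 0) isOpen_Ioi
      obtain ⟨V2, hV2, hV2S⟩ := continuousOn_iff'.1 hv2 (Set.Ioi 0) isOpen_Ioi
      refine ⟨{x | (Fin.init x : Fin M → ℝ) ∈ U} ∩ (V1 ∩ V2),
        (hU.preimage S3a_init_continuous).inter (hV1.inter hV2), ?_⟩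
      ext x
      constructor
      · intro hx
        obtain ⟨h1, h2, h3⟩ := hx
        have h4 : (Fin.init x : Fin M → ℝ) ∈ W ∩ U := by rw [← hUW]; exact h1
        have h5 : x ∈ V1 ∩ S := by
          rw [← hV1S]
          exact ⟨by simpa using h2, h1⟩
        have h6 : x ∈ V2 ∩ S := by
          rw [← hV2S]
          exact ⟨by simpa using h3, h1⟩
        exact ⟨hsub ⟨h1, h2, h3⟩, h4.2, h5.1, h6.1⟩
      · rintro ⟨⟨h1, _⟩, h3, h4, h5⟩
        have h6 : x ∈ S := by
          show (Fin.init x : Fin M → ℝ) ∈ W₀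
          rw [hUW]; exact ⟨h1, h3⟩
        have h7 : x ∈ (fun x : Fin (M + 1) → ℝ => hh (x (Fin.last M)) - u' (Fin.init x)) ⁻¹'
            Set.Ioi 0 ∩ S := by
          rw [hV1S]; exact ⟨h4, h6⟩
        have h8 : x ∈ (fun x : Fin (M + 1) → ℝ => v' (Fin.init x) - hh (x (Fin.last M))) ⁻¹'
            Set.Ioi 0 ∩ S := by
          rw [hV2S]; exact ⟨h5, h6⟩
        exact ⟨h6, by simpa using h7.1, by simpa using h8.1⟩

/-- the base of a cell contained in a cell. -/
theorem S3a_base {M : ℕ} {t t' : Bool} {τ τ' : List Bool} {W W' : Set (Fin (M + 1) → ℝ)}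
    (h : IsCell (M + 1) (t :: τ) W) (h' : IsCell (M + 1) (t' :: τ') W') (hsub : W' ⊆ W) :
    (∃ W₀ W₀' : Set (Fin M → ℝ), IsCell M τ W₀ ∧ IsCell M τ' W₀' ∧ W₀' ⊆ W₀ ∧
      (∀ x ∈ W', (Fin.init x : Fin M → ℝ) ∈ W₀') ∧ (∀ x ∈ W, (Fin.init x : Fin M → ℝ) ∈ W₀)) ∧
    (t = false → t' = false) := by
  cases h with
  | @graph _ _ W₀ f h₀ hf =>
    cases h' with
    | @graph _ _ W₀' f' h₀' hf' =>
      refine ⟨⟨W₀, W₀', h₀, h₀', ?_, fun x hx => hx.1, fun x hx => hx.1⟩, fun _ => rfl⟩
      intro b hb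
      have h1 : (Fin.snoc b (f' b) : Fin (M + 1) → ℝ) ∈
          {x : Fin (M + 1) → ℝ | Fin.init x ∈ W₀' ∧ x (Fin.last M) = f' (Fin.init x)} := by
        simpa using hb
      have h2 := hsub h1
      have h3 : (Fin.init (Fin.snoc b (f' b) : Fin (M + 1) → ℝ) : Fin M → ℝ) ∈ W₀ := h2.1
      simpa using h3
    | @band _ _ W₀' u' v' h₀' hu' hv' huv' =>
      exfalso
      obtain ⟨b, hb⟩ := h₀'.nonempty
      obtain ⟨g1, g2, g3⟩ := huv' b hb
      obtain ⟨s, s', hne, hs, hs'⟩ := S3a_fibre g1 g2 g3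
      have h1 : (Fin.snoc b s : Fin (M + 1) → ℝ) ∈
            {x : Fin (M + 1) → ℝ | Fin.init x ∈ W₀' ∧ u' (Fin.init x) < hh (x (Fin.last M)) ∧
              hh (x (Fin.last M)) < v' (Fin.init x)} := by
          simpa using ⟨hb, hs⟩
      have h2 : (Fin.snoc b s' : Fin (M + 1) → ℝ) ∈
            {x : Fin (M + 1) → ℝ | Fin.init x ∈ W₀' ∧ u' (Fin.init x) < hh (x (Fin.last M)) ∧
              hh (x (Fin.last M)) < v' (Fin.init x)} := by
          simpa using ⟨hb, hs'⟩
      have h3 := (hsub h1).2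
      have h4 := (hsub h2).2
      simp only [Fin.snoc_last, Fin.init_snoc] at h3 h4
      exact hne (h3.trans h4.symm)
  | @band _ _ W₀ u v h₀ hu hv huv =>
    cases h' with
    | @graph _ _ W₀' f' h₀' hf' =>
      refine ⟨⟨W₀, W₀', h₀, h₀', ?_, fun x hx => hx.1, fun x hx => hx.1⟩, fun h => by simp at h⟩
      intro b hb
      have h1 : (Fin.snoc b (f' b) : Fin (M + 1) → ℝ) ∈
          {x : Fin (M + 1) → ℝ | Fin.init x ∈ W₀' ∧ x (Fin.last M) = f' (Fin.init x)} := by
        simpa using hb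
      have h2 := hsub h1
      have h3 : (Fin.init (Fin.snoc b (f' b) : Fin (M + 1) → ℝ) : Fin M → ℝ) ∈ W₀ := h2.1
      simpa using h3
    | @band _ _ W₀' u' v' h₀' hu' hv' huv' =>
      refine ⟨⟨W₀, W₀', h₀, h₀', ?_, fun x hx => hx.1, fun x hx => hx.1⟩, fun h => by simp at h⟩
      intro b hb
      obtain ⟨g1, g2, g3⟩ := huv' b hb
      obtain ⟨s, _, _, hs, _⟩ := S3a_fibre g1 g2 g3
      have h1 : (Fin.snoc b s : Fin (M + 1) → ℝ) ∈
            {x : Fin (M + 1) → ℝ | Fin.init x ∈ W₀' ∧ u' (Fin.init x) < hh (x (Fin.last M)) ∧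
              hh (x (Fin.last M)) < v' (Fin.init x)} := by
          simpa using ⟨hb, hs⟩
      have h2 := hsub h1
      have h3 : (Fin.init (Fin.snoc b s : Fin (M + 1) → ℝ) : Fin M → ℝ) ∈ W₀ := h2.1
      simpa using h3

theorem S3a_dim {M : ℕ} : ∀ {τ τ' : List Bool} {W W' : Set (Fin M → ℝ)}
    (_ : IsCell M τ W) (_ : IsCell M τ' W') (_ : W' ⊆ W),
    τ' = τ ∨ cdim τ' < cdim τ := by
  induction M with
  | zero =>
    intro τ τ' W W' h h' _
    cases h
    cases h'
    exact Or.inl rfl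
  | succ M ih =>
    intro τ τ' W W' h h' hsub
    have hl := h.length
    have hl' := h'.length
    match τ, τ', h, h' with
    | [], _, _, _ => simp at hl
    | _ :: _, [], _, _ => simp at hl'
    | t :: τ, t' :: τ', h, h' =>
      obtain ⟨⟨W₀, W₀', h₀, h₀', hs, _, _⟩, ht⟩ := S3a_base h h' hsub
      have h1 := ih h₀ h₀' hs
      rcases t with _ | _
      · have := ht rfl
        subst this
        rcases h1 with rfl | h1
        · exact Or.inl rfl
        · right
          simpa [cdim] using h1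
      · rcases t' with _ | _
        · right
          have h2 : cdim τ' ≤ cdim τ := by
            rcases h1 with rfl | h1
            · exact le_rfl
            · exact h1.le
          have e1 : cdim (false :: τ') = cdim τ' := by simp [cdim]
          have e2 : cdim (true :: τ) = cdim τ + 1 := by simp [cdim]
          omega
        · rcases h1 with rfl | h1
          · exact Or.inl rfl
          · right
            have e1 : cdim (true :: τ') = cdim τ' + 1 := by simp [cdim]
            have e2 : cdim (true :: τ) = cdim τ + 1 := by simp [cdim]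
            omega

/-- a cell contained in a cell of another type has smaller dimension. -/
theorem IsCell.dim_lt {M : ℕ} {τ τ' : List Bool} {W W' : Set (Fin M → ℝ)}
    (h : IsCell M τ W) (h' : IsCell M τ' W') (hsub : W' ⊆ W) (hne : τ' ≠ τ) :
    cdim τ' < cdim τ := by
  rcases S3a_dim h h' hsub with h1 | h1
  · exact absurd h1 hne
  · exact h1

end BU
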