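import Pool.Agent.Work.MP_4030f5_lc.S3a

/-! # S3: charts of cells, relative openness, null sets -/

namespace BU

open MeasureTheory

theorem S3b_img {M : ℕ} {t : Bool} {τ : List Bool} {W : Set (Fin (M + 1) → ℝ)}
    (h : IsCell (M + 1) (t :: τ) W) :
    IsCell M τ ((fun x : Fin (M + 1) → ℝ => (Fin.init x : Fin M → ℝ)) '' W) := by
  cases h with
  | @graph _ _ W₀ f h₀ hf =>
    convert h₀
    ext b
    constructor
    · rintro ⟨x, hx, rfl⟩
      exact hx.1
    · intro hb
      exact ⟨Fin.snoc b (f b), by simpa using hb, by simp⟩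
  | @band _ _ W₀ u v h₀ hu hv huv =>
    convert h₀
    ext b
    constructor
    · rintro ⟨x, hx, rfl⟩
      exact hx.1
    · intro hb
      obtain ⟨g1, g2, g3⟩ := huv b hb
      obtain ⟨s, _, _, hs, _⟩ := S3a_fibre g1 g2 g3
      exact ⟨Fin.snoc b s, by simpa using ⟨hb, hs⟩, by simp⟩

theorem S3b_mp (d : ℕ) : MeasurePreserving
    (MeasurableEquiv.piFinSuccAbove (fun _ : Fin (d + 1) => ℝ) (Fin.last d)) volume volume :=
  volume_preserving_piFinSuccAbove (fun _ : Fin (d + 1) => ℝ) (Fin.last d)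

/-- cylinders over null sets are null. -/
theorem S3b_cyl {d : ℕ} {N : Set (Fin d → ℝ)} (hN : volume N = 0) :
    volume {w : Fin (d + 1) → ℝ | (Fin.init w : Fin d → ℝ) ∈ N} = 0 := by
  have h1 := (S3b_mp d).quasiMeasurePreserving
  have h2 : Measure.QuasiMeasurePreserving (Prod.snd : ℝ × (Fin d → ℝ) → (Fin d → ℝ))
      volume volume := Measure.quasiMeasurePreserving_snd
  have h3 := (h2.comp h1).preimage_null hN
  refine measure_mono_null ?_ h3
  intro w hw
  have e : (Prod.snd ∘ (MeasurableEquiv.piFinSuccAbove (fun _ : Fin (d + 1) => ℝ) (Fin.last d))) w =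
      Fin.init w := by
    funext j
    simp [MeasurableEquiv.piFinSuccAbove, Fin.init, Fin.removeNth]
  show (Prod.snd ∘ (MeasurableEquiv.piFinSuccAbove (fun _ : Fin (d + 1) => ℝ) (Fin.last d))) w ∈ N
  rw [e]
  exact hw

/-- a measurable set with at most one point on every vertical line is null. -/
theorem S3b_lines {d : ℕ} {S : Set (Fin (d + 1) → ℝ)} (hS : MeasurableSet S)
    (h : ∀ v : Fin d → ℝ, {s : ℝ | (Fin.snoc v s : Fin (d + 1) → ℝ) ∈ S}.Subsingleton) :
    volume S = 0 := by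
  have h1 := ((S3b_mp d).symm _).measure_preimage hS.nullMeasurableSet
  rw [← h1, Measure.volume_eq_prod, Measure.prod_apply_symm
    ((MeasurableEquiv.piFinSuccAbove (fun _ : Fin (d + 1) => ℝ) (Fin.last d)).symm.measurable hS)]
  rw [lintegral_eq_zero_iff' (by
    exact (measurable_measure_prodMk_right
      ((MeasurableEquiv.piFinSuccAbove (fun _ : Fin (d + 1) => ℝ)
        (Fin.last d)).symm.measurable hS)).aemeasurable)]
  refine Filter.Eventually.of_forall fun v => ?_
  show volume _ = 0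
  refine Set.Subsingleton.measure_zero ?_ volume
  intro s hs s' hs'
  have key : ∀ r : ℝ, (MeasurableEquiv.piFinSuccAbove (fun _ : Fin (d + 1) => ℝ)
      (Fin.last d)).symm (r, v) = Fin.snoc v r := by
    intro r
    rw [← Fin.insertNth_last']
    rfl
  have hs1 : (MeasurableEquiv.piFinSuccAbove (fun _ : Fin (d + 1) => ℝ)
      (Fin.last d)).symm (s, v) ∈ S := hs
  have hs1' : (MeasurableEquiv.piFinSuccAbove (fun _ : Fin (d + 1) => ℝ)
      (Fin.last d)).symm (s', v) ∈ S := hs'
  rw [key] at hs1 hs1'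
  exact h v hs1 hs1'

/-- chart of a graph. -/
noncomputable def S3b_eg {M d : ℕ} {W : Set (Fin M → ℝ)} {f : (Fin M → ℝ) → ℝ}
    (hf : ContinuousOn f W) (e0 : (Fin d → ℝ) ≃ₜ W) :
    (Fin d → ℝ) ≃ₜ
      ({x | Fin.init x ∈ W ∧ x (Fin.last M) = f (Fin.init x)} : Set (Fin (M + 1) → ℝ)) where
  toFun u := ⟨Fin.snoc (e0 u : Fin M → ℝ) (f (e0 u)), by simp⟩
  invFun x := e0.symm ⟨Fin.init (x : Fin (M + 1) → ℝ), x.2.1⟩
  left_inv u := by simp
  right_inv x := by
    apply Subtype.ext
    simp only [Homeomorph.apply_symm_apply]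
    have h2 := x.2.2
    rw [← h2]
    exact Fin.snoc_init_self _
  continuous_toFun := by
    refine Continuous.subtype_mk ?_ _
    refine Continuous.finSnoc (continuous_subtype_val.comp e0.continuous) ?_
    exact hf.comp_continuous (continuous_subtype_val.comp e0.continuous) fun u => (e0 u).2
  continuous_invFun := by
    refine e0.symm.continuous.comp (Continuous.subtype_mk ?_ _)
    exact S3a_init_continuous.comp continuous_subtype_val

theorem S3b_mem {a b s : ℝ} (h2 : a < b) :
    a < a + (1 + hh s) / 2 * (b - a) ∧ a + (1 + hh s) / 2 * (b - a) < b := by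
  have h := abs_lt.1 (S3a_hh_lt_one s)
  constructor <;> nlinarith

theorem S3b_abs {a b y : ℝ} (h1 : -1 ≤ a) (h3 : b ≤ 1) (hy : a < y ∧ y < b) : |y| < 1 :=
  abs_lt.2 ⟨by linarith [hy.1], by linarith [hy.2]⟩

theorem S3b_abs' {a b y : ℝ} (h2 : a < b) (hy : a < y ∧ y < b) :
    |2 * (y - a) / (b - a) - 1| < 1 := by
  have h : 0 < b - a := by linarith
  have e1 : 0 < 2 * (y - a) / (b - a) := div_pos (by linarith [hy.1]) h
  have e2 : 2 * (y - a) / (b - a) < 2 := by
    rw [div_lt_iff₀ h]; linarith [hy.2]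
  exact abs_lt.2 ⟨by linarith, by linarith⟩

/-- chart of a band. -/
noncomputable def S3b_eb {M d : ℕ} {W : Set (Fin M → ℝ)} {u v : (Fin M → ℝ) → ℝ}
    (hu : ContinuousOn u W) (hv : ContinuousOn v W)
    (huv : ∀ b ∈ W, -1 ≤ u b ∧ u b < v b ∧ v b ≤ 1) (e0 : (Fin d → ℝ) ≃ₜ W) :
    (Fin (d + 1) → ℝ) ≃ₜ
      ({x | Fin.init x ∈ W ∧ u (Fin.init x) < hh (x (Fin.last M)) ∧
          hh (x (Fin.last M)) < v (Fin.init x)} : Set (Fin (M + 1) → ℝ)) where
  toFun w := ⟨Fin.snoc (e0 (Fin.init w) : Fin M → ℝ)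
      (S3a_gg (u (e0 (Fin.init w)) + (1 + hh (w (Fin.last d))) / 2 *
        (v (e0 (Fin.init w)) - u (e0 (Fin.init w))))), by
    obtain ⟨h1, h2, h3⟩ := huv _ (e0 (Fin.init w)).2
    have h4 := S3b_mem (s := w (Fin.last d)) h2
    have h5 := S3b_abs h1 h3 h4
    simp only [Set.mem_ofPred_eq, Fin.init_snoc, Fin.snoc_last]
    rw [S3a_hh_gg h5]
    exact ⟨(e0 (Fin.init w)).2, h4.1, h4.2⟩⟩
  invFun x := Fin.snoc (e0.symm ⟨Fin.init (x : Fin (M + 1) → ℝ), x.2.1⟩)
    (S3a_gg (2 * (hh ((x : Fin (M + 1) → ℝ) (Fin.last M)) - u (Fin.init (x : Fin (M + 1) → ℝ))) /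
      (v (Fin.init (x : Fin (M + 1) → ℝ)) - u (Fin.init (x : Fin (M + 1) → ℝ))) - 1))
  left_inv w := by
    obtain ⟨h1, h2, h3⟩ := huv _ (e0 (Fin.init w)).2
    have h4 := S3b_mem (s := w (Fin.last d)) h2
    have h5 := S3b_abs h1 h3 h4
    simp only [Fin.init_snoc, Fin.snoc_last]
    rw [S3a_hh_gg h5]
    have h6 : v (e0 (Fin.init w)) - u (e0 (Fin.init w)) ≠ 0 := by linarith
    have h7 : 2 * (u (e0 (Fin.init w)) + (1 + hh (w (Fin.last d))) / 2 *
        (v (e0 (Fin.init w)) - u (e0 (Fin.init w))) - u (e0 (Fin.init w))) /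
        (v (e0 (Fin.init w)) - u (e0 (Fin.init w))) - 1 = hh (w (Fin.last d)) := by
      field_simp
      ring
    rw [h7, S3a_gg_hh]
    have h8 : e0.symm ⟨(e0 (Fin.init w) : Fin M → ℝ), (e0 (Fin.init w)).2⟩ = Fin.init w := by
      simp
    rw [h8]
    exact Fin.snoc_init_self _
  right_inv x := by
    apply Subtype.ext
    obtain ⟨h1, h2, h3⟩ := huv _ x.2.1
    have h4 := S3b_abs' h2 x.2.2
    simp only [Fin.init_snoc, Fin.snoc_last, Homeomorph.apply_symm_apply]
    rw [S3a_hh_gg h4]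
    have h6 : v (Fin.init (x : Fin (M + 1) → ℝ)) - u (Fin.init (x : Fin (M + 1) → ℝ)) ≠ 0 := by
      linarith
    have h7 : u (Fin.init (x : Fin (M + 1) → ℝ)) +
        (1 + (2 * (hh ((x : Fin (M + 1) → ℝ) (Fin.last M)) - u (Fin.init (x : Fin (M + 1) → ℝ))) /
          (v (Fin.init (x : Fin (M + 1) → ℝ)) - u (Fin.init (x : Fin (M + 1) → ℝ))) - 1)) / 2 *
        (v (Fin.init (x : Fin (M + 1) → ℝ)) - u (Fin.init (x : Fin (M + 1) → ℝ))) =
        hh ((x : Fin (M + 1) → ℝ) (Fin.last M)) := by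
      field_simp
      ring
    rw [h7, S3a_gg_hh]
    exact Fin.snoc_init_self _
  continuous_toFun := by
    refine Continuous.subtype_mk ?_ _
    have c1 : Continuous fun w : Fin (d + 1) → ℝ => ((e0 (Fin.init w) : W) : Fin M → ℝ) :=
      continuous_subtype_val.comp (e0.continuous.comp S3a_init_continuous)
    have c2 : Continuous fun w : Fin (d + 1) → ℝ => u (e0 (Fin.init w)) :=
      hu.comp_continuous c1 fun w => (e0 (Fin.init w)).2
    have c3 : Continuous fun w : Fin (d + 1) → ℝ => v (e0 (Fin.init w)) :=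
      hv.comp_continuous c1 fun w => (e0 (Fin.init w)).2
    have c4 : Continuous fun w : Fin (d + 1) → ℝ => hh (w (Fin.last d)) :=
      hh_continuous.comp (continuous_apply _)
    refine Continuous.finSnoc c1 ?_
    refine S3a_gg_continuousOn.comp_continuous
      (c2.add (((continuous_const.add c4).div_const 2).mul (c3.sub c2))) fun w => ?_
    obtain ⟨h1, h2, h3⟩ := huv _ (e0 (Fin.init w)).2
    exact S3b_abs h1 h3 (S3b_mem (s := w (Fin.last d)) h2)
  continuous_invFun := by
    have c0 : Continuous fun x : ({x | Fin.init x ∈ W ∧ u (Fin.init x) < hh (x (Fin.last M)) ∧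
          hh (x (Fin.last M)) < v (Fin.init x)} : Set (Fin (M + 1) → ℝ)) =>
          (Fin.init (x : Fin (M + 1) → ℝ) : Fin M → ℝ) :=
      S3a_init_continuous.comp continuous_subtype_val
    have c2 := hu.comp_continuous c0 fun x => x.2.1
    have c3 := hv.comp_continuous c0 fun x => x.2.1
    have c4 : Continuous fun x : ({x | Fin.init x ∈ W ∧ u (Fin.init x) < hh (x (Fin.last M)) ∧
          hh (x (Fin.last M)) < v (Fin.init x)} : Set (Fin (M + 1) → ℝ)) =>
          hh ((x : Fin (M + 1) → ℝ) (Fin.last M)) :=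
      hh_continuous.comp ((continuous_apply _).comp continuous_subtype_val)
    refine Continuous.finSnoc (e0.symm.continuous.comp (Continuous.subtype_mk c0 _)) ?_
    refine S3a_gg_continuousOn.comp_continuous ?_ fun x => ?_
    · refine ((continuous_const.mul (c4.sub c2)).div (c3.sub c2) fun x => ?_).sub continuous_const
      obtain ⟨h1, h2, h3⟩ := huv _ x.2.1
      have : v (Fin.init (x : Fin (M + 1) → ℝ)) - u (Fin.init (x : Fin (M + 1) → ℝ)) ≠ 0 := by
        linarith
      exact this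
    · obtain ⟨h1, h2, h3⟩ := huv _ x.2.1
      exact S3b_abs' h2 x.2.2

/-- every cell has a chart: it is homeomorphic to some `ℝ^d`, and cells of other types contained
in it are null sets in the chart. -/
theorem IsCell.chart {M : ℕ} {τ : List Bool} {W : Set (Fin M → ℝ)} (h : IsCell M τ W) :
    ∃ (d : ℕ) (e : (Fin d → ℝ) ≃ₜ W), ∀ (τ' : List Bool) (W' : Set (Fin M → ℝ)),
      IsCell M τ' W' → W' ⊆ W → τ' ≠ τ →
        volume {u : Fin d → ℝ | ((e u : W) : Fin M → ℝ) ∈ W'} = 0 := by
  induction h with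
  | zero =>
    refine ⟨0, (Homeomorph.Set.univ _).symm, ?_⟩
    intro τ' W' h' _ hne
    cases h'
    exact absurd rfl hne
  | @graph M τ W f h₀ hf ih =>
    obtain ⟨d, e0, he0⟩ := ih
    refine ⟨d, S3b_eg hf e0, ?_⟩
    intro τ' W' h' hsub hne
    have hl' := h'.length
    match τ', h' with
    | [], _ => simp at hl'
    | t' :: τ', h' =>
      have ht := (S3a_base (IsCell.graph f h₀ hf) h' hsub).2 rfl
      subst ht
      have hne' : τ' ≠ τ := fun h => hne (by rw [h])
      have hs : ((fun x : Fin (M + 1) → ℝ => (Fin.init x : Fin M → ℝ)) '' W') ⊆ W := by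
        rintro _ ⟨x, hx, rfl⟩
        exact (hsub hx).1
      refine measure_mono_null ?_ (he0 τ' _ (S3b_img h') hs hne')
      intro w hw
      exact ⟨_, hw, by simp [S3b_eg]⟩
  | @band M τ W u v h₀ hu hv huv ih =>
    obtain ⟨d, e0, he0⟩ := ih
    refine ⟨d + 1, S3b_eb hu hv huv e0, ?_⟩
    intro τ' W' h' hsub hne
    have hl' := h'.length
    match τ', h' with
    | [], _ => simp at hl'
    | t' :: τ', h' =>
      have hinit : ∀ w : Fin (d + 1) → ℝ,
          (Fin.init ((S3b_eb hu hv huv e0 w : _) : Fin (M + 1) → ℝ) : Fin M → ℝ) =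
            (e0 (Fin.init w) : Fin M → ℝ) := by
        intro w
        simp [S3b_eb]
      by_cases hτ : τ' = τ
      · subst hτ
        have ht : t' = false := by
          rcases t' with _ | _
          · rfl
          · exact absurd rfl hne
        subst ht
        cases h' with
        | @graph _ _ W₀' f' h₀' hf' =>
          have hcont : Continuous fun w : Fin (d + 1) → ℝ =>
              ((S3b_eb hu hv huv e0 w : _) : Fin (M + 1) → ℝ) :=
            continuous_subtype_val.comp (S3b_eb hu hv huv e0).continuous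
          refine S3b_lines (hcont.measurable (IsCell.graph f' h₀' hf').measurableSet) ?_
          intro z s hs s' hs'
          have h1 : Fin.init ((S3b_eb hu hv huv e0 (Fin.snoc z s) : _) : Fin (M + 1) → ℝ) ∈ W₀' ∧
              ((S3b_eb hu hv huv e0 (Fin.snoc z s) : _) : Fin (M + 1) → ℝ) (Fin.last M) =
                f' (Fin.init ((S3b_eb hu hv huv e0 (Fin.snoc z s) : _) : Fin (M + 1) → ℝ)) := hs
          have h2 : Fin.init ((S3b_eb hu hv huv e0 (Fin.snoc z s') : _) : Fin (M + 1) → ℝ) ∈ W₀' ∧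
              ((S3b_eb hu hv huv e0 (Fin.snoc z s') : _) : Fin (M + 1) → ℝ) (Fin.last M) =
                f' (Fin.init ((S3b_eb hu hv huv e0 (Fin.snoc z s') : _) : Fin (M + 1) → ℝ)) := hs'
          have h3 : Fin.init ((S3b_eb hu hv huv e0 (Fin.snoc z s) : _) : Fin (M + 1) → ℝ) =
              Fin.init ((S3b_eb hu hv huv e0 (Fin.snoc z s') : _) : Fin (M + 1) → ℝ) := by
            rw [hinit, hinit]
            simp
          have h4 : ((S3b_eb hu hv huv e0 (Fin.snoc z s) : _) : Fin (M + 1) → ℝ) =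
              ((S3b_eb hu hv huv e0 (Fin.snoc z s') : _) : Fin (M + 1) → ℝ) := by
            rw [← Fin.snoc_init_self ((S3b_eb hu hv huv e0 (Fin.snoc z s) : _) : Fin (M + 1) → ℝ),
              ← Fin.snoc_init_self ((S3b_eb hu hv huv e0 (Fin.snoc z s') : _) : Fin (M + 1) → ℝ),
              h1.2, h2.2, h3]
          have h5 := (S3b_eb hu hv huv e0).injective (Subtype.ext h4)
          have h6 := congrFun h5 (Fin.last d)
          simpa using h6
      · have hs : ((fun x : Fin (M + 1) → ℝ => (Fin.init x : Fin M → ℝ)) '' W') ⊆ W := by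
          rintro _ ⟨x, hx, rfl⟩
          exact (hsub hx).1
        refine measure_mono_null ?_ (S3b_cyl (he0 τ' _ (S3b_img h') hs hτ))
        intro w hw
        exact ⟨_, hw, hinit w⟩

end BU
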