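import Pool.Agent.Work.MP_4030f5_lc.S1
import Pool.Agent.Work.MP_4030f5_lc.S3a

/-! # S4: cell decomposition of `ℝ^M` adapted to a finite family of expressions -/

namespace BU

/-- all sign classes of `G` are cells. -/
def CellFam {M : ℕ} (G : List (Fm (Fin M))) : Prop := ∀ x, ∃ τ, IsCell M τ (cls G x)

def S4_rho (M : ℕ) : Fin (M + 1) → Option (Fin M) := fun i =>
  Fin.lastCases (motive := fun _ => Option (Fin M)) none (fun j => some j) i

def S4_rho' (M : ℕ) : Option (Fin M) → Fin (M + 1) := fun o => o.elim (Fin.last M) Fin.castSucc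

theorem S4_ext_rho {M : ℕ} (y : Fin (M + 1) → ℝ) :
    (fun i => ext (Fin.init y : Fin M → ℝ) (y (Fin.last M)) (S4_rho M i)) = y := by
  funext i
  refine Fin.lastCases ?_ (fun j => ?_) i
  · simp [S4_rho, ext]
  · simp [S4_rho, ext, Fin.init]

theorem S4_rho'_ext {M : ℕ} (y : Fin (M + 1) → ℝ) :
    (fun o => y (S4_rho' M o)) = ext (Fin.init y : Fin M → ℝ) (y (Fin.last M)) := by
  funext o
  rcases o with _ | j
  · rfl
  · rfl

/-- lower and upper barrier of a band. -/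
theorem S4_lower {M l : ℕ} {W : Set (Fin M → ℝ)} {ξ : Fin l → (Fin M → ℝ) → ℝ}
    (hc : ∀ i, ContinuousOn (ξ i) W) (hm : ∀ b ∈ W, StrictMono (fun i => ξ i b))
    (A : Finset (Fin l)) :
    ∃ u : (Fin M → ℝ) → ℝ, ContinuousOn u W ∧ (∀ b ∈ W, -1 ≤ u b) ∧
      (∀ b ∈ W, ∀ t, u b < hh t ↔ ∀ i ∈ A, ξ i b < t) ∧
      ((∀ b, u b = -1) ∨ ∃ i ∈ A, ∀ b, u b = hh (ξ i b)) := by
  rcases A.eq_empty_or_nonempty with h0 | hne
  · refine ⟨fun _ => -1, continuousOn_const, fun _ _ => le_rfl, ?_, Or.inl fun _ => rfl⟩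
    intro b _ t
    subst h0
    have := abs_lt.1 (S3a_hh_lt_one t)
    simp [this.1]
  · refine ⟨fun b => hh (ξ (A.max' hne) b), hh_continuous.comp_continuousOn (hc _),
      fun b _ => (abs_lt.1 (S3a_hh_lt_one _)).1.le, ?_, Or.inr ⟨_, A.max'_mem hne, fun _ => rfl⟩⟩
    intro b hb t
    rw [hh_strictMono.lt_iff_lt]
    constructor
    · intro h i hi
      exact lt_of_le_of_lt ((hm b hb).monotone (A.le_max' i hi)) h
    · intro h
      exact h _ (A.max'_mem hne)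

theorem S4_upper {M l : ℕ} {W : Set (Fin M → ℝ)} {ξ : Fin l → (Fin M → ℝ) → ℝ}
    (hc : ∀ i, ContinuousOn (ξ i) W) (hm : ∀ b ∈ W, StrictMono (fun i => ξ i b))
    (B : Finset (Fin l)) :
    ∃ v : (Fin M → ℝ) → ℝ, ContinuousOn v W ∧ (∀ b ∈ W, v b ≤ 1) ∧
      (∀ b ∈ W, ∀ t, hh t < v b ↔ ∀ i ∈ B, t < ξ i b) ∧
      ((∀ b, v b = 1) ∨ ∃ i ∈ B, ∀ b, v b = hh (ξ i b)) := by
  rcases B.eq_empty_or_nonempty with h0 | hne
  · refine ⟨fun _ => 1, continuousOn_const, fun _ _ => le_rfl, ?_, Or.inl fun _ => rfl⟩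
    intro b _ t
    subst h0
    have := abs_lt.1 (S3a_hh_lt_one t)
    simp [this.2]
  · refine ⟨fun b => hh (ξ (B.min' hne) b), hh_continuous.comp_continuousOn (hc _),
      fun b _ => (abs_lt.1 (S3a_hh_lt_one _)).2.le, ?_, Or.inr ⟨_, B.min'_mem hne, fun _ => rfl⟩⟩
    intro b hb t
    rw [hh_strictMono.lt_iff_lt]
    constructor
    · intro h i hi
      exact lt_of_lt_of_le h ((hm b hb).monotone (B.min'_le i hi))
    · intro h
      exact h _ (B.min'_mem hne)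

/-- the position class of a point relative to finitely many sections is a graph or a band. -/
theorem S4_pos {M l : ℕ} {τ : List Bool} {W : Set (Fin M → ℝ)} (hW : IsCell M τ W)
    {ξ : Fin l → (Fin M → ℝ) → ℝ}
    (hc : ∀ i, ContinuousOn (ξ i) W) (hm : ∀ b ∈ W, StrictMono (fun i => ξ i b))
    {b₀ : Fin M → ℝ} (hb₀ : b₀ ∈ W) (t₀ : ℝ) :
    ∃ t : Bool, IsCell (M + 1) (t :: τ) {y : Fin (M + 1) → ℝ | (Fin.init y : Fin M → ℝ) ∈ W ∧
      ((∀ i, y (Fin.last M) < ξ i (Fin.init y) ↔ t₀ < ξ i b₀) ∧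
        (∀ i, ξ i (Fin.init y) < y (Fin.last M) ↔ ξ i b₀ < t₀))} := by
  classical
  by_cases h : ∃ i₀, t₀ = ξ i₀ b₀
  · obtain ⟨i₀, hi₀⟩ := h
    refine ⟨false, ?_⟩
    have key := IsCell.graph (ξ i₀) hW (hc i₀)
    convert key using 1
    ext y
    constructor
    · rintro ⟨h1, h2, h3⟩
      refine ⟨h1, ?_⟩
      have e1 := h2 i₀
      have e2 := h3 i₀
      rw [hi₀] at e1 e2
      simp only [lt_self_iff_false, iff_false, not_lt] at e1 e2
      exact le_antisymm e2 e1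
    · rintro ⟨h1, h2⟩
      refine ⟨h1, fun i => ?_, fun i => ?_⟩
      · rw [h2, hi₀]
        exact (hm _ h1).lt_iff_lt.trans (hm _ hb₀).lt_iff_lt.symm
      · rw [h2, hi₀]
        exact (hm _ h1).lt_iff_lt.trans (hm _ hb₀).lt_iff_lt.symm
  · push Not at h
    set A : Finset (Fin l) := Finset.univ.filter fun i => ξ i b₀ < t₀ with hA
    set B : Finset (Fin l) := Finset.univ.filter fun i => t₀ < ξ i b₀ with hB
    obtain ⟨u, hu, hu1, hu2, hu3⟩ := S4_lower hc hm A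
    obtain ⟨v, hv, hv1, hv2, hv3⟩ := S4_upper hc hm B
    refine ⟨true, ?_⟩
    have hlt : ∀ b ∈ W, u b < v b := by
      intro b hb
      rcases hu3 with hu3 | ⟨i, hi, hu3⟩ <;> rcases hv3 with hv3 | ⟨j, hj, hv3⟩
      · rw [hu3, hv3]; norm_num
      · rw [hu3, hv3]; exact (abs_lt.1 (S3a_hh_lt_one _)).1
      · rw [hu3, hv3]; exact (abs_lt.1 (S3a_hh_lt_one _)).2
      · rw [hu3, hv3]
        apply hh_strictMono
        have e1 : ξ i b₀ < t₀ := by simpa [hA] using hi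
        have e2 : t₀ < ξ j b₀ := by simpa [hB] using hj
        exact (hm b hb) ((hm b₀ hb₀).lt_iff_lt.1 (e1.trans e2))
    have key := IsCell.band u v hW hu hv fun b hb => ⟨hu1 b hb, hlt b hb, hv1 b hb⟩
    convert key using 1
    ext y
    constructor
    · rintro ⟨h1, h2, h3⟩
      refine ⟨h1, (hu2 _ h1 _).2 fun i hi => ?_, (hv2 _ h1 _).2 fun i hi => ?_⟩
      · exact (h3 i).2 (by simpa [hA] using hi)
      · exact (h2 i).2 (by simpa [hB] using hi)
    · rintro ⟨h1, h2, h3⟩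
      have h2' := (hu2 _ h1 _).1 h2
      have h3' := (hv2 _ h1 _).1 h3
      refine ⟨h1, fun i => ⟨fun h4 => ?_, fun h4 => h3' i (by simpa [hB] using h4)⟩,
        fun i => ⟨fun h4 => ?_, fun h4 => h2' i (by simpa [hA] using h4)⟩⟩
      · by_contra h5
        have h6 : ξ i b₀ < t₀ := lt_of_le_of_ne (not_lt.1 h5) (Ne.symm (h i))
        exact absurd (h2' i (by simpa [hA] using h6)) (not_lt.2 h4.le)
      · by_contra h5
        have h6 : t₀ < ξ i b₀ := lt_of_le_of_ne (not_lt.1 h5) (h i)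
        exact absurd (h3' i (by simpa [hB] using h6)) (not_lt.2 h4.le)

theorem exists_cellFam {M : ℕ} (F : List (Fm (Fin M))) :
    ∃ G : List (Fm (Fin M)), F ⊆ G ∧ CellFam G := by
  induction M with
  | zero =>
    refine ⟨F, List.Subset.refl _, fun x => ⟨[], ?_⟩⟩
    have e : cls F x = Set.univ := by
      ext y
      have : y = x := Subsingleton.elim _ _
      subst this
      simp only [Set.mem_univ, iff_true]
      exact SgnEq.refl F y
    rw [e]
    exact IsCell.zero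
  | succ M ih =>
    obtain ⟨F', G, hF, hG⟩ := roots (F.map (Fm.rename (S4_rho M)))
    obtain ⟨G₀, hG₀, hcell⟩ := ih G
    refine ⟨F ++ (F'.map (Fm.rename (S4_rho' M)) ++ G₀.map (Fm.rename Fin.castSucc)),
      List.subset_append_left _ _, fun x => ?_⟩
    obtain ⟨τ, hτ⟩ := hcell (Fin.init x)
    obtain ⟨l, ξ, hc, hm, hs⟩ := hG (Fin.init x)
    have hsub : cls G₀ (Fin.init x) ⊆ cls G (Fin.init x) := fun b hb => SgnEq.mono hG₀ hb
    have hx0 : (Fin.init x : Fin M → ℝ) ∈ cls G₀ (Fin.init x) := SgnEq.refl _ _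
    obtain ⟨t, ht⟩ := S4_pos hτ (fun i => (hc i).mono hsub) (fun b hb => hm b (hsub hb)) hx0
      (x (Fin.last M))
    refine ⟨t :: τ, ?_⟩
    convert ht using 1
    ext y
    have e1 : y ∈ cls (F ++ (F'.map (Fm.rename (S4_rho' M)) ++ G₀.map (Fm.rename Fin.castSucc))) x ↔
        SgnEq F y x ∧ SgnEq F' (ext (Fin.init y : Fin M → ℝ) (y (Fin.last M)))
          (ext (Fin.init x : Fin M → ℝ) (x (Fin.last M))) ∧
          SgnEq G₀ (Fin.init y : Fin M → ℝ) (Fin.init x) := by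
      show SgnEq _ y x ↔ _
      rw [SgnEq.append, SgnEq.append, SgnEq.rename, SgnEq.rename, S4_rho'_ext, S4_rho'_ext]
      rfl
    rw [e1]
    constructor
    · rintro ⟨_, h2, h3⟩
      refine ⟨h3, ?_⟩
      exact (hs _ (hsub h3) _ (hsub hx0) _ _).2 h2
    · rintro ⟨h1, h2⟩
      have h3 := (hs _ (hsub h1) _ (hsub hx0) _ _).1 h2
      refine ⟨?_, h3, h1⟩
      have h4 := SgnEq.mono hF h3
      rw [SgnEq.rename, S4_ext_rho, S4_ext_rho] at h4
      exact h4

end BU
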