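import Pool.Agent.Work.MP_4030f5_lc.S4
import Pool.Agent.Work.MP_4030f5_lc.S2
import Pool.Agent.Work.MP_4030f5_lc.S3b
import Pool.Agent.Work.MP_4030f5_lc.Q3b

/-! # S5: good partitions -/

namespace BU

/-- the family `E` restricted to the base set `W` is closed and locally bounded at `b`. -/
def GoodAt {M k : ℕ} (W : Set (Fin M → ℝ)) (E : (Fin M → ℝ) → (Fin k → ℝ) → Prop)
    (b : Fin M → ℝ) : Prop :=
  (∀ p, ¬ E b p → ∃ ε > 0, ∀ b' ∈ W, dist b' b < ε → ∀ q, E b' q → ε ≤ dist q p) ∧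
  (∃ R : ℝ, ∃ ε > 0, ∀ b' ∈ W, dist b' b < ε → ∀ q, E b' q → ‖q‖ ≤ R)

/-! ### first order definability, auxiliary lemmas -/

theorem SA.S5a_congr {σ : Type} {s t : Set (σ → ℝ)} (hs : SA s) (h : ∀ x, x ∈ s ↔ x ∈ t) :
    SA t := by
  have : s = t := Set.ext h
  rwa [this] at hs

theorem SA.S5a_and {σ : Type} {P Q : (σ → ℝ) → Prop} (hP : SA {x | P x}) (hQ : SA {x | Q x}) :
    SA {x | P x ∧ Q x} := SA.inter hP hQ

theorem SA.S5a_or {σ : Type} {P Q : (σ → ℝ) → Prop} (hP : SA {x | P x}) (hQ : SA {x | Q x}) :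
    SA {x | P x ∨ Q x} := SA.union hP hQ

theorem SA.S5a_not {σ : Type} {P : (σ → ℝ) → Prop} (hP : SA {x | P x}) :
    SA {x | ¬ P x} := SA.compl hP

theorem SA.S5a_imp {σ : Type} {P Q : (σ → ℝ) → Prop} (hP : SA {x | P x}) (hQ : SA {x | Q x}) :
    SA {x | P x → Q x} := by
  refine SA.S5a_congr (SA.S5a_or (SA.S5a_not hP) hQ) fun x => ?_
  simp only [Set.mem_setOf_eq]
  exact imp_iff_not_or.symm

theorem SA.S5a_all {ι σ : Type} [Finite ι] {P : ι → (σ → ℝ) → Prop}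
    (hP : ∀ i, SA {x | P i x}) : SA {x | ∀ i, P i x} := by
  refine SA.S5a_congr (SA.iInter hP) fun x => ?_
  simp

theorem SA.S5a_exists_real {σ : Type} {P : (σ → ℝ) → ℝ → Prop}
    (h : SA {z : σ ⊕ Unit → ℝ | P (fun i => z (Sum.inl i)) (z (Sum.inr ()))}) :
    SA {b : σ → ℝ | ∃ t : ℝ, P b t} := by
  have h' := SA.exists (σ := σ) (τ := Unit) (P := fun b y => P b (y ())) h
  refine SA.S5a_congr h' fun b => ?_
  constructor
  · rintro ⟨y, hy⟩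
    exact ⟨y (), hy⟩
  · rintro ⟨t, ht⟩
    exact ⟨fun _ => t, ht⟩

theorem SA.S5a_lt {σ : Type} {f g : (σ → ℝ) → ℝ} (e e' : Fm σ) (he : ∀ x, e.eval x = f x)
    (he' : ∀ x, e'.eval x = g x) : SA {x : σ → ℝ | f x < g x} := by
  refine SA.S5a_congr (SA.lt e e') fun x => ?_
  simp only [Set.mem_setOf_eq, he, he']

theorem SA.S5a_var_pos {σ : Type} (i : σ) : SA {x : σ → ℝ | 0 < x i} :=
  SA.S5a_lt (Fm.const 0) (Fm.var i) (fun x => by simp [Fm.eval]) (fun x => rfl)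

theorem SA.S5a_var_nonneg {σ : Type} (i : σ) : SA {x : σ → ℝ | 0 ≤ x i} := by
  refine SA.S5a_congr (SA.le (Fm.const 0) (Fm.var i)) fun x => ?_
  simp [Fm.eval]

/-- `x i < x j + x l`. -/
theorem SA.S5a_lt_add {σ : Type} (i j l : σ) : SA {x : σ → ℝ | x i < x j + x l} :=
  SA.S5a_lt (Fm.var i) (Fm.add (Fm.var j) (Fm.var l)) (fun x => rfl) (fun x => rfl)

theorem SA.S5a_le {σ : Type} (i j : σ) : SA {x : σ → ℝ | x i ≤ x j} :=
  SA.le (Fm.var i) (Fm.var j)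

/-- `0 ≤ x i + x j`. -/
theorem SA.S5a_add_nonneg {σ : Type} (i j : σ) : SA {x : σ → ℝ | 0 ≤ x i + x j} := by
  refine SA.S5a_congr (SA.le (Fm.const 0) (Fm.add (Fm.var i) (Fm.var j))) fun x => ?_
  simp [Fm.eval]

theorem S5a_dist_lt {n : ℕ} (a b : Fin n → ℝ) {ε : ℝ} (hε : 0 < ε) :
    dist a b < ε ↔ ∀ i, a i < b i + ε ∧ b i < a i + ε := by
  rw [dist_pi_lt_iff hε]
  refine forall_congr' fun i => ?_
  rw [Real.dist_eq, abs_lt]
  constructor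
  · rintro ⟨h1, h2⟩
    constructor <;> linarith
  · rintro ⟨h1, h2⟩
    constructor <;> linarith

theorem S5a_norm_le {n : ℕ} (a : Fin n → ℝ) {R : ℝ} (hR : 0 ≤ R) :
    ‖a‖ ≤ R ↔ ∀ i, a i ≤ R ∧ 0 ≤ a i + R := by
  rw [pi_norm_le_iff_of_nonneg hR]
  refine forall_congr' fun i => ?_
  rw [Real.norm_eq_abs, abs_le]
  constructor
  · rintro ⟨h1, h2⟩
    constructor <;> linarith
  · rintro ⟨h1, h2⟩
    constructor <;> linarith

/-- the distance of two blocks of variables is less than a third variable (assumed positive). -/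
theorem SA.S5a_near {σ : Type} {n : ℕ} (r s : Fin n → σ) (l : σ) :
    SA {x : σ → ℝ | ∀ i, x (r i) < x (s i) + x l ∧ x (s i) < x (r i) + x l} :=
  SA.S5a_all fun i => SA.S5a_and (SA.S5a_lt_add _ _ _) (SA.S5a_lt_add _ _ _)

theorem SA.S5a_norm {σ : Type} {n : ℕ} (r : Fin n → σ) (l : σ) :
    SA {x : σ → ℝ | ∀ i, x (r i) ≤ x l ∧ 0 ≤ x (r i) + x l} :=
  SA.S5a_all fun i => SA.S5a_and (SA.S5a_le _ _) (SA.S5a_add_nonneg _ _)

/-- substitution of blocks of variables in a semialgebraic family. -/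
theorem SA.S5a_fam {σ : Type} {M k : ℕ} {E : (Fin M → ℝ) → (Fin k → ℝ) → Prop}
    (hE : SA {z : Fin M ⊕ Fin k → ℝ | E (fun i => z (Sum.inl i)) (fun i => z (Sum.inr i))})
    (r : Fin M → σ) (s : Fin k → σ) :
    SA {x : σ → ℝ | E (fun i => x (r i)) (fun i => x (s i))} :=
  SA.rename hE (Sum.elim r s)

theorem GoodAt.S5a_iff {M k : ℕ} (W : Set (Fin M → ℝ))
    (E : (Fin M → ℝ) → (Fin k → ℝ) → Prop) (b : Fin M → ℝ) :
    GoodAt W E b ↔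
      (∀ p : Fin k → ℝ, ¬ E b p → ∃ ε : ℝ, 0 < ε ∧ ∀ b' : Fin M → ℝ, b' ∈ W →
        (∀ i, b' i < b i + ε ∧ b i < b' i + ε) → ∀ q : Fin k → ℝ, E b' q →
          ¬ (∀ i, q i < p i + ε ∧ p i < q i + ε)) ∧
      (∃ R : ℝ, 0 ≤ R ∧ ∃ ε : ℝ, 0 < ε ∧ ∀ b' : Fin M → ℝ, b' ∈ W →
        (∀ i, b' i < b i + ε ∧ b i < b' i + ε) → ∀ q : Fin k → ℝ, E b' q →
          (∀ i, q i ≤ R ∧ 0 ≤ q i + R)) := by
  unfold GoodAt
  constructor
  · rintro ⟨h1, R, ε, hε, h2⟩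
    refine ⟨fun p hp => ?_, max R 0, le_max_right _ _, ε, hε, fun b' hb' hd q hq => ?_⟩
    · obtain ⟨ε, hε, h⟩ := h1 p hp
      refine ⟨ε, hε, fun b' hb' hd q hq hc => ?_⟩
      have := h b' hb' ((S5a_dist_lt _ _ hε).2 hd) q hq
      exact absurd ((S5a_dist_lt _ _ hε).2 hc) (not_lt.2 this)
    · exact (S5a_norm_le q (le_max_right _ _)).1
        ((h2 b' hb' ((S5a_dist_lt _ _ hε).2 hd) q hq).trans (le_max_left _ _))
  · rintro ⟨h1, R, hR, ε, hε, h2⟩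
    refine ⟨fun p hp => ?_, R, ε, hε, fun b' hb' hd q hq => ?_⟩
    · obtain ⟨ε, hε, h⟩ := h1 p hp
      refine ⟨ε, hε, fun b' hb' hd q hq => ?_⟩
      by_contra hc
      exact h b' hb' ((S5a_dist_lt _ _ hε).1 hd) q hq ((S5a_dist_lt _ _ hε).1 (not_le.1 hc))
    · exact (S5a_norm_le q hR).2 (h2 b' hb' ((S5a_dist_lt _ _ hε).1 hd) q hq)

/-- the set of bad points of a semialgebraic base set is semialgebraic. -/
theorem SA_bad {M k : ℕ} {W : Set (Fin M → ℝ)} (hW : SA W)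
    {E : (Fin M → ℝ) → (Fin k → ℝ) → Prop}
    (hE : SA {z : Fin M ⊕ Fin k → ℝ | E (fun i => z (Sum.inl i)) (fun i => z (Sum.inr i))}) :
    SA {b | b ∈ W ∧ ¬ GoodAt W E b} := by
  refine SA.S5a_and (P := fun b => b ∈ W) (by simpa using hW) (SA.S5a_not ?_)
  simp only [GoodAt.S5a_iff]
  refine SA.S5a_and ?_ ?_
  · refine SA.forall (σ := Fin M) (τ := Fin k) (P := fun b p => ¬ E b p → ∃ ε : ℝ, 0 < ε ∧
      ∀ b' : Fin M → ℝ, b' ∈ W → (∀ i, b' i < b i + ε ∧ b i < b' i + ε) →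
        ∀ q : Fin k → ℝ, E b' q → ¬ (∀ i, q i < p i + ε ∧ p i < q i + ε)) ?_
    refine SA.S5a_imp (SA.S5a_not (SA.S5a_fam hE _ _)) ?_
    refine SA.S5a_exists_real (σ := Fin M ⊕ Fin k) (P := fun z ε => 0 < ε ∧
      ∀ b' : Fin M → ℝ, b' ∈ W →
        (∀ i, b' i < z (Sum.inl i) + ε ∧ z (Sum.inl i) < b' i + ε) →
        ∀ q : Fin k → ℝ, E b' q → ¬ (∀ i, q i < z (Sum.inr i) + ε ∧ z (Sum.inr i) < q i + ε)) ?_
    refine SA.S5a_and (SA.S5a_var_pos _) ?_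
    refine SA.forall (σ := (Fin M ⊕ Fin k) ⊕ Unit) (τ := Fin M) (P := fun z b' => b' ∈ W →
        (∀ i, b' i < z (Sum.inl (Sum.inl i)) + z (Sum.inr ()) ∧
          z (Sum.inl (Sum.inl i)) < b' i + z (Sum.inr ())) →
        ∀ q : Fin k → ℝ, E b' q → ¬ (∀ i, q i < z (Sum.inl (Sum.inr i)) + z (Sum.inr ()) ∧
          z (Sum.inl (Sum.inr i)) < q i + z (Sum.inr ()))) ?_
    refine SA.S5a_imp (SA.rename hW _) (SA.S5a_imp (SA.S5a_near _ _ _) ?_)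
    refine SA.forall (σ := ((Fin M ⊕ Fin k) ⊕ Unit) ⊕ Fin M) (τ := Fin k)
      (P := fun z q => E (fun i => z (Sum.inr i)) q →
        ¬ (∀ i, q i < z (Sum.inl (Sum.inl (Sum.inr i))) + z (Sum.inl (Sum.inr ())) ∧
          z (Sum.inl (Sum.inl (Sum.inr i))) < q i + z (Sum.inl (Sum.inr ())))) ?_
    exact SA.S5a_imp (SA.S5a_fam hE _ _) (SA.S5a_not (SA.S5a_near _ _ _))
  · refine SA.S5a_exists_real (σ := Fin M) (P := fun b R => 0 ≤ R ∧ ∃ ε : ℝ, 0 < ε ∧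
      ∀ b' : Fin M → ℝ, b' ∈ W →
        (∀ i, b' i < b i + ε ∧ b i < b' i + ε) → ∀ q : Fin k → ℝ, E b' q →
          (∀ i, q i ≤ R ∧ 0 ≤ q i + R)) ?_
    refine SA.S5a_and (SA.S5a_var_nonneg _) ?_
    refine SA.S5a_exists_real (σ := Fin M ⊕ Unit) (P := fun z ε => 0 < ε ∧
      ∀ b' : Fin M → ℝ, b' ∈ W →
        (∀ i, b' i < z (Sum.inl i) + ε ∧ z (Sum.inl i) < b' i + ε) →
          ∀ q : Fin k → ℝ, E b' q →
          (∀ i, q i ≤ z (Sum.inr ()) ∧ 0 ≤ q i + z (Sum.inr ()))) ?_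
    refine SA.S5a_and (SA.S5a_var_pos _) ?_
    refine SA.forall (σ := (Fin M ⊕ Unit) ⊕ Unit) (τ := Fin M) (P := fun z b' => b' ∈ W →
        (∀ i, b' i < z (Sum.inl (Sum.inl i)) + z (Sum.inr ()) ∧
          z (Sum.inl (Sum.inl i)) < b' i + z (Sum.inr ())) →
          ∀ q : Fin k → ℝ, E b' q →
          (∀ i, q i ≤ z (Sum.inl (Sum.inr ())) ∧ 0 ≤ q i + z (Sum.inl (Sum.inr ())))) ?_
    refine SA.S5a_imp (SA.rename hW _) (SA.S5a_imp (SA.S5a_near _ _ _) ?_)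
    refine SA.forall (σ := ((Fin M ⊕ Unit) ⊕ Unit) ⊕ Fin M) (τ := Fin k)
      (P := fun z q => E (fun i => z (Sum.inr i)) q →
          (∀ i, q i ≤ z (Sum.inl (Sum.inl (Sum.inr ()))) ∧
            0 ≤ q i + z (Sum.inl (Sum.inl (Sum.inr ()))))) ?_
    exact SA.S5a_imp (SA.S5a_fam hE _ _) (SA.S5a_norm _ _)

end BU
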