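import Pool.Agent.Work.MP_4030f5_lc.S5a

/-! # S5: good partitions -/

namespace BU

open MeasureTheory

/-- if all base points in `W` are good then `E` restricted to a compact part of the base is
compact. -/
theorem compact_of_good {M k : ℕ} {W : Set (Fin M → ℝ)} {E : (Fin M → ℝ) → (Fin k → ℝ) → Prop}
    (hgood : ∀ b ∈ W, GoodAt W E b) {C : Set (Fin M → ℝ)} (hC : IsCompact C) (hCW : C ⊆ W) :
    IsCompact {p : (Fin M → ℝ) × (Fin k → ℝ) | p.1 ∈ C ∧ E p.1 p.2} := by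
  have hb : ∃ R : ℝ, ∀ b ∈ C, b ∈ W → ∀ q, E b q → ‖q‖ ≤ R := by
    refine hC.induction_on (p := fun S => ∃ R : ℝ, ∀ b ∈ S, b ∈ W → ∀ q, E b q → ‖q‖ ≤ R)
      ⟨0, fun b hb => absurd hb (Set.notMem_empty b)⟩ ?_ ?_ ?_
    · rintro s t hst ⟨R, hR⟩
      exact ⟨R, fun b hb => hR b (hst hb)⟩
    · rintro s t ⟨R, hR⟩ ⟨R', hR'⟩
      refine ⟨max R R', fun b hb hbW q hq => ?_⟩
      rcases hb with hb | hb
      · exact (hR b hb hbW q hq).trans (le_max_left _ _)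
      · exact (hR' b hb hbW q hq).trans (le_max_right _ _)
    · intro x hx
      obtain ⟨-, R, ε, hε, h⟩ := hgood x (hCW hx)
      refine ⟨Metric.ball x ε, mem_nhdsWithin_of_mem_nhds (Metric.ball_mem_nhds x hε), R,
        fun b hb hbW q hq => h b hbW (Metric.mem_ball.1 hb) q hq⟩
  obtain ⟨R, hR⟩ := hb
  have hclosed : IsClosed {p : (Fin M → ℝ) × (Fin k → ℝ) | p.1 ∈ C ∧ E p.1 p.2} := by
    refine isClosed_of_closure_subset fun p hp => ?_
    rw [Metric.mem_closure_iff] at hp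
    have hpC : p.1 ∈ C := by
      rw [← hC.isClosed.closure_eq, Metric.mem_closure_iff]
      intro ε hε
      obtain ⟨p', hp', hd⟩ := hp ε hε
      exact ⟨p'.1, hp'.1, lt_of_le_of_lt (by rw [Prod.dist_eq]; exact le_max_left _ _) hd⟩
    refine ⟨hpC, ?_⟩
    by_contra hE
    obtain ⟨h1, -⟩ := hgood p.1 (hCW hpC)
    obtain ⟨ε, hε, h⟩ := h1 p.2 hE
    obtain ⟨p', hp', hd⟩ := hp ε hε
    have hd1 : dist p.1 p'.1 < ε :=
      lt_of_le_of_lt (by rw [Prod.dist_eq]; exact le_max_left _ _) hd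
    have hd2 : dist p.2 p'.2 < ε :=
      lt_of_le_of_lt (by rw [Prod.dist_eq]; exact le_max_right _ _) hd
    rw [dist_comm] at hd1 hd2
    exact absurd (h p'.1 (hCW hp'.1) hd1 p'.2 hp'.2) (not_le.2 hd2)
  refine IsCompact.of_isClosed_subset (hC.prod (isCompact_closedBall (0 : Fin k → ℝ) R)) hclosed ?_
  rintro ⟨b, q⟩ ⟨hb, hq⟩
  refine ⟨hb, ?_⟩
  rw [mem_closedBall_zero_iff]
  exact hR b hb (hCW hb) q hq

/-! ### the boundary sets -/

/-- points of `W` over which some point of the fibre lies in an open box. -/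
def S5bBox {M k : ℕ} (W : Set (Fin M → ℝ)) (E : (Fin M → ℝ) → (Fin k → ℝ) → Prop)
    (lo hi : Fin k → ℚ) : Set (Fin M → ℝ) :=
  {b | b ∈ W ∧ ∃ q : Fin k → ℝ, E b q ∧ ∀ i, (lo i : ℝ) < q i ∧ q i < (hi i : ℝ)}

/-- points of `W` over which some point of the fibre has norm greater than `R`. -/
def S5bFar {M k : ℕ} (W : Set (Fin M → ℝ)) (E : (Fin M → ℝ) → (Fin k → ℝ) → Prop)
    (R : ℕ) : Set (Fin M → ℝ) :=
  {b | b ∈ W ∧ ∃ q : Fin k → ℝ, E b q ∧ ¬ ∀ i, q i ≤ (R : ℝ) ∧ 0 ≤ q i + (R : ℝ)}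

theorem SA.S5b_lt_rat {σ : Type} (i : σ) (c : ℚ) : SA {x : σ → ℝ | x i < (c : ℝ)} := by
  refine SA.S5a_congr (SA.lt (Fm.mul (Fm.const c.den) (Fm.var i)) (Fm.const c.num)) fun x => ?_
  have hd : (0 : ℝ) < c.den := by exact_mod_cast c.den_pos
  have : (c : ℝ) = (c.num : ℝ) / c.den := by
    exact_mod_cast (Rat.num_div_den c).symm
  rw [Set.mem_setOf_eq, Set.mem_setOf_eq, this, lt_div_iff₀ hd]
  simp [Fm.eval, mul_comm]

theorem SA.S5b_rat_lt {σ : Type} (i : σ) (c : ℚ) : SA {x : σ → ℝ | (c : ℝ) < x i} := by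
  refine SA.S5a_congr (SA.lt (Fm.const c.num) (Fm.mul (Fm.const c.den) (Fm.var i))) fun x => ?_
  have hd : (0 : ℝ) < c.den := by exact_mod_cast c.den_pos
  have : (c : ℝ) = (c.num : ℝ) / c.den := by
    exact_mod_cast (Rat.num_div_den c).symm
  rw [Set.mem_setOf_eq, Set.mem_setOf_eq, this, div_lt_iff₀ hd]
  simp [Fm.eval, mul_comm]

theorem SA.S5b_box {M k : ℕ} {W : Set (Fin M → ℝ)} (hW : SA W)
    {E : (Fin M → ℝ) → (Fin k → ℝ) → Prop}
    (hE : SA {z : Fin M ⊕ Fin k → ℝ | E (fun i => z (Sum.inl i)) (fun i => z (Sum.inr i))})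
    (lo hi : Fin k → ℚ) : SA (S5bBox W E lo hi) := by
  unfold S5bBox
  refine SA.S5a_and (P := fun b => b ∈ W) (by simpa using hW) ?_
  refine SA.exists (σ := Fin M) (τ := Fin k) (P := fun b q => E b q ∧
    ∀ i, (lo i : ℝ) < q i ∧ q i < (hi i : ℝ)) ?_
  refine SA.S5a_and (SA.S5a_fam hE _ _) (SA.S5a_all fun i => ?_)
  exact SA.S5a_and (SA.S5b_rat_lt _ _) (SA.S5b_lt_rat _ _)

theorem SA.S5b_far {M k : ℕ} {W : Set (Fin M → ℝ)} (hW : SA W)
    {E : (Fin M → ℝ) → (Fin k → ℝ) → Prop}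
    (hE : SA {z : Fin M ⊕ Fin k → ℝ | E (fun i => z (Sum.inl i)) (fun i => z (Sum.inr i))})
    (R : ℕ) : SA (S5bFar W E R) := by
  unfold S5bFar
  refine SA.S5a_and (P := fun b => b ∈ W) (by simpa using hW) ?_
  refine SA.exists (σ := Fin M) (τ := Fin k) (P := fun b q => E b q ∧
    ¬ ∀ i, q i ≤ (R : ℝ) ∧ 0 ≤ q i + (R : ℝ)) ?_
  refine SA.S5a_and (SA.S5a_fam hE _ _) (SA.S5a_not (SA.S5a_all fun i => SA.S5a_and ?_ ?_))
  · refine SA.S5a_congr (SA.le (Fm.var (Sum.inr i)) (Fm.const R)) fun x => ?_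
    simp [Fm.eval]
  · refine SA.S5a_congr (SA.le (Fm.const 0) (Fm.add (Fm.var (Sum.inr i)) (Fm.const R)))
      fun x => ?_
    simp [Fm.eval]

/-- the part of the closure of a semialgebraic subset `N` of a cell outside of `N` is a null set in
the chart. -/
theorem IsCell.S5b_null {M : ℕ} {τ : List Bool} {W : Set (Fin M → ℝ)} (hW : IsCell M τ W)
    (hSA : SA W) {d : ℕ} (e : (Fin d → ℝ) ≃ₜ W)
    (hnull : ∀ (τ' : List Bool) (W' : Set (Fin M → ℝ)),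
      IsCell M τ' W' → W' ⊆ W → τ' ≠ τ →
        volume {u : Fin d → ℝ | ((e u : W) : Fin M → ℝ) ∈ W'} = 0)
    {N : Set (Fin M → ℝ)} (hN : SA N) (hNW : N ⊆ W) :
    volume {u : Fin d → ℝ | ((e u : W) : Fin M → ℝ) ∈ closure N ∧
      ((e u : W) : Fin M → ℝ) ∉ N} = 0 := by
  obtain ⟨FN, hFN⟩ := hN
  obtain ⟨FW, hFW⟩ := hSA
  obtain ⟨G, hG, hcell⟩ := exists_cellFam (FN ++ FW)
  have hGN : FN ⊆ G := fun x hx => hG (List.mem_append_left _ hx)
  have hGW : FW ⊆ G := fun x hx => hG (List.mem_append_right _ hx)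
  set S : Set (Set (Fin M → ℝ)) := {c | c ∈ Set.range (fun x : Fin M → ℝ => cls G x) ∧ c ⊆ W ∧
    ∃ τ', τ' ≠ τ ∧ IsCell M τ' c} with hS
  have hSfin : S.Finite := (finite_cls G).subset fun c hc => hc.1
  have hzero : volume (⋃ c ∈ S, {u : Fin d → ℝ | ((e u : W) : Fin M → ℝ) ∈ c}) = 0 := by
    rw [measure_biUnion_null_iff hSfin.countable]
    rintro c ⟨-, hcW, τ', hne, hc⟩
    exact hnull τ' c hc hcW hne
  refine measure_mono_null ?_ hzero
  rintro u ⟨hu1, hu2⟩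
  simp only [Set.mem_iUnion]
  have hmem : ((e u : W) : Fin M → ℝ) ∈ cls G (e u : Fin M → ℝ) := SgnEq.refl _ _
  refine ⟨cls G (e u : Fin M → ℝ), ⟨⟨_, rfl⟩, ?_, ?_⟩, hmem⟩
  · intro y hy
    exact (hFW _ _ (SgnEq.mono hGW hy)).2 (e u).2
  · have hcW : cls G (e u : Fin M → ℝ) ⊆ W := fun y hy =>
      (hFW _ _ (SgnEq.mono hGW hy)).2 (e u).2
    obtain ⟨τ', hτ'⟩ := hcell (e u : Fin M → ℝ)
    refine ⟨τ', ?_, hτ'⟩
    rintro rfl
    obtain ⟨U, hU, hUe⟩ := hW.open_of_same hτ' hcW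
    have huU : ((e u : W) : Fin M → ℝ) ∈ U := by
      rw [hUe] at hmem
      exact hmem.2
    obtain ⟨y, hyU, hyN⟩ := mem_closure_iff.1 hu1 U hU huU
    have hy : y ∈ cls G (e u : Fin M → ℝ) := by
      rw [hUe]
      exact ⟨hNW hyN, hyU⟩
    exact hu2 ((hFN _ _ (SgnEq.mono hGN hy)).1 hyN)

theorem S5b_box_open {k : ℕ} (lo hi : Fin k → ℚ) :
    IsOpen {q : Fin k → ℝ | ∀ i, (lo i : ℝ) < q i ∧ q i < (hi i : ℝ)} := by
  have : {q : Fin k → ℝ | ∀ i, (lo i : ℝ) < q i ∧ q i < (hi i : ℝ)} =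
      ⋂ i, {q : Fin k → ℝ | (lo i : ℝ) < q i ∧ q i < (hi i : ℝ)} := by
    ext q
    simp
  rw [this]
  refine isOpen_iInter_of_finite fun i => ?_
  exact (isOpen_lt continuous_const (continuous_apply i)).inter
    (isOpen_lt (continuous_apply i) continuous_const)

/-- a bad point lies in the closure of one of countably many boundary sets, but not in the set. -/
theorem S5b_bad {M k : ℕ} {W : Set (Fin M → ℝ)} {E : (Fin M → ℝ) → (Fin k → ℝ) → Prop}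
    {b : Fin M → ℝ} (hcomp : IsCompact {p | E b p}) (hbad : ¬ GoodAt W E b) :
    (∃ lo hi : Fin k → ℚ, b ∈ closure (S5bBox W E lo hi) ∧ b ∉ S5bBox W E lo hi) ∨
    (∃ R : ℕ, b ∈ closure (S5bFar W E R) ∧ b ∉ S5bFar W E R) := by
  unfold GoodAt at hbad
  rw [not_and_or] at hbad
  rcases hbad with h | h
  · left
    push Not at h
    obtain ⟨p, hp, h⟩ := h
    have hopen : IsOpen {q : Fin k → ℝ | ¬ E b q} := hcomp.isClosed.isOpen_compl
    obtain ⟨δ, hδ, hball⟩ := Metric.isOpen_iff.1 hopen p hp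
    have hlo : ∀ i, ∃ c : ℚ, p i - δ < (c : ℝ) ∧ (c : ℝ) < p i := fun i =>
      exists_rat_btwn (by linarith)
    have hhi : ∀ i, ∃ c : ℚ, p i < (c : ℝ) ∧ (c : ℝ) < p i + δ := fun i =>
      exists_rat_btwn (by linarith)
    choose lo hlo1 hlo2 using hlo
    choose hi hhi1 hhi2 using hhi
    refine ⟨lo, hi, ?_, ?_⟩
    · obtain ⟨η, hη, hη'⟩ := Metric.isOpen_iff.1 (S5b_box_open lo hi) p
        (fun i => ⟨hlo2 i, hhi1 i⟩)
      rw [Metric.mem_closure_iff]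
      intro ε hε
      obtain ⟨b', hb', hd, q, hq, hdq⟩ := h (min ε η) (lt_min hε hη)
      refine ⟨b', ⟨hb', q, hq, hη' ?_⟩, ?_⟩
      · exact Metric.mem_ball.2 (lt_of_lt_of_le hdq (min_le_right _ _))
      · rw [dist_comm]
        exact lt_of_lt_of_le hd (min_le_left _ _)
    · rintro ⟨-, q, hq, hbox⟩
      have hqball : q ∈ Metric.ball p δ := by
        rw [Metric.mem_ball, dist_pi_lt_iff hδ]
        intro i
        rw [Real.dist_eq, abs_lt]
        constructor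
        · linarith [hlo1 i, (hbox i).1]
        · linarith [hhi2 i, (hbox i).2]
      exact hball hqball hq
  · right
    push Not at h
    obtain ⟨R, hR⟩ := hcomp.isBounded.exists_norm_le
    obtain ⟨n, hn⟩ := exists_nat_ge (max R 0)
    refine ⟨n, ?_, ?_⟩
    · rw [Metric.mem_closure_iff]
      intro ε hε
      obtain ⟨b', hb', hd, q, hq, hlt⟩ := h (n : ℝ) ε hε
      refine ⟨b', ⟨hb', q, hq, fun hc => ?_⟩, by rwa [dist_comm]⟩
      exact absurd ((S5a_norm_le q (Nat.cast_nonneg n)).2 hc) (not_le.2 hlt)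
    · rintro ⟨-, q, hq, hc⟩
      exact hc ((S5a_norm_le q (Nat.cast_nonneg n)).1
        ((hR q hq).trans ((le_max_left _ _).trans hn)))

/-- a cell all of whose points are bad points of a bigger cell `W` has another type. -/
theorem bad_type_ne {M k : ℕ} {τ τ' : List Bool} {W W' : Set (Fin M → ℝ)}
    (hW : IsCell M τ W) (hW' : IsCell M τ' W') (hSA : SA W)
    {E : (Fin M → ℝ) → (Fin k → ℝ) → Prop}
    (hE : SA {z : Fin M ⊕ Fin k → ℝ | E (fun i => z (Sum.inl i)) (fun i => z (Sum.inr i))})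
    (hcomp : ∀ b ∈ W, IsCompact {p | E b p}) (hsub : W' ⊆ W)
    (hbad : ∀ b ∈ W', ¬ GoodAt W E b) : τ' ≠ τ := by
  rintro rfl
  obtain ⟨U, hU, hUe⟩ := hW.open_of_same hW' hsub
  obtain ⟨d, e, hnull⟩ := hW.chart
  set A : Set (Fin d → ℝ) := {u | ((e u : W) : Fin M → ℝ) ∈ U} with hA
  have hAopen : IsOpen A := hU.preimage (continuous_subtype_val.comp e.continuous)
  have hAW : ∀ u ∈ A, ((e u : W) : Fin M → ℝ) ∈ W' := fun u hu => by
    rw [hUe]
    exact ⟨(e u).2, hu⟩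
  have hAne : A.Nonempty := by
    obtain ⟨w, hw⟩ := hW'.nonempty
    refine ⟨e.symm ⟨w, hsub hw⟩, ?_⟩
    rw [hA, Set.mem_setOf_eq, Homeomorph.apply_symm_apply]
    rw [hUe] at hw
    exact hw.2
  have hpos : 0 < volume A := hAopen.measure_pos volume hAne
  refine absurd ?_ hpos.ne'
  have h1 : volume (⋃ z : (Fin k → ℚ) × (Fin k → ℚ), {u : Fin d → ℝ |
      ((e u : W) : Fin M → ℝ) ∈ closure (S5bBox W E z.1 z.2) ∧
      ((e u : W) : Fin M → ℝ) ∉ S5bBox W E z.1 z.2}) = 0 := by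
    refine measure_iUnion_null fun z => ?_
    exact hW.S5b_null hSA e hnull (SA.S5b_box hSA hE z.1 z.2) (fun b hb => hb.1)
  have h2 : volume (⋃ R : ℕ, {u : Fin d → ℝ |
      ((e u : W) : Fin M → ℝ) ∈ closure (S5bFar W E R) ∧
      ((e u : W) : Fin M → ℝ) ∉ S5bFar W E R}) = 0 := by
    refine measure_iUnion_null fun R => ?_
    exact hW.S5b_null hSA e hnull (SA.S5b_far hSA hE R) (fun b hb => hb.1)
  refine measure_mono_null ?_ (measure_union_null h1 h2)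
  intro u hu
  rcases S5b_bad (hcomp _ (e u).2) (hbad _ (hAW u hu)) with ⟨lo, hi, hc, hn⟩ | ⟨R, hc, hn⟩
  · exact Or.inl (Set.mem_iUnion.2 ⟨(lo, hi), hc, hn⟩)
  · exact Or.inr (Set.mem_iUnion.2 ⟨R, hc, hn⟩)

end BU
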