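import Pool.Agent.Work.MP_4030f5_lc.S5b

/-! # S5: good partitions -/

namespace BU

theorem GoodAt.S5c_mono {M k : ℕ} {W W' : Set (Fin M → ℝ)}
    {E : (Fin M → ℝ) → (Fin k → ℝ) → Prop} {b : Fin M → ℝ} (hsub : W' ⊆ W)
    (h : GoodAt W E b) : GoodAt W' E b := by
  obtain ⟨h1, R, ε, hε, h2⟩ := h
  refine ⟨fun p hp => ?_, R, ε, hε, fun b' hb' => h2 b' (hsub hb')⟩
  obtain ⟨ε, hε, h⟩ := h1 p hp
  exact ⟨ε, hε, fun b' hb' => h b' (hsub hb')⟩

/-- a refinement compatible with the bad sets of all classes of `G`. -/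
theorem S5c_step {M k : ℕ} {E : (Fin M → ℝ) → (Fin k → ℝ) → Prop}
    (hE : SA {z : Fin M ⊕ Fin k → ℝ | E (fun i => z (Sum.inl i)) (fun i => z (Sum.inr i))})
    (G : List (Fm (Fin M))) :
    ∃ G' : List (Fm (Fin M)), G ⊆ G' ∧ CellFam G' ∧ ∀ x y z, SgnEq G' y z →
      ((y ∈ cls G x ∧ ¬ GoodAt (cls G x) E y) ↔ (z ∈ cls G x ∧ ¬ GoodAt (cls G x) E z)) := by
  have hbad : ∀ x : Fin M → ℝ, ∃ F : List (Fm (Fin M)), ∀ y z, SgnEq F y z →
      ((y ∈ cls G x ∧ ¬ GoodAt (cls G x) E y) ↔ (z ∈ cls G x ∧ ¬ GoodAt (cls G x) E z)) :=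
    fun x => SA_bad (SA.cls G x) hE
  have hfam : ∀ c : Set (Fin M → ℝ), ∃ F : List (Fm (Fin M)),
      c ∈ Set.range (fun x : Fin M → ℝ => cls G x) → ∀ y z, SgnEq F y z →
      ((y ∈ c ∧ ¬ GoodAt c E y) ↔ (z ∈ c ∧ ¬ GoodAt c E z)) := by
    intro c
    by_cases hc : c ∈ Set.range (fun x : Fin M → ℝ => cls G x)
    · obtain ⟨x, rfl⟩ := hc
      obtain ⟨F, hF⟩ := hbad x
      exact ⟨F, fun _ => hF⟩
    · exact ⟨[], fun h => absurd h hc⟩
  choose fam hfam using hfam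
  obtain ⟨G', hG', hcell⟩ := exists_cellFam (G ++ (finite_cls G).toFinset.toList.flatMap fam)
  refine ⟨G', fun e he => hG' (List.mem_append_left _ he), hcell, fun x y z hyz => ?_⟩
  have hx : cls G x ∈ Set.range (fun x : Fin M → ℝ => cls G x) := ⟨x, rfl⟩
  refine hfam (cls G x) hx y z (SgnEq.mono (fun e he => hG' (List.mem_append_right _ ?_)) hyz)
  rw [List.mem_flatMap]
  exact ⟨cls G x, by simpa using ⟨x, rfl⟩, he⟩

theorem S5c_iter {M k : ℕ} {V : Set (Fin M → ℝ)}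
    {E : (Fin M → ℝ) → (Fin k → ℝ) → Prop}
    (hE : SA {z : Fin M ⊕ Fin k → ℝ | E (fun i => z (Sum.inl i)) (fun i => z (Sum.inr i))})
    (hcomp : ∀ b ∈ V, IsCompact {p | E b p}) (F0 : List (Fm (Fin M)))
    (hF0 : ∀ x y, SgnEq F0 x y → (x ∈ V ↔ y ∈ V)) (i : ℕ) :
    ∃ G : List (Fm (Fin M)), F0 ⊆ G ∧ CellFam G ∧ ∀ x ∈ V,
      (∀ b ∈ cls G x, GoodAt (cls G x) E b) ∨
        ∃ τ, IsCell M τ (cls G x) ∧ cdim τ + i ≤ M := by
  induction i with
  | zero =>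
    obtain ⟨G, hG, hcell⟩ := exists_cellFam F0
    refine ⟨G, hG, hcell, fun x _ => Or.inr ?_⟩
    obtain ⟨τ, hτ⟩ := hcell x
    refine ⟨τ, hτ, ?_⟩
    have h1 : cdim τ ≤ τ.length := List.count_le_length
    rw [hτ.length] at h1
    simpa using h1
  | succ i ih =>
    obtain ⟨G, hF0G, hcell, hG⟩ := ih
    obtain ⟨G', hGG', hcell', hG'⟩ := S5c_step hE G
    refine ⟨G', fun e he => hGG' (hF0G he), hcell', fun x hx => ?_⟩
    have hsub : cls G' x ⊆ cls G x := fun y hy => SgnEq.mono hGG' hy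
    rcases hG x hx with hgood | ⟨τ, hτ, hdim⟩
    · exact Or.inl fun b hb => (hgood b (hsub hb)).S5c_mono hsub
    · by_cases hbx : x ∈ cls G x ∧ ¬ GoodAt (cls G x) E x
      · right
        have hall : ∀ b ∈ cls G' x, ¬ GoodAt (cls G x) E b := fun b hb =>
          ((hG' x b x hb).2 hbx).2
        obtain ⟨τ', hτ'⟩ := hcell' x
        have hV : cls G x ⊆ V := fun y hy =>
          (hF0 y x (SgnEq.mono hF0G hy)).2 hx
        have hne := bad_type_ne hτ hτ' (SA.cls G x) hE (fun b hb => hcomp b (hV hb)) hsub hall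
        have hlt := IsCell.dim_lt hτ hτ' hsub hne
        exact ⟨τ', hτ', by omega⟩
      · left
        intro b hb
        have h1 := (hG' x b x hb).not.2 hbx
        rw [not_and, not_not] at h1
        exact (h1 (hsub hb)).S5c_mono hsub

/-- Good partition: every sign class of `G` inside `V` is homeomorphic to some `ℝ^d`, the family
is cylindrical over it, and compact over its compact subsets. -/
theorem good_partition {M k : ℕ} {V : Set (Fin M → ℝ)} (hV : SA V)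
    {E : (Fin M → ℝ) → (Fin k → ℝ) → Prop}
    (hE : SA {z : Fin M ⊕ Fin k → ℝ | E (fun i => z (Sum.inl i)) (fun i => z (Sum.inr i))})
    (hcomp : ∀ b ∈ V, IsCompact {p | E b p}) (F : List (Fm (Fin M))) :
    ∃ G : List (Fm (Fin M)), F ⊆ G ∧ ∀ x ∈ V, cls G x ⊆ V ∧
      (∃ d : ℕ, Nonempty ((Fin d → ℝ) ≃ₜ cls G x)) ∧
      Cyl k (cls G x) (fun b y => E (b : Fin M → ℝ) y) ∧
      ∀ C ⊆ cls G x, IsCompact C →
        IsCompact {p : (Fin M → ℝ) × (Fin k → ℝ) | p.1 ∈ C ∧ E p.1 p.2} := by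
  obtain ⟨FV, hFV⟩ := hV
  obtain ⟨Gc, hGc⟩ := cyl_exists E hE
  obtain ⟨G, hG, hcell, hgood⟩ := S5c_iter hE hcomp (F ++ (FV ++ Gc))
    (fun x y h => hFV x y (SgnEq.append.1 (SgnEq.append.1 h).2).1) (M + 1)
  have hFG : F ⊆ G := fun e he => hG (List.mem_append_left _ he)
  have hVG : FV ⊆ G := fun e he => hG (List.mem_append_right _ (List.mem_append_left _ he))
  have hcG : Gc ⊆ G := fun e he => hG (List.mem_append_right _ (List.mem_append_right _ he))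
  refine ⟨G, hFG, fun x hx => ⟨fun y hy => (hFV y x (SgnEq.mono hVG hy)).2 hx, ?_, ?_, ?_⟩⟩
  · obtain ⟨τ, hτ⟩ := hcell x
    obtain ⟨d, e, -⟩ := hτ.chart
    exact ⟨d, ⟨e⟩⟩
  · have hsub : cls G x ⊆ cls Gc x := fun y hy => SgnEq.mono hcG hy
    exact (hGc x).pullback (Set.inclusion hsub) (continuous_inclusion hsub)
  · intro C hC hCc
    have hg : ∀ b ∈ cls G x, GoodAt (cls G x) E b := by
      rcases hgood x hx with h | ⟨τ, -, h⟩
      · exact h
      · omega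
    exact compact_of_good hg hCc hC

end BU
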