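import Pool.Agent.Work.MP_4030f5_lc.S5c

/-! # S6: compatible good partitions of the spaces of `r`-tuples of parameters -/

namespace BU

theorem Fm.S6_rename_rename {σ τ υ : Type} (r : σ → τ) (s : τ → υ) (e : Fm σ) :
    (e.rename r).rename s = e.rename (fun i => s (r i)) := by
  induction e with
  | var i => rfl
  | const c => rfl
  | add e f he hf => simp only [Fm.rename, he, hf]
  | mul e f he hf => simp only [Fm.rename, he, hf]

theorem Fm.S6_rename_id {σ : Type} (e : Fm σ) : e.rename (fun i => i) = e := by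
  induction e with
  | var i => rfl
  | const c => rfl
  | add e f he hf => simp only [Fm.rename, he, hf]
  | mul e f he hf => simp only [Fm.rename, he, hf]

/-- good partitions over arbitrary finite sets of variables. -/
theorem S6_good_partition {k : ℕ} {σ : Type} [Fintype σ] {V : Set (σ → ℝ)} (hV : SA V)
    {E : (σ → ℝ) → (Fin k → ℝ) → Prop}
    (hE : SA {z : σ ⊕ Fin k → ℝ | E (fun i => z (Sum.inl i)) (fun i => z (Sum.inr i))})
    (hcomp : ∀ b ∈ V, IsCompact {p | E b p}) (F : List (Fm σ)) :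
    ∃ G : List (Fm σ), F ⊆ G ∧ ∀ x ∈ V, cls G x ⊆ V ∧
      (∃ d : ℕ, Nonempty ((Fin d → ℝ) ≃ₜ cls G x)) ∧
      Cyl k (cls G x) (fun b y => E (b : σ → ℝ) y) ∧
      ∀ C ⊆ cls G x, IsCompact C →
        IsCompact {p : (σ → ℝ) × (Fin k → ℝ) | p.1 ∈ C ∧ E p.1 p.2} := by
  let e : σ ≃ Fin (Fintype.card σ) := Fintype.equivFin σ
  let h : (σ → ℝ) ≃ₜ (Fin (Fintype.card σ) → ℝ) :=
    { toFun := fun x i => x (e.symm i)
      invFun := fun y s => y (e s)
      left_inv := fun x => by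
        funext s
        simp
      right_inv := fun y => by
        funext i
        simp
      continuous_toFun := continuous_pi fun i => continuous_apply _
      continuous_invFun := continuous_pi fun i => continuous_apply _ }
  have hV' : SA {y : Fin (Fintype.card σ) → ℝ | h.symm y ∈ V} := SA.rename hV e
  have hE' : SA {z : Fin (Fintype.card σ) ⊕ Fin k → ℝ |
      (fun (y : Fin (Fintype.card σ) → ℝ) (p : Fin k → ℝ) => E (h.symm y) p)
        (fun i => z (Sum.inl i)) (fun i => z (Sum.inr i))} :=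
    SA.rename hE (Sum.elim (fun s => Sum.inl (e s)) Sum.inr)
  obtain ⟨G', hF, hG'⟩ := good_partition hV' hE' (fun b hb => hcomp _ hb)
    (F.map (Fm.rename e))
  refine ⟨G'.map (Fm.rename e.symm), ?_, fun x hx => ?_⟩
  · intro f hf
    rw [List.mem_map]
    refine ⟨f.rename e, hF (List.mem_map.2 ⟨f, hf, rfl⟩), ?_⟩
    rw [Fm.S6_rename_rename]
    have : (fun i => e.symm (e i)) = fun i : σ => i := by
      funext i
      simp
    rw [this, Fm.S6_rename_id]
  · have hcls : ∀ y, y ∈ cls (G'.map (Fm.rename e.symm)) x ↔ h y ∈ cls G' (h x) := fun y =>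
      SgnEq.rename
    have hx' : h x ∈ {y : Fin (Fintype.card σ) → ℝ | h.symm y ∈ V} := by
      rw [Set.mem_setOf_eq, Homeomorph.symm_apply_apply]
      exact hx
    obtain ⟨h1, ⟨d, ⟨c⟩⟩, h3, h4⟩ := hG' (h x) hx'
    have hsub : ∀ y : cls (G'.map (Fm.rename e.symm)) x, h y ∈ cls G' (h x) := fun y =>
      (hcls y).1 y.2
    refine ⟨?_, ⟨d, ⟨c.trans (Homeomorph.subtype h hcls).symm⟩⟩, ?_, ?_⟩
    · intro y hy
      have := h1 ((hcls y).1 hy)
      rwa [Set.mem_setOf_eq, Homeomorph.symm_apply_apply] at this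
    · have h5 := h3.pullback (fun y : cls (G'.map (Fm.rename e.symm)) x =>
        (⟨h y, hsub y⟩ : cls G' (h x)))
        ((h.continuous.comp continuous_subtype_val).subtype_mk _)
      simpa only [Homeomorph.symm_apply_apply] using h5
    · intro C hC hCc
      have h5 := h4 (h '' C) (by
        rintro _ ⟨y, hy, rfl⟩
        exact (hcls y).1 (hC hy)) (hCc.image h.continuous)
      have h6 := h5.image (f := fun p : (Fin (Fintype.card σ) → ℝ) × (Fin k → ℝ) =>
        ((h.symm p.1, p.2) : (σ → ℝ) × (Fin k → ℝ)))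
        ((h.symm.continuous.comp continuous_fst).prodMk continuous_snd)
      convert h6 using 1
      ext ⟨b, p⟩
      simp only [Set.mem_setOf_eq, Set.mem_image, Prod.mk.injEq, Prod.exists]
      constructor
      · rintro ⟨hb, hp⟩
        exact ⟨h b, p, ⟨⟨b, hb, rfl⟩, by rwa [Homeomorph.symm_apply_apply]⟩,
          Homeomorph.symm_apply_apply _ _, rfl⟩
      · rintro ⟨y, p', ⟨⟨b', hb', rfl⟩, hp⟩, hy, rfl⟩
        rw [Homeomorph.symm_apply_apply] at hy hp
        subst hy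
        exact ⟨hb', hp⟩

theorem S6_compact_iff {k : ℕ} (s : Set (Fin k → ℝ)) :
    IsCompact s ↔ (∀ p : Fin k → ℝ, ¬ p ∈ s → ∃ ε : ℝ, 0 < ε ∧ ∀ q : Fin k → ℝ, q ∈ s →
        ¬ (∀ i, q i < p i + ε ∧ p i < q i + ε)) ∧
      (∃ R : ℝ, 0 ≤ R ∧ ∀ q : Fin k → ℝ, q ∈ s → ∀ i, q i ≤ R ∧ 0 ≤ q i + R) := by
  rw [Metric.isCompact_iff_isClosed_bounded]
  refine and_congr ?_ ?_
  · rw [← isOpen_compl_iff, Metric.isOpen_iff]
    refine forall_congr' fun p => ?_
    refine imp_congr Iff.rfl ?_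
    refine exists_congr fun ε => ?_
    refine and_congr_right fun hε => ?_
    constructor
    · intro h q hq hc
      exact h ((S5a_dist_lt q p hε).2 hc) hq
    · intro h q hq hqs
      exact h q hqs ((S5a_dist_lt q p hε).1 hq)
  · constructor
    · intro h
      obtain ⟨R, hR⟩ := h.exists_norm_le
      exact ⟨max R 0, le_max_right _ _, fun q hq =>
        (S5a_norm_le q (le_max_right _ _)).1 ((hR q hq).trans (le_max_left _ _))⟩
    · rintro ⟨R, hR0, hR⟩
      exact (isBounded_iff_forall_norm_le).2 ⟨R, fun q hq => (S5a_norm_le q hR0).2 (hR q hq)⟩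

theorem S6_SA_compact {m k : ℕ} {E : (Fin m → ℝ) → (Fin k → ℝ) → Prop}
    (hE : SA {z : Fin m ⊕ Fin k → ℝ | E (fun i => z (Sum.inl i)) (fun i => z (Sum.inr i))}) :
    SA {a : Fin m → ℝ | IsCompact {p | E a p}} := by
  simp only [S6_compact_iff, Set.mem_setOf_eq]
  refine SA.S5a_and ?_ ?_
  · refine SA.forall (σ := Fin m) (τ := Fin k) (P := fun b p => ¬ E b p → ∃ ε : ℝ, 0 < ε ∧
        ∀ q : Fin k → ℝ, E b q → ¬ (∀ i, q i < p i + ε ∧ p i < q i + ε)) ?_
    refine SA.S5a_imp (SA.S5a_not (SA.S5a_fam hE _ _)) ?_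
    refine SA.S5a_exists_real (σ := Fin m ⊕ Fin k) (P := fun z ε => 0 < ε ∧
        ∀ q : Fin k → ℝ, E (fun i => z (Sum.inl i)) q →
          ¬ (∀ i, q i < z (Sum.inr i) + ε ∧ z (Sum.inr i) < q i + ε)) ?_
    refine SA.S5a_and (SA.S5a_var_pos _) ?_
    refine SA.forall (σ := (Fin m ⊕ Fin k) ⊕ Unit) (τ := Fin k) (P := fun z q =>
        E (fun i => z (Sum.inl (Sum.inl i))) q →
          ¬ (∀ i, q i < z (Sum.inl (Sum.inr i)) + z (Sum.inr ()) ∧
            z (Sum.inl (Sum.inr i)) < q i + z (Sum.inr ()))) ?_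
    exact SA.S5a_imp (SA.S5a_fam hE _ _) (SA.S5a_not (SA.S5a_near _ _ _))
  · refine SA.S5a_exists_real (σ := Fin m) (P := fun b R => 0 ≤ R ∧
      ∀ q : Fin k → ℝ, E b q → (∀ i, q i ≤ R ∧ 0 ≤ q i + R)) ?_
    refine SA.S5a_and (SA.S5a_var_nonneg _) ?_
    refine SA.forall (σ := Fin m ⊕ Unit) (τ := Fin k) (P := fun z q =>
        E (fun i => z (Sum.inl i)) q → (∀ i, q i ≤ z (Sum.inr ()) ∧ 0 ≤ q i + z (Sum.inr ()))) ?_
    exact SA.S5a_imp (SA.S5a_fam hE _ _) (SA.S5a_norm _ _)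

/-- one step: a partition of the space of `r`-tuples refining a given family. -/
theorem S6_one {k m : ℕ} (E : (Fin m → ℝ) → (Fin k → ℝ) → Prop)
    (hE : SA {z : Fin m ⊕ Fin k → ℝ | E (fun i => z (Sum.inl i)) (fun i => z (Sum.inr i))})
    (r : ℕ) (F : List (Fm (Fin r × Fin m))) :
    ∃ G : List (Fm (Fin r × Fin m)), F ⊆ G ∧ ∀ x : Fin r × Fin m → ℝ,
      (∀ j, IsCompact {p | E (fun i => x (j, i)) p}) →
      (∃ d : ℕ, Nonempty ((Fin d → ℝ) ≃ₜ cls G x)) ∧
      (∀ y ∈ cls G x, ∀ j, IsCompact {p | E (fun i => y (j, i)) p}) ∧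
      Cyl k (cls G x) (fun b p => ∀ j, E (fun i => (b : Fin r × Fin m → ℝ) (j, i)) p) ∧
      (0 < r → ∀ C ⊆ cls G x, IsCompact C →
        IsCompact {p : (Fin r × Fin m → ℝ) × (Fin k → ℝ) |
          p.1 ∈ C ∧ ∀ j, E (fun i => p.1 (j, i)) p.2}) := by
  have hV : SA {x : Fin r × Fin m → ℝ | ∀ j, IsCompact {p | E (fun i => x (j, i)) p}} :=
    SA.S5a_all fun j => SA.rename (S6_SA_compact hE) (fun i => (j, i))
  have hEr : SA {z : (Fin r × Fin m) ⊕ Fin k → ℝ |
      (fun (b : Fin r × Fin m → ℝ) (p : Fin k → ℝ) => ∀ j, E (fun i => b (j, i)) p)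
        (fun i => z (Sum.inl i)) (fun i => z (Sum.inr i))} :=
    SA.S5a_all fun j => SA.S5a_fam hE (fun i => Sum.inl (j, i)) Sum.inr
  rcases Nat.eq_zero_or_pos r with hr | hr
  · obtain ⟨Gc, hGc⟩ := cyl_exists
      (fun (b : Fin r × Fin m → ℝ) (p : Fin k → ℝ) => ∀ j, E (fun i => b (j, i)) p) hEr
    obtain ⟨G, hG, h⟩ := S6_good_partition hV (E := fun _ (_ : Fin k → ℝ) => False)
      (SA.empty) (fun b _ => by
        have : {p : Fin k → ℝ | False} = ∅ := by
          ext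
          simp
        rw [this]
        exact isCompact_empty) (F ++ Gc)
    refine ⟨G, fun e he => hG (List.mem_append_left _ he), fun x hx => ?_⟩
    obtain ⟨h1, h2, -, -⟩ := h x hx
    refine ⟨h2, fun y hy => h1 hy, ?_, fun h0 => by omega⟩
    have hsub : cls G x ⊆ cls Gc x := fun y hy =>
      SgnEq.mono (fun e he => hG (List.mem_append_right _ he)) hy
    exact (hGc x).pullback (Set.inclusion hsub) (continuous_inclusion hsub)
  · have hcomp : ∀ b ∈ {x : Fin r × Fin m → ℝ | ∀ j, IsCompact {p | E (fun i => x (j, i)) p}},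
        IsCompact {p | ∀ j, E (fun i => b (j, i)) p} := by
      intro b hb
      refine (hb ⟨0, hr⟩).of_isClosed_subset ?_ (fun p hp => hp ⟨0, hr⟩)
      have : {p : Fin k → ℝ | ∀ j, E (fun i => b (j, i)) p} =
          ⋂ j, {p | E (fun i => b (j, i)) p} := by
        ext p
        simp
      rw [this]
      exact isClosed_iInter fun j => (hb j).isClosed
    obtain ⟨G, hG, h⟩ := S6_good_partition hV hEr hcomp F
    refine ⟨G, hG, fun x hx => ?_⟩
    obtain ⟨h1, h2, h3, h4⟩ := h x hx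
    exact ⟨h2, fun y hy => h1 hy, h3, fun _ => h4⟩

/-- the compatible families, by recursion. -/
noncomputable def S6G {m : ℕ}
    (H : (r : ℕ) → List (Fm (Fin r × Fin m)) → List (Fm (Fin r × Fin m))) (r : ℕ) :
    List (Fm (Fin r × Fin m)) :=
  H r ((List.finRange r).flatMap fun r' : Fin r =>
    (Finset.univ : Finset (Fin (r' : ℕ) → Fin r)).toList.flatMap fun ι =>
      (S6G H r').map (Fm.rename fun z => (ι z.1, z.2)))
termination_by r
decreasing_by exact r'.isLt

theorem types_exist {k m : ℕ} (E : (Fin m → ℝ) → (Fin k → ℝ) → Prop)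
    (hE : SA {z : Fin m ⊕ Fin k → ℝ | E (fun i => z (Sum.inl i)) (fun i => z (Sum.inr i))}) :
    ∃ G : (r : ℕ) → List (Fm (Fin r × Fin m)), ∀ (r : ℕ) (x : Fin r × Fin m → ℝ),
      (∀ j, IsCompact {p | E (fun i => x (j, i)) p}) →
      (∃ d : ℕ, Nonempty ((Fin d → ℝ) ≃ₜ cls (G r) x)) ∧
      (∀ y ∈ cls (G r) x, ∀ j, IsCompact {p | E (fun i => y (j, i)) p}) ∧
      Cyl k (cls (G r) x) (fun b p => ∀ j, E (fun i => (b : Fin r × Fin m → ℝ) (j, i)) p) ∧
      (0 < r → ∀ C ⊆ cls (G r) x, IsCompact C →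
        IsCompact {p : (Fin r × Fin m → ℝ) × (Fin k → ℝ) |
          p.1 ∈ C ∧ ∀ j, E (fun i => p.1 (j, i)) p.2}) ∧
      (∀ (r' : ℕ) (ι : Fin r' → Fin r), StrictMono ι → ∀ y ∈ cls (G r) x,
        (fun z : Fin r' × Fin m => y (ι z.1, z.2)) ∈
          cls (G r') (fun z : Fin r' × Fin m => x (ι z.1, z.2))) := by
  choose H hH1 hH2 using fun r => S6_one E hE r
  refine ⟨S6G H, fun r x hx => ?_⟩
  have hr : S6G H r = H r ((List.finRange r).flatMap fun r' : Fin r =>
    (Finset.univ : Finset (Fin (r' : ℕ) → Fin r)).toList.flatMap fun ι =>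
      (S6G H r').map (Fm.rename fun z => (ι z.1, z.2))) := by
    rw [S6G]
  have hsub := hH1 r ((List.finRange r).flatMap fun r' : Fin r =>
    (Finset.univ : Finset (Fin (r' : ℕ) → Fin r)).toList.flatMap fun ι =>
      (S6G H r').map (Fm.rename fun z => (ι z.1, z.2)))
  obtain ⟨h1, h2, h3, h4⟩ := hH2 r ((List.finRange r).flatMap fun r' : Fin r =>
    (Finset.univ : Finset (Fin (r' : ℕ) → Fin r)).toList.flatMap fun ι =>
      (S6G H r').map (Fm.rename fun z => (ι z.1, z.2))) x hx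
  rw [← hr] at h1 h2 h3 h4 hsub
  refine ⟨h1, h2, h3, h4, fun r' ι hι y hy => ?_⟩
  rcases lt_trichotomy r' r with hlt | heq | hgt
  · refine SgnEq.rename.1 (SgnEq.mono ?_ hy)
    refine fun e he => hsub ?_
    rw [List.mem_flatMap]
    refine ⟨⟨r', hlt⟩, List.mem_finRange _, ?_⟩
    rw [List.mem_flatMap]
    exact ⟨ι, by simp, he⟩
  · subst heq
    have hid : ι = fun i => i := by
      refine (StrictMono.range_inj hι strictMono_id).1 ?_
      rw [Set.range_eq_univ.2 (Finite.surjective_of_injective hι.injective)]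
      simp
    subst hid
    exact hy
  · have := Fintype.card_le_of_injective ι hι.injective
    simp at this
    omega

end BU
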