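import Pool.Agent.Work.MP_4030f5_lc.LDefs

/-! # T1: algebra of `D` and the prism operator -/

namespace BU

variable {α M N A : Type} [AddCommGroup A]

theorem D_nil (f : List α → A) : D f [] = 0 := rfl

theorem D_cons (f : List α → A) (x : α) (l : List α) :
    D f (x :: l) = f l - D (fun l' => f (x :: l')) l := rfl

theorem D_add (f g : List α → A) (l : List α) : D (fun l => f l + g l) l = D f l + D g l := by
  induction l generalizing f g with
  | nil => simp [D_nil]
  | cons x l ih =>
    rw [D_cons, D_cons, D_cons, ih (fun l' => f (x :: l')) (fun l' => g (x :: l'))]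
    abel

theorem D_sub (f g : List α → A) (l : List α) : D (fun l => f l - g l) l = D f l - D g l := by
  induction l generalizing f g with
  | nil => simp [D_nil]
  | cons x l ih =>
    rw [D_cons, D_cons, D_cons, ih (fun l' => f (x :: l')) (fun l' => g (x :: l'))]
    abel

theorem D_neg (f : List α → A) (l : List α) : D (fun l => - f l) l = - D f l := by
  induction l generalizing f with
  | nil => simp [D_nil]
  | cons x l ih =>
    rw [D_cons, D_cons, ih (fun l' => f (x :: l'))]
    abel

theorem D_zero (l : List α) : D (fun _ : List α => (0 : A)) l = 0 := by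
  induction l with
  | nil => rfl
  | cons x l ih => rw [D_cons, ih]; simp

theorem D_sum {ι : Type} (s : Finset ι) (f : ι → List α → A) (l : List α) :
    D (fun l => ∑ i ∈ s, f i l) l = ∑ i ∈ s, D (f i) l := by
  induction l generalizing f with
  | nil => simp [D_nil]
  | cons x l ih =>
    rw [D_cons, ih (fun i l' => f i (x :: l'))]
    simp only [D_cons, Finset.sum_sub_distrib]

/-- `D` commutes with additive maps of the values. -/
theorem D_map {B : Type} [AddCommGroup B] (φ : A →+ B) (f : List α → A) (l : List α) :
    D (fun l => φ (f l)) l = φ (D f l) := by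
  induction l generalizing f with
  | nil => simp [D_nil]
  | cons x l ih =>
    rw [D_cons, D_cons, ih (fun l' => f (x :: l')), map_sub]

theorem D_D (f : List α → A) (l : List α) : D (D f) l = 0 := by
  induction l generalizing f with
  | nil => rfl
  | cons x l ih =>
    rw [D_cons]
    have h : (fun l' => D f (x :: l')) = fun l' => f l' - D (fun l'' => f (x :: l'')) l' := by
      funext l'; rw [D_cons]
    rw [h, D_sub, ih (fun l'' => f (x :: l''))]
    simp

/-- `D f l` only depends on the values of `f` on sublists of `l` with one element removed. -/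
theorem D_congr {f g : List α → A} {l : List α}
    (h : ∀ l', l'.Sublist l → l'.length + 1 = l.length → f l' = g l') : D f l = D g l := by
  induction l generalizing f g with
  | nil => rfl
  | cons x l ih =>
    rw [D_cons, D_cons, h l (List.sublist_cons_self x l) (by simp)]
    congr 1
    exact ih (fun l' hl' hlen => h (x :: l') (hl'.cons_cons x) (by simp [hlen]))

theorem D_eq_zero {f : List α → A} {l : List α}
    (h : ∀ l', l'.Sublist l → l'.length + 1 = l.length → f l' = 0) : D f l = 0 := by
  rw [D_congr (g := fun _ => 0) h, D_zero]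

/-- pull back along a map commutes with `D`. -/
theorem D_comp_map (φ : M → N) (f : List N → A) (l : List M) :
    D (fun l => f (l.map φ)) l = D f (l.map φ) := by
  induction l generalizing f with
  | nil => rfl
  | cons x l ih =>
    rw [List.map_cons, D_cons, D_cons]
    simp only [List.map_cons]
    rw [ih (fun l' => f (φ x :: l'))]

/-- the cone operator. -/
theorem D_cone (c : α) (f : List α → A) (l : List α) :
    D (fun l => f (c :: l)) l = f l - D f (c :: l) := by
  rw [D_cons]; abel

theorem T1_prism_cons (φ ψ : M → N) (f : List N → A) (x : M) (l : List M) :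
    prism φ ψ f (x :: l)
      = f (φ x :: ψ x :: l.map ψ) - prism φ ψ (fun l' => f (φ x :: l')) l := rfl

theorem T1_prism_sub (φ ψ : M → N) (f g : List N → A) (l : List M) :
    prism φ ψ (fun l => f l - g l) l = prism φ ψ f l - prism φ ψ g l := by
  induction l generalizing f g with
  | nil => simp [prism]
  | cons x l ih =>
    rw [T1_prism_cons, T1_prism_cons, T1_prism_cons,
      ih (fun l' => f (φ x :: l')) (fun l' => g (φ x :: l'))]
    abel

/-- the prism identity. -/
theorem D_prism (φ ψ : M → N) (f : List N → A) (l : List M) :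
    D (prism φ ψ f) l + prism φ ψ (D f) l = f (l.map ψ) - f (l.map φ) := by
  induction l generalizing f with
  | nil => simp [D_nil, prism]
  | cons x l ih =>
    have e1 : D (prism φ ψ f) (x :: l) = prism φ ψ f l - D (fun l' => f (φ x :: ψ x :: l'.map ψ)) l
        + D (prism φ ψ (fun l' => f (φ x :: l'))) l := by
      rw [D_cons]
      have : (fun l' => prism φ ψ f (x :: l')) = fun l' => f (φ x :: ψ x :: l'.map ψ)
          - prism φ ψ (fun l' => f (φ x :: l')) l' := by
        funext l'; rw [T1_prism_cons]
      rw [this, D_sub]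
      abel
    have e2 : prism φ ψ (D f) (x :: l) = (f (ψ x :: l.map ψ) - f (φ x :: l.map ψ)
        + D (fun l' => f (φ x :: ψ x :: l')) (l.map ψ)) - prism φ ψ f l
        + prism φ ψ (D (fun l' => f (φ x :: l'))) l := by
      rw [T1_prism_cons]
      have : (fun l' => D f (φ x :: l')) = fun l' => f l' - D (fun l'' => f (φ x :: l'')) l' := by
        funext l'; rw [D_cons]
      rw [this, T1_prism_sub, D_cons, D_cons]
      abel
    have e3 := ih (fun l' => f (φ x :: l'))
    have e4 : D (fun l' => f (φ x :: ψ x :: l'.map ψ)) l
        = D (fun l' => f (φ x :: ψ x :: l')) (l.map ψ) :=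
      D_comp_map ψ (fun l' => f (φ x :: ψ x :: l')) l
    rw [e1, e2, e4]
    simp only [List.map_cons]
    have e5 : D (prism φ ψ (fun l' => f (φ x :: l'))) l
        = f (φ x :: l.map ψ) - f (φ x :: l.map φ)
          - prism φ ψ (D (fun l' => f (φ x :: l'))) l := by
      rw [← e3]; abel
    rw [e5]
    abel

/-- the prism only uses lists all of whose entries are `φ x` or `ψ x` with `x ∈ l`. -/
theorem prism_eq_zero {φ ψ : M → N} {f : List N → A} {l : List M}
    (h : ∀ l' : List N, l' ≠ [] → (∀ y ∈ l', ∃ x ∈ l, y = φ x ∨ y = ψ x) → f l' = 0) :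
    prism φ ψ f l = 0 := by
  induction l generalizing f with
  | nil => rfl
  | cons x l ih =>
    rw [T1_prism_cons]
    have h1 : f (φ x :: ψ x :: l.map ψ) = 0 := by
      apply h _ (by simp)
      intro y hy
      rw [List.mem_cons, List.mem_cons, List.mem_map] at hy
      rcases hy with rfl | rfl | ⟨z, hz, rfl⟩
      · exact ⟨x, by simp, Or.inl rfl⟩
      · exact ⟨x, by simp, Or.inr rfl⟩
      · exact ⟨z, by simp [hz], Or.inr rfl⟩
    rw [h1, ih, sub_zero]
    intro l' _ hl'
    apply h _ (by simp)
    intro y hy
    rw [List.mem_cons] at hy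
    rcases hy with rfl | hy
    · exact ⟨x, by simp, Or.inl rfl⟩
    · obtain ⟨z, hz, hz'⟩ := hl' y hy
      exact ⟨z, by simp [hz], hz'⟩

/-- the coboundary in terms of an alternating sum. -/
theorem D_ofFn {q : ℕ} (f : List α → A) (x : Fin (q + 1) → α) :
    D f (List.ofFn x) = ∑ j : Fin (q + 1), ((-1 : ℤ) ^ (j : ℕ)) • f (List.ofFn (fun i => x (j.succAbove i))) := by
  induction q generalizing f with
  | zero =>
    simp [List.ofFn_succ, D_cons, D_nil]
  | succ q ih =>
    have e : (∑ j : Fin (q + 1 + 1), ((-1 : ℤ) ^ (j : ℕ)) •
        f (List.ofFn (fun i => x (j.succAbove i)))) = f (List.ofFn (fun i => x i.succ))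
        + ∑ j : Fin (q + 1), -(((-1 : ℤ) ^ (j : ℕ)) •
          f (x 0 :: List.ofFn (fun i => x (j.succAbove i).succ))) := by
      rw [Fin.sum_univ_succ]
      simp only [Fin.val_zero, pow_zero, one_smul, Fin.succAbove_zero, Fin.val_succ]
      congr 1
      apply Finset.sum_congr rfl
      intro j _
      rw [pow_succ, mul_neg_one, neg_smul]
      congr 3
      rw [List.ofFn_succ]
      simp
    rw [e, List.ofFn_succ, D_cons, ih (fun l' => f (x 0 :: l')) (fun i => x i.succ),
      Finset.sum_neg_distrib, sub_eq_add_neg]

end BU
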