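import Pool.Agent.Work.MP_4030f5_lc.T3a

/-! # T3: basic properties of `Z` and `Acyc` -/

namespace BU

variable {M N : Type} [MetricSpace M] [MetricSpace N]

/-- uniform continuity of the inverse -/
theorem T3b_inv_unif {X : Set M} (hX : IsCompact X) {φ : M → N}
    (hφ : ContinuousOn φ X) (hinj : Set.InjOn φ X) {ε : ℝ} (hε : 0 < ε) :
    ∃ δ > 0, ∀ x ∈ X, ∀ y ∈ X, dist (φ x) (φ y) < δ → dist x y < ε := by
  set K : Set (M × M) := (X ×ˢ X) ∩ {p | ε ≤ dist p.1 p.2} with hK
  have hKc : IsCompact K :=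
    (hX.prod hX).inter_right (isClosed_le continuous_const continuous_dist)
  rcases K.eq_empty_or_nonempty with h | h
  · refine ⟨1, one_pos, fun x hx y hy _ => ?_⟩
    by_contra hcon
    have : (x, y) ∈ K := ⟨⟨hx, hy⟩, not_lt.1 hcon⟩
    rw [h] at this
    exact this
  · have hcont : ContinuousOn (fun p : M × M => dist (φ p.1) (φ p.2)) K := by
      have h1 : ContinuousOn (fun p : M × M => φ p.1) K :=
        hφ.comp continuousOn_fst (fun p hp => hp.1.1)
      have h2 : ContinuousOn (fun p : M × M => φ p.2) K :=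
        hφ.comp continuousOn_snd (fun p hp => hp.1.2)
      exact continuous_dist.comp_continuousOn (h1.prodMk h2)
    obtain ⟨p, hp, hmin⟩ := hKc.exists_isMinOn h hcont
    have hpos : 0 < dist (φ p.1) (φ p.2) := by
      rw [dist_pos]
      intro heq
      have h1 : p.1 = p.2 := hinj hp.1.1 hp.1.2 heq
      have h2 : ε ≤ dist p.1 p.2 := hp.2
      rw [h1, dist_self] at h2
      linarith
    refine ⟨_, hpos, fun x hx y hy hlt => ?_⟩
    by_contra hcon
    have hxy : (x, y) ∈ K := ⟨⟨hx, hy⟩, not_lt.1 hcon⟩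
    have h3 : dist (φ p.1) (φ p.2) ≤ dist (φ x) (φ y) := hmin hxy
    linarith

theorem T3b_inverse {X : Set M} (hX : IsCompact X) {φ : M → N}
    (hφ : ContinuousOn φ X) (hinj : Set.InjOn φ X) (hne : X.Nonempty) :
    ∃ ψ : N → M, (∀ x ∈ X, ψ (φ x) = x) ∧ UniformContinuousOn ψ (φ '' X) := by
  obtain ⟨x0, hx0⟩ := hne
  have : Nonempty M := ⟨x0⟩
  have hψ : ∀ x ∈ X, Function.invFunOn φ X (φ x) = x := fun x hx =>
    hinj (Function.invFunOn_mem ⟨x, hx, rfl⟩) hx (Function.invFunOn_eq ⟨x, hx, rfl⟩)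
  refine ⟨Function.invFunOn φ X, hψ, ?_⟩
  rw [Metric.uniformContinuousOn_iff]
  intro ε hε
  obtain ⟨δ, hδ, h⟩ := T3b_inv_unif hX hφ hinj hε
  refine ⟨δ, hδ, ?_⟩
  rintro _ ⟨x, hx, rfl⟩ _ ⟨y, hy, rfl⟩ hd
  rw [hψ x hx, hψ y hy]
  exact h x hx y hy hd

/-- invariance under homeomorphisms of compact pairs, given by a map `φ` that is continuous and
injective on the compact set `X`. -/
theorem Acyc.image {X X' : Set M} (hX : IsCompact X) (hX' : X' ⊆ X) {φ : M → N}
    (hφ : ContinuousOn φ X) (hinj : Set.InjOn φ X) (h : Acyc X X') :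
    Acyc (φ '' X) (φ '' X') := by
  rcases X.eq_empty_or_nonempty with hemp | hne
  · subst hemp
    have : X' = ∅ := Set.subset_empty_iff.1 hX'
    rw [this]
    exact Acyc.refl _
  obtain ⟨ψ, hψ, hψu⟩ := T3b_inverse hX hφ hinj hne
  have hφu : UniformContinuousOn φ X := hX.uniformContinuousOn_of_continuous hφ
  intro f hf hDf
  have h1 : Z X' (fun l => f (l.map φ)) :=
    Z_comap (hφu.mono hX') (Set.mapsTo_image φ X') hf
  have h2 : Z X (D (fun l => f (l.map φ))) := by
    have e : D (fun l => f (l.map φ)) = fun l => D f (l.map φ) := by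
      funext l
      exact D_comp_map φ f l
    rw [e]
    exact Z_comap hφu (Set.mapsTo_image φ X) hDf
  obtain ⟨g, hg, hfg⟩ := h _ h1 h2
  refine ⟨fun l => g (l.map ψ), ?_, ?_⟩
  · refine Z_comap (hψu.mono (Set.image_mono hX')) ?_ hg
    rintro _ ⟨x, hx, rfl⟩
    rw [hψ x (hX' hx)]
    exact hx
  · have h3 : Z (φ '' X) (fun l => (fun l => f (l.map φ) - D g l) (l.map ψ)) := by
      refine Z_comap hψu ?_ hfg
      rintro _ ⟨x, hx, rfl⟩
      rw [hψ x hx]
      exact hx
    obtain ⟨η, hη, h4⟩ := h3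
    refine ⟨η, hη, fun l hl hd => ?_⟩
    have h5 := h4 l hl hd
    have h6 : (l.map ψ).map φ = l := by
      rw [List.map_map]
      conv_rhs => rw [← List.map_id l]
      apply List.map_congr_left
      intro y hy
      obtain ⟨x, hx, rfl⟩ := hl y hy
      simp [hψ x hx]
    simp only [h6] at h5
    show f l - D (fun l => g (l.map ψ)) l = 0
    rw [D_comp_map]
    exact h5

theorem Acyc.of_image {X X' : Set M} (hX : IsCompact X) (hX' : X' ⊆ X) {φ : M → N}
    (hφ : ContinuousOn φ X) (hinj : Set.InjOn φ X) (h : Acyc (φ '' X) (φ '' X')) :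
    Acyc X X' := by
  rcases X.eq_empty_or_nonempty with hemp | hne
  · subst hemp
    have : X' = ∅ := Set.subset_empty_iff.1 hX'
    rw [this]
    exact Acyc.refl _
  obtain ⟨ψ, hψ, hψu⟩ := T3b_inverse hX hφ hinj hne
  have h1 : IsCompact (φ '' X) := hX.image_of_continuousOn hφ
  have h2 : Set.InjOn ψ (φ '' X) := by
    rintro _ ⟨x, hx, rfl⟩ _ ⟨y, hy, rfl⟩ hxy
    rw [hψ x hx, hψ y hy] at hxy
    rw [hxy]
  have h3 := Acyc.image h1 (Set.image_mono hX') hψu.continuousOn h2 h
  have h4 : ∀ Y ⊆ X, ψ '' (φ '' Y) = Y := by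
    intro Y hY
    ext x
    constructor
    · rintro ⟨_, ⟨y, hy, rfl⟩, rfl⟩
      rw [hψ y (hY hy)]
      exact hy
    · intro hx
      exact ⟨φ x, ⟨x, hx, rfl⟩, hψ x (hY hx)⟩
  rw [h4 X subset_rfl, h4 X' hX'] at h3
  exact h3

/-- a compact convex set is acyclic relative to any of its points: use the maps
`φ_s x = c + (1 - s / N) • (x - c)` and the prism operators between consecutive ones. -/
theorem Acyc.convex {E : Type} [NormedAddCommGroup E] [NormedSpace ℝ E] {X : Set E}
    (hX : IsCompact X) (hc : Convex ℝ X) {c : E} (hcX : c ∈ X) : Acyc X {c} := by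
  intro f hf hDf
  obtain ⟨η₁, hη₁, h₁⟩ := hf
  obtain ⟨η₂, hη₂, h₂⟩ := hDf
  have hbd := hX.isBounded
  obtain ⟨R, hR⟩ := hbd.exists_norm_le
  have hR0 : 0 ≤ R := (norm_nonneg c).trans (hR c hcX)
  obtain ⟨K, hK⟩ := exists_nat_gt (8 * R / η₂)
  have hKpos : (0 : ℝ) < K := lt_of_le_of_lt (by positivity) hK
  have hK0 : K ≠ 0 := by
    rintro rfl
    simp at hKpos
  have hKη : 2 * R / K < η₂ / 4 := by
    rw [div_lt_iff₀ hη₂] at hK
    rw [div_lt_iff₀ hKpos]
    linarith
  set φ : ℕ → E → E := fun s x => c + (1 - (s : ℝ) / K) • (x - c) with hφdef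
  have hlam : ∀ s : ℕ, s ≤ K → 0 ≤ 1 - (s : ℝ) / K ∧ 1 - (s : ℝ) / K ≤ 1 := by
    intro s hs
    have h1 : (s : ℝ) / K ≤ 1 := by
      rw [div_le_one hKpos]
      exact_mod_cast hs
    have h2 : 0 ≤ (s : ℝ) / K := by positivity
    constructor <;> linarith
  have hφX : ∀ s : ℕ, s ≤ K → ∀ x ∈ X, φ s x ∈ X := by
    intro s hs x hx
    obtain ⟨h0, h1⟩ := hlam s hs
    have := hc hcX hx (show 0 ≤ 1 - (1 - (s : ℝ) / K) by linarith) h0 (by ring)
    convert this using 1
    simp only [hφdef, smul_sub, sub_smul, one_smul]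
    abel
  have hφc : ∀ s : ℕ, φ s c = c := by
    intro s
    simp [hφdef]
  have hφ0 : φ 0 = id := by
    funext x
    simp [hφdef]
  have hφK : ∀ x, φ K x = c := by
    intro x
    simp only [hφdef]
    rw [div_self hKpos.ne']
    simp
  have hlip : ∀ s : ℕ, s ≤ K → ∀ x y, dist (φ s x) (φ s y) ≤ dist x y := by
    intro s hs x y
    obtain ⟨h0, h1⟩ := hlam s hs
    simp only [hφdef, dist_add_left]
    rw [dist_eq_norm, ← smul_sub, norm_smul, Real.norm_of_nonneg h0, sub_sub_sub_cancel_right,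
      ← dist_eq_norm]
    exact mul_le_of_le_one_left dist_nonneg h1
  have hmove : ∀ s : ℕ, ∀ x ∈ X, dist (φ s x) (φ (s + 1) x) < η₂ / 4 := by
    intro s x hx
    have e1 : φ s x - φ (s + 1) x = (1 / (K : ℝ)) • (x - c) := by
      simp only [hφdef]
      rw [add_sub_add_left_eq_sub, ← sub_smul]
      congr 1
      push_cast
      ring
    rw [dist_eq_norm, e1, norm_smul, Real.norm_of_nonneg (by positivity)]
    have h3 : ‖x - c‖ ≤ 2 * R := by
      have := norm_sub_le x c
      have h4 := hR x hx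
      have h5 := hR c hcX
      linarith
    calc 1 / (K : ℝ) * ‖x - c‖ ≤ 1 / (K : ℝ) * (2 * R) := by gcongr
      _ = 2 * R / K := by ring
      _ < η₂ / 4 := hKη
  have hstep : ∀ s : ℕ, s < K → ∀ l : List E, (∀ x ∈ l, x ∈ X) →
      (∀ x ∈ l, ∀ y ∈ l, dist x y < η₂ / 4) →
      D (prism (φ s) (φ (s + 1)) f) l = f (l.map (φ (s + 1))) - f (l.map (φ s)) := by
    intro s hs l hl hd
    have e1 := D_prism (φ s) (φ (s + 1)) f l
    have e2 : prism (φ s) (φ (s + 1)) (D f) l = 0 := by
      apply prism_eq_zero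
      intro l' _ hl'
      apply h₂ l'
      · intro x hx
        obtain ⟨y, hy, h | h⟩ := hl' x hx
        · rw [h]; exact hφX s hs.le y (hl y hy)
        · rw [h]; exact hφX (s + 1) hs y (hl y hy)
      · intro x hx y hy
        obtain ⟨x', hx', hxx⟩ := hl' x hx
        obtain ⟨y', hy', hyy⟩ := hl' y hy
        have h3 : dist x (φ s x') < η₂ / 4 := by
          rcases hxx with h | h
          · rw [h, dist_self]; linarith
          · rw [h, dist_comm]; exact hmove s x' (hl x' hx')
        have h4 : dist y (φ s y') < η₂ / 4 := by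
          rcases hyy with h | h
          · rw [h, dist_self]; linarith
          · rw [h, dist_comm]; exact hmove s y' (hl y' hy')
        have h5 := hlip s hs.le x' y'
        have h6 := hd x' hx' y' hy'
        have h7 : dist x y ≤ dist x (φ s x') + dist (φ s x') (φ s y') + dist (φ s y') y :=
          dist_triangle4 _ _ _ _
        rw [dist_comm (φ s y') y] at h7
        linarith
    rw [e2, add_zero] at e1
    exact e1
  refine ⟨fun l => - ∑ s ∈ Finset.range K, prism (φ s) (φ (s + 1)) f l, ?_, ?_⟩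
  · refine ⟨1, one_pos, fun l hl _ => ?_⟩
    rw [neg_eq_zero]
    apply Finset.sum_eq_zero
    intro s _
    apply prism_eq_zero
    intro l' _ hl'
    have hent : ∀ y ∈ l', y = c := by
      intro y hy
      obtain ⟨x, hx, h | h⟩ := hl' y hy
      · rw [h, hl x hx, hφc]
      · rw [h, hl x hx, hφc]
    apply h₁ l'
    · exact hent
    · intro x hx y hy
      rw [hent x hx, hent y hy, dist_self]
      exact hη₁
  · refine ⟨η₂ / 4, by linarith, fun l hl hd => ?_⟩
    have e1 : D (fun l => - ∑ s ∈ Finset.range K, prism (φ s) (φ (s + 1)) f l) l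
        = f l - f (l.map (φ K)) := by
      rw [D_neg, D_sum]
      have e2 : ∑ s ∈ Finset.range K, D (prism (φ s) (φ (s + 1)) f) l
          = ∑ s ∈ Finset.range K, (f (l.map (φ (s + 1))) - f (l.map (φ s))) := by
        apply Finset.sum_congr rfl
        intro s hs
        exact hstep s (Finset.mem_range.1 hs) l hl hd
      rw [e2, Finset.sum_range_sub (fun s => f (l.map (φ s))) K, hφ0, List.map_id]
      ring
    have e3 : f (l.map (φ K)) = 0 := by
      have hent : ∀ y ∈ l.map (φ K), y = c := by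
        intro y hy
        obtain ⟨x, _, rfl⟩ := List.mem_map.1 hy
        exact hφK x
      apply h₁
      · exact hent
      · intro x hx y hy
        rw [hent x hx, hent y hy, dist_self]
        exact hη₁
    show f l - D (fun l => - ∑ s ∈ Finset.range K, prism (φ s) (φ (s + 1)) f l) l = 0
    rw [e1, e3]
    ring

end BU
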