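import Pool.Agent.Work.MP_4030f5_lc.T5b

/-! # T5: cylindrical families are homologically trivial over acyclic pairs -/

namespace BU

/-- version for a compact subset `C` of a metric space and a point `c ∈ C`. -/
theorem Cyl.acyc_set {k : ℕ} {B : Type} [MetricSpace B] {C : Set B} (hC : IsCompact C) {c : B}
    (hc : c ∈ C) (hac : Acyc C {c}) {E : B → (Fin k → ℝ) → Prop}
    (hE : IsCompact {p : B × (Fin k → ℝ) | p.1 ∈ C ∧ E p.1 p.2})
    (hcyl : Cyl k C (fun b y => E (b : B) y)) :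
    Acyc {p : B × (Fin k → ℝ) | p.1 ∈ C ∧ E p.1 p.2}
      {p : B × (Fin k → ℝ) | p.1 = c ∧ E p.1 p.2} := by
  have : CompactSpace C := isCompact_iff_compactSpace.1 hC
  have h1 : Acyc (Set.univ : Set C) {⟨c, hc⟩} := by
    refine Acyc.of_image isCompact_univ (Set.subset_univ _) (φ := (Subtype.val : C → B))
      continuous_subtype_val.continuousOn Subtype.val_injective.injOn ?_
    have e1 : (Subtype.val : C → B) '' Set.univ = C := by
      rw [Set.image_univ, Subtype.range_coe]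
    have e2 : (Subtype.val : C → B) '' {⟨c, hc⟩} = {c} := by
      rw [Set.image_singleton]
    rw [e1, e2]
    exact hac
  obtain ⟨φ, hφ⟩ : ∃ φ : C × (Fin k → ℝ) → B × (Fin k → ℝ), φ = Prod.map Subtype.val id :=
    ⟨_, rfl⟩
  have hemb : Topology.IsClosedEmbedding φ := by
    rw [hφ]
    exact (hC.isClosed.isClosedEmbedding_subtypeVal).prodMap Topology.IsClosedEmbedding.id
  have hK : IsCompact {p : C × (Fin k → ℝ) | E p.1 p.2} := by
    have h2 := hemb.isCompact_preimage hE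
    have e : φ ⁻¹' {p : B × (Fin k → ℝ) | p.1 ∈ C ∧ E p.1 p.2} =
        {p : C × (Fin k → ℝ) | E p.1 p.2} := by
      ext p
      rw [hφ]
      exact ⟨fun h => h.2, fun h => ⟨p.1.2, h⟩⟩
    rw [e] at h2
    exact h2
  have h3 := Cyl.acyc (isClosed_singleton (x := (⟨c, hc⟩ : C))) h1 hK hcyl
  have h4 := Acyc.image hK (X' := {p : C × (Fin k → ℝ) | p.1 ∈ ({⟨c, hc⟩} : Set C) ∧ E p.1 p.2})
    (fun p hp => hp.2) hemb.continuous.continuousOn hemb.injective.injOn h3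
  have e1 : φ '' {p : C × (Fin k → ℝ) | E p.1 p.2} =
      {p : B × (Fin k → ℝ) | p.1 ∈ C ∧ E p.1 p.2} := by
    ext q
    constructor
    · rintro ⟨p, hp, rfl⟩
      rw [hφ]
      exact ⟨p.1.2, hp⟩
    · rintro ⟨hq1, hq2⟩
      exact ⟨(⟨q.1, hq1⟩, q.2), hq2, by rw [hφ]; rfl⟩
  have e2 : φ '' {p : C × (Fin k → ℝ) | p.1 ∈ ({⟨c, hc⟩} : Set C) ∧ E p.1 p.2} =
      {p : B × (Fin k → ℝ) | p.1 = c ∧ E p.1 p.2} := by
    ext q
    constructor
    · rintro ⟨p, ⟨hp1, hp2⟩, rfl⟩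
      rw [hφ]
      exact ⟨congrArg Subtype.val hp1, hp2⟩
    · rintro ⟨hq1, hq2⟩
      refine ⟨(⟨c, hc⟩, q.2), ⟨rfl, ?_⟩, ?_⟩
      · simp only
        rw [← hq1]; exact hq2
      · rw [hφ]
        exact Prod.ext hq1.symm rfl
  rw [e1, e2] at h4
  exact h4

end BU
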