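import Pool.Agent.Work.MP_4030f5_lc.S6
import Pool.Agent.Work.MP_4030f5_lc.T5c
import Pool.Agent.Work.MP_4030f5_lc.T3b

/-! # T10: the low Betti numbers are determined by the types of the tuples of length `≤ k` -/

namespace BU

section T10aAux

variable {n m k : ℕ}

/-- the coordinates of `b` with index in `J` (in increasing order) -/
def T10a_res (J : Finset (Fin n)) (b : Fin n → Fin m → ℝ) : Fin J.card × Fin m → ℝ :=
  fun z => b (J.orderIsoOfFin rfl z.1 : Fin n) z.2

/-- glue coordinates in `J` and coordinates outside of `J` -/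
noncomputable def T10a_glue (J : Finset (Fin n)) (y : Fin J.card × Fin m → ℝ)
    (v : Fin n → Fin m → ℝ) : Fin n → Fin m → ℝ :=
  fun i => if h : i ∈ J then fun c => y ((J.orderIsoOfFin rfl).symm ⟨i, h⟩, c) else v i

theorem T10a_res_glue (J : Finset (Fin n)) (y : Fin J.card × Fin m → ℝ)
    (v : Fin n → Fin m → ℝ) : T10a_res J (T10a_glue J y v) = y := by
  funext z
  obtain ⟨z1, z2⟩ := z
  have h1 : (J.orderIsoOfFin rfl).symm ⟨(J.orderIsoOfFin rfl z1 : Fin n),
      (J.orderIsoOfFin rfl z1).2⟩ = z1 := by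
    rw [OrderIso.symm_apply_eq]
  simp only [T10a_res, T10a_glue]
  rw [dif_pos (J.orderIsoOfFin rfl z1).2, h1]

theorem T10a_glue_res (J : Finset (Fin n)) (b v : Fin n → Fin m → ℝ)
    (hv : ∀ i, i ∉ J → v i = b i) : T10a_glue J (T10a_res J b) v = b := by
  funext i c
  simp only [T10a_res, T10a_glue]
  by_cases h : i ∈ J
  · rw [dif_pos h]
    simp
  · rw [dif_neg h, hv i h]

theorem T10a_glue_not (J : Finset (Fin n)) (y : Fin J.card × Fin m → ℝ)
    (v : Fin n → Fin m → ℝ) {i : Fin n} (h : i ∉ J) : T10a_glue J y v i = v i := by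
  simp only [T10a_glue]
  rw [dif_neg h]

theorem T10a_res_continuous (J : Finset (Fin n)) :
    Continuous (T10a_res (m := m) J) := by
  unfold T10a_res
  fun_prop

theorem T10a_glue_continuous (J : Finset (Fin n)) :
    Continuous (fun p : (Fin J.card × Fin m → ℝ) × (Fin n → Fin m → ℝ) =>
      T10a_glue J p.1 p.2) := by
  refine continuous_pi fun i => ?_
  by_cases h : i ∈ J
  · simp only [T10a_glue, dif_pos h]
    fun_prop
  · simp only [T10a_glue, dif_neg h]
    fun_prop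

/-- the restriction for `J ⊆ J'` factors over an increasing map -/
theorem T10a_res_res {J J' : Finset (Fin n)} (h : J ⊆ J') :
    ∃ ι : Fin J.card → Fin J'.card, StrictMono ι ∧ ∀ b : Fin n → Fin m → ℝ,
      T10a_res J b = fun z : Fin J.card × Fin m => T10a_res J' b (ι z.1, z.2) := by
  refine ⟨fun j => (J'.orderIsoOfFin rfl).symm ⟨J.orderIsoOfFin rfl j,
    h (J.orderIsoOfFin rfl j).2⟩, ?_, ?_⟩
  · intro i j hij
    rw [OrderIso.lt_iff_lt, Subtype.mk_lt_mk, Subtype.coe_lt_coe, OrderIso.lt_iff_lt]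
    exact hij
  · intro b
    funext z
    simp [T10a_res]

theorem T10a_norm_le (J : Finset (Fin n)) (b : Fin n → Fin m → ℝ) {i : Fin n}
    (hi : i ∈ J) : ‖b i‖ ≤ ‖T10a_res J b‖ := by
  rw [pi_norm_le_iff_of_nonneg (norm_nonneg _)]
  intro c
  have := norm_le_pi_norm (T10a_res J b) ((J.orderIsoOfFin rfl).symm ⟨i, hi⟩, c)
  simpa [T10a_res] using this

/-- The compact sets `C J`, chosen from large `J` to small `J`.  `W J` is the type class. -/
theorem T10a_choose (k : ℕ) (W : (J : Finset (Fin n)) → Set (Fin J.card × Fin m → ℝ))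
    (hch : ∀ J : Finset (Fin n), J.card ≤ k → ∃ d : ℕ, Nonempty ((Fin d → ℝ) ≃ₜ W J))
    (hres : ∀ J J' : Finset (Fin n), J ⊆ J' → J'.card ≤ k → ∀ b : Fin n → Fin m → ℝ,
      T10a_res J' b ∈ W J' → T10a_res J b ∈ W J)
    (a a' : Fin n → Fin m → ℝ) (ha : ∀ J : Finset (Fin n), J.card ≤ k → T10a_res J a ∈ W J)
    (ha' : ∀ J : Finset (Fin n), J.card ≤ k → T10a_res J a' ∈ W J) (s : ℕ) :
    ∃ C : (J : Finset (Fin n)) → Set (Fin J.card × Fin m → ℝ),
      ∀ J : Finset (Fin n), J.card ≤ k → k < s + J.card →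
        C J ⊆ W J ∧ T10a_res J a ∈ C J ∧ T10a_res J a' ∈ C J ∧
        (∃ (d : ℕ) (e : (Fin d → ℝ) ≃ₜ W J) (R : ℝ),
          C J = (fun u => (e u : Fin J.card × Fin m → ℝ)) '' Metric.closedBall 0 R) ∧
        ∀ J' : Finset (Fin n), J ⊆ J' → J'.card ≤ k → ∀ b : Fin n → Fin m → ℝ,
          T10a_res J' b ∈ C J' → T10a_res J b ∈ C J := by
  classical
  induction s with
  | zero => exact ⟨fun J => ∅, fun J h1 h2 => by omega⟩
  | succ s ih =>
    obtain ⟨C, hC⟩ := ih
    -- the compact set to be covered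
    let K : (J : Finset (Fin n)) → Set (Fin J.card × Fin m → ℝ) := fun J =>
      {T10a_res J a, T10a_res J a'} ∪ ⋃ J' ∈ {J' : Finset (Fin n) | J ⊆ J' ∧ J'.card ≤ k ∧ J ≠ J'},
        T10a_res J '' {b | T10a_res J' b ∈ C J'}
    have hKcomp : ∀ J : Finset (Fin n), J.card ≤ k → k < s + 1 + J.card → IsCompact (K J) := by
      intro J hJ1 hJ2
      refine IsCompact.union (Set.Finite.isCompact (by simp)) ?_
      refine Set.Finite.isCompact_biUnion (Set.toFinite _) ?_
      rintro J' ⟨hJJ', hJ'k, hne⟩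
      have hlt : J.card < J'.card := Finset.card_lt_card (Finset.ssubset_iff_subset_ne.2 ⟨hJJ', hne⟩)
      obtain ⟨-, -, -, ⟨d, e, R, hCe⟩, -⟩ := hC J' hJ'k (by omega)
      obtain ⟨ι, -, hι⟩ := T10a_res_res (m := m) hJJ'
      have : T10a_res J '' {b : Fin n → Fin m → ℝ | T10a_res J' b ∈ C J'} =
          (fun y : Fin J'.card × Fin m → ℝ => fun z : Fin J.card × Fin m => y (ι z.1, z.2)) ''
            (C J') := by
        ext y
        constructor
        · rintro ⟨b, hb, rfl⟩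
          exact ⟨T10a_res J' b, hb, (hι b).symm⟩
        · rintro ⟨y, hy, rfl⟩
          refine ⟨T10a_glue J' y 0, ?_, ?_⟩
          · simpa [T10a_res_glue] using hy
          · rw [hι, T10a_res_glue]
      rw [this, hCe]
      refine ((isCompact_closedBall _ _).image ?_).image ?_
      · exact continuous_subtype_val.comp e.continuous
      · fun_prop
    have hKW : ∀ J : Finset (Fin n), J.card ≤ k → k < s + 1 + J.card → K J ⊆ W J := by
      intro J hJ1 hJ2
      refine Set.union_subset ?_ ?_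
      · rintro y (rfl | rfl)
        · exact ha J hJ1
        · exact ha' J hJ1
      · refine Set.iUnion₂_subset ?_
        rintro J' ⟨hJJ', hJ'k, hne⟩ y ⟨b, hb, rfl⟩
        have hlt : J.card < J'.card :=
          Finset.card_lt_card (Finset.ssubset_iff_subset_ne.2 ⟨hJJ', hne⟩)
        exact hres J J' hJJ' hJ'k b ((hC J' hJ'k (by omega)).1 hb)
    have hex : ∀ J : Finset (Fin n), ∃ CJ : Set (Fin J.card × Fin m → ℝ),
        J.card ≤ k → k < s + 1 + J.card →
        CJ ⊆ W J ∧ K J ⊆ CJ ∧ (∃ (d : ℕ) (e : (Fin d → ℝ) ≃ₜ W J) (R : ℝ),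
          CJ = (fun u => (e u : Fin J.card × Fin m → ℝ)) '' Metric.closedBall 0 R) := by
      intro J
      by_cases hJ1 : J.card ≤ k
      · by_cases hJ2 : k < s + 1 + J.card
        · obtain ⟨d, ⟨e⟩⟩ := hch J hJ1
          have hc : IsCompact (e.symm '' {w : W J | (w : Fin J.card × Fin m → ℝ) ∈ K J}) := by
            refine IsCompact.image ?_ e.symm.continuous
            rw [Topology.IsInducing.subtypeVal.isCompact_iff]
            have : (Subtype.val '' {w : W J | (w : Fin J.card × Fin m → ℝ) ∈ K J}) = K J := by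
              ext y
              constructor
              · rintro ⟨w, hw, rfl⟩
                exact hw
              · intro hy
                exact ⟨⟨y, hKW J hJ1 hJ2 hy⟩, hy, rfl⟩
            rw [this]
            exact hKcomp J hJ1 hJ2
          obtain ⟨R, hR⟩ := hc.isBounded.subset_closedBall 0
          refine ⟨(fun u => (e u : Fin J.card × Fin m → ℝ)) '' Metric.closedBall 0 R,
            fun _ _ => ⟨?_, ?_, d, e, R, rfl⟩⟩
          · rintro y ⟨u, -, rfl⟩
            exact (e u).2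
          · intro y hy
            refine ⟨e.symm ⟨y, hKW J hJ1 hJ2 hy⟩, hR ⟨_, hy, rfl⟩, ?_⟩
            simp
        · exact ⟨∅, fun _ h => absurd h hJ2⟩
      · exact ⟨∅, fun h => absurd h hJ1⟩
    choose C' hC' using hex
    refine ⟨fun J => if k < s + J.card then C J else C' J, fun J hJ1 hJ2 => ?_⟩
    by_cases hJs : k < s + J.card
    · simp only [if_pos hJs]
      obtain ⟨h1, h2, h3, h4, h5⟩ := hC J hJ1 hJs
      refine ⟨h1, h2, h3, h4, fun J' hJJ' hJ'k b hb => ?_⟩
      have hle := Finset.card_le_card hJJ'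
      rw [if_pos (by omega)] at hb
      exact h5 J' hJJ' hJ'k b hb
    · simp only [if_neg hJs]
      obtain ⟨h1, h2, h3⟩ := hC' J hJ1 hJ2
      refine ⟨h1, h2 (Or.inl (Or.inl rfl)), h2 (Or.inl (Or.inr rfl)), h3,
        fun J' hJJ' hJ'k b hb => ?_⟩
      by_cases hne : J = J'
      · subst hne
        rw [if_neg hJs] at hb
        exact hb
      · have hlt : J.card < J'.card :=
          Finset.card_lt_card (Finset.ssubset_iff_subset_ne.2 ⟨hJJ', hne⟩)
        rw [if_pos (by omega)] at hb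
        exact h2 (Or.inr (Set.mem_iUnion₂.2 ⟨J', ⟨hJJ', hJ'k, hne⟩, b, hb, rfl⟩))

/-- the base set over which the family for `J` lives -/
def T10a_base (J : Finset (Fin n)) (C : Set (Fin J.card × Fin m → ℝ)) (ρ : ℝ) :
    Set (Fin n → Fin m → ℝ) :=
  {b | T10a_res J b ∈ C ∧ ∀ i, i ∉ J → ‖b i‖ ≤ ρ}

theorem T10a_base_acyc (J : Finset (Fin n)) {W : Set (Fin J.card × Fin m → ℝ)} {d : ℕ}
    (e : (Fin d → ℝ) ≃ₜ W) (R ρ : ℝ) {C : Set (Fin J.card × Fin m → ℝ)}
    (hC : C = (fun u => (e u : Fin J.card × Fin m → ℝ)) '' Metric.closedBall 0 R)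
    {b : Fin n → Fin m → ℝ} (hb : b ∈ T10a_base J C ρ) :
    IsCompact (T10a_base J C ρ) ∧ Acyc (T10a_base J C ρ) {b} := by
  classical
  -- the compact convex model
  let Y : Set (Fin n → Fin m → ℝ) :=
    Set.pi Set.univ fun i => if i ∈ J then {0} else Metric.closedBall 0 ρ
  have hYc : IsCompact Y := by
    refine isCompact_univ_pi fun i => ?_
    split_ifs
    · exact isCompact_singleton
    · exact isCompact_closedBall _ _
  have hYconv : Convex ℝ Y := by
    refine convex_pi fun i _ => ?_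
    split_ifs
    · exact convex_singleton _
    · exact convex_closedBall _ _
  let X : Set ((Fin d → ℝ) × (Fin n → Fin m → ℝ)) := Metric.closedBall 0 R ×ˢ Y
  have hXc : IsCompact X := (isCompact_closedBall _ _).prod hYc
  have hXconv : Convex ℝ X := (convex_closedBall _ _).prod hYconv
  let φ : (Fin d → ℝ) × (Fin n → Fin m → ℝ) → (Fin n → Fin m → ℝ) :=
    fun p => T10a_glue J (e p.1 : Fin J.card × Fin m → ℝ) p.2
  have hφ : Continuous φ := by
    have h1 : Continuous (fun p : (Fin d → ℝ) × (Fin n → Fin m → ℝ) =>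
        ((e p.1 : Fin J.card × Fin m → ℝ), p.2)) := by
      refine Continuous.prodMk ?_ continuous_snd
      exact continuous_subtype_val.comp (e.continuous.comp continuous_fst)
    exact (T10a_glue_continuous J).comp h1
  have hY0 : ∀ v ∈ Y, ∀ i ∈ J, v i = 0 := by
    intro v hv i hi
    have := hv i (Set.mem_univ i)
    simpa [hi] using this
  have hY1 : ∀ v ∈ Y, ∀ i, i ∉ J → ‖v i‖ ≤ ρ := by
    intro v hv i hi
    have := hv i (Set.mem_univ i)
    simpa [hi] using this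
  have hinj : Set.InjOn φ X := by
    rintro ⟨u, v⟩ ⟨hu, hv⟩ ⟨u', v'⟩ ⟨hu', hv'⟩ heq
    have h1 : (e u : Fin J.card × Fin m → ℝ) = e u' := by
      have := congrArg (T10a_res J) heq
      simpa only [φ, T10a_res_glue] using this
    have h2 : u = u' := e.injective (Subtype.ext h1)
    have h3 : v = v' := by
      funext i
      by_cases hi : i ∈ J
      · rw [hY0 v hv i hi, hY0 v' hv' i hi]
      · have := congrFun heq i
        simpa only [φ, T10a_glue_not J _ _ hi] using this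
    rw [h2, h3]
  -- the model maps onto the base
  have hpre : ∀ b ∈ T10a_base J C ρ, ∃ p ∈ X, φ p = b := by
    rintro b ⟨hb1, hb2⟩
    rw [hC] at hb1
    obtain ⟨u, hu, hub⟩ := hb1
    refine ⟨(u, fun i => if i ∈ J then 0 else b i), ⟨hu, ?_⟩, ?_⟩
    · intro i _
      by_cases hi : i ∈ J
      · simp [hi]
      · simpa [hi] using hb2 i hi
    · simp only [φ]
      rw [show (e u : Fin J.card × Fin m → ℝ) = T10a_res J b from hub]
      refine T10a_glue_res J b _ fun i hi => ?_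
      simp [hi]
  have himg : φ '' X = T10a_base J C ρ := by
    ext b
    constructor
    · rintro ⟨⟨u, v⟩, ⟨hu, hv⟩, rfl⟩
      refine ⟨?_, fun i hi => ?_⟩
      · rw [hC]
        refine ⟨u, hu, ?_⟩
        simp only [φ, T10a_res_glue]
      · simp only [φ, T10a_glue_not J _ _ hi]
        exact hY1 v hv i hi
    · intro hb
      obtain ⟨p, hp, hpb⟩ := hpre b hb
      exact ⟨p, hp, hpb⟩
  obtain ⟨c, hc, hcb⟩ := hpre b hb
  refine ⟨himg ▸ hXc.image hφ, ?_⟩
  have h1 := Acyc.image hXc (Set.singleton_subset_iff.2 hc) hφ.continuousOn hinj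
    (Acyc.convex hXc hXconv hc)
  rwa [himg, Set.image_singleton, hcb] at h1

theorem T10a_total_acyc (E : (Fin m → ℝ) → (Fin k → ℝ) → Prop) (J : Finset (Fin n))
    {W : Set (Fin J.card × Fin m → ℝ)} {d : ℕ}
    (e : (Fin d → ℝ) ≃ₜ W) (R ρ : ℝ) {C : Set (Fin J.card × Fin m → ℝ)}
    (hC : C = (fun u => (e u : Fin J.card × Fin m → ℝ)) '' Metric.closedBall 0 R)
    (hcyl : Cyl k W (fun b p => ∀ j, E (fun i => (b : Fin J.card × Fin m → ℝ) (j, i)) p))
    (hcomp : IsCompact {p : (Fin J.card × Fin m → ℝ) × (Fin k → ℝ) |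
          p.1 ∈ C ∧ ∀ j, E (fun i => p.1 (j, i)) p.2})
    {b : Fin n → Fin m → ℝ} (hb : b ∈ T10a_base J C ρ) :
    Acyc {p : (Fin n → Fin m → ℝ) × (Fin k → ℝ) |
        p.1 ∈ T10a_base J C ρ ∧ ∀ j ∈ J, E (p.1 j) p.2}
      {p : (Fin n → Fin m → ℝ) × (Fin k → ℝ) | p.1 = b ∧ ∀ j ∈ J, E (p.1 j) p.2} := by
  classical
  obtain ⟨hBc, hBa⟩ := T10a_base_acyc J e R ρ hC hb
  have hCW : C ⊆ W := by
    rw [hC]
    rintro y ⟨u, -, rfl⟩
    exact (e u).2
  have hiff : ∀ (b : Fin n → Fin m → ℝ) (p : Fin k → ℝ),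
      (∀ j, E (fun i => T10a_res J b (j, i)) p) ↔ ∀ j ∈ J, E (b j) p := by
    intro b p
    constructor
    · intro h j hj
      have := h ((J.orderIsoOfFin rfl).symm ⟨j, hj⟩)
      simpa [T10a_res] using this
    · intro h j
      exact h _ (J.orderIsoOfFin rfl j).2
  refine Cyl.acyc_set (E := fun b p => ∀ j ∈ J, E (b j) p) hBc hb hBa ?_ ?_
  · -- compactness of the total space
    have h1 : IsCompact (({p : (Fin J.card × Fin m → ℝ) × (Fin k → ℝ) |
          p.1 ∈ C ∧ ∀ j, E (fun i => p.1 (j, i)) p.2}) ×ˢ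
          (Metric.closedBall (0 : Fin n → Fin m → ℝ) (max ρ 0))) :=
      hcomp.prod (isCompact_closedBall _ _)
    have h2 : Continuous (fun q : ((Fin J.card × Fin m → ℝ) × (Fin k → ℝ)) ×
        (Fin n → Fin m → ℝ) => (T10a_glue J q.1.1 q.2, q.1.2)) := by
      refine Continuous.prodMk ?_ (by fun_prop)
      have h3 : Continuous (fun q : ((Fin J.card × Fin m → ℝ) × (Fin k → ℝ)) ×
        (Fin n → Fin m → ℝ) => (q.1.1, q.2)) := by fun_prop
      exact (T10a_glue_continuous J).comp h3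
    have h4 := h1.image h2
    have h5 : IsClosed {q : (Fin n → Fin m → ℝ) × (Fin k → ℝ) | ∀ i, i ∉ J → ‖q.1 i‖ ≤ ρ} := by
      have : {q : (Fin n → Fin m → ℝ) × (Fin k → ℝ) | ∀ i, i ∉ J → ‖q.1 i‖ ≤ ρ} =
          ⋂ i, ⋂ (_ : i ∉ J), {q : (Fin n → Fin m → ℝ) × (Fin k → ℝ) | ‖q.1 i‖ ≤ ρ} := by
        ext q; simp
      rw [this]
      exact isClosed_iInter fun i => isClosed_iInter fun _ =>
        isClosed_le (by fun_prop) continuous_const
    have h6 := h4.inter_right h5
    convert h6 using 1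
    ext ⟨b', p⟩
    constructor
    · rintro ⟨⟨hb1, hb2⟩, hp⟩
      refine ⟨⟨((T10a_res J b', p), fun i => if i ∈ J then 0 else b' i), ⟨⟨hb1, ?_⟩, ?_⟩, ?_⟩,
        hb2⟩
      · exact (hiff b' p).2 hp
      · rw [mem_closedBall_zero_iff, pi_norm_le_iff_of_nonneg (le_max_right _ _)]
        intro i
        by_cases hi : i ∈ J
        · simp [hi]
        · simpa [hi] using Or.inl (hb2 i hi)
      · refine Prod.ext ?_ rfl
        refine T10a_glue_res J b' _ fun i hi => ?_
        simp [hi]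
    · rintro ⟨⟨⟨⟨y, p'⟩, v⟩, ⟨⟨hy1, hy2⟩, -⟩, heq⟩, hb2⟩
      have e1 : T10a_glue J y v = b' := congrArg Prod.fst heq
      have e2 : p' = p := congrArg Prod.snd heq
      subst e1
      subst e2
      refine ⟨⟨?_, hb2⟩, ?_⟩
      · show T10a_res J (T10a_glue J y v) ∈ C
        rw [T10a_res_glue]
        exact hy1
      · refine (hiff _ _).1 ?_
        rw [T10a_res_glue]
        exact hy2
  · have hg : Continuous (fun b : T10a_base J C ρ =>
        (⟨T10a_res J b.1, hCW b.2.1⟩ : W)) :=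
      Continuous.subtype_mk ((T10a_res_continuous J).comp continuous_subtype_val) _
    have h1 := hcyl.pullback _ hg
    convert h1 using 3 with b' p
    exact (hiff _ _).symm

end T10aAux

/-- the system of compact contractible families joining two arrangements of the same types. -/
theorem sys_exists {k m n : ℕ} (E : (Fin m → ℝ) → (Fin k → ℝ) → Prop)
    (G : (r : ℕ) → List (Fm (Fin r × Fin m)))
    (hG : ∀ (r : ℕ) (x : Fin r × Fin m → ℝ),
      (∀ j, IsCompact {p | E (fun i => x (j, i)) p}) →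
      (∃ d : ℕ, Nonempty ((Fin d → ℝ) ≃ₜ cls (G r) x)) ∧
      (∀ y ∈ cls (G r) x, ∀ j, IsCompact {p | E (fun i => y (j, i)) p}) ∧
      Cyl k (cls (G r) x) (fun b p => ∀ j, E (fun i => (b : Fin r × Fin m → ℝ) (j, i)) p) ∧
      (0 < r → ∀ C ⊆ cls (G r) x, IsCompact C →
        IsCompact {p : (Fin r × Fin m → ℝ) × (Fin k → ℝ) |
          p.1 ∈ C ∧ ∀ j, E (fun i => p.1 (j, i)) p.2}) ∧
      (∀ (r' : ℕ) (ι : Fin r' → Fin r), StrictMono ι → ∀ y ∈ cls (G r) x,
        (fun z : Fin r' × Fin m => y (ι z.1, z.2)) ∈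
          cls (G r') (fun z : Fin r' × Fin m => x (ι z.1, z.2))))
    (a a' : Fin n → Fin m → ℝ) (ha : ∀ i, IsCompact {p | E (a i) p})
    (ha' : ∀ i, IsCompact {p | E (a' i) p})
    (h : ∀ r ≤ k, ∀ ι : Fin r → Fin n, StrictMono ι →
      SgnEq (G r) (fun z => a (ι z.1) z.2) (fun z => a' (ι z.1) z.2)) :
    ∃ 𝓔 : Finset (Fin n) → Set ((Fin n → Fin m → ℝ) × (Fin k → ℝ)),
      (∀ J J', J ⊆ J' → 𝓔 J' ⊆ 𝓔 J) ∧
      ∀ J : Finset (Fin n), J.Nonempty → J.card ≤ k →
        (𝓔 J ∩ {p | p.1 = a} = {p | p.1 = a ∧ ∀ j ∈ J, E (a j) p.2} ∧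
          Acyc (𝓔 J) (𝓔 J ∩ {p | p.1 = a})) ∧
        (𝓔 J ∩ {p | p.1 = a'} = {p | p.1 = a' ∧ ∀ j ∈ J, E (a' j) p.2} ∧
          Acyc (𝓔 J) (𝓔 J ∩ {p | p.1 = a'})) := by
  classical
  let W : (J : Finset (Fin n)) → Set (Fin J.card × Fin m → ℝ) :=
    fun J => cls (G J.card) (T10a_res J a)
  have hGJ := fun J : Finset (Fin n) => hG J.card (T10a_res J a) (fun j => ha (J.orderIsoOfFin rfl j : Fin n))
  have haW : ∀ J : Finset (Fin n), J.card ≤ k → T10a_res J a ∈ W J := fun J _ e _ => rfl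
  have ha'W : ∀ J : Finset (Fin n), J.card ≤ k → T10a_res J a' ∈ W J := by
    intro J hJ e he
    exact (h J.card hJ (fun j => (J.orderIsoOfFin rfl j : Fin n))
      (fun i j hij => (J.orderIsoOfFin rfl).strictMono hij) e he).symm
  have hres : ∀ J J' : Finset (Fin n), J ⊆ J' → J'.card ≤ k → ∀ b : Fin n → Fin m → ℝ,
      T10a_res J' b ∈ W J' → T10a_res J b ∈ W J := by
    intro J J' hJJ' _ b hb
    obtain ⟨ι, hι, hιr⟩ := T10a_res_res (m := m) hJJ'
    have := (hGJ J').2.2.2.2 J.card ι hι (T10a_res J' b) hb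
    show T10a_res J b ∈ cls (G J.card) (T10a_res J a)
    rw [hιr b, hιr a]
    exact this
  obtain ⟨C, hC⟩ := T10a_choose k W (fun J _ => (hGJ J).1) hres a a' haW ha'W (k + 1)
  have hC' := fun (J : Finset (Fin n)) (hJ : J.card ≤ k) => hC J hJ (by omega)
  -- the bound for the remaining coordinates
  have hρ : ∀ J : Finset (Fin n), ∃ ρ : ℝ, J.card ≤ k → ∀ b : Fin n → Fin m → ℝ,
      T10a_res J b ∈ C J → ∀ i ∈ J, ‖b i‖ ≤ ρ := by
    intro J
    by_cases hJ : J.card ≤ k
    · obtain ⟨-, -, -, ⟨d, e, R, hCe⟩, -⟩ := hC' J hJ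
      have hcomp : IsCompact (C J) := by
        rw [hCe]
        exact (isCompact_closedBall _ _).image (continuous_subtype_val.comp e.continuous)
      obtain ⟨ρ, hρ⟩ := hcomp.isBounded.exists_norm_le
      exact ⟨ρ, fun _ b hb i hi => (T10a_norm_le J b hi).trans (hρ _ hb)⟩
    · exact ⟨0, fun h => absurd h hJ⟩
  choose ρJ hρJ using hρ
  let ρ : ℝ := ‖a‖ + ‖a'‖ + ∑ J : Finset (Fin n), |ρJ J|
  have hsum : (0 : ℝ) ≤ ∑ J : Finset (Fin n), |ρJ J| := Finset.sum_nonneg fun _ _ => abs_nonneg _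
  have hρa : ∀ i, ‖a i‖ ≤ ρ := fun i => by
    have h1 := norm_le_pi_norm a i
    have h2 := norm_nonneg a'
    simp only [ρ]
    linarith
  have hρa' : ∀ i, ‖a' i‖ ≤ ρ := fun i => by
    have h1 := norm_le_pi_norm a' i
    have h2 := norm_nonneg a
    simp only [ρ]
    linarith
  have hρle : ∀ J : Finset (Fin n), ρJ J ≤ ρ := fun J => by
    have h1 := Finset.single_le_sum (f := fun J => |ρJ J|) (fun _ _ => abs_nonneg _)
      (Finset.mem_univ J)
    have h2 := norm_nonneg a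
    have h3 := norm_nonneg a'
    have h4 := le_abs_self (ρJ J)
    simp only [ρ]
    linarith
  let 𝓔 : Finset (Fin n) → Set ((Fin n → Fin m → ℝ) × (Fin k → ℝ)) := fun J =>
    if J = ∅ then Set.univ else if J.card ≤ k then
      {p | p.1 ∈ T10a_base J (C J) ρ ∧ ∀ j ∈ J, E (p.1 j) p.2} else ∅
  refine ⟨𝓔, ?_, ?_⟩
  · intro J J' hJJ'
    simp only [𝓔]
    by_cases hJ0 : J = ∅
    · rw [if_pos hJ0]
      exact Set.subset_univ _
    have hJ'0 : J' ≠ ∅ := by
      rintro rfl
      exact hJ0 (Finset.subset_empty.1 hJJ')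
    rw [if_neg hJ0, if_neg hJ'0]
    by_cases hJ'k : J'.card ≤ k
    · have hJk : J.card ≤ k := (Finset.card_le_card hJJ').trans hJ'k
      rw [if_pos hJ'k, if_pos hJk]
      rintro ⟨b, p⟩ ⟨⟨hb1, hb2⟩, hp⟩
      refine ⟨⟨(hC' J hJk).2.2.2.2 J' hJJ' hJ'k b hb1, fun i hi => ?_⟩,
        fun j hj => hp j (hJJ' hj)⟩
      by_cases hi' : i ∈ J'
      · exact (hρJ J' hJ'k b hb1 i hi').trans (hρle J')
      · exact hb2 i hi'
    · rw [if_neg hJ'k]
      exact Set.empty_subset _
  · intro J hJne hJk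
    have hJ0 : J ≠ ∅ := hJne.ne_empty
    have h𝓔 : 𝓔 J = {p | p.1 ∈ T10a_base J (C J) ρ ∧ ∀ j ∈ J, E (p.1 j) p.2} := by
      simp only [𝓔]
      rw [if_neg hJ0, if_pos hJk]
    obtain ⟨hCW, haC, ha'C, ⟨d, e, R, hCe⟩, -⟩ := hC' J hJk
    have hcomp : IsCompact (C J) := by
      rw [hCe]
      exact (isCompact_closedBall _ _).image (continuous_subtype_val.comp e.continuous)
    have key : ∀ b : Fin n → Fin m → ℝ, b ∈ T10a_base J (C J) ρ →
        𝓔 J ∩ {p | p.1 = b} = {p | p.1 = b ∧ ∀ j ∈ J, E (b j) p.2} ∧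
          Acyc (𝓔 J) (𝓔 J ∩ {p | p.1 = b}) := by
      intro b hb
      have h1 : 𝓔 J ∩ {p | p.1 = b} = {p | p.1 = b ∧ ∀ j ∈ J, E (b j) p.2} := by
        rw [h𝓔]
        ext ⟨b', p⟩
        constructor
        · rintro ⟨⟨-, h2⟩, h3⟩
          change b' = b at h3
          subst h3
          exact ⟨rfl, h2⟩
        · rintro ⟨h2, h3⟩
          simp only at h2
          subst h2
          exact ⟨⟨hb, h3⟩, rfl⟩
      refine ⟨h1, ?_⟩
      rw [h1, h𝓔]
      have h2 := T10a_total_acyc E J e R ρ hCe (hGJ J).2.2.1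
        ((hGJ J).2.2.2.1 (Finset.card_pos.2 hJne) (C J) hCW hcomp) hb
      convert h2 using 1
      ext ⟨b', p⟩
      constructor
      · rintro ⟨h3, h4⟩
        simp only at h3
        subst h3
        exact ⟨rfl, h4⟩
      · rintro ⟨h3, h4⟩
        simp only at h3
        subst h3
        exact ⟨rfl, h4⟩
    exact ⟨key a ⟨haC, fun i _ => hρa i⟩, key a' ⟨ha'C, fun i _ => hρa' i⟩⟩

end BU
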