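import Pool.Agent.Work.MP_4030f5_lc.LDefs

/-! # T2: the phi lemma (approximate simultaneous retractions) -/

namespace BU

variable {M : Type} [MetricSpace M]

theorem T2_aux {ι : Type} {X : Set M} (hX : IsCompact X) (F : ι → Set M)
    (hF : ∀ i, IsClosed (F i)) {ε : ℝ} (hε : 0 < ε) (I : Set ι) :
    ∃ ρ > 0, ∀ x ∈ X, (∀ i ∈ I, ∃ y ∈ X ∩ F i, dist x y < ρ) →
      ∃ z ∈ X, (∀ i ∈ I, z ∈ F i) ∧ dist z x ≤ ε := by
  by_contra hcon
  push Not at hcon
  have h1 : ∀ n : ℕ, (0 : ℝ) < 1 / ((n : ℝ) + 1) := fun n => by positivity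
  choose u huX hu hu' using fun n : ℕ => hcon (1 / ((n : ℝ) + 1)) (h1 n)
  obtain ⟨x, hxX, φ, hφ, hlim⟩ := hX.tendsto_subseq huX
  have hzero : Filter.Tendsto (fun n : ℕ => 1 / ((φ n : ℝ) + 1)) Filter.atTop (nhds 0) :=
    tendsto_one_div_add_atTop_nhds_zero_nat.comp hφ.tendsto_atTop
  have hxF : ∀ i ∈ I, x ∈ F i := by
    intro i hi
    choose y hy hyd using fun n => hu n i hi
    have hlim' : Filter.Tendsto (fun n => y (φ n)) Filter.atTop (nhds x) := by
      rw [tendsto_iff_dist_tendsto_zero]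
      have h2 : Filter.Tendsto (fun n => 1 / ((φ n : ℝ) + 1) + dist (u (φ n)) x)
          Filter.atTop (nhds 0) := by
        have := hzero.add (tendsto_iff_dist_tendsto_zero.1 hlim)
        simpa using this
      refine squeeze_zero (fun n => dist_nonneg) (fun n => ?_) h2
      calc dist (y (φ n)) x ≤ dist (y (φ n)) (u (φ n)) + dist (u (φ n)) x := dist_triangle _ _ _
        _ ≤ 1 / ((φ n : ℝ) + 1) + dist (u (φ n)) x := by
            have := hyd (φ n)
            rw [dist_comm] at this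
            linarith
    exact (hF i).mem_of_tendsto hlim' (Filter.Eventually.of_forall fun n => (hy (φ n)).2)
  have h3 : ∀ n, ε < dist (u (φ n)) x := by
    intro n
    have := hu' (φ n) x hxX hxF
    rwa [dist_comm]
  have h4 := tendsto_iff_dist_tendsto_zero.1 hlim
  have h5 := (h4.eventually (gt_mem_nhds hε)).exists
  obtain ⟨n, hn⟩ := h5
  exact absurd hn (not_lt.2 (h3 n).le)

/-- Let `X` be compact, `F i` finitely many sets that are closed.  For every `ε > 0` there is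
`ρ > 0` and a (not necessarily continuous) map `φ` with `φ X ⊆ X`, `φ` moves points of `X` by at
most `ε`, and every point of `X` at distance `< ρ` from `X ∩ F i` is mapped into `F i`
(in particular `φ (X ∩ F i) ⊆ F i`). -/
theorem phi_lemma {ι : Type} [Finite ι] {X : Set M} (hX : IsCompact X) (F : ι → Set M)
    (hF : ∀ i, IsClosed (F i)) {ε : ℝ} (hε : 0 < ε) :
    ∃ ρ > 0, ∃ φ : M → M, (∀ x ∈ X, φ x ∈ X) ∧ (∀ x ∈ X, dist (φ x) x ≤ ε) ∧
      (∀ i, ∀ x ∈ X, (∃ y ∈ X ∩ F i, dist x y < ρ) → φ x ∈ F i) := by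
  classical
  choose r hr hr' using fun I : Set ι => T2_aux hX F hF hε I
  obtain ⟨I₀, hI₀⟩ := Finite.exists_min r
  have key : ∀ x : M, ∃ z : M, x ∈ X → (z ∈ X ∧ dist z x ≤ ε ∧
      ∀ i, (∃ y ∈ X ∩ F i, dist x y < r I₀) → z ∈ F i) := by
    intro x
    by_cases hx : x ∈ X
    · obtain ⟨z, hzX, hzF, hzd⟩ := hr' {i | ∃ y ∈ X ∩ F i, dist x y < r I₀} x hx (by
        intro i hi
        obtain ⟨y, hy, hyd⟩ := hi
        exact ⟨y, hy, lt_of_lt_of_le hyd (hI₀ _)⟩)
      exact ⟨z, fun _ => ⟨hzX, hzd, fun i hi => hzF i hi⟩⟩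
    · exact ⟨x, fun h => absurd h hx⟩
  choose φ hφ using key
  exact ⟨r I₀, hr I₀, φ, fun x hx => (hφ x hx).1, fun x hx => (hφ x hx).2.1,
    fun i x hx h => (hφ x hx).2.2 i h⟩

end BU
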