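import Pool.Agent.Work.MP_4030f5_lc.T1
import Pool.Agent.Work.MP_4030f5_lc.T2

/-! # T3: basic properties of `Z` and `Acyc` -/

namespace BU

variable {M N : Type} [MetricSpace M] [MetricSpace N]

theorem Z_mono {X Y : Set M} (h : X ⊆ Y) {f : List M → ℚ} (hf : Z Y f) : Z X f := by
  obtain ⟨η, hη, hf⟩ := hf
  exact ⟨η, hη, fun l hl hd => hf l (fun x hx => h (hl x hx)) hd⟩

theorem Z_zero (X : Set M) : Z X (fun _ => 0) := ⟨1, one_pos, fun _ _ _ => rfl⟩

theorem T3a_Z_comb {X : Set M} {f g h : List M → ℚ} (hf : Z X f) (hg : Z X g)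
    (hh : ∀ l, f l = 0 → g l = 0 → h l = 0) : Z X h := by
  obtain ⟨η, hη, hf⟩ := hf
  obtain ⟨η', hη', hg⟩ := hg
  refine ⟨min η η', lt_min hη hη', fun l hl hd => hh l (hf l hl ?_) (hg l hl ?_)⟩
  · exact fun x hx y hy => lt_of_lt_of_le (hd x hx y hy) (min_le_left _ _)
  · exact fun x hx y hy => lt_of_lt_of_le (hd x hx y hy) (min_le_right _ _)

theorem Z_add {X : Set M} {f g : List M → ℚ} (hf : Z X f) (hg : Z X g) :
    Z X (fun l => f l + g l) :=
  T3a_Z_comb hf hg (fun l h1 h2 => by simp [h1, h2])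

theorem Z_sub {X : Set M} {f g : List M → ℚ} (hf : Z X f) (hg : Z X g) :
    Z X (fun l => f l - g l) :=
  T3a_Z_comb hf hg (fun l h1 h2 => by simp [h1, h2])

theorem Z_neg {X : Set M} {f : List M → ℚ} (hf : Z X f) : Z X (fun l => - f l) :=
  T3a_Z_comb hf hf (fun l h1 _ => by simp [h1])

theorem Z_smul {X : Set M} (c : ℚ) {f : List M → ℚ} (hf : Z X f) : Z X (fun l => c * f l) :=
  T3a_Z_comb hf hf (fun l h1 _ => by simp [h1])

theorem Z_sum {ι : Type} (s : Finset ι) {X : Set M} {f : ι → List M → ℚ}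
    (hf : ∀ i ∈ s, Z X (f i)) : Z X (fun l => ∑ i ∈ s, f i l) := by
  classical
  induction s using Finset.induction_on with
  | empty => simpa using Z_zero X
  | insert a s ha ih =>
    have h1 := Z_add (hf a (Finset.mem_insert_self a s))
      (ih (fun i hi => hf i (Finset.mem_insert_of_mem hi)))
    simpa [Finset.sum_insert ha] using h1

theorem Z_D {X : Set M} {f : List M → ℚ} (hf : Z X f) : Z X (D f) := by
  obtain ⟨η, hη, hf⟩ := hf
  refine ⟨η, hη, fun l hl hd => D_eq_zero (fun l' hl' _ => hf l' ?_ ?_)⟩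
  · exact fun x hx => hl x (hl'.subset hx)
  · exact fun x hx y hy => hd x (hl'.subset hx) y (hl'.subset hy)

/-- on the empty set only the value at the empty list counts. -/
theorem Z_empty {f : List M → ℚ} : Z (∅ : Set M) f ↔ f [] = 0 := by
  constructor
  · rintro ⟨η, hη, hf⟩
    exact hf [] (by simp) (by simp)
  · intro h
    refine ⟨1, one_pos, fun l hl _ => ?_⟩
    cases l with
    | nil => exact h
    | cons x l => exact absurd (hl x (by simp)) (by simp)

theorem Z_nil {X : Set M} {f : List M → ℚ} (hf : Z X f) : f [] = 0 := by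
  obtain ⟨η, hη, hf⟩ := hf
  exact hf [] (by simp) (by simp)

/-- pull back along a map that is uniformly continuous on `X`. -/
theorem Z_comap {X : Set M} {Y : Set N} {φ : M → N} (hφ : UniformContinuousOn φ X)
    (hXY : Set.MapsTo φ X Y) {f : List N → ℚ} (hf : Z Y f) : Z X (fun l => f (l.map φ)) := by
  obtain ⟨η, hη, hf⟩ := hf
  rw [Metric.uniformContinuousOn_iff] at hφ
  obtain ⟨δ, hδ, h⟩ := hφ η hη
  refine ⟨δ, hδ, fun l hl hd => hf _ ?_ ?_⟩
  · intro y hy
    rw [List.mem_map] at hy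
    obtain ⟨x, hx, rfl⟩ := hy
    exact hXY (hl x hx)
  · intro y hy z hz
    rw [List.mem_map] at hy hz
    obtain ⟨x, hx, rfl⟩ := hy
    obtain ⟨x', hx', rfl⟩ := hz
    exact h x (hl x hx) x' (hl x' hx') (hd x hx x' hx')

/-- extension by zero: `f` on lists in `X₁`, zero on the other lists. -/
theorem Z_extend {X₁ X' : Set M} {f : List M → ℚ} (hf : Z (X' ∩ X₁) f) :
    Z X' (fun l => open Classical in if ∀ x ∈ l, x ∈ X₁ then f l else 0) := by
  obtain ⟨η, hη, hf⟩ := hf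
  refine ⟨η, hη, fun l hl hd => ?_⟩
  dsimp only
  split_ifs with h
  · exact hf l (fun x hx => ⟨hl x hx, h x hx⟩) hd
  · rfl

theorem Acyc.refl (X : Set M) : Acyc X X := by
  intro f hf _
  refine ⟨fun _ => 0, Z_zero X, ?_⟩
  simpa [D_zero] using hf

omit [MetricSpace M] in
theorem T3a_D_sub_D (f g : List M → ℚ) : D (fun l => f l - D g l) = D f := by
  funext l
  rw [D_sub f (D g), D_D, sub_zero]

omit [MetricSpace M] in
theorem T3a_sub_D (f g h : List M → ℚ) :
    (fun l => f l - D (fun l => g l + h l) l) = fun l => (f l - D g l) - D h l := by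
  funext l
  rw [D_add]; ring

/-- triples -/
theorem Acyc.trans {X Y W : Set M} (hYX : Y ⊆ X) (hWY : W ⊆ Y) (h₁ : Acyc X Y) (h₂ : Acyc Y W) :
    Acyc X W := by
  intro f hf hDf
  obtain ⟨g, hg, hfg⟩ := h₂ f hf (Z_mono hYX hDf)
  obtain ⟨g', hg', hfg'⟩ := h₁ (fun l => f l - D g l) hfg (by rw [T3a_D_sub_D]; exact hDf)
  refine ⟨fun l => g l + g' l, Z_add hg (Z_mono hWY hg'), ?_⟩
  rw [T3a_sub_D]
  exact hfg'

theorem Acyc.of_trans {X Y W : Set M} (hYX : Y ⊆ X) (hWY : W ⊆ Y) (h₁ : Acyc X W)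
    (h₂ : Acyc Y W) : Acyc X Y := by
  intro f hf hDf
  obtain ⟨g, hg, hfg⟩ := h₁ f (Z_mono hWY hf) hDf
  have hDg : Z Y (D g) := by
    have := Z_sub hf (Z_mono hYX hfg)
    simpa using this
  obtain ⟨e, he, hge⟩ := h₂ g hg hDg
  refine ⟨fun l => g l - D e l, hge, ?_⟩
  rw [T3a_D_sub_D]
  exact hfg

theorem Acyc.of_trans' {X Y W : Set M} (hYX : Y ⊆ X) (hWY : W ⊆ Y) (h₁ : Acyc X W)
    (h₂ : Acyc X Y) : Acyc Y W := by
  intro f hf hDf
  obtain ⟨u, hu, hfu⟩ := h₂ (D f) hDf (by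
    have : D (D f) = fun _ => 0 := by funext l; exact D_D f l
    rw [this]; exact Z_zero X)
  obtain ⟨g, hg, hfg⟩ := h₁ (fun l => f l - u l) (Z_sub hf (Z_mono hWY hu)) (by
    have : D (fun l => f l - u l) = fun l => D f l - D u l := by
      funext l; exact D_sub f u l
    rw [this]; exact hfu)
  refine ⟨g, hg, ?_⟩
  have := Z_add (Z_mono hYX hfg) hu
  have e : (fun l => f l - D g l) = fun l => (f l - u l - D g l) + u l := by
    funext l; ring
  rw [e]
  exact this

end BU
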