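import Pool.Agent.Work.MP_4030f5_lc.T3a

/-! # T4: tautness, gluing, and the one dimensional Vietoris-Begle theorem -/

namespace BU

variable {M : Type} [MetricSpace M]

theorem T4a_small {X : Set M} {η : ℝ} {φ : M → M} (hφ : ∀ x ∈ X, dist (φ x) x ≤ η / 4)
    (hη : 0 < η) {l : List M} (hl : ∀ x ∈ l, x ∈ X) (hd : ∀ x ∈ l, ∀ y ∈ l, dist x y < η / 4)
    {l' : List M} (hl' : ∀ y ∈ l', ∃ x ∈ l, y = x ∨ y = φ x) :
    ∀ y ∈ l', ∀ z ∈ l', dist y z < η := by
  intro y hy z hz
  obtain ⟨x, hx, hx'⟩ := hl' y hy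
  obtain ⟨w, hw, hw'⟩ := hl' z hz
  have h1 : dist y x ≤ η / 4 := by
    rcases hx' with rfl | rfl
    · rw [dist_self]; positivity
    · exact hφ x (hl x hx)
  have h2 : dist z w ≤ η / 4 := by
    rcases hw' with rfl | rfl
    · rw [dist_self]; positivity
    · exact hφ w (hl w hw)
  have h3 := hd x hx w hw
  have h4 : dist y z ≤ dist y x + dist x w + dist w z := dist_triangle4 _ _ _ _
  rw [dist_comm w z] at h4
  linarith

omit [MetricSpace M] in
theorem T4a_map {φ : M → M} {l : List M} : ∀ y ∈ l.map φ, ∃ x ∈ l, y = x ∨ y = φ x := by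
  intro y hy
  rw [List.mem_map] at hy
  obtain ⟨x, hx, rfl⟩ := hy
  exact ⟨x, hx, Or.inr rfl⟩

/-- Tautness: a relative class that vanishes on the closed set `A` vanishes near `A`. -/
theorem taut {X X' A : Set M} (hX : IsCompact X) (hX' : IsClosed X') (hX'X : X' ⊆ X)
    (hA : IsClosed A) (hAX : A ⊆ X) {f g : List M → ℚ} (hf : Z X' f) (hDf : Z X (D f))
    (hg : Z (X' ∩ A) g) (hfg : Z A (fun l => f l - D g l)) :
    ∃ ρ > 0, ∃ g' : List M → ℚ, Z (X' ∩ {x | ∃ y ∈ A, dist x y < ρ}) g' ∧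
      Z (X ∩ {x | ∃ y ∈ A, dist x y < ρ}) (fun l => f l - D g' l) := by
  obtain ⟨η₁, hη₁, hf⟩ := hf
  obtain ⟨η₂, hη₂, hDf⟩ := hDf
  obtain ⟨η₃, hη₃, hg⟩ := hg
  obtain ⟨η₄, hη₄, hfg⟩ := hfg
  obtain ⟨η, hη, h1, h2, h3, h4⟩ : ∃ η > 0, η ≤ η₁ ∧ η ≤ η₂ ∧ η ≤ η₃ ∧ η ≤ η₄ :=
    ⟨min (min η₁ η₂) (min η₃ η₄), by positivity,
      (min_le_left _ _).trans (min_le_left _ _), (min_le_left _ _).trans (min_le_right _ _),
      (min_le_right _ _).trans (min_le_left _ _), (min_le_right _ _).trans (min_le_right _ _)⟩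
  obtain ⟨ρ, hρ, φ, hφX, hφd, hφF⟩ := phi_lemma hX (fun b : Bool => if b then A else X')
    (by intro b; cases b <;> simpa) (ε := η / 4) (by positivity)
  have hφA : ∀ x ∈ X, (∃ y ∈ A, dist x y < ρ) → φ x ∈ A := by
    intro x hx hy
    have := hφF true x hx
    simp only [if_true] at this
    obtain ⟨y, hy, hxy⟩ := hy
    exact this ⟨y, ⟨hAX hy, hy⟩, hxy⟩
  have hφX' : ∀ x ∈ X', φ x ∈ X' := by
    intro x hx
    have := hφF false x (hX'X hx)
    simp only [Bool.false_eq_true, if_false] at this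
    exact this ⟨x, ⟨hX'X hx, hx⟩, by rw [dist_self]; exact hρ⟩
  refine ⟨ρ, hρ, fun l => g (l.map φ) - prism id φ f l, ?_, ?_⟩
  · refine ⟨η / 4, by positivity, fun l hl hd => ?_⟩
    have hlX : ∀ x ∈ l, x ∈ X := fun x hx => hX'X (hl x hx).1
    have e1 : g (l.map φ) = 0 := by
      apply hg
      · intro y hy
        rw [List.mem_map] at hy
        obtain ⟨x, hx, rfl⟩ := hy
        exact ⟨hφX' x (hl x hx).1, hφA x (hlX x hx) (hl x hx).2⟩
      · intro y hy z hz
        exact lt_of_lt_of_le (T4a_small hφd hη hlX hd T4a_map y hy z hz) h3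
    have e2 : prism id φ f l = 0 := by
      apply prism_eq_zero
      intro l' _ hl'
      apply hf
      · intro y hy
        obtain ⟨x, hx, hx'⟩ := hl' y hy
        rcases hx' with h | h
        · rw [h]; exact (hl x hx).1
        · rw [h]; exact hφX' x (hl x hx).1
      · intro y hy z hz
        exact lt_of_lt_of_le (T4a_small hφd hη hlX hd hl' y hy z hz) h1
    change g (l.map φ) - prism id φ f l = 0
    rw [e1, e2, sub_zero]
  · refine ⟨η / 4, by positivity, fun l hl hd => ?_⟩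
    have hlX : ∀ x ∈ l, x ∈ X := fun x hx => (hl x hx).1
    have e1 : f (l.map φ) - D g (l.map φ) = 0 := by
      apply hfg
      · intro y hy
        rw [List.mem_map] at hy
        obtain ⟨x, hx, rfl⟩ := hy
        exact hφA x (hlX x hx) (hl x hx).2
      · intro y hy z hz
        exact lt_of_lt_of_le (T4a_small hφd hη hlX hd T4a_map y hy z hz) h4
    have e2 : prism id φ (D f) l = 0 := by
      apply prism_eq_zero
      intro l' _ hl'
      apply hDf
      · intro y hy
        obtain ⟨x, hx, hx'⟩ := hl' y hy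
        rcases hx' with h | h
        · rw [h]; exact hlX x hx
        · rw [h]; exact hφX x (hlX x hx)
      · intro y hy z hz
        exact lt_of_lt_of_le (T4a_small hφd hη hlX hd hl' y hy z hz) h2
    have e3 := D_prism id φ f l
    rw [e2, add_zero, List.map_id] at e3
    change f l - D (fun l => g (l.map φ) - prism id φ f l) l = 0
    rw [D_sub, D_comp_map, e3]
    linarith

end BU
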