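import Pool.Agent.Work.MP_4030f5_lc.T4a
import Pool.Agent.Work.MP_4030f5_lc.T4b

/-! # T4: tautness, gluing, and the one dimensional Vietoris-Begle theorem -/

namespace BU

variable {M : Type} [MetricSpace M]

/-- primitives over the slab between `s` and `t` -/
private def T4c_Q (X X' : Set M) (π : M → ℝ) (f : List M → ℚ) (s t : ℝ) : Prop :=
  ∃ g : List M → ℚ, Z (X' ∩ π ⁻¹' Set.Icc s t) g ∧
    Z (X ∩ π ⁻¹' Set.Icc s t) (fun l => f l - D g l)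

private theorem T4c_mono {X X' : Set M} {π : M → ℝ} {f : List M → ℚ} {s t s' t' : ℝ}
    (h : T4c_Q X X' π f s t) (hs : s ≤ s') (ht : t' ≤ t) : T4c_Q X X' π f s' t' := by
  obtain ⟨g, h1, h2⟩ := h
  have hsub : π ⁻¹' Set.Icc s' t' ⊆ π ⁻¹' Set.Icc s t :=
    Set.preimage_mono (Set.Icc_subset_Icc hs ht)
  exact ⟨g, Z_mono (Set.inter_subset_inter_right _ hsub) h1,
    Z_mono (Set.inter_subset_inter_right _ hsub) h2⟩

private theorem T4c_compact {X : Set M} (hX : IsCompact X) {π : M → ℝ} (hπ : ContinuousOn π X)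
    {C : Set ℝ} (hC : IsClosed C) : IsCompact (X ∩ π ⁻¹' C) :=
  hX.of_isClosed_subset (hπ.preimage_isClosed_of_isClosed hX.isClosed hC) Set.inter_subset_left

private theorem T4c_glue {X X' : Set M} (hX : IsCompact X) (hX' : IsClosed X') (hsub : X' ⊆ X)
    {π : M → ℝ} (hπ : ContinuousOn π X)
    (h : ∀ y : ℝ, Acyc (X ∩ π ⁻¹' {y}) (X' ∩ π ⁻¹' {y})) {f : List M → ℚ} (hf : Z X' f)
    (hDf : Z X (D f)) {s t r : ℝ} (hst : s ≤ t) (htr : t ≤ r) (h1 : T4c_Q X X' π f s t)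
    (h2 : T4c_Q X X' π f t r) : T4c_Q X X' π f s r := by
  obtain ⟨g₁, a₁, b₁⟩ := h1
  obtain ⟨g₂, a₂, b₂⟩ := h2
  have hU : X ∩ π ⁻¹' Set.Icc s t ∪ X ∩ π ⁻¹' Set.Icc t r = X ∩ π ⁻¹' Set.Icc s r := by
    rw [← Set.inter_union_distrib_left, ← Set.preimage_union, Set.Icc_union_Icc_eq_Icc hst htr]
  have hI : X ∩ π ⁻¹' Set.Icc s t ∩ (X ∩ π ⁻¹' Set.Icc t r) = X ∩ π ⁻¹' {t} := by
    rw [← Set.inter_inter_distrib_left, ← Set.preimage_inter, Set.Icc_inter_Icc_eq_singleton hst htr]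
  have hX'c : IsClosed (X' ∩ π ⁻¹' Set.Icc s r) :=
    ((hπ.mono hsub).preimage_isClosed_of_isClosed hX' isClosed_Icc)
  have hsub' : X' ∩ π ⁻¹' Set.Icc s r ⊆ X ∩ π ⁻¹' Set.Icc s t ∪ X ∩ π ⁻¹' Set.Icc t r := by
    rw [hU]; exact Set.inter_subset_inter_left _ hsub
  have e1 : X' ∩ π ⁻¹' Set.Icc s r ∩ (X ∩ π ⁻¹' Set.Icc s t) = X' ∩ π ⁻¹' Set.Icc s t := by
    ext x
    simp only [Set.mem_inter_iff, Set.mem_preimage, Set.mem_Icc]
    constructor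
    · rintro ⟨⟨h1, _⟩, _, h2⟩; exact ⟨h1, h2⟩
    · rintro ⟨h1, h2, h3⟩; exact ⟨⟨h1, h2, h3.trans htr⟩, hsub h1, h2, h3⟩
  have e2 : X' ∩ π ⁻¹' Set.Icc s r ∩ (X ∩ π ⁻¹' Set.Icc t r) = X' ∩ π ⁻¹' Set.Icc t r := by
    ext x
    simp only [Set.mem_inter_iff, Set.mem_preimage, Set.mem_Icc]
    constructor
    · rintro ⟨⟨h1, _⟩, _, h2⟩; exact ⟨h1, h2⟩
    · rintro ⟨h1, h2, h3⟩; exact ⟨⟨h1, hst.trans h2, h3⟩, hsub h1, h2, h3⟩
  have e3 : X' ∩ π ⁻¹' Set.Icc s r ∩ (X ∩ π ⁻¹' Set.Icc s t ∩ (X ∩ π ⁻¹' Set.Icc t r)) =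
      X' ∩ π ⁻¹' {t} := by
    rw [hI]
    ext x
    simp only [Set.mem_inter_iff, Set.mem_preimage, Set.mem_Icc, Set.mem_singleton_iff]
    constructor
    · rintro ⟨⟨h1, _⟩, _, h2⟩; exact ⟨h1, h2⟩
    · rintro ⟨h1, h2⟩; exact ⟨⟨h1, by rw [h2]; exact hst, by rw [h2]; exact htr⟩, hsub h1, h2⟩
  have hac : Acyc (X ∩ π ⁻¹' Set.Icc s t ∩ (X ∩ π ⁻¹' Set.Icc t r))
      (X' ∩ π ⁻¹' Set.Icc s r ∩ (X ∩ π ⁻¹' Set.Icc s t ∩ (X ∩ π ⁻¹' Set.Icc t r))) := by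
    rw [e3, hI]; exact h t
  obtain ⟨g, c1, c2⟩ := glue_acyc (T4c_compact hX hπ isClosed_Icc) (T4c_compact hX hπ isClosed_Icc)
    hX'c hsub' hac (f := f) (g₁ := g₁) (g₂ := g₂) (Z_mono Set.inter_subset_left hf)
    (by rw [hU]; exact Z_mono Set.inter_subset_left hDf) (by rw [e1]; exact a₁)
    (by rw [e2]; exact a₂) b₁ b₂
  exact ⟨g, c1, by rw [← hU]; exact c2⟩

private theorem T4c_local {X X' : Set M} (hX : IsCompact X) (hX' : IsClosed X') (hsub : X' ⊆ X)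
    {π : M → ℝ} (hπ : ContinuousOn π X)
    (h : ∀ y : ℝ, Acyc (X ∩ π ⁻¹' {y}) (X' ∩ π ⁻¹' {y})) {f : List M → ℚ} (hf : Z X' f)
    (hDf : Z X (D f)) (y : ℝ) : ∃ δ > 0, T4c_Q X X' π f (y - δ) (y + δ) := by
  obtain ⟨g, hg, hfg⟩ := h y f (Z_mono Set.inter_subset_left hf) (Z_mono Set.inter_subset_left hDf)
  have hAc : IsCompact (X ∩ π ⁻¹' {y}) := T4c_compact hX hπ isClosed_singleton
  have e1 : X' ∩ (X ∩ π ⁻¹' {y}) = X' ∩ π ⁻¹' {y} := by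
    rw [← Set.inter_assoc, Set.inter_eq_self_of_subset_left hsub]
  obtain ⟨ρ, hρ, g', hg', hfg'⟩ := taut hX hX' hsub hAc.isClosed Set.inter_subset_left hf hDf
    (g := g) (by rw [e1]; exact hg) hfg
  -- a neighbourhood of the fibre
  have hopen : IsOpen {x : M | ∃ z ∈ X ∩ π ⁻¹' {y}, dist x z < ρ} := by
    have : {x : M | ∃ z ∈ X ∩ π ⁻¹' {y}, dist x z < ρ} =
        ⋃ z ∈ X ∩ π ⁻¹' {y}, Metric.ball z ρ := by
      ext x; simp [Metric.mem_ball]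
    rw [this]
    exact isOpen_biUnion fun z _ => Metric.isOpen_ball
  have hK : IsCompact (X \ {x : M | ∃ z ∈ X ∩ π ⁻¹' {y}, dist x z < ρ}) := hX.diff hopen
  have hδ : ∃ δ > 0, ∀ x ∈ X, |π x - y| ≤ δ → ∃ z ∈ X ∩ π ⁻¹' {y}, dist x z < ρ := by
    rcases Set.eq_empty_or_nonempty (X \ {x : M | ∃ z ∈ X ∩ π ⁻¹' {y}, dist x z < ρ}) with he | hne
    · refine ⟨1, one_pos, fun x hx _ => ?_⟩
      by_contra hc
      have : x ∈ X \ {x : M | ∃ z ∈ X ∩ π ⁻¹' {y}, dist x z < ρ} := ⟨hx, hc⟩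
      rw [he] at this
      exact this
    · have hcont : ContinuousOn (fun x => |π x - y|)
          (X \ {x : M | ∃ z ∈ X ∩ π ⁻¹' {y}, dist x z < ρ}) :=
        ((hπ.mono Set.sdiff_subset).sub continuousOn_const).abs
      obtain ⟨x₀, hx₀, hmin⟩ := hK.exists_isMinOn hne hcont
      have hpos : 0 < |π x₀ - y| := by
        rw [abs_pos, sub_ne_zero]
        intro hc
        exact hx₀.2 ⟨x₀, ⟨hx₀.1, hc⟩, by rw [dist_self]; exact hρ⟩
      refine ⟨|π x₀ - y| / 2, by positivity, fun x hx hxy => ?_⟩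
      by_contra hc
      have h3 : |π x₀ - y| ≤ |π x - y| := hmin ⟨hx, hc⟩
      linarith
  obtain ⟨δ, hδ0, hδ1⟩ := hδ
  refine ⟨δ, hδ0, g', ?_, ?_⟩
  · refine Z_mono ?_ hg'
    rintro x ⟨hx, hx2⟩
    refine ⟨hx, hδ1 x (hsub hx) ?_⟩
    have := Set.mem_Icc.1 hx2
    rw [abs_le]
    constructor <;> linarith [this.1, this.2]
  · refine Z_mono ?_ hfg'
    rintro x ⟨hx, hx2⟩
    refine ⟨hx, hδ1 x hx ?_⟩
    have := Set.mem_Icc.1 hx2
    rw [abs_le]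
    constructor <;> linarith [this.1, this.2]

/-- One dimensional Vietoris-Begle theorem, relative version. -/
theorem vietoris_begle {X X' : Set M} (hX : IsCompact X) (hX' : IsClosed X') (hsub : X' ⊆ X)
    {π : M → ℝ} (hπ : ContinuousOn π X)
    (h : ∀ y : ℝ, Acyc (X ∩ π ⁻¹' {y}) (X' ∩ π ⁻¹' {y})) : Acyc X X' := by
  intro f hf hDf
  -- bounds of the image
  obtain ⟨a, ha⟩ := (hX.image_of_continuousOn hπ).bddBelow
  obtain ⟨b₀, hb₀⟩ := (hX.image_of_continuousOn hπ).bddAbove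
  obtain ⟨b, hb, hab⟩ : ∃ b, (∀ x ∈ X, π x ≤ b) ∧ a ≤ b :=
    ⟨max a b₀, fun x hx => (hb₀ (Set.mem_image_of_mem π hx)).trans (le_max_right _ _),
      le_max_left _ _⟩
  have ha' : ∀ x ∈ X, a ≤ π x := fun x hx => ha (Set.mem_image_of_mem π hx)
  choose δ hδ0 hδ using T4c_local hX hX' hsub hπ h hf hDf
  obtain ⟨δ₀, hδ₀, hleb⟩ := lebesgue_number_lemma_of_metric (s := Set.Icc a b)
    (c := fun y : ℝ => Metric.ball y (δ y)) isCompact_Icc (fun y => Metric.isOpen_ball)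
    (fun y _ => Set.mem_iUnion.2 ⟨y, Metric.mem_ball_self (hδ0 y)⟩)
  have hsmall : ∀ s t : ℝ, s ∈ Set.Icc a b → s ≤ t → t < s + δ₀ → T4c_Q X X' π f s t := by
    intro s t hs hst ht
    obtain ⟨y, hy⟩ := hleb s hs
    have h1 : s ∈ Metric.ball y (δ y) := hy (Metric.mem_ball_self hδ₀)
    have h2 : t ∈ Metric.ball y (δ y) := hy (by
      rw [Metric.mem_ball, Real.dist_eq, abs_lt]
      constructor <;> linarith)
    rw [Metric.mem_ball, Real.dist_eq, abs_lt] at h1 h2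
    exact T4c_mono (hδ y) (by linarith [h1.1]) (by linarith [h2.2])
  have hind : ∀ n : ℕ, T4c_Q X X' π f a (min b (a + n * (δ₀ / 2))) := by
    intro n
    induction n with
    | zero =>
      have e : min b (a + (0 : ℕ) * (δ₀ / 2)) = a := by simp [hab]
      rw [e]
      exact hsmall a a ⟨le_rfl, hab⟩ le_rfl (by linarith)
    | succ n ih =>
      have hle : a ≤ min b (a + n * (δ₀ / 2)) := le_min hab (by
        have : (0 : ℝ) ≤ n * (δ₀ / 2) := by positivity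
        linarith)
      have hle2 : min b (a + n * (δ₀ / 2)) ≤ min b (a + (n + 1 : ℕ) * (δ₀ / 2)) := by
        refine min_le_min le_rfl ?_
        push_cast
        nlinarith
      refine T4c_glue hX hX' hsub hπ h hf hDf hle hle2 ih (hsmall _ _ ⟨hle, min_le_left _ _⟩ hle2 ?_)
      rcases min_cases b (a + n * (δ₀ / 2)) with ⟨h1, h2⟩ | ⟨h1, h2⟩
      · rw [h1]
        have := min_le_left b (a + (n + 1 : ℕ) * (δ₀ / 2))
        linarith
      · rw [h1]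
        have := min_le_right b (a + (n + 1 : ℕ) * (δ₀ / 2))
        push_cast at this ⊢
        linarith
  obtain ⟨n, hn⟩ := exists_nat_gt ((b - a) / (δ₀ / 2))
  have hfin := hind n
  have e : min b (a + n * (δ₀ / 2)) = b := by
    rw [min_eq_left]
    rw [div_lt_iff₀ (by positivity)] at hn
    linarith
  rw [e] at hfin
  obtain ⟨g, c1, c2⟩ := hfin
  have e1 : X ∩ π ⁻¹' Set.Icc a b = X :=
    Set.inter_eq_left.2 fun x hx => ⟨ha' x hx, hb x hx⟩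
  have e2 : X' ∩ π ⁻¹' Set.Icc a b = X' :=
    Set.inter_eq_left.2 fun x hx => ⟨ha' x (hsub hx), hb x (hsub hx)⟩
  rw [e2] at c1
  rw [e1] at c2
  exact ⟨g, c1, c2⟩

end BU
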