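import Pool.Agent.Work.MP_4030f5_lc.T5a
import Pool.Agent.Work.MP_4030f5_lc.T4c
import Pool.Agent.Work.MP_4030f5_lc.T3b

/-! # T5: cylindrical families are homologically trivial over acyclic pairs -/

namespace BU

/-- location of a real number -/
private theorem T5b_locate {l : ℕ} (a : Fin l → ℝ) (ha : StrictMono a) (t : ℝ) :
    (∃ j, a j = t) ∨ ∃ i : Fin (l + 1), (∀ j : Fin l, (j : ℕ) < i → a j < t) ∧
      (∀ j : Fin l, (i : ℕ) ≤ j → t < a j) := by
  classical
  by_cases h : ∃ j, a j = t
  · exact Or.inl h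
  · right
    push Not at h
    have hex : ∃ i : ℕ, ∀ j : Fin l, i ≤ (j : ℕ) → t < a j :=
      ⟨l, fun j hj => absurd j.2 (by omega)⟩
    have hspec := Nat.find_spec hex
    have hle : Nat.find hex ≤ l := Nat.find_le (fun j hj => absurd j.2 (by omega))
    refine ⟨⟨Nat.find hex, by omega⟩, ?_, hspec⟩
    intro j hj
    simp only at hj
    have h1 : ¬ ∀ j : Fin l, Nat.find hex - 1 ≤ (j : ℕ) → t < a j :=
      Nat.find_min hex (by omega)
    push Not at h1
    obtain ⟨j', hj', hj''⟩ := h1
    have h2 : (j' : ℕ) < Nat.find hex := by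
      by_contra hc
      exact absurd (hspec j' (by omega)) (not_lt.2 hj'')
    have h3 : a j' < t := lt_of_le_of_ne hj'' (h j')
    have h4 : a j ≤ a j' := ha.monotone (Fin.le_def.2 (by omega))
    exact h4.trans_lt h3

/-- the piecewise linear normalisation -/
private noncomputable def T5b_th {m : ℕ} (a : Fin (m + 1) → ℝ) (t : ℝ) : ℝ :=
  ∑ i : Fin m, max 0 (min 1 ((t - a i.castSucc) / (a i.succ - a i.castSucc)))

private theorem T5b_gap {m : ℕ} {a : Fin (m + 1) → ℝ} (ha : StrictMono a) (i : Fin m) :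
    0 < a i.succ - a i.castSucc := by
  have := ha (Fin.castSucc_lt_succ (i := i))
  linarith

private theorem T5b_sum {m : ℕ} (i : ℕ) (hi : i ≤ m) (s : ℝ) (h : i = m → s = 0)
    (c : Fin m → ℝ) (h1 : ∀ j : Fin m, (j : ℕ) < i → c j = 1) (h2 : ∀ j : Fin m, (j : ℕ) = i → c j = s)
    (h3 : ∀ j : Fin m, i < (j : ℕ) → c j = 0) : ∑ j, c j = i + s := by
  have e1 : ∀ j : Fin m, c j = (if (j : ℕ) < i then 1 else 0) + (if (j : ℕ) = i then s else 0) := by
    intro j
    rcases lt_trichotomy (j : ℕ) i with hj | hj | hj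
    · rw [if_pos hj, if_neg (by omega), h1 j hj, add_zero]
    · rw [if_neg (by omega), if_pos hj, h2 j hj, zero_add]
    · rw [if_neg (by omega), if_neg (by omega), h3 j hj, add_zero]
  rw [Finset.sum_congr rfl fun j _ => e1 j, Finset.sum_add_distrib]
  congr 1
  · rw [Finset.sum_boole]
    have : (Finset.univ.filter (fun j : Fin m => (j : ℕ) < i)).card = min m i :=
      Fin.card_filter_val_lt
    rw [this, min_eq_right hi]
  · rcases Nat.lt_or_ge i m with him | him
    · rw [Finset.sum_eq_single (⟨i, him⟩ : Fin m)]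
      · simp
      · intro j _ hj
        rw [if_neg]
        intro hc
        exact hj (Fin.ext hc)
      · intro hc; exact absurd (Finset.mem_univ _) hc
    · rw [h (by omega)]
      simp

private theorem T5b_one {x : ℝ} (h : 1 ≤ x) : max 0 (min 1 x) = 1 := by
  rw [min_eq_left h]; norm_num

private theorem T5b_zero {x : ℝ} (h : x ≤ 0) : max 0 (min 1 x) = 0 := by
  rw [min_eq_right (by linarith), max_eq_left h]

private theorem T5b_mid {x : ℝ} (h0 : 0 ≤ x) (h1 : x ≤ 1) : max 0 (min 1 x) = x := by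
  rw [min_eq_right h1, max_eq_right h0]

private theorem T5b_eval {m : ℕ} {a : Fin (m + 1) → ℝ} (ha : StrictMono a) (i : Fin m) {s : ℝ}
    (hs0 : 0 ≤ s) (hs1 : s ≤ 1) :
    T5b_th a ((1 - s) * a i.castSucc + s * a i.succ) = i + s := by
  have hg := T5b_gap ha i
  unfold T5b_th
  refine T5b_sum i i.2.le s (fun h => absurd h (by have := i.2; omega)) _ ?_ ?_ ?_
  · intro j hj
    have h1 : a j.succ ≤ a i.castSucc :=
      ha.monotone (Fin.le_def.2 (by simp only [Fin.val_succ, Fin.val_castSucc]; omega))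
    refine T5b_one ?_
    rw [le_div_iff₀ (T5b_gap ha j)]
    nlinarith
  · intro j hj
    have hj' : j = i := Fin.ext hj
    subst hj'
    have e : ((1 - s) * a j.castSucc + s * a j.succ - a j.castSucc) /
        (a j.succ - a j.castSucc) = s := by
      rw [div_eq_iff hg.ne']; ring
    rw [e]
    exact T5b_mid hs0 hs1
  · intro j hj
    have h1 : a i.succ ≤ a j.castSucc :=
      ha.monotone (Fin.le_def.2 (by simp only [Fin.val_succ, Fin.val_castSucc]; omega))
    refine T5b_zero ?_
    refine div_nonpos_of_nonpos_of_nonneg ?_ (T5b_gap ha j).le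
    nlinarith

private theorem T5b_evalj {m : ℕ} {a : Fin (m + 1) → ℝ} (ha : StrictMono a) (j : Fin (m + 1)) :
    T5b_th a (a j) = j := by
  unfold T5b_th
  have := T5b_sum (m := m) j (by have := j.2; omega) 0 (fun _ => rfl)
    (fun i : Fin m => max 0 (min 1 ((a j - a i.castSucc) / (a i.succ - a i.castSucc)))) ?_ ?_ ?_
  · rw [add_zero] at this
    exact this
  · intro i hi
    have h1 : a i.succ ≤ a j :=
      ha.monotone (Fin.le_def.2 (by simp only [Fin.val_succ]; omega))
    refine T5b_one ?_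
    rw [le_div_iff₀ (T5b_gap ha i)]
    linarith
  · intro i hi
    have h1 : i.castSucc = j := Fin.ext hi
    simp only [h1, sub_self, zero_div]
    exact T5b_zero le_rfl
  · intro i hi
    have h1 : a j ≤ a i.castSucc :=
      ha.monotone (Fin.le_def.2 (by simp only [Fin.val_castSucc]; omega))
    refine T5b_zero ?_
    exact div_nonpos_of_nonpos_of_nonneg (by linarith) (T5b_gap ha i).le

/-- position of a point between the first and the last section -/
private theorem T5b_pos {m : ℕ} {a : Fin (m + 1) → ℝ} (ha : StrictMono a) {t : ℝ}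
    (h0 : a 0 ≤ t) (h1 : t ≤ a (Fin.last m)) :
    (∃ j, t = a j) ∨ ∃ (i : Fin m) (s : ℝ), 0 < s ∧ s < 1 ∧
      t = (1 - s) * a i.castSucc + s * a i.succ := by
  rcases T5b_locate a ha t with ⟨j, hj⟩ | ⟨i, hi1, hi2⟩
  · exact Or.inl ⟨j, hj.symm⟩
  · right
    have hi0 : (i : ℕ) ≠ 0 := by
      intro hc
      exact absurd (hi2 0 (by simp [hc])) (not_lt.2 h0)
    have him : (i : ℕ) ≤ m := by
      by_contra hc
      exact absurd (hi1 (Fin.last m) (by simp only [Fin.val_last]; omega)) (not_lt.2 h1)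
    obtain ⟨i', hi'⟩ : ∃ i' : Fin m, (i' : ℕ) + 1 = i := ⟨⟨i - 1, by omega⟩, by simp only; omega⟩
    have b1 : a i'.castSucc < t := hi1 _ (by simp only [Fin.val_castSucc]; omega)
    have b2 : t < a i'.succ := hi2 _ (by simp only [Fin.val_succ]; omega)
    have hg := T5b_gap ha i'
    refine ⟨i', (t - a i'.castSucc) / (a i'.succ - a i'.castSucc), div_pos (by linarith) hg, ?_, ?_⟩
    · rw [div_lt_one hg]; linarith
    · field_simp
      ring

private theorem T5b_fibre {k : ℕ} {C : Type} [MetricSpace C] [CompactSpace C] {C' : Set C}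
    {E : C → (Fin (k + 1) → ℝ) → Prop}
    (hE : IsCompact {p : C × (Fin (k + 1) → ℝ) | E p.1 p.2}) {θ : C × (Fin (k + 1) → ℝ) → ℝ} {y : ℝ}
    (σ : C(C, ℝ)) (h1 : ∀ (b : C) (x : Fin k → ℝ), θ (b, Fin.cons (σ b) x) = y)
    (h2 : ∀ (b : C) (x : Fin (k + 1) → ℝ), E b x → θ (b, x) = y → x 0 = σ b)
    (h3 : IsCompact {p : C × (Fin k → ℝ) | E p.1 (Fin.cons (σ p.1) p.2)} →
      Acyc {p : C × (Fin k → ℝ) | E p.1 (Fin.cons (σ p.1) p.2)}
        {p : C × (Fin k → ℝ) | p.1 ∈ C' ∧ E p.1 (Fin.cons (σ p.1) p.2)}) :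
    Acyc ({p : C × (Fin (k + 1) → ℝ) | E p.1 p.2} ∩ θ ⁻¹' {y})
      ({p : C × (Fin (k + 1) → ℝ) | p.1 ∈ C' ∧ E p.1 p.2} ∩ θ ⁻¹' {y}) := by
  have hS : IsCompact {p : C × (Fin k → ℝ) | E p.1 (Fin.cons (σ p.1) p.2)} := by
    have hcl : IsClosed {p : C × (Fin (k + 1) → ℝ) | p.2 0 = σ p.1} :=
      isClosed_eq (by fun_prop) (by fun_prop)
    have hc := hE.inter_right hcl
    have hcont : Continuous (fun p : C × (Fin (k + 1) → ℝ) => (p.1, (Fin.tail p.2 : Fin k → ℝ))) := by
      refine continuous_fst.prodMk (continuous_pi fun i => ?_)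
      exact (continuous_apply i.succ).comp continuous_snd
    have himg := hc.image hcont
    have e : (fun p : C × (Fin (k + 1) → ℝ) => (p.1, (Fin.tail p.2 : Fin k → ℝ))) ''
        ({p : C × (Fin (k + 1) → ℝ) | E p.1 p.2} ∩ {p | p.2 0 = σ p.1}) =
        {p : C × (Fin k → ℝ) | E p.1 (Fin.cons (σ p.1) p.2)} := by
      ext p
      constructor
      · rintro ⟨q, ⟨hq1, hq2⟩, rfl⟩
        simp only [Set.mem_ofPred_eq] at hq1 hq2 ⊢
        rw [← hq2, Fin.cons_self_tail]
        exact hq1
      · intro hp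
        refine ⟨(p.1, Fin.cons (σ p.1) p.2), ⟨hp, ?_⟩, ?_⟩
        · simp
        · simp
    rw [e] at himg
    exact himg
  have hac := h3 hS
  obtain ⟨φ, hφ⟩ : ∃ φ : C × (Fin k → ℝ) → C × (Fin (k + 1) → ℝ),
    φ = fun p => (p.1, Fin.cons (σ p.1) p.2) := ⟨_, rfl⟩
  have hφc : Continuous φ := by
    rw [hφ]
    refine continuous_fst.prodMk (continuous_pi fun i => ?_)
    refine Fin.cases ?_ (fun i => ?_) i
    · simp only [Fin.cons_zero]
      fun_prop
    · simp only [Fin.cons_succ]
      exact (continuous_apply i).comp continuous_snd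
  have hinj : Function.Injective φ := by
    intro p q hpq
    rw [hφ] at hpq
    simp only [Prod.mk.injEq] at hpq
    refine Prod.ext hpq.1 ?_
    have := congrArg Fin.tail hpq.2
    simpa using this
  have hres := Acyc.image hS (X' := {p : C × (Fin k → ℝ) | p.1 ∈ C' ∧ E p.1 (Fin.cons (σ p.1) p.2)})
    (fun p hp => hp.2) hφc.continuousOn hinj.injOn hac
  have e1 : φ '' {p : C × (Fin k → ℝ) | E p.1 (Fin.cons (σ p.1) p.2)} =
      {p : C × (Fin (k + 1) → ℝ) | E p.1 p.2} ∩ θ ⁻¹' {y} := by
    ext q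
    constructor
    · rintro ⟨p, hp, rfl⟩
      rw [hφ]
      exact ⟨hp, h1 p.1 p.2⟩
    · rintro ⟨hq1, hq2⟩
      have h4 := h2 q.1 q.2 hq1 hq2
      have h5 : (Fin.cons (σ q.1) (Fin.tail q.2) : Fin (k + 1) → ℝ) = q.2 := by
        rw [← h4, Fin.cons_self_tail]
      refine ⟨(q.1, Fin.tail q.2), ?_, ?_⟩
      · simp only [Set.mem_ofPred_eq, h5]
        exact hq1
      · rw [hφ]
        simp only [h5]
  have e2 : φ '' {p : C × (Fin k → ℝ) | p.1 ∈ C' ∧ E p.1 (Fin.cons (σ p.1) p.2)} =
      {p : C × (Fin (k + 1) → ℝ) | p.1 ∈ C' ∧ E p.1 p.2} ∩ θ ⁻¹' {y} := by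
    ext q
    constructor
    · rintro ⟨p, hp, rfl⟩
      rw [hφ]
      exact ⟨hp, h1 p.1 p.2⟩
    · rintro ⟨hq1, hq2⟩
      have h4 := h2 q.1 q.2 hq1.2 hq2
      have h5 : (Fin.cons (σ q.1) (Fin.tail q.2) : Fin (k + 1) → ℝ) = q.2 := by
        rw [← h4, Fin.cons_self_tail]
      refine ⟨(q.1, Fin.tail q.2), ?_, ?_⟩
      · simp only [Set.mem_ofPred_eq, h5]
        exact hq1
      · rw [hφ]
        simp only [h5]
  rw [e1, e2] at hres
  exact hres

/-- the main theorem: `C` a compact metric space, `C' ⊆ C` closed with `H^*(C,C') = 0`,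
`E ⊆ C × ℝ^k` compact and cylindrical over `C`.  Then `H^*(E, E|C') = 0`.  Induction on `k` with
the Vietoris-Begle theorem for the piecewise linear normalisation
`θ (b, x) = ∑_i max 0 (min 1 ((x_0 - ξ_i b) / (ξ_{i+1} b - ξ_i b)))`. -/
theorem Cyl.acyc {k : ℕ} {C : Type} [MetricSpace C] [CompactSpace C] {C' : Set C}
    (hC' : IsClosed C') (hac : Acyc Set.univ C') {E : C → (Fin k → ℝ) → Prop}
    (hE : IsCompact {p : C × (Fin k → ℝ) | E p.1 p.2}) (hcyl : Cyl k C E) :
    Acyc {p : C × (Fin k → ℝ) | E p.1 p.2} {p : C × (Fin k → ℝ) | p.1 ∈ C' ∧ E p.1 p.2} := by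
  induction k with
  | zero =>
    rcases hcyl with h | h
    · have hφc : Continuous (fun b : C => (b, (Fin.elim0 : Fin 0 → ℝ))) :=
        continuous_id.prodMk continuous_const
      have hres := Acyc.image isCompact_univ (Set.subset_univ C') hφc.continuousOn
        (fun p _ q _ hpq => congrArg Prod.fst hpq) hac
      have e1 : (fun b : C => (b, (Fin.elim0 : Fin 0 → ℝ))) '' Set.univ =
          {p : C × (Fin 0 → ℝ) | E p.1 p.2} := by
        ext p
        constructor
        · rintro ⟨b, _, rfl⟩; exact h _ _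
        · intro _
          exact ⟨p.1, trivial, Prod.ext rfl (Subsingleton.elim _ _)⟩
      have e2 : (fun b : C => (b, (Fin.elim0 : Fin 0 → ℝ))) '' C' =
          {p : C × (Fin 0 → ℝ) | p.1 ∈ C' ∧ E p.1 p.2} := by
        ext p
        constructor
        · rintro ⟨b, hb, rfl⟩; exact ⟨hb, h _ _⟩
        · intro hp
          exact ⟨p.1, hp.1, Prod.ext rfl (Subsingleton.elim _ _)⟩
      rw [e1, e2] at hres
      exact hres
    · have e1 : {p : C × (Fin 0 → ℝ) | E p.1 p.2} = ∅ :=
        Set.eq_empty_of_forall_notMem fun p hp => h _ _ hp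
      have e2 : {p : C × (Fin 0 → ℝ) | p.1 ∈ C' ∧ E p.1 p.2} = ∅ :=
        Set.eq_empty_of_forall_notMem fun p hp => h _ _ hp.2
      rw [e1, e2]
      exact Acyc.refl _
  | succ k ih =>
    obtain ⟨l, ξ, hmono, hsec, hband⟩ := hcyl
    rcases Set.eq_empty_or_nonempty {p : C × (Fin (k + 1) → ℝ) | E p.1 p.2} with hemp | hne
    · have e2 : {p : C × (Fin (k + 1) → ℝ) | p.1 ∈ C' ∧ E p.1 p.2} = ∅ :=
        Set.subset_empty_iff.1 (fun p hp => hemp ▸ (show p ∈ {p : C × (Fin (k + 1) → ℝ) | E p.1 p.2}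
          from hp.2))
      rw [hemp, e2]
      exact Acyc.refl _
    -- no point of `E` lies in the unbounded bands
    have hcoord : Continuous (fun p : C × (Fin (k + 1) → ℝ) => p.2 0) := by fun_prop
    have hlow : ∀ (b : C) (x : Fin (k + 1) → ℝ), E b x → ¬ ∀ j, x 0 < ξ j b := by
      intro b x hx hc
      obtain ⟨c, hcb⟩ := (hE.image hcoord).bddBelow
      have hmem : ∀ t, t ≤ x 0 → ((b, t) : C × ℝ) ∈ Band ξ 0 := fun t ht =>
        ⟨fun j hj => absurd hj (by simp), fun j _ => ht.trans_lt (hc j)⟩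
      have hnon := ((hband 0).nonempty_iff ⟨(b, x 0), hmem _ le_rfl⟩
        ⟨(b, min (x 0) (c - 1)), hmem _ (min_le_left _ _)⟩).1
        ⟨Fin.tail x, by simp only [Fin.cons_self_tail]; exact hx⟩
      obtain ⟨y, hy⟩ := hnon
      have := hcb (Set.mem_image_of_mem (fun p : C × (Fin (k + 1) → ℝ) => p.2 0)
        (show (b, (Fin.cons (min (x 0) (c - 1)) y : Fin (k + 1) → ℝ)) ∈
          {p : C × (Fin (k + 1) → ℝ) | E p.1 p.2} from hy))
      simp only [Fin.cons_zero] at this
      have h2 := min_le_right (x 0) (c - 1)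
      linarith
    have hhigh : ∀ (b : C) (x : Fin (k + 1) → ℝ), E b x → ¬ ∀ j, ξ j b < x 0 := by
      intro b x hx hc
      obtain ⟨c, hcb⟩ := (hE.image hcoord).bddAbove
      have hmem : ∀ t, x 0 ≤ t → ((b, t) : C × ℝ) ∈ Band ξ (Fin.last l) := fun t ht =>
        ⟨fun j _ => (hc j).trans_le ht, fun j hj => absurd hj (by
          simp only [Fin.val_last]; have := j.2; omega)⟩
      have hnon := ((hband (Fin.last l)).nonempty_iff ⟨(b, x 0), hmem _ le_rfl⟩
        ⟨(b, max (x 0) (c + 1)), hmem _ (le_max_left _ _)⟩).1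
        ⟨Fin.tail x, by simp only [Fin.cons_self_tail]; exact hx⟩
      obtain ⟨y, hy⟩ := hnon
      have := hcb (Set.mem_image_of_mem (fun p : C × (Fin (k + 1) → ℝ) => p.2 0)
        (show (b, (Fin.cons (max (x 0) (c + 1)) y : Fin (k + 1) → ℝ)) ∈
          {p : C × (Fin (k + 1) → ℝ) | E p.1 p.2} from hy))
      simp only [Fin.cons_zero] at this
      have h2 := le_max_right (x 0) (c + 1)
      linarith
    have hl : l ≠ 0 := by
      rintro rfl
      obtain ⟨p, hp⟩ := hne
      exact hlow p.1 p.2 hp fun j => j.elim0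
    obtain ⟨m, rfl⟩ : ∃ m, l = m + 1 := ⟨l - 1, by omega⟩
    have hge : ∀ (b : C) (x : Fin (k + 1) → ℝ), E b x → ξ 0 b ≤ x 0 := by
      intro b x hx
      by_contra hc
      push Not at hc
      exact hlow b x hx fun j => hc.trans_le ((hmono b).monotone (Fin.zero_le j))
    have hle : ∀ (b : C) (x : Fin (k + 1) → ℝ), E b x → x 0 ≤ ξ (Fin.last m) b := by
      intro b x hx
      by_contra hc
      push Not at hc
      exact hhigh b x hx fun j => ((hmono b).monotone (Fin.le_last j)).trans_lt hc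
    -- the normalisation
    obtain ⟨θ, hθ⟩ : ∃ θ : C × (Fin (k + 1) → ℝ) → ℝ,
      θ = fun p => T5b_th (fun j => ξ j p.1) (p.2 0) := ⟨_, rfl⟩
    have hθc : Continuous θ := by
      rw [hθ]
      unfold T5b_th
      refine continuous_finsetSum _ fun i _ => ?_
      refine continuous_const.max (continuous_const.min (Continuous.div ?_ ?_ ?_))
      · fun_prop
      · fun_prop
      · intro p
        exact (T5b_gap (hmono p.1) i).ne'
    have hclosed : IsClosed {p : C × (Fin (k + 1) → ℝ) | p.1 ∈ C' ∧ E p.1 p.2} :=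
      (hC'.preimage continuous_fst).inter hE.isClosed
    refine vietoris_begle hE hclosed (fun p hp => hp.2) hθc.continuousOn fun y => ?_
    by_cases hy : ∃ p ∈ {p : C × (Fin (k + 1) → ℝ) | E p.1 p.2}, θ p = y
    · obtain ⟨p₀, hp₀, hpy⟩ := hy
      rcases T5b_pos (hmono p₀.1) (hge p₀.1 p₀.2 hp₀) (hle p₀.1 p₀.2 hp₀) with
        ⟨j, hj⟩ | ⟨i, s, hs0, hs1, hi⟩
      · -- a section
        have hyj : y = j := by
          rw [← hpy, hθ]
          simp only
          rw [hj]
          exact T5b_evalj (hmono p₀.1) j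
        refine T5b_fibre hE (ξ j) ?_ ?_ (fun hc => ih hc (hsec j))
        · intro b x
          rw [hθ]
          simp only [Fin.cons_zero]
          rw [hyj]
          exact T5b_evalj (hmono b) j
        · intro b x hx hxy
          rcases T5b_pos (hmono b) (hge b x hx) (hle b x hx) with ⟨j', hj'⟩ | ⟨i', s', h0', h1', hi'⟩
          · have h5 : ((j' : ℕ) : ℝ) = (j : ℕ) := by
              rw [← hyj, ← hxy, hθ]
              simp only
              rw [hj']
              exact (T5b_evalj (hmono b) j').symm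
            have h6 : j' = j := Fin.ext (by exact_mod_cast h5)
            rw [hj', h6]
          · exfalso
            have h5 : ((i' : ℕ) : ℝ) + s' = (j : ℕ) := by
              rw [← hyj, ← hxy, hθ]
              simp only
              rw [hi']
              exact (T5b_eval (hmono b) i' h0'.le h1'.le).symm
            have h6 : (i' : ℕ) < j := by
              have : ((i' : ℕ) : ℝ) < (j : ℕ) := by linarith
              exact_mod_cast this
            have h7 : (j : ℕ) < i' + 1 := by
              have : ((j : ℕ) : ℝ) < (i' : ℕ) + 1 := by linarith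
              exact_mod_cast this
            omega
      · -- a band
        have hyi : y = i + s := by
          rw [← hpy, hθ]
          simp only
          rw [hi]
          exact T5b_eval (hmono p₀.1) i hs0.le hs1.le
        obtain ⟨σ, hσ⟩ : ∃ σ : C(C, ℝ), ∀ b, σ b = (1 - s) * ξ i.castSucc b + s * ξ i.succ b :=
          ⟨⟨fun b => (1 - s) * ξ i.castSucc b + s * ξ i.succ b, by fun_prop⟩, fun b => rfl⟩
        have hgap : ∀ b, 0 < ξ i.succ b - ξ i.castSucc b := fun b => T5b_gap (hmono b) i
        have hmem : ∀ b : C, ((b, σ b) : C × ℝ) ∈ Band ξ i.succ.castSucc := by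
          intro b
          refine ⟨fun j hj => ?_, fun j hj => ?_⟩
          · have h1 : ξ j b ≤ ξ i.castSucc b := (hmono b).monotone (Fin.le_def.2 (by
              simp only [Fin.val_castSucc, Fin.val_succ] at hj ⊢; omega))
            simp only
            rw [hσ]
            nlinarith [hgap b]
          · have h1 : ξ i.succ b ≤ ξ j b := (hmono b).monotone (Fin.le_def.2 (by
              simp only [Fin.val_castSucc, Fin.val_succ] at hj ⊢; omega))
            simp only
            rw [hσ]
            nlinarith [hgap b]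
        refine T5b_fibre hE σ ?_ ?_ (fun hc => ih (E := fun b x => E b (Fin.cons (σ b) x)) hc ?_)
        · intro b x
          rw [hθ]
          simp only [Fin.cons_zero]
          rw [hyi, hσ]
          exact T5b_eval (hmono b) i hs0.le hs1.le
        · intro b x hx hxy
          rcases T5b_pos (hmono b) (hge b x hx) (hle b x hx) with ⟨j', hj'⟩ | ⟨i', s', h0', h1', hi'⟩
          · exfalso
            have h5 : ((j' : ℕ) : ℝ) = (i : ℕ) + s := by
              rw [← hyi, ← hxy, hθ]
              simp only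
              rw [hj']
              exact (T5b_evalj (hmono b) j').symm
            have h6 : (i : ℕ) < j' := by
              have : ((i : ℕ) : ℝ) < (j' : ℕ) := by linarith
              exact_mod_cast this
            have h7 : (j' : ℕ) < i + 1 := by
              have : ((j' : ℕ) : ℝ) < (i : ℕ) + 1 := by linarith
              exact_mod_cast this
            omega
          · have h5 : ((i' : ℕ) : ℝ) + s' = (i : ℕ) + s := by
              rw [← hyi, ← hxy, hθ]
              simp only
              rw [hi']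
              exact (T5b_eval (hmono b) i' h0'.le h1'.le).symm
            have h6 : (i' : ℕ) < i + 1 := by
              have : ((i' : ℕ) : ℝ) < (i : ℕ) + 1 := by linarith
              exact_mod_cast this
            have h7 : (i : ℕ) < i' + 1 := by
              have : ((i : ℕ) : ℝ) < (i' : ℕ) + 1 := by linarith
              exact_mod_cast this
            have h8 : i' = i := Fin.ext (by omega)
            have h9 : s' = s := by
              rw [h8] at h5; linarith
            rw [hi', h8, h9, hσ]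
        · have := (hband i.succ.castSucc).pullback (fun b : C =>
            (⟨(b, σ b), hmem b⟩ : Band ξ i.succ.castSucc)) (by fun_prop)
          exact this
    · have e1 : {p : C × (Fin (k + 1) → ℝ) | E p.1 p.2} ∩ θ ⁻¹' {y} = ∅ :=
        Set.eq_empty_of_forall_notMem fun p hp => hy ⟨p, hp.1, hp.2⟩
      have e2 : {p : C × (Fin (k + 1) → ℝ) | p.1 ∈ C' ∧ E p.1 p.2} ∩ θ ⁻¹' {y} = ∅ :=
        Set.eq_empty_of_forall_notMem fun p hp => hy ⟨p, hp.1.2, hp.2⟩
      rw [e1, e2]
      exact Acyc.refl _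

end BU
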