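import Pool.Agent.Work.MP_4030f5_lc.T3b

/-! # T6: graded cohomology groups in the list formalism -/

namespace BU

variable {M N : Type} [MetricSpace M] [MetricSpace N]

/-- cocycles (all list lengths at once) of `X`. -/
def cyc (X : Set M) : Submodule ℚ (List M → ℚ) where
  carrier := {f | f [] = 0 ∧ Z X (D f)}
  add_mem' := by
    rintro f g ⟨hf0, hf⟩ ⟨hg0, hg⟩
    refine ⟨by simp [hf0, hg0], ?_⟩
    have := Z_add hf hg
    refine cast (congrArg (Z X) ?_) this
    funext l
    exact (D_add f g l).symm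
  zero_mem' := ⟨rfl, by
    refine cast (congrArg (Z X) ?_) (Z_zero X)
    funext l
    exact (D_zero l).symm⟩
  smul_mem' := by
    rintro c f ⟨hf0, hf⟩
    refine ⟨by simp [hf0], ?_⟩
    refine cast (congrArg (Z X) ?_) (Z_smul c hf)
    funext l
    exact (D_map (AddMonoidHom.mulLeft c) f l).symm

/-- functions that are coboundaries on lists of length `n`. -/
def bd (X : Set M) (n : ℕ) : Submodule ℚ (List M → ℚ) where
  carrier := {f | ∃ g : List M → ℚ, g [] = 0 ∧
    Z X (fun l => if l.length = n then f l - D g l else 0)}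
  add_mem' := by
    rintro f f' ⟨g, hg0, hg⟩ ⟨g', hg0', hg'⟩
    refine ⟨fun l => g l + g' l, by simp [hg0, hg0'], ?_⟩
    refine cast (congrArg (Z X) ?_) (Z_add hg hg')
    funext l
    split_ifs with h
    · rw [D_add]; simp only [Pi.add_apply]; ring
    · simp
  zero_mem' := ⟨fun _ => 0, rfl, by
    refine cast (congrArg (Z X) ?_) (Z_zero X)
    funext l
    split_ifs with h
    · rw [D_zero]; simp
    · rfl⟩
  smul_mem' := by
    rintro c f ⟨g, hg0, hg⟩
    refine ⟨fun l => c * g l, by simp [hg0], ?_⟩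
    refine cast (congrArg (Z X) ?_) (Z_smul c hg)
    funext l
    split_ifs with h
    · rw [show D (fun l => c * g l) l = c * D g l from D_map (AddMonoidHom.mulLeft c) g l]
      simp only [Pi.smul_apply, smul_eq_mul]; ring
    · simp

/-- cohomology of `X` computed on lists of length `n` (cohomological degree `n - 1`). -/
abbrev HL (X : Set M) (n : ℕ) : Type := ↥(cyc X) ⧸ (bd X n).comap (cyc X).subtype

/-- general principle: comparison of two subquotients. -/
theorem quot_equiv {A A' : Type} [AddCommGroup A] [Module ℚ A] [AddCommGroup A'] [Module ℚ A']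
    {C B : Submodule ℚ A} {C' B' : Submodule ℚ A'} (φ : A →ₗ[ℚ] A')
    (h₁ : ∀ c ∈ C, φ c ∈ C') (h₂ : ∀ c ∈ C, φ c ∈ B' ↔ c ∈ B)
    (h₃ : ∀ c' ∈ C', ∃ c ∈ C, c' - φ c ∈ B') :
    Nonempty ((↥C ⧸ B.comap C.subtype) ≃ₗ[ℚ] (↥C' ⧸ B'.comap C'.subtype)) := by
  let ψ : ↥C →ₗ[ℚ] ↥C' := φ.restrict h₁
  let θ : ↥C →ₗ[ℚ] (↥C' ⧸ B'.comap C'.subtype) := (B'.comap C'.subtype).mkQ ∘ₗ ψ
  have hker : LinearMap.ker θ = B.comap C.subtype := by
    ext c
    rw [LinearMap.mem_ker]
    show (B'.comap C'.subtype).mkQ (ψ c) = 0 ↔ _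
    rw [Submodule.mkQ_apply, Submodule.Quotient.mk_eq_zero, Submodule.mem_comap,
      Submodule.mem_comap]
    exact h₂ c.1 c.2
  have hsurj : Function.Surjective θ := by
    intro y
    obtain ⟨c', rfl⟩ := Submodule.mkQ_surjective _ y
    obtain ⟨c, hc, hcc⟩ := h₃ c'.1 c'.2
    refine ⟨⟨c, hc⟩, ?_⟩
    show (B'.comap C'.subtype).mkQ (ψ ⟨c, hc⟩) = _
    rw [eq_comm, ← sub_eq_zero, ← map_sub, Submodule.mkQ_apply, Submodule.Quotient.mk_eq_zero,
      Submodule.mem_comap]
    exact hcc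
  exact ⟨(Submodule.quotEquivOfEq _ _ hker.symm).trans
    (LinearMap.quotKerEquivOfSurjective θ hsurj)⟩

theorem T6a_mem_bd_of_Z {X : Set M} {f : List M → ℚ} {n : ℕ}
    (h : Z X (fun l => if l.length = n then f l else 0)) : f ∈ bd X n := by
  refine ⟨fun _ => 0, rfl, ?_⟩
  refine cast (congrArg (Z X) ?_) h
  funext l
  split_ifs with h
  · rw [D_zero]; simp
  · rfl

theorem T6a_mem_bd_of_Z' {X : Set M} {f : List M → ℚ} {n : ℕ}
    (h : Z X f) : f ∈ bd X n := by
  apply T6a_mem_bd_of_Z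
  obtain ⟨η, hη, hf⟩ := h
  refine ⟨η, hη, fun l h1 h2 => ?_⟩
  show (if l.length = n then f l else 0) = 0
  split_ifs
  · exact hf l h1 h2
  · rfl

theorem T6a_D_restrict (h : List M → ℚ) (n : ℕ) (l : List M) :
    D (fun l => if l.length = n then h l else 0) l =
      if l.length = n + 1 then D h l else 0 := by
  split_ifs with hl
  · apply D_congr
    intro l' _ hlen
    have : l'.length = n := by omega
    simp [this]
  · apply D_eq_zero
    intro l' _ hlen
    have : l'.length ≠ n := by omega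
    simp [this]

theorem HL_of_acyc {X X' : Set M} (hsub : X' ⊆ X) (h : Acyc X X') (n : ℕ) :
    Nonempty (HL X n ≃ₗ[ℚ] HL X' n) := by
  refine quot_equiv LinearMap.id ?_ ?_ ?_
  · rintro f ⟨hf0, hf⟩
    exact ⟨hf0, Z_mono hsub hf⟩
  · rintro f ⟨hf0, hf⟩
    constructor
    · rintro ⟨g, hg0, hg⟩
      have hDh : Z X (D (fun l => if l.length = n then f l - D g l else 0)) := by
        obtain ⟨η, hη, hfz⟩ := hf
        refine ⟨η, hη, fun l h1 h2 => ?_⟩
        rw [T6a_D_restrict (fun l => f l - D g l) n l]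
        split_ifs
        · rw [D_sub, D_D, hfz l h1 h2, sub_zero]
        · rfl
      obtain ⟨e, he, hhe⟩ := h _ hg hDh
      refine ⟨fun l => g l + e l, by simp [hg0, Z_nil he], ?_⟩
      obtain ⟨η, hη, hz⟩ := hhe
      refine ⟨η, hη, fun l h1 h2 => ?_⟩
      show (if l.length = n then f l - D (fun l => g l + e l) l else 0) = 0
      split_ifs with hl
      · have := hz l h1 h2
        simp only [hl, if_true] at this
        rw [D_add, ← sub_sub]
        exact this
      · rfl
    · rintro ⟨g, hg0, hg⟩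
      exact ⟨g, hg0, Z_mono hsub hg⟩
  · rintro f' ⟨hf0, hf⟩
    have hDD : Z X (D (D f')) := by
      refine cast (congrArg (Z X) ?_) (Z_zero X)
      funext l
      exact (D_D f' l).symm
    obtain ⟨u, hu, hfu⟩ := h (D f') hf hDD
    refine ⟨fun l => f' l - u l, ⟨by simp [hf0, Z_nil hu], ?_⟩, ?_⟩
    · refine cast (congrArg (Z X) ?_) hfu
      funext l
      exact (D_sub f' u l).symm
    · have : f' - LinearMap.id (R := ℚ) (fun l => f' l - u l) = u := by
        funext l
        simp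
      rw [this]
      exact T6a_mem_bd_of_Z' hu

theorem T6a_HL_empty (n : ℕ) : Nonempty (HL (∅ : Set M) n ≃ₗ[ℚ] HL (∅ : Set N) n) := by
  refine quot_equiv 0 ?_ ?_ ?_
  · intro c _
    exact Submodule.zero_mem _
  · rintro c ⟨hc0, _⟩
    refine iff_of_true (Submodule.zero_mem _) (T6a_mem_bd_of_Z' (Z_empty.2 hc0))
  · rintro c ⟨hc0, _⟩
    refine ⟨0, Submodule.zero_mem _, ?_⟩
    rw [map_zero, sub_zero]
    exact T6a_mem_bd_of_Z' (Z_empty.2 hc0)

theorem HL_image {X : Set M} (hX : IsCompact X) {φ : M → N} (hφ : ContinuousOn φ X)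
    (hinj : Set.InjOn φ X) (n : ℕ) : Nonempty (HL X n ≃ₗ[ℚ] HL (φ '' X) n) := by
  rcases X.eq_empty_or_nonempty with rfl | ⟨x₀, hx₀⟩
  · rw [Set.image_empty]
    exact T6a_HL_empty n
  haveI : Nonempty M := ⟨x₀⟩
  have hφu : UniformContinuousOn φ X := hX.uniformContinuousOn_of_continuous hφ
  set ψ : N → M := Function.invFunOn φ X with hψdef
  have hψmaps : Set.MapsTo ψ (φ '' X) X := by
    rintro y hy
    exact Function.invFunOn_mem (Set.mem_image _ _ _ |>.1 hy)
  have hφψ : ∀ y ∈ φ '' X, φ (ψ y) = y := by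
    rintro y hy
    exact Function.invFunOn_eq (Set.mem_image _ _ _ |>.1 hy)
  have hψφ : ∀ x ∈ X, ψ (φ x) = x := by
    intro x hx
    exact hinj.leftInvOn_invFunOn hx
  have hψc : ContinuousOn ψ (φ '' X) := by
    -- closed map argument
    rw [continuousOn_iff_isClosed]
    intro t ht
    refine ⟨φ '' (X ∩ t), ?_, ?_⟩
    · exact ((hX.inter_right ht).image_of_continuousOn (hφ.mono Set.inter_subset_left)).isClosed
    · ext y
      constructor
      · rintro ⟨hy1, hy2⟩
        refine ⟨⟨ψ y, ⟨hψmaps hy2, hy1⟩, hφψ y hy2⟩, hy2⟩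
      · rintro ⟨⟨x, ⟨hx, hxt⟩, rfl⟩, hy2⟩
        refine ⟨?_, hy2⟩
        show ψ (φ x) ∈ t
        rw [hψφ x hx]
        exact hxt
  have hψu : UniformContinuousOn ψ (φ '' X) :=
    (hX.image_of_continuousOn hφ).uniformContinuousOn_of_continuous hψc
  have hmapφ : Set.MapsTo φ X (φ '' X) := fun x hx => ⟨x, hx, rfl⟩
  have hll : ∀ l : List M, (∀ x ∈ l, x ∈ X) → (l.map φ).map ψ = l := by
    intro l hl
    rw [List.map_map]
    conv_rhs => rw [← List.map_id l]
    apply List.map_congr_left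
    intro x hx
    exact hψφ x (hl x hx)
  have hll' : ∀ l : List N, (∀ x ∈ l, x ∈ φ '' X) → (l.map ψ).map φ = l := by
    intro l hl
    rw [List.map_map]
    conv_rhs => rw [← List.map_id l]
    apply List.map_congr_left
    intro x hx
    exact hφψ x (hl x hx)
  let Φ : (List M → ℚ) →ₗ[ℚ] (List N → ℚ) :=
    { toFun := fun f l => f (l.map ψ)
      map_add' := fun f g => rfl
      map_smul' := fun c f => rfl }
  refine quot_equiv Φ ?_ ?_ ?_
  · rintro f ⟨hf0, hf⟩
    refine ⟨hf0, ?_⟩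
    refine cast (congrArg (Z (φ '' X)) ?_) (Z_comap hψu hψmaps hf)
    funext l
    exact (D_comp_map ψ f l).symm
  · rintro f ⟨hf0, hf⟩
    constructor
    · rintro ⟨g, hg0, hg⟩
      refine ⟨fun l => g (l.map φ), hg0, ?_⟩
      obtain ⟨η, hη, hz⟩ := Z_comap hφu hmapφ hg
      refine ⟨η, hη, fun l h1 h2 => ?_⟩
      show (if l.length = n then f l - D (fun l => g (l.map φ)) l else 0) = 0
      have := hz l h1 h2
      rw [D_comp_map]
      simp only [List.length_map] at this
      rw [show Φ f (l.map φ) = f l from congrArg f (hll l h1)] at this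
      exact this
    · rintro ⟨g, hg0, hg⟩
      refine ⟨fun l => g (l.map ψ), hg0, ?_⟩
      refine cast (congrArg (Z (φ '' X)) ?_) (Z_comap hψu hψmaps hg)
      funext l
      rw [D_comp_map]
      simp only [List.length_map]
      rfl
  · rintro f' ⟨hf0, hf⟩
    refine ⟨fun l => f' (l.map φ), ⟨hf0, ?_⟩, ?_⟩
    · refine cast (congrArg (Z X) ?_) (Z_comap hφu hmapφ hf)
      funext l
      exact (D_comp_map φ f' l).symm
    · apply T6a_mem_bd_of_Z'
      refine ⟨1, one_pos, fun l h1 _ => ?_⟩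
      show f' l - f' ((l.map ψ).map φ) = 0
      rw [hll' l h1, sub_self]

end BU
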