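import Pool.Agent.Work.MP_4030f5_lc.T6a

/-! # T7: finiteness, vanishing and the Euler characteristic; Mayer-Vietoris -/

namespace BU

variable {M N : Type} [MetricSpace M] [MetricSpace N]

/-- `X` has finite dimensional cohomology, vanishing in degrees `≥ K`, with Euler characteristic
`χ`. -/
structure FinCoh (X : Set M) (K : ℕ) (χ : ℤ) : Prop where
  fin : ∀ q, Module.Finite ℚ (HL X (q + 1))
  van : ∀ q, K ≤ q → Module.finrank ℚ (HL X (q + 1)) = 0
  eul : ∑ q ∈ Finset.range K, (-1 : ℤ) ^ q * (Module.finrank ℚ (HL X (q + 1)) : ℤ) = χ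

theorem T7a_transfer {X : Set M} {Y : Set N}
    (e : ∀ n, Nonempty (HL X n ≃ₗ[ℚ] HL Y n)) {K : ℕ} {χ : ℤ} (h : FinCoh X K χ) :
    FinCoh Y K χ := by
  have hr : ∀ n, Module.finrank ℚ (HL Y n) = Module.finrank ℚ (HL X n) := fun n => by
    obtain ⟨e'⟩ := e n
    exact e'.finrank_eq.symm
  refine ⟨fun q => ?_, fun q hq => ?_, ?_⟩
  · obtain ⟨e'⟩ := e (q + 1)
    haveI := h.fin q
    exact Module.Finite.equiv e'
  · rw [hr]
    exact h.van q hq
  · simp only [hr]
    exact h.eul

theorem FinCoh.of_acyc {X X' : Set M} (hsub : X' ⊆ X) (h : Acyc X X') {K : ℕ} {χ : ℤ}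
    (hX' : FinCoh X' K χ) : FinCoh X K χ :=
  T7a_transfer (fun n => by
    obtain ⟨e⟩ := HL_of_acyc hsub h n
    exact ⟨e.symm⟩) hX'

theorem FinCoh.to_acyc {X X' : Set M} (hsub : X' ⊆ X) (h : Acyc X X') {K : ℕ} {χ : ℤ}
    (hX' : FinCoh X K χ) : FinCoh X' K χ :=
  T7a_transfer (fun n => HL_of_acyc hsub h n) hX'

theorem FinCoh.image {X : Set M} (hX : IsCompact X) {φ : M → N} (hφ : ContinuousOn φ X)
    (hinj : Set.InjOn φ X) {K : ℕ} {χ : ℤ} (h : FinCoh X K χ) : FinCoh (φ '' X) K χ :=
  T7a_transfer (fun n => HL_image hX hφ hinj n) h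

theorem T7a_sub_empty (q : ℕ) : Subsingleton (HL (∅ : Set M) (q + 1)) := by
  rw [Submodule.Quotient.subsingleton_iff, Submodule.eq_top_iff']
  intro f
  rw [Submodule.mem_comap]
  refine ⟨fun _ => 0, rfl, ?_⟩
  rw [Z_empty]
  simp

theorem FinCoh.empty (K : ℕ) : FinCoh (∅ : Set M) K 0 := by
  have h0 : ∀ q, Module.finrank ℚ (HL (∅ : Set M) (q + 1)) = 0 := fun q => by
    have := T7a_sub_empty (M := M) q
    exact Module.finrank_zero_of_subsingleton
  refine ⟨fun q => ?_, fun q _ => h0 q, ?_⟩
  · have := T7a_sub_empty (M := M) q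
    infer_instance
  · simp [h0]

theorem T7a_D_replicate (p : M) (n : ℕ) (f : List M → ℚ) :
    D f (List.replicate n p) = if Odd n then f (List.replicate (n - 1) p) else 0 := by
  induction n generalizing f with
  | zero => simp [D_nil]
  | succ n ih =>
    rw [List.replicate_succ, D_cons, ih]
    by_cases h : Odd n
    · have h1 : ¬ Odd (n + 1) := by
        rw [Nat.odd_add_one]
        simpa using h
      obtain ⟨m, rfl⟩ : ∃ m, n = m + 1 := ⟨n - 1, by
        have := h.pos
        omega⟩
      rw [if_pos h, if_neg h1, Nat.add_sub_cancel, ← List.replicate_succ, sub_self]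
    · have h1 : Odd (n + 1) := by
        rw [Nat.odd_add_one]
        exact h
      rw [if_neg h, if_pos h1, Nat.add_sub_cancel, sub_zero]

theorem T7a_Z_singleton (p : M) (h : List M → ℚ) :
    Z ({p} : Set M) h ↔ ∀ n, h (List.replicate n p) = 0 := by
  constructor
  · rintro ⟨η, hη, h1⟩ n
    apply h1
    · intro x hx
      exact List.eq_of_mem_replicate hx
    · intro x hx y hy
      rw [List.eq_of_mem_replicate hx, List.eq_of_mem_replicate hy, dist_self]
      exact hη
  · intro h1
    refine ⟨1, one_pos, fun l hl _ => ?_⟩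
    have h2 : l = List.replicate l.length p := List.eq_replicate_of_mem (fun x hx => hl x hx)
    rw [h2]
    exact h1 _

theorem T7a_mem_cyc (p : M) (f : List M → ℚ) :
    f ∈ cyc ({p} : Set M) ↔ f [] = 0 ∧ ∀ n, Even n → f (List.replicate n p) = 0 := by
  show (f [] = 0 ∧ Z ({p} : Set M) (D f)) ↔ _
  rw [T7a_Z_singleton]
  refine and_congr_right fun h0 => ⟨fun h n hn => ?_, fun h n => ?_⟩
  · have h1 := h (n + 1)
    rw [T7a_D_replicate, if_pos hn.add_one, Nat.add_sub_cancel] at h1
    exact h1
  · rw [T7a_D_replicate]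
    split_ifs with hn
    · apply h
      obtain ⟨m, rfl⟩ := hn
      rw [Nat.add_sub_cancel]
      exact even_two_mul m
    · rfl

theorem T7a_mem_bd (p : M) (f : List M → ℚ) (n : ℕ) :
    f ∈ bd ({p} : Set M) n ↔ ∃ g : List M → ℚ, g [] = 0 ∧
      f (List.replicate n p) = if Odd n then g (List.replicate (n - 1) p) else 0 := by
  show (∃ g : List M → ℚ, g [] = 0 ∧
    Z ({p} : Set M) (fun l => if l.length = n then f l - D g l else 0)) ↔ _
  refine exists_congr fun g => and_congr_right fun _ => ?_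
  rw [T7a_Z_singleton]
  constructor
  · intro h
    have h1 := h n
    simp only [List.length_replicate, if_true] at h1
    rw [T7a_D_replicate] at h1
    exact sub_eq_zero.1 h1
  · intro h m
    simp only [List.length_replicate]
    split_ifs with hm
    · rw [hm, T7a_D_replicate, h, sub_self]
    · rfl

theorem T7a_sub_singleton (p : M) {q : ℕ} (hq : 1 ≤ q) :
    Subsingleton (HL ({p} : Set M) (q + 1)) := by
  rw [Submodule.Quotient.subsingleton_iff, Submodule.eq_top_iff']
  rintro ⟨f, hf⟩
  rw [Submodule.mem_comap]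
  show f ∈ bd ({p} : Set M) (q + 1)
  rw [T7a_mem_cyc] at hf
  rw [T7a_mem_bd]
  refine ⟨fun l => if l = [] then 0 else f (List.replicate (q + 1) p), by simp, ?_⟩
  by_cases h : Odd (q + 1)
  · have hne : List.replicate q p ≠ [] := by
      intro h0
      have := congrArg List.length h0
      simp at this
      omega
    rw [if_pos h, Nat.add_sub_cancel]
    simp only [if_neg hne]
  · rw [if_neg h]
    apply hf.2
    rwa [Nat.not_odd_iff_even] at h

theorem T7a_finrank_singleton (p : M) :
    Module.Finite ℚ (HL ({p} : Set M) 1) ∧ Module.finrank ℚ (HL ({p} : Set M) 1) = 1 := by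
  classical
  let ev : ↥(cyc ({p} : Set M)) →ₗ[ℚ] ℚ :=
    { toFun := fun f => (f : List M → ℚ) [p]
      map_add' := fun _ _ => rfl
      map_smul' := fun _ _ => rfl }
  have hker : (bd ({p} : Set M) 1).comap (cyc ({p} : Set M)).subtype = LinearMap.ker ev := by
    ext ⟨f, hf⟩
    rw [Submodule.mem_comap, LinearMap.mem_ker]
    show f ∈ bd ({p} : Set M) 1 ↔ f [p] = 0
    rw [T7a_mem_bd]
    constructor
    · rintro ⟨g, hg, h1⟩
      simp only [odd_one, if_true, Nat.sub_self, List.replicate_zero, hg] at h1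
      simpa using h1
    · intro h1
      refine ⟨fun _ => 0, rfl, ?_⟩
      simpa using h1
  have hsurj : Function.Surjective ev := by
    intro c
    refine ⟨⟨fun l => if l = [p] then c else 0, ?_⟩, by
      show (if [p] = [p] then c else 0) = c
      rw [if_pos rfl]⟩
    rw [T7a_mem_cyc]
    refine ⟨by simp, fun n hn => ?_⟩
    rw [if_neg]
    intro h
    have h1 := congrArg List.length h
    rw [List.length_replicate] at h1
    rw [show n = 1 from h1] at hn
    exact Nat.not_even_one hn
  have e : HL ({p} : Set M) 1 ≃ₗ[ℚ] ℚ :=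
    (Submodule.quotEquivOfEq _ _ hker).trans (ev.quotKerEquivOfSurjective hsurj)
  exact ⟨Module.Finite.equiv e.symm, by rw [e.finrank_eq, Module.finrank_self]⟩

theorem FinCoh.singleton (p : M) {K : ℕ} (hK : 1 ≤ K) : FinCoh ({p} : Set M) K 1 := by
  have h0 : ∀ q, 1 ≤ q → Module.finrank ℚ (HL ({p} : Set M) (q + 1)) = 0 := fun q hq => by
    have := T7a_sub_singleton p hq
    exact Module.finrank_zero_of_subsingleton
  refine ⟨fun q => ?_, fun q hq => h0 q (hK.trans hq), ?_⟩
  · rcases Nat.eq_zero_or_pos q with rfl | hq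
    · exact (T7a_finrank_singleton p).1
    · have := T7a_sub_singleton p hq
      infer_instance
  · rw [Finset.sum_eq_single_of_mem 0 (Finset.mem_range.2 (by omega))]
    · rw [zero_add, (T7a_finrank_singleton p).2]
      simp
    · intro q _ hq
      rw [h0 q (Nat.one_le_iff_ne_zero.2 hq)]
      simp

end BU
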