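import Pool.Agent.Work.MP_4030f5_lc.T7a
import Pool.Agent.Work.MP_4030f5_lc.T4b

/-! # T7: finiteness, vanishing and the Euler characteristic; Mayer-Vietoris -/

namespace BU

variable {M N : Type} [MetricSpace M] [MetricSpace N]

/-! ## subquotients -/

/-- the map of subquotients induced by a linear map. -/
def T7b_map {A A' : Type} [AddCommGroup A] [Module ℚ A] [AddCommGroup A'] [Module ℚ A']
    {C B : Submodule ℚ A} {C' B' : Submodule ℚ A'} (φ : A →ₗ[ℚ] A')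
    (h₁ : ∀ c ∈ C, φ c ∈ C') (h₂ : ∀ c ∈ C, c ∈ B → φ c ∈ B') :
    (↥C ⧸ B.comap C.subtype) →ₗ[ℚ] (↥C' ⧸ B'.comap C'.subtype) :=
  Submodule.mapQ _ _ (φ.restrict h₁) (by
    rintro ⟨c, hc⟩ hcB
    exact h₂ c hc hcB)

/-- the class of an element. -/
def T7b_mk {A : Type} [AddCommGroup A] [Module ℚ A] {C : Submodule ℚ A} (B : Submodule ℚ A)
    (c : A) (hc : c ∈ C) : ↥C ⧸ B.comap C.subtype := Submodule.Quotient.mk ⟨c, hc⟩

section
variable {A A' : Type} [AddCommGroup A] [Module ℚ A] [AddCommGroup A'] [Module ℚ A']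
    {C B : Submodule ℚ A} {C' B' : Submodule ℚ A'}

theorem T7b_map_mk (φ : A →ₗ[ℚ] A')
    (h₁ : ∀ c ∈ C, φ c ∈ C') (h₂ : ∀ c ∈ C, c ∈ B → φ c ∈ B') (c : A) (hc : c ∈ C) :
    T7b_map φ h₁ h₂ (T7b_mk B c hc) = T7b_mk B' (φ c) (h₁ c hc) := rfl

theorem T7b_mk_eq_zero {c : A} {hc : c ∈ C} : T7b_mk B c hc = 0 ↔ c ∈ B := by
  unfold T7b_mk
  rw [Submodule.Quotient.mk_eq_zero]
  rfl

theorem T7b_mk_eq {c c' : A} {hc : c ∈ C} {hc' : c' ∈ C} :
    T7b_mk B c hc = T7b_mk B c' hc' ↔ c - c' ∈ B := by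
  unfold T7b_mk
  rw [Submodule.Quotient.eq]
  rfl

theorem T7b_mk_sub {c c' : A} (hc : c ∈ C) (hc' : c' ∈ C) :
    T7b_mk B c hc - T7b_mk B c' hc' = T7b_mk B (c - c') (C.sub_mem hc hc') := rfl

theorem T7b_exists (x : ↥C ⧸ B.comap C.subtype) : ∃ c, ∃ hc : c ∈ C, x = T7b_mk B c hc := by
  obtain ⟨⟨c, hc⟩, rfl⟩ := Submodule.Quotient.mk_surjective _ x
  exact ⟨c, hc, rfl⟩

end

/-! ## linear maps on functions of lists -/

/-- `Z` as a submodule. -/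
def T7b_Z (X : Set M) : Submodule ℚ (List M → ℚ) where
  carrier := {f | Z X f}
  add_mem' := fun hf hg => Z_add hf hg
  zero_mem' := Z_zero X
  smul_mem' := fun c _ hf => Z_smul c hf

/-- `D` as a linear map. -/
def T7b_D : (List M → ℚ) →ₗ[ℚ] (List M → ℚ) where
  toFun := D
  map_add' := fun f g => funext fun l => D_add f g l
  map_smul' := fun c f => funext fun l => D_map (AddMonoidHom.mulLeft c) f l

/-- restriction to lists of length `n`. -/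
def T7b_P (n : ℕ) : (List M → ℚ) →ₗ[ℚ] (List M → ℚ) where
  toFun := fun f l => if l.length = n then f l else 0
  map_add' := fun f g => funext fun l => by
    by_cases h : l.length = n
    · simp [h]
    · simp [h]
  map_smul' := fun c f => funext fun l => by
    by_cases h : l.length = n
    · simp [h]
    · simp [h]

open Classical in
/-- restriction to lists of elements of `X`. -/
noncomputable def T7b_S (X : Set M) : (List M → ℚ) →ₗ[ℚ] (List M → ℚ) where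
  toFun := fun f l => if ∀ x ∈ l, x ∈ X then f l else 0
  map_add' := fun f g => funext fun l => by
    by_cases h : ∀ x ∈ l, x ∈ X
    · simp only [if_pos h, Pi.add_apply]
    · simp only [if_neg h, Pi.add_apply, add_zero]
  map_smul' := fun c f => funext fun l => by
    by_cases h : ∀ x ∈ l, x ∈ X
    · simp only [if_pos h, Pi.smul_apply, RingHom.id_apply]
    · simp only [if_neg h, Pi.smul_apply, RingHom.id_apply, smul_zero]

theorem T7b_DD (f : List M → ℚ) : T7b_D (T7b_D f) = 0 := funext fun l => D_D f l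

theorem T7b_D_nil (f : List M → ℚ) : T7b_D f [] = 0 := rfl

theorem T7b_D_P (n : ℕ) (f : List M → ℚ) : T7b_D (T7b_P n f) = T7b_P (n + 1) (T7b_D f) := by
  funext l
  show D (fun l => if l.length = n then f l else 0) l
    = if l.length = n + 1 then D f l else 0
  split_ifs with h
  · apply D_congr
    intro l' _ hl'
    rw [if_pos]
    omega
  · apply D_eq_zero
    intro l' _ hl'
    rw [if_neg]
    omega

theorem T7b_P_P (n : ℕ) (f : List M → ℚ) : T7b_P n (T7b_P n f) = T7b_P n f := by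
  funext l
  show (if l.length = n then (if l.length = n then f l else 0) else 0)
    = if l.length = n then f l else 0
  split_ifs <;> rfl

theorem T7b_P_zero {f : List M → ℚ} (hf : f [] = 0) : T7b_P 0 f = 0 := by
  funext l
  show (if l.length = 0 then f l else 0) = 0
  split_ifs with h
  · rw [List.length_eq_zero_iff.1 h, hf]
  · rfl

theorem T7b_P_nil (n : ℕ) {f : List M → ℚ} (hf : f [] = 0) : T7b_P n f [] = 0 := by
  show (if ([] : List M).length = n then f [] else 0) = 0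
  rw [hf, ite_self]

theorem T7b_S_P (X : Set M) (n : ℕ) (f : List M → ℚ) :
    T7b_S X (T7b_P n f) = T7b_P n (T7b_S X f) := by
  classical
  funext l
  show (if ∀ x ∈ l, x ∈ X then (if l.length = n then f l else 0) else 0)
    = if l.length = n then (if ∀ x ∈ l, x ∈ X then f l else 0) else 0
  split_ifs <;> rfl

theorem T7b_Z_nil {X : Set M} {f : List M → ℚ} (hf : f ∈ T7b_Z X) : f [] = 0 := Z_nil hf

theorem T7b_Z_D {X : Set M} {f : List M → ℚ} (hf : f ∈ T7b_Z X) : T7b_D f ∈ T7b_Z X := Z_D hf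

theorem T7b_Z_P {X : Set M} (n : ℕ) {f : List M → ℚ} (hf : f ∈ T7b_Z X) :
    T7b_P n f ∈ T7b_Z X := by
  obtain ⟨η, hη, h⟩ := hf
  refine ⟨η, hη, fun l hl hd => ?_⟩
  show (if l.length = n then f l else 0) = 0
  rw [h l hl hd, ite_self]

theorem T7b_Z_mono {X Y : Set M} (h : X ⊆ Y) : T7b_Z Y ≤ T7b_Z X := fun _ hf => Z_mono h hf

theorem T7b_Z_S {X₁ X₂ : Set M} {f : List M → ℚ} (hf : f ∈ T7b_Z (X₁ ∩ X₂)) :
    T7b_S X₁ f ∈ T7b_Z X₂ := by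
  obtain ⟨η, hη, h⟩ := hf
  refine ⟨η, hη, fun l hl hd => ?_⟩
  classical
  show (if ∀ x ∈ l, x ∈ X₁ then f l else 0) = 0
  split_ifs with h1
  · exact h l (fun x hx => ⟨h1 x hx, hl x hx⟩) hd
  · rfl

theorem T7b_Z_sub_S {X₁ : Set M} (f : List M → ℚ) : f - T7b_S X₁ f ∈ T7b_Z X₁ := by
  refine ⟨1, one_pos, fun l hl _ => ?_⟩
  classical
  show f l - (if ∀ x ∈ l, x ∈ X₁ then f l else 0) = 0
  rw [if_pos hl, sub_self]

theorem T7b_mem_cyc {X : Set M} {f : List M → ℚ} :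
    f ∈ cyc X ↔ f [] = 0 ∧ T7b_D f ∈ T7b_Z X := Iff.rfl

theorem T7b_mem_bd {X : Set M} {n : ℕ} {f : List M → ℚ} :
    f ∈ bd X n ↔ ∃ g : List M → ℚ, g [] = 0 ∧ T7b_P n (f - T7b_D g) ∈ T7b_Z X := Iff.rfl

/-- coboundaries for the complex of functions modulo those that vanish near the diagonal on
both sets. -/
def T7b_B (X₁ X₂ : Set M) (n : ℕ) : Submodule ℚ (List M → ℚ) where
  carrier := {f | ∃ g : List M → ℚ, g [] = 0 ∧
    T7b_P n (f - T7b_D g) ∈ T7b_Z X₁ ⊓ T7b_Z X₂}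
  add_mem' := by
    rintro f f' ⟨g, hg0, hg⟩ ⟨g', hg0', hg'⟩
    refine ⟨g + g', by simp [hg0, hg0'], ?_⟩
    have := Submodule.add_mem _ hg hg'
    rw [← map_add] at this
    rw [map_add]
    convert this using 2
    abel
  zero_mem' := ⟨0, rfl, by simp⟩
  smul_mem' := by
    rintro c f ⟨g, hg0, hg⟩
    refine ⟨c • g, by simp [hg0], ?_⟩
    have := Submodule.smul_mem _ c hg
    rw [← map_smul, smul_sub] at this
    rw [map_smul]
    exact this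

theorem T7b_mem_B {X₁ X₂ : Set M} {n : ℕ} {f : List M → ℚ} :
    f ∈ T7b_B X₁ X₂ n ↔ ∃ g : List M → ℚ, g [] = 0 ∧
      T7b_P n (f - T7b_D g) ∈ T7b_Z X₁ ⊓ T7b_Z X₂ := Iff.rfl

/-- the cohomology of the Mayer-Vietoris complex. -/
abbrev T7b_H (X₁ X₂ : Set M) (n : ℕ) : Type :=
  ↥(cyc X₁ ⊓ cyc X₂) ⧸ (T7b_B X₁ X₂ n).comap (cyc X₁ ⊓ cyc X₂).subtype

/-! ## comparison of the cohomology of the union with the Mayer-Vietoris complex -/

theorem T7b_glue {X₁ X₂ : Set M} (h₁ : IsCompact X₁) (h₂ : IsCompact X₂) {n : ℕ}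
    {c : List M → ℚ} (hc : c ∈ cyc (X₁ ∪ X₂)) (hB : c ∈ T7b_B X₁ X₂ n) : c ∈ bd (X₁ ∪ X₂) n := by
  obtain ⟨g, hg0, hg⟩ := hB
  obtain ⟨hc0, hcD⟩ := T7b_mem_cyc.1 hc
  have hF0 : T7b_P n (c - T7b_D g) [] = 0 := T7b_P_nil n (by
    rw [Pi.sub_apply, hc0, T7b_D_nil, sub_zero])
  have hDF : T7b_D (T7b_P n (c - T7b_D g)) ∈ T7b_Z (X₁ ∪ X₂) := by
    rw [T7b_D_P, map_sub, T7b_DD, sub_zero]
    exact T7b_Z_P _ hcD
  have hz : ∀ X : Set M, T7b_P n (c - T7b_D g) ∈ T7b_Z X →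
      Z X (fun l => T7b_P n (c - T7b_D g) l - D (fun _ : List M => (0 : ℚ)) l) := by
    intro X hX
    refine cast (congrArg (Z X) ?_) hX
    funext l
    rw [D_zero, sub_zero]
  obtain ⟨G, hG0, hG⟩ := glue_eq h₁ h₂ isClosed_empty (Set.empty_subset _)
    (f := T7b_P n (c - T7b_D g)) (g₁ := fun _ => 0) (g₂ := fun _ => 0)
    (Z_empty.2 hF0) hDF (Z_zero _) (Z_zero _) (hz X₁ hg.1) (hz X₂ hg.2)
    (by simpa using Z_zero (X₁ ∩ X₂))
  rw [T7b_mem_bd]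
  refine ⟨g + G, ?_, ?_⟩
  · rw [Pi.add_apply, hg0, Z_empty.1 hG0, add_zero]
  · have hG' : T7b_P n (c - T7b_D g) - T7b_D G ∈ T7b_Z (X₁ ∪ X₂) := hG
    have := T7b_Z_P n hG'
    rw [map_sub, T7b_P_P, ← map_sub] at this
    rwa [map_add, ← sub_sub]

theorem T7b_dist_map {φ : M → M} {ε η η' : ℝ} {X : Set M} (hφ : ∀ x ∈ X, dist (φ x) x ≤ ε)
    (h : η' + 2 * ε ≤ η) (h0 : η' ≤ η) {a b x y : M} (hx : x ∈ X) (hy : y ∈ X)
    (hd : dist x y < η') (hε : 0 ≤ ε) (ha : a = x ∨ a = φ x) (hb : b = y ∨ b = φ y) :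
    dist a b < η := by
  have h1 := hφ x hx
  have h2 := hφ y hy
  rcases ha with rfl | rfl
  · rcases hb with rfl | rfl
    · linarith
    · have := dist_triangle a y (φ y)
      rw [dist_comm y] at this
      linarith
  · rcases hb with rfl | rfl
    · have := dist_triangle (φ x) x b
      linarith
    · have := dist_triangle4 (φ x) x y (φ y)
      rw [dist_comm y] at this
      linarith

theorem T7b_approx {X₁ X₂ : Set M} (h₁ : IsCompact X₁) (h₂ : IsCompact X₂) (n : ℕ)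
    {c' : List M → ℚ} (hc' : c' ∈ cyc X₁ ⊓ cyc X₂) :
    ∃ c ∈ cyc (X₁ ∪ X₂), c' - c ∈ T7b_B X₁ X₂ n := by
  obtain ⟨⟨hc0, η₁, hη₁, hD₁⟩, _, η₂, hη₂, hD₂⟩ := hc'
  set η := min η₁ η₂ with hη
  have hη0 : 0 < η := lt_min hη₁ hη₂
  have hε : 0 < η / 4 := by positivity
  obtain ⟨ρ, hρ, φ, hφX, hφd, hφF⟩ := phi_lemma (h₁.union h₂)
    (fun i : Bool => if i then X₁ else X₂) (by
      intro i
      cases i
      · exact h₂.isClosed
      · exact h₁.isClosed) hε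
  have hF₁ : ∀ x ∈ X₁ ∪ X₂, (∃ y ∈ X₁, dist x y < ρ) → φ x ∈ X₁ := by
    intro x hx ⟨y, hy, hxy⟩
    exact hφF true x hx ⟨y, ⟨Or.inl hy, hy⟩, hxy⟩
  have hF₂ : ∀ x ∈ X₁ ∪ X₂, (∃ y ∈ X₂, dist x y < ρ) → φ x ∈ X₂ := by
    intro x hx ⟨y, hy, hxy⟩
    exact hφF false x hx ⟨y, ⟨Or.inr hy, hy⟩, hxy⟩
  have hmin₁ : η ≤ η₁ := min_le_left _ _
  have hmin₂ : η ≤ η₂ := min_le_right _ _
  refine ⟨fun l => c' (l.map φ), ⟨?_, ?_⟩, ?_⟩
  · show c' [] = 0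
    exact hc0
  · refine ⟨min ρ (η / 4), lt_min hρ hε, fun l hl hd => ?_⟩
    rw [D_comp_map]
    cases l with
    | nil => rfl
    | cons x l =>
      have key : ∀ (Y : Set M) (η' : ℝ), η ≤ η' → (∀ l : List M, (∀ x ∈ l, x ∈ Y) →
          (∀ x ∈ l, ∀ y ∈ l, dist x y < η') → D c' l = 0) → x ∈ Y →
          (∀ x ∈ X₁ ∪ X₂, (∃ y ∈ Y, dist x y < ρ) → φ x ∈ Y) →
          D c' ((x :: l).map φ) = 0 := by
        intro Y η' hη' hY hxY hφY
        apply hY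
        · intro y hy
          rw [List.mem_map] at hy
          obtain ⟨z, hz, rfl⟩ := hy
          refine hφY z (hl z hz) ⟨x, hxY, ?_⟩
          exact lt_of_lt_of_le (hd z hz x (by simp)) (min_le_left _ _)
        · intro y hy z hz
          rw [List.mem_map] at hy hz
          obtain ⟨y', hy', rfl⟩ := hy
          obtain ⟨z', hz', rfl⟩ := hz
          refine lt_of_lt_of_le (T7b_dist_map (η' := η / 4) (η := η) hφd (by linarith)
            (by linarith) (hl y' hy') (hl z' hz') ?_ hε.le (Or.inr rfl) (Or.inr rfl)) hη'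
          exact lt_of_lt_of_le (hd y' hy' z' hz') (min_le_right _ _)
      rcases hl x (by simp) with hx | hx
      · exact key X₁ η₁ hmin₁ hD₁ hx hF₁
      · exact key X₂ η₂ hmin₂ hD₂ hx hF₂
  · refine ⟨fun l => - prism id φ c' l, ?_, ?_⟩
    · show - prism id φ c' [] = 0
      simp [prism]
    · have hid : (c' - (fun l => c' (l.map φ))) - T7b_D (fun l => - prism id φ c' l)
          = - fun l => prism id φ (D c') l := by
        funext l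
        have h := D_prism id φ c' l
        rw [List.map_id] at h
        show c' l - c' (l.map φ) - D (fun l => - prism id φ c' l) l = - prism id φ (D c') l
        rw [D_neg]
        linarith
      rw [hid]
      have key : ∀ (Y : Set M) (η' : ℝ), η ≤ η' → (∀ l : List M, (∀ x ∈ l, x ∈ Y) →
          (∀ x ∈ l, ∀ y ∈ l, dist x y < η') → D c' l = 0) → Y ⊆ X₁ ∪ X₂ →
          (∀ x ∈ Y, φ x ∈ Y) → (fun l => prism id φ (D c') l) ∈ T7b_Z Y := by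
        intro Y η' hη' hY hYX hφY
        refine ⟨η / 4, hε, fun l hl hd => ?_⟩
        apply prism_eq_zero
        intro l' _ hl'
        apply hY
        · intro y hy
          obtain ⟨x, hx, hyx⟩ := hl' y hy
          rcases hyx with hyx | hyx
          · rw [hyx]
            exact hl x hx
          · rw [hyx]
            exact hφY x (hl x hx)
        · intro y hy z hz
          obtain ⟨y', hy', hyy⟩ := hl' y hy
          obtain ⟨z', hz', hzz⟩ := hl' z hz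
          exact lt_of_lt_of_le (T7b_dist_map (η' := η / 4) (η := η) hφd (by linarith)
            (by linarith) (hYX (hl y' hy')) (hYX (hl z' hz')) (hd y' hy' z' hz') hε.le
            hyy hzz) hη'
      refine ⟨T7b_Z_P n (Submodule.neg_mem _ (key X₁ η₁ hmin₁ hD₁ Set.subset_union_left
        fun x hx => hF₁ x (Or.inl hx) ⟨x, hx, by simpa using hρ⟩)),
        T7b_Z_P n (Submodule.neg_mem _ (key X₂ η₂ hmin₂ hD₂ Set.subset_union_right
        fun x hx => hF₂ x (Or.inr hx) ⟨x, hx, by simpa using hρ⟩))⟩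

theorem T7b_cyc_mono {X Y : Set M} (h : X ⊆ Y) : cyc Y ≤ cyc X :=
  fun _ hf => ⟨hf.1, Z_mono h hf.2⟩

theorem T7b_bd_le {X₁ X₂ : Set M} {n : ℕ} {c : List M → ℚ} (h : c ∈ bd (X₁ ∪ X₂) n) :
    c ∈ T7b_B X₁ X₂ n := by
  obtain ⟨g, hg0, hg⟩ := h
  exact ⟨g, hg0, Z_mono Set.subset_union_left hg, Z_mono Set.subset_union_right hg⟩

theorem T7b_equiv {X₁ X₂ : Set M} (h₁ : IsCompact X₁) (h₂ : IsCompact X₂) (n : ℕ) :
    Nonempty (HL (X₁ ∪ X₂) n ≃ₗ[ℚ] T7b_H X₁ X₂ n) := by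
  refine quot_equiv LinearMap.id (fun c hc => ?_) (fun c hc => ?_) (fun c' hc' => ?_)
  · exact ⟨T7b_cyc_mono Set.subset_union_left hc, T7b_cyc_mono Set.subset_union_right hc⟩
  · exact ⟨fun h => T7b_glue h₁ h₂ hc h, fun h => T7b_bd_le h⟩
  · exact T7b_approx h₁ h₂ n hc'

/-! ## the long exact sequence -/

theorem T7b_cast {A : Type} [AddCommGroup A] [Module ℚ A] {S : Submodule ℚ A} {x y : A}
    (h : x ∈ S) (e : y = x) : y ∈ S := e ▸ h

theorem T7b_bd_mono {X Y : Set M} (h : X ⊆ Y) {n : ℕ} {c : List M → ℚ} (hc : c ∈ bd Y n) :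
    c ∈ bd X n := by
  obtain ⟨g, hg0, hg⟩ := hc
  exact ⟨g, hg0, Z_mono h hg⟩

/-- restriction to a subset. -/
def T7b_res {X Y : Set M} (h : X ⊆ Y) (n : ℕ) : HL Y n →ₗ[ℚ] HL X n :=
  T7b_map LinearMap.id (fun _ hc => T7b_cyc_mono h hc) (fun _ _ hc => T7b_bd_mono h hc)

/-- first map of the Mayer-Vietoris sequence, two components. -/
def T7b_a₁ (X₁ X₂ : Set M) (n : ℕ) : T7b_H X₁ X₂ n →ₗ[ℚ] HL X₁ n :=
  T7b_map LinearMap.id (fun _ hc => hc.1) (fun _ _ ⟨g, hg0, hg⟩ => ⟨g, hg0, hg.1⟩)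

/-- first map of the Mayer-Vietoris sequence, two components. -/
def T7b_a₂ (X₁ X₂ : Set M) (n : ℕ) : T7b_H X₁ X₂ n →ₗ[ℚ] HL X₂ n :=
  T7b_map LinearMap.id (fun _ hc => hc.2) (fun _ _ ⟨g, hg0, hg⟩ => ⟨g, hg0, hg.2⟩)

/-- first map of the Mayer-Vietoris sequence. -/
def T7b_a (X₁ X₂ : Set M) (n : ℕ) : T7b_H X₁ X₂ n →ₗ[ℚ] HL X₁ n × HL X₂ n :=
  (T7b_a₁ X₁ X₂ n).prod (T7b_a₂ X₁ X₂ n)

/-- second map of the Mayer-Vietoris sequence. -/
def T7b_b (X₁ X₂ : Set M) (n : ℕ) : HL X₁ n × HL X₂ n →ₗ[ℚ] HL (X₁ ∩ X₂) n :=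
  (T7b_res Set.inter_subset_left n).comp (LinearMap.fst ℚ _ _)
    - (T7b_res Set.inter_subset_right n).comp (LinearMap.snd ℚ _ _)

theorem T7b_delta_cyc {X₁ X₂ : Set M} {c : List M → ℚ} (hc : c ∈ cyc (X₁ ∩ X₂)) :
    (T7b_S X₁).comp T7b_D c ∈ cyc X₁ ⊓ cyc X₂ := by
  have h2 : T7b_S X₁ (T7b_D c) ∈ T7b_Z X₂ := T7b_Z_S hc.2
  have h0 : T7b_S X₁ (T7b_D c) [] = 0 := T7b_Z_nil h2
  refine ⟨⟨h0, ?_⟩, h0, ?_⟩
  · have h1 := T7b_Z_D (T7b_Z_sub_S (X₁ := X₁) (T7b_D c))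
    rw [map_sub, T7b_DD, zero_sub] at h1
    have := Submodule.neg_mem _ h1
    rwa [neg_neg] at this
  · exact T7b_Z_D h2

theorem T7b_delta_bd {X₁ X₂ : Set M} {n : ℕ} {c : List M → ℚ} (hc : c ∈ cyc (X₁ ∩ X₂))
    (hB : c ∈ bd (X₁ ∩ X₂) n) : (T7b_S X₁).comp T7b_D c ∈ T7b_B X₁ X₂ (n + 1) := by
  obtain ⟨g, hg0, hg⟩ := hB
  change T7b_P n (c - T7b_D g) ∈ T7b_Z (X₁ ∩ X₂) at hg
  set w := T7b_P n (c - T7b_D g) with hw
  have hDw : T7b_D w = T7b_P (n + 1) (T7b_D c) := by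
    rw [hw, T7b_D_P, map_sub, T7b_DD, sub_zero]
  have h2 : T7b_S X₁ w ∈ T7b_Z X₂ := T7b_Z_S hg
  have h1 : w - T7b_S X₁ w ∈ T7b_Z X₁ := T7b_Z_sub_S w
  have hSw : T7b_P n (T7b_S X₁ w) = T7b_S X₁ w := by
    rw [← T7b_S_P, hw, T7b_P_P]
  refine ⟨T7b_S X₁ w, T7b_Z_nil h2, ?_⟩
  have e1 : T7b_P (n + 1) ((T7b_S X₁).comp T7b_D c - T7b_D (T7b_S X₁ w))
      = T7b_S X₁ (T7b_D w) - T7b_D (T7b_S X₁ w) := by
    rw [map_sub, LinearMap.comp_apply, ← T7b_S_P, ← hDw, ← T7b_D_P, hSw]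
  rw [e1]
  have hd2 : T7b_S X₁ (T7b_D w) ∈ T7b_Z X₂ := T7b_Z_S (T7b_Z_D hg)
  have hd1 : T7b_D w - T7b_S X₁ (T7b_D w) ∈ T7b_Z X₁ := T7b_Z_sub_S _
  refine ⟨?_, Submodule.sub_mem _ hd2 (T7b_Z_D h2)⟩
  refine T7b_cast (Submodule.sub_mem _ (T7b_Z_D h1) hd1) ?_
  rw [map_sub]
  abel

/-- the connecting map of the Mayer-Vietoris sequence. -/
noncomputable def T7b_delta (X₁ X₂ : Set M) (n : ℕ) :
    HL (X₁ ∩ X₂) n →ₗ[ℚ] T7b_H X₁ X₂ (n + 1) :=
  T7b_map ((T7b_S X₁).comp T7b_D) (fun _ hc => T7b_delta_cyc hc)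
    (fun _ hc hB => T7b_delta_bd hc hB)

theorem T7b_exact_ab (X₁ X₂ : Set M) (n : ℕ) :
    LinearMap.ker (T7b_b X₁ X₂ n) = LinearMap.range (T7b_a X₁ X₂ n) := by
  apply le_antisymm
  · rintro ⟨x₁, x₂⟩ hx
    obtain ⟨f₁, hf₁, rfl⟩ := T7b_exists x₁
    obtain ⟨f₂, hf₂, rfl⟩ := T7b_exists x₂
    rw [LinearMap.mem_ker] at hx
    change T7b_mk (bd (X₁ ∩ X₂) n) f₁ _ - T7b_mk (bd (X₁ ∩ X₂) n) f₂ _ = 0 at hx
    rw [sub_eq_zero, T7b_mk_eq] at hx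
    obtain ⟨g, hg0, hg⟩ := hx
    change T7b_P n (f₁ - f₂ - T7b_D g) ∈ T7b_Z (X₁ ∩ X₂) at hg
    set w := T7b_P n (f₁ - f₂ - T7b_D g) with hw
    have h2 : T7b_S X₁ w ∈ T7b_Z X₂ := T7b_Z_S hg
    have h1 : w - T7b_S X₁ w ∈ T7b_Z X₁ := T7b_Z_sub_S w
    have hPw : T7b_P n w = w := by rw [hw, T7b_P_P]
    have hSw : T7b_P n (T7b_S X₁ w) = T7b_S X₁ w := by
      rw [← T7b_S_P, hPw]
    set F := T7b_P n f₁ - (w - T7b_S X₁ w) with hF
    have hF' : F = T7b_P n f₂ + T7b_P n (T7b_D g) + T7b_S X₁ w := by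
      rw [hF, hw, map_sub, map_sub]
      abel
    have hF0 : F [] = 0 := by
      rw [hF, Pi.sub_apply, T7b_P_nil n hf₁.1, T7b_Z_nil h1, sub_zero]
    have hFc : F ∈ cyc X₁ ⊓ cyc X₂ := by
      refine ⟨⟨hF0, ?_⟩, hF0, ?_⟩
      · have := Submodule.sub_mem _ (T7b_Z_P (n + 1) (T7b_mem_cyc.1 hf₁).2) (T7b_Z_D h1)
        rwa [← T7b_D_P, ← map_sub] at this
      · have := Submodule.add_mem _ (T7b_Z_P (n + 1) (T7b_mem_cyc.1 hf₂).2) (T7b_Z_D h2)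
        change T7b_D F ∈ T7b_Z X₂
        rw [hF', map_add, map_add, T7b_D_P, T7b_D_P, T7b_DD, map_zero, add_zero]
        exact this
    refine ⟨T7b_mk _ F hFc, ?_⟩
    change ((T7b_mk (bd X₁ n) F _, T7b_mk (bd X₂ n) F _) : HL X₁ n × HL X₂ n) = _
    rw [Prod.mk.injEq, T7b_mk_eq, T7b_mk_eq]
    refine ⟨⟨0, rfl, ?_⟩, ⟨g, hg0, ?_⟩⟩
    · change T7b_P n (F - f₁ - T7b_D 0) ∈ T7b_Z X₁
      rw [map_zero, sub_zero, map_sub, hF, map_sub, map_sub, T7b_P_P, hPw, hSw]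
      have := Submodule.neg_mem _ h1
      convert this using 1
      abel
    · change T7b_P n (F - f₂ - T7b_D g) ∈ T7b_Z X₂
      rw [map_sub, map_sub, hF', map_add, map_add, T7b_P_P, T7b_P_P, hSw]
      convert h2 using 1
      abel
  · rintro _ ⟨x, rfl⟩
    obtain ⟨f, hf, rfl⟩ := T7b_exists x
    rw [LinearMap.mem_ker]
    change T7b_mk (bd (X₁ ∩ X₂) n) f _ - T7b_mk (bd (X₁ ∩ X₂) n) f _ = 0
    rw [sub_eq_zero]

theorem T7b_exact_bd (X₁ X₂ : Set M) (n : ℕ) :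
    LinearMap.ker (T7b_delta X₁ X₂ n) = LinearMap.range (T7b_b X₁ X₂ n) := by
  apply le_antisymm
  · intro x hx
    obtain ⟨f, hf, rfl⟩ := T7b_exists x
    rw [LinearMap.mem_ker] at hx
    change T7b_mk (T7b_B X₁ X₂ (n + 1)) (T7b_S X₁ (T7b_D f)) _ = 0 at hx
    rw [T7b_mk_eq_zero] at hx
    obtain ⟨g, hg0, hg1, hg2⟩ := hx
    have hf2 : T7b_S X₁ (T7b_D f) ∈ T7b_Z X₂ := T7b_Z_S hf.2
    have hf1 : T7b_D f - T7b_S X₁ (T7b_D f) ∈ T7b_Z X₁ := T7b_Z_sub_S _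
    have hc1 : T7b_P n f - T7b_P n g ∈ cyc X₁ := by
      refine ⟨?_, ?_⟩
      · rw [Pi.sub_apply, T7b_P_nil n hf.1, T7b_P_nil n hg0, sub_zero]
      · change T7b_D (T7b_P n f - T7b_P n g) ∈ T7b_Z X₁
        rw [map_sub, T7b_D_P, T7b_D_P]
        have := Submodule.add_mem _ (T7b_Z_P (n + 1) hf1) hg1
        rw [map_sub, map_sub] at this
        convert this using 1
        abel
    have hc2 : - T7b_P n g ∈ cyc X₂ := by
      refine ⟨?_, ?_⟩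
      · rw [Pi.neg_apply, T7b_P_nil n hg0, neg_zero]
      · change T7b_D (- T7b_P n g) ∈ T7b_Z X₂
        rw [map_neg, T7b_D_P]
        have := Submodule.sub_mem _ hg2 (T7b_Z_P (n + 1) hf2)
        rw [map_sub] at this
        convert this using 1
        abel
    refine ⟨(T7b_mk _ _ hc1, T7b_mk _ _ hc2), ?_⟩
    change T7b_mk (bd (X₁ ∩ X₂) n) (T7b_P n f - T7b_P n g - (- T7b_P n g)) _ = _
    rw [T7b_mk_eq]
    refine ⟨0, rfl, ?_⟩
    change T7b_P n (T7b_P n f - T7b_P n g - (- T7b_P n g) - f - T7b_D 0) ∈ T7b_Z (X₁ ∩ X₂)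
    have : T7b_P n (T7b_P n f - T7b_P n g - (- T7b_P n g) - f - T7b_D 0) = 0 := by
      rw [map_zero, sub_zero, map_sub, map_sub, map_sub, map_neg, T7b_P_P, T7b_P_P]
      abel
    rw [this]
    exact Submodule.zero_mem _
  · rintro _ ⟨⟨x₁, x₂⟩, rfl⟩
    obtain ⟨f₁, hf₁, rfl⟩ := T7b_exists x₁
    obtain ⟨f₂, hf₂, rfl⟩ := T7b_exists x₂
    rw [LinearMap.mem_ker]
    change T7b_mk (T7b_B X₁ X₂ (n + 1)) (T7b_S X₁ (T7b_D (f₁ - f₂))) _ = 0
    rw [T7b_mk_eq_zero]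
    have hd : f₁ - f₂ ∈ cyc (X₁ ∩ X₂) := Submodule.sub_mem (cyc (X₁ ∩ X₂))
      (T7b_cyc_mono Set.inter_subset_left hf₁) (T7b_cyc_mono Set.inter_subset_right hf₂)
    have h2 : T7b_S X₁ (T7b_D (f₁ - f₂)) ∈ T7b_Z X₂ := T7b_Z_S hd.2
    have h1 : T7b_D (f₁ - f₂) - T7b_S X₁ (T7b_D (f₁ - f₂)) ∈ T7b_Z X₁ := T7b_Z_sub_S _
    refine ⟨- f₂, ?_, ?_⟩
    · rw [Pi.neg_apply, hf₂.1, neg_zero]
    · refine ⟨T7b_Z_P _ ?_, T7b_Z_P _ ?_⟩
      · have := Submodule.sub_mem _ (T7b_mem_cyc.1 hf₁).2 h1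
        rw [map_neg, map_sub]
        rw [map_sub] at this
        convert this using 1
        abel
      · have := Submodule.add_mem _ h2 (T7b_mem_cyc.1 hf₂).2
        rw [map_neg]
        convert this using 1
        abel

theorem T7b_exact_da (X₁ X₂ : Set M) (n : ℕ) :
    LinearMap.ker (T7b_a X₁ X₂ (n + 1)) = LinearMap.range (T7b_delta X₁ X₂ n) := by
  apply le_antisymm
  · intro x hx
    obtain ⟨f, hf, rfl⟩ := T7b_exists x
    rw [LinearMap.mem_ker] at hx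
    change ((T7b_mk (bd X₁ (n + 1)) f _, T7b_mk (bd X₂ (n + 1)) f _) :
      HL X₁ (n + 1) × HL X₂ (n + 1)) = 0 at hx
    rw [Prod.mk_eq_zero, T7b_mk_eq_zero, T7b_mk_eq_zero] at hx
    obtain ⟨⟨g₁, hg₁0, hg₁⟩, g₂, hg₂0, hg₂⟩ := hx
    change T7b_P (n + 1) (f - T7b_D g₁) ∈ T7b_Z X₁ at hg₁
    change T7b_P (n + 1) (f - T7b_D g₂) ∈ T7b_Z X₂ at hg₂
    have hDh : T7b_D (T7b_P n (g₁ - g₂))
        = T7b_P (n + 1) (f - T7b_D g₂) - T7b_P (n + 1) (f - T7b_D g₁) := by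
      rw [T7b_D_P, map_sub, map_sub, map_sub, map_sub]
      abel
    have hh : T7b_P n (g₁ - g₂) ∈ cyc (X₁ ∩ X₂) := by
      refine ⟨T7b_P_nil n (by rw [Pi.sub_apply, hg₁0, hg₂0, sub_zero]), ?_⟩
      change T7b_D (T7b_P n (g₁ - g₂)) ∈ T7b_Z (X₁ ∩ X₂)
      rw [hDh]
      exact Submodule.sub_mem _ (T7b_Z_mono Set.inter_subset_right hg₂)
        (T7b_Z_mono Set.inter_subset_left hg₁)
    have h2 : T7b_S X₁ (T7b_D (T7b_P n (g₁ - g₂))) ∈ T7b_Z X₂ := T7b_Z_S hh.2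
    have h1 : T7b_D (T7b_P n (g₁ - g₂)) - T7b_S X₁ (T7b_D (T7b_P n (g₁ - g₂))) ∈ T7b_Z X₁ :=
      T7b_Z_sub_S _
    have hPS : T7b_P (n + 1) (T7b_S X₁ (T7b_D (T7b_P n (g₁ - g₂))))
        = T7b_S X₁ (T7b_D (T7b_P n (g₁ - g₂))) := by
      rw [T7b_D_P, T7b_S_P, T7b_P_P]
    refine ⟨T7b_mk _ _ hh, ?_⟩
    change T7b_mk (T7b_B X₁ X₂ (n + 1)) (T7b_S X₁ (T7b_D (T7b_P n (g₁ - g₂)))) _ = _
    symm
    rw [T7b_mk_eq]
    refine ⟨g₂, hg₂0, ?_⟩
    have e : T7b_P (n + 1) (f - T7b_S X₁ (T7b_D (T7b_P n (g₁ - g₂))) - T7b_D g₂)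
        = T7b_P (n + 1) (f - T7b_D g₂) - T7b_S X₁ (T7b_D (T7b_P n (g₁ - g₂))) := by
      rw [sub_right_comm, map_sub, hPS]
    rw [e]
    refine ⟨?_, Submodule.sub_mem _ hg₂ h2⟩
    have e' : T7b_P (n + 1) (f - T7b_D g₂)
        = T7b_P (n + 1) (f - T7b_D g₁) + T7b_D (T7b_P n (g₁ - g₂)) := by
      rw [hDh]
      abel
    refine T7b_cast (Submodule.add_mem _ hg₁ h1) ?_
    rw [e']
    abel
  · rintro _ ⟨x, rfl⟩
    obtain ⟨f, hf, rfl⟩ := T7b_exists x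
    rw [LinearMap.mem_ker]
    change ((T7b_mk (bd X₁ (n + 1)) (T7b_S X₁ (T7b_D f)) _,
      T7b_mk (bd X₂ (n + 1)) (T7b_S X₁ (T7b_D f)) _) : HL X₁ (n + 1) × HL X₂ (n + 1)) = 0
    rw [Prod.mk_eq_zero, T7b_mk_eq_zero, T7b_mk_eq_zero]
    have hf2 : T7b_S X₁ (T7b_D f) ∈ T7b_Z X₂ := T7b_Z_S hf.2
    have hf1 : T7b_D f - T7b_S X₁ (T7b_D f) ∈ T7b_Z X₁ := T7b_Z_sub_S _
    refine ⟨⟨f, hf.1, ?_⟩, ⟨0, rfl, ?_⟩⟩
    · change T7b_P (n + 1) (T7b_S X₁ (T7b_D f) - T7b_D f) ∈ T7b_Z X₁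
      refine T7b_Z_P _ ?_
      have := Submodule.neg_mem _ hf1
      rwa [neg_sub] at this
    · change T7b_P (n + 1) (T7b_S X₁ (T7b_D f) - T7b_D 0) ∈ T7b_Z X₂
      rw [map_zero, sub_zero]
      exact T7b_Z_P _ hf2

/-! ## dimensions -/

theorem T7b_sub_zero (X : Set M) : Subsingleton (HL X 0) := by
  rw [Submodule.Quotient.subsingleton_iff, Submodule.eq_top_iff']
  rintro ⟨f, hf⟩
  refine ⟨0, rfl, ?_⟩
  change T7b_P 0 (f - T7b_D 0) ∈ T7b_Z X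
  rw [T7b_P_zero]
  · exact Submodule.zero_mem _
  · rw [map_zero, sub_zero, hf.1]

/-- rank of the second map of the Mayer-Vietoris sequence. -/
noncomputable def T7b_r (X₁ X₂ : Set M) (n : ℕ) : ℕ :=
  Module.finrank ℚ (LinearMap.range (T7b_b X₁ X₂ n))

theorem T7b_r_zero (X₁ X₂ : Set M) : T7b_r X₁ X₂ 0 = 0 := by
  have := T7b_sub_zero (X₁ ∩ X₂)
  exact Module.finrank_zero_of_subsingleton

theorem T7b_r_le (X₁ X₂ : Set M) (n : ℕ) [Module.Finite ℚ (HL (X₁ ∩ X₂) n)] :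
    T7b_r X₁ X₂ n ≤ Module.finrank ℚ (HL (X₁ ∩ X₂) n) :=
  Submodule.finrank_le _

theorem T7b_dim (X₁ X₂ : Set M) (q : ℕ) [Module.Finite ℚ (HL X₁ (q + 1))]
    [Module.Finite ℚ (HL X₂ (q + 1))] [Module.Finite ℚ (HL (X₁ ∩ X₂) q)] :
    Module.Finite ℚ (T7b_H X₁ X₂ (q + 1)) ∧
    Module.finrank ℚ (T7b_H X₁ X₂ (q + 1)) + T7b_r X₁ X₂ (q + 1) + T7b_r X₁ X₂ q
      = Module.finrank ℚ (HL X₁ (q + 1)) + Module.finrank ℚ (HL X₂ (q + 1))
        + Module.finrank ℚ (HL (X₁ ∩ X₂) q) := by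
  have hk : Module.Finite ℚ (LinearMap.ker (T7b_a X₁ X₂ (q + 1))) := by
    rw [T7b_exact_da]
    infer_instance
  have hq : Module.Finite ℚ
      (T7b_H X₁ X₂ (q + 1) ⧸ LinearMap.ker (T7b_a X₁ X₂ (q + 1))) :=
    Module.Finite.equiv (T7b_a X₁ X₂ (q + 1)).quotKerEquivRange.symm
  have hfin : Module.Finite ℚ (T7b_H X₁ X₂ (q + 1)) :=
    Module.Finite.of_submodule_quotient (LinearMap.ker (T7b_a X₁ X₂ (q + 1)))
  refine ⟨hfin, ?_⟩
  have e1 := LinearMap.finrank_range_add_finrank_ker (T7b_a X₁ X₂ (q + 1))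
  have e2 := LinearMap.finrank_range_add_finrank_ker (T7b_b X₁ X₂ (q + 1))
  have e3 := LinearMap.finrank_range_add_finrank_ker (T7b_delta X₁ X₂ q)
  rw [T7b_exact_da] at e1
  rw [T7b_exact_ab, Module.finrank_prod] at e2
  rw [T7b_exact_bd] at e3
  unfold T7b_r
  omega

/-- the dimension form of the Mayer-Vietoris sequence. -/
theorem T7b_main {X₁ X₂ : Set M} (h₁ : IsCompact X₁) (h₂ : IsCompact X₂)
    (f₁ : ∀ q, Module.Finite ℚ (HL X₁ (q + 1))) (f₂ : ∀ q, Module.Finite ℚ (HL X₂ (q + 1)))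
    (f₁₂ : ∀ q, Module.Finite ℚ (HL (X₁ ∩ X₂) (q + 1))) (q : ℕ) :
    Module.Finite ℚ (HL (X₁ ∪ X₂) (q + 1)) ∧
    Module.finrank ℚ (HL (X₁ ∪ X₂) (q + 1)) + T7b_r X₁ X₂ (q + 1) + T7b_r X₁ X₂ q
      = Module.finrank ℚ (HL X₁ (q + 1)) + Module.finrank ℚ (HL X₂ (q + 1))
        + Module.finrank ℚ (HL (X₁ ∩ X₂) q) := by
  have := f₁ q
  have := f₂ q
  have : Module.Finite ℚ (HL (X₁ ∩ X₂) q) := by
    cases q with
    | zero =>
      have := T7b_sub_zero (X₁ ∩ X₂)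
      infer_instance
    | succ q => exact f₁₂ q
  obtain ⟨e⟩ := T7b_equiv h₁ h₂ (q + 1)
  obtain ⟨h, h'⟩ := T7b_dim X₁ X₂ q
  refine ⟨Module.Finite.equiv e.symm, ?_⟩
  rw [e.finrank_eq]
  exact h'

/-- the alternating sum of the dimension formulas. -/
theorem T7b_sum {h h₁ h₂ h₁₂ r : ℕ → ℕ} (hr : r 0 = 0) (h0 : h₁₂ 0 = 0)
    (H : ∀ q, h (q + 1) + r (q + 1) + r q = h₁ (q + 1) + h₂ (q + 1) + h₁₂ q) (K : ℕ) :
    ∑ q ∈ Finset.range (K + 1), (-1 : ℤ) ^ q * (h (q + 1) : ℤ)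
      = ∑ q ∈ Finset.range (K + 1), (-1 : ℤ) ^ q * (h₁ (q + 1) : ℤ)
        + ∑ q ∈ Finset.range (K + 1), (-1 : ℤ) ^ q * (h₂ (q + 1) : ℤ)
        - ∑ q ∈ Finset.range K, (-1 : ℤ) ^ q * (h₁₂ (q + 1) : ℤ) - (-1) ^ K * (r (K + 1) : ℤ) := by
  induction K with
  | zero =>
    have := H 0
    simp only [zero_add, Finset.sum_range_one, pow_zero, one_mul, Finset.sum_range_zero, sub_zero]
    have : (h 1 : ℤ) + r 1 + r 0 = h₁ 1 + h₂ 1 + h₁₂ 0 := by exact_mod_cast H 0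
    rw [hr, h0] at this
    push_cast at this
    linarith
  | succ K ih =>
    rw [Finset.sum_range_succ, ih, Finset.sum_range_succ _ (K + 1),
      Finset.sum_range_succ (fun q => (-1 : ℤ) ^ q * (h₂ (q + 1) : ℤ)) (K + 1),
      Finset.sum_range_succ (fun q => (-1 : ℤ) ^ q * (h₁₂ (q + 1) : ℤ)) K]
    have : (h (K + 1 + 1) : ℤ) = h₁ (K + 1 + 1) + h₂ (K + 1 + 1) + h₁₂ (K + 1)
        - r (K + 1 + 1) - r (K + 1) := by
      have : (h (K + 1 + 1) : ℤ) + r (K + 1 + 1) + r (K + 1)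
          = h₁ (K + 1 + 1) + h₂ (K + 1 + 1) + h₁₂ (K + 1) := by exact_mod_cast H (K + 1)
      linarith
    rw [this]
    ring

/-- Mayer-Vietoris, generic case: the intersection has no cohomology in degree `K - 1`. -/
theorem FinCoh.union {X₁ X₂ : Set M} (h₁ : IsCompact X₁) (h₂ : IsCompact X₂) {K : ℕ}
    {χ₁ χ₂ χ₁₂ : ℤ} (H₁ : FinCoh X₁ (K + 1) χ₁) (H₂ : FinCoh X₂ (K + 1) χ₂)
    (H₁₂ : FinCoh (X₁ ∩ X₂) K χ₁₂) : FinCoh (X₁ ∪ X₂) (K + 1) (χ₁ + χ₂ - χ₁₂) := by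
  have main := T7b_main h₁ h₂ H₁.fin H₂.fin H₁₂.fin
  refine ⟨fun q => (main q).1, fun q hq => ?_, ?_⟩
  · have e := (main q).2
    obtain ⟨q, rfl⟩ : ∃ q', q = q' + 1 := ⟨q - 1, by omega⟩
    rw [H₁.van _ hq, H₂.van _ hq, H₁₂.van q (by omega)] at e
    omega
  · have hs := T7b_sum (h := fun n => Module.finrank ℚ (HL (X₁ ∪ X₂) n))
      (h₁ := fun n => Module.finrank ℚ (HL X₁ n)) (h₂ := fun n => Module.finrank ℚ (HL X₂ n))
      (h₁₂ := fun n => Module.finrank ℚ (HL (X₁ ∩ X₂) n)) (T7b_r_zero X₁ X₂) (by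
        have := T7b_sub_zero (X₁ ∩ X₂)
        exact Module.finrank_zero_of_subsingleton) (fun q => (main q).2) K
    have hr : T7b_r X₁ X₂ (K + 1) = 0 := by
      have := H₁₂.fin K
      have h := T7b_r_le X₁ X₂ (K + 1)
      rw [H₁₂.van K le_rfl] at h
      omega
    rw [hr, H₁.eul, H₂.eul, H₁₂.eul] at hs
    rw [hs]
    simp

/-- Mayer-Vietoris in dimension one: the intersection is a single point. -/
theorem FinCoh.union_point {X₁ X₂ : Set M} (h₁ : IsCompact X₁) (h₂ : IsCompact X₂)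
    {χ₁ χ₂ : ℤ} {p : M} (hp : X₁ ∩ X₂ = {p}) (H₁ : FinCoh X₁ 1 χ₁) (H₂ : FinCoh X₂ 1 χ₂) :
    FinCoh (X₁ ∪ X₂) 1 (χ₁ + χ₂ - 1) := by
  have H₁₂ : FinCoh (X₁ ∩ X₂) 1 1 := by
    rw [hp]
    exact FinCoh.singleton p le_rfl
  have hd1 : Module.finrank ℚ (HL (X₁ ∩ X₂) (0 + 1)) = 1 := by
    have := H₁₂.eul
    simpa using this
  have main := T7b_main h₁ h₂ H₁.fin H₂.fin H₁₂.fin
  have hr : T7b_r X₁ X₂ 1 = 1 := by
    have := H₁₂.fin 0
    apply le_antisymm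
    · have h := T7b_r_le X₁ X₂ (0 + 1)
      rwa [hd1] at h
    · rw [Nat.one_le_iff_ne_zero]
      intro h
      unfold T7b_r at h
      rw [Submodule.finrank_eq_zero, LinearMap.range_eq_bot] at h
      set u : List M → ℚ := fun l => if l = [] then 1 else 0 with hu
      have hf : ∀ X : Set M, T7b_D u ∈ cyc X := fun X => ⟨rfl, by
        change T7b_D (T7b_D u) ∈ T7b_Z X
        rw [T7b_DD]
        exact Submodule.zero_mem _⟩
      have h1 : T7b_b X₁ X₂ 1 (T7b_mk (bd X₁ 1) (T7b_D u) (hf X₁), 0) = 0 := by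
        rw [h]
        rfl
      have h2 : T7b_mk (bd (X₁ ∩ X₂) 1) (T7b_D u) (hf (X₁ ∩ X₂)) = 0 := by
        rw [← h1]
        unfold T7b_b
        rw [LinearMap.sub_apply, LinearMap.comp_apply, LinearMap.comp_apply, LinearMap.snd_apply,
          map_zero, sub_zero]
        rfl
      rw [T7b_mk_eq_zero] at h2
      obtain ⟨g, hg0, η, hη, hg⟩ := h2
      have h3 := hg [p] (by
        intro x hx
        rw [List.mem_singleton.1 hx, hp]
        rfl) (by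
        intro x hx y hy
        rw [List.mem_singleton.1 hx, List.mem_singleton.1 hy, dist_self]
        exact hη)
      have h4 : T7b_D u [p] = 1 := by
        change u [] - D (fun l' => u (p :: l')) [] = 1
        rw [D_nil, hu]
        simp
      have h5 : D g [p] = 0 := by
        rw [D_cons, D_nil, hg0, sub_zero]
      simp only [List.length_singleton, if_true] at h3
      rw [h4, h5] at h3
      norm_num at h3
  refine ⟨fun q => (main q).1, fun q hq => ?_, ?_⟩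
  · have e := (main q).2
    rw [H₁.van _ hq, H₂.van _ hq] at e
    obtain ⟨q, rfl⟩ : ∃ q', q = q' + 1 := ⟨q - 1, by omega⟩
    cases q with
    | zero =>
      rw [hd1] at e
      simp only [zero_add] at e ⊢
      rw [hr] at e
      omega
    | succ q =>
      rw [H₁₂.van (q + 1) (by omega)] at e
      omega
  · have e := (main 0).2
    have e1 := H₁.eul
    have e2 := H₂.eul
    have h0 : Module.finrank ℚ (HL (X₁ ∩ X₂) 0) = 0 := by
      have := T7b_sub_zero (X₁ ∩ X₂)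
      exact Module.finrank_zero_of_subsingleton
    simp only [Finset.sum_range_one, pow_zero, one_mul, zero_add] at e e1 e2 ⊢
    rw [hr, T7b_r_zero, h0] at e
    omega

/-- Mayer-Vietoris for disjoint pieces. -/
theorem FinCoh.union_disjoint {X₁ X₂ : Set M} (h₁ : IsCompact X₁) (h₂ : IsCompact X₂) {K : ℕ}
    {χ₁ χ₂ : ℤ} (hp : X₁ ∩ X₂ = ∅) (H₁ : FinCoh X₁ K χ₁) (H₂ : FinCoh X₂ K χ₂) :
    FinCoh (X₁ ∪ X₂) K (χ₁ + χ₂) := by
  have H₁₂ : FinCoh (X₁ ∩ X₂) 0 0 := by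
    rw [hp]
    exact FinCoh.empty 0
  have main := T7b_main h₁ h₂ H₁.fin H₂.fin H₁₂.fin
  have hz : ∀ q, Module.finrank ℚ (HL (X₁ ∩ X₂) q) = 0 := by
    intro q
    cases q with
    | zero =>
      have := T7b_sub_zero (X₁ ∩ X₂)
      exact Module.finrank_zero_of_subsingleton
    | succ q => exact H₁₂.van q (Nat.zero_le _)
  have hr : ∀ q, T7b_r X₁ X₂ q = 0 := by
    intro q
    cases q with
    | zero => exact T7b_r_zero X₁ X₂
    | succ q =>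
      have := H₁₂.fin q
      have h := T7b_r_le X₁ X₂ (q + 1)
      rw [hz] at h
      omega
  have e : ∀ q, Module.finrank ℚ (HL (X₁ ∪ X₂) (q + 1))
      = Module.finrank ℚ (HL X₁ (q + 1)) + Module.finrank ℚ (HL X₂ (q + 1)) := by
    intro q
    have := (main q).2
    rw [hr, hr, hz] at this
    omega
  refine ⟨fun q => (main q).1, fun q hq => ?_, ?_⟩
  · rw [e, H₁.van q hq, H₂.van q hq]
  · rw [← H₁.eul, ← H₂.eul, ← Finset.sum_add_distrib]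
    refine Finset.sum_congr rfl fun q _ => ?_
    rw [e]
    push_cast
    ring

end BU
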