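import Pool.Agent.Work.MP_4030f5_lc.T5c
import Pool.Agent.Work.MP_4030f5_lc.T4b
import Pool.Agent.Work.MP_4030f5_lc.T4a
import Pool.Agent.Work.MP_4030f5_lc.T3b

/-! # T8: cohomology of compact cylindrical sets and the iterated Euler integral -/

namespace BU

/-- the part of `X` with first coordinate in `[s, t]`. -/
def slab {k : ℕ} (X : Set (Fin (k + 1) → ℝ)) (s t : ℝ) : Set (Fin (k + 1) → ℝ) :=
  {x | x ∈ X ∧ s ≤ x 0 ∧ x 0 ≤ t}

theorem T8a_slab_compact {k : ℕ} {X : Set (Fin (k + 1) → ℝ)} (hX : IsCompact X) (s t : ℝ) :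
    IsCompact (slab X s t) := by
  have h : slab X s t = X ∩ {x | s ≤ x 0 ∧ x 0 ≤ t} := rfl
  rw [h]
  apply hX.inter_right
  exact (isClosed_le continuous_const (continuous_apply 0)).inter
    (isClosed_le (continuous_apply 0) continuous_const)

/-- general closing lemma -/
theorem T8a_close {M : Type} [MetricSpace M] {X A : Set M} (hX : IsCompact X) (hA : IsClosed A)
    (hAX : A ⊆ X)
    (h : ∀ ρ > 0, ∃ X₁ X₂ : Set M, IsCompact X₁ ∧ IsCompact X₂ ∧ X₁ ∪ X₂ = X ∧ A ⊆ X₁ ∧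
      (∀ x ∈ X₁, ∃ y ∈ A, dist x y < ρ) ∧ Acyc X₂ (X₁ ∩ X₂)) : Acyc X A := by
  classical
  intro f hf hDf
  obtain ⟨ρ, hρ, g', hg', hfg'⟩ := taut (X' := A) (g := fun _ => 0) hX hA hAX hA hAX hf hDf
    (Z_zero _) (by
      refine cast (congrArg (Z A) ?_) hf
      funext l
      rw [D_zero, sub_zero])
  obtain ⟨X₁, X₂, h₁, h₂, hun, hAX₁, hnear, hac⟩ := h ρ hρ
  have hX₁X : X₁ ⊆ X := hun ▸ Set.subset_union_left
  have hX₂X : X₂ ⊆ X := hun ▸ Set.subset_union_right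
  have hX₁N : X₁ ⊆ X ∩ {x | ∃ y ∈ A, dist x y < ρ} := fun x hx => ⟨hX₁X hx, hnear x hx⟩
  have hAN : A ⊆ A ∩ {x | ∃ y ∈ A, dist x y < ρ} :=
    fun x hx => ⟨hx, x, hx, by rw [dist_self]; exact hρ⟩
  set gh : List M → ℚ := fun l => if ∀ x ∈ l, x ∈ X₁ then g' l else 0 with hgh
  have hghA : Z A gh := by
    refine Z_extend (X₁ := X₁) (X' := A) (f := g') (Z_mono ?_ hg')
    exact fun x hx => hAN hx.1
  have hDgh : ∀ l : List M, (∀ x ∈ l, x ∈ X₁) → D gh l = D g' l := by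
    intro l hl
    apply D_congr
    intro l' hsub _
    have : ∀ x ∈ l', x ∈ X₁ := fun x hx => hl x (hsub.subset hx)
    simp only [hgh]
    rw [if_pos this]
  set F : List M → ℚ := fun l => f l - D gh l with hF
  have hFX₁ : Z X₁ F := by
    obtain ⟨η, hη, hz⟩ := Z_mono hX₁N hfg'
    refine ⟨η, hη, fun l h1 h2 => ?_⟩
    show f l - D gh l = 0
    rw [hDgh l h1]
    exact hz l h1 h2
  have hDF : ∀ l, D F l = D f l := by
    intro l
    rw [hF, D_sub, D_D, sub_zero]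
  have hDFX : Z X (D F) := by
    refine cast (congrArg (Z X) ?_) hDf
    funext l
    exact (hDF l).symm
  obtain ⟨e, he, hFe⟩ := hac F (Z_mono Set.inter_subset_left hFX₁) (Z_mono hX₂X hDFX)
  obtain ⟨g, hg, hFg⟩ := glue_eq (X₁ := X₁) (X₂ := X₂) (X' := A) (f := F) (g₁ := fun _ => 0)
    (g₂ := e) h₁ h₂ hA (hun.symm ▸ hAX) (Z_mono hAX₁ hFX₁) (hun.symm ▸ hDFX) (Z_zero _)
    (Z_mono (fun x (hx : x ∈ A ∩ X₂) => (⟨hAX₁ hx.1, hx.2⟩ : x ∈ X₁ ∩ X₂)) he)
    (by
      refine cast (congrArg (Z X₁) ?_) hFX₁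
      funext l
      rw [D_zero, sub_zero]) hFe
    (by
      refine cast (congrArg (Z (X₁ ∩ X₂)) ?_) (Z_neg he)
      funext l
      rw [zero_sub])
  refine ⟨fun l => gh l + g l, Z_add hghA hg, ?_⟩
  rw [hun] at hFg
  refine cast (congrArg (Z X) ?_) hFg
  funext l
  show f l - D gh l - D g l = _
  rw [D_add]
  ring

/-- over a closed interval inside an open band the slab is homologically trivial. -/
theorem slab_acyc {k : ℕ} {X : Set (Fin (k + 1) → ℝ)} (hX : IsCompact X) {s t : ℝ} (hst : s ≤ t)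
    (h : Cyl k (Set.Icc s t) (fun b y => (Fin.cons (b : ℝ) y : Fin (k + 1) → ℝ) ∈ X)) {r : ℝ}
    (hr : r ∈ Set.Icc s t) : Acyc (slab X s t) (slab X r r) := by
  set E : ℝ → (Fin k → ℝ) → Prop := fun b y => (Fin.cons b y : Fin (k + 1) → ℝ) ∈ X with hE
  have hcons : ∀ x : Fin (k + 1) → ℝ, (Fin.cons (x 0) (Fin.tail x) : Fin (k + 1) → ℝ) = x :=
    fun x => Fin.cons_self_tail x
  have hset : {p : ℝ × (Fin k → ℝ) | p.1 ∈ Set.Icc s t ∧ E p.1 p.2} =
      (fun x : Fin (k + 1) → ℝ => (x 0, Fin.tail x)) '' slab X s t := by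
    ext ⟨b, y⟩
    constructor
    · rintro ⟨⟨h1, h2⟩, h3⟩
      refine ⟨Fin.cons b y, ⟨h3, ?_, ?_⟩, ?_⟩
      · simpa using h1
      · simpa using h2
      · simp [Fin.tail_cons]
    · rintro ⟨x, ⟨hx, h1, h2⟩, h3⟩
      simp only [Prod.mk.injEq] at h3
      obtain ⟨rfl, rfl⟩ := h3
      refine ⟨⟨h1, h2⟩, ?_⟩
      show (Fin.cons (x 0) (Fin.tail x) : Fin (k + 1) → ℝ) ∈ X
      rw [hcons]
      exact hx
  have hcomp : IsCompact {p : ℝ × (Fin k → ℝ) | p.1 ∈ Set.Icc s t ∧ E p.1 p.2} := by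
    rw [hset]
    apply (T8a_slab_compact hX s t).image
    refine (continuous_apply 0).prodMk ?_
    exact continuous_pi (fun i => continuous_apply _)
  have hac := Cyl.acyc_set (isCompact_Icc (a := s) (b := t)) hr
    (Acyc.convex isCompact_Icc (convex_Icc s t) hr) hcomp h
  have hsub : {p : ℝ × (Fin k → ℝ) | p.1 = r ∧ E p.1 p.2} ⊆
      {p : ℝ × (Fin k → ℝ) | p.1 ∈ Set.Icc s t ∧ E p.1 p.2} := by
    rintro ⟨b, y⟩ ⟨h1, h2⟩
    simp only at h1
    subst h1
    exact ⟨hr, h2⟩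
  have hcontcons : Continuous (fun p : ℝ × (Fin k → ℝ) => (Fin.cons p.1 p.2 : Fin (k + 1) → ℝ)) := by
    apply continuous_pi
    intro i
    refine Fin.cases ?_ (fun j => ?_) i
    · simpa using continuous_fst
    · have := (continuous_apply j).comp (continuous_snd (X := ℝ) (Y := Fin k → ℝ))
      simp only [Fin.cons_succ]
      exact this
  have himg := Acyc.image hcomp hsub (φ := fun p : ℝ × (Fin k → ℝ) =>
    (Fin.cons p.1 p.2 : Fin (k + 1) → ℝ)) hcontcons.continuousOn (by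
      rintro ⟨b, y⟩ _ ⟨b', y'⟩ _ heq
      have := Fin.cons_injective2 heq
      exact Prod.ext this.1 this.2) hac
  have e1 : (fun p : ℝ × (Fin k → ℝ) => (Fin.cons p.1 p.2 : Fin (k + 1) → ℝ)) ''
      {p : ℝ × (Fin k → ℝ) | p.1 ∈ Set.Icc s t ∧ E p.1 p.2} = slab X s t := by
    ext x
    constructor
    · rintro ⟨⟨b, y⟩, ⟨⟨h1, h2⟩, h3⟩, rfl⟩
      refine ⟨h3, ?_, ?_⟩
      · simpa using h1
      · simpa using h2
    · rintro ⟨h1, h2, h3⟩
      refine ⟨(x 0, Fin.tail x), ⟨⟨h2, h3⟩, ?_⟩, hcons x⟩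
      show (Fin.cons (x 0) (Fin.tail x) : Fin (k + 1) → ℝ) ∈ X
      rw [hcons]
      exact h1
  have e2 : (fun p : ℝ × (Fin k → ℝ) => (Fin.cons p.1 p.2 : Fin (k + 1) → ℝ)) ''
      {p : ℝ × (Fin k → ℝ) | p.1 = r ∧ E p.1 p.2} = slab X r r := by
    ext x
    constructor
    · rintro ⟨⟨b, y⟩, ⟨h1, h3⟩, rfl⟩
      simp only at h1
      subst h1
      refine ⟨h3, ?_, ?_⟩
      · simp
      · simp
    · rintro ⟨h1, h2, h3⟩
      refine ⟨(x 0, Fin.tail x), ⟨le_antisymm h3 h2, ?_⟩, hcons x⟩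
      show (Fin.cons (x 0) (Fin.tail x) : Fin (k + 1) → ℝ) ∈ X
      rw [hcons]
      exact h1
  rw [e1, e2] at himg
  exact himg

/-- closing a half open slab on the left -/
theorem slab_close_left {k : ℕ} {X : Set (Fin (k + 1) → ℝ)} (hX : IsCompact X) {s t : ℝ}
    (hst : s < t) (h : ∀ s', s < s' → s' ≤ t → Acyc (slab X s' t) (slab X s' s')) :
    Acyc (slab X s t) (slab X s s) := by
  refine T8a_close (T8a_slab_compact hX s t) (T8a_slab_compact hX s s).isClosed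
    (fun x hx => ⟨hx.1, hx.2.1, hx.2.2.trans hst.le⟩) ?_
  intro ρ hρ
  -- the far part
  set K : Set (Fin (k + 1) → ℝ) := slab X s t ∩ {x | ∀ y ∈ slab X s s, ρ ≤ dist x y} with hK
  have hKc : IsCompact K := by
    apply (T8a_slab_compact hX s t).inter_right
    have : {x : Fin (k + 1) → ℝ | ∀ y ∈ slab X s s, ρ ≤ dist x y} =
        ⋂ y ∈ slab X s s, {x | ρ ≤ dist x y} := by
      ext x
      simp
    rw [this]
    apply isClosed_biInter
    intro y _
    exact isClosed_le continuous_const (continuous_id.dist continuous_const)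
  obtain ⟨s', hs1, hs2, hs3⟩ : ∃ s', s < s' ∧ s' ≤ t ∧ ∀ x ∈ slab X s s', ∃ y ∈ slab X s s,
      dist x y < ρ := by
    rcases K.eq_empty_or_nonempty with hKe | hKn
    · refine ⟨t, hst, le_rfl, fun x hx => ?_⟩
      by_contra hcon
      push Not at hcon
      have : x ∈ K := ⟨hx, hcon⟩
      rw [hKe] at this
      exact this
    · obtain ⟨z, hz, hmin⟩ := hKc.exists_isMinOn hKn ((continuous_apply 0).continuousOn)
      have hz0 : s < z 0 := by
        rcases lt_or_eq_of_le hz.1.2.1 with h1 | h1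
        · exact h1
        · exfalso
          have := hz.2 z ⟨hz.1.1, h1.le, h1.symm.le⟩
          rw [dist_self] at this
          linarith
      refine ⟨(s + z 0) / 2, by linarith, by linarith [hz.1.2.2], fun x hx => ?_⟩
      by_contra hcon
      push Not at hcon
      have hxK : x ∈ K := ⟨⟨hx.1, hx.2.1, hx.2.2.trans (by linarith [hz.1.2.2])⟩, hcon⟩
      have h3 : z 0 ≤ x 0 := hmin hxK
      linarith [hx.2.2]
  refine ⟨slab X s s', slab X s' t, T8a_slab_compact hX _ _, T8a_slab_compact hX _ _, ?_, ?_,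
    hs3, ?_⟩
  · ext x
    constructor
    · rintro (⟨h1, h2, h3⟩ | ⟨h1, h2, h3⟩)
      · exact ⟨h1, h2, h3.trans hs2⟩
      · exact ⟨h1, hs1.le.trans h2, h3⟩
    · rintro ⟨h1, h2, h3⟩
      rcases le_total (x 0) s' with h4 | h4
      · exact Or.inl ⟨h1, h2, h4⟩
      · exact Or.inr ⟨h1, h4, h3⟩
  · rintro x ⟨h1, h2, h3⟩
    exact ⟨h1, h2, h3.trans hs1.le⟩
  · have e : slab X s s' ∩ slab X s' t = slab X s' s' := by
      ext x
      constructor
      · rintro ⟨⟨h1, h2, h3⟩, ⟨_, h5, h6⟩⟩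
        exact ⟨h1, h5, h3⟩
      · rintro ⟨h1, h2, h3⟩
        exact ⟨⟨h1, hs1.le.trans h2, h3⟩, ⟨h1, h2, h3.trans hs2⟩⟩
    rw [e]
    exact h s' hs1 hs2

/-- closing a half open slab on the right -/
theorem slab_close_right {k : ℕ} {X : Set (Fin (k + 1) → ℝ)} (hX : IsCompact X) {s t : ℝ}
    (hst : s < t) (h : ∀ t', s ≤ t' → t' < t → Acyc (slab X s t') (slab X t' t')) :
    Acyc (slab X s t) (slab X t t) := by
  refine T8a_close (T8a_slab_compact hX s t) (T8a_slab_compact hX t t).isClosed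
    (fun x hx => ⟨hx.1, hst.le.trans hx.2.1, hx.2.2⟩) ?_
  intro ρ hρ
  -- the far part
  set K : Set (Fin (k + 1) → ℝ) := slab X s t ∩ {x | ∀ y ∈ slab X t t, ρ ≤ dist x y} with hK
  have hKc : IsCompact K := by
    apply (T8a_slab_compact hX s t).inter_right
    have : {x : Fin (k + 1) → ℝ | ∀ y ∈ slab X t t, ρ ≤ dist x y} =
        ⋂ y ∈ slab X t t, {x | ρ ≤ dist x y} := by
      ext x
      simp
    rw [this]
    apply isClosed_biInter
    intro y _
    exact isClosed_le continuous_const (continuous_id.dist continuous_const)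
  obtain ⟨t', hs1, hs2, hs3⟩ : ∃ t', s ≤ t' ∧ t' < t ∧ ∀ x ∈ slab X t' t, ∃ y ∈ slab X t t,
      dist x y < ρ := by
    rcases K.eq_empty_or_nonempty with hKe | hKn
    · refine ⟨s, le_rfl, hst, fun x hx => ?_⟩
      by_contra hcon
      push Not at hcon
      have : x ∈ K := ⟨hx, hcon⟩
      rw [hKe] at this
      exact this
    · obtain ⟨z, hz, hmax⟩ := hKc.exists_isMaxOn hKn ((continuous_apply 0).continuousOn)
      have hz0 : z 0 < t := by
        rcases lt_or_eq_of_le hz.1.2.2 with h1 | h1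
        · exact h1
        · exfalso
          have := hz.2 z ⟨hz.1.1, h1.symm.le, h1.le⟩
          rw [dist_self] at this
          linarith
      refine ⟨(t + z 0) / 2, by linarith [hz.1.2.1], by linarith, fun x hx => ?_⟩
      by_contra hcon
      push Not at hcon
      have hxK : x ∈ K := ⟨⟨hx.1, (by linarith [hz.1.2.1] : s ≤ (t + z 0) / 2).trans hx.2.1,
        hx.2.2⟩, hcon⟩
      have h3 : x 0 ≤ z 0 := hmax hxK
      linarith [hx.2.1]
  refine ⟨slab X t' t, slab X s t', T8a_slab_compact hX _ _, T8a_slab_compact hX _ _, ?_, ?_,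
    hs3, ?_⟩
  · ext x
    constructor
    · rintro (⟨h1, h2, h3⟩ | ⟨h1, h2, h3⟩)
      · exact ⟨h1, hs1.trans h2, h3⟩
      · exact ⟨h1, h2, h3.trans hs2.le⟩
    · rintro ⟨h1, h2, h3⟩
      rcases le_total (x 0) t' with h4 | h4
      · exact Or.inr ⟨h1, h2, h4⟩
      · exact Or.inl ⟨h1, h4, h3⟩
  · rintro x ⟨h1, h2, h3⟩
    exact ⟨h1, hs2.le.trans h2, h3⟩
  · have e : slab X t' t ∩ slab X s t' = slab X t' t' := by
      ext x
      constructor
      · rintro ⟨⟨h1, h2, h3⟩, ⟨_, h5, h6⟩⟩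
        exact ⟨h1, h2, h6⟩
      · rintro ⟨h1, h2, h3⟩
        exact ⟨⟨h1, h2, h3.trans hs2.le⟩, ⟨h1, hs1.trans h2, h3⟩⟩
    rw [e]
    exact h t' hs1 hs2

end BU
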