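import Pool.Agent.Work.MP_4030f5_lc.T8a
import Pool.Agent.Work.MP_4030f5_lc.T7b
import Pool.Agent.Work.MP_4030f5_lc.EDefs
import Pool.Agent.Work.MP_4030f5_lc.E1a
import Pool.Agent.Work.MP_4030f5_lc.E1b

/-! # T8: cohomology of compact cylindrical sets and the iterated Euler integral -/

namespace BU

theorem T8b_unique {M : Type} [MetricSpace M] {X : Set M} {K : ℕ} {χ χ' : ℤ}
    (h : FinCoh X K χ) (h' : FinCoh X K χ') : χ = χ' := h.eul.symm.trans h'.eul

theorem T8b_mono {M : Type} [MetricSpace M] {X : Set M} {K K' : ℕ} (hK : K ≤ K') {χ : ℤ}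
    (h : FinCoh X K χ) : FinCoh X K' χ := by
  refine ⟨h.fin, fun q hq => h.van q (hK.trans hq), ?_⟩
  rw [← h.eul]
  symm
  apply Finset.sum_subset (Finset.range_mono hK)
  intro q _ hq
  have hq' : K ≤ q := by
    by_contra hcon
    exact hq (Finset.mem_range.2 (by omega))
  rw [h.van q hq']
  simp

theorem T8b_union {k : ℕ} {X₁ X₂ : Set (Fin (k + 1) → ℝ)} (h₁ : IsCompact X₁)
    (h₂ : IsCompact X₂) {χ₁ χ₂ χ₁₂ : ℤ} (H₁ : FinCoh X₁ (k + 1) χ₁) (H₂ : FinCoh X₂ (k + 1) χ₂)
    (H₁₂ : FinCoh (X₁ ∩ X₂) (max k 1) χ₁₂) (hpt : k = 0 → (X₁ ∩ X₂).Subsingleton) :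
    FinCoh (X₁ ∪ X₂) (k + 1) (χ₁ + χ₂ - χ₁₂) := by
  rcases Nat.eq_zero_or_pos k with rfl | hk
  · rcases (hpt rfl).eq_empty_or_singleton with he | ⟨p, hp⟩
    · have : χ₁₂ = 0 := by
        rw [he] at H₁₂
        exact T8b_unique H₁₂ (FinCoh.empty _)
      rw [this, sub_zero]
      exact FinCoh.union_disjoint h₁ h₂ he H₁ H₂
    · have : χ₁₂ = 1 := by
        rw [hp] at H₁₂
        exact T8b_unique H₁₂ (FinCoh.singleton p (le_max_right _ _))
      rw [this]
      exact FinCoh.union_point h₁ h₂ hp H₁ H₂
  · rw [max_eq_left hk] at H₁₂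
    exact FinCoh.union h₁ h₂ H₁ H₂ H₁₂

/-- the slices -/
theorem T8b_slice {k : ℕ} {X : Set (Fin (k + 1) → ℝ)} (hX : IsCompact X) {K : ℕ} (t : ℝ) {χ : ℤ}
    (h : IsCompact {y : Fin k → ℝ | (Fin.cons t y : Fin (k + 1) → ℝ) ∈ X} →
      FinCoh {y : Fin k → ℝ | (Fin.cons t y : Fin (k + 1) → ℝ) ∈ X} K χ) :
    FinCoh (slab X t t) K χ := by
  have hcont : Continuous (fun y : Fin k → ℝ => (Fin.cons t y : Fin (k + 1) → ℝ)) := by
    apply continuous_pi
    intro i
    refine Fin.cases ?_ (fun j => ?_) i
    · simpa using continuous_const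
    · simp only [Fin.cons_succ]
      exact continuous_apply j
  have hY : IsCompact {y : Fin k → ℝ | (Fin.cons t y : Fin (k + 1) → ℝ) ∈ X} := by
    have e : {y : Fin k → ℝ | (Fin.cons t y : Fin (k + 1) → ℝ) ∈ X} =
        (fun x : Fin (k + 1) → ℝ => Fin.tail x) '' slab X t t := by
      ext y
      constructor
      · intro hy
        exact ⟨Fin.cons t y, ⟨hy, by simp, by simp⟩, Fin.tail_cons _ _⟩
      · rintro ⟨x, ⟨hx, h1, h2⟩, rfl⟩
        show (Fin.cons t (Fin.tail x) : Fin (k + 1) → ℝ) ∈ X
        have : x 0 = t := le_antisymm h2 h1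
        rw [← this, Fin.cons_self_tail]
        exact hx
    rw [e]
    apply (T8a_slab_compact hX t t).image
    exact continuous_pi (fun i => continuous_apply _)
  have h' := FinCoh.image hY (φ := fun y : Fin k → ℝ => (Fin.cons t y : Fin (k + 1) → ℝ))
    hcont.continuousOn (fun y _ y' _ heq => (Fin.cons_injective2 heq).2) (h hY)
  have e : (fun y : Fin k → ℝ => (Fin.cons t y : Fin (k + 1) → ℝ)) ''
      {y : Fin k → ℝ | (Fin.cons t y : Fin (k + 1) → ℝ) ∈ X} = slab X t t := by
    ext x
    constructor
    · rintro ⟨y, hy, rfl⟩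
      exact ⟨hy, by simp, by simp⟩
    · rintro ⟨hx, h1, h2⟩
      have h3 : x 0 = t := le_antisymm h2 h1
      have h4 : (Fin.cons t (Fin.tail x) : Fin (k + 1) → ℝ) = x := by
        rw [← h3, Fin.cons_self_tail]
      refine ⟨Fin.tail x, ?_, h4⟩
      show (Fin.cons t (Fin.tail x) : Fin (k + 1) → ℝ) ∈ X
      rw [h4]
      exact hx
  rw [e] at h'
  exact h'

/-- Cohomology of compact cylindrical sets: finite dimensional, zero in degrees `≥ max k 1`, and
the Euler characteristic is the iterated Euler integral of the indicator function. -/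
theorem cyl_fincoh {k : ℕ} {X : Set (Fin k → ℝ)} (hX : IsCompact X)
    (h : Cyl k Unit (fun _ y => y ∈ X)) : FinCoh X (max k 1) (EI' k (ind X)) := by
  induction k with
  | zero =>
    rcases h with h | h
    · have e : X = {Fin.elim0} := by
        ext y
        refine iff_of_true (h () y) (Subsingleton.elim _ _)
      have e2 : EI' 0 (ind X) = 1 := by
        show ind X Fin.elim0 = 1
        unfold ind
        rw [if_pos (h () _)]
      rw [e2, e]
      exact FinCoh.singleton _ (le_max_right _ _)
    · have e : X = ∅ := by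
        ext y
        exact iff_of_false (h () y) (Set.notMem_empty _)
      have e2 : EI' 0 (ind X) = 0 := by
        show ind X Fin.elim0 = 0
        unfold ind
        rw [if_neg (h () _)]
      rw [e2, e]
      exact FinCoh.empty _
  | succ k ih =>
    obtain ⟨l, ξ, hξ, hsec, hband⟩ := h
    set x : Fin l → ℝ := fun i => ξ i () with hx
    have hxm : StrictMono x := hξ ()
    -- bands
    let InB : ℕ → ℝ → Prop := fun i t =>
      (∀ j : Fin l, (j : ℕ) < i → x j < t) ∧ (∀ j : Fin l, i ≤ (j : ℕ) → t < x j)
    have hInB_conv : ∀ i s t r, InB i s → InB i t → s ≤ r → r ≤ t → InB i r := by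
      intro i s t r hs ht h1 h2
      exact ⟨fun j hj => (hs.1 j hj).trans_le h1, fun j hj => h2.trans_lt (ht.2 j hj)⟩
    -- cylindricity over intervals in a band
    have hcylI : ∀ i, i ≤ l → ∀ s t, InB i s → InB i t →
        Cyl k (Set.Icc s t) (fun b y => (Fin.cons (b : ℝ) y : Fin (k + 1) → ℝ) ∈ X) := by
      intro i hi s t hs ht
      have hmem : ∀ b : Set.Icc s t, (((), (b : ℝ)) : Unit × ℝ) ∈
          Band ξ (⟨i, by omega⟩ : Fin (l + 1)) := by
        intro b
        have hb := hInB_conv i s t b hs ht b.2.1 b.2.2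
        exact ⟨fun j hj => hb.1 j hj, fun j hj => hb.2 j hj⟩
      exact Cyl.pullback (hband ⟨i, by omega⟩)
        (fun b : Set.Icc s t => (⟨((), (b : ℝ)), hmem b⟩ : Band ξ (⟨i, by omega⟩ : Fin (l + 1))))
        ((continuous_const.prodMk continuous_subtype_val).subtype_mk _)
    have hacB : ∀ i, i ≤ l → ∀ s t r, InB i s → InB i t → s ≤ r → r ≤ t →
        Acyc (slab X s t) (slab X r r) := by
      intro i hi s t r hs ht h1 h2
      exact slab_acyc hX (h1.trans h2) (hcylI i hi s t hs ht) ⟨h1, h2⟩
    -- the function c
    set c : ℝ → ℤ := fun t => EI' k (fun y => ind X (Fin.cons t y)) with hc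
    have hgoal : EI' (k + 1) (ind X) = EI1 c := rfl
    have hsliceU : ∀ t, Cyl k Unit (fun _ y => (Fin.cons t y : Fin (k + 1) → ℝ) ∈ X) →
        FinCoh (slab X t t) (max k 1) (c t) := by
      intro t ht
      exact T8b_slice hX t (fun hY => ih hY ht)
    have hsliceS : ∀ j, FinCoh (slab X (x j) (x j)) (max k 1) (c (x j)) := by
      intro j
      apply hsliceU
      exact Cyl.pullback (hsec j) (fun _ => ()) continuous_const
    have hsliceB : ∀ i, i ≤ l → ∀ t, InB i t → FinCoh (slab X t t) (max k 1) (c t) := by
      intro i hi t ht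
      apply hsliceU
      have := Cyl.pullback (hcylI i hi t t ht ht) (fun _ : Unit => (⟨t, le_rfl, le_rfl⟩ : Set.Icc t t))
        continuous_const
      exact this
    have hconst : ∀ i, i ≤ l → ∀ s t, InB i s → InB i t → c s = c t := by
      have key : ∀ i, i ≤ l → ∀ s t, InB i s → InB i t → s ≤ t → c s = c t := by
        intro i hi s t hs ht hst
        have h1 := FinCoh.of_acyc (by
          rintro z ⟨hz, h1, h2⟩
          exact ⟨hz, h1, h2.trans hst⟩) (hacB i hi s t s hs ht le_rfl hst) (hsliceB i hi s hs)
        have h2 := FinCoh.of_acyc (by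
          rintro z ⟨hz, h1, h2⟩
          exact ⟨hz, hst.trans h1, h2⟩) (hacB i hi s t t hs ht hst le_rfl) (hsliceB i hi t ht)
        exact T8b_unique h1 h2
      intro i hi s t hs ht
      rcases le_total s t with h | h
      · exact key i hi s t hs ht h
      · exact (key i hi t s ht hs h).symm
    -- boundedness
    obtain ⟨R, hR⟩ : ∃ R : ℝ, ∀ z ∈ X, |z 0| ≤ R := by
      obtain ⟨R, hR⟩ := (hX.image (continuous_apply (0 : Fin (k + 1)))).isBounded.exists_norm_le
      exact ⟨R, fun z hz => hR (z 0) ⟨z, hz, rfl⟩⟩
    have hempty : ∀ i, i ≤ l → ∀ s t, InB i s → InB i t →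
        (∀ y : Fin k → ℝ, (Fin.cons s y : Fin (k + 1) → ℝ) ∉ X) →
        (∀ y : Fin k → ℝ, (Fin.cons t y : Fin (k + 1) → ℝ) ∉ X) := by
      intro i hi s t hs ht hse y hy
      have hms : (((), s) : Unit × ℝ) ∈ Band ξ (⟨i, by omega⟩ : Fin (l + 1)) :=
        ⟨fun j hj => hs.1 j hj, fun j hj => hs.2 j hj⟩
      have hmt : (((), t) : Unit × ℝ) ∈ Band ξ (⟨i, by omega⟩ : Fin (l + 1)) :=
        ⟨fun j hj => ht.1 j hj, fun j hj => ht.2 j hj⟩
      obtain ⟨y', hy'⟩ := (Cyl.nonempty_iff (hband ⟨i, by omega⟩)
        ⟨((), t), hmt⟩ ⟨((), s), hms⟩).1 ⟨y, hy⟩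
      exact hse y' hy'
    have hemp0 : ∀ t, InB 0 t → ∀ y : Fin k → ℝ, (Fin.cons t y : Fin (k + 1) → ℝ) ∉ X := by
      intro t ht
      refine hempty 0 (Nat.zero_le _) (min t (-R - 1)) t ?_ ht ?_
      · exact ⟨fun j hj => absurd hj (Nat.not_lt_zero _),
          fun j hj => (min_le_left _ _).trans_lt (ht.2 j hj)⟩
      · intro y hy
        have h1 := hR _ hy
        rw [Fin.cons_zero] at h1
        have h2 := (abs_le.1 h1).1
        have h3 : min t (-R - 1) ≤ -R - 1 := min_le_right _ _
        linarith
    have hempl : ∀ t, InB l t → ∀ y : Fin k → ℝ, (Fin.cons t y : Fin (k + 1) → ℝ) ∉ X := by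
      intro t ht
      refine hempty l le_rfl (max t (R + 1)) t ?_ ht ?_
      · exact ⟨fun j hj => (ht.1 j hj).trans_le (le_max_left _ _),
          fun j hj => absurd hj (not_le.2 j.2)⟩
      · intro y hy
        have h1 := hR _ hy
        rw [Fin.cons_zero] at h1
        have h2 := (abs_le.1 h1).2
        have h3 : R + 1 ≤ max t (R + 1) := le_max_right _ _
        linarith
    have hmem0 : ∀ z ∈ X, ¬ InB 0 (z 0) := by
      intro z hz hin
      apply hemp0 (z 0) hin (Fin.tail z)
      rw [Fin.cons_self_tail]
      exact hz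
    have hmeml : ∀ z ∈ X, ¬ InB l (z 0) := by
      intro z hz hin
      apply hempl (z 0) hin (Fin.tail z)
      rw [Fin.cons_self_tail]
      exact hz
    -- break points of c
    have hBk : Bk c ⊆ ((Finset.univ.image x : Finset ℝ) : Set ℝ) := by
      apply Bk_subset (Finset.finite_toSet _)
      intro s t hst hno
      have hno' : ∀ j, ¬ (s ≤ x j ∧ x j ≤ t) := by
        rintro j ⟨h1, h2⟩
        exact hno (x j) ⟨h1, h2⟩ (by simp)
      have hex : ∃ i, ∀ j : Fin l, i ≤ (j : ℕ) → s ≤ x j :=
        ⟨l, fun j hj => absurd hj (not_le.2 j.2)⟩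
      classical
      let i := Nat.find hex
      have hi1 : ∀ j : Fin l, i ≤ (j : ℕ) → s ≤ x j := Nat.find_spec hex
      have hil : i ≤ l := Nat.find_min' hex (fun j hj => absurd hj (not_le.2 j.2))
      have hi2 : ∀ j : Fin l, (j : ℕ) < i → x j < s := by
        intro j hj
        by_contra hcon
        push Not at hcon
        have : i ≤ (j : ℕ) := Nat.find_min' hex (fun j' hj' => hcon.trans (hxm.monotone hj'))
        omega
      have hi3 : ∀ j : Fin l, i ≤ (j : ℕ) → t < x j := by
        intro j hj
        by_contra hcon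
        exact hno' j ⟨hi1 j hj, not_lt.1 hcon⟩
      exact hconst i hil s t ⟨hi2, fun j hj => hst.trans_lt (hi3 j hj)⟩
        ⟨fun j hj => (hi2 j hj).trans_le hst, hi3⟩
    have hEI : EI1 c = ∑ j : Fin l, (c (x j) - rl c (x j)) := by
      rw [EI1_eq_sum hBk, Finset.sum_image (fun a _ b _ hab => hxm.injective hab)]
    rw [hgoal, hEI, max_eq_left (by omega : 1 ≤ k + 1)]
    -- right limits
    have hrl : ∀ (i : Fin l) (m : ℝ), InB ((i : ℕ) + 1) m → rl c (x i) = c m := by
      intro i m hm
      apply rl_eq
      have him : x i < m := hm.1 i (Nat.lt_succ_self _)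
      filter_upwards [Ioo_mem_nhdsGT him] with s hs
      refine hconst ((i : ℕ) + 1) i.2 s m ⟨fun j hj => ?_, fun j hj => ?_⟩ hm
      · exact (hxm.monotone (show j ≤ i from Nat.lt_succ_iff.1 hj)).trans_lt hs.1
      · exact hs.2.trans (hm.2 j hj)
    rcases Nat.eq_zero_or_pos l with hl0 | hl0
    · subst hl0
      have hXe : X = ∅ := by
        ext z
        refine iff_of_false (fun hz => hmem0 z hz ?_) (Set.notMem_empty _)
        exact ⟨fun j => j.elim0, fun j => j.elim0⟩
      rw [hXe]
      simp only [Finset.univ_eq_empty, Finset.sum_empty]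
      exact FinCoh.empty _
    · -- main case
      set a : ℝ := x ⟨0, hl0⟩ - 1 with ha
      have hbelow : ∀ z ∈ X, x ⟨0, hl0⟩ ≤ z 0 := by
        intro z hz
        by_contra hcon
        push Not at hcon
        apply hmem0 z hz
        refine ⟨fun j hj => absurd hj (Nat.not_lt_zero _), fun j _ => ?_⟩
        exact hcon.trans_le (hxm.monotone (Fin.mk_le_of_le_val (Nat.zero_le _)))
      have habove : ∀ z ∈ X, z 0 ≤ x ⟨l - 1, by omega⟩ := by
        intro z hz
        by_contra hcon
        push Not at hcon
        apply hmeml z hz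
        refine ⟨fun j _ => ?_, fun j hj => absurd hj (not_le.2 j.2)⟩
        exact (hxm.monotone (show j ≤ ⟨l - 1, by omega⟩ from by
          rw [Fin.le_def]
          show (j : ℕ) ≤ l - 1
          have := j.2
          omega)).trans_lt hcon
      have hV : ∀ i (hi : i < l), FinCoh (slab X a (x ⟨i, hi⟩)) (k + 1)
          (∑ j ∈ Finset.univ.filter (fun j : Fin l => (j : ℕ) < i), (c (x j) - rl c (x j)) +
            c (x ⟨i, hi⟩)) := by
        intro i
        induction i with
        | zero =>
          intro hi
          have e : slab X a (x ⟨0, hi⟩) = slab X (x ⟨0, hi⟩) (x ⟨0, hi⟩) := by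
            ext z
            constructor
            · rintro ⟨h1, h2, h3⟩
              exact ⟨h1, hbelow z h1, h3⟩
            · rintro ⟨h1, h2, h3⟩
              refine ⟨h1, le_trans ?_ h2, h3⟩
              rw [ha]
              linarith
          rw [e]
          simp only [Nat.not_lt_zero, Finset.filter_false, Finset.sum_empty, zero_add]
          exact T8b_mono (by omega) (hsliceS _)
        | succ i ihV =>
          intro hi
          have hi' : i < l := by omega
          have hV0 := ihV hi'
          set u := x ⟨i, hi'⟩ with hu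
          set v := x ⟨i + 1, hi⟩ with hv
          have huv : u < v := hxm (Fin.mk_lt_mk.2 (Nat.lt_succ_self _))
          have hau : a ≤ u := by
            have : x ⟨0, hl0⟩ ≤ u := hxm.monotone (Fin.mk_le_of_le_val (Nat.zero_le _))
            rw [ha]
            linarith
          have hB : ∀ s, u < s → s < v → InB (i + 1) s := by
            intro s h1 h2
            refine ⟨fun j hj => ?_, fun j hj => ?_⟩
            · exact (hxm.monotone (show j ≤ ⟨i, hi'⟩ from Nat.lt_succ_iff.1 hj)).trans_lt h1
            · exact h2.trans_le (hxm.monotone (show (⟨i + 1, hi⟩ : Fin l) ≤ j from hj))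
          obtain ⟨m, hum, hmv⟩ := exists_between huv
          have hmB := hB m hum hmv
          have hil : i + 1 ≤ l := hi.le
          have hrlm : rl c u = c m := hrl ⟨i, hi'⟩ m hmB
          -- step B
          have hB1 : Acyc (slab X u m) (slab X u u) := by
            apply slab_close_left hX hum
            intro s' h1 h2
            exact hacB (i + 1) hil s' m s' (hB s' h1 (h2.trans_lt hmv)) hmB le_rfl h2
          have hun1 : slab X a u ∪ slab X u m = slab X a m := by
            ext z
            constructor
            · rintro (⟨h1, h2, h3⟩ | ⟨h1, h2, h3⟩)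
              · exact ⟨h1, h2, h3.trans hum.le⟩
              · exact ⟨h1, hau.trans h2, h3⟩
            · rintro ⟨h1, h2, h3⟩
              rcases le_total (z 0) u with h4 | h4
              · exact Or.inl ⟨h1, h2, h4⟩
              · exact Or.inr ⟨h1, h4, h3⟩
          have hin1 : slab X a u ∩ slab X u m = slab X u u := by
            ext z
            constructor
            · rintro ⟨⟨h1, h2, h3⟩, ⟨_, h5, h6⟩⟩
              exact ⟨h1, h5, h3⟩
            · rintro ⟨h1, h2, h3⟩
              exact ⟨⟨h1, hau.trans h2, h3⟩, ⟨h1, h2, h3.trans hum.le⟩⟩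
          have hac1 : Acyc (slab X a m) (slab X a u) := by
            rw [← hun1]
            apply Acyc.union (T8a_slab_compact hX _ _) (T8a_slab_compact hX _ _)
            rw [hin1]
            exact hB1
          have hVm : FinCoh (slab X a m) (k + 1)
              (∑ j ∈ Finset.univ.filter (fun j : Fin l => (j : ℕ) < i), (c (x j) - rl c (x j)) +
                c u) := by
            refine FinCoh.of_acyc ?_ hac1 hV0
            rintro z ⟨h1, h2, h3⟩
            exact ⟨h1, h2, h3.trans hum.le⟩
          -- step C
          have hC1 : Acyc (slab X m v) (slab X v v) := by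
            apply slab_close_right hX hmv
            intro t' h1 h2
            exact hacB (i + 1) hil m t' t' hmB (hB t' (hum.trans_le h1) h2) h1 le_rfl
          have hH2 : FinCoh (slab X m v) (k + 1) (c v) := by
            refine FinCoh.of_acyc ?_ hC1 (T8b_mono (by omega) (hsliceS ⟨i + 1, hi⟩))
            rintro z ⟨h1, h2, h3⟩
            exact ⟨h1, hmv.le.trans h2, h3⟩
          have ham : a ≤ m := hau.trans hum.le
          have hun2 : slab X a m ∪ slab X m v = slab X a v := by
            ext z
            constructor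
            · rintro (⟨h1, h2, h3⟩ | ⟨h1, h2, h3⟩)
              · exact ⟨h1, h2, h3.trans hmv.le⟩
              · exact ⟨h1, ham.trans h2, h3⟩
            · rintro ⟨h1, h2, h3⟩
              rcases le_total (z 0) m with h4 | h4
              · exact Or.inl ⟨h1, h2, h4⟩
              · exact Or.inr ⟨h1, h4, h3⟩
          have hin2 : slab X a m ∩ slab X m v = slab X m m := by
            ext z
            constructor
            · rintro ⟨⟨h1, h2, h3⟩, ⟨_, h5, h6⟩⟩
              exact ⟨h1, h5, h3⟩
            · rintro ⟨h1, h2, h3⟩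
              exact ⟨⟨h1, ham.trans h2, h3⟩, ⟨h1, h2, h3.trans hmv.le⟩⟩
          have hfin := T8b_union (T8a_slab_compact hX a m) (T8a_slab_compact hX m v) hVm hH2
            (χ₁₂ := c m) (by rw [hin2]; exact hsliceB (i + 1) hil m hmB) (by
              intro hk0
              subst hk0
              rw [hin2]
              rintro z ⟨_, h1, h2⟩ z' ⟨_, h1', h2'⟩
              funext j
              have : j = 0 := by
                apply Fin.ext
                have := j.2
                show (j : ℕ) = 0
                omega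
              rw [this]
              exact (le_antisymm h2 h1).trans (le_antisymm h2' h1').symm)
          rw [hun2] at hfin
          have hsum : ∑ j ∈ Finset.univ.filter (fun j : Fin l => (j : ℕ) < i + 1),
              (c (x j) - rl c (x j)) =
              ∑ j ∈ Finset.univ.filter (fun j : Fin l => (j : ℕ) < i), (c (x j) - rl c (x j)) +
                (c u - c m) := by
            have e : Finset.univ.filter (fun j : Fin l => (j : ℕ) < i + 1) =
                insert ⟨i, hi'⟩ (Finset.univ.filter (fun j : Fin l => (j : ℕ) < i)) := by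
              ext j
              simp only [Finset.mem_filter, Finset.mem_univ, true_and, Finset.mem_insert,
                Fin.ext_iff]
              omega
            rw [e, Finset.sum_insert (by simp), ← hu, hrlm]
            ring
          rw [hsum]
          refine cast (congrArg (FinCoh (slab X a v) (k + 1)) ?_) hfin
          ring
      have hlast := hV (l - 1) (by omega)
      have hXeq : slab X a (x ⟨l - 1, by omega⟩) = X := by
        ext z
        constructor
        · rintro ⟨h1, _, _⟩
          exact h1
        · intro hz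
          refine ⟨hz, ?_, habove z hz⟩
          have := hbelow z hz
          rw [ha]
          linarith
      rw [hXeq] at hlast
      refine cast (congrArg (FinCoh X (k + 1)) ?_) hlast
      have hbl : InB (((⟨l - 1, by omega⟩ : Fin l) : ℕ) + 1) (x ⟨l - 1, by omega⟩ + 1) := by
        refine ⟨fun j _ => ?_, fun j hj => ?_⟩
        · have : x j ≤ x ⟨l - 1, by omega⟩ := hxm.monotone (by
            rw [Fin.le_def]
            show (j : ℕ) ≤ l - 1
            have := j.2
            omega)
          linarith
        · exfalso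
          have h1 := j.2
          simp only at hj
          omega
      have hrl0 : rl c (x ⟨l - 1, by omega⟩) = 0 := by
        rw [hrl _ _ hbl]
        have hbl' : InB l (x ⟨l - 1, by omega⟩ + 1) := by
          have e : ((⟨l - 1, by omega⟩ : Fin l) : ℕ) + 1 = l := by
            show l - 1 + 1 = l
            omega
          rw [e] at hbl
          exact hbl
        have h1 := hsliceB l le_rfl _ hbl'
        have h2 : slab X (x ⟨l - 1, by omega⟩ + 1) (x ⟨l - 1, by omega⟩ + 1) = ∅ := by
          ext z
          refine iff_of_false ?_ (Set.notMem_empty _)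
          rintro ⟨h3, h4, h5⟩
          have := habove z h3
          linarith
        rw [h2] at h1
        exact T8b_unique h1 (FinCoh.empty _)
      have e : (Finset.univ : Finset (Fin l)) =
          insert ⟨l - 1, by omega⟩ (Finset.univ.filter (fun j : Fin l => (j : ℕ) < l - 1)) := by
        ext j
        simp only [Finset.mem_filter, Finset.mem_univ, true_and, Finset.mem_insert,
          Fin.ext_iff, true_iff]
        have := j.2
        omega
      conv_rhs => rw [e]
      rw [Finset.sum_insert (by simp), hrl0]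
      ring

end BU
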