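import Pool.Agent.Work.MP_4030f5_lc.T6a

/-! # T9: truncated total complexes of closed covers -/

namespace BU

variable {M : Type} [MetricSpace M] {n : ℕ}

/-- total cochains: first argument a list of indices, second argument a list of points. -/
abbrev TC (n : ℕ) (M : Type) : Type := List (Fin n) → List M → ℚ

/-- total differential -/
def DT (c : TC n M) : TC n M := fun I τ => D c I τ + (-1) ^ I.length * D (c I) τ

theorem T9a_sign {α : Type} (F : List α → List M → ℚ) (I : List α) (τ : List M) :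
    D (fun I τ => (-1 : ℚ) ^ I.length * F I τ) I τ = -((-1 : ℚ) ^ I.length * D F I τ) := by
  induction I generalizing F with
  | nil => simp [D]
  | cons i l ih =>
    have h1 : D (fun (I : List α) (τ : List M) => (-1 : ℚ) ^ I.length * F I τ) (i :: l) τ
        = (-1 : ℚ) ^ l.length * F l τ
          - D (fun (l' : List α) (τ : List M) => (-1 : ℚ) ^ (i :: l').length * F (i :: l') τ) l τ :=
      rfl
    have h2 : D F (i :: l) τ = F l τ - D (fun l' => F (i :: l')) l τ := rfl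
    have h3 : (fun (l' : List α) (τ : List M) => (-1 : ℚ) ^ (i :: l').length * F (i :: l') τ)
        = fun l' τ => (-1 : ℚ) ^ l'.length * (fun (l' : List α) (τ : List M) => - F (i :: l') τ) l' τ := by
      funext l' τ
      simp only [List.length_cons, pow_succ]
      ring
    have h4 : D (fun (l' : List α) (τ : List M) => - F (i :: l') τ) l τ
        = - D (fun l' => F (i :: l')) l τ := by
      have := D_neg (A := List M → ℚ) (fun l' => F (i :: l')) l
      exact congrFun this τ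
    rw [h1, h3, ih, h4, h2]
    simp only [List.length_cons, pow_succ]
    ring

theorem T9a_D_D (c : TC n M) (I : List (Fin n)) (τ : List M) : D (D c) I τ = 0 := by
  have := D_D (A := List M → ℚ) c I
  rw [this]; rfl

/-- `D` in the point variables as an additive map -/
def T9a_DH (M : Type) : (List M → ℚ) →+ (List M → ℚ) where
  toFun f := D f
  map_zero' := by funext l; exact D_zero l
  map_add' f g := by funext l; exact D_add f g l

theorem DT_DT (c : TC n M) (I : List (Fin n)) (τ : List M) : DT (DT c) I τ = 0 := by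
  have h1 : D (DT c) I τ = D (D c) I τ + D (fun (I : List (Fin n)) (τ : List M) =>
      (-1 : ℚ) ^ I.length * D (c I) τ) I τ := by
    have := D_add (A := List M → ℚ) (D c) (fun (I : List (Fin n)) (τ : List M) =>
      (-1 : ℚ) ^ I.length * D (c I) τ) I
    exact congrFun this τ
  have h2 := T9a_sign (fun I => D (c I)) I τ
  have h3 : D (fun I => D (c I)) I = D (D c I) := D_map (T9a_DH M) c I
  have h4 : D (DT c I) τ = D (D c I) τ + (-1) ^ I.length * D (D (c I)) τ := by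
    have e1 : DT c I = fun τ => D c I τ + (fun τ => (-1 : ℚ) ^ I.length * D (c I) τ) τ := rfl
    rw [e1, D_add]
    congr 1
    exact D_map (AddMonoidHom.mulLeft ((-1 : ℚ) ^ I.length)) (D (c I)) τ
  have h5 : DT (DT c) I τ = D (DT c) I τ + (-1) ^ I.length * D (DT c I) τ := rfl
  rw [h5, h1, T9a_D_D, h2, h3, h4, D_D]
  ring

theorem T9a_DT_add (c e : TC n M) : DT (c + e) = DT c + DT e := by
  funext I τ
  have h1 : D (c + e) I = D c I + D e I := D_add c e I
  have h2 : D (c I + e I) τ = D (c I) τ + D (e I) τ := D_add (c I) (e I) τ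
  simp only [DT, h1, Pi.add_apply, h2]
  ring

theorem T9a_DT_smul (a : ℚ) (c : TC n M) : DT (a • c) = a • DT c := by
  funext I τ
  have h1 : D (a • c) I = a • D c I :=
    D_map (DistribSMul.toAddMonoidHom (List M → ℚ) a) c I
  have h2 : D (a • c I) τ = a * D (c I) τ := D_map (AddMonoidHom.mulLeft a) (c I) τ
  simp only [DT, h1, Pi.smul_apply, smul_eq_mul, h2]
  ring

theorem T9a_DT_zero : DT (0 : TC n M) = 0 := by
  have := T9a_DT_smul 0 (0 : TC n M)
  simpa using this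

theorem T9a_DT_neg (c : TC n M) : DT (-c) = - DT c := by
  have := T9a_DT_smul (-1) c
  simpa using this

theorem T9a_DT_sub (c e : TC n M) : DT (c - e) = DT c - DT e := by
  rw [sub_eq_add_neg, T9a_DT_add, T9a_DT_neg, sub_eq_add_neg]

theorem T9a_DT_DT (c : TC n M) : DT (DT c) = 0 := by
  funext I τ
  exact DT_DT c I τ

/-- negligible total cochains of a system `𝓔` truncated at `k` indices. -/
def ZT (k : ℕ) (𝓔 : Finset (Fin n) → Set M) (c : TC n M) : Prop :=
  ∀ I : List (Fin n), I ≠ [] → I.length ≤ k → Z (𝓔 I.toFinset) (c I)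

/-- normalised cochains -/
def TN (c : TC n M) : Prop := (∀ τ, c [] τ = 0) ∧ (∀ I, c I [] = 0)

theorem T9a_ZT_zero (k : ℕ) (𝓔 : Finset (Fin n) → Set M) : ZT k 𝓔 (0 : TC n M) :=
  fun _ _ _ => Z_zero _

theorem T9a_ZT_add {k : ℕ} {𝓔 : Finset (Fin n) → Set M} {c e : TC n M} (hc : ZT k 𝓔 c)
    (he : ZT k 𝓔 e) : ZT k 𝓔 (c + e) := fun I h0 h1 => Z_add (hc I h0 h1) (he I h0 h1)

theorem T9a_ZT_sub {k : ℕ} {𝓔 : Finset (Fin n) → Set M} {c e : TC n M} (hc : ZT k 𝓔 c)
    (he : ZT k 𝓔 e) : ZT k 𝓔 (c - e) := fun I h0 h1 => Z_sub (hc I h0 h1) (he I h0 h1)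

theorem T9a_ZT_smul {k : ℕ} {𝓔 : Finset (Fin n) → Set M} (a : ℚ) {c : TC n M}
    (hc : ZT k 𝓔 c) : ZT k 𝓔 (a • c) := fun I h0 h1 => Z_smul a (hc I h0 h1)

theorem T9a_ZT_mono {k : ℕ} {𝓔 𝓕 : Finset (Fin n) → Set M}
    (h : ∀ J : Finset (Fin n), J.Nonempty → J.card ≤ k → 𝓕 J ⊆ 𝓔 J) {c : TC n M}
    (hc : ZT k 𝓔 c) : ZT k 𝓕 c := by
  intro I h0 h1
  refine Z_mono (h _ ?_ ?_) (hc I h0 h1)
  · obtain ⟨a, ha⟩ := List.exists_mem_of_ne_nil I h0
    exact ⟨a, List.mem_toFinset.2 ha⟩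
  · exact (List.toFinset_card_le I).trans h1

theorem T9a_TN_zero : TN (0 : TC n M) := ⟨fun _ => rfl, fun _ => rfl⟩

theorem T9a_TN_add {c e : TC n M} (hc : TN c) (he : TN e) : TN (c + e) :=
  ⟨fun τ => by simp [hc.1 τ, he.1 τ], fun I => by simp [hc.2 I, he.2 I]⟩

theorem T9a_TN_sub {c e : TC n M} (hc : TN c) (he : TN e) : TN (c - e) :=
  ⟨fun τ => by simp [hc.1 τ, he.1 τ], fun I => by simp [hc.2 I, he.2 I]⟩

theorem T9a_TN_smul (a : ℚ) {c : TC n M} (hc : TN c) : TN (a • c) :=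
  ⟨fun τ => by simp [hc.1 τ], fun I => by simp [hc.2 I]⟩

theorem T9a_TN_DT {c : TC n M} (hc : TN c) : TN (DT c) := by
  constructor
  · intro τ
    have h0 : c [] = fun _ => 0 := by funext τ; exact hc.1 τ
    simp only [DT, h0, D_zero]
    simp [D]
  · intro I
    have h1 : D c I [] = 0 := by
      have e1 : D (fun I => (c I) []) I = D c I [] :=
        D_map (Pi.evalAddMonoidHom (fun _ : List M => ℚ) []) c I
      rw [← e1]
      apply D_eq_zero
      intro l' _ _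
      exact hc.2 l'
    simp [DT, h1, D]

/-- restriction to total degree `N` -/
def T9a_P (N : ℕ) (c : TC n M) : TC n M := fun I τ => if I.length + τ.length = N then c I τ else 0

theorem T9a_P_add (N : ℕ) (c e : TC n M) : T9a_P N (c + e) = T9a_P N c + T9a_P N e := by
  funext I τ
  simp only [T9a_P, Pi.add_apply]
  split_ifs <;> simp

theorem T9a_P_sub (N : ℕ) (c e : TC n M) : T9a_P N (c - e) = T9a_P N c - T9a_P N e := by
  funext I τ
  simp only [T9a_P, Pi.sub_apply]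
  split_ifs <;> simp

theorem T9a_P_smul (N : ℕ) (a : ℚ) (c : TC n M) : T9a_P N (a • c) = a • T9a_P N c := by
  funext I τ
  simp only [T9a_P, Pi.smul_apply]
  split_ifs <;> simp

theorem T9a_P_zero (N : ℕ) : T9a_P N (0 : TC n M) = 0 := by
  funext I τ
  simp only [T9a_P, Pi.zero_apply]
  split_ifs <;> simp

theorem T9a_P_P (N : ℕ) (c : TC n M) : T9a_P N (T9a_P N c) = T9a_P N c := by
  funext I τ
  simp only [T9a_P]
  split_ifs <;> simp

theorem T9a_TN_P (N : ℕ) {c : TC n M} (hc : TN c) : TN (T9a_P N c) :=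
  ⟨fun τ => by simp [T9a_P, hc.1 τ], fun I => by simp [T9a_P, hc.2 I]⟩

theorem T9a_ZT_P {k : ℕ} {𝓔 : Finset (Fin n) → Set M} (N : ℕ) {c : TC n M} (hc : ZT k 𝓔 c) :
    ZT k 𝓔 (T9a_P N c) := by
  intro I h0 h1
  obtain ⟨η, hη, h⟩ := hc I h0 h1
  refine ⟨η, hη, fun l hl hd => ?_⟩
  simp only [T9a_P]
  split_ifs
  · exact h l hl hd
  · rfl

/-- `DT` raises the total degree by one -/
theorem T9a_DT_P (N : ℕ) (c : TC n M) : DT (T9a_P N c) = T9a_P (N + 1) (DT c) := by
  funext I τ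
  have h1 : D (T9a_P N c) I τ = if I.length + τ.length = N + 1 then D c I τ else 0 := by
    have e1 : D (fun I => (T9a_P N c I) τ) I = D (T9a_P N c) I τ :=
      D_map (Pi.evalAddMonoidHom (fun _ : List M => ℚ) τ) (T9a_P N c) I
    have e2 : D (fun I => (c I) τ) I = D c I τ :=
      D_map (Pi.evalAddMonoidHom (fun _ : List M => ℚ) τ) c I
    rw [← e1, ← e2]
    split_ifs with h
    · apply D_congr
      intro l' _ hl'
      simp only [T9a_P]
      rw [if_pos (by omega)]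
    · apply D_eq_zero
      intro l' _ hl'
      simp only [T9a_P]
      rw [if_neg (by omega)]
  have h2 : D (T9a_P N c I) τ = if I.length + τ.length = N + 1 then D (c I) τ else 0 := by
    split_ifs with h
    · apply D_congr
      intro l' _ hl'
      simp only [T9a_P]
      rw [if_pos (by omega)]
    · apply D_eq_zero
      intro l' _ hl'
      simp only [T9a_P]
      rw [if_neg (by omega)]
  simp only [DT, T9a_P] at h1 h2 ⊢
  rw [h1, h2]
  split_ifs <;> simp

/-- total cocycles -/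
def tcyc (k : ℕ) (𝓔 : Finset (Fin n) → Set M) : Submodule ℚ (TC n M) where
  carrier := {c | TN c ∧ ZT k 𝓔 (DT c)}
  add_mem' := by
    rintro c e ⟨hc, hc'⟩ ⟨he, he'⟩
    refine ⟨T9a_TN_add hc he, ?_⟩
    rw [T9a_DT_add]
    exact T9a_ZT_add hc' he'
  zero_mem' := by
    refine ⟨T9a_TN_zero, ?_⟩
    rw [T9a_DT_zero]
    exact T9a_ZT_zero k 𝓔
  smul_mem' := by
    rintro a c ⟨hc, hc'⟩
    refine ⟨T9a_TN_smul a hc, ?_⟩
    rw [T9a_DT_smul]
    exact T9a_ZT_smul a hc'

/-- total coboundaries in total degree `N` (number of indices plus number of points). -/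
def tbd (k : ℕ) (𝓔 : Finset (Fin n) → Set M) (N : ℕ) : Submodule ℚ (TC n M) where
  carrier := {c | ∃ e : TC n M, TN e ∧
    ZT k 𝓔 (fun I τ => if I.length + τ.length = N then c I τ - DT e I τ else 0)}
  add_mem' := by
    rintro c c' ⟨e, he, h⟩ ⟨e', he', h'⟩
    refine ⟨e + e', T9a_TN_add he he', ?_⟩
    have h1 : ZT k 𝓔 (T9a_P N (c - DT e) + T9a_P N (c' - DT e')) := T9a_ZT_add h h'
    have h2 : T9a_P N (c - DT e) + T9a_P N (c' - DT e') = T9a_P N (c + c' - DT (e + e')) := by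
      rw [← T9a_P_add, T9a_DT_add]
      congr 1
      abel
    rw [h2] at h1
    exact h1
  zero_mem' := by
    refine ⟨0, T9a_TN_zero, ?_⟩
    have h2 : T9a_P N ((0 : TC n M) - DT (0 : TC n M)) = 0 := by
      rw [T9a_DT_zero, sub_zero, T9a_P_zero]
    have h1 : ZT k 𝓔 (T9a_P N ((0 : TC n M) - DT (0 : TC n M))) := by
      rw [h2]; exact T9a_ZT_zero k 𝓔
    exact h1
  smul_mem' := by
    rintro a c ⟨e, he, h⟩
    refine ⟨a • e, T9a_TN_smul a he, ?_⟩
    have h1 : ZT k 𝓔 (a • T9a_P N (c - DT e)) := T9a_ZT_smul a h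
    have h2 : a • T9a_P N (c - DT e) = T9a_P N (a • c - DT (a • e)) := by
      rw [← T9a_P_smul, T9a_DT_smul, smul_sub]
    rw [h2] at h1
    exact h1

abbrev HT (k : ℕ) (𝓔 : Finset (Fin n) → Set M) (N : ℕ) : Type :=
  ↥(tcyc k 𝓔) ⧸ (tbd k 𝓔 N).comap (tcyc k 𝓔).subtype

theorem T9a_mem_tcyc {k : ℕ} {𝓔 : Finset (Fin n) → Set M} {c : TC n M} :
    c ∈ tcyc k 𝓔 ↔ TN c ∧ ZT k 𝓔 (DT c) := Iff.rfl

theorem T9a_mem_tbd {k : ℕ} {𝓔 : Finset (Fin n) → Set M} {N : ℕ} {c : TC n M} :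
    c ∈ tbd k 𝓔 N ↔ ∃ e : TC n M, TN e ∧ ZT k 𝓔 (T9a_P N (c - DT e)) := Iff.rfl

theorem HT_congr (k : ℕ) {𝓔 𝓕 : Finset (Fin n) → Set M}
    (h : ∀ J : Finset (Fin n), J.Nonempty → J.card ≤ k → 𝓔 J = 𝓕 J) (N : ℕ) :
    Nonempty (HT k 𝓔 N ≃ₗ[ℚ] HT k 𝓕 N) := by
  have hZ : ∀ c : TC n M, ZT k 𝓔 c ↔ ZT k 𝓕 c := fun c =>
    ⟨T9a_ZT_mono (fun J h0 h1 => (h J h0 h1).ge), T9a_ZT_mono (fun J h0 h1 => (h J h0 h1).le)⟩
  have hcyc : ∀ c : TC n M, c ∈ tcyc k 𝓔 ↔ c ∈ tcyc k 𝓕 := fun c => by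
    rw [T9a_mem_tcyc, T9a_mem_tcyc, hZ]
  have hbd : ∀ c : TC n M, c ∈ tbd k 𝓔 N ↔ c ∈ tbd k 𝓕 N := fun c => by
    simp only [T9a_mem_tbd, hZ]
  refine quot_equiv LinearMap.id (fun c hc => (hcyc c).1 hc) (fun c _ => (hbd c).symm)
    (fun c' hc' => ⟨c', (hcyc c').2 hc', ?_⟩)
  have h0 : c' - (LinearMap.id : TC n M →ₗ[ℚ] TC n M) c' = 0 := sub_self c'
  rw [h0]
  exact Submodule.zero_mem _

theorem T9a_Z_D_left {α : Type} {X : Set M} (c : List α → List M → ℚ) (I : List α)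
    (h : ∀ I', I'.Sublist I → I'.length + 1 = I.length → Z X (c I')) : Z X (D c I) := by
  induction I generalizing c with
  | nil => exact Z_zero X
  | cons i l ih =>
    have h1 : Z X (c l) := h l (List.sublist_cons_self i l) (by simp)
    have h2 : Z X (D (fun l' => c (i :: l')) l) := by
      apply ih
      intro l' hl' hlen
      exact h (i :: l') (hl'.cons_cons i) (by simp [hlen])
    exact Z_sub h1 h2

theorem T9a_Z_D {𝓔 : Finset (Fin n) → Set M} (h𝓔 : ∀ J J', J ⊆ J' → 𝓔 J' ⊆ 𝓔 J) {c : TC n M}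
    (h0 : ∀ τ, c [] τ = 0) (I : List (Fin n))
    (h : ∀ I', I' ≠ [] → I'.length + 1 = I.length → Z (𝓔 I'.toFinset) (c I')) :
    Z (𝓔 I.toFinset) (D c I) := by
  apply T9a_Z_D_left
  intro I' hI' hlen
  by_cases hn : I' = []
  · have : c I' = fun _ => 0 := by
      funext τ
      rw [hn]; exact h0 τ
    rw [this]
    exact Z_zero _
  · refine Z_mono (h𝓔 _ _ ?_) (h I' hn hlen)
    intro x hx
    rw [List.mem_toFinset] at hx ⊢
    exact hI'.subset hx

theorem T9a_ZT_DT {k : ℕ} {𝓔 : Finset (Fin n) → Set M} (h𝓔 : ∀ J J', J ⊆ J' → 𝓔 J' ⊆ 𝓔 J)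
    {c : TC n M} (h0 : ∀ τ, c [] τ = 0) (hc : ZT k 𝓔 c) : ZT k 𝓔 (DT c) := by
  intro I hI hk
  have h1 : Z (𝓔 I.toFinset) (D c I) :=
    T9a_Z_D h𝓔 h0 I (fun I' hI' hlen => hc I' hI' (by omega))
  have h2 : Z (𝓔 I.toFinset) (fun τ => (-1) ^ I.length * D (c I) τ) :=
    Z_smul _ (Z_D (hc I hI hk))
  exact Z_add h1 h2

theorem T9a_DT_low {c : TC n M} {s : ℕ} (hc : ∀ I : List (Fin n), I.length ≠ s + 1 → c I = 0)
    {I : List (Fin n)} (hI : I.length ≤ s) (τ : List M) : DT c I τ = 0 := by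
  have h1 : D c I = 0 := by
    apply D_eq_zero
    intro l' _ hl'
    exact hc l' (by omega)
  have h2 : c I = 0 := hc I (by omega)
  have h3 : D (c I) τ = 0 := by
    rw [h2]; exact D_zero τ
  simp [DT, h1, h3]

theorem T9a_DT_top {c : TC n M} {s : ℕ} (hc : ∀ I : List (Fin n), I.length ≠ s + 1 → c I = 0)
    {I : List (Fin n)} (hI : I.length = s + 1) (τ : List M) :
    DT c I τ = (-1) ^ (s + 1) * D (c I) τ := by
  have h1 : D c I = 0 := by
    apply D_eq_zero
    intro l' _ hl'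
    exact hc l' (by omega)
  simp [DT, h1, hI]

/-- relative acyclicity of the total complexes -/
theorem T9a_ker (k : ℕ) {𝓔 𝓕 : Finset (Fin n) → Set M}
    (h𝓔 : ∀ J J', J ⊆ J' → 𝓔 J' ⊆ 𝓔 J) (h𝓕 : ∀ J J', J ⊆ J' → 𝓕 J' ⊆ 𝓕 J)
    (hac : ∀ J : Finset (Fin n), J.Nonempty → J.card ≤ k → Acyc (𝓔 J) (𝓕 J))
    {c : TC n M} (hc : TN c) (hF : ZT k 𝓕 c) (hE : ZT k 𝓔 (DT c)) :
    ∃ e : TC n M, TN e ∧ ZT k 𝓕 e ∧ ZT k 𝓔 (c - DT e) := by
  have main : ∀ s : ℕ, ∃ e : TC n M, TN e ∧ ZT k 𝓕 e ∧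
      ∀ I : List (Fin n), I ≠ [] → I.length ≤ k → I.length ≤ s →
        Z (𝓔 I.toFinset) ((c - DT e) I) := by
    intro s
    induction s with
    | zero =>
      refine ⟨0, T9a_TN_zero, T9a_ZT_zero k 𝓕, ?_⟩
      intro I hI _ h0
      exact absurd (List.length_eq_zero_iff.1 (by omega)) hI
    | succ s ih =>
      obtain ⟨e, he, heF, heE⟩ := ih
      set c₁ : TC n M := c - DT e with hc₁
      have hN₁ : TN c₁ := T9a_TN_sub hc (T9a_TN_DT he)
      have hF₁ : ZT k 𝓕 c₁ := T9a_ZT_sub hF (T9a_ZT_DT h𝓕 he.1 heF)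
      have hE₁ : ZT k 𝓔 (DT c₁) := by
        rw [hc₁, T9a_DT_sub, T9a_DT_DT, sub_zero]
        exact hE
      have hex : ∀ I : List (Fin n), ∃ g : List M → ℚ, g [] = 0 ∧
          (I.length = s + 1 → I.length ≤ k → Z (𝓕 I.toFinset) g ∧
            Z (𝓔 I.toFinset) (fun τ => c₁ I τ - D g τ)) := by
        intro I
        by_cases hIs : I.length = s + 1 ∧ I.length ≤ k
        · have hI : I ≠ [] := by
            rintro rfl
            simp at hIs
          have h1 : Z (𝓔 I.toFinset) (D c₁ I) :=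
            T9a_Z_D h𝓔 hN₁.1 I (fun I' hI' hlen => heE I' hI' (by omega) (by omega))
          have h2 : Z (𝓔 I.toFinset) (fun τ => DT c₁ I τ - D c₁ I τ) := Z_sub (hE₁ I hI hIs.2) h1
          have h3 : Z (𝓔 I.toFinset) (D (c₁ I)) := by
            have h4 := Z_smul ((-1) ^ I.length) h2
            have h5 : (fun τ => (-1 : ℚ) ^ I.length * (DT c₁ I τ - D c₁ I τ)) = D (c₁ I) := by
              funext τ
              have : ((-1 : ℚ) ^ I.length) * ((-1 : ℚ) ^ I.length) = 1 := by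
                rw [← mul_pow]; simp
              simp only [DT]
              linear_combination (D (c₁ I) τ) * this
            rw [h5] at h4
            exact h4
          have hJ : I.toFinset.Nonempty := by
            obtain ⟨a, ha⟩ := List.exists_mem_of_ne_nil I hI
            exact ⟨a, List.mem_toFinset.2 ha⟩
          have hJk : I.toFinset.card ≤ k := (List.toFinset_card_le I).trans hIs.2
          obtain ⟨g, hg, hg'⟩ := hac I.toFinset hJ hJk (c₁ I) (hF₁ I hI hIs.2) h3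
          exact ⟨g, Z_nil hg, fun _ _ => ⟨hg, hg'⟩⟩
        · exact ⟨fun _ => 0, rfl, fun ha hb => absurd ⟨ha, hb⟩ hIs⟩
      choose g hg0 hg using hex
      set e₁ : TC n M := fun I τ => if I.length = s + 1 ∧ I.length ≤ k then
        (-1) ^ (s + 1) * g I τ else 0 with he₁
      have hlow : ∀ I : List (Fin n), I.length ≠ s + 1 → e₁ I = 0 := by
        intro I hI
        funext τ
        simp [he₁, hI]
      have hN₂ : TN e₁ := by
        constructor
        · intro τ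
          simp [he₁]
        · intro I
          simp [he₁, hg0]
      have hZ₂ : ZT k 𝓕 e₁ := by
        intro I hI hk
        by_cases hs : I.length = s + 1
        · have h1 := Z_smul ((-1 : ℚ) ^ (s + 1)) (hg I hs hk).1
          have h2 : e₁ I = fun τ => (-1 : ℚ) ^ (s + 1) * g I τ := by
            funext τ
            simp only [he₁]
            rw [if_pos ⟨hs, hk⟩]
          rw [h2]
          exact h1
        · rw [hlow I hs]
          exact Z_zero _
      refine ⟨e + e₁, T9a_TN_add he hN₂, T9a_ZT_add heF hZ₂, ?_⟩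
      intro I hI hk hs
      have hsub : (c - DT (e + e₁)) I = fun τ => c₁ I τ - DT e₁ I τ := by
        funext τ
        rw [T9a_DT_add]
        simp only [hc₁, Pi.sub_apply, Pi.add_apply]
        ring
      rw [hsub]
      rcases Nat.lt_or_ge I.length (s + 1) with hlt | hge
      · have h0 : (fun τ => c₁ I τ - DT e₁ I τ) = c₁ I := by
          funext τ
          rw [T9a_DT_low hlow (by omega)]
          ring
        rw [h0]
        exact heE I hI hk (by omega)
      · have hlen : I.length = s + 1 := by omega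
        have h0 : (fun τ => c₁ I τ - DT e₁ I τ) = fun τ => c₁ I τ - D (g I) τ := by
          funext τ
          rw [T9a_DT_top hlow hlen]
          have h2 : e₁ I = fun τ => (-1 : ℚ) ^ (s + 1) * g I τ := by
            funext τ
            simp only [he₁]
            rw [if_pos ⟨hlen, hk⟩]
          have h3 : D (e₁ I) τ = (-1 : ℚ) ^ (s + 1) * D (g I) τ := by
            rw [h2]
            exact D_map (AddMonoidHom.mulLeft ((-1 : ℚ) ^ (s + 1))) (g I) τ
          have : ((-1 : ℚ) ^ (s + 1)) * ((-1 : ℚ) ^ (s + 1)) = 1 := by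
            rw [← mul_pow]; simp
          rw [h3]
          linear_combination (- D (g I) τ) * this
        rw [h0]
        exact (hg I hlen hk).2
  obtain ⟨e, he, heF, heE⟩ := main k
  exact ⟨e, he, heF, fun I h0 h1 => heE I h0 h1 h1⟩

/-- restriction to a subsystem that is pointwise relatively acyclic. -/
theorem HT_of_acyc (k : ℕ) {𝓔 𝓕 : Finset (Fin n) → Set M}
    (h𝓔 : ∀ J J', J ⊆ J' → 𝓔 J' ⊆ 𝓔 J) (h𝓕 : ∀ J J', J ⊆ J' → 𝓕 J' ⊆ 𝓕 J)
    (hsub : ∀ J, 𝓕 J ⊆ 𝓔 J)
    (hac : ∀ J : Finset (Fin n), J.Nonempty → J.card ≤ k → Acyc (𝓔 J) (𝓕 J)) (N : ℕ) :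
    Nonempty (HT k 𝓔 N ≃ₗ[ℚ] HT k 𝓕 N) := by
  have hmono : ∀ {c : TC n M}, ZT k 𝓔 c → ZT k 𝓕 c := fun {c} hc =>
    T9a_ZT_mono (fun J _ _ => hsub J) hc
  refine quot_equiv LinearMap.id ?_ ?_ ?_
  · rintro c ⟨hc, hc'⟩
    exact ⟨hc, hmono hc'⟩
  · rintro c ⟨hc, hc'⟩
    constructor
    · rintro ⟨e, he, h⟩
      have h1 : ZT k 𝓕 (T9a_P N (c - DT e)) := h
      have hTN : TN (T9a_P N (c - DT e)) := T9a_TN_P N (T9a_TN_sub hc (T9a_TN_DT he))
      have hDT : ZT k 𝓔 (DT (T9a_P N (c - DT e))) := by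
        rw [T9a_DT_P, T9a_DT_sub, T9a_DT_DT, sub_zero]
        exact T9a_ZT_P _ hc'
      obtain ⟨e', he', _, h2⟩ := T9a_ker k h𝓔 h𝓕 hac hTN h1 hDT
      rw [T9a_mem_tbd]
      refine ⟨e + e', T9a_TN_add he he', ?_⟩
      have h3 := T9a_ZT_P N h2
      have h4 : T9a_P N (T9a_P N (c - DT e) - DT e') = T9a_P N (c - DT (e + e')) := by
        rw [T9a_P_sub, T9a_P_P, ← T9a_P_sub, T9a_DT_add]
        congr 1
        abel
      rw [h4] at h3
      exact h3
    · rintro ⟨e, he, h⟩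
      exact ⟨e, he, hmono h⟩
  · rintro c' ⟨hc, hc'⟩
    have hE : ZT k 𝓔 (DT (DT c')) := by
      rw [T9a_DT_DT]
      exact T9a_ZT_zero k 𝓔
    obtain ⟨u, hu, huF, huE⟩ := T9a_ker k h𝓔 h𝓕 hac (T9a_TN_DT hc) hc' hE
    refine ⟨c' - u, ⟨T9a_TN_sub hc hu, ?_⟩, ?_⟩
    · rw [T9a_DT_sub]
      exact huE
    · rw [T9a_mem_tbd]
      refine ⟨0, T9a_TN_zero, ?_⟩
      have h1 : c' - (LinearMap.id : TC n M →ₗ[ℚ] TC n M) (c' - u) - DT (0 : TC n M) = u := by
        rw [T9a_DT_zero, LinearMap.id_apply]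
        abel
      rw [h1]
      exact T9a_ZT_P N huF

end BU
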