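import Pool.Agent.Work.MP_4030f5_lc.F5
import Pool.Agent.Work.MP_4030f5_lc.B5

namespace BU.TreesOnly

open BU

/-- In every dimension `k ≥ 2` the Betti numbers of the union of `n` closed bounded semialgebraic
sets of constant description complexity are computed with `O(n^k)` operations on real numbers
(arithmetic operations and comparisons, integer constants only); in dimension `k = 1` this is
false, even if arbitrary real constants may be used. The cohomology of the unions is finite
dimensional and vanishes in the degrees `≥ k`. -/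
theorem trees_only :
    (∀ k c : ℕ, 2 ≤ k → FastBetti k c) ∧
    (∀ c : ℕ, 1 ≤ c → ¬ FastBettiR 1 c) ∧
    (∀ (k c n : ℕ) (F : Fin n → Formula c) (a : Fin n → Coef (k + c) c), 1 ≤ k → Arr k F a →
      ∀ q : ℕ, Module.Finite ℚ (HAS (uni k F a) q) ∧ (k ≤ q → betti (uni k F a) q = 0)) := by
  have hcomp : ∀ (k c n : ℕ) (F : Fin n → Formula c) (a : Fin n → Coef (k + c) c), Arr k F a →
      ∀ i, IsCompact (foSet (k := k) (F i) (a i)) :=
    fun k c n F a ha i => Metric.isCompact_of_isClosed_isBounded (ha i).1 (ha i).2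
  refine ⟨fun k c hk => ?_, fun c hc => ?_, fun k c n F a hk ha q => ?_⟩
  · obtain ⟨C, hC⟩ := main_fo k hk c
    refine ⟨C, fun n F => ?_⟩
    obtain ⟨T, hT, hrun⟩ := hC n F
    exact ⟨T, hT, fun a ha s q => hrun a s (hcomp k c n F a ha) q⟩
  · rintro ⟨C, hC⟩
    refine no_linear_betti_fo c hc ⟨C, fun n F => ?_⟩
    obtain ⟨T, hT, hrun⟩ := hC n F
    exact ⟨T, hT, fun a s ha q => hrun a (fun i => ⟨(ha i).isClosed, (ha i).isBounded⟩) s q⟩
  · exact ⟨finite_cohomology_fo F a (hcomp k c n F a ha) q,
      fun hq => betti_eq_zero_fo hk F a (hcomp k c n F a ha) q hq⟩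

end BU.TreesOnly
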